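import Pool.Agent.Work.MP_80ee1d_an.Ctx

-- merged part: Pool.Agent.Work.MP_80ee1d_an.AlgA
section
/-!
Real algebra of the fibering function `FF` on the closed quadrant, part A.

PLAN. `FF` is a quadratic polynomial in `(s, t)`, concave when `β² R² ≤ m1 m2 P Q`; its gradient
is `((a - m1 P s - β R t) / 2, (b - β R s - m2 Q t) / 2)` and
`FF x - FF y = ∇FF(y)·(x - y) - (m1 P σ² + 2 β R σ τ + m2 Q τ²) / 4` with `(σ, τ) = x - y`.
`kkt_exists`: if `a m2 Q ≤ β R b` take `(0, b / (m2 Q))`; if `b m1 P ≤ β R a` take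
`(a / (m1 P), 0)`; otherwise solve the linear system by Cramer's rule.
`ub_near`: for data `d'` within `η` of `d` the gradient at `(s, t)` moves by `O(η)`, the gradient for
`d` pairs non-positively with `x - (s, t)` (KKT), and the quadratic part is at least
`c |x - (s,t)|²` for `η ≤ η₀`; maximise `C η r - c r²`.
`le_of_tendsto_data`: take a KKT point of the limit data, `ub_near` along the sequence, let
`η → 0`; `FF` at the KKT point is at most `m`.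
`danskin`: `g ε = FF (d ε) s t` has derivative `D` at `0`; differentiability gives data within
`K |ε|`, hence `g 0 ≤ g ε + K' ε²` near `0`, so `ε ↦ g ε + K' ε²` has a local minimum
(`IsLocalMin.hasDerivAt_eq_zero`).
`ub_almost`: complete the square in `t - 1`, then in `s`.
-/

open Filter Topology

noncomputable section
namespace CritSys

variable {m1 m2 β : ℝ}

theorem AlgA_det (hd : β ^ 2 < m1 * m2) {P Q R : ℝ} (hP : 0 < P) (hQ : 0 < Q)
    (hRR : R ^ 2 ≤ P * Q) : (β * R) ^ 2 < m1 * P * (m2 * Q) := by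
  have h1 := mul_le_mul_of_nonneg_left hRR (sq_nonneg β)
  have h2 := mul_lt_mul_of_pos_right hd (mul_pos hP hQ)
  linarith only [h1, h2]

theorem AlgA_sq {A : ℝ} (hA : 0 < A) (a s : ℝ) : s * a / 2 - A * s ^ 2 / 4 ≤ a ^ 2 / (4 * A) := by
  rw [le_div_iff₀ (by positivity)]
  linarith only [sq_nonneg (a - A * s)]

theorem AlgA_id (A B C x y : ℝ) : (A + B) * (A * x ^ 2 + 2 * C * x * y + B * y ^ 2) =
    (A * B - C ^ 2) * (x ^ 2 + y ^ 2) + ((A * x + C * y) ^ 2 + (C * x + B * y) ^ 2) := by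
  ring

theorem AlgA_psd {A B C : ℝ} (hA : 0 ≤ A) (hB : 0 ≤ B) (h : C ^ 2 ≤ A * B) (x y : ℝ) :
    0 ≤ A * x ^ 2 + 2 * C * x * y + B * y ^ 2 := by
  rcases (add_nonneg hA hB).eq_or_lt with h0 | h0
  · obtain rfl : A = 0 := by linarith only [hA, hB, h0]
    obtain rfl : B = 0 := by linarith
    obtain rfl : C = 0 := pow_eq_zero_iff two_ne_zero |>.1 (le_antisymm (by linarith) (sq_nonneg C))
    simp
  · refine nonneg_of_mul_nonneg_right ?_ h0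
    rw [AlgA_id]
    have := sub_nonneg.2 h
    positivity

theorem AlgA_pd {A B C : ℝ} (hA : 0 < A) (hB : 0 < B) (h : C ^ 2 < A * B) : ∃ δ : ℝ, 0 < δ ∧
    ∀ x y : ℝ, δ * (x ^ 2 + y ^ 2) ≤ A * x ^ 2 + 2 * C * x * y + B * y ^ 2 := by
  refine ⟨(A * B - C ^ 2) / (A + B), div_pos (sub_pos.2 h) (add_pos hA hB), fun x y => ?_⟩
  rw [div_mul_eq_mul_div, div_le_iff₀' (add_pos hA hB), AlgA_id]
  exact le_add_of_nonneg_right (by positivity)

theorem AlgA_pert {A B C d : ℝ} (hA : |A| ≤ d) (hB : |B| ≤ d) (hC : |C| ≤ d) (x y : ℝ) :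
    -(2 * d * (x ^ 2 + y ^ 2)) ≤ A * x ^ 2 + 2 * C * x * y + B * y ^ 2 := by
  have h1 := mul_le_mul_of_nonneg_right (abs_le.1 hA).1 (sq_nonneg x)
  have h2 := mul_le_mul_of_nonneg_right (abs_le.1 hB).1 (sq_nonneg y)
  have h3 := mul_le_mul_of_nonneg_right (abs_le.1 hC).1 (sq_nonneg (x + y))
  have h4 := mul_le_mul_of_nonneg_right (abs_le.1 hC).2 (sq_nonneg (x - y))
  linarith only [h1, h2, h3, h4]

theorem AlgA_lin {δ M η s t a A C : ℝ} (hδ : 0 < δ) (hs : 0 ≤ s) (ht : 0 ≤ t) (ha : |a| ≤ η)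
    (hA : |A| ≤ M * η) (hC : |C| ≤ M * η) (x : ℝ) :
    x * (a - (A * s + C * t)) / 2 - δ / 2 * x ^ 2 / 4 ≤ (1 + M * (s + t)) ^ 2 / δ * η ^ 2 / 2 := by
  refine (AlgA_sq (half_pos hδ) _ x).trans ?_
  have h1 : |a - (A * s + C * t)| ≤ (1 + M * (s + t)) * η := by
    have h2 := mul_le_mul_of_nonneg_right (abs_le.1 hA).1 hs
    have h3 := mul_le_mul_of_nonneg_right (abs_le.1 hA).2 hs
    have h4 := mul_le_mul_of_nonneg_right (abs_le.1 hC).1 ht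
    have h5 := mul_le_mul_of_nonneg_right (abs_le.1 hC).2 ht
    have h6 := abs_le.1 ha
    exact abs_le.2 ⟨by linarith only [h3, h5, h6], by linarith⟩
  have h2 := pow_le_pow_left₀ (abs_nonneg _) h1 2
  rw [sq_abs] at h2
  calc _ ≤ ((1 + M * (s + t)) * η) ^ 2 / (4 * (δ / 2)) := by gcongr
    _ = _ := by field_simp; ring

theorem AlgA_tendsto {a b P Q R : ℕ → ℝ} {a' b' P' Q' R' : ℝ}
    (ha : Tendsto a atTop (𝓝 a')) (hb : Tendsto b atTop (𝓝 b')) (hP : Tendsto P atTop (𝓝 P'))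
    (hQ : Tendsto Q atTop (𝓝 Q')) (hR : Tendsto R atTop (𝓝 R')) (s t : ℝ) :
    Tendsto (fun n => FF m1 m2 β (a n) (b n) (P n) (Q n) (R n) s t) atTop
      (𝓝 (FF m1 m2 β a' b' P' Q' R' s t)) :=
  (((ha.const_mul s).add (hb.const_mul t)).div_const 2).sub
    (((((hP.const_mul m1).mul_const _).add (((hR.const_mul (2 * β)).mul_const s).mul_const t)).add
      ((hQ.const_mul m2).mul_const _)).div_const 4)

theorem FF_swap (m1 m2 β a b P Q R s t : ℝ) :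
    FF m1 m2 β a b P Q R s t = FF m2 m1 β b a Q P R t s := by
  unfold FF; ring

theorem Ub.swap {a b P Q R c : ℝ} (h : Ub m1 m2 β a b P Q R c) : Ub m2 m1 β b a Q P R c :=
  fun s t hs ht => by rw [FF_swap]; exact h t s ht hs

theorem KKT.swap {a b P Q R s t : ℝ} (h : KKT m1 m2 β a b P Q R s t) :
    KKT m2 m1 β b a Q P R t s := by
  obtain ⟨h1, h2, h3, h4, h5, h6⟩ := h
  exact ⟨h2, h1, by linarith, by linarith, by linarith only [h6], by linarith only [h5]⟩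

theorem Ub.mono {a b P Q R c a' b' c' : ℝ} (h : Ub m1 m2 β a b P Q R c) (ha : a' ≤ a)
    (hb : b' ≤ b) (hc : c ≤ c') : Ub m1 m2 β a' b' P Q R c' := by
  intro s t hs ht
  have h1 := h s t hs ht
  have h2 := mul_le_mul_of_nonneg_left ha hs
  have h3 := mul_le_mul_of_nonneg_left hb ht
  unfold FF at h1 ⊢
  linarith only [hc, h1, h2, h3]

theorem Ub.nonneg {a b P Q R c : ℝ} (h : Ub m1 m2 β a b P Q R c) : 0 ≤ c := by
  simpa [FF] using h 0 0 le_rfl le_rfl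

theorem Ub.axis1 {a b P Q R c : ℝ} (h : Ub m1 m2 β a b P Q R c) (ha : 0 ≤ a) (hP : 0 < m1 * P) :
    a ^ 2 ≤ 4 * (m1 * P) * c := by
  have h1 := h (a / (m1 * P)) 0 (by positivity) le_rfl
  have h2 : FF m1 m2 β a b P Q R (a / (m1 * P)) 0 = a ^ 2 / (4 * (m1 * P)) := by
    unfold FF
    generalize m1 * P = A at hP
    field_simp
    ring
  rw [h2, div_le_iff₀ (by positivity)] at h1
  linarith

theorem Ub.axis2 {a b P Q R c : ℝ} (h : Ub m1 m2 β a b P Q R c) (hb : 0 ≤ b) (hQ : 0 < m2 * Q) :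
    b ^ 2 ≤ 4 * (m2 * Q) * c := by
  exact h.swap.axis1 hb hQ

theorem kkt_exists (h1 : 0 < m1) (h2 : 0 < m2) (hβ : 0 ≤ β) (hd : β ^ 2 < m1 * m2)
    {a b P Q R : ℝ} (ha : 0 ≤ a) (hb : 0 ≤ b) (hP : 0 < P) (hQ : 0 < Q) (hR : 0 ≤ R)
    (hRR : R ^ 2 ≤ P * Q) : ∃ s t, KKT m1 m2 β a b P Q R s t := by
  have hA : 0 < m1 * P := mul_pos h1 hP
  have hB : 0 < m2 * Q := mul_pos h2 hQ
  have hC : 0 ≤ β * R := mul_nonneg hβ hR
  have hD := AlgA_det hd hP hQ hRR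
  unfold KKT
  generalize m1 * P = A at *
  generalize m2 * Q = B at *
  generalize β * R = C at *
  by_cases c1 : a * B ≤ C * b
  · have e : B * (b / B) = b := by field_simp
    refine ⟨0, b / B, le_rfl, by positivity, ?_, by rw [e]; linarith, by ring, by rw [e]; ring⟩
    rw [mul_zero, zero_add, ← mul_div_assoc, le_div_iff₀ hB]
    exact c1
  by_cases c2 : b * A ≤ C * a
  · have e : A * (a / A) = a := by field_simp
    refine ⟨a / A, 0, by positivity, le_rfl, by rw [e]; linarith only [], ?_, by rw [e]; ring, by ring⟩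
    rw [mul_zero, add_zero, ← mul_div_assoc, le_div_iff₀ hA]
    exact c2
  have hD' : 0 < A * B - C ^ 2 := sub_pos.2 hD
  have e1 : A * ((a * B - C * b) / (A * B - C ^ 2)) + C * ((b * A - C * a) / (A * B - C ^ 2)) =
      a := by
    field_simp
    ring
  have e2 : C * ((a * B - C * b) / (A * B - C ^ 2)) + B * ((b * A - C * a) / (A * B - C ^ 2)) =
      b := by
    rw [← mul_div_assoc, ← mul_div_assoc, ← add_div, div_eq_iff hD'.ne']
    ring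
  refine ⟨(a * B - C * b) / (A * B - C ^ 2), (b * A - C * a) / (A * B - C ^ 2),
    div_nonneg (by linarith only [c1]) hD'.le, div_nonneg (by linarith only [c2]) hD'.le, e1.ge, e2.ge, ?_, ?_⟩
  · rw [e1, sub_self, mul_zero]
  · rw [e2, sub_self, mul_zero]

theorem KKT.val {a b P Q R s t : ℝ} (h : KKT m1 m2 β a b P Q R s t) :
    FF m1 m2 β a b P Q R s t = (s * a + t * b) / 4 := by
  obtain ⟨-, -, -, -, h5, h6⟩ := h
  unfold FF
  linear_combination (1 / 4) * h5 + (1 / 4) * h6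

theorem KKT.ub {a b P Q R s t : ℝ} (h : KKT m1 m2 β a b P Q R s t) (hP : 0 ≤ m1 * P)
    (hQ : 0 ≤ m2 * Q) (hd : (β * R) ^ 2 ≤ m1 * P * (m2 * Q)) :
    Ub m1 m2 β a b P Q R (FF m1 m2 β a b P Q R s t) := by
  intro x y hx hy
  obtain ⟨-, -, h3, h4, h5, h6⟩ := h
  have h7 := AlgA_psd hP hQ hd (x - s) (y - t)
  have h8 := mul_nonneg hx (sub_nonneg.2 h3)
  have h9 := mul_nonneg hy (sub_nonneg.2 h4)
  unfold FF
  linarith only [h5, h6, h7, h8, h9]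

theorem ub_sum {a b P Q R : ℝ} (hβ : 0 ≤ β) (hR : 0 ≤ R) (hP : 0 < m1 * P) (hQ : 0 < m2 * Q) :
    Ub m1 m2 β a b P Q R (a ^ 2 / (4 * (m1 * P)) + b ^ 2 / (4 * (m2 * Q))) := by
  intro s t hs ht
  have h1 := AlgA_sq hP a s
  have h2 := AlgA_sq hQ b t
  have h3 : 0 ≤ β * R * s * t := by positivity
  unfold FF
  linarith only [h1, h2, h3]

theorem ub_almost (h1 : 0 < m1) (h2 : 0 < m2) (hβ : 0 ≤ β) (hd : β ^ 2 < m1 * m2)
    {a b P Q R η : ℝ} (hP : 0 < P) (hQ : 0 < Q) (hR : 0 ≤ R) (hRR : R ^ 2 ≤ P * Q)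
    (hη : 0 ≤ η) (hb : b = m2 * Q) (ha : a ≤ (β + η) * R) :
    Ub m1 m2 β a b P Q R (b / 4 + η ^ 2 * (m2 * Q) / (4 * (m1 * m2 - β ^ 2))) := by
  intro s t hs ht
  have hB : 0 < m2 * Q := mul_pos h2 hQ
  have hD : 0 < m1 * m2 - β ^ 2 := sub_pos.2 hd
  have k1 := mul_le_mul_of_nonneg_left ha hs
  have k2 : (m1 * m2 - β ^ 2) / (m2 * Q) * (s * R) ^ 2 ≤
      m1 * P * s ^ 2 + 2 * (β * R) * s * (t - 1) + m2 * Q * (t - 1) ^ 2 := by
    rw [div_mul_eq_mul_div, div_le_iff₀ hB]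
    have k3 := mul_le_mul_of_nonneg_left hRR (mul_nonneg (mul_pos h1 h2).le (sq_nonneg s))
    have k4 := sq_nonneg (β * R * s + m2 * Q * (t - 1))
    linarith only [k3, k4]
  have k5 := AlgA_sq (div_pos hD hB) η (s * R)
  have k6 : η ^ 2 / (4 * ((m1 * m2 - β ^ 2) / (m2 * Q))) =
      η ^ 2 * (m2 * Q) / (4 * (m1 * m2 - β ^ 2)) := by
    field_simp
  unfold FF
  rw [hb, ← k6]
  linarith only [k1, k2, k5]

theorem ub_of_tendsto {a b P Q R c : ℕ → ℝ} {a' b' P' Q' R' c' : ℝ}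
    (ha : Tendsto a atTop (𝓝 a')) (hb : Tendsto b atTop (𝓝 b')) (hP : Tendsto P atTop (𝓝 P'))
    (hQ : Tendsto Q atTop (𝓝 Q')) (hR : Tendsto R atTop (𝓝 R')) (hc : Tendsto c atTop (𝓝 c'))
    (h : ∀ n, Ub m1 m2 β (a n) (b n) (P n) (Q n) (R n) (c n)) : Ub m1 m2 β a' b' P' Q' R' c' := by
  exact fun s t hs ht => le_of_tendsto_of_tendsto' (AlgA_tendsto ha hb hP hQ hR s t) hc
    fun n => h n s t hs ht

theorem ub_near {a b P Q R s t : ℝ} (h : KKT m1 m2 β a b P Q R s t) (hP : 0 < m1 * P)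
    (hQ : 0 < m2 * Q) (hd : (β * R) ^ 2 < m1 * P * (m2 * Q)) :
    ∃ K η₀ : ℝ, 0 < η₀ ∧ ∀ η a' b' P' Q' R' : ℝ, η ≤ η₀ → |a' - a| ≤ η → |b' - b| ≤ η →
      |P' - P| ≤ η → |Q' - Q| ≤ η → |R' - R| ≤ η →
      Ub m1 m2 β a' b' P' Q' R' (FF m1 m2 β a' b' P' Q' R' s t + K * η ^ 2) := by
  obtain ⟨hs, ht, h3, h4, h5, h6⟩ := h
  obtain ⟨δ, hδ, hq⟩ := AlgA_pd hP hQ hd
  obtain ⟨M, hM, k1, k2, k3⟩ : ∃ M : ℝ, 0 < M ∧ |m1| ≤ M ∧ |m2| ≤ M ∧ |β| ≤ M :=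
    ⟨|m1| + |m2| + |β| + 1, by positivity, by linarith only [abs_nonneg m2, abs_nonneg β],
      by linarith [abs_nonneg m1, abs_nonneg β], by linarith [abs_nonneg m1, abs_nonneg m2]⟩
  refine ⟨(1 + M * (s + t)) ^ 2 / δ, δ / (4 * M), by positivity,
    fun η a' b' P' Q' R' hη ea eb eP eQ eR x y hx hy => ?_⟩
  have h0 : 0 ≤ η := (abs_nonneg _).trans ea
  have key : ∀ {m X X' : ℝ}, |m| ≤ M → |X' - X| ≤ η → |m * X' - m * X| ≤ M * η := fun h h' => by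
    rw [← mul_sub, abs_mul]
    exact mul_le_mul h h' (abs_nonneg _) hM.le
  have eA := key k1 eP
  have eB := key k2 eQ
  have eC := key k3 eR
  have hMη : M * η ≤ δ / 4 := by
    rw [le_div_iff₀ (by positivity)] at hη
    linarith only [hη]
  have h8 := mul_nonneg hx (sub_nonneg.2 h3)
  have h9 := mul_nonneg hy (sub_nonneg.2 h4)
  have g1 := AlgA_lin hδ hs ht ea eA eC (x - s)
  have g2 := AlgA_lin hδ hs ht eb eC eB (y - t)
  have g3 := AlgA_pert (eA.trans hMη) (eB.trans hMη) (eC.trans hMη) (x - s) (y - t)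
  have g4 := hq (x - s) (y - t)
  unfold FF
  linarith only [h5, h6, h8, h9, g1, g2, g3, g4]

theorem AlgA_near {a b P Q R s t : ℝ} (h : KKT m1 m2 β a b P Q R s t) (hP : 0 < m1 * P)
    (hQ : 0 < m2 * Q) (hd : (β * R) ^ 2 < m1 * P * (m2 * Q)) :
    ∃ K η : ℝ, 0 < η ∧ ∀ a' b' P' Q' R' : ℝ,
      (a' - a) ^ 2 + (b' - b) ^ 2 + (P' - P) ^ 2 + (Q' - Q) ^ 2 + (R' - R) ^ 2 ≤ η →
      Ub m1 m2 β a' b' P' Q' R' (FF m1 m2 β a' b' P' Q' R' s t +
        K * ((a' - a) ^ 2 + (b' - b) ^ 2 + (P' - P) ^ 2 + (Q' - Q) ^ 2 + (R' - R) ^ 2)) := by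
  obtain ⟨K, η, hη, hK⟩ := ub_near h hP hQ hd
  refine ⟨K, η ^ 2, by positivity, fun a' b' P' Q' R' h1 => ?_⟩
  have k1 := sq_nonneg (a' - a)
  have k2 := sq_nonneg (b' - b)
  have k3 := sq_nonneg (P' - P)
  have k4 := sq_nonneg (Q' - Q)
  have k5 := sq_nonneg (R' - R)
  generalize hS : (a' - a) ^ 2 + (b' - b) ^ 2 + (P' - P) ^ 2 + (Q' - Q) ^ 2 + (R' - R) ^ 2 = S at h1
  have := hK √S a' b' P' Q' R' (Real.sqrt_le_iff.2 ⟨hη.le, h1⟩) (Real.abs_le_sqrt (by linarith only [k2, k3, k4, k5, hS]))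
    (Real.abs_le_sqrt (by linarith only [k1, k3, k4, k5, hS])) (Real.abs_le_sqrt (by linarith only [k1, k2, k4, k5, hS]))
    (Real.abs_le_sqrt (by linarith only [k1, k2, k3, k5, hS])) (Real.abs_le_sqrt (by linarith only [k1, k2, k3, k4, hS]))
  rwa [Real.sq_sqrt (by linarith only [k1, k2, k3, k4, k5, hS])] at this

theorem le_of_tendsto_data (h1 : 0 < m1) (h2 : 0 < m2) (hβ : 0 ≤ β) (hd : β ^ 2 < m1 * m2)
    {a b P Q R : ℕ → ℝ} {a' b' P' Q' R' c : ℝ}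
    (ha : Tendsto a atTop (𝓝 a')) (hb : Tendsto b atTop (𝓝 b')) (hP : Tendsto P atTop (𝓝 P'))
    (hQ : Tendsto Q atTop (𝓝 Q')) (hR : Tendsto R atTop (𝓝 R'))
    (ha0 : 0 ≤ a') (hb0 : 0 ≤ b') (hP0 : 0 < P') (hQ0 : 0 < Q') (hR0 : 0 ≤ R')
    (hRR : R' ^ 2 ≤ P' * Q')
    (h : ∀ᶠ n in atTop, ∀ m, Ub m1 m2 β (a n) (b n) (P n) (Q n) (R n) m → c ≤ m) :
    ∀ m, Ub m1 m2 β a' b' P' Q' R' m → c ≤ m := by
  intro m hm
  obtain ⟨s, t, hk⟩ := kkt_exists h1 h2 hβ hd ha0 hb0 hP0 hQ0 hR0 hRR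
  obtain ⟨K, η, hη, hK⟩ := AlgA_near hk (mul_pos h1 hP0) (mul_pos h2 hQ0)
    (AlgA_det hd hP0 hQ0 hRR)
  have h3 : Tendsto (fun n => (a n - a') ^ 2 + (b n - b') ^ 2 + (P n - P') ^ 2 + (Q n - Q') ^ 2 +
      (R n - R') ^ 2) atTop (𝓝 0) := by
    simpa using (((((ha.sub_const a').pow 2).add ((hb.sub_const b').pow 2)).add
      ((hP.sub_const P').pow 2)).add ((hQ.sub_const Q').pow 2)).add ((hR.sub_const R').pow 2)
  have h4 := (AlgA_tendsto (m1 := m1) (m2 := m2) (β := β) ha hb hP hQ hR s t).add (h3.const_mul K)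
  rw [mul_zero, add_zero] at h4
  refine le_trans (ge_of_tendsto h4 ?_) (hm s t hk.1 hk.2.1)
  filter_upwards [h, h3.eventually (ge_mem_nhds hη)] with n hn hn'
  exact hn _ (hK _ _ _ _ _ hn')

theorem danskin {a b P Q R : ℝ → ℝ} {a' b' P' Q' R' s t : ℝ}
    (ha : HasDerivAt a a' 0) (hb : HasDerivAt b b' 0) (hP : HasDerivAt P P' 0)
    (hQ : HasDerivAt Q Q' 0) (hR : HasDerivAt R R' 0)
    (h : KKT m1 m2 β (a 0) (b 0) (P 0) (Q 0) (R 0) s t) (hP0 : 0 < m1 * P 0)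
    (hQ0 : 0 < m2 * Q 0) (hd : (β * R 0) ^ 2 < m1 * P 0 * (m2 * Q 0))
    (hlow : ∀ᶠ ε in 𝓝 (0 : ℝ), ∀ m, Ub m1 m2 β (a ε) (b ε) (P ε) (Q ε) (R ε) m →
      FF m1 m2 β (a 0) (b 0) (P 0) (Q 0) (R 0) s t ≤ m) :
    FF m1 m2 β a' b' P' Q' R' s t = 0 := by
  obtain ⟨K, η, hη, hK⟩ := AlgA_near h hP0 hQ0 hd
  have hsq : ∀ {f : ℝ → ℝ} {f' : ℝ}, HasDerivAt f f' 0 →
      HasDerivAt (fun ε => (f ε - f 0) ^ 2) 0 0 := fun {f _} hf => by
    simpa using (hf.sub_const (f 0)).fun_pow 2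
  have h3 : HasDerivAt (fun ε => (a ε - a 0) ^ 2 + (b ε - b 0) ^ 2 + (P ε - P 0) ^ 2 +
      (Q ε - Q 0) ^ 2 + (R ε - R 0) ^ 2) 0 0 := by
    simpa using ((((hsq ha).fun_add (hsq hb)).fun_add (hsq hP)).fun_add (hsq hQ)).fun_add (hsq hR)
  have h4 : HasDerivAt (fun ε => FF m1 m2 β (a ε) (b ε) (P ε) (Q ε) (R ε) s t)
      (FF m1 m2 β a' b' P' Q' R' s t) 0 :=
    (((ha.const_mul s).fun_add (hb.const_mul t)).div_const 2).fun_sub
      (((((hP.const_mul m1).mul_const _).fun_add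
        (((hR.const_mul (2 * β)).mul_const s).mul_const t)).fun_add
          ((hQ.const_mul m2).mul_const _)).div_const 4)
  have h5 := h4.fun_add (h3.const_mul K)
  rw [mul_zero, add_zero] at h5
  refine IsLocalMin.hasDerivAt_eq_zero ?_ h5
  have h6 := h3.continuousAt.tendsto
  simp only [sub_self, ne_eq, OfNat.ofNat_ne_zero, not_false_eq_true, zero_pow, add_zero] at h6
  filter_upwards [hlow, h6.eventually (ge_mem_nhds hη)] with ε h7 h8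
  simpa using h7 _ (hK _ _ _ _ _ h8)

end CritSys
end
end

-- merged part: Pool.Agent.Work.MP_80ee1d_an.AlgB
section
/-!
Real algebra, part B: the case analysis that recovers compactness.

Data `(a, b, P, Q, R)` belong to the weak limit, primed data to the weakly null remainders;
`Φ = FF a b P Q R`, `Ψ = FF a' b' P' Q' R'`, so the total fibering function is `Φ + Ψ`.

PLAN. `rem_ub`: for `x, y ≥ 0` put `k = S / σ`, `s = k x / √P'`, `t = k y / √Q'`; then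
`FF a₁ b₁ 1 1 1 x y ≤ FF σ σ 1 1 1 x y = (σ/S)² FF S S 1 1 1 (k x) (k y) ≤ (σ/S)² Ψ(s, t)` because
`a' ≥ S √P'`, `b' ≥ S √Q'`, `R' ≤ √P' √Q'`.
`core`: `c > 0` (since `a + a' > 0`: `KKT.ub` and `Ub.axis1`), `c = (s (a+a') + t (b+b')) / 4`.
Subtracting `e1`, `e2` from the KKT equalities gives the same equalities for the primed data.
Note `P = 0 → R = 0`, `Q = 0 → R = 0` and the same for primed data.
* `s, t > 0`: `(s, t)` is a KKT point of `Φ` and of `Ψ`, `Φ(s,t) = (s a + t b)/4`,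
  `Ψ(s,t) = (s a' + t b')/4`.  If `P, Q > 0` we are done (`KKT.ub`, `Ub.mono`).  If `P = 0 < Q`:
  `P' = 1`, `t b / 4 = b² / (4 m2 Q)` and `Ψ(s,t) ≥ a'² / (4 m1) ≥ S² / (4 m1)` (`Ub.axis1`), against
  `H2`.  Symmetric with `H3`.  If `P = Q = 0`: `rem_ub` with `m = c` and `H1` give
  `c ≤ (σ/S)² c`, absurd.
* `t = 0 < s`: `a = m1 P s`, `a' = m1 P' s`, `b + b' ≤ β (R + R') s`.  If `Q > 0` and `b ≤ β R s` then
  `R > 0`, `P > 0` and `(s, 0)` is KKT for `Φ`.  Otherwise `b' ≤ β R' s` and `Q' > 0`, so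
  `b' > 0`, `R' > 0`, `P' > 0`, `(s, 0)` is KKT for `Ψ` with value `s a' / 4 ≤ c`: `rem_ub`, `H1`.
* `s = 0 < t`: symmetric (prove one auxiliary lemma and use the swap lemmas).
-/

noncomputable section
namespace CritSys

variable {m1 m2 β : ℝ}

theorem rem_ub (hβ : 0 ≤ β) {a' b' P' Q' R' S σ a₁ b₁ m : ℝ} (hσ : 0 < σ) (hS : 0 < S)
    (ha₁ : a₁ ≤ σ) (hb₁ : b₁ ≤ σ) (ha : 0 ≤ a') (hb : 0 ≤ b') (hP : 0 < P') (hQ : 0 < Q')
    (hR : 0 ≤ R') (hRR : R' ^ 2 ≤ P' * Q') (sa : S ^ 2 * P' ≤ a' ^ 2) (sb : S ^ 2 * Q' ≤ b' ^ 2)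
    (h : Ub m1 m2 β a' b' P' Q' R' m) : Ub m1 m2 β a₁ b₁ 1 1 1 ((σ / S) ^ 2 * m) := by
  intro x y hx hy
  obtain ⟨p, hp, rfl⟩ : ∃ p : ℝ, 0 < p ∧ P' = p ^ 2 :=
    ⟨√P', Real.sqrt_pos.2 hP, (Real.sq_sqrt hP.le).symm⟩
  obtain ⟨q, hq, rfl⟩ : ∃ q : ℝ, 0 < q ∧ Q' = q ^ 2 :=
    ⟨√Q', Real.sqrt_pos.2 hQ, (Real.sq_sqrt hQ.le).symm⟩
  have a1 : S * p ≤ a' := abs_le_of_sq_le_sq' (by linarith only [sa]) ha |>.2
  have b1 : S * q ≤ b' := abs_le_of_sq_le_sq' (by linarith only [sb]) hb |>.2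
  have r1 : R' ≤ p * q := abs_le_of_sq_le_sq' (by linarith only [hRR]) (by positivity) |>.2
  obtain ⟨k, hk, rfl⟩ : ∃ k : ℝ, 0 < k ∧ S = k * σ := ⟨S / σ, by positivity, by field_simp⟩
  obtain ⟨u, hu, rfl⟩ : ∃ u : ℝ, 0 ≤ u ∧ x = u * p := ⟨x / p, by positivity, by field_simp⟩
  obtain ⟨v, hv, rfl⟩ : ∃ v : ℝ, 0 ≤ v ∧ y = v * q := ⟨y / q, by positivity, by field_simp⟩
  have h0 := h (k * u) (k * v) (by positivity) (by positivity)
  have e : (σ / (k * σ)) ^ 2 * m = m / k ^ 2 := by field_simp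
  rw [e, le_div_iff₀ (by positivity)]
  refine le_trans ?_ h0
  unfold FF
  have t1 : k * u * (k * σ * p) ≤ k * u * a' := by gcongr
  have t2 : k * v * (k * σ * q) ≤ k * v * b' := by gcongr
  have t3 : β * (k * u) * (k * v) * R' ≤ β * (k * u) * (k * v) * (p * q) := by gcongr
  have t4 : k ^ 2 * (u * p) * a₁ ≤ k ^ 2 * (u * p) * σ := by gcongr
  have t5 : k ^ 2 * (v * q) * b₁ ≤ k ^ 2 * (v * q) * σ := by gcongr
  linarith only [t1, t2, t3, t4, t5]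

theorem AlgB_disc (hd : β ^ 2 < m1 * m2) {P Q R : ℝ} (hP : 0 ≤ P) (hQ : 0 ≤ Q)
    (hRR : R ^ 2 ≤ P * Q) : (β * R) ^ 2 ≤ m1 * P * (m2 * Q) := by
  have t1 : β ^ 2 * R ^ 2 ≤ β ^ 2 * (P * Q) := by gcongr
  have t2 : β ^ 2 * (P * Q) ≤ m1 * m2 * (P * Q) := by gcongr
  linarith only [t1, t2]

theorem AlgB_abs (h1 : 0 < m1) (h2 : 0 < m2) (hβ : 0 ≤ β) (hd : β ^ 2 < m1 * m2)
    {a' b' P' Q' R' S σ a₁ b₁ s t c : ℝ} (hσ : 0 < σ) (hσS : σ < S)
    (ha₁ : a₁ ≤ σ) (hb₁ : b₁ ≤ σ) (ha' : 0 ≤ a') (hb' : 0 ≤ b') (hP' : 0 < P') (hQ' : 0 < Q')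
    (hR' : 0 ≤ R') (hRR' : R' ^ 2 ≤ P' * Q') (sa : S ^ 2 * P' ≤ a' ^ 2) (sb : S ^ 2 * Q' ≤ b' ^ 2)
    (hk : KKT m1 m2 β a' b' P' Q' R' s t) (hv : (s * a' + t * b') / 4 ≤ c) (hc : 0 < c)
    (H1 : ∀ m, Ub m1 m2 β a₁ b₁ 1 1 1 m → c ≤ m) : False := by
  have u1 := hk.ub (by positivity) (by positivity) (AlgB_disc hd hP'.le hQ'.le hRR')
  rw [hk.val] at u1
  have hS : 0 < S := hσ.trans hσS
  have := H1 _ (rem_ub hβ hσ hS ha₁ hb₁ ha' hb' hP' hQ' hR' hRR' sa sb (u1.mono le_rfl le_rfl hv))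
  have l1 : (σ / S) ^ 2 < 1 := pow_lt_one₀ (by positivity) ((div_lt_one hS).2 hσS) two_ne_zero
  linarith only [this, hc, l1, mul_pos_of_neg_of_neg (Mathlib.Tactic.Linarith.sub_neg_of_lt hc) (Mathlib.Tactic.Linarith.sub_neg_of_lt l1)]

theorem AlgB_pos {P Q R : ℝ} (hP : 0 ≤ P) (hQ : 0 ≤ Q) (hR : 0 < R) (hRR : R ^ 2 ≤ P * Q) :
    0 < P ∧ 0 < Q := by
  have : 0 < P * Q := lt_of_lt_of_le (by positivity) hRR
  exact ⟨hP.lt_of_ne fun h => by simp [← h] at this, hQ.lt_of_ne fun h => by simp [← h] at this⟩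

theorem AlgB_axis (h1 : 0 < m1) (h2 : 0 < m2) (hβ : 0 ≤ β) (hd : β ^ 2 < m1 * m2)
    {a b P Q R a' b' P' Q' R' S σ a₁ b₁ s c : ℝ} (hσ : 0 < σ) (hσS : σ < S)
    (ha₁ : a₁ ≤ σ) (hb₁ : b₁ ≤ σ)
    (hP : 0 ≤ P) (hQ : 0 ≤ Q) (hR : 0 ≤ R) (hRR : R ^ 2 ≤ P * Q)
    (ha : 0 ≤ a) (hb0 : Q = 0 → b = 0) (hb1 : 0 < Q → 0 < b)
    (ha' : 0 ≤ a') (hb' : 0 ≤ b') (hP' : 0 ≤ P') (hQ' : 0 ≤ Q') (hR' : 0 ≤ R')
    (hRR' : R' ^ 2 ≤ P' * Q') (sa : S ^ 2 * P' ≤ a' ^ 2) (sb : S ^ 2 * Q' ≤ b' ^ 2)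
    (hQQ : Q + Q' = 1) (hs : 0 < s) (e1 : a = m1 * P * s) (e1' : a' = m1 * P' * s)
    (hb : b + b' ≤ β * (R + R') * s) (hc : c = s * (a + a') / 4) (hc0 : 0 < c)
    (H1 : ∀ m, Ub m1 m2 β a₁ b₁ 1 1 1 m → c ≤ m) :
    0 < P ∧ 0 < Q ∧ Ub m1 m2 β a b P Q R c := by
  have hS : 0 < S := hσ.trans hσS
  have pos : ∀ {r : ℝ}, 0 ≤ r → 0 < β * r * s → 0 < r := fun hr h =>
    hr.lt_of_ne fun e => by simp [← e] at h
  by_cases hcase : 0 < Q ∧ b ≤ β * R * s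
  · have hP0 := (AlgB_pos hP hQ (pos hR ((hb1 hcase.1).trans_le hcase.2)) hRR).1
    have k : KKT m1 m2 β a b P Q R s 0 :=
      ⟨hs.le, le_rfl, by linarith only [e1], by linarith only [hcase, hcase.2], by rw [e1]; ring, by ring⟩
    have u1 := k.ub (by positivity) (by positivity) (AlgB_disc hd hP hQ hRR)
    rw [k.val] at u1
    refine ⟨hP0, hcase.1, u1.mono le_rfl le_rfl ?_⟩
    have : 0 ≤ s * a' := by positivity
    linarith only [hc, this]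
  · exfalso
    have key : b' ≤ β * R' * s ∧ 0 < β * R' * s := by
      rcases hQ.eq_or_lt with h0 | h0
      · have r0 : R = 0 := by
          rw [← h0, mul_zero] at hRR
          exact pow_eq_zero_iff two_ne_zero |>.1 (le_antisymm hRR (sq_nonneg R))
        have q1 : Q' = 1 := by linarith only [hQQ, h0, hQ]
        have b0 := hb0 h0.symm
        have : 0 < b' := hb'.lt_of_ne fun e => by
          rw [← e, q1] at sb
          linarith only [sb, hσ, hσS, mul_pos_of_neg_of_neg (Mathlib.Tactic.Linarith.sub_neg_of_lt hσ) (Mathlib.Tactic.Linarith.sub_neg_of_lt hσ), mul_pos_of_neg_of_neg (Mathlib.Tactic.Linarith.sub_neg_of_lt hσ) (Mathlib.Tactic.Linarith.sub_neg_of_lt hσS), mul_pos_of_neg_of_neg (Mathlib.Tactic.Linarith.sub_neg_of_lt hσS) (Mathlib.Tactic.Linarith.sub_neg_of_lt hσS)]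
        rw [r0, b0, zero_add, zero_add] at hb
        exact ⟨hb, this.trans_le hb⟩
      · have : β * R * s < b := not_le.1 fun h => hcase ⟨h0, h⟩
        constructor <;> linarith only [hb, this, hb']
    obtain ⟨p0, q0⟩ := AlgB_pos hP' hQ' (pos hR' key.2) hRR'
    have k : KKT m1 m2 β a' b' P' Q' R' s 0 :=
      ⟨hs.le, le_rfl, by linarith only [e1'], by linarith only [key, key.1], by rw [e1']; ring, by ring⟩
    refine AlgB_abs h1 h2 hβ hd hσ hσS ha₁ hb₁ ha' hb' p0 q0 hR' hRR' sa sb k ?_ hc0 H1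
    have : 0 ≤ s * a := by positivity
    linarith only [hc, this]

theorem AlgB_half (h1 : 0 < m1) (h2 : 0 < m2) {b Q a' S σ t V c : ℝ} (hσ : 0 < σ) (hσS : σ < S)
    (hQ : 0 < Q) (e : b = m2 * Q * t) (sa : S ^ 2 ≤ a' ^ 2) (hV : a' ^ 2 ≤ 4 * m1 * V)
    (hc : c = t * b / 4 + V) (H : c ≤ σ ^ 2 / (4 * m1) + b ^ 2 / (4 * (m2 * Q))) : False := by
  have e1 : b ^ 2 / (4 * (m2 * Q)) = t * b / 4 := by
    rw [e]
    field_simp
  have e2 : σ ^ 2 / (4 * m1) < V := by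
    rw [div_lt_iff₀ (by positivity)]
    linarith only [sa, hV, hσ, hσS, mul_pos_of_neg_of_neg (Mathlib.Tactic.Linarith.sub_neg_of_lt hσ) (Mathlib.Tactic.Linarith.sub_neg_of_lt hσS), mul_pos_of_neg_of_neg (Mathlib.Tactic.Linarith.sub_neg_of_lt hσS) (Mathlib.Tactic.Linarith.sub_neg_of_lt hσS)]
  linarith only [hc, H, e1, e2]

theorem core (h1 : 0 < m1) (h2 : 0 < m2) (hβ : 0 ≤ β) (hd : β ^ 2 < m1 * m2)
    {a b P Q R a' b' P' Q' R' S σ a₁ b₁ s t c : ℝ} (hσ : 0 < σ) (hσS : σ < S)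
    (ha₁ : a₁ ≤ σ) (hb₁ : b₁ ≤ σ)
    (hP : 0 ≤ P) (hQ : 0 ≤ Q) (hR : 0 ≤ R) (hRR : R ^ 2 ≤ P * Q)
    (ha0 : P = 0 → a = 0) (ha1 : 0 < P → 0 < a) (hb0 : Q = 0 → b = 0) (hb1 : 0 < Q → 0 < b)
    (ha' : 0 ≤ a') (hb' : 0 ≤ b') (hP' : 0 ≤ P') (hQ' : 0 ≤ Q') (hR' : 0 ≤ R')
    (hRR' : R' ^ 2 ≤ P' * Q') (sa : S ^ 2 * P' ≤ a' ^ 2) (sb : S ^ 2 * Q' ≤ b' ^ 2)
    (hPP : P + P' = 1) (hQQ : Q + Q' = 1) (hRRR : (R + R') ^ 2 ≤ 1)
    (hk : KKT m1 m2 β (a + a') (b + b') 1 1 (R + R') s t)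
    (hc : c = FF m1 m2 β (a + a') (b + b') 1 1 (R + R') s t)
    (e1 : s * (a - (m1 * P * s + β * R * t)) = 0) (e2 : t * (b - (β * R * s + m2 * Q * t)) = 0)
    (H1 : ∀ m, Ub m1 m2 β a₁ b₁ 1 1 1 m → c ≤ m)
    (H2 : 0 < Q → c ≤ σ ^ 2 / (4 * m1) + b ^ 2 / (4 * (m2 * Q)))
    (H3 : 0 < P → c ≤ a ^ 2 / (4 * (m1 * P)) + σ ^ 2 / (4 * m2)) :
    0 < P ∧ 0 < Q ∧ Ub m1 m2 β a b P Q R c := by
  have hS : 0 < S := hσ.trans hσS
  have ha : 0 ≤ a := hP.eq_or_lt.elim (fun h => (ha0 h.symm).ge) fun h => (ha1 h).le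
  have hb : 0 ≤ b := hQ.eq_or_lt.elim (fun h => (hb0 h.symm).ge) fun h => (hb1 h).le
  have haa : 0 < a + a' := by
    rcases hP.eq_or_lt with h | h
    · have p1 : P' = 1 := by linarith only [hPP, h, hP]
      have : 0 < a' := ha'.lt_of_ne fun e => by
        rw [← e, p1] at sa
        linarith only [sa, hσ, hσS, mul_pos_of_neg_of_neg (Mathlib.Tactic.Linarith.sub_neg_of_lt hσ) (Mathlib.Tactic.Linarith.sub_neg_of_lt hσ), mul_pos_of_neg_of_neg (Mathlib.Tactic.Linarith.sub_neg_of_lt hσ) (Mathlib.Tactic.Linarith.sub_neg_of_lt hσS), mul_pos_of_neg_of_neg (Mathlib.Tactic.Linarith.sub_neg_of_lt hσS) (Mathlib.Tactic.Linarith.sub_neg_of_lt hσS)]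
      linarith
    · linarith only [ha', ha1, h, ha1 h]
  have hc0 : 0 < c := by
    have u0 := hk.ub (by positivity) (by positivity)
      (AlgB_disc hd zero_le_one zero_le_one (by linarith))
    rw [← hc] at u0
    have := u0.axis1 haa.le (by positivity)
    by_contra hn
    have : 4 * (m1 * 1) * c ≤ 0 := mul_nonpos_of_nonneg_of_nonpos (by positivity) (not_lt.1 hn)
    nlinarith
  rw [hk.val] at hc
  obtain ⟨hs, ht, k1, k2, k3, k4⟩ := hk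
  obtain rfl : P' = 1 - P := by linarith only [hPP]
  obtain rfl : Q' = 1 - Q := by linarith only [hQQ]
  rcases hs.eq_or_lt with hs0 | hs0 <;> rcases ht.eq_or_lt with ht0 | ht0
  · subst hs0 ht0
    simp at hc
    linarith
  · subst hs0
    have f2 := (mul_eq_zero.1 e2).resolve_left ht0.ne'
    have f4 := (mul_eq_zero.1 k4).resolve_left ht0.ne'
    obtain ⟨q0, p0, u⟩ := AlgB_axis (s := t) (c := c) h2 h1 hβ (by linarith only [hd]) hσ hσS hb₁ ha₁ hQ hP hR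
      (by linarith only [hRR]) hb ha0 ha1 hb' ha' hQ' hP' hR' (by linarith only [hRR']) sb sa hPP ht0 (by linarith only [f2])
      (by linarith only [f2, f4, k2]) (by linarith only [k1]) (by linarith only [hc]) hc0 fun m hm => H1 m hm.swap
    exact ⟨p0, q0, u.swap⟩
  · subst ht0
    have f1 := (mul_eq_zero.1 e1).resolve_left hs0.ne'
    have f3 := (mul_eq_zero.1 k3).resolve_left hs0.ne'
    exact AlgB_axis (s := s) h1 h2 hβ hd hσ hσS ha₁ hb₁ hP hQ hR hRR ha hb0 hb1 ha' hb' hP' hQ' hR'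
      hRR' sa sb hQQ hs0 (by linarith only [f1]) (by linarith only [f1, f3, k1]) (by linarith only [k2]) (by linarith only [hc]) hc0 H1
  · have f1 := (mul_eq_zero.1 e1).resolve_left hs0.ne'
    have f2 := (mul_eq_zero.1 e2).resolve_left ht0.ne'
    have f3 := (mul_eq_zero.1 k3).resolve_left hs0.ne'
    have f4 := (mul_eq_zero.1 k4).resolve_left ht0.ne'
    have g1 : a' - (m1 * (1 - P) * s + β * R' * t) = 0 := by linarith only [f1, f3, k1]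
    have g2 : b' - (β * R' * s + m2 * (1 - Q) * t) = 0 := by linarith only [f2, f4, k2]
    have k : KKT m1 m2 β a b P Q R s t := ⟨hs, ht, by linarith only [f1], by linarith only [f2], e1, e2⟩
    have k' : KKT m1 m2 β a' b' (1 - P) (1 - Q) R' s t :=
      ⟨hs, ht, by linarith only [k1, f1], by linarith only [k2, f2], by rw [g1, mul_zero], by rw [g2, mul_zero]⟩
    have u := k.ub (by positivity) (by positivity) (AlgB_disc hd hP hQ hRR)
    have u' := k'.ub (by positivity) (by positivity) (AlgB_disc hd hP' hQ' hRR')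
    rw [k.val] at u
    rw [k'.val] at u'
    have r0 : P * Q = 0 → R = 0 := fun h => by
      rw [h] at hRR
      exact pow_eq_zero_iff two_ne_zero |>.1 (le_antisymm hRR (sq_nonneg R))
    have n1 : 0 ≤ s * a' := by positivity
    have n2 : 0 ≤ t * b' := by positivity
    rcases hP.eq_or_lt with p0 | p0 <;> rcases hQ.eq_or_lt with q0 | q0
    · exfalso
      have a0 := ha0 p0.symm
      have b0 := hb0 q0.symm
      subst a0 b0
      exact AlgB_abs h1 h2 hβ hd hσ hσS ha₁ hb₁ ha' hb' (by linarith only [p0]) (by linarith only [q0]) hR' hRR' sa sb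
        k' (by linarith only [hc]) hc0 H1
    · exfalso
      subst p0
      have a0 := ha0 rfl
      have r1 := r0 (zero_mul _)
      subst a0 r1
      have := u'.axis1 ha' (by simpa using h1)
      exact AlgB_half (t := t) (a' := a') (V := (s * a' + t * b') / 4) h1 h2 hσ hσS q0 (by linarith only [f2, g2, k2])
        (by linarith only [sa]) (by linarith only [this]) (by linarith only [hc]) (H2 q0)
    · exfalso
      subst q0
      have b0 := hb0 rfl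
      have r1 := r0 (mul_zero _)
      subst b0 r1
      have := u'.axis2 hb' (by simpa using h2)
      exact AlgB_half (t := s) (a' := b') (V := (s * a' + t * b') / 4) (c := c) h2 h1 hσ hσS p0
        (b := a) (by linarith only [f1, g1, k1]) (by linarith only [sb]) (by linarith only [this]) (by linarith only [hc]) (by linarith only [H3, p0, H3 p0])
    · exact ⟨p0, q0, u.mono le_rfl le_rfl (by linarith only [hc, n1, n2])⟩

end CritSys
end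
end
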