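import Mathlib

-- merged part: Pool.Agent.Work.MP_80ee1d_an.T4A
section
/-!
The four-linear form `T4 a b c d = ∫ a b c d` on `L⁴(μ)`, for an arbitrary measure `μ`.

PLAN. Integrability: `MemLp.mul` / `MemLp.integrable_mul` with `HolderTriple 4 4 2` and
`HolderTriple 2 2 1` (or the pointwise bound `|abcd| ≤ (a⁴+b⁴+c⁴+d⁴)/4`).  Linearity:
`Lp.coeFn_add`, `Lp.coeFn_smul`, `integral_congr_ae`, `integral_add`; the other slots by the swaps.
`T4_cs`: the quadratic `t ↦ ∫ (t a c - b d)² ≥ 0` (`discrim_le_zero`), `T4_self` from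
`Lp.norm_def` / `MemLp.eLpNorm_eq_integral_rpow_norm`, and `T4_abs_le` from `T4_cs` used twice.
`T4_tendsto`: telescoping and `T4_abs_le`.  `T4_approx`: telescoping
`abcd - a'b'c'd' = (a-a')bcd + a'(b-b')cd + ...` with `‖a‖ ≤ (1+θ) x` and `(1+θ)⁴ - 1 ≤ 15 θ`.
`T4_mixed*`: `T4_cs` and boundedness; `T4_split*`: expand with the additivity lemmas.
-/

open MeasureTheory Filter Topology
open scoped ENNReal

noncomputable section
namespace CritSys

instance factFour : Fact ((1 : ℝ≥0∞) ≤ 4) := ⟨by norm_num⟩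

variable {X : Type} [MeasurableSpace X] {μ : Measure X}

/-- The space `L⁴(μ)`. -/
abbrev L4 (μ : Measure X) : Type := Lp ℝ 4 μ

/-- The four-linear form. -/
def T4 (a b c d : L4 μ) : ℝ := ∫ x, a x * b x * c x * d x ∂μ

/-- Almost everywhere positive. -/
def PosL (a : L4 μ) : Prop := ∀ᵐ x ∂μ, 0 < a x

/-- The constant function one. -/
def oneL (μ : Measure X) [IsFiniteMeasure μ] : L4 μ := Lp.const 4 μ (1 : ℝ)

theorem oneL_ae [IsFiniteMeasure μ] : ∀ᵐ x ∂μ, oneL μ x = 1 := Lp.coeFn_const 4 μ (1 : ℝ)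

theorem oneL_pos [IsFiniteMeasure μ] : PosL (oneL μ) := by
  filter_upwards [oneL_ae (μ := μ)] with x hx
  rw [hx]; exact one_pos

theorem PosL.nonneg {a : L4 μ} (h : PosL a) : 0 ≤ a := by
  rw [← Lp.coeFn_nonneg]
  filter_upwards [h] with x hx using hx.le

theorem PosL.ne_zero {a : L4 μ} (h : PosL a) (hμ : μ ≠ 0) : a ≠ 0 := by
  rintro rfl
  refine hμ (ae_eq_bot.1 (Filter.eventually_false_iff_eq_bot.1 ?_))
  filter_upwards [h, Lp.coeFn_zero ℝ 4 μ] with x hx h0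
  rw [h0] at hx
  exact lt_irrefl _ hx

theorem PosL.smul {a : L4 μ} (h : PosL a) {t : ℝ} (ht : 0 < t) : PosL (t • a) := by
  filter_upwards [h, Lp.coeFn_smul t a] with x hx h0
  rw [h0]
  exact mul_pos ht hx

theorem T4A_pow (t : ℝ) : ‖t‖ ^ (4 : ℝ≥0∞).toReal = t ^ 4 := by
  rw [show (4 : ℝ≥0∞).toReal = ((4 : ℕ) : ℝ) by norm_num, Real.rpow_natCast, Real.norm_eq_abs]
  exact Even.pow_abs (by decide) t

theorem T4A_int (a : L4 μ) : Integrable (fun x => a x ^ 4) μ := by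
  simpa only [T4A_pow] using (Lp.memLp a).integrable_norm_rpow (by norm_num) (by norm_num)

theorem T4_integrable (a b c d : L4 μ) : Integrable (fun x => a x * b x * c x * d x) μ := by
  refine ((T4A_int a).add (T4A_int b) |>.add (T4A_int c) |>.add (T4A_int d)).mono'
    ((((Lp.aestronglyMeasurable a).mul (Lp.aestronglyMeasurable b)).mul
      (Lp.aestronglyMeasurable c)).mul (Lp.aestronglyMeasurable d)) (ae_of_all _ fun x => ?_)
  simp only [Pi.add_apply, Real.norm_eq_abs]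
  generalize a x = p, b x = q, c x = r, d x = s
  rw [abs_le]
  constructor <;> nlinarith [sq_nonneg (p * q + r * s), sq_nonneg (p * q - r * s),
    sq_nonneg (p ^ 2 - q ^ 2), sq_nonneg (r ^ 2 - s ^ 2), sq_nonneg (p ^ 2), sq_nonneg (q ^ 2),
    sq_nonneg (r ^ 2), sq_nonneg (s ^ 2)]

theorem T4_swap12 (a b c d : L4 μ) : T4 a b c d = T4 b a c d := by
  simp only [T4]
  congr 1
  funext x
  ring

theorem T4_swap23 (a b c d : L4 μ) : T4 a b c d = T4 a c b d := by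
  simp only [T4]
  congr 1
  funext x
  ring

theorem T4_swap34 (a b c d : L4 μ) : T4 a b c d = T4 a b d c := by
  simp only [T4]
  congr 1
  funext x
  ring

theorem T4_swap13 (a b c d : L4 μ) : T4 a b c d = T4 c b a d := by
  simp only [T4]
  congr 1
  funext x
  ring

theorem T4_swap14 (a b c d : L4 μ) : T4 a b c d = T4 d b c a := by
  simp only [T4]
  congr 1
  funext x
  ring

theorem T4_swap24 (a b c d : L4 μ) : T4 a b c d = T4 a d c b := by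
  simp only [T4]
  congr 1
  funext x
  ring

theorem T4_pairs (a b c d : L4 μ) : T4 a b c d = T4 c d a b := by
  simp only [T4]
  congr 1
  funext x
  ring

theorem T4_add1 (a a' b c d : L4 μ) : T4 (a + a') b c d = T4 a b c d + T4 a' b c d := by
  rw [T4, T4, T4, ← integral_add (T4_integrable _ _ _ _) (T4_integrable _ _ _ _)]
  refine integral_congr_ae ?_
  filter_upwards [Lp.coeFn_add a a'] with x hx
  rw [hx, Pi.add_apply]
  ring

theorem T4_add2 (a b b' c d : L4 μ) : T4 a (b + b') c d = T4 a b c d + T4 a b' c d := by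
  rw [T4_swap12, T4_add1, T4_swap12 b, T4_swap12 b']

theorem T4_add3 (a b c c' d : L4 μ) : T4 a b (c + c') d = T4 a b c d + T4 a b c' d := by
  rw [T4_swap13, T4_add1, T4_swap13 c, T4_swap13 c']

theorem T4_add4 (a b c d d' : L4 μ) : T4 a b c (d + d') = T4 a b c d + T4 a b c d' := by
  rw [T4_swap14, T4_add1, T4_swap14 d, T4_swap14 d']

theorem T4_smul1 (t : ℝ) (a b c d : L4 μ) : T4 (t • a) b c d = t * T4 a b c d := by
  rw [T4, T4, ← integral_const_mul]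
  refine integral_congr_ae ?_
  filter_upwards [Lp.coeFn_smul t a] with x hx
  rw [hx, Pi.smul_apply, smul_eq_mul]
  ring

theorem T4_smul2 (t : ℝ) (a b c d : L4 μ) : T4 a (t • b) c d = t * T4 a b c d := by
  rw [T4_swap12, T4_smul1, T4_swap12 b]

theorem T4_smul3 (t : ℝ) (a b c d : L4 μ) : T4 a b (t • c) d = t * T4 a b c d := by
  rw [T4_swap13, T4_smul1, T4_swap13 c]

theorem T4_smul4 (t : ℝ) (a b c d : L4 μ) : T4 a b c (t • d) = t * T4 a b c d := by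
  rw [T4_swap14, T4_smul1, T4_swap14 d]

theorem T4_sub1 (a a' b c d : L4 μ) : T4 (a - a') b c d = T4 a b c d - T4 a' b c d := by
  rw [eq_sub_iff_add_eq, ← T4_add1, sub_add_cancel]

theorem T4_sub2 (a b b' c d : L4 μ) : T4 a (b - b') c d = T4 a b c d - T4 a b' c d := by
  rw [eq_sub_iff_add_eq, ← T4_add2, sub_add_cancel]

theorem T4_sub3 (a b c c' d : L4 μ) : T4 a b (c - c') d = T4 a b c d - T4 a b c' d := by
  rw [eq_sub_iff_add_eq, ← T4_add3, sub_add_cancel]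

theorem T4_sub4 (a b c d d' : L4 μ) : T4 a b c (d - d') = T4 a b c d - T4 a b c d' := by
  rw [eq_sub_iff_add_eq, ← T4_add4, sub_add_cancel]

theorem T4_zero1 (b c d : L4 μ) : T4 0 b c d = 0 := by
  rw [← sub_self b, T4_sub1, sub_self]

theorem T4_zero2 (a c d : L4 μ) : T4 a 0 c d = 0 := by
  rw [T4_swap12, T4_zero1]

theorem T4_zero3 (a b d : L4 μ) : T4 a b 0 d = 0 := by
  rw [T4_swap13, T4_zero1]

theorem T4_zero4 (a b c : L4 μ) : T4 a b c 0 = 0 := by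
  rw [T4_swap14, T4_zero1]

theorem T4_sq_nonneg (a b : L4 μ) : 0 ≤ T4 a a b b := by
  refine integral_nonneg fun x => ?_
  have := sq_nonneg (a x * b x)
  simp only [Pi.zero_apply]
  nlinarith

theorem T4_cs (a b c d : L4 μ) : T4 a b c d ^ 2 ≤ T4 a a c c * T4 b b d d := by
  have h : ∀ t : ℝ, 0 ≤ T4 a a c c * (t * t) + -(2 * T4 a b c d) * t + T4 b b d d := fun t => by
    have e : T4 a a c c * (t * t) + -(2 * T4 a b c d) * t + T4 b b d d =
        ∫ x, (t * (a x * c x) - b x * d x) ^ 2 ∂μ := by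
      rw [T4, T4, T4, ← integral_mul_const, ← integral_const_mul, ← integral_neg,
        ← integral_mul_const, ← integral_add, ← integral_add]
      · congr 1
        funext x
        ring
      · exact ((T4_integrable a a c c).mul_const _).add
          (((T4_integrable a b c d).const_mul _).neg.mul_const _)
      · exact T4_integrable _ _ _ _
      · exact (T4_integrable a a c c).mul_const _
      · exact ((T4_integrable a b c d).const_mul _).neg.mul_const _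
    rw [e]
    exact integral_nonneg fun x => sq_nonneg _
  have := discrim_le_zero h
  rw [discrim] at this
  nlinarith

theorem T4_self (a : L4 μ) : T4 a a a a = ‖a‖ ^ 4 := by
  have e : T4 a a a a = ∫ x, a x ^ 4 ∂μ := by
    simp only [T4]
    congr 1
    funext x
    ring
  have h0 : 0 ≤ ∫ x, a x ^ 4 ∂μ := integral_nonneg fun x => by positivity
  rw [e, Lp.norm_def, (Lp.memLp a).eLpNorm_eq_integral_rpow_norm (by norm_num) (by norm_num),
    ENNReal.toReal_ofReal (by positivity)]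
  simp only [T4A_pow]
  rw [show (4 : ℝ≥0∞).toReal = ((4 : ℕ) : ℝ) by norm_num, Real.rpow_inv_natCast_pow h0 (by norm_num)]

theorem T4A_sq (a c : L4 μ) : T4 a a c c ≤ ‖a‖ ^ 2 * ‖c‖ ^ 2 := by
  have := T4_cs a c a c
  rw [T4_self, T4_self, T4_swap23] at this
  refine (abs_le_of_sq_le_sq' (this.trans (le_of_eq ?_)) (by positivity)).2
  ring

theorem T4_abs_le (a b c d : L4 μ) : |T4 a b c d| ≤ ‖a‖ * ‖b‖ * ‖c‖ * ‖d‖ := by
  refine abs_le_of_sq_le_sq' ?_ (by positivity) |> abs_le.2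
  refine (T4_cs a b c d).trans ((mul_le_mul (T4A_sq a c) (T4A_sq b d) (T4_sq_nonneg _ _)
    (by positivity)).trans (le_of_eq ?_))
  ring

theorem T4_nonneg {a b c d : L4 μ} (ha : 0 ≤ a) (hb : 0 ≤ b) (hc : 0 ≤ c) (hd : 0 ≤ d) :
    0 ≤ T4 a b c d := by
  refine integral_nonneg_of_ae ?_
  filter_upwards [(Lp.coeFn_nonneg a).2 ha, (Lp.coeFn_nonneg b).2 hb, (Lp.coeFn_nonneg c).2 hc,
    (Lp.coeFn_nonneg d).2 hd] with x h1 h2 h3 h4
  exact mul_nonneg (mul_nonneg (mul_nonneg h1 h2) h3) h4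

theorem T4_sq_mul_nonneg (a : L4 μ) {c d : L4 μ} (hc : 0 ≤ c) (hd : 0 ≤ d) :
    0 ≤ T4 a a c d := by
  refine integral_nonneg_of_ae ?_
  filter_upwards [(Lp.coeFn_nonneg c).2 hc, (Lp.coeFn_nonneg d).2 hd] with x h3 h4
  exact mul_nonneg (mul_nonneg (mul_self_nonneg _) h3) h4

theorem T4_abs_abs (a b c : L4 μ) : T4 |a| |a| b c = T4 a a b c := by
  refine integral_congr_ae ?_
  filter_upwards [Lp.coeFn_abs a] with x hx
  rw [hx, abs_mul_abs_self]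

theorem T4A_pos {a b c d z : L4 μ} (h : ∀ᵐ x ∂μ, 0 ≤ a x * b x * c x * d x) (hz : z ≠ 0)
    (h' : ∀ᵐ x ∂μ, a x * b x * c x * d x = 0 → z x = 0) : 0 < T4 a b c d := by
  refine (integral_nonneg_of_ae h).lt_of_ne fun e => hz ?_
  rw [Lp.eq_zero_iff_ae_eq_zero]
  filter_upwards [(integral_eq_zero_iff_of_nonneg_ae h (T4_integrable a b c d)).1 e.symm, h']
    with x h1 h2 using h2 h1

theorem T4_pos {a b c d : L4 μ} (ha : PosL a) (hb : PosL b) (hc : PosL c) (hd : 0 ≤ d)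
    (hd0 : d ≠ 0) : 0 < T4 a b c d := by
  refine T4A_pos ?_ hd0 ?_
  · filter_upwards [ha, hb, hc, (Lp.coeFn_nonneg d).2 hd] with x h1 h2 h3 h4
    exact mul_nonneg (mul_pos (mul_pos h1 h2) h3).le h4
  · filter_upwards [ha, hb, hc] with x h1 h2 h3 h
    exact (mul_eq_zero.1 h).resolve_left (mul_pos (mul_pos h1 h2) h3).ne'

theorem T4_sq_pos {a b : L4 μ} (ha : PosL a) (hb : b ≠ 0) : 0 < T4 a a b b := by
  refine T4A_pos (ae_of_all _ fun x => ?_) hb ?_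
  · nlinarith [sq_nonneg (a x * b x)]
  · filter_upwards [ha] with x h1 h
    rw [mul_assoc] at h
    exact mul_self_eq_zero.1 ((mul_eq_zero.1 h).resolve_left (mul_pos h1 h1).ne')

end CritSys
end
end

-- merged part: Pool.Agent.Work.MP_80ee1d_an.T4
section
/-!
The four-linear form `T4 a b c d = ∫ a b c d` on `L⁴(μ)`, part B.

PLAN. Integrability: `MemLp.mul` / `MemLp.integrable_mul` with `HolderTriple 4 4 2` and
`HolderTriple 2 2 1` (or the pointwise bound `|abcd| ≤ (a⁴+b⁴+c⁴+d⁴)/4`).  Linearity: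
`Lp.coeFn_add`, `Lp.coeFn_smul`, `integral_congr_ae`, `integral_add`; the other slots by the swaps.
`T4_cs`: the quadratic `t ↦ ∫ (t a c - b d)² ≥ 0` (`discrim_le_zero`), `T4_self` from
`Lp.norm_def` / `MemLp.eLpNorm_eq_integral_rpow_norm`, and `T4_abs_le` from `T4_cs` used twice.
`T4_tendsto`: telescoping and `T4_abs_le`.  `T4_approx`: telescoping
`abcd - a'b'c'd' = (a-a')bcd + a'(b-b')cd + ...` with `‖a‖ ≤ (1+θ) x` and `(1+θ)⁴ - 1 ≤ 15 θ`.
`T4_mixed*`: `T4_cs` and boundedness; `T4_split*`: expand with the additivity lemmas.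
-/

open MeasureTheory Filter Topology
open scoped ENNReal

noncomputable section
namespace CritSys

variable {X : Type} [MeasurableSpace X] {μ : Measure X}

theorem T4_tele (a b c d a' b' c' d' : L4 μ) : |T4 a b c d - T4 a' b' c' d'| ≤
    ‖a - a'‖ * ‖b‖ * ‖c‖ * ‖d‖ + ‖a'‖ * ‖b - b'‖ * ‖c‖ * ‖d‖ +
      (‖a'‖ * ‖b'‖ * ‖c - c'‖ * ‖d‖ + ‖a'‖ * ‖b'‖ * ‖c'‖ * ‖d - d'‖) := by
  have h1 := abs_le.1 (T4_abs_le (a - a') b c d)
  have h2 := abs_le.1 (T4_abs_le a' (b - b') c d)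
  have h3 := abs_le.1 (T4_abs_le a' b' (c - c') d)
  have h4 := abs_le.1 (T4_abs_le a' b' c' (d - d'))
  rw [T4_sub1] at h1
  rw [T4_sub2] at h2
  rw [T4_sub3] at h3
  rw [T4_sub4] at h4
  rw [abs_le]
  constructor <;> linarith [h1.1, h1.2, h2.1, h2.2, h3.1, h3.2, h4.1, h4.2]

theorem T4_tendsto {ι : Type} {l : Filter ι} {a b c d : ι → L4 μ} {a' b' c' d' : L4 μ}
    (ha : Tendsto a l (𝓝 a')) (hb : Tendsto b l (𝓝 b')) (hc : Tendsto c l (𝓝 c'))
    (hd : Tendsto d l (𝓝 d')) :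
    Tendsto (fun i => T4 (a i) (b i) (c i) (d i)) l (𝓝 (T4 a' b' c' d')) := by
  have h := (((((tendsto_iff_norm_sub_tendsto_zero.1 ha).mul hb.norm).mul hc.norm).mul hd.norm).add
    ((((tendsto_iff_norm_sub_tendsto_zero.1 hb).const_mul ‖a'‖).mul hc.norm).mul hd.norm)).add
    ((((tendsto_iff_norm_sub_tendsto_zero.1 hc).const_mul (‖a'‖ * ‖b'‖)).mul hd.norm).add
      ((tendsto_iff_norm_sub_tendsto_zero.1 hd).const_mul (‖a'‖ * ‖b'‖ * ‖c'‖)))
  simp only [zero_mul, mul_zero, add_zero] at h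
  exact tendsto_iff_norm_sub_tendsto_zero.2
    (squeeze_zero (fun _ => norm_nonneg _) (fun i => T4_tele _ _ _ _ _ _ _ _) h)

theorem T4_continuous {Y : Type} [TopologicalSpace Y] {a b c d : Y → L4 μ}
    (ha : Continuous a) (hb : Continuous b) (hc : Continuous c) (hd : Continuous d) :
    Continuous fun y => T4 (a y) (b y) (c y) (d y) :=
  continuous_iff_continuousAt.2 fun y =>
    T4_tendsto (ha.tendsto y) (hb.tendsto y) (hc.tendsto y) (hd.tendsto y)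

theorem T4_approx {e a b c d : L4 μ} {θ x y z w : ℝ} (he : ‖e‖ = 1) (hθ : 0 ≤ θ) (hθ1 : θ ≤ 1)
    (hx : 0 ≤ x) (hy : 0 ≤ y) (hz : 0 ≤ z) (hw : 0 ≤ w)
    (ha : ‖a - x • e‖ ≤ θ * x) (hb : ‖b - y • e‖ ≤ θ * y) (hc : ‖c - z • e‖ ≤ θ * z)
    (hd : ‖d - w • e‖ ≤ θ * w) :
    |T4 a b c d - x * y * z * w| ≤ 15 * θ * (x * y * z * w) := by
  have n : ∀ {a : L4 μ} {x : ℝ}, 0 ≤ x → ‖a - x • e‖ ≤ θ * x →
      ‖x • e‖ = x ∧ ‖a‖ ≤ (1 + θ) * x := fun {a x} hx ha => by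
    have h1 : ‖x • e‖ = x := by rw [norm_smul, he, mul_one, Real.norm_of_nonneg hx]
    have h2 := norm_le_norm_add_norm_sub' a (x • e)
    exact ⟨h1, by linarith⟩
  have h := T4_tele a b c d (x • e) (y • e) (z • e) (w • e)
  rw [T4_smul1, T4_smul2, T4_smul3, T4_smul4, T4_self, he, one_pow, mul_one, ← mul_assoc,
    ← mul_assoc, (n hx ha).1, (n hy hb).1, (n hz hc).1] at h
  have b1 := (n hy hb).2
  have c1 := (n hz hc).2
  have d1 := (n hw hd).2
  have h1 : ‖a - x • e‖ * ‖b‖ * ‖c‖ * ‖d‖ ≤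
      θ * x * ((1 + θ) * y) * ((1 + θ) * z) * ((1 + θ) * w) := by gcongr
  have h2 : x * ‖b - y • e‖ * ‖c‖ * ‖d‖ ≤ x * (θ * y) * ((1 + θ) * z) * ((1 + θ) * w) := by gcongr
  have h3 : x * y * ‖c - z • e‖ * ‖d‖ ≤ x * y * (θ * z) * ((1 + θ) * w) := by gcongr
  have h4 : x * y * z * ‖d - w • e‖ ≤ x * y * z * (θ * w) := by gcongr
  have h5 : (1 + θ) ^ 3 + (1 + θ) ^ 2 + (1 + θ) + 1 ≤ 15 := by
    have a1 : (1 + θ) ^ 3 ≤ 2 ^ 3 := by gcongr; linarith
    have a2 : (1 + θ) ^ 2 ≤ 2 ^ 2 := by gcongr; linarith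
    linarith
  have h6 := mul_le_mul_of_nonneg_right h5 (by positivity : 0 ≤ θ * (x * y * z * w))
  linarith

/-- A bounded sequence whose squares tend to zero against every fixed square weight. -/
def Null (r : ℕ → L4 μ) : Prop :=
  (∃ c : ℝ, ∀ n, ‖r n‖ ≤ c) ∧ ∀ f : L4 μ, Tendsto (fun n => T4 (r n) (r n) f f) atTop (𝓝 0)

theorem T4_mix {r s t : ℕ → L4 μ} (hr : Null r) (hs : ∃ c : ℝ, ∀ n, ‖s n‖ ≤ c)
    (ht : ∃ c : ℝ, ∀ n, ‖t n‖ ≤ c) (f : L4 μ) :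
    Tendsto (fun n => T4 (r n) (s n) (t n) f) atTop (𝓝 0) := by
  obtain ⟨c, hs⟩ := hs
  obtain ⟨c', ht⟩ := ht
  have h := ((hr.2 f).mul_const (c * c * c' * c')).sqrt
  rw [zero_mul, Real.sqrt_zero] at h
  refine squeeze_zero_norm (fun n => Real.abs_le_sqrt ?_) h
  rw [T4_swap34]
  refine (T4_cs _ _ _ _).trans (mul_le_mul_of_nonneg_left
    (((le_abs_self _).trans (T4_abs_le _ _ _ _)).trans ?_) (T4_sq_nonneg _ _))
  have h1 := hs n
  have h2 := ht n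
  have h3 := (norm_nonneg _).trans h1
  have h4 := (norm_nonneg _).trans h2
  gcongr

theorem T4_mixed1 {r : ℕ → L4 μ} (hr : Null r) (f g h : L4 μ) :
    Tendsto (fun n => T4 (r n) f g h) atTop (𝓝 0) := by
  exact T4_mix hr ⟨‖f‖, fun _ => le_rfl⟩ ⟨‖g‖, fun _ => le_rfl⟩ h

theorem T4_mixed2 {r s : ℕ → L4 μ} (hr : Null r) (hs : ∃ c : ℝ, ∀ n, ‖s n‖ ≤ c) (f g : L4 μ) :
    Tendsto (fun n => T4 (r n) (s n) f g) atTop (𝓝 0) := by
  simpa only [T4_swap34 _ _ g f] using T4_mix hr hs (t := fun _ => g) ⟨‖g‖, fun _ => le_rfl⟩ f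

theorem T4_mixed3 {r s t : ℕ → L4 μ} (hr : Null r) (hs : ∃ c : ℝ, ∀ n, ‖s n‖ ≤ c)
    (ht : ∃ c : ℝ, ∀ n, ‖t n‖ ≤ c) (f : L4 μ) :
    Tendsto (fun n => T4 (r n) (s n) (t n) f) atTop (𝓝 0) := by
  exact T4_mix hr hs ht f

/-- Brezis-Lieb splitting of the mixed term (take `s = r`, `w = z` for the fourth power). -/
theorem T4_split {r s : ℕ → L4 μ} (hr : Null r) (hs : Null s) (z w : L4 μ) {ρ : ℝ}
    (h : Tendsto (fun n => T4 (r n) (r n) (s n) (s n)) atTop (𝓝 ρ)) :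
    Tendsto (fun n => T4 (z + r n) (z + r n) (w + s n) (w + s n)) atTop
      (𝓝 (T4 z z w w + ρ)) := by
  have a1 := T4_mixed1 hr z w w
  have a2 := T4_mixed1 hs z z w
  have a3 := hr.2 w
  have a4 := hs.2 z
  have a5 := T4_mixed2 hr hs.1 z w
  have a6 := T4_mixed3 hr hr.1 hs.1 w
  have a7 := T4_mixed3 hs hs.1 hr.1 z
  have := (((((((a1.const_mul 2).add (a2.const_mul 2)).add a3).add a4).add (a5.const_mul 4)).add
    (a6.const_mul 2)).add (a7.const_mul 2)).add (h.const_add (T4 z z w w))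
  simp only [mul_zero, zero_add] at this
  refine this.congr fun n => ?_
  simp only [T4_add1, T4_add2, T4_add3, T4_add4]
  have e1 := T4_swap12 z (r n) w w
  have e2 := T4_swap13 z z (s n) w
  have e3 := T4_swap34 z z w (s n)
  have e4 := T4_pairs z z (s n) (s n)
  have e5 := T4_swap23 (r n) z (s n) w
  have e6 := T4_swap34 (r n) z w (s n)
  have e7 := T4_swap12 z (r n) (s n) w
  have e8 := T4_swap12 z (r n) w (s n)
  have e9 := T4_swap34 (r n) (r n) w (s n)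
  have e10 := T4_pairs (r n) z (s n) (s n)
  have e11 := T4_swap12 z (r n) (s n) (s n)
  linarith

end CritSys
end
end

-- merged part: Pool.Agent.Work.MP_80ee1d_an.Ctx
section
/-!
The abstract setting of the variational arguments: a Hilbert space `H` (it will be `H¹₀(Ω)` with
the Dirichlet norm), a finite measure `μ` (Lebesgue measure on `Ω`) and the embedding
`val : H → L⁴(μ)`, with the analytic facts that are used later.
-/

open MeasureTheory Filter Topology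
open scoped RealInnerProductSpace

noncomputable section
namespace CritSys

variable {X : Type} [MeasurableSpace X]

/-- The analytic input. -/
structure Ctx (H : Type) [NormedAddCommGroup H] [InnerProductSpace ℝ H] (μ : Measure X)
    [IsFiniteMeasure μ] : Type where
  val : H →L[ℝ] L4 μ
  S : ℝ
  Λ : ℝ
  S_pos : 0 < S
  mu_ne : μ ≠ 0
  sob : ∀ u, S * ‖val u‖ ^ 2 ≤ ‖u‖ ^ 2
  poin : ∀ u, Λ * T4 (oneL μ) (oneL μ) (val u) (val u) ≤ ‖u‖ ^ 2
  poin_opt : ∀ η : ℝ, 0 < η → ∃ u, u ≠ 0 ∧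
    ‖u‖ ^ 2 ≤ (Λ + η) * T4 (oneL μ) (oneL μ) (val u) (val u)
  inj : ∀ u, val u = 0 → u = 0
  wnull : ∀ r : ℕ → H, (∃ c : ℝ, ∀ n, ‖r n‖ ≤ c) →
    (∀ z, Tendsto (fun n => ⟪r n, z⟫) atTop (𝓝 0)) → Null fun n => val (r n)
  abs : ∀ u, ∃ w, val w = |val u| ∧ ‖w‖ ≤ ‖u‖
  smp : ∀ u, 0 ≤ val u → u ≠ 0 → (∀ ψ, 0 ≤ val ψ → 0 ≤ ⟪u, ψ⟫) → PosL (val u)
  picone : ∀ (u : H) (c₀ c₁ c₂ : ℝ) (p q : L4 μ), PosL (val u) →
    (∀ ψ, ⟪u, ψ⟫ = c₀ * T4 (oneL μ) (oneL μ) (val u) (val ψ) + c₁ * T4 p p (val u) (val ψ) +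
      c₂ * T4 q q (val u) (val ψ)) →
    ∀ ψ, c₀ * T4 (oneL μ) (oneL μ) (val ψ) (val ψ) + c₁ * T4 p p (val ψ) (val ψ) +
      c₂ * T4 q q (val ψ) (val ψ) ≤ ‖ψ‖ ^ 2
  osc : ∀ η : ℝ, 0 < η → ∃ h, ‖h‖ = 1 ∧ ‖val h‖ ≤ η
  bn : ∀ l : ℝ, l < 0 → ∃ φ,
    ‖φ‖ ^ 2 + l * T4 (oneL μ) (oneL μ) (val φ) (val φ) < S * ‖val φ‖ ^ 2

/-- The fibering function `E(√s u, √t v)` in terms of the five numbers attached to `(u, v)`. -/
def FF (m1 m2 β a b P Q R s t : ℝ) : ℝ :=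
  (s * a + t * b) / 2 - (m1 * P * s ^ 2 + 2 * β * R * s * t + m2 * Q * t ^ 2) / 4

/-- `c` bounds the fibering function on the closed quadrant. -/
def Ub (m1 m2 β a b P Q R c : ℝ) : Prop :=
  ∀ s t : ℝ, 0 ≤ s → 0 ≤ t → FF m1 m2 β a b P Q R s t ≤ c

/-- First order conditions for a maximum of the fibering function on the closed quadrant. -/
def KKT (m1 m2 β a b P Q R s t : ℝ) : Prop :=
  0 ≤ s ∧ 0 ≤ t ∧ a ≤ m1 * P * s + β * R * t ∧ b ≤ β * R * s + m2 * Q * t ∧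
    s * (a - (m1 * P * s + β * R * t)) = 0 ∧ t * (b - (β * R * s + m2 * Q * t)) = 0

namespace Ctx

variable {H : Type} [NormedAddCommGroup H] [InnerProductSpace ℝ H] {μ : Measure X}
  [IsFiniteMeasure μ] (C : Ctx H μ)

/-- `∫ a b c d`. -/
def T (a b c d : H) : ℝ := T4 (C.val a) (C.val b) (C.val c) (C.val d)

/-- `∫ a b`. -/
def M (a b : H) : ℝ := T4 (oneL μ) (oneL μ) (C.val a) (C.val b)

/-- `∫ ∇a ∇b + l a b`. -/
def B (l : ℝ) (a b : H) : ℝ := ⟪a, b⟫ + l * C.M a b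

/-- `∫ |∇a|² + l a²`. -/
def q (l : ℝ) (a : H) : ℝ := ‖a‖ ^ 2 + l * C.M a a

/-- `∫ a⁴`. -/
def P (a : H) : ℝ := C.T a a a a

/-- `∫ a² b²`. -/
def R (a b : H) : ℝ := C.T a a b b

/-- Positivity almost everywhere. -/
def Pos (a : H) : Prop := PosL (C.val a)

/-- `u` solves `-Δu + l u = m u³ + β v² u`. -/
def Eqn (l m β : ℝ) (u v : H) : Prop := ∀ ψ, C.B l u ψ = m * C.T u u u ψ + β * C.T v v u ψ

/-- `w` solves the scalar equation `-Δw + l w = m w³`. -/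
def Sol1 (l m : ℝ) (w : H) : Prop := ∀ ψ, C.B l w ψ = m * C.T w w w ψ

/-- Positive least energy solutions of the scalar equation. -/
def Least (l m : ℝ) (w : H) : Prop :=
  C.Sol1 l m w ∧ C.Pos w ∧ ∀ z, z ≠ 0 → C.q l z = m * C.P z → C.q l w ≤ C.q l z

/-- The Nehari set. -/
def Neh (l1 l2 m1 m2 β : ℝ) (u v : H) : Prop :=
  u ≠ 0 ∧ v ≠ 0 ∧ C.q l1 u = m1 * C.P u + β * C.R u v ∧ C.q l2 v = m2 * C.P v + β * C.R u v

/-- The energy. -/
def En (l1 l2 m1 m2 β : ℝ) (u v : H) : ℝ :=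
  (C.q l1 u + C.q l2 v) / 2 - (m1 * C.P u + 2 * β * C.R u v + m2 * C.P v) / 4

/-- `(u, v)` is a positive ground state. -/
def IsGS (l1 l2 m1 m2 β : ℝ) (u v : H) : Prop :=
  C.Eqn l1 m1 β u v ∧ C.Eqn l2 m2 β v u ∧ C.Pos u ∧ C.Pos v ∧
    ∀ u' v', C.Neh l1 l2 m1 m2 β u' v' → C.En l1 l2 m1 m2 β u v ≤ C.En l1 l2 m1 m2 β u' v'

/-- Existence of a positive ground state. -/
def GS (l1 l2 m1 m2 β : ℝ) : Prop := ∃ u v, C.IsGS l1 l2 m1 m2 β u v

/-- `c` bounds `E(√s u, √t v)` for all `s, t ≥ 0`. -/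
def UbJ (l1 l2 m1 m2 β : ℝ) (u v : H) (c : ℝ) : Prop :=
  Ub m1 m2 β (C.q l1 u) (C.q l2 v) (C.P u) (C.P v) (C.R u v) c

/-- `c` is below every bound of every fibering function. -/
def Low (l1 l2 m1 m2 β c : ℝ) : Prop :=
  ∀ z w m, z ≠ 0 → w ≠ 0 → C.UbJ l1 l2 m1 m2 β z w m → c ≤ m

/-- The threshold attached to the least energy solutions of one equation. -/
def bh (l m l' : ℝ) : ℝ :=
  sInf {r | ∃ w v, C.Least l m w ∧ v ≠ 0 ∧ r = C.q l' v / C.R w v}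

/-- Admissible linear coefficient. -/
def Adm (l : ℝ) : Prop := -C.Λ < l ∧ l < 0

/-- Limit data of two weakly null sequences. -/
structure Rem (r s : ℕ → H) (a' b' P' Q' R' : ℝ) : Prop where
  a0 : 0 ≤ a'
  b0 : 0 ≤ b'
  P0 : 0 ≤ P'
  Q0 : 0 ≤ Q'
  R0 : 0 ≤ R'
  sa : C.S ^ 2 * P' ≤ a' ^ 2
  sb : C.S ^ 2 * Q' ≤ b' ^ 2
  rr : R' ^ 2 ≤ P' * Q'
  qa : ∀ l z, Tendsto (fun n => C.q l (z + r n)) atTop (𝓝 (C.q l z + a'))
  qb : ∀ l z, Tendsto (fun n => C.q l (z + s n)) atTop (𝓝 (C.q l z + b'))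
  pa : ∀ z, Tendsto (fun n => C.P (z + r n)) atTop (𝓝 (C.P z + P'))
  pb : ∀ z, Tendsto (fun n => C.P (z + s n)) atTop (𝓝 (C.P z + Q'))
  rab : ∀ z w, Tendsto (fun n => C.R (z + r n) (w + s n)) atTop (𝓝 (C.R z w + R'))
  ma : ∀ z, Tendsto (fun n => C.M (z + r n) (z + r n)) atTop (𝓝 (C.M z z))
  my : ∀ z y, Tendsto (fun n => C.M (z + r n) y) atTop (𝓝 (C.M z y))

/-- A positive first eigenfunction, normalised in `L⁴`, with the spectral gap `γ`. -/
structure Eig (φ : H) (γ : ℝ) : Prop where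
  pos : C.Pos φ
  norm : ‖C.val φ‖ = 1
  eq : ∀ ψ, ⟪φ, ψ⟫ = C.Λ * C.M φ ψ
  γ_pos : 0 < γ
  gap : ∀ h, C.M h φ = 0 → γ * ‖h‖ ^ 2 ≤ ‖h‖ ^ 2 - C.Λ * C.M h h

end Ctx
end CritSys
end
end
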