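import Pool.Agent.Work.MP_80ee1d_an.SmpB
import Pool.Agent.Work.MP_80ee1d_an.AlgB

/-!
Points of the Nehari set near an unstable semitrivial point.

PLAN. `bound_core`: write `b = q l2 w = m2 Q`, `Q = P w > 0`.  Take `h` from `exists_osc l1 β w`
and `u τ = u + τ • h`; `g τ = q l1 (u τ) - β R (u τ) w = g₀ + 2 g₁ τ + g₂ τ²` with `g₂ > 0`, `g₀ ≤ 0`
(`q_add`, `R_add`).  Let `τ₀ ≥ 0` be the larger root: `g τ = g₂ (τ - τ₀)(τ - τ₁)`, `τ₁ ≤ 0 ≤ τ₀`;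
`u τ₀ ≠ 0` (else `u τ = (τ - τ₀) • h`, `g τ = (τ - τ₀)² g₂`, so `g₀ ≤ 0` forces `τ₀ = 0`, `u = 0`,
`g₀ = 0`).  Put `D τ = m1 m2 P (u τ) Q - β² R (u τ) w ^ 2`.  For `s > 0` with `s D τ = m2 Q g τ` and
`t = 1 - β R (u τ) w s / (m2 Q) > 0` the hypotheses of `neh_sqrt` hold for `(u τ, w)`, the energy is
`(s q l1 (u τ) + t b) / 4`.  If `D τ₀ = 0` take `τ = τ₀` and `s` small.  If `D τ₀ > 0` let `τ ↓ τ₀`
(`g τ > 0`), if `D τ₀ < 0` (only possible when `g₀ < 0`, then `τ₁ < 0 < τ₀`) let `τ ↑ τ₀`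
(`g τ < 0`); `s = m2 Q g τ / D τ → 0` by continuity (use `𝓝[>] τ₀`, `𝓝[<] τ₀`).
`neh_approx`: a KKT point `(s, t)` of the data of `(u, v)`; its value `(s a + t b)/4` is `≤ m`.
Interior: `neh_sqrt`.  `s = 0`: `t > 0`, `w = √t • v`, `bound_core`.  `t = 0`: swap.
`neh_gt`: `(a + b) m2 Q - b² = m1 m2 P Q - β² R²`.
-/

open MeasureTheory Filter Topology
open scoped RealInnerProductSpace

noncomputable section
namespace CritSys
namespace Ctx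

variable {X : Type} [MeasurableSpace X] {H : Type} [NormedAddCommGroup H] [InnerProductSpace ℝ H]
  {μ : Measure X} [IsFiniteMeasure μ] (C : Ctx H μ) {l1 l2 m1 m2 β : ℝ}

theorem Bound_lim (h2 : 0 < m2) {w : H} (hw : w ≠ 0) (hn : C.q l2 w = m2 * C.P w)
    {F : Filter ℝ} [F.NeBot] {z : ℝ → H} {z₀ : H} (hz : Tendsto z F (𝓝 z₀)) (hz0 : z₀ ≠ 0)
    {s : ℝ → ℝ} (hs : Tendsto s F (𝓝 0))
    (he : ∀ᶠ τ in F, 0 < s τ ∧ s τ * (m1 * m2 * C.P (z τ) * C.P w - β ^ 2 * C.R (z τ) w ^ 2) =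
      m2 * C.P w * (C.q l1 (z τ) - β * C.R (z τ) w)) {η : ℝ} (hη : 0 < η) :
    ∃ u' v', C.Neh l1 l2 m1 m2 β u' v' ∧ C.En l1 l2 m1 m2 β u' v' ≤ C.q l2 w / 4 + η := by
  have hQ : 0 < m2 * C.P w := mul_pos h2 (C.P_pos hw)
  have hR : Tendsto (fun τ => C.R (z τ) w) F (𝓝 (C.R z₀ w)) :=
    ((C.continuous_R.tendsto (z₀, w)).comp (hz.prodMk_nhds (tendsto_const_nhds (x := w))) :)
  have hq : Tendsto (fun τ => C.q l1 (z τ)) F (𝓝 (C.q l1 z₀)) :=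
    (((C.continuous_q l1).tendsto z₀).comp hz :)
  have t1 : Tendsto (fun τ => β * C.R (z τ) w * s τ) F (𝓝 0) := by
    simpa using (hR.const_mul β).mul hs
  have t2 : Tendsto (fun τ => s τ * (C.q l1 (z τ) - β * C.R (z τ) w)) F (𝓝 0) := by
    simpa using hs.mul (hq.sub (hR.const_mul β))
  obtain ⟨τ, ⟨e1, e2⟩, e3, e4, e5⟩ := (he.and ((hz.eventually_ne hz0).and
    ((t1.eventually_lt_const hQ).and (t2.eventually_lt_const hη)))).exists
  have ht : 0 < 1 - β * C.R (z τ) w * s τ / (m2 * C.P w) := by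
    rw [sub_pos, div_lt_one hQ]
    exact e4
  have hP := (C.P_pos hw).ne'
  obtain ⟨k1, k2⟩ := C.neh_sqrt (l1 := l1) (l2 := l2) (m1 := m1) (m2 := m2) (β := β) e3 hw e1 ht
    (by field_simp; linear_combination -e2) (by rw [hn]; field_simp; ring)
  refine ⟨_, _, k1, ?_⟩
  rw [k2, hn, sub_mul, div_mul_cancel₀ _ hQ.ne']
  nlinarith

theorem bound_core (h1 : 0 < m1) (h2 : 0 < m2) {u w : H} (hw : w ≠ 0)
    (hn : C.q l2 w = m2 * C.P w)
    (hu : C.q l1 u < β * C.R u w ∨ (u ≠ 0 ∧ C.q l1 u ≤ β * C.R u w ∧ β ^ 2 < m1 * m2))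
    {η : ℝ} (hη : 0 < η) :
    ∃ u' v', C.Neh l1 l2 m1 m2 β u' v' ∧ C.En l1 l2 m1 m2 β u' v' ≤ C.q l2 w / 4 + η := by
  obtain ⟨h, hh⟩ := C.exists_osc l1 β w
  have hQ := C.P_pos hw
  set g₀ := C.q l1 u - β * C.R u w with hg₀
  set g₁ := C.B l1 u h - β * C.T w w u h with hg₁
  set g₂ := C.q l1 h - β * C.R h w with hg₂
  have p2 : 0 < g₂ := sub_pos.2 hh
  have p0 : g₀ ≤ 0 := by
    rcases hu with hu | hu
    · exact (sub_neg.2 hu).le
    · exact sub_nonpos.2 hu.2.1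
  have hs1 : ∀ (t : ℝ) (a : H), C.R (t • a) w = t ^ 2 * C.R a w := fun t a => by
    simpa using C.R_smul t 1 a w
  have hg : ∀ τ : ℝ, C.q l1 (u + τ • h) - β * C.R (u + τ • h) w =
      g₀ + 2 * g₁ * τ + g₂ * τ ^ 2 := fun τ => by
    rw [C.q_add, C.R_add, C.q_smul, hs1, C.B_smul2, C.T_smul4, hg₀, hg₁, hg₂]
    ring
  have hd : 0 ≤ g₁ ^ 2 - g₀ * g₂ := by nlinarith [sq_nonneg g₁]
  set r := √(g₁ ^ 2 - g₀ * g₂) with hr
  have r0 : 0 ≤ r := Real.sqrt_nonneg _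
  have r2 : r ^ 2 = g₁ ^ 2 - g₀ * g₂ := Real.sq_sqrt hd
  set τ₀ := (-g₁ + r) / g₂ with hτ₀
  set τ₁ := (-g₁ - r) / g₂ with hτ₁
  have hg' : ∀ τ : ℝ, C.q l1 (u + τ • h) - β * C.R (u + τ • h) w =
      g₂ * ((τ - τ₀) * (τ - τ₁)) := fun τ => by
    rw [hg, hτ₀, hτ₁]
    field_simp
    linear_combination r2
  have hle : τ₁ ≤ τ₀ := div_le_div_of_nonneg_right (by linarith) p2.le
  have hz0 : u + τ₀ • h ≠ 0 := fun e => by
    have e1 : u = (-τ₀) • h := by rw [neg_smul]; exact eq_neg_of_add_eq_zero_left e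
    have e2 : g₀ = τ₀ ^ 2 * g₂ := by
      rw [hg₀, e1, C.q_smul, hs1, hg₂]
      ring
    have e3 : τ₀ = 0 := by
      by_contra hne
      have := mul_pos (pow_pos (abs_pos.2 hne) 2) p2
      rw [sq_abs] at this
      linarith
    rcases hu with hu | hu
    · rw [e3] at e2
      linarith
    · rw [e3, neg_zero, zero_smul] at e1
      exact hu.1 e1
  set D : ℝ → ℝ := fun τ => m1 * m2 * C.P (u + τ • h) * C.P w - β ^ 2 * C.R (u + τ • h) w ^ 2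
    with hD
  have hzc : Continuous fun τ : ℝ => u + τ • h := by fun_prop
  have hDc : Continuous D :=
    ((continuous_const.mul (C.continuous_P.comp hzc)).mul continuous_const).sub
      (continuous_const.mul ((C.continuous_R.comp (hzc.prodMk continuous_const)).pow 2))
  have hst : D τ₀ ≠ 0 → Tendsto (fun τ => m2 * C.P w * (g₂ * ((τ - τ₀) * (τ - τ₁))) / D τ)
      (𝓝 τ₀) (𝓝 0) := fun hne => by
    have c1 : Continuous fun τ => m2 * C.P w * (g₂ * ((τ - τ₀) * (τ - τ₁))) := by fun_prop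
    have := (c1.tendsto τ₀).div (hDc.tendsto τ₀) hne
    rw [sub_self, zero_mul, mul_zero, mul_zero, zero_div] at this
    exact this
  rcases lt_trichotomy (D τ₀) 0 with hD0 | hD0 | hD0
  · have hlt : τ₁ < τ₀ := by
      rcases hu with hu | hu
      · have : 0 < r := Real.sqrt_pos.2 (by nlinarith [sq_nonneg g₁, mul_pos (sub_pos.2 hu) p2])
        exact div_lt_div_of_pos_right (by linarith) p2
      · exfalso
        have a1 := C.R_sq_le (u + τ₀ • h) w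
        have a2 := mul_pos (C.P_pos hz0) hQ
        simp only [hD] at hD0
        nlinarith [mul_le_mul_of_nonneg_left a1 (sq_nonneg β), mul_pos (sub_pos.2 hu.2.2) a2]
    refine C.Bound_lim h2 hw hn (F := 𝓝[<] τ₀) ((hzc.tendsto τ₀).mono_left nhdsWithin_le_nhds) hz0
      ((hst hD0.ne).mono_left nhdsWithin_le_nhds) ?_ hη
    filter_upwards [((hDc.tendsto τ₀).eventually_lt_const hD0).filter_mono nhdsWithin_le_nhds,
      Ioo_mem_nhdsLT hlt] with τ e1 e2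
    refine ⟨div_pos_of_neg_of_neg (mul_neg_of_pos_of_neg (mul_pos h2 hQ) (mul_neg_of_pos_of_neg p2
      (mul_neg_of_neg_of_pos (sub_neg.2 e2.2) (sub_pos.2 e2.1)))) e1, ?_⟩
    rw [hg']
    exact div_mul_cancel₀ _ e1.ne
  · refine C.Bound_lim h2 hw hn (F := 𝓝[>] 0) (z := fun _ => u + τ₀ • h) tendsto_const_nhds hz0
      (s := fun τ => τ) (tendsto_id.mono_left nhdsWithin_le_nhds) ?_ hη
    filter_upwards [self_mem_nhdsWithin] with τ e1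
    refine ⟨e1, ?_⟩
    simp only [hD] at hD0
    rw [hg', hD0]
    ring
  · refine C.Bound_lim h2 hw hn (F := 𝓝[>] τ₀) ((hzc.tendsto τ₀).mono_left nhdsWithin_le_nhds) hz0
      ((hst hD0.ne').mono_left nhdsWithin_le_nhds) ?_ hη
    filter_upwards [((hDc.tendsto τ₀).eventually_const_lt hD0).filter_mono nhdsWithin_le_nhds,
      self_mem_nhdsWithin] with τ e1 e2
    have e3 : τ₀ < τ := e2
    refine ⟨div_pos (mul_pos (mul_pos h2 hQ) (mul_pos p2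
      (mul_pos (sub_pos.2 e3) (sub_pos.2 (hle.trans_lt e3))))) e1, ?_⟩
    rw [hg']
    exact div_mul_cancel₀ _ e1.ne'

theorem Bound_axis (a1 : C.Adm l1) (h1 : 0 < m1) (h2 : 0 < m2)
    (hd : β ^ 2 < m1 * m2) {u v : H} (hu : u ≠ 0) (hv : v ≠ 0) {t : ℝ}
    (k : KKT m1 m2 β (C.q l1 u) (C.q l2 v) (C.P u) (C.P v) (C.R u v) 0 t) {η : ℝ} (hη : 0 < η) :
    ∃ u' v', C.Neh l1 l2 m1 m2 β u' v' ∧ C.En l1 l2 m1 m2 β u' v' ≤ t * C.q l2 v / 4 + η := by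
  obtain ⟨-, k1, k2, -, -, k3⟩ := k
  have ha := C.q_pos a1.1 hu
  have ht : 0 < t := lt_of_le_of_ne k1 (by
    rintro rfl
    linarith)
  have hb : C.q l2 v = m2 * C.P v * t := by
    have := (mul_eq_zero.1 k3).resolve_left ht.ne'
    linarith
  have e2 : √t ^ 2 = t := Real.sq_sqrt k1
  have e4 : √t ^ 4 = t ^ 2 := by rw [← e2]; rw [Real.sqrt_sq (Real.sqrt_nonneg t)]; ring
  have eR : C.R u (√t • v) = t * C.R u v := by simpa [e2] using C.R_smul 1 (√t) u v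
  have := C.bound_core (l1 := l1) (l2 := l2) (β := β) h1 h2 (u := u) (w := √t • v)
    (smul_ne_zero (Real.sqrt_pos.2 ht).ne' hv) (by rw [C.q_smul, C.P_smul, e2, e4, hb]; ring)
    (Or.inr ⟨hu, by rw [eR]; linarith, hd⟩) hη
  rwa [C.q_smul, e2] at this

theorem neh_approx (a1 : C.Adm l1) (a2 : C.Adm l2) (h1 : 0 < m1) (h2 : 0 < m2) (hβ : 0 ≤ β)
    (hd : β ^ 2 < m1 * m2) {u v : H} (hu : u ≠ 0) (hv : v ≠ 0) {m : ℝ}
    (h : C.UbJ l1 l2 m1 m2 β u v m) {η : ℝ} (hη : 0 < η) :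
    ∃ u' v', C.Neh l1 l2 m1 m2 β u' v' ∧ C.En l1 l2 m1 m2 β u' v' ≤ m + η := by
  obtain ⟨s, t, k⟩ := kkt_exists h1 h2 hβ hd (C.q_pos a1.1 hu).le (C.q_pos a2.1 hv).le
    (C.P_pos hu) (C.P_pos hv) (C.R_nonneg u v) (C.R_sq_le u v)
  have hm := h s t k.1 k.2.1
  rw [k.val] at hm
  rcases k.1.eq_or_lt with rfl | hs
  · obtain ⟨u', v', e1, e2⟩ := C.Bound_axis a1 h1 h2 hd hu hv k hη
    exact ⟨u', v', e1, by linarith⟩
  rcases k.2.1.eq_or_lt with rfl | ht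
  · have k' := k.swap
    rw [C.R_comm] at k'
    obtain ⟨u', v', e1, e2⟩ := C.Bound_axis a2 h2 h1 (by rwa [mul_comm]) hv hu k' hη
    exact ⟨v', u', e1.swap, by rw [C.En_swap]; linarith⟩
  obtain ⟨-, -, -, -, k1, k2⟩ := k
  obtain ⟨e1, e2⟩ := C.neh_sqrt (l1 := l1) (l2 := l2) (m1 := m1) (m2 := m2) (β := β) hu hv hs ht
    (sub_eq_zero.1 ((mul_eq_zero.1 k1).resolve_left hs.ne'))
    (sub_eq_zero.1 ((mul_eq_zero.1 k2).resolve_left ht.ne'))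
  exact ⟨_, _, e1, by linarith⟩

theorem neh_gt (hd : β ^ 2 < m1 * m2) {u v : H} (h : C.Neh l1 l2 m1 m2 β u v) :
    C.q l2 v ^ 2 < 4 * (m2 * C.P v) * C.En l1 l2 m1 m2 β u v := by
  rw [h.En_eq]
  obtain ⟨hu, hv, e1, e2⟩ := h
  have a1 := C.R_sq_le u v
  have a2 := mul_pos (C.P_pos hu) (C.P_pos hv)
  rw [e1, e2]
  nlinarith [mul_le_mul_of_nonneg_left a1 (sq_nonneg β), mul_pos (sub_pos.2 hd) a2]

end Ctx
end CritSys
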