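import Pool.Agent.Work.MP_80ee1d_an.SpaceC

/-!
Chain and product rule in `D`.

PLAN. Take tests `f n → u` in `D` (`mem_H0_iff`; in the second case use `mem_H0_univ`), pass to the
a.e. convergent subsequence of `exists_ae_subseq`.  `w n = ρ * G ∘ f n` is a test function
supported in `Ω` (first case: it vanishes where `f n` does; second case: where `ρ` does), with
gradient `G (f n) • ∇ρ + (ρ * G' (f n)) • ∇(f n)`.  The difference with the target field is
`(G (f n) - G u) • ∇ρ + (ρ G'(f n)) • (∇ f n - grd u) + (ρ (G'(f n) - G' u)) • grd u`.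
First term: `|G a - G b| ≤ L |a - b|` and Hölder (`eLpNorm_smul_le_mul_eLpNorm`, exponents `4, 4, 2`);
second: bounded factor; third: dominated convergence (for `∫ ‖·‖²`, or
`tendsto_Lp_of_tendsto_ae`-type lemmas).  The target field is in `L²` (difference with a term of the
sequence has finite norm; measurability from continuity of `G`, `deriv G`, `gradient ρ`).
`H0_of_limit` gives `w`; `exists_ae_subseq` again identifies `val w`.
`mul_D` is the case `G = id`, `comp_D` the case `ρ = 1`.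
-/

open MeasureTheory Filter Topology
open scoped ContDiff RealInnerProductSpace ENNReal

noncomputable section
namespace CritSys

/-- Admissible multipliers. -/
def Mult (ρ : E4 → ℝ) : Prop :=
  ContDiff ℝ ∞ ρ ∧ (∃ c : ℝ, ∀ x, |ρ x| ≤ c) ∧ MemLp (gradient ρ) 4 volume

theorem Mult.of_tst (f : Tst) : Mult (f : E4 → ℝ) :=
  ⟨f.2.1, f.2.1.continuous.bounded_above_of_compact_support f.2.2, tst_memLp_grad f 4⟩

theorem comp_gradient_mul {ρ σ : E4 → ℝ} (h : ContDiff ℝ ∞ ρ) (h' : ContDiff ℝ ∞ σ) (x : E4) :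
    gradient (fun x => ρ x * σ x) x = σ x • gradient ρ x + ρ x • gradient σ x := by
  refine ext_inner_right ℝ fun v => ?_
  rw [inner_add_left, real_inner_smul_left, real_inner_smul_left, inner_gradient, inner_gradient,
    inner_gradient, fderiv_fun_mul (h.differentiable (by simp) x) (h'.differentiable (by simp) x)]
  simp only [add_apply, smul_apply, smul_eq_mul]
  ring

theorem Mult.mul {ρ σ : E4 → ℝ} (h : Mult ρ) (h' : Mult σ) : Mult fun x => ρ x * σ x := by
  obtain ⟨h1, ⟨c, hc⟩, h3⟩ := h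
  obtain ⟨h1', ⟨c', hc'⟩, h3'⟩ := h'
  refine ⟨h1.mul h1', ⟨c * c', fun x => ?_⟩, ?_⟩
  · rw [abs_mul]
    exact mul_le_mul (hc x) (hc' x) (abs_nonneg _) ((abs_nonneg _).trans (hc x))
  · have k : ∀ {a b : E4 → ℝ} {d : ℝ}, Continuous a → (∀ x, |a x| ≤ d) →
        MemLp (gradient b) 4 volume → MemLp (fun x => a x • gradient b x) 4 volume := by
      intro a b d ha hd hb
      refine MemLp.of_le_mul (c := d) hb (ha.aestronglyMeasurable.smul hb.1)
        (Eventually.of_forall fun x => ?_)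
      rw [norm_smul]
      exact mul_le_mul_of_nonneg_right (hd x) (norm_nonneg _)
    rw [funext (comp_gradient_mul h1 h1')]
    exact (k h1'.continuous hc' h3).add (k h1.continuous hc h3')

theorem gradient_mul' {ρ σ : E4 → ℝ} (h : ContDiff ℝ ∞ ρ) (h' : ContDiff ℝ ∞ σ) (x : E4) :
    gradient (fun x => ρ x * σ x) x = σ x • gradient ρ x + ρ x • gradient σ x :=
  comp_gradient_mul h h' x

theorem gradient_comp' {G : ℝ → ℝ} {f : E4 → ℝ} (hG : ContDiff ℝ ∞ G) (hf : ContDiff ℝ ∞ f)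
    (x : E4) : gradient (fun x => G (f x)) x = deriv G (f x) • gradient f x := by
  refine ext_inner_right ℝ fun v => ?_
  have h := ((hG.differentiable (by simp) (f x)).hasDerivAt.comp_hasFDerivAt x
    (hf.differentiable (by simp) x).hasFDerivAt).fderiv
  rw [real_inner_smul_left, inner_gradient, inner_gradient]
  exact congrArg (fun l : E4 →L[ℝ] ℝ => l v) h

theorem comp_dom {h : ℕ → E4 → E4} {b : E4 → E4} {c : ℝ}
    (hm : ∀ n, AEStronglyMeasurable (h n) volume) (hb : MemLp b 2 volume)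
    (hle : ∀ n x, ‖h n x‖ ≤ c * ‖b x‖) (hl : ∀ᵐ x, Tendsto (fun n => h n x) atTop (𝓝 0)) :
    Tendsto (fun n => eLpNorm (h n) 2 volume) atTop (𝓝 0) := by
  have hb' : MemLp (fun x => c * ‖b x‖) 2 volume := hb.norm.const_mul c
  have h2 : (2 : ℝ≥0∞) ≠ ⊤ := by norm_num
  have hp : (0 : ℝ) < (2 : ℝ≥0∞).toReal := by norm_num
  have h1 := tendsto_lintegral_of_dominated_convergence' (μ := (volume : Measure E4))
    (F := fun n x => ‖h n x‖ₑ ^ (2 : ℝ≥0∞).toReal) (f := fun _ => 0)
    (fun x => ‖c * ‖b x‖‖ₑ ^ (2 : ℝ≥0∞).toReal) (fun n => (hm n).enorm.pow_const _)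
    (fun n => Eventually.of_forall fun x => ENNReal.rpow_le_rpow (by
      rw [← ofReal_norm, ← ofReal_norm]
      exact ENNReal.ofReal_le_ofReal ((hle n x).trans (le_abs_self _))) hp.le)
    (lintegral_rpow_enorm_lt_top_of_eLpNorm_lt_top two_ne_zero h2 hb'.2).ne
    (hl.mono fun x hx => by
      have := (ENNReal.continuous_rpow_const (y := (2 : ℝ≥0∞).toReal)).continuousAt.tendsto.comp
        hx.enorm
      rwa [enorm_zero, ENNReal.zero_rpow_of_pos hp] at this)
  simp only [eLpNorm_eq_lintegral_rpow_enorm_toReal two_ne_zero h2]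
  have := (ENNReal.continuous_rpow_const
    (y := 1 / (2 : ℝ≥0∞).toReal)).continuousAt.tendsto.comp h1
  rwa [lintegral_zero, ENNReal.zero_rpow_of_pos (by positivity)] at this

theorem comp_seq (u : D) {ρ : E4 → ℝ} {G : ℝ → ℝ} {Ω : Set E4}
    (h : (G 0 = 0 ∧ u ∈ H0 Ω) ∨ (HasCompactSupport ρ ∧ tsupport ρ ⊆ Ω)) :
    ∃ f : ℕ → Tst, Tendsto (fun n => ofT (f n)) atTop (𝓝 u) ∧
      (∀ᵐ x, Tendsto (fun n => (f n : E4 → ℝ) x) atTop (𝓝 (val u x))) ∧
      ∀ n, HasCompactSupport (fun x => ρ x * G ((f n : E4 → ℝ) x)) ∧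
        tsupport (fun x => ρ x * G ((f n : E4 → ℝ) x)) ⊆ Ω := by
  have k : ∃ f : ℕ → Tst, Tendsto (fun n => ofT (f n)) atTop (𝓝 u) ∧
      ∀ n, HasCompactSupport (fun x => ρ x * G ((f n : E4 → ℝ) x)) ∧
        tsupport (fun x => ρ x * G ((f n : E4 → ℝ) x)) ⊆ Ω := by
    rcases h with ⟨h0, hu⟩ | ⟨h1, h2⟩
    · obtain ⟨f, hf, hf'⟩ := mem_H0_iff.1 hu
      refine ⟨f, hf', fun n => ?_⟩
      have hs : Function.support (fun x => ρ x * G ((f n : E4 → ℝ) x)) ⊆
          Function.support (f n : E4 → ℝ) := fun x hx e => hx (by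
        change ρ x * G ((f n : E4 → ℝ) x) = 0
        rw [e, h0, mul_zero])
      exact ⟨(f n).2.2.mono hs, (closure_mono hs).trans (hf n)⟩
    · obtain ⟨f, -, hf'⟩ := mem_H0_iff.1 (mem_H0_univ u)
      exact ⟨f, hf', fun n => ⟨h1.mul_right, tsupport_mul_subset_left.trans h2⟩⟩
  obtain ⟨f, h1, h2⟩ := k
  obtain ⟨φ, hφ, h3⟩ := exists_ae_subseq h1
  refine ⟨fun n => f (φ n), h1.comp hφ.tendsto_atTop, ?_, fun n => h2 _⟩
  filter_upwards [h3, ae_all_iff.2 fun n => val_ofT (f (φ n))] with x hx hx'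
  exact hx.1.congr hx'

theorem mulComp (u : D) {ρ : E4 → ℝ} (hρ : Mult ρ) {G : ℝ → ℝ} (hG : ContDiff ℝ ∞ G)
    (hGb : ∃ c : ℝ, ∀ t, |deriv G t| ≤ c) {Ω : Set E4}
    (h : (G 0 = 0 ∧ u ∈ H0 Ω) ∨ (HasCompactSupport ρ ∧ tsupport ρ ⊆ Ω)) :
    ∃ w ∈ H0 Ω, (∀ᵐ x, val w x = ρ x * G (val u x)) ∧
      ∀ᵐ x, grd w x = G (val u x) • gradient ρ x + (ρ x * deriv G (val u x)) • grd u x := by
  obtain ⟨f, hf1, hf2, hf3⟩ := comp_seq u h
  obtain ⟨hρ1, ⟨c, hc⟩, hρ3⟩ := hρ
  obtain ⟨L, hL⟩ := hGb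
  have hc0 : 0 ≤ c := (abs_nonneg _).trans (hc 0)
  have lip : ∀ a b, ‖G a - G b‖ ≤ L * ‖a - b‖ := fun a b =>
    convex_univ.norm_image_sub_le_of_norm_deriv_le (fun x _ => hG.differentiable (by simp) x)
      (fun x _ => hL x) (Set.mem_univ b) (Set.mem_univ a)
  have cG := hG.continuous
  have cG' : Continuous (deriv G) := hG.continuous_deriv (by simp)
  have cρ := hρ1.continuous
  have cf : ∀ n, Continuous (f n : E4 → ℝ) := fun n => (f n).2.1.continuous
  have mu : AEStronglyMeasurable (val u) volume := Lp.aestronglyMeasurable _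
  have mg : AEStronglyMeasurable (grd u) volume := (grd_memLp u).1
  have mf : ∀ n, AEStronglyMeasurable (gradient (f n : E4 → ℝ)) volume := fun n =>
    (tst_memLp_grad (f n) 2).1
  let w : ℕ → Tst := fun n =>
    ⟨fun x => ρ x * G ((f n : E4 → ℝ) x), hρ1.mul (hG.comp (f n).2.1), (hf3 n).1⟩
  let g : E4 → E4 := fun x =>
    G (val u x) • gradient ρ x + (ρ x * deriv G (val u x)) • grd u x
  let d1 : ℕ → E4 → E4 := fun n x => (G ((f n : E4 → ℝ) x) - G (val u x)) • gradient ρ x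
  let d2 : ℕ → E4 → E4 := fun n x =>
    (ρ x * deriv G ((f n : E4 → ℝ) x)) • (gradient (f n : E4 → ℝ) x - grd u x)
  let d3 : ℕ → E4 → E4 := fun n x =>
    (ρ x * (deriv G ((f n : E4 → ℝ) x) - deriv G (val u x))) • grd u x
  have hd : ∀ n, (fun x => gradient (w n : E4 → ℝ) x - g x) = d1 n + d2 n + d3 n := by
    intro n
    funext x
    have e : gradient (w n : E4 → ℝ) x = _ := gradient_mul' hρ1 (hG.comp (f n).2.1) x
    have e' := gradient_comp' hG (f n).2.1 x
    simp only [Function.comp_def] at e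
    rw [e, e']
    simp only [g, d1, d2, d3, Pi.add_apply]
    module
  have m1 : ∀ n, AEStronglyMeasurable (d1 n) volume := fun n =>
    ((cG.comp (cf n)).aestronglyMeasurable.sub (cG.comp_aestronglyMeasurable mu)).smul hρ3.1
  have m2 : ∀ n, AEStronglyMeasurable (d2 n) volume := fun n =>
    (cρ.mul (cG'.comp (cf n))).aestronglyMeasurable.smul ((mf n).sub mg)
  have m3 : ∀ n, AEStronglyMeasurable (d3 n) volume := fun n =>
    (cρ.aestronglyMeasurable.mul ((cG'.comp (cf n)).aestronglyMeasurable.sub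
      (cG'.comp_aestronglyMeasurable mu))).smul mg
  have t1 : Tendsto (fun n => eLpNorm (d1 n) 2 volume) atTop (𝓝 0) := by
    have a1 : Tendsto (fun n => eLpNorm (fun x => (f n : E4 → ℝ) x - val u x) 4 volume) atTop
        (𝓝 0) := by
      refine ((Lp.tendsto_Lp_iff_tendsto_eLpNorm' _ _).1
        ((val.continuous.tendsto u).comp hf1)).congr fun n => eLpNorm_congr_ae ?_
      filter_upwards [val_ofT (f n)] with x hx
      exact congrArg (· - val u x) hx
    have a2 := ENNReal.Tendsto.const_mul (a := ENNReal.ofReal L)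
      (ENNReal.Tendsto.mul_const (b := eLpNorm (gradient ρ) 4 volume) a1 (Or.inr hρ3.2.ne))
      (Or.inr ENNReal.ofReal_ne_top)
    rw [zero_mul, mul_zero] at a2
    refine tendsto_of_tendsto_of_tendsto_of_le_of_le tendsto_const_nhds a2
      (fun n => zero_le) fun n => ?_
    have : ENNReal.HolderTriple 4 4 2 := ⟨by
      rw [← two_mul, show (4 : ℝ≥0∞) = 2 * 2 by norm_num, ENNReal.mul_inv (by simp) (by simp),
        ← mul_assoc, ENNReal.mul_inv_cancel (by simp) (by simp), one_mul]⟩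
    refine (eLpNorm_le_mul_eLpNorm_of_ae_le_mul (c := L)
      (g := (fun x => (f n : E4 → ℝ) x - val u x) • gradient ρ)
      (Eventually.of_forall fun x => ?_) 2).trans (mul_le_mul_right
        (eLpNorm_smul_le_mul_eLpNorm hρ3.1 ((cf n).aestronglyMeasurable.sub mu)) _)
    simp only [d1, Pi.smul_apply', norm_smul]
    rw [← mul_assoc]
    exact mul_le_mul_of_nonneg_right (lip _ _) (norm_nonneg _)
  have t2 : Tendsto (fun n => eLpNorm (d2 n) 2 volume) atTop (𝓝 0) := by
    have a1 : Tendsto (fun n => eLpNorm (fun x => gradient (f n : E4 → ℝ) x - grd u x) 2 volume)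
        atTop (𝓝 0) := by
      refine ((Lp.tendsto_Lp_iff_tendsto_eLpNorm' _ _).1
        ((grdL.continuous.tendsto u).comp hf1)).congr fun n => eLpNorm_congr_ae ?_
      filter_upwards [grd_ofT (f n)] with x hx
      exact congrArg (· - grd u x) hx
    have a2 := ENNReal.Tendsto.const_mul (a := ENNReal.ofReal (c * L)) a1
      (Or.inr ENNReal.ofReal_ne_top)
    rw [mul_zero] at a2
    refine tendsto_of_tendsto_of_tendsto_of_le_of_le tendsto_const_nhds a2
      (fun n => zero_le) fun n => ?_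
    refine eLpNorm_le_mul_eLpNorm_of_ae_le_mul (Eventually.of_forall fun x => ?_) 2
    simp only [d2, norm_smul, Real.norm_eq_abs, abs_mul]
    exact mul_le_mul_of_nonneg_right (mul_le_mul (hc x) (hL _) (abs_nonneg _) hc0) (norm_nonneg _)
  have t3 : Tendsto (fun n => eLpNorm (d3 n) 2 volume) atTop (𝓝 0) := by
    refine comp_dom (c := c * (L + L)) m3 (grd_memLp u) (fun n x => ?_) (hf2.mono fun x hx => ?_)
    · simp only [d3, norm_smul, Real.norm_eq_abs, abs_mul]
      exact mul_le_mul_of_nonneg_right (mul_le_mul (hc x)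
        ((abs_sub _ _).trans (add_le_add (hL _) (hL _))) (abs_nonneg _) hc0) (norm_nonneg _)
    · have := ((((cG'.tendsto _).comp hx).sub_const (deriv G (val u x))).const_mul
        (ρ x)).smul_const (grd u x)
      rwa [sub_self, mul_zero, zero_smul] at this
  have t : Tendsto (fun n => eLpNorm (fun x => gradient (w n : E4 → ℝ) x - g x) 2 volume) atTop
      (𝓝 0) := by
    have a := (t1.add t2).add t3
    rw [add_zero, add_zero] at a
    refine tendsto_of_tendsto_of_tendsto_of_le_of_le tendsto_const_nhds a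
      (fun n => zero_le) fun n => ?_
    rw [hd n]
    exact (eLpNorm_add_le ((m1 n).add (m2 n)) (m3 n) one_le_two).trans
      (add_le_add_left (eLpNorm_add_le (m1 n) (m2 n) one_le_two) _)
  have hg : MemLp g 2 volume := by
    obtain ⟨n, hn⟩ := (t.eventually (gt_mem_nhds ENNReal.zero_lt_top)).exists
    have a : MemLp (fun x => gradient (w n : E4 → ℝ) x - g x) 2 volume :=
      ⟨hd n ▸ ((m1 n).add (m2 n)).add (m3 n), hn⟩
    have e : g = gradient (w n : E4 → ℝ) - fun x => gradient (w n : E4 → ℝ) x - g x := by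
      funext x
      simp
    rw [e]
    exact (tst_memLp_grad (w n) 2).sub a
  obtain ⟨W, hW, hW1, hW2⟩ := H0_of_limit w (fun n => (hf3 n).2) hg t
  refine ⟨W, hW, ?_, hW1⟩
  obtain ⟨φ, hφ, h3⟩ := exists_ae_subseq hW2
  filter_upwards [h3, hf2, ae_all_iff.2 fun n => val_ofT (w (φ n))] with x h4 h5 h6
  exact tendsto_nhds_unique (h4.1.congr h6)
    (((cG.tendsto _).comp (h5.comp hφ.tendsto_atTop)).const_mul (ρ x))

theorem mul_D (u : D) {ρ : E4 → ℝ} (hρ : Mult ρ) {Ω : Set E4}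
    (h : u ∈ H0 Ω ∨ (HasCompactSupport ρ ∧ tsupport ρ ⊆ Ω)) :
    ∃ w ∈ H0 Ω, (∀ᵐ x, val w x = ρ x * val u x) ∧
      ∀ᵐ x, grd w x = val u x • gradient ρ x + ρ x • grd u x := by
  have := mulComp u hρ (G := fun t => t) contDiff_id ⟨1, fun t => by simp⟩
    (h.imp_left fun h => ⟨rfl, h⟩)
  simpa using this

theorem comp_D {Ω : Set E4} {u : D} (hu : u ∈ H0 Ω) {G : ℝ → ℝ} (hG : ContDiff ℝ ∞ G)
    (hGb : ∃ c : ℝ, ∀ t, |deriv G t| ≤ c) (h0 : G 0 = 0) :
    ∃ w ∈ H0 Ω, (∀ᵐ x, val w x = G (val u x)) ∧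
      ∀ᵐ x, grd w x = deriv G (val u x) • grd u x := by
  have e : gradient (fun _ : E4 => (1 : ℝ)) = fun _ => 0 := by
    funext x
    simp [gradient]
  have hm : Mult fun _ => 1 := ⟨contDiff_const, ⟨1, fun x => by simp⟩, by
    rw [e]
    exact MemLp.zero'⟩
  have := mulComp u hm hG hGb (Or.inl ⟨h0, hu⟩)
  simpa [e] using this

end CritSys
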