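import Pool.Agent.Work.MP_80ee1d_an.Space

-- merged part: Pool.Agent.Work.MP_80ee1d_an.SpaceB
section
/-!
Sequential descriptions of the spaces `H0 Ω`.

PLAN. `mem_H0_iff`: `mem_closure_iff_seq_limit`.  `H0_of_limit`: the sequence `gradL (f n)` converges in
`Lp` to `hg.toLp` (`Lp.tendsto_Lp_iff_tendsto_eLpNorm'`), which therefore lies in the closure.
`H0_zero_outside`: `f n → val u` in `L⁴`, `gradient (f n) → grd u` in `L²`, a.e. convergent
subsequences (`tendstoInMeasure_of_tendsto_Lp`, `TendstoInMeasure.exists_seq_tendsto_ae`).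
-/

open MeasureTheory Filter Topology
open scoped ContDiff RealInnerProductSpace ENNReal

noncomputable section
namespace CritSys

theorem mem_H0_iff {Ω : Set E4} {u : D} : u ∈ H0 Ω ↔ ∃ f : ℕ → Tst,
    (∀ n, tsupport (f n : E4 → ℝ) ⊆ Ω) ∧ Tendsto (fun n => ofT (f n)) atTop (𝓝 u) := by
  constructor
  · intro hu
    have h1 : u ∈ closure (((TstIn Ω).map ofT : Submodule ℝ D) : Set D) := hu
    obtain ⟨v, hv, hlim⟩ := mem_closure_iff_seq_limit.1 h1
    choose f hf hfv using fun n => Submodule.mem_map.1 (hv n)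
    exact ⟨f, hf, hlim.congr fun n => (hfv n).symm⟩
  · rintro ⟨f, hf, hlim⟩
    exact (isClosed_H0 Ω).mem_of_tendsto hlim (Eventually.of_forall fun n => ofT_mem_H0 (hf n))

theorem mem_H0_univ (u : D) : u ∈ H0 Set.univ := by
  obtain ⟨v, hv, hlim⟩ := mem_closure_iff_seq_limit.1 (denseRange_ofT u)
  choose f hf using hv
  exact mem_H0_iff.2 ⟨f, fun _ => Set.subset_univ _, hlim.congr fun n => (hf n).symm⟩

theorem H0_of_limit {Ω : Set E4} (f : ℕ → Tst) (hf : ∀ n, tsupport (f n : E4 → ℝ) ⊆ Ω)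
    {g : E4 → E4} (hg : MemLp g 2 volume)
    (h : Tendsto (fun n => eLpNorm (fun x => gradient (f n : E4 → ℝ) x - g x) 2 volume) atTop
      (𝓝 0)) :
    ∃ w ∈ H0 Ω, (∀ᵐ x, grd w x = g x) ∧ Tendsto (fun n => ofT (f n)) atTop (𝓝 w) := by
  have h1 : Tendsto (fun n => gradL (f n)) atTop (𝓝 (hg.toLp g)) :=
    (Lp.tendsto_Lp_iff_tendsto_eLpNorm'' (fun n => gradient (f n : E4 → ℝ))
      (fun n => tst_memLp_grad (f n) 2) g hg).2 h
  have h2 : hg.toLp g ∈ DD :=
    (Submodule.isClosed_topologicalClosure (LinearMap.range gradL)).mem_of_tendsto h1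
      (Eventually.of_forall fun n =>
        Submodule.le_topologicalClosure _ (LinearMap.mem_range_self _ (f n)))
  have h3 : Tendsto (fun n => ofT (f n)) atTop (𝓝 (show D from ⟨hg.toLp g, h2⟩)) :=
    tendsto_subtype_rng.2 h1
  exact ⟨_, mem_H0_iff.2 ⟨f, hf, h3⟩, hg.coeFn_toLp, h3⟩

/-- Along a subsequence, values and gradients converge almost everywhere. -/
theorem exists_ae_subseq {u : ℕ → D} {w : D} (h : Tendsto u atTop (𝓝 w)) :
    ∃ φ : ℕ → ℕ, StrictMono φ ∧ ∀ᵐ x, Tendsto (fun n => val (u (φ n)) x) atTop (𝓝 (val w x)) ∧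
      Tendsto (fun n => grd (u (φ n)) x) atTop (𝓝 (grd w x)) := by
  have h1 : Tendsto (fun n => val (u n)) atTop (𝓝 (val w)) := (val.continuous.tendsto w).comp h
  obtain ⟨φ, hφ, h2⟩ := (tendstoInMeasure_of_tendsto_Lp h1).exists_seq_tendsto_ae
  have h3 : Tendsto (fun n => grdL (u (φ n))) atTop (𝓝 (grdL w)) :=
    (grdL.continuous.tendsto w).comp (h.comp hφ.tendsto_atTop)
  obtain ⟨ψ, hψ, h4⟩ := (tendstoInMeasure_of_tendsto_Lp h3).exists_seq_tendsto_ae
  refine ⟨φ ∘ ψ, hφ.comp hψ, ?_⟩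
  filter_upwards [h2, h4] with x hx1 hx2
  exact ⟨hx1.comp hψ.tendsto_atTop, hx2⟩

theorem H0_zero_outside {Ω : Set E4} {u : D} (hu : u ∈ H0 Ω) :
    ∀ᵐ x, x ∉ Ω → val u x = 0 ∧ grd u x = 0 := by
  obtain ⟨f, hf, hlim⟩ := mem_H0_iff.1 hu
  obtain ⟨φ, -, h⟩ := exists_ae_subseq hlim
  have h1 : ∀ᵐ x, ∀ n, val (ofT (f n)) x = (f n : E4 → ℝ) x := ae_all_iff.2 fun n => val_ofT (f n)
  have h2 : ∀ᵐ x, ∀ n, grd (ofT (f n)) x = gradient (f n : E4 → ℝ) x :=
    ae_all_iff.2 fun n => grd_ofT (f n)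
  filter_upwards [h, h1, h2] with x hx hx1 hx2 hxΩ
  have hn : ∀ n, x ∉ tsupport (f n : E4 → ℝ) := fun n hc => hxΩ (hf n hc)
  constructor
  · refine tendsto_nhds_unique hx.1 (tendsto_const_nhds.congr fun n => ?_)
    rw [hx1, image_eq_zero_of_notMem_tsupport (hn _)]
  · refine tendsto_nhds_unique hx.2 (tendsto_const_nhds.congr fun n => ?_)
    rw [hx2, gradient_eq_zero_of_notMem (hn _)]

end CritSys
end
end

-- merged part: Pool.Agent.Work.MP_80ee1d_an.SpaceC
section
/-!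
Integration by parts, injectivity of `val`, the Sobolev constant.

PLAN. `ibp`: for test `u` it is `integral_mul_fderiv_eq_neg_fderiv_mul_of_integrable` (or the Lipschitz
version); both sides are continuous in `u` (Hölder `4, 4/3` or `T4`-type bounds, Cauchy-Schwarz).
`val_inj`: by `ibp`, `∫ φ ⟪grd u, v⟫ = 0` for all tests, so
`ae_eq_zero_of_integral_contDiff_smul_eq_zero` gives `⟪grd u, v⟫ = 0` a.e. for the basis vectors.
`S0`: the set is non-empty (a bump function, normalised) and bounded below by `1 / c²`.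
`exists_tst_ne`: a `ContDiffBump` in a ball inside `Ω`; it equals one on a ball of positive measure.
`S0_near`: density of test classes, continuity of `val`, normalise.
-/

open MeasureTheory Filter Topology
open scoped ContDiff RealInnerProductSpace ENNReal

noncomputable section
namespace CritSys

theorem SpaceC_cont4 {g : E4 → ℝ} (hg : Continuous g) (hc : HasCompactSupport g) :
    Continuous fun a : L4 (volume : Measure E4) => ∫ x, a x * g x := by
  have h1 : ENNReal.HolderConjugate 4 (ENNReal.conjExponent 4) :=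
    ENNReal.HolderConjugate.conjExponent (by norm_num)
  have h2 : Fact (1 ≤ ENNReal.conjExponent 4) :=
    ⟨ENNReal.HolderConjugate.one_le (ENNReal.conjExponent 4) 4⟩
  have hm : MemLp g (ENNReal.conjExponent 4) volume := hg.memLp_of_hasCompactSupport hc
  have e : (fun a : L4 (volume : Measure E4) => ∫ x, a x * g x) = fun a =>
      (ContinuousLinearMap.mul ℝ ℝ).lpPairing volume 4 (ENNReal.conjExponent 4) a (hm.toLp g) := by
    funext a
    rw [ContinuousLinearMap.lpPairing_eq_integral]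
    refine integral_congr_ae ?_
    filter_upwards [hm.coeFn_toLp] with x hx
    rw [hx, ContinuousLinearMap.mul_apply']
  rw [e]
  fun_prop

theorem SpaceC_cont2 (f : Tst) (v : E4) :
    Continuous fun u : D => ∫ x, ⟪grd u x, v⟫ * (f : E4 → ℝ) x := by
  have hm : MemLp (fun x => (f : E4 → ℝ) x • v) 2 volume :=
    (f.2.1.continuous.smul continuous_const).memLp_of_hasCompactSupport f.2.2.smul_right
  have e : (fun u : D => ∫ x, ⟪grd u x, v⟫ * (f : E4 → ℝ) x) = fun u =>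
      ⟪grdL u, hm.toLp _⟫ := by
    funext u
    rw [L2.inner_def]
    refine integral_congr_ae ?_
    filter_upwards [hm.coeFn_toLp] with x hx
    rw [hx, real_inner_smul_right, mul_comm]
    rfl
  rw [e]
  fun_prop

theorem SpaceC_fderiv_cont (f : Tst) (v : E4) :
    Continuous fun x => fderiv ℝ (f : E4 → ℝ) x v :=
  (f.2.1.continuous_fderiv (by simp)).clm_apply continuous_const

theorem ibp (u : D) (f : Tst) (v : E4) :
    ∫ x, val u x * fderiv ℝ (f : E4 → ℝ) x v = -∫ x, ⟪grd u x, v⟫ * (f : E4 → ℝ) x := by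
  refine denseRange_ofT.induction_on (p := fun u : D =>
    ∫ x, val u x * fderiv ℝ (f : E4 → ℝ) x v = -∫ x, ⟪grd u x, v⟫ * (f : E4 → ℝ) x) u ?_ ?_
  · exact isClosed_eq ((SpaceC_cont4 (SpaceC_fderiv_cont f v) (f.2.2.fderiv_apply ℝ v)).comp
      val.continuous) (SpaceC_cont2 f v).neg
  · intro g
    have h := integral_mul_fderiv_eq_neg_fderiv_mul_of_integrable (μ := volume)
      (f := (g : E4 → ℝ)) (g := (f : E4 → ℝ)) (v := v)
      (((SpaceC_fderiv_cont g v).mul f.2.1.continuous).integrable_of_hasCompactSupport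
        f.2.2.mul_left)
      ((g.2.1.continuous.mul (SpaceC_fderiv_cont f v)).integrable_of_hasCompactSupport
        g.2.2.mul_right)
      ((g.2.1.continuous.mul f.2.1.continuous).integrable_of_hasCompactSupport g.2.2.mul_right)
      (fun x _ => (g.2.1.differentiable (by simp)).differentiableAt)
      (fun x _ => (f.2.1.differentiable (by simp)).differentiableAt)
    have e1 : ∫ x, val (ofT g) x * fderiv ℝ (f : E4 → ℝ) x v =
        ∫ x, (g : E4 → ℝ) x * fderiv ℝ (f : E4 → ℝ) x v := by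
      refine integral_congr_ae ?_
      filter_upwards [val_ofT g] with x hx
      rw [hx]
    have e2 : ∫ x, ⟪grd (ofT g) x, v⟫ * (f : E4 → ℝ) x =
        ∫ x, fderiv ℝ (g : E4 → ℝ) x v * (f : E4 → ℝ) x := by
      refine integral_congr_ae ?_
      filter_upwards [grd_ofT g] with x hx
      rw [hx, inner_gradient]
    rw [e1, e2, h]

theorem val_inj {u : D} (h : val u = 0) : u = 0 := by
  have h1 : ∀ v : E4, ∀ᵐ x, ⟪grd u x, v⟫ = 0 := fun v => by
    refine ae_eq_zero_of_integral_contDiff_smul_eq_zero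
      (((grd_memLp u).inner_const v).locallyIntegrable (by norm_num)) fun g hg hc => ?_
    have h2 := ibp u ⟨g, hg, hc⟩ v
    have h3 : ∫ x, val u x * fderiv ℝ g x v = 0 := by
      refine integral_eq_zero_of_ae ?_
      rw [h]
      filter_upwards [Lp.coeFn_zero ℝ 4 (volume : Measure E4)] with x hx
      rw [hx]
      simp
    change ∫ x, val u x * fderiv ℝ g x v = -∫ x, ⟪grd u x, v⟫ * g x at h2
    rw [h3, zero_eq_neg] at h2
    simpa only [smul_eq_mul, mul_comm] using h2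
  have h2 : ∀ᵐ x, ‖grd u x‖ ^ 2 = 0 := by
    filter_upwards [ae_all_iff.2 fun i => h1 (EuclideanSpace.basisFun (Fin 4) ℝ i)] with x hx
    rw [← (EuclideanSpace.basisFun (Fin 4) ℝ).sum_sq_inner_left]
    simp only [hx]
    simp
  have h3 := norm_sq_D u
  rw [integral_eq_zero_of_ae h2] at h3
  exact norm_eq_zero.1 (pow_eq_zero_iff (by norm_num) |>.1 h3)

theorem exists_tst_ne {Ω : Set E4} (ho : IsOpen Ω) (hn : Ω.Nonempty) :
    ∃ f : Tst, tsupport (f : E4 → ℝ) ⊆ Ω ∧ val (ofT f) ≠ 0 := by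
  obtain ⟨x, hx⟩ := hn
  obtain ⟨f, h1, h2, h3, -, h5⟩ := exists_contDiff_tsupport_subset (n := ⊤) (ho.mem_nhds hx)
  refine ⟨⟨f, h3, h2⟩, h1, fun h => ?_⟩
  have h6 : f =ᵐ[volume] fun _ => (0 : ℝ) := by
    have h7 := val_ofT ⟨f, h3, h2⟩
    rw [h] at h7
    filter_upwards [h7, Lp.coeFn_zero ℝ 4 (volume : Measure E4)] with y hy hy'
    rw [hy'] at hy
    exact hy.symm
  have h8 := congrFun ((h3.continuous.ae_eq_iff_eq volume continuous_const).1 h6) x
  rw [h5] at h8
  exact one_ne_zero h8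

theorem SpaceC_normalise {u : D} (hu : val u ≠ 0) :
    ‖val (‖val u‖⁻¹ • u)‖ = 1 ∧ ‖‖val u‖⁻¹ • u‖ ^ 2 = ‖u‖ ^ 2 / ‖val u‖ ^ 2 := by
  have h : 0 < ‖val u‖ := norm_pos_iff.2 hu
  constructor
  · rw [map_smul, norm_smul, norm_inv, norm_norm, inv_mul_cancel₀ h.ne']
  · rw [norm_smul, norm_inv, norm_norm]
    field_simp

theorem SpaceC_nonempty : {r | ∃ u : D, ‖val u‖ = 1 ∧ r = ‖u‖ ^ 2}.Nonempty := by
  obtain ⟨f, -, hf⟩ := exists_tst_ne isOpen_univ Set.univ_nonempty
  exact ⟨_, _, (SpaceC_normalise hf).1, rfl⟩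

theorem SpaceC_bdd : BddBelow {r | ∃ u : D, ‖val u‖ = 1 ∧ r = ‖u‖ ^ 2} :=
  ⟨0, by rintro _ ⟨u, -, rfl⟩; positivity⟩

theorem S0_pos : 0 < S0 := by
  have h0 : 0 < ‖val‖ + 1 := by positivity
  refine lt_of_lt_of_le (b := ((‖val‖ + 1)⁻¹) ^ 2) (by positivity) ?_
  refine le_csInf SpaceC_nonempty ?_
  rintro _ ⟨u, hu, rfl⟩
  refine pow_le_pow_left₀ (by positivity) ?_ 2
  rw [inv_le_iff_one_le_mul₀' h0]
  have h1 := val.le_opNorm u
  have h2 := norm_nonneg u
  nlinarith

theorem S0_le (u : D) : S0 * ‖val u‖ ^ 2 ≤ ‖u‖ ^ 2 := by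
  by_cases hu : val u = 0
  · rw [hu, norm_zero, zero_pow two_ne_zero, mul_zero]
    positivity
  · have h : 0 < ‖val u‖ := norm_pos_iff.2 hu
    have h1 : S0 ≤ ‖‖val u‖⁻¹ • u‖ ^ 2 := csInf_le SpaceC_bdd ⟨_, (SpaceC_normalise hu).1, rfl⟩
    rw [(SpaceC_normalise hu).2, le_div_iff₀ (by positivity)] at h1
    exact h1

theorem S0_near {η : ℝ} (hη : 0 < η) :
    ∃ f : Tst, ‖val (ofT f)‖ = 1 ∧ ‖ofT f‖ ^ 2 ≤ S0 + η := by
  obtain ⟨_, ⟨u, hu, rfl⟩, h⟩ := exists_lt_of_csInf_lt SpaceC_nonempty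
    (lt_add_of_pos_right S0 hη)
  have ho : IsOpen {w : D | ‖w‖ ^ 2 < (S0 + η) * ‖val w‖ ^ 2} :=
    isOpen_lt (by fun_prop) (by fun_prop)
  obtain ⟨g, hg⟩ := denseRange_ofT.exists_mem_open ho ⟨u, by simpa [hu] using h⟩
  have hg' : ‖ofT g‖ ^ 2 < (S0 + η) * ‖val (ofT g)‖ ^ 2 := hg
  have hne : val (ofT g) ≠ 0 := fun h0 => by
    rw [h0, norm_zero, zero_pow two_ne_zero, mul_zero] at hg'
    exact absurd hg' (not_lt.2 (by positivity))
  have hp : 0 < ‖val (ofT g)‖ := norm_pos_iff.2 hne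
  refine ⟨‖val (ofT g)‖⁻¹ • g, ?_, ?_⟩
  · rw [map_smul]
    exact (SpaceC_normalise hne).1
  · rw [map_smul, (SpaceC_normalise hne).2, div_le_iff₀ (by positivity)]
    exact hg'.le

end CritSys
end
end

-- merged part: Pool.Agent.Work.MP_80ee1d_an.Trans
section
/-!
Translation and mollification estimates for test functions.

PLAN. `trans_est`: `f (x - y) - f x = ∫₀¹ -fderiv f (x - t y) y dt`
(`intervalIntegral.integral_eq_sub_of_hasDerivAt`), Cauchy-Schwarz (or Jensen) gives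
`(f (x - y) - f x)² ≤ ‖y‖² ∫₀¹ ‖∇f (x - t y)‖² dt`; Fubini (`integral_integral_swap`, or work with
`lintegral`) and translation invariance (`integral_sub_right_eq_self`).
`moll_est`: `f x - ∫ ρ y f (x - y) = ∫ ρ y (f x - f (x - y))`, Cauchy-Schwarz for the weight `ρ`
gives the bound `∫ ρ y (f (x - y) - f x)² dy`; Fubini, `trans_est`, and `‖y‖ ≤ τ` where `ρ y ≠ 0`.
-/

open MeasureTheory Filter Topology
open scoped ContDiff RealInnerProductSpace ENNReal

noncomputable section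
namespace CritSys

theorem Trans_main {Y : Type} [MeasurableSpace Y] (ν : Measure Y) [IsProbabilityMeasure ν]
    (g : E4 → Y → ℝ) (hm : AEStronglyMeasurable (Function.uncurry g) (volume.prod ν)) {C : ℝ}
    (h : ∀ᵐ y ∂ν, Integrable (fun x => g x y ^ 2) ∧ ∫ x, g x y ^ 2 ≤ C) :
    Integrable (fun x => (∫ y, g x y ∂ν) ^ 2) ∧ ∫ x, (∫ y, g x y ∂ν) ^ 2 ≤ C := by
  have hm2 : AEStronglyMeasurable (fun p : E4 × Y => g p.1 p.2 ^ 2) (volume.prod ν) := hm.pow 2
  have hi : Integrable (fun p : E4 × Y => g p.1 p.2 ^ 2) (volume.prod ν) := by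
    refine (integrable_prod_iff' hm2).2 ⟨h.mono fun y hy => hy.1, Integrable.of_bound
      hm2.norm.prod_swap.integral_prod_right' C (h.mono fun y hy => ?_)⟩
    rw [Real.norm_of_nonneg (integral_nonneg fun _ => norm_nonneg _)]
    simpa using hy.2
  have hle : ∀ᵐ x, (∫ y, g x y ∂ν) ^ 2 ≤ ∫ y, g x y ^ 2 ∂ν := by
    filter_upwards [hi.prod_right_ae, hm.prodMk_left] with x h1 h2
    have h3 := ProbabilityTheory.variance_eq_sub ((memLp_two_iff_integrable_sq h2).2 h1)
    have h4 := ProbabilityTheory.variance_nonneg (fun y => Function.uncurry g (x, y)) ν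
    rw [h3] at h4
    exact sub_nonneg.1 h4
  have h1 : Integrable fun x => (∫ y, g x y ∂ν) ^ 2 :=
    hi.integral_prod_left.mono' (hm.integral_prod_right'.pow 2)
      (hle.mono fun x hx => by rwa [Real.norm_of_nonneg (sq_nonneg _)])
  refine ⟨h1, (integral_mono_ae h1 hi.integral_prod_left hle).trans ?_⟩
  rw [integral_integral_swap (f := fun x y => g x y ^ 2) hi]
  refine (integral_mono_ae hi.integral_prod_right (integrable_const C)
    (h.mono fun y hy => hy.2)).trans ?_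
  rw [integral_const, probReal_univ, one_smul]

theorem trans_est (f : Tst) (y : E4) :
    ∫ x, ((f : E4 → ℝ) (x - y) - (f : E4 → ℝ) x) ^ 2 ≤
      ‖y‖ ^ 2 * ∫ x, ‖gradient (f : E4 → ℝ) x‖ ^ 2 := by
  have hf : ContDiff ℝ 1 (f : E4 → ℝ) := f.2.1.of_le (by simp)
  have hc : Continuous (fderiv ℝ (f : E4 → ℝ)) := hf.continuous_fderiv one_ne_zero
  have hg : Integrable fun x => ‖y‖ ^ 2 * ‖gradient (f : E4 → ℝ) x‖ ^ 2 :=
    ((memLp_two_iff_integrable_sq_norm (tst_memLp_grad f 2).1).1 (tst_memLp_grad f 2)).const_mul _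
  have hb : ∀ x, (fderiv ℝ (f : E4 → ℝ) x (-y)) ^ 2 ≤ ‖y‖ ^ 2 * ‖gradient (f : E4 → ℝ) x‖ ^ 2 :=
    fun x => by
    rw [← inner_gradient, ← mul_pow, mul_comm, ← norm_neg y]
    exact sq_le_sq' (neg_le_of_abs_le (abs_real_inner_le_norm _ _)) (real_inner_le_norm _ _)
  have hi : Integrable fun x => (fderiv ℝ (f : E4 → ℝ) x (-y)) ^ 2 :=
    hg.mono' (by fun_prop : Continuous fun x => (fderiv ℝ (f : E4 → ℝ) x (-y)) ^ 2).aestronglyMeasurable
      (Eventually.of_forall fun x => by rw [Real.norm_of_nonneg (sq_nonneg _)]; exact hb x)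
  have : IsProbabilityMeasure (volume.restrict (Set.Ioc (0 : ℝ) 1)) := ⟨by simp⟩
  have h := (Trans_main (volume.restrict (Set.Ioc (0 : ℝ) 1))
    (fun x t => fderiv ℝ (f : E4 → ℝ) (x - t • y) (-y))
    (Continuous.aestronglyMeasurable (by unfold Function.uncurry; fun_prop))
    (C := ‖y‖ ^ 2 * ∫ x, ‖gradient (f : E4 → ℝ) x‖ ^ 2) (Eventually.of_forall fun t =>
      ⟨hi.comp_sub_right (t • y), by
        rw [integral_sub_right_eq_self (fun x => (fderiv ℝ (f : E4 → ℝ) x (-y)) ^ 2) (t • y),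
          ← integral_const_mul]
        exact integral_mono hi hg hb⟩)).2
  refine le_of_eq_of_le (integral_congr_ae (Eventually.of_forall fun x => ?_)) h
  have hd : ∀ t ∈ Set.uIcc (0 : ℝ) 1, HasDerivAt (fun t : ℝ => (f : E4 → ℝ) (x - t • y))
      (fderiv ℝ (f : E4 → ℝ) (x - t • y) (-y)) t := fun t _ => by
    have h1 : HasDerivAt (fun t : ℝ => x - t • y) (-y) t := by
      simpa using ((hasDerivAt_id t).smul_const y).const_sub x
    exact (hf.differentiable one_ne_zero _).hasFDerivAt.comp_hasDerivAt t h1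
  have h2 := intervalIntegral.integral_eq_sub_of_hasDerivAt hd
    (Continuous.intervalIntegrable (by fun_prop) _ _)
  rw [intervalIntegral.integral_of_le zero_le_one, one_smul, zero_smul, sub_zero] at h2
  simp only [h2]

theorem moll_est (f : Tst) {ρ : E4 → ℝ} (hρ : Continuous ρ) (h0 : ∀ y, 0 ≤ ρ y) {τ : ℝ}
    (hs : ∀ y, τ < ‖y‖ → ρ y = 0) (h1 : ∫ y, ρ y = 1) :
    Integrable (fun x => ((f : E4 → ℝ) x - ∫ y, ρ y * (f : E4 → ℝ) (x - y)) ^ 2) ∧
    ∫ x, ((f : E4 → ℝ) x - ∫ y, ρ y * (f : E4 → ℝ) (x - y)) ^ 2 ≤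
      τ ^ 2 * ∫ x, ‖gradient (f : E4 → ℝ) x‖ ^ 2 := by
  have hf : Continuous (f : E4 → ℝ) := f.2.1.continuous
  have hi : Integrable ρ := integrable_of_integral_eq_one h1
  have hm : Measurable fun y => ENNReal.ofReal (ρ y) := hρ.measurable.ennreal_ofReal
  have : IsProbabilityMeasure (volume.withDensity fun y => ENNReal.ofReal (ρ y)) := ⟨by
    rw [withDensity_apply _ MeasurableSet.univ, Measure.restrict_univ,
      ← ofReal_integral_eq_lintegral_ofReal hi (Eventually.of_forall h0), h1, ENNReal.ofReal_one]⟩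
  have h := Trans_main (volume.withDensity fun y => ENNReal.ofReal (ρ y))
    (fun x y => (f : E4 → ℝ) x - (f : E4 → ℝ) (x - y))
    (Continuous.aestronglyMeasurable (by unfold Function.uncurry; fun_prop))
    (C := τ ^ 2 * ∫ x, ‖gradient (f : E4 → ℝ) x‖ ^ 2)
    ((ae_withDensity_iff hm).2 (Eventually.of_forall fun y hy => ⟨?_, ?_⟩))
  · have e : ∀ x, ∫ y, (f : E4 → ℝ) x - (f : E4 → ℝ) (x - y)
        ∂(volume.withDensity fun y => ENNReal.ofReal (ρ y)) =
        (f : E4 → ℝ) x - ∫ y, ρ y * (f : E4 → ℝ) (x - y) := fun x => by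
      obtain ⟨c, hc⟩ := f.2.2.exists_bound_of_continuous hf
      rw [integral_sub (integrable_const _) (Integrable.of_bound
        (by fun_prop : Continuous fun y => (f : E4 → ℝ) (x - y)).aestronglyMeasurable c
        (Eventually.of_forall fun y => hc _)), integral_const, probReal_univ, one_smul,
        integral_withDensity_eq_integral_toReal_smul hm
          (Eventually.of_forall fun _ => ENNReal.ofReal_lt_top)]
      simp only [ENNReal.toReal_ofReal (h0 _), smul_eq_mul]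
    simpa only [e] using h
  · exact ((tst_memLp f 2).sub ((tst_memLp f 2).comp_measurePreserving
      (measurePreserving_sub_right volume y))).integrable_sq
  · have h2 : ‖y‖ ≤ τ := not_lt.1 fun h => hy (by rw [hs y h, ENNReal.ofReal_zero])
    simp only [sub_sq_comm ((f : E4 → ℝ) _) ((f : E4 → ℝ) (_ - y))]
    refine (trans_est f y).trans (mul_le_mul_of_nonneg_right ?_
      (integral_nonneg fun _ => sq_nonneg _))
    gcongr

end CritSys
end
end

-- merged part: Pool.Agent.Work.MP_80ee1d_an.Wnull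
section
/-!
Local compactness (Rellich): weakly null bounded sequences of `D` tend to zero in `L²` of balls.

PLAN. `tendsto_clm_of_weak`: Riesz representation (`InnerProductSpace.toDual_symm_apply`).
`wnull_ball`: choose tests `f n` with `‖ofT (f n) - r n‖ ≤ 1/(n+1)` (`denseRange_ofT`); the sequence
`ofT (f n)` is again bounded and weakly null, and `∫_ball (val (r n) - f n)² → 0` (it is
`T4 1_B 1_B d d ≤ ‖1_B‖² ‖d‖²`, `indicatorConstLp 4`).  Fix `τ > 0`, `ρ = ContDiffBump.normed` of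
radius `τ`, `g n x = ∫ ρ y * f n (x - y) = ∫ ρ (x - z) * f n z`.  For fixed `x` this is a continuous
linear functional of `ofT (f n)`: with a bump `b = 1` on the support of `ρ (x - ·)` it is
`T4 (ρ (x - ·)) b b (val u)`; so `g n x → 0`, and `|g n x| ≤ C` uniformly in `n` and `x ∈ ball`
(take one `b` for the whole ball, translation invariance or `sup ρ` for the norm).  Dominated
convergence on the ball, `f² ≤ 2 (f - g)² + 2 g²`, `moll_est`; then `τ → 0`.
`wnull_D`: approximate `f ∈ L⁴` by a bounded function `f'` supported in a ball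
(`MemLp.exists_hasCompactSupport_eLpNorm_sub_le`, or `Lp.dense_hasCompactSupport_contDiff`);
`T4 r r f f = T4 r r f' f' + T4 r r (f - f') (f + f')`, `T4 r r f' f' ≤ sup f'² ∫_ball r²`.
-/

open MeasureTheory Filter Topology
open scoped ContDiff RealInnerProductSpace ENNReal

noncomputable section
namespace CritSys

theorem tendsto_clm_of_weak {r : ℕ → D} (h : ∀ z, Tendsto (fun n => ⟪r n, z⟫) atTop (𝓝 0))
    (ℓ : D →L[ℝ] ℝ) : Tendsto (fun n => ℓ (r n)) atTop (𝓝 0) := by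
  refine (h ((InnerProductSpace.toDual ℝ D).symm ℓ)).congr fun n => ?_
  rw [real_inner_comm, InnerProductSpace.toDual_symm_apply]

/-- The indicator of a ball as an element of `L⁴`. -/
def WnullI (R : ℝ) : L4 (volume : Measure E4) :=
  indicatorConstLp 4 (measurableSet_ball (x := (0 : E4)) (ε := R)) measure_ball_lt_top.ne (1 : ℝ)

theorem WnullI_ae (R : ℝ) :
    ∀ᵐ x, WnullI R x = (Metric.ball (0 : E4) R).indicator (fun _ => (1 : ℝ)) x :=
  indicatorConstLp_coeFn

theorem Wnull_ball_eq (R : ℝ) (a : L4 (volume : Measure E4)) :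
    ∫ x in Metric.ball (0 : E4) R, a x ^ 2 = T4 (WnullI R) (WnullI R) a a := by
  rw [← integral_indicator measurableSet_ball, T4]
  refine integral_congr_ae ?_
  filter_upwards [WnullI_ae R] with x hx
  rw [hx]
  by_cases h : x ∈ Metric.ball (0 : E4) R
  · simp only [Set.indicator_of_mem h]
    ring
  · simp only [Set.indicator_of_notMem h]
    ring

theorem Wnull_add_le (a x y : L4 (volume : Measure E4)) :
    T4 a a (x + y) (x + y) ≤ 2 * T4 a a x x + 2 * T4 a a y y := by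
  have h := T4_sq_nonneg a (x - y)
  rw [T4_sub3, T4_sub4, T4_sub4, T4_swap34 a a y x] at h
  rw [T4_add3, T4_add4, T4_add4, T4_swap34 a a y x]
  linarith

/-- The first slot of `T4` as a continuous functional. -/
def WnullL (g h k : L4 (volume : Measure E4)) : L4 (volume : Measure E4) →L[ℝ] ℝ :=
  LinearMap.mkContinuous
    { toFun := fun a => T4 a g h k
      map_add' := fun a b => T4_add1 a b g h k
      map_smul' := fun t a => T4_smul1 t a g h k } (‖g‖ * ‖h‖ * ‖k‖) fun a => by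
    have := T4_abs_le a g h k
    simp only [LinearMap.coe_mk, AddHom.coe_mk, Real.norm_eq_abs]
    linarith [mul_comm (‖g‖ * ‖h‖ * ‖k‖) ‖a‖, mul_assoc ‖a‖ (‖g‖ * ‖h‖) ‖k‖, mul_assoc ‖a‖ ‖g‖ ‖h‖,
      congrArg (· * ‖k‖) (mul_assoc ‖a‖ ‖g‖ ‖h‖)]

theorem WnullL_apply (g h k a : L4 (volume : Measure E4)) : WnullL g h k a = T4 a g h k := rfl

theorem Wnull_memLp {ρ : E4 → ℝ} (hρ : Continuous ρ) (hc : HasCompactSupport ρ) (x : E4) :
    MemLp (fun z => ρ (x - z)) 4 (volume : Measure E4) :=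
  (hρ.comp (continuous_const.sub continuous_id)).memLp_of_hasCompactSupport
    (hc.comp_homeomorph (Homeomorph.subLeft x))

theorem Wnull_norm {ρ : E4 → ℝ} (hρ : Continuous ρ) (hc : HasCompactSupport ρ) (x : E4) :
    ‖(Wnull_memLp hρ hc x).toLp _‖ = ‖(Wnull_memLp hρ hc 0).toLp _‖ := by
  have e : ∀ x : E4, ‖(Wnull_memLp hρ hc x).toLp _‖ ^ 4 = ∫ y, ρ y * ρ y * ρ y * ρ y := fun x => by
    rw [← T4_self, T4, ← integral_sub_left_eq_self (fun y => ρ y * ρ y * ρ y * ρ y) volume x]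
    refine integral_congr_ae ?_
    filter_upwards [(Wnull_memLp hρ hc x).coeFn_toLp] with z hz
    rw [hz]
  exact (pow_left_inj₀ (norm_nonneg _) (norm_nonneg _) (by norm_num)).1 ((e x).trans (e 0).symm)

theorem Wnull_conv (f : Tst) {ρ : E4 → ℝ} (hρ : Continuous ρ) (hc : HasCompactSupport ρ) {τ R : ℝ}
    (hs : ∀ y, τ < ‖y‖ → ρ y = 0) {x : E4} (hx : x ∈ Metric.ball (0 : E4) R) :
    ∫ y, ρ y * (f : E4 → ℝ) (x - y) =
      T4 (val (ofT f)) ((Wnull_memLp hρ hc x).toLp _) (WnullI (R + τ)) (WnullI (R + τ)) := by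
  rw [T4, ← integral_sub_left_eq_self (fun y => ρ y * (f : E4 → ℝ) (x - y)) volume x]
  refine integral_congr_ae ?_
  filter_upwards [(Wnull_memLp hρ hc x).coeFn_toLp, WnullI_ae (R + τ), val_ofT f] with z h1 h2 h3
  rw [h1, h2, h3, sub_sub_cancel]
  by_cases h : z ∈ Metric.ball (0 : E4) (R + τ)
  · simp only [Set.indicator_of_mem h]
    ring
  · have : ρ (x - z) = 0 := hs _ (by
      rw [mem_ball_zero_iff] at h hx
      have := norm_sub_norm_le z x
      rw [norm_sub_rev z x] at this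
      linarith)
    rw [this]
    ring

theorem Wnull_moll {f : ℕ → Tst} {c : ℝ} (hb : ∀ n, ‖ofT (f n)‖ ≤ c)
    (h : ∀ z, Tendsto (fun n => ⟪ofT (f n), z⟫) atTop (𝓝 0)) (R : ℝ) {ρ : E4 → ℝ}
    (hρ : Continuous ρ) (hc : HasCompactSupport ρ) {τ : ℝ} (hs : ∀ y, τ < ‖y‖ → ρ y = 0) :
    (∀ n, IntegrableOn (fun x => (∫ y, ρ y * (f n : E4 → ℝ) (x - y)) ^ 2)
      (Metric.ball (0 : E4) R)) ∧
    Tendsto (fun n => ∫ x in Metric.ball (0 : E4) R, (∫ y, ρ y * (f n : E4 → ℝ) (x - y)) ^ 2) atTop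
      (𝓝 0) := by
  have : IsFiniteMeasure (volume.restrict (Metric.ball (0 : E4) R)) :=
    isFiniteMeasure_restrict.2 measure_ball_lt_top.ne
  set C : ℝ := ‖val‖ * c * ‖(Wnull_memLp hρ hc 0).toLp _‖ * ‖WnullI (R + τ)‖ * ‖WnullI (R + τ)‖
  have hm : ∀ n, AEStronglyMeasurable (fun x => (∫ y, ρ y * (f n : E4 → ℝ) (x - y)) ^ 2)
      (volume.restrict (Metric.ball (0 : E4) R)) := fun n => by
    have hcont : Continuous fun p : E4 × E4 => ρ p.2 * (f n : E4 → ℝ) (p.1 - p.2) :=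
      (hρ.comp continuous_snd).mul ((f n).2.1.continuous.comp (continuous_fst.sub continuous_snd))
    exact ((hcont.stronglyMeasurable.integral_prod_right' (ν := volume)).pow 2).aestronglyMeasurable
  have hbd : ∀ n, ∀ᵐ x ∂(volume.restrict (Metric.ball (0 : E4) R)),
      ‖(∫ y, ρ y * (f n : E4 → ℝ) (x - y)) ^ 2‖ ≤ C ^ 2 := fun n => by
    filter_upwards [ae_restrict_mem measurableSet_ball] with x hx
    rw [Wnull_conv (f n) hρ hc hs hx, Real.norm_eq_abs, abs_pow]
    refine pow_le_pow_left₀ (abs_nonneg _) ((T4_abs_le _ _ _ _).trans ?_) 2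
    rw [Wnull_norm hρ hc x]
    have := (val.le_opNorm (ofT (f n))).trans
      (mul_le_mul_of_nonneg_left (hb n) (norm_nonneg val))
    simp only [C]
    gcongr
  refine ⟨fun n => (integrable_const (C ^ 2)).mono' (hm n) (hbd n), ?_⟩
  have := tendsto_integral_of_dominated_convergence (f := fun _ => (0 : ℝ)) (fun _ => C ^ 2) hm
    (integrable_const _) hbd (by
      filter_upwards [ae_restrict_mem measurableSet_ball] with x hx
      have h1 := (tendsto_clm_of_weak h ((WnullL ((Wnull_memLp hρ hc x).toLp _) (WnullI (R + τ))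
        (WnullI (R + τ))).comp val)).pow 2
      rw [zero_pow two_ne_zero] at h1
      refine h1.congr fun n => ?_
      rw [Wnull_conv (f n) hρ hc hs hx]
      rfl)
  simpa only [integral_zero] using this

theorem Wnull_tst {f : ℕ → Tst} {c : ℝ} (hb : ∀ n, ‖ofT (f n)‖ ≤ c)
    (h : ∀ z, Tendsto (fun n => ⟪ofT (f n), z⟫) atTop (𝓝 0)) (R : ℝ) :
    Tendsto (fun n => ∫ x in Metric.ball (0 : E4) R, (f n : E4 → ℝ) x ^ 2) atTop (𝓝 0) := by
  refine tendsto_order.2 ⟨fun a ha => Eventually.of_forall fun n =>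
    ha.trans_le (integral_nonneg fun x => sq_nonneg _), fun ε hε => ?_⟩
  obtain ⟨τ, hτ, hτε⟩ : ∃ τ : ℝ, 0 < τ ∧ 2 * (τ ^ 2 * c ^ 2) < ε / 2 := by
    have hc : Tendsto (fun τ : ℝ => 2 * (τ ^ 2 * c ^ 2)) (𝓝[>] 0) (𝓝 (2 * (0 ^ 2 * c ^ 2))) :=
      (Continuous.tendsto (by fun_prop) 0).mono_left nhdsWithin_le_nhds
    have h2 := hc.eventually (gt_mem_nhds (show 2 * ((0 : ℝ) ^ 2 * c ^ 2) < ε / 2 by
      simpa using hε))
    exact (eventually_mem_nhdsWithin.and h2).exists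
  let b : ContDiffBump (0 : E4) := ⟨τ / 2, τ, by positivity, by linarith⟩
  have hs : ∀ y, τ < ‖y‖ → b.normed volume y = 0 := fun y hy => by
    rw [← Function.notMem_support, b.support_normed_eq, mem_ball_zero_iff]
    exact not_lt.2 hy.le
  obtain ⟨hi, ht⟩ := Wnull_moll hb h R (b.continuous_normed (μ := volume))
    b.hasCompactSupport_normed hs
  filter_upwards [ht.eventually (gt_mem_nhds (show (0 : ℝ) < ε / 4 by positivity))] with n hn
  obtain ⟨h1, h2⟩ := moll_est (f n) (b.continuous_normed (μ := volume)) (b.nonneg_normed) hs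
    b.integral_normed
  have h3 := setIntegral_le_integral (s := Metric.ball (0 : E4) R) h1
    (ae_of_all _ fun x => sq_nonneg _)
  rw [← norm_sq_ofT] at h2
  have h4 : ‖ofT (f n)‖ ^ 2 ≤ c ^ 2 := pow_le_pow_left₀ (norm_nonneg _) (hb n) 2
  have h5 : ∫ x in Metric.ball (0 : E4) R, (f n : E4 → ℝ) x ^ 2 ≤
      ∫ x in Metric.ball (0 : E4) R,
        (2 * ((f n : E4 → ℝ) x - ∫ y, b.normed volume y * (f n : E4 → ℝ) (x - y)) ^ 2 +
          2 * (∫ y, b.normed volume y * (f n : E4 → ℝ) (x - y)) ^ 2) := by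
    refine integral_mono_of_nonneg (ae_of_all _ fun x => sq_nonneg _)
      ((h1.integrableOn.const_mul 2).add ((hi n).const_mul 2)) (ae_of_all _ fun x => ?_)
    simp only
    generalize (f n : E4 → ℝ) x = p, (∫ y, b.normed volume y * (f n : E4 → ℝ) (x - y)) = q
    nlinarith [sq_nonneg (p - 2 * q)]
  rw [integral_add (h1.integrableOn.const_mul 2) ((hi n).const_mul 2), integral_const_mul,
    integral_const_mul] at h5
  nlinarith [mul_le_mul_of_nonneg_left h4 (sq_nonneg τ)]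

theorem wnull_ball {r : ℕ → D} (hb : ∃ c : ℝ, ∀ n, ‖r n‖ ≤ c)
    (h : ∀ z, Tendsto (fun n => ⟪r n, z⟫) atTop (𝓝 0)) (R : ℝ) :
    Tendsto (fun n => ∫ x in Metric.ball (0 : E4) R, val (r n) x ^ 2) atTop (𝓝 0) := by
  obtain ⟨c, hc⟩ := hb
  have hf : ∀ n : ℕ, ∃ f : Tst, dist (r n) (ofT f) < 1 / ((n : ℝ) + 1) := fun n =>
    denseRange_ofT.exists_dist_lt (r n) (by positivity)
  choose f hf using hf
  have hd : Tendsto (fun n => r n - ofT (f n)) atTop (𝓝 0) := by
    rw [tendsto_zero_iff_norm_tendsto_zero]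
    refine squeeze_zero (fun n => norm_nonneg _) (fun n => ?_)
      tendsto_one_div_add_atTop_nhds_zero_nat
    rw [← dist_eq_norm]
    exact (hf n).le
  have hb' : ∀ n, ‖ofT (f n)‖ ≤ c + 1 := fun n => by
    have h1 := hf n
    rw [dist_eq_norm] at h1
    have h2 : 1 / ((n : ℝ) + 1) ≤ 1 := by
      rw [div_le_one (by positivity)]
      linarith [Nat.cast_nonneg (α := ℝ) n]
    have h3 := norm_sub_norm_le (ofT (f n)) (r n)
    rw [norm_sub_rev] at h3
    linarith [hc n]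
  have h' : ∀ z, Tendsto (fun n => ⟪ofT (f n), z⟫) atTop (𝓝 0) := fun z => by
    have h1 := (h z).sub (hd.inner (𝕜 := ℝ) (tendsto_const_nhds (x := z)))
    rw [inner_zero_left, sub_zero] at h1
    refine h1.congr fun n => ?_
    rw [inner_sub_left]
    ring
  have h1 := Wnull_tst hb' h' R
  have h2 : Tendsto (fun n => ‖WnullI R‖ ^ 2 * ‖val (r n - ofT (f n))‖ ^ 2) atTop (𝓝 0) := by
    have := (((val.continuous.tendsto 0).comp hd).norm.pow 2).const_mul (‖WnullI R‖ ^ 2)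
    simpa only [map_zero, norm_zero, zero_pow two_ne_zero, mul_zero, Function.comp_apply] using this
  have h3 := (h2.const_mul 2).add (h1.const_mul 2)
  rw [mul_zero, add_zero] at h3
  refine squeeze_zero (fun n => integral_nonneg fun x => sq_nonneg _) (fun n => ?_) h3
  have h4 := Wnull_add_le (WnullI R) (val (r n - ofT (f n))) (val (ofT (f n)))
  rw [← map_add, sub_add_cancel, ← Wnull_ball_eq, ← Wnull_ball_eq R (val (ofT (f n)))] at h4
  have h5 : ∫ x in Metric.ball (0 : E4) R, val (ofT (f n)) x ^ 2 =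
      ∫ x in Metric.ball (0 : E4) R, (f n : E4 → ℝ) x ^ 2 := by
    refine integral_congr_ae (ae_restrict_of_ae ?_)
    filter_upwards [val_ofT (f n)] with x hx
    rw [hx]
  linarith [T4A_sq (WnullI R) (val (r n - ofT (f n)))]

theorem wnull_D {r : ℕ → D} (hb : ∃ c : ℝ, ∀ n, ‖r n‖ ≤ c)
    (h : ∀ z, Tendsto (fun n => ⟪r n, z⟫) atTop (𝓝 0)) : Null fun n => val (r n) := by
  obtain ⟨c, hc⟩ := hb
  have hv : ∀ n, ‖val (r n)‖ ≤ ‖val‖ * c := fun n =>
    (val.le_opNorm (r n)).trans (mul_le_mul_of_nonneg_left (hc n) (norm_nonneg val))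
  refine ⟨⟨_, hv⟩, fun f => ?_⟩
  refine tendsto_order.2 ⟨fun a ha => Eventually.of_forall fun n =>
    ha.trans_le (T4_sq_nonneg _ _), fun ε hε => ?_⟩
  obtain ⟨τ, hτ, hτε⟩ : ∃ τ : ℝ, 0 < τ ∧ 2 * ((‖val‖ * c) ^ 2 * τ ^ 2) < ε / 2 := by
    have hc : Tendsto (fun τ : ℝ => 2 * ((‖val‖ * c) ^ 2 * τ ^ 2)) (𝓝[>] 0)
        (𝓝 (2 * ((‖val‖ * c) ^ 2 * 0 ^ 2))) :=
      (Continuous.tendsto (by fun_prop) 0).mono_left nhdsWithin_le_nhds
    have h2 := hc.eventually (gt_mem_nhds (show 2 * ((‖val‖ * c) ^ 2 * (0 : ℝ) ^ 2) < ε / 2 by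
      simpa using hε))
    exact (eventually_mem_nhdsWithin.and h2).exists
  obtain ⟨g, hg1, hg2, hg3, hg4⟩ := (Lp.memLp f).exists_hasCompactSupport_eLpNorm_sub_le
    (by norm_num) (ENNReal.ofReal_pos.2 hτ).ne'
  have hn : ‖f - hg4.toLp g‖ ≤ τ := by
    rw [Lp.norm_def]
    refine ENNReal.toReal_le_of_le_ofReal hτ.le (le_of_eq_of_le (eLpNorm_congr_ae ?_) hg2)
    filter_upwards [Lp.coeFn_sub f (hg4.toLp g), hg4.coeFn_toLp] with x h1 h2
    rw [h1, Pi.sub_apply, h2, Pi.sub_apply]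
  obtain ⟨M, hM⟩ := hg3.bounded_above_of_compact_support hg1
  obtain ⟨R, hR⟩ := hg1.isCompact.isBounded.subset_ball (0 : E4)
  have h1 := ((wnull_ball ⟨c, hc⟩ h R).const_mul (M ^ 2)).const_mul 2
  rw [mul_zero, mul_zero] at h1
  filter_upwards [h1.eventually (gt_mem_nhds (show (0 : ℝ) < ε / 2 by positivity))] with n hn'
  have h2 := Wnull_add_le (val (r n)) (f - hg4.toLp g) (hg4.toLp g)
  rw [sub_add_cancel] at h2
  have h3 : T4 (val (r n)) (val (r n)) (f - hg4.toLp g) (f - hg4.toLp g) ≤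
      (‖val‖ * c) ^ 2 * τ ^ 2 := (T4A_sq _ _).trans (by gcongr; exact hv n)
  have h4 : T4 (val (r n)) (val (r n)) (hg4.toLp g) (hg4.toLp g) ≤
      M ^ 2 * ∫ x in Metric.ball (0 : E4) R, val (r n) x ^ 2 := by
    rw [Wnull_ball_eq, T4, T4, ← integral_const_mul]
    refine integral_mono_ae (T4_integrable _ _ _ _) ((T4_integrable _ _ _ _).const_mul _) ?_
    filter_upwards [hg4.coeFn_toLp, WnullI_ae R] with x h1 h2
    rw [h1, h2]
    by_cases hx : x ∈ Metric.ball (0 : E4) R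
    · simp only [Set.indicator_of_mem hx]
      have h5 : g x ^ 2 ≤ M ^ 2 := by
        rw [← sq_abs (g x)]
        exact pow_le_pow_left₀ (abs_nonneg _) (hM x) 2
      nlinarith [mul_le_mul_of_nonneg_left h5 (sq_nonneg (val (r n) x))]
    · rw [image_eq_zero_of_notMem_tsupport fun h5 => hx (hR h5), Set.indicator_of_notMem hx]
      simp
  linarith

end CritSys
end
end
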