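import Pool.Agent.Work.MP_80ee1d_an.SmpB
import Pool.Agent.Work.MP_80ee1d_an.AlgB
import Pool.Agent.Work.MP_80ee1d_an.Bound
import Pool.Agent.Work.MP_80ee1d_an.SpaceC
import Pool.Agent.Work.MP_80ee1d_an.Comp

-- merged part: Pool.Agent.Work.MP_80ee1d_an.Weak
section
/-!
Weak compactness and the splitting of bounded sequences.

PLAN. `weak_subseq`: `WeakDual.isSeqCompact_closedBall ℝ H 0 c` applied to
`InnerProductSpace.toDual ℝ H (u n)` seen in `WeakDual`; the limit functional is represented by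
`(InnerProductSpace.toDual ℝ H).symm`; `WeakDual.eval_continuous` (or
`tendsto_iff_forall_eval_tendsto_topDualPairing`).
`le_norm_of_weak`: `‖z‖² = lim ⟪u n, z⟫ ≤ c ‖z‖`.
`decomp`: extract twice with `weak_subseq`, put `r n = u (φ n) - z`, `s n = v (φ n) - w`; the vector
`(‖r‖², ‖s‖², P r, P s, R r s)` is bounded (`sob`), extract a third time
(`tendsto_subseq_of_bounded` in a product of copies of `ℝ`).  The fields of `Rem`: `C.wnull` gives
`Null`, then `T4_split`, `T4_mixed1`; `‖z + r‖² = ‖z‖² + 2⟪z, r⟫ + ‖r‖²`; the inequalities pass to the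
limit from `S ‖val r‖² ≤ ‖r‖²`, `P_eq`, `R_sq_le`.
-/

open MeasureTheory Filter Topology
open scoped RealInnerProductSpace

noncomputable section
namespace CritSys

variable {X : Type} [MeasurableSpace X] {H : Type} [NormedAddCommGroup H] [InnerProductSpace ℝ H]
  [CompleteSpace H] [TopologicalSpace.SeparableSpace H] {μ : Measure X} [IsFiniteMeasure μ]

theorem weak_subseq (u : ℕ → H) (c : ℝ) (hu : ∀ n, ‖u n‖ ≤ c) :
    ∃ (φ : ℕ → ℕ) (z : H), StrictMono φ ∧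
      ∀ y, Tendsto (fun n => ⟪u (φ n) - z, y⟫) atTop (𝓝 0) := by
  obtain ⟨f, -, φ, hφ, hf⟩ := WeakDual.isSeqCompact_closedBall ℝ H 0 c
    (x := fun n => StrongDual.toWeakDual (InnerProductSpace.toDual ℝ H (u n))) fun n => by
      simpa using hu n
  refine ⟨φ, (InnerProductSpace.toDual ℝ H).symm (WeakDual.toStrongDual f), hφ, fun y => ?_⟩
  have h1 := ((WeakDual.eval_continuous y).tendsto f).comp hf
  have h2 := h1.sub_const (f y)
  rw [sub_self] at h2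
  refine h2.congr fun n => ?_
  rw [inner_sub_left, InnerProductSpace.toDual_symm_apply]
  rfl

omit [CompleteSpace H] [TopologicalSpace.SeparableSpace H] in
theorem le_norm_of_weak {u : ℕ → H} {z : H} {c : ℝ} (hu : ∀ n, ‖u n‖ ≤ c)
    (h : ∀ y, Tendsto (fun n => ⟪u n - z, y⟫) atTop (𝓝 0)) : ‖z‖ ≤ c := by
  have hc : 0 ≤ c := (norm_nonneg _).trans (hu 0)
  have h1 : 0 ≤ c * ‖z‖ - ‖z‖ ^ 2 := le_of_tendsto' (h z) fun n => by
    rw [inner_sub_left, real_inner_self_eq_norm_sq]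
    have := (real_inner_le_norm (u n) z).trans
      (mul_le_mul_of_nonneg_right (hu n) (norm_nonneg z))
    linarith
  by_contra hz
  have h2 : c < ‖z‖ := not_le.1 hz
  linarith only [h1, hc, hz, mul_nonneg_of_nonpos_of_nonpos (Mathlib.Tactic.Linarith.sub_nonpos_of_le hc) (le_of_lt (Mathlib.Tactic.Linarith.sub_neg_of_lt (lt_of_not_ge hz))), mul_pos_of_neg_of_neg (Mathlib.Tactic.Linarith.sub_neg_of_lt (lt_of_not_ge hz)) (Mathlib.Tactic.Linarith.sub_neg_of_lt (lt_of_not_ge hz))]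

omit [CompleteSpace H] [TopologicalSpace.SeparableSpace H] in
theorem Ctx.Weak_my (C : Ctx H μ) {r : ℕ → H} (hr : Null fun n => C.val (r n)) (z y : H) :
    Tendsto (fun n => C.M (z + r n) y) atTop (𝓝 (C.M z y)) := by
  have h1 := (T4_mixed1 hr (oneL μ) (oneL μ) (C.val y)).const_add (C.M z y)
  rw [add_zero] at h1
  refine h1.congr fun n => ?_
  rw [C.M_add1, T4_swap13]
  rfl

omit [CompleteSpace H] [TopologicalSpace.SeparableSpace H] in
theorem Ctx.Weak_ma (C : Ctx H μ) {r : ℕ → H} (hr : Null fun n => C.val (r n)) (z : H) :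
    Tendsto (fun n => C.M (z + r n) (z + r n)) atTop (𝓝 (C.M z z)) := by
  have h1 := ((C.Weak_my hr z z).add (C.Weak_my hr z z)).sub_const (C.M z z)
  have h2 := h1.add (hr.2 (oneL μ))
  rw [add_sub_cancel_right, add_zero] at h2
  refine h2.congr fun n => ?_
  have h3 : T4 (C.val (r n)) (C.val (r n)) (oneL μ) (oneL μ) = C.M (r n) (r n) := T4_pairs _ _ _ _
  rw [h3, C.M_add2, C.M_add1, C.M_add1, C.M_comm z (r n)]
  ring

omit [CompleteSpace H] [TopologicalSpace.SeparableSpace H] in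
theorem Ctx.Weak_q (C : Ctx H μ) {r : ℕ → H} (hr : Null fun n => C.val (r n))
    (hw : ∀ y, Tendsto (fun n => ⟪r n, y⟫) atTop (𝓝 0)) {a : ℝ}
    (ha : Tendsto (fun n => ‖r n‖ ^ 2) atTop (𝓝 a)) (l : ℝ) (z : H) :
    Tendsto (fun n => C.q l (z + r n)) atTop (𝓝 (C.q l z + a)) := by
  have h1 := ((((hw z).const_mul 2).const_add (‖z‖ ^ 2)).add ha).add
    ((C.Weak_ma hr z).const_mul l)
  have h2 : ‖z‖ ^ 2 + 2 * 0 + a + l * C.M z z = C.q l z + a := by
    rw [Ctx.q]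
    ring
  rw [h2] at h1
  refine h1.congr fun n => ?_
  rw [Ctx.q, norm_add_sq_real, real_inner_comm]

omit [CompleteSpace H] [TopologicalSpace.SeparableSpace H] in
theorem Ctx.Weak_R (C : Ctx H μ) {r s : ℕ → H} (hr : Null fun n => C.val (r n))
    (hs : Null fun n => C.val (s n)) {ρ : ℝ}
    (h : Tendsto (fun n => C.R (r n) (s n)) atTop (𝓝 ρ)) (z w : H) :
    Tendsto (fun n => C.R (z + r n) (w + s n)) atTop (𝓝 (C.R z w + ρ)) := by
  refine (T4_split hr hs (C.val z) (C.val w) h).congr fun n => ?_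
  simp only [Ctx.R, Ctx.T, map_add]

omit [CompleteSpace H] [TopologicalSpace.SeparableSpace H] in
theorem Ctx.Weak_sob (C : Ctx H μ) (a : H) : C.S ^ 2 * C.P a ≤ (‖a‖ ^ 2) ^ 2 := by
  rw [C.P_eq]
  refine le_trans (le_of_eq (by ring)) (pow_le_pow_left₀ ?_ (C.sob a) 2)
  exact mul_nonneg C.S_pos.le (by positivity)

omit [CompleteSpace H] [TopologicalSpace.SeparableSpace H] in
theorem Ctx.Weak_rem (C : Ctx H μ) {r s : ℕ → H} (br : ∃ c : ℝ, ∀ n, ‖r n‖ ≤ c)
    (bs : ∃ c : ℝ, ∀ n, ‖s n‖ ≤ c) (wr : ∀ y, Tendsto (fun n => ⟪r n, y⟫) atTop (𝓝 0))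
    (ws : ∀ y, Tendsto (fun n => ⟪s n, y⟫) atTop (𝓝 0)) {a' b' P' Q' R' : ℝ}
    (ha : Tendsto (fun n => ‖r n‖ ^ 2) atTop (𝓝 a'))
    (hb : Tendsto (fun n => ‖s n‖ ^ 2) atTop (𝓝 b'))
    (hP : Tendsto (fun n => C.P (r n)) atTop (𝓝 P'))
    (hQ : Tendsto (fun n => C.P (s n)) atTop (𝓝 Q'))
    (hR : Tendsto (fun n => C.R (r n) (s n)) atTop (𝓝 R')) : C.Rem r s a' b' P' Q' R' := by
  have hr := C.wnull r br wr
  have hs := C.wnull s bs ws
  exact
    { a0 := ge_of_tendsto' ha fun n => by positivity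
      b0 := ge_of_tendsto' hb fun n => by positivity
      P0 := ge_of_tendsto' hP fun n => C.P_nonneg _
      Q0 := ge_of_tendsto' hQ fun n => C.P_nonneg _
      R0 := ge_of_tendsto' hR fun n => C.R_nonneg _ _
      sa := le_of_tendsto_of_tendsto' (hP.const_mul _) (ha.pow 2) fun n => C.Weak_sob _
      sb := le_of_tendsto_of_tendsto' (hQ.const_mul _) (hb.pow 2) fun n => C.Weak_sob _
      rr := le_of_tendsto_of_tendsto' (hR.pow 2) (hP.mul hQ) fun n => C.R_sq_le _ _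
      qa := C.Weak_q hr wr ha
      qb := C.Weak_q hs ws hb
      pa := fun z => C.Weak_R hr hr hP z z
      pb := fun z => C.Weak_R hs hs hQ z z
      rab := C.Weak_R hr hs hR
      ma := C.Weak_ma hr
      my := C.Weak_my hr }

theorem Ctx.decomp (C : Ctx H μ) (u v : ℕ → H) (c : ℝ) (hu : ∀ n, ‖u n‖ ≤ c)
    (hv : ∀ n, ‖v n‖ ≤ c) :
    ∃ (φ : ℕ → ℕ) (z w : H) (r s : ℕ → H) (a' b' P' Q' R' : ℝ), StrictMono φ ∧
      (∀ n, u (φ n) = z + r n) ∧ (∀ n, v (φ n) = w + s n) ∧ C.Rem r s a' b' P' Q' R' := by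
  obtain ⟨φ₁, z, h1, wz⟩ := weak_subseq u c hu
  obtain ⟨φ₂, w, h2, ww⟩ := weak_subseq (fun n => v (φ₁ n)) c fun n => hv _
  set r : ℕ → H := fun n => u (φ₁ (φ₂ n)) - z with hr
  set s : ℕ → H := fun n => v (φ₁ (φ₂ n)) - w with hs
  have br : ∀ n, ‖r n‖ ≤ c + ‖z‖ := fun n => (norm_sub_le _ _).trans (by linarith [hu (φ₁ (φ₂ n))])
  have bs : ∀ n, ‖s n‖ ≤ c + ‖w‖ := fun n => (norm_sub_le _ _).trans (by linarith [hv (φ₁ (φ₂ n))])
  have wr : ∀ y, Tendsto (fun n => ⟪r n, y⟫) atTop (𝓝 0) := fun y =>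
    (wz y).comp h2.tendsto_atTop
  obtain ⟨c₁, b1⟩ := (C.wnull r ⟨_, br⟩ wr).1
  obtain ⟨c₂, b2⟩ := (C.wnull s ⟨_, bs⟩ ww).1
  obtain ⟨⟨a', b', P', Q', R'⟩, -, φ₃, h3, hl⟩ := (isCompact_Icc (a := ((0 : ℝ), (0 : ℝ), (0 : ℝ),
      (0 : ℝ), (0 : ℝ))) (b := ((c + ‖z‖) ^ 2, (c + ‖w‖) ^ 2, c₁ ^ 4, c₂ ^ 4,
      c₁ ^ 2 * c₂ ^ 2))).tendsto_subseq
      (x := fun n => (‖r n‖ ^ 2, ‖s n‖ ^ 2, C.P (r n), C.P (s n), C.R (r n) (s n))) fun n => by
    refine ⟨⟨by positivity, by positivity, C.P_nonneg _, C.P_nonneg _, C.R_nonneg _ _⟩,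
      pow_le_pow_left₀ (norm_nonneg _) (br n) 2, pow_le_pow_left₀ (norm_nonneg _) (bs n) 2,
      (C.P_eq _).trans_le (pow_le_pow_left₀ (norm_nonneg _) (b1 n) 4),
      (C.P_eq _).trans_le (pow_le_pow_left₀ (norm_nonneg _) (b2 n) 4), (C.R_le _ _).trans ?_⟩
    exact mul_le_mul (pow_le_pow_left₀ (norm_nonneg _) (b1 n) 2)
      (pow_le_pow_left₀ (norm_nonneg _) (b2 n) 2) (by positivity) (by positivity)
  refine ⟨fun n => φ₁ (φ₂ (φ₃ n)), z, w, fun n => r (φ₃ n), fun n => s (φ₃ n), a', b', P', Q', R',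
    h1.comp (h2.comp h3), fun n => by simp [hr], fun n => by simp [hs], ?_⟩
  exact C.Weak_rem ⟨_, fun n => br _⟩ ⟨_, fun n => bs _⟩
    (fun y => (wr y).comp h3.tendsto_atTop) (fun y => (ww y).comp h3.tendsto_atTop)
    hl.fst_nhds hl.snd_nhds.fst_nhds hl.snd_nhds.snd_nhds.fst_nhds
    hl.snd_nhds.snd_nhds.snd_nhds.fst_nhds hl.snd_nhds.snd_nhds.snd_nhds.snd_nhds

end CritSys
end
end

-- merged part: Pool.Agent.Work.MP_80ee1d_an.Jmin
section
/-!
The maximum over the quadrant of `E(√s u, √t v)` has a minimiser among pairs `u, v ≠ 0`.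

PLAN. Let `c = sInf {m | ∃ z w ≠ 0, UbJ z w m}` (non-empty by `exists_phi` and `ub_sum`, bounded
below by `0` by `Ub.nonneg`), so `Low c`.  Take `m n → c` in the set
(`exists_seq_tendsto_sInf`), normalise `P (u n) = P (v n) = 1` by `UbJ.smul`; `Ub.axis1/2` and
`q_lower` bound the norms.  `decomp` gives `z, w, r, s` and primed data; the data of
`(z + r n, w + s n)` converge to `d + d'` with `P + P' = Q + Q' = 1`, `(R + R')² ≤ 1`.
`ub_of_tendsto`: `Ub (d + d') c`.  For all `z', w'` with `P z' + P' > 0`, `P w' + Q' > 0`: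
`c ≤ m` for each bound `m` of `data (z', w') + d'` (`le_of_tendsto_data`; eventually
`z' + r n ≠ 0` since `P (z' + r n) → P z' + P' > 0`; `(R z' w' + R')² ≤ (P z' + P')(P w' + Q')` as a
limit of `R_sq_le`).  With a KKT point `(s₀, t₀)` of `d + d'` (`kkt_exists`) we get `c = FF`
(`KKT.ub`).  `danskin` along `z' = z + ε • z`, `w' = w` gives
`FF (2a) 0 (4P) 0 (2R) s₀ t₀ = 0`, which is `e1` of `core`; likewise `e2`.
`H1`: `Low` at `(φ, φ)`.  `H2`: `Low` at `(φ, w)` with `ub_sum`; `H3`: at `(z, φ)`.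
-/

open MeasureTheory Filter Topology
open scoped RealInnerProductSpace

noncomputable section
namespace CritSys
namespace Ctx

variable {X : Type} [MeasurableSpace X] {H : Type} [NormedAddCommGroup H] [InnerProductSpace ℝ H]
  [CompleteSpace H] [TopologicalSpace.SeparableSpace H] {μ : Measure X} [IsFiniteMeasure μ]
  (C : Ctx H μ) {l1 l2 m1 m2 β : ℝ}

omit [CompleteSpace H] [TopologicalSpace.SeparableSpace H] in
theorem Jmin_norm {z : H} (hz : z ≠ 0) : ∃ t : ℝ, t • z ≠ 0 ∧ C.P (t • z) = 1 := by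
  have h : ‖C.val z‖ ≠ 0 := norm_ne_zero_iff.2 fun h => hz (C.inj z h)
  refine ⟨‖C.val z‖⁻¹, smul_ne_zero (inv_ne_zero h) hz, ?_⟩
  rw [P_smul, P_eq, ← mul_pow, inv_mul_cancel₀ h, one_pow]

omit [CompleteSpace H] [TopologicalSpace.SeparableSpace H] in
theorem Jmin_bound {l : ℝ} (a : C.Adm l) (B : ℝ) :
    ∃ K : ℝ, ∀ u, C.q l u ^ 2 ≤ B → ‖u‖ ≤ K := by
  have hκ : 0 < (C.Λ + l) / C.Λ := div_pos (by linarith [a.1]) C.Lam_pos
  refine ⟨1 + (1 + B) / ((C.Λ + l) / C.Λ), fun u hu => ?_⟩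
  have h1 := C.q_lower a.2.le u
  have h2 : C.q l u ≤ 1 + B := by nlinarith [sq_nonneg (C.q l u - 1), sq_nonneg (C.q l u)]
  have h3 : ‖u‖ ^ 2 ≤ (1 + B) / ((C.Λ + l) / C.Λ) := by
    rw [le_div_iff₀ hκ, mul_comm]
    exact h1.trans h2
  nlinarith [sq_nonneg (‖u‖ - 1), norm_nonneg u]

omit [CompleteSpace H] [TopologicalSpace.SeparableSpace H] in
theorem Jmin_e {l a' b P' Q R' s t c : ℝ} {z w : H}
    (hlow : ∀ z', 0 < C.P z' + P' →
      ∀ m, Ub m1 m2 β (C.q l z' + a') b (C.P z' + P') Q (C.R z' w + R') m → c ≤ m)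
    (hk : KKT m1 m2 β (C.q l z + a') b (C.P z + P') Q (C.R z w + R') s t)
    (hc : c = FF m1 m2 β (C.q l z + a') b (C.P z + P') Q (C.R z w + R') s t)
    (hP : 0 < C.P z + P') (hP0 : 0 < m1 * (C.P z + P')) (hQ0 : 0 < m2 * Q)
    (hd : (β * (C.R z w + R')) ^ 2 < m1 * (C.P z + P') * (m2 * Q)) :
    s * (C.q l z - (m1 * C.P z * s + β * C.R z w * t)) = 0 := by
  have dP := (C.hasDerivAt_P z z).add_const P'
  have h := danskin (m1 := m1) (m2 := m2) (β := β) (s := s) (t := t)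
    ((C.hasDerivAt_q l z z).add_const a') (hasDerivAt_const (0 : ℝ) b) dP
    (hasDerivAt_const (0 : ℝ) Q) ((C.hasDerivAt_R1 z w z).add_const R')
    (by simpa using hk) (by simpa using hP0) hQ0 (by simpa using hd) (by
      have h1 : ∀ᶠ ε in 𝓝 (0 : ℝ), 0 < C.P (z + ε • z) + P' :=
        dP.continuousAt.eventually (lt_mem_nhds (by simpa using hP))
      filter_upwards [h1] with ε hε m hm
      simp only [zero_smul, add_zero]
      rw [← hc]
      exact hlow _ hε m hm)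
  rw [B_self, show C.T w w z z = C.R z w from C.R_comm w z,
    show C.T z z z z = C.P z from rfl, FF] at h
  linear_combination h

theorem jmin (a1 : C.Adm l1) (a2 : C.Adm l2) (h1 : 0 < m1) (h2 : 0 < m2) (hβ : 0 ≤ β)
    (hd : β ^ 2 < m1 * m2) :
    ∃ (u v : H) (c : ℝ), u ≠ 0 ∧ v ≠ 0 ∧ C.UbJ l1 l2 m1 m2 β u v c ∧ C.Low l1 l2 m1 m2 β c := by
  obtain ⟨φ, σ, hφ0, -, hφP, hφ1, hφ2, hσ, hσS⟩ := C.exists_phi a1 a2
  have hsum : ∀ z w : H, z ≠ 0 → w ≠ 0 → C.UbJ l1 l2 m1 m2 β z w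
      (C.q l1 z ^ 2 / (4 * (m1 * C.P z)) + C.q l2 w ^ 2 / (4 * (m2 * C.P w))) := fun z w hz hw =>
    ub_sum hβ (C.R_nonneg z w) (mul_pos h1 (C.P_pos hz)) (mul_pos h2 (C.P_pos hw))
  set A : Set ℝ := {m | ∃ z w : H, z ≠ 0 ∧ w ≠ 0 ∧ C.UbJ l1 l2 m1 m2 β z w m} with hA
  have hne : A.Nonempty := ⟨_, φ, φ, hφ0, hφ0, hsum φ φ hφ0 hφ0⟩
  have hbd : BddBelow A := ⟨0, fun m ⟨_, _, _, _, h⟩ => Ub.nonneg h⟩
  have hLow : C.Low l1 l2 m1 m2 β (sInf A) := fun z w m hz hw h => csInf_le hbd ⟨z, w, hz, hw, h⟩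
  obtain ⟨mm, hanti, hlim, hmem⟩ := exists_seq_tendsto_sInf hne hbd
  generalize sInf A = c at hLow hlim
  have hseq : ∀ n, ∃ u v : H, C.P u = 1 ∧ C.P v = 1 ∧ C.UbJ l1 l2 m1 m2 β u v (mm n) := fun n => by
    obtain ⟨z, w, hz, hw, h⟩ := hmem n
    obtain ⟨s, -, hs⟩ := C.Jmin_norm hz
    obtain ⟨t, -, ht⟩ := C.Jmin_norm hw
    exact ⟨_, _, hs, ht, h.smul s t⟩
  choose u v hu hv huv using hseq
  obtain ⟨K1, hK1⟩ := C.Jmin_bound a1 (4 * m1 * mm 0)
  obtain ⟨K2, hK2⟩ := C.Jmin_bound a2 (4 * m2 * mm 0)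
  have hub : ∀ n, ‖u n‖ ≤ max K1 K2 := fun n => by
    refine (hK1 _ ?_).trans (le_max_left _ _)
    have h := Ub.axis1 (huv n) (C.q_nonneg a1.1.le _) (by rw [hu n]; linarith)
    rw [hu n, mul_one] at h
    exact h.trans (mul_le_mul_of_nonneg_left (hanti (Nat.zero_le n)) (by positivity))
  have hvb : ∀ n, ‖v n‖ ≤ max K1 K2 := fun n => by
    refine (hK2 _ ?_).trans (le_max_right _ _)
    have h := Ub.axis2 (huv n) (C.q_nonneg a2.1.le _) (by rw [hv n]; linarith)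
    rw [hv n, mul_one] at h
    exact h.trans (mul_le_mul_of_nonneg_left (hanti (Nat.zero_le n)) (by positivity))
  obtain ⟨ψ, z, w, r, s, a', b', P', Q', R', hψ, hur, hvs, hR⟩ := C.decomp u v _ hub hvb
  have hPP : C.P z + P' = 1 := tendsto_nhds_unique (hR.pa z)
    (tendsto_const_nhds.congr fun n => by rw [← hur, hu])
  have hQQ : C.P w + Q' = 1 := tendsto_nhds_unique (hR.pb w)
    (tendsto_const_nhds.congr fun n => by rw [← hvs, hv])
  have hRR : ∀ z' w' : H, (C.R z' w' + R') ^ 2 ≤ (C.P z' + P') * (C.P w' + Q') := fun z' w' =>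
    le_of_tendsto_of_tendsto' ((hR.rab z' w').pow 2) ((hR.pa z').mul (hR.pb w'))
      fun n => C.R_sq_le _ _
  have hUb : Ub m1 m2 β (C.q l1 z + a') (C.q l2 w + b') (C.P z + P') (C.P w + Q')
      (C.R z w + R') c :=
    ub_of_tendsto (hR.qa l1 z) (hR.qb l2 w) (hR.pa z) (hR.pb w) (hR.rab z w)
      (hlim.comp hψ.tendsto_atTop) fun n => by
        rw [← hur, ← hvs]
        exact huv (ψ n)
  have ha0 : ∀ z', 0 ≤ C.q l1 z' + a' := fun z' => add_nonneg (C.q_nonneg a1.1.le _) hR.a0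
  have hb0 : ∀ w', 0 ≤ C.q l2 w' + b' := fun w' => add_nonneg (C.q_nonneg a2.1.le _) hR.b0
  have hR0 : ∀ z' w', 0 ≤ C.R z' w' + R' := fun z' w' => add_nonneg (C.R_nonneg _ _) hR.R0
  have hlow : ∀ z' w' : H, 0 < C.P z' + P' → 0 < C.P w' + Q' → ∀ m,
      Ub m1 m2 β (C.q l1 z' + a') (C.q l2 w' + b') (C.P z' + P') (C.P w' + Q')
        (C.R z' w' + R') m → c ≤ m := fun z' w' hz' hw' =>
    le_of_tendsto_data h1 h2 hβ hd (hR.qa l1 z') (hR.qb l2 w') (hR.pa z') (hR.pb w')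
      (hR.rab z' w') (ha0 z') (hb0 w') hz' hw' (hR0 z' w') (hRR z' w') (by
        filter_upwards [(hR.pa z').eventually (lt_mem_nhds hz'),
          (hR.pb w').eventually (lt_mem_nhds hw')] with n hn hn' m hm
        refine hLow _ _ m (fun h => ?_) (fun h => ?_) hm
        · rw [h, P_zero] at hn
          exact lt_irrefl _ hn
        · rw [h, P_zero] at hn'
          exact lt_irrefl _ hn')
  have hP1 : 0 < C.P z + P' := by rw [hPP]; exact one_pos
  have hQ1 : 0 < C.P w + Q' := by rw [hQQ]; exact one_pos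
  have hRRR : (C.R z w + R') ^ 2 ≤ 1 := by
    have := hRR z w
    rwa [hPP, hQQ, mul_one] at this
  have hdd : (β * (C.R z w + R')) ^ 2 < m1 * (C.P z + P') * (m2 * (C.P w + Q')) := by
    rw [hPP, hQQ, mul_one, mul_one, mul_pow]
    exact (mul_le_of_le_one_right (sq_nonneg β) hRRR).trans_lt hd
  obtain ⟨s₀, t₀, hk⟩ := kkt_exists h1 h2 hβ hd (ha0 z) (hb0 w) hP1 hQ1 (hR0 z w) (hRR z w)
  have hc : c = FF m1 m2 β (C.q l1 z + a') (C.q l2 w + b') (C.P z + P') (C.P w + Q')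
      (C.R z w + R') s₀ t₀ :=
    le_antisymm (hlow z w hP1 hQ1 _ (hk.ub (mul_pos h1 hP1).le (mul_pos h2 hQ1).le hdd.le))
      (hUb s₀ t₀ hk.1 hk.2.1)
  have e1 := C.Jmin_e (fun z' hz' => hlow z' w hz' hQ1) hk hc hP1 (mul_pos h1 hP1)
    (mul_pos h2 hQ1) hdd
  have e2 := C.Jmin_e (m1 := m2) (m2 := m1) (β := β) (l := l2) (a' := b') (b := C.q l1 z + a')
    (P' := Q') (Q := C.P z + P') (R' := R') (s := t₀) (t := s₀) (c := c) (z := w) (w := z)
    (fun w' hw' m hm => hlow z w' hP1 hw' m (by rw [C.R_comm z w']; exact hm.swap))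
    (by rw [C.R_comm w z]; exact hk.swap) (by rw [C.R_comm w z, FF_swap]; exact hc) hQ1
    (mul_pos h2 hQ1) (mul_pos h1 hP1) (by rw [C.R_comm w z, mul_comm (m2 * _)]; exact hdd)
  rw [C.R_comm w z] at e2
  rw [hPP, hQQ] at hk hc
  have hne0 : ∀ y : H, 0 < C.P y → y ≠ 0 := fun y hy h => by
    rw [h, P_zero] at hy
    exact lt_irrefl _ hy
  have hq0 : ∀ (l : ℝ) (y : H), C.P y = 0 → C.q l y = 0 := fun l y hy => by
    have : y = 0 := by_contra fun h => (C.P_pos h).ne' hy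
    rw [this, q_zero]
  have hφq : ∀ {l m : ℝ}, C.Adm l → 0 < m → C.q l φ ≤ σ →
      C.q l φ ^ 2 / (4 * (m * C.P φ)) ≤ σ ^ 2 / (4 * m) := fun a hm h => by
    rw [hφP, mul_one]
    exact div_le_div_of_nonneg_right (pow_le_pow_left₀ (C.q_nonneg a.1.le _) h 2) (by positivity)
  obtain ⟨hz, hw, hfin⟩ := core h1 h2 hβ hd hσ hσS hφ1 hφ2 (C.P_nonneg z) (C.P_nonneg w)
    (C.R_nonneg z w) (C.R_sq_le z w) (hq0 l1 z) (fun h => C.q_pos a1.1 (hne0 z h)) (hq0 l2 w)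
    (fun h => C.q_pos a2.1 (hne0 w h)) hR.a0 hR.b0 hR.P0 hR.Q0 hR.R0 hR.rr hR.sa hR.sb hPP hQQ hRRR
    hk hc e1 (by linear_combination e2)
    (fun m hm => hLow φ φ m hφ0 hφ0 (by rw [UbJ, R_self, hφP]; exact hm))
    (fun h => (hLow φ w _ hφ0 (hne0 w h) (hsum φ w hφ0 (hne0 w h))).trans
      (add_le_add_left (hφq a1 h1 hφ1) _))
    (fun h => (hLow z φ _ (hne0 z h) hφ0 (hsum z φ (hne0 z h) hφ0)).trans
      (add_le_add_right (hφq a2 h2 hφ2) _))
  exact ⟨z, w, c, hne0 z hz, hne0 w hw, hfin, hLow⟩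

end Ctx
end CritSys
end
end

-- merged part: Pool.Agent.Work.MP_80ee1d_an.Alt
section
/-!
The alternative: a ground state, or an unstable semitrivial solution at the minimal level.

PLAN. `neh_ub`: at a point of the Nehari set `(1, 1)` is a KKT point; `KKT.ub`, and `FF .. 1 1 = En`.
`alt`: take `(u, v, c)` from `jmin`, replace by absolute values (`exists_abs`, `Ub.mono`).  With a KKT
point `(s, t)`: `FF s t = c` (`≤` from `UbJ`, `≥` from `Low` and `KKT.ub`).  `danskin` along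
`u + ε • ψ` (non-zero for small `ε`) gives `s (B l1 u ψ - m1 s T u u u ψ - β t T v v u ψ) = 0`, and
the same for `v`.  `c > 0` (`Ub.axis1`, `q_pos`) so `(s, t) ≠ (0, 0)`.  If `s, t > 0` the pair
`(√s • u, √t • v)` solves both equations, is positive (`pos_of_eqn`), has energy `c` (`En_sqrt`), and
`neh_ub` with `Low` gives minimality.  If `t = 0`, `w = √s • u` solves the scalar equation,
`q l1 w = s q l1 u = 4 c` (`KKT.val`) and `q l2 v ≤ β s R u v = β R w v`.  Symmetric for `s = 0`.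
`least_exists`: `alt` with `β = 0`, `l1 = l2`, `m1 = m2`; the semitrivial cases contradict `q_pos`;
if `(u, v)` is a ground state and `z` lies on the scalar Nehari set then `(z, v)` is in `Neh`.
-/

open MeasureTheory Filter Topology
open scoped RealInnerProductSpace

noncomputable section
namespace CritSys
namespace Ctx

variable {X : Type} [MeasurableSpace X] {H : Type} [NormedAddCommGroup H] [InnerProductSpace ℝ H]
  [CompleteSpace H] [TopologicalSpace.SeparableSpace H] {μ : Measure X} [IsFiniteMeasure μ]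
  (C : Ctx H μ) {l1 l2 m1 m2 β : ℝ}

omit [CompleteSpace H] [TopologicalSpace.SeparableSpace H] in
theorem Alt_disc (hd : β ^ 2 ≤ m1 * m2) (u v : H) :
    (β * C.R u v) ^ 2 ≤ m1 * C.P u * (m2 * C.P v) :=
  (mul_pow _ _ _).trans_le ((mul_le_mul hd (C.R_sq_le u v) (sq_nonneg _)
    ((sq_nonneg _).trans hd)).trans_eq (by ring))

omit [CompleteSpace H] [TopologicalSpace.SeparableSpace H] in
theorem Alt_disc' (hd : β ^ 2 < m1 * m2) {u v : H} (hu : u ≠ 0) (hv : v ≠ 0) :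
    (β * C.R u v) ^ 2 < m1 * C.P u * (m2 * C.P v) :=
  ((mul_pow _ _ _).trans_le (mul_le_mul_of_nonneg_left (C.R_sq_le u v) (sq_nonneg _))).trans_lt
    ((mul_lt_mul_of_pos_right hd (mul_pos (C.P_pos hu) (C.P_pos hv))).trans_eq (by ring))

omit [CompleteSpace H] [TopologicalSpace.SeparableSpace H] in
/-- The equation for the first component. -/
theorem Alt_eqn (h1 : 0 < m1) (h2 : 0 < m2) (hd : β ^ 2 < m1 * m2) {u v : H} (hu : u ≠ 0)
    (hv : v ≠ 0) {s t : ℝ} (hk : KKT m1 m2 β (C.q l1 u) (C.q l2 v) (C.P u) (C.P v) (C.R u v) s t)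
    (hl : C.Low l1 l2 m1 m2 β (FF m1 m2 β (C.q l1 u) (C.q l2 v) (C.P u) (C.P v) (C.R u v) s t))
    (hs : 0 < s) : C.Eqn l1 m1 β (√s • u) (√t • v) := by
  intro ψ
  have e0 : u + (0 : ℝ) • ψ = u := by simp
  have hne : ∀ᶠ ε in 𝓝 (0 : ℝ), u + ε • ψ ≠ 0 :=
    ContinuousAt.eventually_ne (g := fun ε : ℝ => u + ε • ψ) (by fun_prop) (by simpa using hu)
  have key := danskin (m1 := m1) (m2 := m2) (β := β) (s := s) (t := t) (C.hasDerivAt_q l1 u ψ)
    (hasDerivAt_const (0 : ℝ) (C.q l2 v)) (C.hasDerivAt_P u ψ) (hasDerivAt_const (0 : ℝ) (C.P v))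
    (C.hasDerivAt_R1 u v ψ) (by simpa only [e0] using hk)
    (by simpa only [e0] using mul_pos h1 (C.P_pos hu)) (mul_pos h2 (C.P_pos hv))
    (by simpa only [e0] using C.Alt_disc' hd hu hv)
    (hne.mono fun ε hε m hm => by simpa only [e0] using hl _ _ m hε hv hm)
  have e : C.B l1 u ψ = m1 * s * C.T u u u ψ + β * t * C.T v v u ψ := by
    refine mul_left_cancel₀ hs.ne' ?_
    unfold FF at key
    linarith
  rw [B_smul1, T_smul1, T_smul2, T_smul3, T_smul1, T_smul2, T_smul3, e,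
    ← mul_assoc √s √s, Real.mul_self_sqrt hs.le, ← mul_assoc √t √t, Real.mul_self_sqrt hk.2.1]
  ring

omit [CompleteSpace H] [TopologicalSpace.SeparableSpace H] in
theorem Alt_pos (a1 : C.Adm l1) (h1 : 0 < m1) (hβ : 0 ≤ β) {u v : H} (hu : u ≠ 0)
    (h0 : 0 ≤ C.val u) {s : ℝ} (hs : 0 < s) (h : C.Eqn l1 m1 β (√s • u) v) : C.Pos (√s • u) := by
  refine C.pos_of_eqn h a1.2.le h1.le hβ ?_ (smul_ne_zero (Real.sqrt_pos.2 hs).ne' hu)
  rw [map_smul, ← Lp.coeFn_nonneg]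
  filter_upwards [Lp.coeFn_smul √s (C.val u), (Lp.coeFn_nonneg _).2 h0] with x e hx
  rw [e]
  exact mul_nonneg (Real.sqrt_nonneg s) hx

omit [CompleteSpace H] [TopologicalSpace.SeparableSpace H] in
/-- The semitrivial case. -/
theorem Alt_semi (a1 : C.Adm l1) (h1 : 0 < m1) (h2 : 0 < m2) (hβ : 0 ≤ β) (hd : β ^ 2 < m1 * m2)
    {u v : H} (hu : u ≠ 0) (hv : v ≠ 0) (h0 : 0 ≤ C.val u) {s : ℝ}
    (hk : KKT m1 m2 β (C.q l1 u) (C.q l2 v) (C.P u) (C.P v) (C.R u v) s 0)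
    (hl : C.Low l1 l2 m1 m2 β (FF m1 m2 β (C.q l1 u) (C.q l2 v) (C.P u) (C.P v) (C.R u v) s 0))
    (hs : 0 < s) : ∃ w v, C.Sol1 l1 m1 w ∧ C.Pos w ∧ v ≠ 0 ∧ C.q l2 v ≤ β * C.R w v ∧
      C.Low l1 l2 m1 m2 β (C.q l1 w / 4) := by
  have e := C.Alt_eqn h1 h2 hd hu hv hk hl hs
  refine ⟨√s • u, v, fun ψ => ?_, C.Alt_pos a1 h1 hβ hu h0 hs e, hv, ?_, ?_⟩
  · rw [e ψ, C.T_smul1 √0, Real.sqrt_zero]
    ring
  · have := C.R_smul √s 1 u v
    rw [one_smul, Real.sq_sqrt hs.le] at this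
    rw [this]
    have := hk.2.2.2.1
    linarith
  · rw [hk.val] at hl
    rw [q_smul, Real.sq_sqrt hs.le]
    simpa using hl

omit [CompleteSpace H] [TopologicalSpace.SeparableSpace H] in
theorem neh_ub (h1 : 0 < m1) (h2 : 0 < m2) (hd : β ^ 2 ≤ m1 * m2) {u v : H}
    (h : C.Neh l1 l2 m1 m2 β u v) : C.UbJ l1 l2 m1 m2 β u v (C.En l1 l2 m1 m2 β u v) := by
  obtain ⟨-, -, e1, e2⟩ := h
  have hk : KKT m1 m2 β (C.q l1 u) (C.q l2 v) (C.P u) (C.P v) (C.R u v) 1 1 :=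
    ⟨zero_le_one, zero_le_one, by linarith, by linarith, by linarith, by linarith⟩
  refine (hk.ub (mul_nonneg h1.le (C.P_nonneg u)) (mul_nonneg h2.le (C.P_nonneg v))
    (C.Alt_disc hd u v)).mono le_rfl le_rfl (le_of_eq ?_)
  simp [FF, En]

theorem alt (a1 : C.Adm l1) (a2 : C.Adm l2) (h1 : 0 < m1) (h2 : 0 < m2) (hβ : 0 ≤ β)
    (hd : β ^ 2 < m1 * m2) :
    C.GS l1 l2 m1 m2 β ∨
    (∃ w v, C.Sol1 l1 m1 w ∧ C.Pos w ∧ v ≠ 0 ∧ C.q l2 v ≤ β * C.R w v ∧
      C.Low l1 l2 m1 m2 β (C.q l1 w / 4)) ∨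
    (∃ w u, C.Sol1 l2 m2 w ∧ C.Pos w ∧ u ≠ 0 ∧ C.q l1 u ≤ β * C.R w u ∧
      C.Low l1 l2 m1 m2 β (C.q l2 w / 4)) := by
  obtain ⟨u', v', c, hu', hv', hU, hL⟩ := C.jmin a1 a2 h1 h2 hβ hd
  obtain ⟨u, -, u0, hu, -, -, qu, Pu, Ru, -⟩ := C.exists_abs u'
  obtain ⟨v, -, v0, hv, -, -, qv, Pv, -, Rv⟩ := C.exists_abs v'
  replace hu := hu hu'
  replace hv := hv hv'
  replace hU : C.UbJ l1 l2 m1 m2 β u v c := by
    unfold UbJ at hU ⊢
    rw [Pu, Pv, Ru, Rv]
    exact hU.mono (qu l1) (qv l2) le_rfl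
  obtain ⟨s, t, hk⟩ := kkt_exists h1 h2 hβ hd (C.q_pos a1.1 hu).le (C.q_pos a2.1 hv).le
    (C.P_pos hu) (C.P_pos hv) (C.R_nonneg u v) (C.R_sq_le u v)
  obtain rfl : c = FF m1 m2 β (C.q l1 u) (C.q l2 v) (C.P u) (C.P v) (C.R u v) s t :=
    le_antisymm (hL u v _ hu hv (hk.ub (mul_pos h1 (C.P_pos hu)).le (mul_pos h2 (C.P_pos hv)).le
      (C.Alt_disc hd.le u v))) (hU s t hk.1 hk.2.1)
  have hk' := hk.swap
  have hL' := hL.swap
  have hd' : β ^ 2 < m2 * m1 := mul_comm m1 m2 ▸ hd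
  rw [FF_swap] at hL'
  rw [C.R_comm] at hk' hL'
  rcases hk.1.eq_or_lt with rfl | hs <;> rcases hk.2.1.eq_or_lt with rfl | ht
  · have := hk.2.2.1
    have := C.q_pos a1.1 hu
    linarith
  · obtain ⟨w, z, b1, b2, b3, b4, b5⟩ := C.Alt_semi a2 h2 h1 hβ hd' hv hu v0 hk' hL' ht
    exact .inr (.inr ⟨w, z, b1, b2, b3, b4, b5.swap⟩)
  · exact .inr (.inl (C.Alt_semi a1 h1 h2 hβ hd hu hv u0 hk hL hs))
  · have e1 := C.Alt_eqn h1 h2 hd hu hv hk hL hs
    have e2 := C.Alt_eqn h2 h1 hd' hv hu hk' hL' ht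
    refine .inl ⟨_, _, e1, e2, C.Alt_pos a1 h1 hβ hu u0 hs e1, C.Alt_pos a2 h2 hβ hv v0 ht e2,
      fun z w hn => ?_⟩
    rw [C.En_sqrt _ _ _ _ _ _ _ hs.le ht.le]
    exact hL z w _ hn.1 hn.2.1 (C.neh_ub h1 h2 hd.le hn)

theorem least_exists {l m : ℝ} (a : C.Adm l) (hm : 0 < m) : ∃ w, C.Least l m w := by
  rcases C.alt (β := 0) a a hm hm le_rfl (by simpa using hm.ne') with
    ⟨u, v, h⟩ | ⟨w, v, -, -, hv, h, -⟩ | ⟨w, v, -, -, hv, h, -⟩
  · refine ⟨u, (C.sol1_iff l m u v).2 h.1, h.2.2.1, fun z hz e => ?_⟩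
    have hn := h.neh
    have hz : C.Neh l l m m 0 z v := ⟨hz, hn.2.1, by simpa using e, by simpa using hn.2.2.2⟩
    have := h.2.2.2.2 z v hz
    rw [hn.En_eq, hz.En_eq] at this
    linarith
  · have := C.q_pos a.1 hv
    linarith
  · have := C.q_pos a.1 hv
    linarith

end Ctx
end CritSys
end
end

-- merged part: Pool.Agent.Work.MP_80ee1d_an.LowR
section
/-!
The range `0 ≤ β < √(m1 m2)`.

PLAN. The set defining `bh l m l'` is non-empty (`least_exists`, `v = w`) and consists of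
non-negative numbers (`q_nonneg`, `R_pos`).  `bh_le`: `csInf_le` and `R_pos`.  `exists_of_bh_lt`:
`exists_lt_of_csInf_lt`.
`lower_non`: let `(u₀, v₀)` be a ground state with energy `E`.  Fix a least `w₀`, `b₀ = q l2 w₀`.
`neh_gt` and `least_quot` give `E > b₀ / 4`.  For `η > 0` take `w, u` from `exists_of_bh_lt` at
`β + η`; `q l2 w = b₀ = m2 P w` (`least_q_eq`), `ub_almost` bounds the fibering function of
`(u, w)` by `b₀ / 4 + η² b₀ / (4 (m1 m2 - β²))`, and `neh_approx` gives `E ≤` that `+ η`.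
`lowerRange`: `→` by `lower_non` (and its swap); `←` by `alt`: in a semitrivial case `Low` at
`(w1, w2)` with `ub_sum` gives `q w ≤ q l1 w1 + q l2 w2`, so `w` is least and `bh_le` contradicts
`β < bh`.
-/

open MeasureTheory Filter Topology
open scoped RealInnerProductSpace

noncomputable section
namespace CritSys
namespace Ctx

variable {X : Type} [MeasurableSpace X] {H : Type} [NormedAddCommGroup H] [InnerProductSpace ℝ H]
  [CompleteSpace H] [TopologicalSpace.SeparableSpace H] {μ : Measure X} [IsFiniteMeasure μ]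
  (C : Ctx H μ) {l1 l2 m1 m2 β : ℝ}

omit [CompleteSpace H] [TopologicalSpace.SeparableSpace H] in
theorem LowR_nonneg {l m l' : ℝ} (a' : C.Adm l') :
    ∀ r ∈ {r | ∃ w v, C.Least l m w ∧ v ≠ 0 ∧ r = C.q l' v / C.R w v}, 0 ≤ r := by
  rintro _ ⟨w, v, -, -, rfl⟩
  exact div_nonneg (C.q_nonneg a'.1.le v) (C.R_nonneg w v)

omit [CompleteSpace H] [TopologicalSpace.SeparableSpace H] in
theorem bh_le {l m l' : ℝ} (a' : C.Adm l') {w : H} (hw : C.Least l m w) (v : H) :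
    C.bh l m l' * C.R w v ≤ C.q l' v := by
  by_cases hv : v = 0
  · rw [hv, R_zero2, q_zero, mul_zero]
  · rw [← le_div_iff₀ (C.R_pos hw.2.1 hv)]
    exact csInf_le ⟨0, C.LowR_nonneg a'⟩ ⟨w, v, hw, hv, rfl⟩

omit [CompleteSpace H] [TopologicalSpace.SeparableSpace H] in
theorem bh_nonneg {l m l' : ℝ} (a' : C.Adm l') : 0 ≤ C.bh l m l' := by
  exact Real.sInf_nonneg (C.LowR_nonneg a')

theorem exists_of_bh_lt {l m l' β : ℝ} (a : C.Adm l) (hm : 0 < m) (h : C.bh l m l' < β) :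
    ∃ w v, C.Least l m w ∧ v ≠ 0 ∧ C.q l' v < β * C.R w v := by
  obtain ⟨w₀, hw₀⟩ := C.least_exists a hm
  obtain ⟨_, ⟨w, v, hw, hv, rfl⟩, hlt⟩ :=
    exists_lt_of_csInf_lt (by exact ⟨_, w₀, w₀, hw₀, hw₀.2.1.ne_zero, rfl⟩) h
  exact ⟨w, v, hw, hv, (div_lt_iff₀ (C.R_pos hw.2.1 hv)).1 hlt⟩

theorem lower_non (a1 : C.Adm l1) (a2 : C.Adm l2) (h1 : 0 < m1) (h2 : 0 < m2) (hβ : 0 ≤ β)
    (hd : β ^ 2 < m1 * m2) (h : C.bh l2 m2 l1 ≤ β) : ¬ C.GS l1 l2 m1 m2 β := by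
  rintro ⟨u₀, v₀, hg⟩
  obtain ⟨w₀, hw₀⟩ := C.least_exists a2 h2
  have k1 : C.q l2 w₀ / 4 < C.En l1 l2 m1 m2 β u₀ v₀ := by
    have e1 := (C.least_quot a2.1 h2 hw₀ v₀).trans_lt (C.neh_gt hd hg.neh)
    have e2 : 0 < m2 * C.P v₀ := mul_pos h2 (C.P_pos hg.neh.2.1)
    refine lt_of_mul_lt_mul_right ?_ e2.le
    linarith
  have k2 : ∀ η : ℝ, 0 < η → C.En l1 l2 m1 m2 β u₀ v₀ ≤
      C.q l2 w₀ / 4 + η ^ 2 * C.q l2 w₀ / (4 * (m1 * m2 - β ^ 2)) + η := fun η hη => by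
    obtain ⟨w, u, hw, hu, hlt⟩ := C.exists_of_bh_lt a2 h2 (h.trans_lt (lt_add_of_pos_right β hη))
    have hw0 := hw.2.1.ne_zero
    have hub := ub_almost h1 h2 hβ hd (C.P_pos hu) (C.P_pos hw0) (C.R_nonneg u w) (C.R_sq_le u w)
      hη.le hw.1.q_eq (a := C.q l1 u) (by rw [C.R_comm]; exact hlt.le)
    obtain ⟨u', v', hn, hle⟩ := C.neh_approx a1 a2 h1 h2 hβ hd hu hw0 hub hη
    rw [← hw.1.q_eq, C.least_q_eq hw hw₀] at hle
    exact (hg.2.2.2.2 u' v' hn).trans hle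
  have k3 : Tendsto (fun η : ℝ => C.q l2 w₀ / 4 + η ^ 2 * C.q l2 w₀ / (4 * (m1 * m2 - β ^ 2)) + η)
      (𝓝[>] 0) (𝓝 (C.q l2 w₀ / 4)) :=
    (Continuous.tendsto' (by fun_prop) 0 _ (by simp)).mono_left nhdsWithin_le_nhds
  exact k1.not_ge (ge_of_tendsto k3 (eventually_mem_nhdsWithin.mono k2))

theorem lowerRange (a1 : C.Adm l1) (a2 : C.Adm l2) (h1 : 0 < m1) (h2 : 0 < m2) (hβ : 0 ≤ β)
    (hd : β ^ 2 < m1 * m2)
    (H1 : ∀ w w1 w2, C.Sol1 l1 m1 w → C.Pos w → C.Least l1 m1 w1 → C.Least l2 m2 w2 →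
      C.q l1 w ≤ C.q l1 w1 + C.q l2 w2 → C.Least l1 m1 w)
    (H2 : ∀ w w1 w2, C.Sol1 l2 m2 w → C.Pos w → C.Least l1 m1 w1 → C.Least l2 m2 w2 →
      C.q l2 w ≤ C.q l1 w1 + C.q l2 w2 → C.Least l2 m2 w) :
    C.GS l1 l2 m1 m2 β ↔ β < C.bh l1 m1 l2 ∧ β < C.bh l2 m2 l1 := by
  refine ⟨fun h => ⟨lt_of_not_ge fun e => ?_, lt_of_not_ge fun e => ?_⟩, fun h => ?_⟩
  · exact C.lower_non a2 a1 h2 h1 hβ (by rwa [mul_comm]) e ((C.GS_swap _ _ _ _ _).1 h)
  · exact C.lower_non a1 a2 h1 h2 hβ hd e h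
  obtain ⟨w1, hw1⟩ := C.least_exists a1 h1
  obtain ⟨w2, hw2⟩ := C.least_exists a2 h2
  have key : ∀ c, C.Low l1 l2 m1 m2 β (c / 4) → c ≤ C.q l1 w1 + C.q l2 w2 := fun c hc => by
    have p1 := mul_pos h1 (C.P_pos hw1.2.1.ne_zero)
    have p2 := mul_pos h2 (C.P_pos hw2.2.1.ne_zero)
    have := hc w1 w2 _ hw1.2.1.ne_zero hw2.2.1.ne_zero (ub_sum hβ (C.R_nonneg _ _) p1 p2)
    rw [hw1.1.q_eq, hw2.1.q_eq] at this ⊢
    have e : ∀ x : ℝ, 0 < x → x ^ 2 / (4 * x) = x / 4 := fun x hx => by field_simp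
    rw [e _ p1, e _ p2] at this
    linarith
  rcases C.alt a1 a2 h1 h2 hβ hd with g | ⟨w, v, s, p, hv, hle, low⟩ | ⟨w, v, s, p, hv, hle, low⟩
  · exact g
  · exact absurd ((C.bh_le a2 (H1 w w1 w2 s p hw1 hw2 (key _ low)) v).trans hle)
      (mul_lt_mul_of_pos_right h.1 (C.R_pos p hv)).not_ge
  · exact absurd ((C.bh_le a1 (H2 w w1 w2 s p hw1 hw2 (key _ low)) v).trans hle)
      (mul_lt_mul_of_pos_right h.2 (C.R_pos p hv)).not_ge

end Ctx
end CritSys
end
end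

-- merged part: Pool.Agent.Work.MP_80ee1d_an.Scale
section
/-!
Dilations and translations of test functions, and the normalisation by the concentration function.

PLAN. `scale_tst`: `g x = δ⁻¹ * f (δ⁻¹ • (x - y))`, `gradient g x = δ⁻² • gradient f (δ⁻¹ • (x - y))`;
change of variables `integral_sub_right_eq_self`, `Measure.integral_comp_smul` (factor `δ⁴`,
`finrank = 4`); for balls write the set integral with an indicator
(`x ∈ ball (y + δ • z) (δ r) ↔ δ⁻¹ • (x - y) ∈ ball z r`).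
`levy`: take `f` from `S0_near`, `∫ f⁴ = 1`.  Let `T = {r > 0 | ∀ z, ∫_{ball z r} f⁴ ≤ 1/2}`.  It
contains small `r` (`f` is bounded and `vol (ball z r) = r⁴ vol (ball 0 1)`,
`Measure.addHaar_ball`), it is bounded above (a ball containing the support has mass one) and is an
initial segment of `(0, ∞)` (monotonicity of the set integral).  With `r₀ = sSup T`:
`r₀ / 2 ∈ T`, `2 r₀ ∉ T`, so some ball `ball z₀ (2 r₀)` has mass `> 1/2`.  Apply `scale_tst` with
`δ = r₀⁻¹`, `y = -(δ • z₀)`.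
-/

open MeasureTheory Filter Topology Metric
open scoped ContDiff RealInnerProductSpace ENNReal

noncomputable section
namespace CritSys

theorem Scale_int (F : E4 → ℝ) {δ : ℝ} (hδ : 0 < δ) (y : E4) :
    ∫ x, F (δ⁻¹ • (x - y)) = δ ^ 4 * ∫ x, F x := by
  rw [integral_sub_right_eq_self (fun x => F (δ⁻¹ • x)) y, Measure.integral_comp_inv_smul_of_nonneg
    volume F hδ.le]
  simp

theorem Scale_mem {δ : ℝ} (hδ : 0 < δ) (y z x : E4) (r : ℝ) :
    δ⁻¹ • (x - y) ∈ ball z r ↔ x ∈ ball (y + δ • z) (δ * r) := by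
  rw [mem_ball_iff_norm, mem_ball_iff_norm]
  have e : δ⁻¹ • (x - y) - z = δ⁻¹ • (x - (y + δ • z)) := by
    rw [← sub_sub, smul_sub δ⁻¹ (x - y), smul_smul, inv_mul_cancel₀ hδ.ne', one_smul]
  rw [e, norm_smul, Real.norm_eq_abs, abs_of_pos (inv_pos.2 hδ), inv_mul_lt_iff₀ hδ]

theorem scale_tst (f : Tst) {δ : ℝ} (hδ : 0 < δ) (y : E4) : ∃ g : Tst,
    (∀ r : ℝ, tsupport (f : E4 → ℝ) ⊆ ball 0 r → tsupport (g : E4 → ℝ) ⊆ ball y (δ * r)) ∧
    ‖ofT g‖ = ‖ofT f‖ ∧ ‖val (ofT g)‖ = ‖val (ofT f)‖ ∧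
    ∫ x, (g : E4 → ℝ) x ^ 2 = δ ^ 2 * ∫ x, (f : E4 → ℝ) x ^ 2 ∧
    ∀ (z : E4) (r : ℝ), ∫ x in ball (y + δ • z) (δ * r), (g : E4 → ℝ) x ^ 4 =
      ∫ x in ball z r, (f : E4 → ℝ) x ^ 4 := by
  obtain ⟨f, hf, hc⟩ := f
  let T : E4 ≃ₜ E4 := (Homeomorph.subRight y).trans (Homeomorph.smulOfNeZero δ⁻¹ (inv_pos.2 hδ).ne')
  have hT : ∀ x, T x = δ⁻¹ • (x - y) := fun _ => rfl
  have hs : ContDiff ℝ ∞ fun x : E4 => δ⁻¹ • (x - y) := (contDiff_id.sub contDiff_const).const_smul _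
  have hcs : HasCompactSupport fun x => δ⁻¹ * f (δ⁻¹ • (x - y)) :=
    (hc.comp_homeomorph T).mul_left
  have hd : δ⁻¹ ^ 4 * δ ^ 4 = 1 := by field_simp
  have h4 : ∫ x, (δ⁻¹ * f (δ⁻¹ • (x - y))) ^ 4 = ∫ x, f x ^ 4 := by
    simp only [mul_pow]
    rw [integral_const_mul, Scale_int (fun x => f x ^ 4) hδ, ← mul_assoc, hd, one_mul]
  refine ⟨⟨fun x => δ⁻¹ * f (δ⁻¹ • (x - y)), contDiff_const.mul (hf.comp hs), hcs⟩,
    fun r hr x hx => ?_, ?_, ?_, ?_, fun z r => ?_⟩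
  · have h1 : x ∈ tsupport (f ∘ T) := tsupport_mul_subset_right hx
    rw [tsupport_comp_eq_preimage f T] at h1
    have h2 := (Scale_mem hδ y 0 x r).1 (hr h1)
    simpa using h2
  · rw [← pow_left_inj₀ (norm_nonneg _) (norm_nonneg _) two_ne_zero, norm_sq_ofT, norm_sq_ofT]
    have e : ∀ x, ‖gradient (fun x => δ⁻¹ * f (δ⁻¹ • (x - y))) x‖ ^ 2 =
        δ⁻¹ ^ 4 * ‖gradient f (δ⁻¹ • (x - y))‖ ^ 2 := fun x => by
      have a1 : HasFDerivAt (fun x : E4 => δ⁻¹ • (x - y)) (δ⁻¹ • ContinuousLinearMap.id ℝ E4) x :=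
        ((hasFDerivAt_id (𝕜 := ℝ) x).sub_const y).const_smul δ⁻¹
      have a2 := (((hf.differentiable (by simp)) (δ⁻¹ • (x - y))).hasFDerivAt.comp x a1).const_mul δ⁻¹
      rw [norm_gradient, norm_gradient]
      have a3 := a2.fderiv
      simp only [Function.comp_def] at a3
      rw [a3, ContinuousLinearMap.comp_smul, ContinuousLinearMap.comp_id, norm_smul, norm_smul,
        Real.norm_eq_abs, abs_of_pos (inv_pos.2 hδ)]
      ring
    simp only [e]
    rw [integral_const_mul, Scale_int (fun x => ‖gradient f x‖ ^ 2) hδ, ← mul_assoc, hd, one_mul]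
  · rw [← pow_left_inj₀ (norm_nonneg _) (norm_nonneg _) four_ne_zero, norm_val_ofT, norm_val_ofT]
    exact h4
  · simp only [mul_pow]
    rw [integral_const_mul, Scale_int (fun x => f x ^ 2) hδ, ← mul_assoc]
    congr 1
    field_simp
  · rw [← integral_indicator measurableSet_ball, ← integral_indicator measurableSet_ball]
    have e : ∀ x, (ball (y + δ • z) (δ * r)).indicator
        (fun x => (δ⁻¹ * f (δ⁻¹ • (x - y))) ^ 4) x =
        δ⁻¹ ^ 4 * (ball z r).indicator (fun x => f x ^ 4) (δ⁻¹ • (x - y)) := fun x => by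
      by_cases hx : x ∈ ball (y + δ • z) (δ * r)
      · rw [Set.indicator_of_mem hx, Set.indicator_of_mem ((Scale_mem hδ y z x r).2 hx), mul_pow]
      · rw [Set.indicator_of_notMem hx,
          Set.indicator_of_notMem fun h => hx ((Scale_mem hδ y z x r).1 h), mul_zero]
    simp only [e]
    rw [integral_const_mul, Scale_int _ hδ, ← mul_assoc, hd, one_mul]

theorem levy {η : ℝ} (hη : 0 < η) : ∃ f : Tst, ‖val (ofT f)‖ = 1 ∧ ‖ofT f‖ ^ 2 ≤ S0 + η ∧
    1 / 2 < ∫ x in ball (0 : E4) 2, (f : E4 → ℝ) x ^ 4 ∧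
    ∀ z : E4, ∫ x in ball z (1 / 2), (f : E4 → ℝ) x ^ 4 ≤ 1 / 2 := by
  obtain ⟨f, h1, h2⟩ := S0_near hη
  have hcont : Continuous fun x => (f : E4 → ℝ) x ^ 4 := f.2.1.continuous.pow 4
  have hcs : HasCompactSupport fun x => (f : E4 → ℝ) x ^ 4 :=
    f.2.2.comp_left (g := fun a : ℝ => a ^ 4) (by simp)
  have hint : Integrable fun x => (f : E4 → ℝ) x ^ 4 := hcont.integrable_of_hasCompactSupport hcs
  have htot : ∫ x, (f : E4 → ℝ) x ^ 4 = 1 := by rw [← norm_val_ofT, h1, one_pow]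
  have hmono : ∀ (z : E4) {r r' : ℝ}, r ≤ r' → ∫ x in ball z r, (f : E4 → ℝ) x ^ 4 ≤
      ∫ x in ball z r', (f : E4 → ℝ) x ^ 4 := fun z r r' h =>
    setIntegral_mono_set hint.integrableOn (Eventually.of_forall fun x => by positivity)
      (ball_subset_ball h).eventuallyLE
  let T : Set ℝ := {r | 0 < r ∧ ∀ z : E4, ∫ x in ball z r, (f : E4 → ℝ) x ^ 4 ≤ 1 / 2}
  have hne : T.Nonempty := by
    obtain ⟨B, hB⟩ := hcont.bounded_above_of_compact_support hcs
    have hB0 : 0 ≤ B := (norm_nonneg _).trans (hB 0)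
    set V := (volume : Measure E4).real (ball 0 1) with hV
    have hV0 : 0 ≤ V := measureReal_nonneg
    set r := 1 / (2 * (B * V + 1)) with hr
    have hp : 0 < B * V + 1 := by positivity
    have hr0 : 0 < r := by positivity
    have hr1 : r ≤ 1 := by
      rw [hr, div_le_one (by positivity)]
      linarith only [hp, hB0, hV0, mul_nonneg hB0 hV0]
    refine ⟨r, hr0, fun z => ?_⟩
    have a1 := norm_setIntegral_le_of_norm_le_const (μ := (volume : Measure E4)) (s := ball z r)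
      (f := fun x => (f : E4 → ℝ) x ^ 4) (C := B) measure_ball_lt_top fun x _ => hB x
    have a2 : (volume : Measure E4).real (ball z r) = r ^ 4 * V := by
      rw [hV, Measure.real, Measure.real, Measure.addHaar_ball _ _ hr0.le, ENNReal.toReal_mul,
        ENNReal.toReal_ofReal (by positivity)]
      simp
    have a3 : r ^ 4 ≤ r := pow_le_of_le_one hr0.le hr1 four_ne_zero
    have a4 : B * V * r ≤ 1 / 2 := by
      rw [hr, mul_one_div, div_le_div_iff₀ (by positivity) two_pos]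
      linarith only []
    refine (le_abs_self _).trans (a1.trans ?_)
    rw [a2]
    linarith only [a4, a3, hB0, hV0, mul_le_mul_of_nonneg_left a3 (mul_nonneg hB0 hV0)]
  have hbd : BddAbove T := by
    obtain ⟨R, hR⟩ := hcs.isCompact.isBounded.subset_ball (0 : E4)
    refine ⟨R, fun r hr => ?_⟩
    by_contra h
    have a1 := (hmono 0 (not_le.1 h).le).trans (hr.2 0)
    rw [setIntegral_eq_integral_of_forall_compl_eq_zero fun x hx =>
      image_eq_zero_of_notMem_tsupport fun k => hx (hR k), htot] at a1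
    norm_num at a1
  have hpos : 0 < sSup T := by
    obtain ⟨r, hr⟩ := hne
    exact hr.1.trans_le (le_csSup hbd hr)
  obtain ⟨r1, hr1, hlt⟩ := exists_lt_of_lt_csSup hne (half_lt_self hpos)
  obtain ⟨z0, hz0⟩ : ∃ z0 : E4, 1 / 2 < ∫ x in ball z0 (2 * sSup T), (f : E4 → ℝ) x ^ 4 := by
    by_contra h
    push Not at h
    have := le_csSup hbd (show 2 * sSup T ∈ T from ⟨by linarith only [hpos], h⟩)
    linarith
  obtain ⟨g, -, g2, g3, -, g5⟩ := scale_tst f (inv_pos.2 hpos) (-((sSup T)⁻¹ • z0))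
  refine ⟨g, g3.trans h1, by rw [g2]; exact h2, ?_, fun z => ?_⟩
  · have := g5 z0 (2 * sSup T)
    rw [neg_add_cancel, show (sSup T)⁻¹ * (2 * sSup T) = 2 by field_simp] at this
    rwa [this]
  · have := g5 (z0 + sSup T • z) (sSup T / 2)
    rw [smul_add, smul_smul, inv_mul_cancel₀ hpos.ne', one_smul, neg_add_cancel_left,
      show (sSup T)⁻¹ * (sSup T / 2) = 1 / 2 by field_simp] at this
    rw [this]
    exact (hmono _ hlt.le).trans (hr1.2 _)

end CritSys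
end
end

-- merged part: Pool.Agent.Work.MP_80ee1d_an.Dich
section
/-!
No dichotomy for weakly null minimising sequences of the Sobolev quotient.

PLAN. Let `θ` be a `ContDiffBump y` with radii `ρ` and `2ρ`, `χ = sin (π θ / 2)`,
`ψ = cos (π θ / 2)`; both are multipliers (their gradients `(π/2) ψ ∇θ`, `-(π/2) χ ∇θ` are
continuous with compact support; `gradient_comp'`).  `dich_ims`: for `w, z` from `mul_D`,
pointwise `‖r ∇χ + χ ∇r‖² + ‖r ∇ψ + ψ ∇r‖² = ‖∇r‖² + r² (π/2)² ‖∇θ‖²`, and the last term integrates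
to `T4 r r F F`, `F = (π/2) ‖∇θ‖ ∈ L⁴`.  `dich_alg`: with `α² = ∫ χ⁴ r⁴`, `β² = ∫ ψ⁴ r⁴`,
`I = ∫ χ² ψ² r⁴` one has `α² + β² + 2 I = 1`.  Split the space into `ball y ρ` (`χ = 1, ψ = 0`), the
complement of `ball y (2ρ)` (`χ = 0`, `ψ = 1`) and the annulus `C`: `α² = A + a`, `β² = B + b`,
`I² ≤ a b` (Cauchy-Schwarz on `C`, or `T4_cs`), so `α² β² - I² ≥ A B`, and
`(α + β)² - 1 = 2 (α β - I) ≥ A B` because `α β + I ≤ 2`.  Finally
`S0 (α + β) ≤ ‖w‖² + ‖z‖² = ‖r n‖² + T4 r r F F → S0` (`S0_le`, `wnull_D`).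
-/

open MeasureTheory Filter Topology Metric
open scoped ContDiff RealInnerProductSpace ENNReal

noncomputable section
namespace CritSys

theorem dich_norm (g G : E4) (p q : ℝ) :
    ‖p • g + q • G‖ ^ 2 = p ^ 2 * ‖g‖ ^ 2 + 2 * (p * q) * ⟪g, G⟫ + q ^ 2 * ‖G‖ ^ 2 := by
  rw [norm_add_sq_real, norm_smul, norm_smul, inner_smul_left, inner_smul_right, mul_pow, mul_pow,
    Real.norm_eq_abs, Real.norm_eq_abs, sq_abs, sq_abs]
  simp only [conj_trivial]
  ring

theorem dich_mult (θ : Tst) {G : ℝ → ℝ} (hG : ContDiff ℝ ∞ G) (h1 : ∀ t, |G t| ≤ 1) {c : ℝ}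
    (h2 : ∀ t, |deriv G t| ≤ c) : Mult fun x => G ((θ : E4 → ℝ) x) := by
  have hs : ContDiff ℝ ∞ fun x => G ((θ : E4 → ℝ) x) := hG.comp θ.2.1
  refine ⟨hs, ⟨1, fun x => h1 _⟩, ?_⟩
  refine MemLp.of_le_mul (c := c) (tst_memLp_grad θ 4)
    (continuous_gradient hs).aestronglyMeasurable (Eventually.of_forall fun x => ?_)
  rw [gradient_comp' hG θ.2.1, norm_smul, Real.norm_eq_abs]
  exact mul_le_mul_of_nonneg_right (h2 _) (norm_nonneg _)

theorem dich_int (W Z : L4 (volume : Measure E4)) (p s q : ℝ) :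
    Integrable (fun x => p * (W x * W x * W x * W x) + s * (W x * W x * Z x * Z x) +
      q * (Z x * Z x * Z x * Z x)) ∧
    ∫ x, (p * (W x * W x * W x * W x) + s * (W x * W x * Z x * Z x) +
      q * (Z x * Z x * Z x * Z x)) = p * ‖W‖ ^ 4 + s * T4 W W Z Z + q * ‖Z‖ ^ 4 := by
  have i1 := (T4_integrable W W W W).const_mul p
  have i2 := (T4_integrable W W Z Z).const_mul s
  have i3 := (T4_integrable Z Z Z Z).const_mul q
  have i12 : Integrable (fun x => p * (W x * W x * W x * W x) + s * (W x * W x * Z x * Z x)) :=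
    i1.add i2
  refine ⟨i12.add i3, ?_⟩
  rw [integral_add i12 i3, integral_add i1 i2, integral_const_mul, integral_const_mul,
    integral_const_mul, ← T4_self, ← T4_self]
  rfl

theorem dich_alg {α β I A B : ℝ} (hI : 0 ≤ I) (hI' : I ≤ α * β)
    (hA : 0 ≤ A) (hB : 0 ≤ B) (h1 : α ^ 2 + 2 * I + β ^ 2 = 1)
    (h : ∀ p q : ℝ, p ^ 2 * A + q ^ 2 * B ≤ p ^ 2 * α ^ 2 - 2 * (p * q) * I + q ^ 2 * β ^ 2) :
    A * B ≤ (α + β) ^ 2 - 1 := by
  have e1 : A ≤ α ^ 2 := by simpa using h 1 0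
  have e2 : B ≤ β ^ 2 := by simpa using h 0 1
  have e3 := h β α
  have e4 : A * B ≤ β ^ 2 * A := by linarith only [hA, e2, mul_nonneg_of_nonpos_of_nonpos (Mathlib.Tactic.Linarith.sub_nonpos_of_le hA) (Mathlib.Tactic.Linarith.sub_nonpos_of_le e2)]
  have e5 : A * B ≤ α ^ 2 * B := by linarith only [hB, e1, mul_nonneg_of_nonpos_of_nonpos (Mathlib.Tactic.Linarith.sub_nonpos_of_le hB) (Mathlib.Tactic.Linarith.sub_nonpos_of_le e1)]
  have e6 : α * β ≤ 1 := by linarith only [hI, h1, sq_nonneg (α - β), sq_nonneg (α - β)]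
  have e7 : α * β * (α * β - I) ≤ 1 * (α * β - I) :=
    mul_le_mul_of_nonneg_right e6 (sub_nonneg.2 hI')
  linarith only [hI', h1, e3, e4, e5, e7]

theorem dich_split (y : E4) {ρ : ℝ} (hρ : 0 < ρ) : ∃ F : L4 (volume : Measure E4), ∀ r : D,
    ‖val r‖ = 1 → ∃ w z : D, ‖w‖ ^ 2 + ‖z‖ ^ 2 = ‖r‖ ^ 2 + T4 (val r) (val r) F F ∧
      (∫ x in ball y ρ, val r x ^ 4) * (∫ x in (ball y (2 * ρ))ᶜ, val r x ^ 4) ≤
        (‖val w‖ ^ 2 + ‖val z‖ ^ 2) ^ 2 - 1 := by
  let b : ContDiffBump y := ⟨ρ, 2 * ρ, hρ, by linarith⟩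
  let θ : Tst := ⟨b, b.contDiff, b.hasCompactSupport⟩
  set c : ℝ := Real.pi / 2 with hc
  have hc0 : 0 ≤ c := by positivity
  have hS : ContDiff ℝ ∞ fun t : ℝ => Real.sin (c * t) := by fun_prop
  have hC : ContDiff ℝ ∞ fun t : ℝ => Real.cos (c * t) := by fun_prop
  have dS : ∀ t, deriv (fun t : ℝ => Real.sin (c * t)) t = c * Real.cos (c * t) := fun t => by
    simp [mul_comm]
  have dC : ∀ t, deriv (fun t : ℝ => Real.cos (c * t)) t = -(c * Real.sin (c * t)) := fun t => by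
    simp [mul_comm]
  have mS : Mult fun x => Real.sin (c * (θ : E4 → ℝ) x) :=
    dich_mult θ hS (fun t => Real.abs_sin_le_one _) (c := c) fun t => by
      rw [dS, abs_mul, abs_of_nonneg hc0]
      exact mul_le_of_le_one_right hc0 (Real.abs_cos_le_one _)
  have mC : Mult fun x => Real.cos (c * (θ : E4 → ℝ) x) :=
    dich_mult θ hC (fun t => Real.abs_cos_le_one _) (c := c) fun t => by
      rw [dC, abs_neg, abs_mul, abs_of_nonneg hc0]
      exact mul_le_of_le_one_right hc0 (Real.abs_sin_le_one _)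
  have hF : MemLp (fun x => c * ‖gradient (θ : E4 → ℝ) x‖) 4 volume :=
    (tst_memLp_grad θ 4).norm.const_mul c
  refine ⟨hF.toLp _, fun r hr => ?_⟩
  obtain ⟨w, -, hw1, hw2⟩ := mul_D r mS (Ω := Set.univ) (Or.inl (mem_H0_univ r))
  obtain ⟨z, -, hz1, hz2⟩ := mul_D r mC (Ω := Set.univ) (Or.inl (mem_H0_univ r))
  have ig : ∀ u : D, Integrable (fun x => ‖grd u x‖ ^ 2) := fun u =>
    (memLp_two_iff_integrable_sq_norm (grd_memLp u).1).1 (grd_memLp u)
  refine ⟨w, z, ?_, ?_⟩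
  · rw [norm_sq_D, norm_sq_D, norm_sq_D, T4, ← integral_add (ig w) (ig z),
      ← integral_add (ig r) (T4_integrable _ _ _ _)]
    refine integral_congr_ae ?_
    filter_upwards [hw2, hz2, hF.coeFn_toLp] with x e1 e2 e3
    rw [e1, e2, e3, gradient_comp' hS θ.2.1, gradient_comp' hC θ.2.1, dS, dC, smul_smul, smul_smul,
      dich_norm, dich_norm]
    linear_combination (‖grd r x‖ ^ 2 + val r x ^ 2 * c ^ 2 * ‖gradient (θ : E4 → ℝ) x‖ ^ 2) *
      Real.sin_sq_add_cos_sq (c * (θ : E4 → ℝ) x)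
  · have i4 : Integrable (fun x => val r x ^ 4) := by
      refine (T4_integrable (val r) (val r) (val r) (val r)).congr (Eventually.of_forall fun x => ?_)
      ring
    have p4 : ∀ x, 0 ≤ val r x ^ 4 := fun x => by positivity
    refine dich_alg (I := T4 (val w) (val w) (val z) (val z)) (T4_sq_nonneg _ _)
      ?_ (integral_nonneg p4) (integral_nonneg p4) ?_ fun p q => ?_
    · have := (le_abs_self _).trans (T4_abs_le (val w) (val w) (val z) (val z))
      linarith only [this]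
    · have h1 := (dich_int (val w) (val z) 1 2 1).2
      have h2 := norm_val_pow r
      rw [hr] at h2
      have h3 : ∫ x, (1 * (val w x * val w x * val w x * val w x) +
          2 * (val w x * val w x * val z x * val z x) +
          1 * (val z x * val z x * val z x * val z x)) = ∫ x, val r x ^ 4 := by
        refine integral_congr_ae ?_
        filter_upwards [hw1, hz1] with x e1 e2
        rw [e1, e2]
        linear_combination (val r x ^ 4 * (Real.sin (c * (θ : E4 → ℝ) x) ^ 2 +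
          Real.cos (c * (θ : E4 → ℝ) x) ^ 2 + 1)) * Real.sin_sq_add_cos_sq (c * (θ : E4 → ℝ) x)
      linarith only [h1, h2, h3]
    · obtain ⟨h0, h1⟩ := dich_int (val w) (val z) (p ^ 2) (-(2 * (p * q))) (q ^ 2)
      have m1 : MeasurableSet (ball y ρ) := measurableSet_ball
      have m2 : MeasurableSet (ball y (2 * ρ))ᶜ := measurableSet_ball.compl
      have j1 := (i4.indicator m1).const_mul (p ^ 2)
      have j2 := (i4.indicator m2).const_mul (q ^ 2)
      have h2 := integral_mono_ae (j1.add j2) h0 (by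
        filter_upwards [hw1, hz1] with x e1 e2
        simp only [Pi.add_apply]
        rw [e1, e2]
        by_cases hx : x ∈ ball y ρ
        · have hx' : x ∉ (ball y (2 * ρ))ᶜ := fun h => h (ball_subset_ball (by linarith only [hρ]) hx)
          have e : (θ : E4 → ℝ) x = 1 := b.one_of_mem_closedBall (ball_subset_closedBall hx)
          rw [Set.indicator_of_mem hx, Set.indicator_of_notMem hx', e, mul_one, hc,
            Real.sin_pi_div_two, Real.cos_pi_div_two]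
          exact le_of_eq (by ring)
        · rw [Set.indicator_of_notMem hx]
          by_cases hx' : x ∈ (ball y (2 * ρ))ᶜ
          · have e : (θ : E4 → ℝ) x = 0 := b.zero_of_le_dist (not_lt.1 hx')
            rw [Set.indicator_of_mem hx', e, mul_zero c, Real.sin_zero, Real.cos_zero]
            exact le_of_eq (by ring)
          · rw [Set.indicator_of_notMem hx']
            have := sq_nonneg ((p * Real.sin (c * (θ : E4 → ℝ) x) ^ 2 -
              q * Real.cos (c * (θ : E4 → ℝ) x) ^ 2) * val r x ^ 2)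
            nlinarith)
      rw [h1] at h2
      simp only [Pi.add_apply] at h2
      rw [integral_add j1 j2, integral_const_mul, integral_const_mul, integral_indicator m1,
        integral_indicator m2] at h2
      linarith only [h2]

theorem dichotomy {r : ℕ → D} (hw : ∀ z, Tendsto (fun n => ⟪r n, z⟫) atTop (𝓝 0))
    (h1 : ∀ n, ‖val (r n)‖ = 1) (h2 : Tendsto (fun n => ‖r n‖ ^ 2) atTop (𝓝 S0)) (y : E4)
    {ρ : ℝ} (hρ : 0 < ρ) :
    Tendsto (fun n => (∫ x in ball y ρ, val (r n) x ^ 4) *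
      ∫ x in (ball y (2 * ρ))ᶜ, val (r n) x ^ 4) atTop (𝓝 0) := by
  obtain ⟨F, hF⟩ := dich_split y hρ
  have hb : ∃ c : ℝ, ∀ n, ‖r n‖ ≤ c := by
    obtain ⟨c, hc⟩ := h2.bddAbove_range
    refine ⟨c + 1, fun n => ?_⟩
    have := hc (Set.mem_range_self n)
    linarith only [this, sq_nonneg (‖r n‖ - 1), norm_nonneg (r n), sq_nonneg (‖r n‖ - (1 : ℝ)), sq_nonneg ‖r n‖]
  have h3 := (wnull_D hb hw).2 F
  have hS := S0_pos
  have h4 : Tendsto (fun n => ((‖r n‖ ^ 2 + T4 (val (r n)) (val (r n)) F F) / S0) ^ 2 - 1) atTop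
      (𝓝 0) := by
    have := (((h2.add h3).div_const S0).pow 2).sub_const 1
    rwa [add_zero, div_self hS.ne', one_pow, sub_self] at this
  have p4 : ∀ n x, 0 ≤ val (r n) x ^ 4 := fun n x => by positivity
  refine squeeze_zero (fun n => mul_nonneg (integral_nonneg (p4 n)) (integral_nonneg (p4 n)))
    (fun n => ?_) h4
  obtain ⟨w, z, e1, e2⟩ := hF (r n) (h1 n)
  refine e2.trans (sub_le_sub_right (pow_le_pow_left₀ (by positivity) ?_ 2) 1)
  rw [le_div_iff₀ hS, ← e1]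
  linarith [S0_le w, S0_le z]

end CritSys
end
end

-- merged part: Pool.Agent.Work.MP_80ee1d_an.Extr
section
/-!
Existence of an extremal function for the Sobolev inequality.

PLAN. `extr_ne`: cover `closedBall 0 2` by finitely many balls `ball y (1/8)`, `y ∈ t`
(`IsCompact.elim_nhds_subcover` or `finite_cover_balls_of_compact`).  For each `n` one of them has
mass `≥ 1 / (2 card t)`; the mass outside `ball y (1/4)` is at least `1 - 1/2` for every `y` and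
`n`.  So the sum over `y ∈ t` of the products in `dichotomy` (`ρ = 1/8`) is at least `1/4` for all
`n`, but it tends to zero.
`exists_extremal`: `f n` from `levy (1/(n+1))`, `u n = ofT (f n)`, `‖u n‖² → S0` (`S0_le`).
`weak_subseq` gives `U`, `r n = u (φ n) - U`.  `U ≠ 0` by `extr_ne`, so `val U ≠ 0` (`val_inj`).
`‖r n‖² → S0 - ‖U‖²`; along a further subsequence `‖val (r n)‖ → p`; `T4_split` with `wnull_D` gives
`1 = ‖val U‖⁴ + p⁴`, while `S0 ≥ S0 ‖val U‖² + S0 p²`.  Hence `p = 0`, `‖val U‖ = 1`, `‖U‖² ≤ S0`.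
`extremal_eq`: `ε ↦ ‖U + ε ψ‖⁴ - S0² T4 (..)(..)(..)(..)` is a non-negative polynomial vanishing at
`0` (`S0_le`, `T4_self`), its linear coefficient is `4 S0 ⟪U, ψ⟫ - 4 S0² T4 U U U ψ`.
-/

open MeasureTheory Filter Topology Metric
open scoped ContDiff RealInnerProductSpace ENNReal

noncomputable section
namespace CritSys

theorem extr_ne {r : ℕ → D} (hw : ∀ z, Tendsto (fun n => ⟪r n, z⟫) atTop (𝓝 0))
    (h1 : ∀ n, ‖val (r n)‖ = 1) (h2 : Tendsto (fun n => ‖r n‖ ^ 2) atTop (𝓝 S0))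
    (h3 : ∀ n, 1 / 2 < ∫ x in ball (0 : E4) 2, val (r n) x ^ 4)
    (h4 : ∀ n (z : E4), ∫ x in ball z (1 / 2), val (r n) x ^ 4 ≤ 1 / 2) : False := by
  obtain ⟨t, -, ht, hcov⟩ := finite_cover_balls_of_compact (isCompact_closedBall (0 : E4) 2)
    (show (0 : ℝ) < 1 / 8 by norm_num)
  lift t to Finset E4 using ht
  have hi : ∀ n, Integrable fun x => val (r n) x ^ 4 := fun n =>
    (T4_integrable (val (r n)) (val (r n)) (val (r n)) (val (r n))).congr
      (Eventually.of_forall fun x => by ring)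
  have h0 : ∀ n x, 0 ≤ val (r n) x ^ 4 := fun n x => by positivity
  have hsum := tendsto_finsetSum t fun y _ => dichotomy hw h1 h2 y (show (0 : ℝ) < 1 / 8 by norm_num)
  rw [Finset.sum_const_zero] at hsum
  obtain ⟨n, hn⟩ := (hsum.eventually (gt_mem_nhds (show (0 : ℝ) < 1 / 4 by norm_num))).exists
  have k1 : ∀ y : E4, 1 / 2 ≤ ∫ x in (ball y (2 * (1 / 8)))ᶜ, val (r n) x ^ 4 := by
    intro y
    have e1 := integral_add_compl (measurableSet_ball (x := y) (ε := 2 * (1 / 8))) (hi n)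
    have e2 : ∫ x in ball y (2 * (1 / 8)), val (r n) x ^ 4 ≤
        ∫ x in ball y (1 / 2), val (r n) x ^ 4 :=
      setIntegral_mono_set (hi n).integrableOn (Eventually.of_forall (h0 n))
        (ball_subset_ball (by norm_num)).eventuallyLE
    rw [← norm_val_pow, h1, one_pow] at e1
    linarith only [e1, e2, h4, h4 n y]
  have k2 : ∫ x in ball (0 : E4) 2, val (r n) x ^ 4 ≤
      ∑ y ∈ t, ∫ x in ball y (1 / 8), val (r n) x ^ 4 := by
    simp only [← integral_indicator measurableSet_ball]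
    rw [← integral_finsetSum _ fun y _ => (hi n).indicator measurableSet_ball]
    refine integral_mono ((hi n).indicator measurableSet_ball)
      (integrable_finsetSum _ fun y _ => (hi n).indicator measurableSet_ball) fun x => ?_
    have hnn : ∀ y ∈ t, 0 ≤ (ball y (1 / 8)).indicator (fun x => val (r n) x ^ 4) x :=
      fun y _ => Set.indicator_nonneg (fun x _ => h0 n x) x
    by_cases hx : x ∈ ball (0 : E4) 2
    · obtain ⟨y, hy, hxy⟩ := Set.mem_iUnion₂.1 (hcov (ball_subset_closedBall hx))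
      refine le_trans (le_of_eq ?_) (Finset.single_le_sum hnn hy)
      rw [Set.indicator_of_mem hx, Set.indicator_of_mem hxy]
    · rw [Set.indicator_of_notMem hx]
      exact Finset.sum_nonneg hnn
  have k3 : ∑ y ∈ t, (∫ x in ball y (1 / 8), val (r n) x ^ 4) * (1 / 2) ≤ _ :=
    Finset.sum_le_sum fun y _ => mul_le_mul_of_nonneg_left (k1 y) (integral_nonneg (h0 n))
  rw [← Finset.sum_mul] at k3
  linarith only [hn, k2, k3, h3, h3 n]

theorem exists_extremal : ∃ U : D, ‖val U‖ = 1 ∧ ‖U‖ ^ 2 = S0 := by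
  choose f f1 f2 f3 f4 using fun n : ℕ => levy (Nat.one_div_pos_of_nat (n := n))
  have hS := S0_pos
  have hlow : ∀ n, S0 ≤ ‖ofT (f n)‖ ^ 2 := fun n => by simpa [f1] using S0_le (ofT (f n))
  have hlim : Tendsto (fun n => ‖ofT (f n)‖ ^ 2) atTop (𝓝 S0) :=
    tendsto_of_tendsto_of_tendsto_of_le_of_le tendsto_const_nhds
      (by simpa using tendsto_one_div_add_atTop_nhds_zero_nat.const_add S0) hlow f2
  have hb : ∀ n, ‖ofT (f n)‖ ≤ S0 + 2 := fun n => by
    have : 1 / ((n : ℝ) + 1) ≤ 1 := div_le_self zero_le_one (by linarith [n.cast_nonneg (α := ℝ)])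
    linarith only [hS, this, f2, f2 n, sq_nonneg (‖ofT (f n)‖ - 1), sq_nonneg (‖ofT (f n)‖ - (1 : ℝ))]
  obtain ⟨φ, U, hφ, hw⟩ := weak_subseq (fun n => ofT (f n)) _ hb
  have hlim' := hlim.comp hφ.tendsto_atTop
  have hU : U ≠ 0 := by
    rintro rfl
    refine extr_ne (r := fun n => ofT (f (φ n))) (by simpa using hw) (fun n => f1 _) hlim'
      (fun n => ?_) fun n z => ?_
    · refine (f3 (φ n)).trans_eq (integral_congr_ae (ae_restrict_of_ae ?_))
      filter_upwards [val_ofT (f (φ n))] with x hx using by rw [hx]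
    · refine le_of_eq_of_le (integral_congr_ae (ae_restrict_of_ae ?_)) (f4 (φ n) z)
      filter_upwards [val_ofT (f (φ n))] with x hx using by rw [hx]
  have hV : 0 < ‖val U‖ := norm_pos_iff.2 fun h => hU (val_inj h)
  set r : ℕ → D := fun n => ofT (f (φ n)) - U with hr
  have hN : Null fun n => val (r n) :=
    wnull_D ⟨S0 + 2 + ‖U‖, fun n => (norm_sub_le _ _).trans (add_le_add_left (hb _) _)⟩ hw
  have hrn : Tendsto (fun n => ‖r n‖ ^ 2) atTop (𝓝 (S0 - ‖U‖ ^ 2)) := by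
    have := (hlim'.sub ((hw U).const_mul 2)).sub_const (‖U‖ ^ 2)
    rw [mul_zero, sub_zero] at this
    refine this.congr fun n => ?_
    simp only [hr, Function.comp, norm_sub_sq_real, inner_sub_left, real_inner_self_eq_norm_sq]
    ring
  obtain ⟨c, hc⟩ := hN.1
  obtain ⟨p, -, ψ, hψ, hp⟩ := tendsto_subseq_of_bounded (isBounded_Icc 0 c)
    (x := fun n => ‖val (r n)‖) fun n => ⟨norm_nonneg _, hc n⟩
  have hN' : Null fun n => val (r (ψ n)) :=
    ⟨⟨c, fun n => hc _⟩, fun g => (hN.2 g).comp hψ.tendsto_atTop⟩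
  have k1 := T4_split hN' hN' (val U) (val U) (ρ := p ^ 4)
    (by simp only [T4_self]; exact hp.pow 4)
  have k2 : ‖val U‖ ^ 4 + p ^ 4 = 1 := by
    rw [T4_self] at k1
    refine tendsto_nhds_unique k1 (tendsto_const_nhds.congr fun n => ?_)
    rw [T4_self, ← map_add, hr, add_sub_cancel, f1, one_pow]
  have k3 : S0 * p ^ 2 ≤ S0 - ‖U‖ ^ 2 :=
    le_of_tendsto_of_tendsto' ((hp.pow 2).const_mul S0) (hrn.comp hψ.tendsto_atTop)
      fun n => S0_le _
  have k4 := S0_le U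
  have k5 : ‖val U‖ ^ 2 + p ^ 2 ≤ 1 := le_of_mul_le_mul_left (by linarith) hS
  have k6 : ‖val U‖ ^ 2 * p ^ 2 ≤ 0 := by
    linarith only [k2, hV, k5, pow_le_one₀ (n := 2) (by positivity) k5]
  have k7 : p ^ 2 = 0 := le_antisymm
    (nonpos_of_mul_nonpos_right k6 (pow_pos hV 2) |> fun h => h) (sq_nonneg _)
  have k8 : ‖val U‖ = 1 := by
    rw [show p ^ 4 = (p ^ 2) ^ 2 by ring, k7] at k2
    exact (pow_eq_one_iff_of_nonneg hV.le (by norm_num : 4 ≠ 0)).1 (by linarith only [k2])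
  rw [k8] at k4
  rw [k7] at k3
  exact ⟨U, k8, by linarith only [k4, k3]⟩

theorem extremal_eq {U : D} (h1 : ‖val U‖ = 1) (h2 : ‖U‖ ^ 2 = S0) (ψ : D) :
    ⟪U, ψ⟫ = S0 * T4 (val U) (val U) (val U) (val ψ) := by
  have hS := S0_pos
  have d1 : HasDerivAt (fun ε : ℝ => U + ε • ψ) ψ 0 := by
    simpa using ((hasDerivAt_id (0 : ℝ)).smul_const ψ).const_add U
  have d2 : HasDerivAt (fun ε : ℝ => ‖U + ε • ψ‖ ^ 2) (2 * ⟪U, ψ⟫) 0 := by
    simpa using d1.norm_sq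
  set a := val U
  set b := val ψ
  have e : ∀ ε : ℝ, ‖val (U + ε • ψ)‖ ^ 4 = T4 a a a a + ε * (4 * T4 a a a b +
      ε * (6 * T4 a a b b + ε * (4 * T4 a b b b + ε * T4 b b b b))) := by
    intro ε
    rw [← T4_self, map_add, map_smul]
    simp only [T4_add1, T4_add2, T4_add3, T4_add4, T4_smul1, T4_smul2, T4_smul3, T4_smul4]
    rw [T4_swap34 a a b a, T4_swap24 a b a a, T4_swap14 b a a a, T4_swap23 a b a b,
      T4_swap24 a b b a, T4_swap34 a a b b, T4_swap13 b a a b, T4_swap14 b a b a,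
      T4_pairs b b a a, T4_swap12 b a b b, T4_swap13 b b a b, T4_swap14 b b b a]
    ring
  have d3 : HasDerivAt (fun ε : ℝ => ‖val (U + ε • ψ)‖ ^ 4) (4 * T4 a a a b) 0 := by
    rw [funext e]
    have hc : DifferentiableAt ℝ (fun ε : ℝ => 4 * T4 a a a b +
      ε * (6 * T4 a a b b + ε * (4 * T4 a b b b + ε * T4 b b b b))) 0 := by fun_prop
    simpa using ((hasDerivAt_id (0 : ℝ)).mul hc.hasDerivAt).const_add (T4 a a a a)
  have d4 := (d2.fun_pow 2).sub (d3.const_mul (S0 ^ 2))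
  have hmin : IsLocalMin (fun ε : ℝ => (‖U + ε • ψ‖ ^ 2) ^ 2 - S0 ^ 2 * ‖val (U + ε • ψ)‖ ^ 4) 0 := by
    refine Eventually.of_forall fun ε => ?_
    have := pow_le_pow_left₀ (by positivity) (S0_le (U + ε • ψ)) 2
    simp only [zero_smul, add_zero, h2]
    rw [show ‖val U‖ = 1 from h1]
    linarith only [this]
  have := hmin.hasDerivAt_eq_zero d4
  simp only [zero_smul, add_zero, h2] at this
  refine mul_left_cancel₀ hS.ne' ?_
  norm_num at this
  linarith only [this]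

end CritSys
end
end
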