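import Mathlib

/-!
Definitions used in the statements: the space `H¹₀(Ω)` for `Ω ⊆ ℝ⁴`, the critical two-component
system, its Nehari set and positive ground states, and the scalar Brezis-Nirenberg problem.
-/

open MeasureTheory Filter Topology
open scoped ContDiff RealInnerProductSpace

noncomputable section
namespace CritSys

/-- Euclidean four-space. -/
abbrev E4 : Type := EuclideanSpace ℝ (Fin 4)

/-- Test functions: smooth, with compact support contained in `Ω`. -/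
def IsTest (Ω : Set E4) (φ : E4 → ℝ) : Prop :=
  ContDiff ℝ ∞ φ ∧ HasCompactSupport φ ∧ tsupport φ ⊆ Ω

/-- An element of `H¹₀(Ω)`: a square integrable function with a square integrable vector field
(its weak gradient) that are the limits in `L²(Ω)` of test functions and of their gradients. -/
structure H01 (Ω : Set E4) : Type where
  val : E4 → ℝ
  grad : E4 → E4
  val_mem : MemLp val 2 (volume.restrict Ω)
  grad_mem : MemLp grad 2 (volume.restrict Ω)
  approx : ∃ φ : ℕ → E4 → ℝ, (∀ n, IsTest Ω (φ n)) ∧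
    Tendsto (fun n => ∫ x in Ω, (φ n x - val x) ^ 2) atTop (𝓝 0) ∧
    Tendsto (fun n => ∫ x in Ω, ‖gradient (φ n) x - grad x‖ ^ 2) atTop (𝓝 0)

variable {Ω : Set E4}

/-- `u ≠ 0` in `H¹₀(Ω)`. -/
def NonZero (u : H01 Ω) : Prop := ¬ (∀ᵐ x ∂(volume.restrict Ω), u.val x = 0)

/-- `u > 0` almost everywhere in `Ω`. -/
def IsPos (u : H01 Ω) : Prop := ∀ᵐ x ∂(volume.restrict Ω), 0 < u.val x

/-- `∫ (|∇u|² + l u²)`. -/
def quad (l : ℝ) (u : H01 Ω) : ℝ := ∫ x in Ω, (‖u.grad x‖ ^ 2 + l * u.val x ^ 2)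

/-- The first Dirichlet eigenvalue of `-Δ` on `Ω`, as the infimum of the Rayleigh quotient. -/
def lam1 (Ω : Set E4) : ℝ :=
  sInf {r | ∃ u : H01 Ω, ∫ x in Ω, u.val x ^ 2 = 1 ∧ r = ∫ x in Ω, ‖u.grad x‖ ^ 2}

/-- `u` is a weak solution of `-Δu + l u = m u³ + β u v²`. -/
def SolEq (l m β : ℝ) (u v : H01 Ω) : Prop :=
  ∀ φ, IsTest Ω φ → ∫ x in Ω, (⟪u.grad x, gradient φ x⟫ + l * u.val x * φ x) =
    ∫ x in Ω, (m * u.val x ^ 3 + β * u.val x * v.val x ^ 2) * φ x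

/-- The energy `E_β(u, v)`. -/
def energy (l1 l2 m1 m2 β : ℝ) (u v : H01 Ω) : ℝ :=
  1 / 2 * (quad l1 u + quad l2 v) -
    1 / 4 * ∫ x in Ω, (m1 * u.val x ^ 4 + 2 * β * u.val x ^ 2 * v.val x ^ 2 + m2 * v.val x ^ 4)

/-- Membership in the Nehari set `N_β`. -/
def InNehari (l1 l2 m1 m2 β : ℝ) (u v : H01 Ω) : Prop :=
  NonZero u ∧ NonZero v ∧
    quad l1 u = ∫ x in Ω, (m1 * u.val x ^ 4 + β * u.val x ^ 2 * v.val x ^ 2) ∧
    quad l2 v = ∫ x in Ω, (m2 * v.val x ^ 4 + β * u.val x ^ 2 * v.val x ^ 2)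

/-- `A_β`, the infimum of the energy on `N_β`. -/
def groundLevel (Ω : Set E4) (l1 l2 m1 m2 β : ℝ) : ℝ :=
  sInf {e | ∃ u v : H01 Ω, InNehari l1 l2 m1 m2 β u v ∧ e = energy l1 l2 m1 m2 β u v}

/-- The system has a positive ground state solution. -/
def HasGroundState (Ω : Set E4) (l1 l2 m1 m2 β : ℝ) : Prop :=
  ∃ u v : H01 Ω, SolEq l1 m1 β u v ∧ SolEq l2 m2 β v u ∧ IsPos u ∧ IsPos v ∧
    energy l1 l2 m1 m2 β u v = groundLevel Ω l1 l2 m1 m2 β

/-- The energy of the scalar problem `-Δw + l w = m w³`. -/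
def energy1 (l m : ℝ) (w : H01 Ω) : ℝ := 1 / 2 * quad l w - 1 / 4 * ∫ x in Ω, m * w.val x ^ 4

/-- The least energy of the scalar problem: infimum of its energy on its Nehari set. -/
def level1 (Ω : Set E4) (l m : ℝ) : ℝ :=
  sInf {e | ∃ w : H01 Ω, NonZero w ∧ quad l w = ∫ x in Ω, m * w.val x ^ 4 ∧ e = energy1 l m w}

/-- `w` is a positive weak solution of `-Δw + l w = m w³`. -/
def PosSol1 (l m : ℝ) (w : H01 Ω) : Prop := SolEq l m 0 w w ∧ IsPos w

/-- The threshold `inf ∫ (|∇v|² + l' v²) / ∫ w² v²` over all `v ≠ 0` and all positive least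
energy solutions `w` of `-Δw + l w = m w³`. -/
def betaHat (Ω : Set E4) (l m l' : ℝ) : ℝ :=
  sInf {r | ∃ w v : H01 Ω, PosSol1 l m w ∧ energy1 l m w = level1 Ω l m ∧ NonZero v ∧
    r = quad l' v / ∫ x in Ω, w.val x ^ 2 * v.val x ^ 2}

end CritSys
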