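import Pool.Agent.Work.MP_80ee1d_an.Ctx
import Pool.Agent.Work.MP_80ee1d_an.Stmt

-- merged part: Pool.Agent.Work.MP_80ee1d_an.BasicA
section
/-!
Elementary facts on the forms attached to a context.

PLAN. Everything is unfolding plus the lemmas of `T4.lean` (`map_add`, `map_smul` for `C.val`).
`Lam_pos`: `M u u ≤ ‖1‖² ‖val u‖² ≤ ‖1‖² ‖u‖² / S`, so `poin_opt` gives `S ≤ (Λ + η) ‖1‖²` for all
`η > 0`.  `q_ratio`: the difference of the two sides is `(l2 - l1) (‖a‖² - Λ M a a)`.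
Derivatives: expand into a polynomial in `ε`.  `exists_abs`: field `abs`, `T4_abs_abs`, swaps, `inj`.
`pos_of_eqn`: field `smp`, since `⟪u,ψ⟫ = -l M u ψ + m T u u u ψ + β T v v u ψ ≥ 0`.
`picone_eqn`: field `picone` with `c₀ = -l`, `c₁ = m`, `c₂ = β`.  `least_quot`: rescale `z` to the
scalar Nehari set with `t² = q z / (m P z)`.  `exists_phi`: field `bn` with `l = max l1 l2`,
normalise (`val φ ≠ 0` because `q l φ ≥ 0`), `σ = q (max l1 l2) φ`.
`exists_osc`: field `osc`, `|M h h| ≤ ‖1‖² η²`, `R h w ≤ η² ‖val w‖²`.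
-/

open MeasureTheory Filter Topology
open scoped RealInnerProductSpace

noncomputable section
namespace CritSys
namespace Ctx

variable {X : Type} [MeasurableSpace X] {H : Type} [NormedAddCommGroup H] [InnerProductSpace ℝ H]
  {μ : Measure X} [IsFiniteMeasure μ] (C : Ctx H μ)

theorem T_swap12 (a b c d : H) : C.T a b c d = C.T b a c d := T4_swap12 _ _ _ _
theorem T_swap23 (a b c d : H) : C.T a b c d = C.T a c b d := T4_swap23 _ _ _ _
theorem T_swap34 (a b c d : H) : C.T a b c d = C.T a b d c := T4_swap34 _ _ _ _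
theorem T_swap13 (a b c d : H) : C.T a b c d = C.T c b a d := T4_swap13 _ _ _ _
theorem T_swap14 (a b c d : H) : C.T a b c d = C.T d b c a := T4_swap14 _ _ _ _
theorem T_swap24 (a b c d : H) : C.T a b c d = C.T a d c b := T4_swap24 _ _ _ _
theorem T_pairs (a b c d : H) : C.T a b c d = C.T c d a b := T4_pairs _ _ _ _

theorem T_add1 (a a' b c d : H) : C.T (a + a') b c d = C.T a b c d + C.T a' b c d := by
  simp only [T, map_add, T4_add1]
theorem T_add2 (a b b' c d : H) : C.T a (b + b') c d = C.T a b c d + C.T a b' c d := by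
  simp only [T, map_add, T4_add2]
theorem T_add3 (a b c c' d : H) : C.T a b (c + c') d = C.T a b c d + C.T a b c' d := by
  simp only [T, map_add, T4_add3]
theorem T_add4 (a b c d d' : H) : C.T a b c (d + d') = C.T a b c d + C.T a b c d' := by
  simp only [T, map_add, T4_add4]
theorem T_sub1 (a a' b c d : H) : C.T (a - a') b c d = C.T a b c d - C.T a' b c d := by
  simp only [T, map_sub, T4_sub1]
theorem T_sub2 (a b b' c d : H) : C.T a (b - b') c d = C.T a b c d - C.T a b' c d := by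
  simp only [T, map_sub, T4_sub2]
theorem T_sub3 (a b c c' d : H) : C.T a b (c - c') d = C.T a b c d - C.T a b c' d := by
  simp only [T, map_sub, T4_sub3]
theorem T_sub4 (a b c d d' : H) : C.T a b c (d - d') = C.T a b c d - C.T a b c d' := by
  simp only [T, map_sub, T4_sub4]
theorem T_smul1 (t : ℝ) (a b c d : H) : C.T (t • a) b c d = t * C.T a b c d := by
  simp only [T, map_smul, T4_smul1]
theorem T_smul2 (t : ℝ) (a b c d : H) : C.T a (t • b) c d = t * C.T a b c d := by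
  simp only [T, map_smul, T4_smul2]
theorem T_smul3 (t : ℝ) (a b c d : H) : C.T a b (t • c) d = t * C.T a b c d := by
  simp only [T, map_smul, T4_smul3]
theorem T_smul4 (t : ℝ) (a b c d : H) : C.T a b c (t • d) = t * C.T a b c d := by
  simp only [T, map_smul, T4_smul4]

theorem T_abs_le (a b c d : H) :
    |C.T a b c d| ≤ ‖C.val a‖ * ‖C.val b‖ * ‖C.val c‖ * ‖C.val d‖ := T4_abs_le _ _ _ _

theorem M_comm (a b : H) : C.M a b = C.M b a := T4_swap34 _ _ _ _
theorem M_add1 (a a' b : H) : C.M (a + a') b = C.M a b + C.M a' b := by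
  simp only [M, map_add, T4_add3]
theorem M_add2 (a b b' : H) : C.M a (b + b') = C.M a b + C.M a b' := by
  simp only [M, map_add, T4_add4]
theorem M_sub1 (a a' b : H) : C.M (a - a') b = C.M a b - C.M a' b := by
  simp only [M, map_sub, T4_sub3]
theorem M_sub2 (a b b' : H) : C.M a (b - b') = C.M a b - C.M a b' := by
  simp only [M, map_sub, T4_sub4]
theorem M_smul1 (t : ℝ) (a b : H) : C.M (t • a) b = t * C.M a b := by
  simp only [M, map_smul, T4_smul3]
theorem M_smul2 (t : ℝ) (a b : H) : C.M a (t • b) = t * C.M a b := by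
  simp only [M, map_smul, T4_smul4]

theorem M_nonneg (a : H) : 0 ≤ C.M a a := T4_sq_nonneg _ _

theorem M_pos {a : H} (ha : a ≠ 0) : 0 < C.M a a := by
  exact T4_sq_pos oneL_pos fun h => ha (C.inj a h)

theorem M_le (a : H) : C.M a a ≤ ‖oneL μ‖ ^ 2 * ‖C.val a‖ ^ 2 := by
  have := (le_abs_self _).trans (T4_abs_le (oneL μ) (oneL μ) (C.val a) (C.val a))
  unfold M
  linarith

theorem M_pos_of_pos {a b : H} (ha : C.Pos a) (hb : 0 ≤ C.val b) (hb0 : b ≠ 0) :
    0 < C.M a b := by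
  exact T4_pos oneL_pos oneL_pos ha hb fun h => hb0 (C.inj b h)

theorem B_comm (l : ℝ) (a b : H) : C.B l a b = C.B l b a := by
  rw [B, B, real_inner_comm, M_comm]

theorem B_add1 (l : ℝ) (a a' b : H) : C.B l (a + a') b = C.B l a b + C.B l a' b := by
  rw [B, B, B, inner_add_left, M_add1]; ring

theorem B_sub1 (l : ℝ) (a a' b : H) : C.B l (a - a') b = C.B l a b - C.B l a' b := by
  rw [B, B, B, inner_sub_left, M_sub1]; ring

theorem B_smul1 (l t : ℝ) (a b : H) : C.B l (t • a) b = t * C.B l a b := by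
  rw [B, B, real_inner_smul_left, M_smul1]; ring

theorem B_add2 (l : ℝ) (a b b' : H) : C.B l a (b + b') = C.B l a b + C.B l a b' := by
  rw [B, B, B, inner_add_right, M_add2]; ring

theorem B_sub2 (l : ℝ) (a b b' : H) : C.B l a (b - b') = C.B l a b - C.B l a b' := by
  rw [B, B, B, inner_sub_right, M_sub2]; ring

theorem B_smul2 (l t : ℝ) (a b : H) : C.B l a (t • b) = t * C.B l a b := by
  rw [B, B, real_inner_smul_right, M_smul2]; ring

theorem B_self (l : ℝ) (a : H) : C.B l a a = C.q l a := by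
  rw [B, q, real_inner_self_eq_norm_sq]

theorem q_add (l : ℝ) (a b : H) : C.q l (a + b) = C.q l a + 2 * C.B l a b + C.q l b := by
  rw [← B_self, ← B_self, ← B_self, B_add1, B_add2, B_add2, C.B_comm l b a]; ring

theorem q_smul (l t : ℝ) (a : H) : C.q l (t • a) = t ^ 2 * C.q l a := by
  rw [← B_self, ← B_self, B_smul1, B_smul2]; ring

theorem q_zero (l : ℝ) : C.q l 0 = 0 := by
  simp [q, M, T4_zero4]

theorem q_sub_q (l l' : ℝ) (a : H) : C.q l' a - C.q l a = (l' - l) * C.M a a := by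
  rw [q, q]; ring

theorem P_smul (t : ℝ) (a : H) : C.P (t • a) = t ^ 4 * C.P a := by
  rw [P, P, T_smul1, T_smul2, T_smul3, T_smul4]; ring

theorem R_smul (s t : ℝ) (a b : H) : C.R (s • a) (t • b) = s ^ 2 * t ^ 2 * C.R a b := by
  rw [R, R, T_smul1, T_smul2, T_smul3, T_smul4]; ring

theorem P_eq (a : H) : C.P a = ‖C.val a‖ ^ 4 := T4_self _

theorem P_zero : C.P 0 = 0 := by
  simp [P_eq]

theorem P_nonneg (a : H) : 0 ≤ C.P a := by
  rw [P_eq]; positivity

theorem P_pos {a : H} (ha : a ≠ 0) : 0 < C.P a := by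
  rw [P_eq]
  exact pow_pos (norm_pos_iff.2 fun h => ha (C.inj a h)) 4

theorem R_comm (a b : H) : C.R a b = C.R b a := T4_pairs _ _ _ _

theorem R_self (a : H) : C.R a a = C.P a := rfl

theorem R_zero1 (b : H) : C.R 0 b = 0 := by
  simp [R, T, T4_zero1]

theorem R_zero2 (a : H) : C.R a 0 = 0 := by
  simp [R, T, T4_zero4]

theorem R_nonneg (a b : H) : 0 ≤ C.R a b := T4_sq_nonneg _ _

theorem R_le (a b : H) : C.R a b ≤ ‖C.val a‖ ^ 2 * ‖C.val b‖ ^ 2 := by
  have := (le_abs_self _).trans (C.T_abs_le a a b b)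
  unfold R
  linarith

theorem R_sq_le (a b : H) : C.R a b ^ 2 ≤ C.P a * C.P b := by
  rw [P_eq, P_eq]
  exact (pow_le_pow_left₀ (C.R_nonneg a b) (C.R_le a b) 2).trans_eq (by ring)

theorem R_pos {a b : H} (ha : C.Pos a) (hb : b ≠ 0) : 0 < C.R a b := by
  exact T4_sq_pos ha fun h => hb (C.inj b h)

theorem R_add (a h b : H) : C.R (a + h) b = C.R a b + 2 * C.T b b a h + C.R h b := by
  rw [R, R, R, T_add1, T_add2, T_add2, C.T_swap12 h a, C.T_pairs b b]; ring

theorem Pos.ne_zero {C : Ctx H μ} {a : H} (ha : C.Pos a) : a ≠ 0 := by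
  rintro rfl
  exact PosL.ne_zero ha C.mu_ne (map_zero _)

theorem Pos.smul {C : Ctx H μ} {a : H} (ha : C.Pos a) {t : ℝ} (ht : 0 < t) :
    C.Pos (t • a) := by
  unfold Pos
  rw [map_smul]
  exact PosL.smul ha ht

theorem Lam_pos : 0 < C.Λ := by
  have key : ∀ η : ℝ, 0 < η → C.S ≤ (C.Λ + η) * ‖oneL μ‖ ^ 2 := fun η hη => by
    obtain ⟨u, hu, h⟩ := C.poin_opt η hη
    have h1 : ‖u‖ ^ 2 ≤ (C.Λ + η) * C.M u u := h
    have h2 : 0 < ‖u‖ ^ 2 := pow_pos (norm_pos_iff.2 hu) 2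
    have h3 : 0 < C.Λ + η := (pos_iff_pos_of_mul_pos (h2.trans_le h1)).2 (C.M_pos hu)
    have h4 : 0 < ‖C.val u‖ ^ 2 := pow_pos (norm_pos_iff.2 fun h => hu (C.inj u h)) 2
    have h5 := (C.sob u).trans (h1.trans (mul_le_mul_of_nonneg_left (C.M_le u) h3.le))
    exact le_of_mul_le_mul_right (by linarith) h4
  by_contra h
  have hS := C.S_pos
  have hN : 0 ≤ ‖oneL μ‖ ^ 2 := by positivity
  have h1 := key (C.S / (‖oneL μ‖ ^ 2 + 1)) (by positivity)
  have h2 : C.S / (‖oneL μ‖ ^ 2 + 1) * ‖oneL μ‖ ^ 2 < C.S := by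
    rw [div_mul_eq_mul_div, div_lt_iff₀ (by positivity)]
    linarith
  have h3 := mul_nonpos_of_nonpos_of_nonneg (not_lt.1 h) hN
  linarith

theorem poin' (a : H) : C.Λ * C.M a a ≤ ‖a‖ ^ 2 := C.poin a

theorem q_lower {l : ℝ} (hl : l ≤ 0) (a : H) : (C.Λ + l) / C.Λ * ‖a‖ ^ 2 ≤ C.q l a := by
  rw [div_mul_eq_mul_div, div_le_iff₀ C.Lam_pos, q]
  have := mul_le_mul_of_nonpos_left (C.poin' a) hl
  linarith

theorem q_nonneg {l : ℝ} (hl : -C.Λ ≤ l) (a : H) : 0 ≤ C.q l a := by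
  have h1 := C.poin' a
  have h2 := mul_le_mul_of_nonneg_right hl (C.M_nonneg a)
  rw [q]
  linarith

theorem q_pos {l : ℝ} (hl : -C.Λ < l) {a : H} (ha : a ≠ 0) : 0 < C.q l a := by
  have h1 := C.poin' a
  have h2 := mul_lt_mul_of_pos_right hl (C.M_pos ha)
  rw [q]
  linarith

theorem q_le_norm {l : ℝ} (hl : l ≤ 0) (a : H) : C.q l a ≤ ‖a‖ ^ 2 := by
  have := mul_nonpos_of_nonpos_of_nonneg hl (C.M_nonneg a)
  rw [q]
  linarith

theorem q_mono {l l' : ℝ} (h : l ≤ l') (a : H) : C.q l a ≤ C.q l' a := by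
  have := mul_le_mul_of_nonneg_right h (C.M_nonneg a)
  rw [q, q]
  linarith

theorem q_ratio {l1 l2 : ℝ} (h : l1 ≤ l2) (a : H) :
    (C.Λ + l1) * C.q l2 a ≤ (C.Λ + l2) * C.q l1 a := by
  have := mul_le_mul_of_nonneg_left (C.poin' a) (sub_nonneg.2 h)
  rw [q, q]
  linarith

end Ctx
end CritSys
end
end

-- merged part: Pool.Agent.Work.MP_80ee1d_an.Basic
section
/-!
Elementary facts on the forms attached to a context, part B.

PLAN. Everything is unfolding plus the lemmas of `T4.lean` (`map_add`, `map_smul` for `C.val`).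
`Lam_pos`: `M u u ≤ ‖1‖² ‖val u‖² ≤ ‖1‖² ‖u‖² / S`, so `poin_opt` gives `S ≤ (Λ + η) ‖1‖²` for all
`η > 0`.  `q_ratio`: the difference of the two sides is `(l2 - l1) (‖a‖² - Λ M a a)`.
Derivatives: expand into a polynomial in `ε`.  `exists_abs`: field `abs`, `T4_abs_abs`, swaps, `inj`.
`pos_of_eqn`: field `smp`, since `⟪u,ψ⟫ = -l M u ψ + m T u u u ψ + β T v v u ψ ≥ 0`.
`picone_eqn`: field `picone` with `c₀ = -l`, `c₁ = m`, `c₂ = β`.  `least_quot`: rescale `z` to the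
scalar Nehari set with `t² = q z / (m P z)`.  `exists_phi`: field `bn` with `l = max l1 l2`,
normalise (`val φ ≠ 0` because `q l φ ≥ 0`), `σ = q (max l1 l2) φ`.
`exists_osc`: field `osc`, `|M h h| ≤ ‖1‖² η²`, `R h w ≤ η² ‖val w‖²`.
-/

open MeasureTheory Filter Topology
open scoped RealInnerProductSpace

noncomputable section
namespace CritSys
namespace Ctx

variable {X : Type} [MeasurableSpace X] {H : Type} [NormedAddCommGroup H] [InnerProductSpace ℝ H]
  {μ : Measure X} [IsFiniteMeasure μ] (C : Ctx H μ)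

theorem basic_poly (a b c d e : ℝ) :
    HasDerivAt (fun ε : ℝ => a + b * ε + c * ε ^ 2 + d * ε ^ 3 + e * ε ^ 4) b 0 := by
  have h := (((((hasDerivAt_id' (0 : ℝ)).const_mul b).const_add a).add
    ((hasDerivAt_pow 2 (0 : ℝ)).const_mul c)).add ((hasDerivAt_pow 3 (0 : ℝ)).const_mul d)).add
    ((hasDerivAt_pow 4 (0 : ℝ)).const_mul e)
  simp only [mul_one, Nat.cast_ofNat, Nat.add_one_sub_one, pow_one, mul_zero, add_zero, ne_eq,
    OfNat.ofNat_ne_zero, not_false_eq_true, zero_pow] at h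
  exact h

theorem continuous_q (l : ℝ) : Continuous fun a => C.q l a := by
  unfold q M
  exact (continuous_norm.pow 2).add (continuous_const.mul
    (T4_continuous continuous_const continuous_const C.val.continuous C.val.continuous))

theorem continuous_P : Continuous fun a => C.P a := by
  unfold P T
  exact T4_continuous C.val.continuous C.val.continuous C.val.continuous C.val.continuous

theorem continuous_R : Continuous fun p : H × H => C.R p.1 p.2 := by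
  unfold R T
  exact T4_continuous (C.val.continuous.comp continuous_fst) (C.val.continuous.comp continuous_fst)
    (C.val.continuous.comp continuous_snd) (C.val.continuous.comp continuous_snd)

theorem hasDerivAt_q (l : ℝ) (u ψ : H) :
    HasDerivAt (fun ε : ℝ => C.q l (u + ε • ψ)) (2 * C.B l u ψ) 0 := by
  have e : (fun ε : ℝ => C.q l (u + ε • ψ)) =
      fun ε : ℝ => C.q l u + 2 * C.B l u ψ * ε + C.q l ψ * ε ^ 2 + 0 * ε ^ 3 + 0 * ε ^ 4 := by
    funext ε
    rw [q_add, B_smul2, q_smul]; ring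
  rw [e]
  exact basic_poly _ _ _ _ _

theorem hasDerivAt_P (u ψ : H) :
    HasDerivAt (fun ε : ℝ => C.P (u + ε • ψ)) (4 * C.T u u u ψ) 0 := by
  have e : (fun ε : ℝ => C.P (u + ε • ψ)) =
      fun ε : ℝ => C.P u + 4 * C.T u u u ψ * ε + 6 * C.T u u ψ ψ * ε ^ 2 +
        4 * C.T u ψ ψ ψ * ε ^ 3 + C.P ψ * ε ^ 4 := by
    funext ε
    simp only [P, T_add1, T_add2, T_add3, T_add4, T_smul1, T_smul2, T_smul3, T_smul4]
    rw [C.T_swap14 ψ u u u, C.T_swap24 u ψ u u, C.T_swap34 u u ψ u, C.T_pairs ψ ψ u u,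
      C.T_swap13 ψ u ψ u, C.T_swap14 ψ u ψ u, C.T_swap13 ψ u u ψ, C.T_swap23 u ψ u ψ,
      C.T_swap24 u ψ ψ u, C.T_swap14 ψ ψ ψ u, C.T_swap13 ψ ψ u ψ, C.T_swap12 ψ u ψ ψ]
    ring
  rw [e]
  exact basic_poly _ _ _ _ _

theorem hasDerivAt_R1 (u v ψ : H) :
    HasDerivAt (fun ε : ℝ => C.R (u + ε • ψ) v) (2 * C.T v v u ψ) 0 := by
  have e : (fun ε : ℝ => C.R (u + ε • ψ) v) =
      fun ε : ℝ => C.R u v + 2 * C.T v v u ψ * ε + C.R ψ v * ε ^ 2 + 0 * ε ^ 3 + 0 * ε ^ 4 := by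
    funext ε
    have := C.R_smul ε 1 ψ v
    rw [one_smul] at this
    rw [R_add, T_smul4, this]; ring
  rw [e]
  exact basic_poly _ _ _ _ _

theorem hasDerivAt_R2 (u v ψ : H) :
    HasDerivAt (fun ε : ℝ => C.R u (v + ε • ψ)) (2 * C.T u u v ψ) 0 := by
  simp only [C.R_comm u]
  exact C.hasDerivAt_R1 v u ψ

theorem exists_abs (u : H) : ∃ w, C.val w = |C.val u| ∧ 0 ≤ C.val w ∧ (u ≠ 0 → w ≠ 0) ∧
    ‖w‖ ≤ ‖u‖ ∧ C.M w w = C.M u u ∧ (∀ l, C.q l w ≤ C.q l u) ∧ C.P w = C.P u ∧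
    (∀ v, C.R w v = C.R u v) ∧ ∀ v, C.R v w = C.R v u := by
  obtain ⟨w, h1, h2⟩ := C.abs u
  have hM : C.M w w = C.M u u := by
    unfold M
    rw [h1, T4_pairs, T4_abs_abs, T4_pairs]
  have hR : ∀ v, C.R w v = C.R u v := fun v => by
    unfold R T
    rw [h1, T4_abs_abs]
  refine ⟨w, h1, h1 ▸ abs_nonneg _, fun hu hw => hu (C.inj u ?_), h2, hM, fun l => ?_, ?_, hR,
    fun v => by rw [R_comm, hR, R_comm]⟩
  · rw [hw, map_zero] at h1
    rw [← norm_eq_zero, ← norm_abs_eq_norm, ← h1, norm_zero]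
  · unfold q
    rw [hM]
    gcongr
  · rw [P_eq, P_eq, h1, norm_abs_eq_norm]

theorem sol1_iff (l m : ℝ) (w v : H) : C.Sol1 l m w ↔ C.Eqn l m 0 w v := by
  simp [Sol1, Eqn]

theorem Eqn.q_eq {C : Ctx H μ} {l m β : ℝ} {u v : H} (h : C.Eqn l m β u v) :
    C.q l u = m * C.P u + β * C.R u v := by
  rw [← B_self, h u, R_comm]
  rfl

theorem Sol1.q_eq {C : Ctx H μ} {l m : ℝ} {w : H} (h : C.Sol1 l m w) :
    C.q l w = m * C.P w := by
  rw [← B_self, h w]
  rfl

theorem pos_of_eqn {l m β : ℝ} {u v : H} (h : C.Eqn l m β u v) (hl : l ≤ 0) (hm : 0 ≤ m)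
    (hβ : 0 ≤ β) (hu : 0 ≤ C.val u) (hu0 : u ≠ 0) : C.Pos u := by
  refine C.smp u hu hu0 fun ψ hψ => ?_
  have h1 := h ψ
  unfold B at h1
  have h2 : 0 ≤ C.M u ψ := T4_sq_mul_nonneg _ hu hψ
  have h3 : 0 ≤ C.T u u u ψ := T4_sq_mul_nonneg _ hu hψ
  have h4 : 0 ≤ C.T v v u ψ := T4_sq_mul_nonneg _ hu hψ
  have h5 := mul_nonneg hm h3
  have h6 := mul_nonneg hβ h4
  have h7 := mul_nonneg (neg_nonneg.2 hl) h2
  linarith

theorem picone_eqn {l m β : ℝ} {u v : H} (h : C.Eqn l m β u v) (hu : C.Pos u) (ψ : H) :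
    m * C.R u ψ + β * C.R v ψ ≤ C.q l ψ := by
  have h1 := C.picone u (-l) m β (C.val u) (C.val v) hu (fun φ => by
    have h2 := h φ
    unfold B M T at h2
    linarith) ψ
  unfold R T q M
  linarith

theorem picone_sol1 {l m : ℝ} {w : H} (h : C.Sol1 l m w) (hw : C.Pos w) (ψ : H) :
    m * C.R w ψ ≤ C.q l ψ := by
  simpa using C.picone_eqn ((C.sol1_iff l m w w).1 h) hw ψ

theorem least_quot {l m : ℝ} (hl : -C.Λ < l) (hm : 0 < m) {w : H} (h : C.Least l m w) (z : H) :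
    C.q l w * (m * C.P z) ≤ C.q l z ^ 2 := by
  rcases eq_or_ne z 0 with rfl | hz
  · rw [P_zero, q_zero]; simp
  have hq := C.q_pos hl hz
  have hP := mul_pos hm (C.P_pos hz)
  set t := √(C.q l z / (m * C.P z)) with ht
  have ht0 : 0 < t := Real.sqrt_pos.2 (div_pos hq hP)
  have ht2 : t ^ 2 = C.q l z / (m * C.P z) := Real.sq_sqrt (div_pos hq hP).le
  have h1 := h.2.2 (t • z) (smul_ne_zero ht0.ne' hz) (by
    rw [q_smul, P_smul, show t ^ 4 = t ^ 2 * t ^ 2 by ring]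
    have : t ^ 2 * (m * C.P z) = C.q l z := by rw [ht2, div_mul_cancel₀ _ hP.ne']
    rw [← this]; ring)
  rw [q_smul, ht2, div_mul_eq_mul_div, le_div_iff₀ hP] at h1
  rw [sq]; exact h1

theorem least_q_eq {l m : ℝ} {w w' : H} (h : C.Least l m w) (h' : C.Least l m w') :
    C.q l w = C.q l w' := by
  exact le_antisymm (h.2.2 w' h'.2.1.ne_zero h'.1.q_eq) (h'.2.2 w h.2.1.ne_zero h.1.q_eq)

theorem Neh.swap {C : Ctx H μ} {l1 l2 m1 m2 β : ℝ} {u v : H} (h : C.Neh l1 l2 m1 m2 β u v) :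
    C.Neh l2 l1 m2 m1 β v u := by
  obtain ⟨h1, h2, h3, h4⟩ := h
  exact ⟨h2, h1, by rw [h4, R_comm], by rw [h3, R_comm]⟩

theorem En_swap (l1 l2 m1 m2 β : ℝ) (u v : H) :
    C.En l1 l2 m1 m2 β u v = C.En l2 l1 m2 m1 β v u := by
  unfold En
  rw [C.R_comm u v]; ring

theorem IsGS.swap {C : Ctx H μ} {l1 l2 m1 m2 β : ℝ} {u v : H} (h : C.IsGS l1 l2 m1 m2 β u v) :
    C.IsGS l2 l1 m2 m1 β v u := by
  obtain ⟨h1, h2, h3, h4, h5⟩ := h
  refine ⟨h2, h1, h4, h3, fun u' v' h => ?_⟩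
  rw [← En_swap, ← C.En_swap l1 l2 m1 m2 β v' u']
  exact h5 v' u' h.swap

theorem GS_swap (l1 l2 m1 m2 β : ℝ) : C.GS l1 l2 m1 m2 β ↔ C.GS l2 l1 m2 m1 β := by
  exact ⟨fun ⟨u, v, h⟩ => ⟨v, u, h.swap⟩, fun ⟨u, v, h⟩ => ⟨v, u, h.swap⟩⟩

theorem UbJ.swap {C : Ctx H μ} {l1 l2 m1 m2 β c : ℝ} {u v : H}
    (h : C.UbJ l1 l2 m1 m2 β u v c) : C.UbJ l2 l1 m2 m1 β v u c := by
  intro s t hs ht
  have := h t s ht hs
  unfold FF at this ⊢
  rw [C.R_comm v u]
  linarith

theorem Low.swap {C : Ctx H μ} {l1 l2 m1 m2 β c : ℝ} (h : C.Low l1 l2 m1 m2 β c) :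
    C.Low l2 l1 m2 m1 β c := by
  exact fun z w m hz hw hm => h w z m hw hz hm.swap

theorem IsGS.neh {C : Ctx H μ} {l1 l2 m1 m2 β : ℝ} {u v : H} (h : C.IsGS l1 l2 m1 m2 β u v) :
    C.Neh l1 l2 m1 m2 β u v := by
  exact ⟨h.2.2.1.ne_zero, h.2.2.2.1.ne_zero, h.1.q_eq, by rw [h.2.1.q_eq, R_comm]⟩

theorem Neh.En_eq {C : Ctx H μ} {l1 l2 m1 m2 β : ℝ} {u v : H} (h : C.Neh l1 l2 m1 m2 β u v) :
    C.En l1 l2 m1 m2 β u v = (C.q l1 u + C.q l2 v) / 4 := by
  obtain ⟨-, -, h3, h4⟩ := h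
  unfold En
  linarith

theorem En_sqrt (l1 l2 m1 m2 β : ℝ) (u v : H) {s t : ℝ} (hs : 0 ≤ s) (ht : 0 ≤ t) :
    C.En l1 l2 m1 m2 β (√s • u) (√t • v) =
      FF m1 m2 β (C.q l1 u) (C.q l2 v) (C.P u) (C.P v) (C.R u v) s t := by
  unfold En FF
  rw [q_smul, q_smul, P_smul, P_smul, R_smul, show √s ^ 4 = (√s ^ 2) ^ 2 by ring,
    show √t ^ 4 = (√t ^ 2) ^ 2 by ring, Real.sq_sqrt hs, Real.sq_sqrt ht]
  ring

theorem neh_sqrt {l1 l2 m1 m2 β : ℝ} {u v : H} (hu : u ≠ 0) (hv : v ≠ 0) {s t : ℝ} (hs : 0 < s)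
    (ht : 0 < t) (h1 : C.q l1 u = m1 * C.P u * s + β * C.R u v * t)
    (h2 : C.q l2 v = β * C.R u v * s + m2 * C.P v * t) :
    C.Neh l1 l2 m1 m2 β (√s • u) (√t • v) ∧
      C.En l1 l2 m1 m2 β (√s • u) (√t • v) = (s * C.q l1 u + t * C.q l2 v) / 4 := by
  have hN : C.Neh l1 l2 m1 m2 β (√s • u) (√t • v) := by
    refine ⟨smul_ne_zero (Real.sqrt_pos.2 hs).ne' hu, smul_ne_zero (Real.sqrt_pos.2 ht).ne' hv,
      ?_, ?_⟩
    · rw [q_smul, P_smul, R_smul, show √s ^ 4 = (√s ^ 2) ^ 2 by ring, Real.sq_sqrt hs.le,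
        Real.sq_sqrt ht.le, h1]
      ring
    · rw [q_smul, P_smul, R_smul, show √t ^ 4 = (√t ^ 2) ^ 2 by ring, Real.sq_sqrt hs.le,
        Real.sq_sqrt ht.le, h2]
      ring
  refine ⟨hN, ?_⟩
  rw [hN.En_eq, q_smul, q_smul, Real.sq_sqrt hs.le, Real.sq_sqrt ht.le]

theorem UbJ.smul {C : Ctx H μ} {l1 l2 m1 m2 β c : ℝ} {u v : H} (h : C.UbJ l1 l2 m1 m2 β u v c)
    (s t : ℝ) : C.UbJ l1 l2 m1 m2 β (s • u) (t • v) c := by
  intro a b ha hb
  have := h (a * s ^ 2) (b * t ^ 2) (by positivity) (by positivity)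
  unfold FF at this ⊢
  rw [q_smul, q_smul, P_smul, P_smul, R_smul]
  refine le_of_eq_of_le ?_ this
  ring

theorem exists_phi {l1 l2 : ℝ} (h1 : C.Adm l1) (h2 : C.Adm l2) :
    ∃ (φ : H) (σ : ℝ), φ ≠ 0 ∧ ‖C.val φ‖ = 1 ∧ C.P φ = 1 ∧ C.q l1 φ ≤ σ ∧ C.q l2 φ ≤ σ ∧
      0 < σ ∧ σ < C.S := by
  have hl : -C.Λ < max l1 l2 := h1.1.trans_le (le_max_left _ _)
  obtain ⟨φ, hφ⟩ := C.bn (max l1 l2) (max_lt h1.2 h2.2)
  have hφ' : C.q (max l1 l2) φ < C.S * ‖C.val φ‖ ^ 2 := hφ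
  have h0 := C.q_nonneg hl.le φ
  have hn : ‖C.val φ‖ ≠ 0 := fun h => by
    rw [h] at hφ'
    simp only [ne_eq, OfNat.ofNat_ne_zero, not_false_eq_true, zero_pow, mul_zero] at hφ'
    linarith
  have hφ0 : φ ≠ 0 := fun h => hn (by rw [h, map_zero, norm_zero])
  have hne : ‖C.val φ‖⁻¹ • φ ≠ 0 := smul_ne_zero (inv_ne_zero hn) hφ0
  have hn1 : ‖C.val (‖C.val φ‖⁻¹ • φ)‖ = 1 := by
    rw [map_smul, norm_smul, norm_inv, norm_norm, inv_mul_cancel₀ hn]
  refine ⟨‖C.val φ‖⁻¹ • φ, C.q (max l1 l2) (‖C.val φ‖⁻¹ • φ), hne, hn1, by rw [P_eq, hn1, one_pow],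
    C.q_mono (le_max_left _ _) _, C.q_mono (le_max_right _ _) _, C.q_pos hl hne, ?_⟩
  rw [q_smul, inv_pow, inv_mul_lt_iff₀ (by positivity), mul_comm]
  exact hφ'

theorem exists_osc (l β : ℝ) (w : H) : ∃ h, β * C.R h w < C.q l h := by
  set K := |l| * ‖oneL μ‖ ^ 2 + |β| * ‖C.val w‖ ^ 2 with hK
  have hK0 : 0 ≤ K := by positivity
  obtain ⟨h, h1, h2⟩ := C.osc (1 / (K + 1)) (by positivity)
  refine ⟨h, ?_⟩
  have h3 : ‖C.val h‖ ≤ 1 := h2.trans (by rw [div_le_one (by positivity)]; linarith)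
  have h4 : ‖C.val h‖ ^ 2 ≤ 1 / (K + 1) := by
    rw [sq]
    exact (mul_le_of_le_one_left (norm_nonneg _) h3).trans h2
  have h5 : β * C.R h w ≤ |β| * (‖C.val h‖ ^ 2 * ‖C.val w‖ ^ 2) :=
    mul_le_mul (le_abs_self _) (C.R_le h w) (C.R_nonneg h w) (abs_nonneg _)
  have h6 : -l * C.M h h ≤ |l| * (‖oneL μ‖ ^ 2 * ‖C.val h‖ ^ 2) :=
    mul_le_mul (neg_le_abs _) (C.M_le h) (C.M_nonneg h) (abs_nonneg _)
  have h7 : K * ‖C.val h‖ ^ 2 < 1 := by
    refine (mul_le_mul_of_nonneg_left h4 hK0).trans_lt ?_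
    rw [mul_one_div, div_lt_one (by positivity)]
    linarith
  unfold q
  rw [h1]
  have h8 : K * ‖C.val h‖ ^ 2 = |l| * (‖oneL μ‖ ^ 2 * ‖C.val h‖ ^ 2) +
      |β| * (‖C.val h‖ ^ 2 * ‖C.val w‖ ^ 2) := by rw [hK]; ring
  linarith

end Ctx
end CritSys
end
end

-- merged part: Pool.Agent.Work.MP_80ee1d_an.SmpB
section
/-!
A measurable set whose indicator has vanishing distributional gradient in a connected open set is
null or of full measure there.

PLAN. `zero_one_ball`: for `0 < δ < r` let `ρ = ContDiffBump.normed` of outer radius `δ` centred at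
`0` and `g = ρ ⋆ 1_A` (`convolution` with `ContinuousLinearMap.lsmul ℝ ℝ`), i.e.
`g x = ∫_A ρ (x - z) dz`.  It is differentiable with `fderiv g x v = ∫_A fderiv ρ (x - z) v dz`
(`HasCompactSupport.hasFDerivAt_convolution_left`, or differentiate under the integral sign), which
is `-∫_A fderiv φ z v = 0` for the test function `φ z = ρ (x - z)`, supported in `ball y (2 r)` when
`x ∈ ball y r`.  So `g` is constant on the convex set `ball y r`
(`Convex.is_const_of_fderivWithin_eq_zero` / `IsOpen.is_const_of_fderiv_eq_zero`).  By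
`ContDiffBump.ae_convolution_tendsto_right_of_locallyIntegrable`, `g → 1_A` a.e. as `δ → 0`, so
`1_A` takes the same value at any two good points of the ball.
`zero_one`: the sets `U = {y | ∃ r > 0, ∀ᵐ x, x ∈ ball y r → x ∈ A}` and `V` (same with `∉`) are
open, cover `Ω`, and are disjoint (balls have positive measure); `IsPreconnected.subset_or_subset`.
Pass from local to global with `measure_null_of_locally_null` (or Lindelöf).
-/

open MeasureTheory Filter Topology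
open scoped ContDiff

noncomputable section
namespace CritSys

open scoped Convolution in
theorem SmpB_const {A : Set E4} (hA : MeasurableSet A) {y : E4} {r : ℝ}
    (h : ∀ φ : E4 → ℝ, IsTest (Metric.ball y (2 * r)) φ → ∀ v : E4, ∫ x in A, fderiv ℝ φ x v = 0)
    (ρ : ContDiffBump (0 : E4)) (hρ : ρ.rOut < r) {x x' : E4} (hx : x ∈ Metric.ball y r)
    (hx' : x' ∈ Metric.ball y r) :
    (ρ.normed volume ⋆[ContinuousLinearMap.lsmul ℝ ℝ, volume] A.indicator fun _ => (1 : ℝ)) x =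
      (ρ.normed volume ⋆[ContinuousLinearMap.lsmul ℝ ℝ, volume] A.indicator fun _ => (1 : ℝ)) x' := by
  rw [← convolution_flip]
  have hl : LocallyIntegrable (A.indicator fun _ => (1 : ℝ)) volume :=
    (locallyIntegrable_const 1).indicator hA
  have hs : ContDiff ℝ ∞ (ρ.normed volume) := ρ.contDiff_normed
  have hs1 : ContDiff ℝ 1 (ρ.normed volume) := ρ.contDiff_normed
  have hd := fun z => ρ.hasCompactSupport_normed.hasFDerivAt_convolution_right
    (ContinuousLinearMap.lsmul ℝ ℝ : ℝ →L[ℝ] ℝ →L[ℝ] ℝ).flip hl hs1 z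
  refine Metric.isOpen_ball.is_const_of_fderiv_eq_zero (𝕜 := ℝ) (convex_ball y r).isPreconnected
    (fun z _ => (hd z).differentiableAt.differentiableWithinAt) (fun z hz => ?_) hx hx'
  rw [(hd z).fderiv]
  ext v
  rw [convolution_precompR_apply _ hl (ρ.hasCompactSupport_normed.fderiv ℝ)
    (hs1.continuous_fderiv one_ne_zero), convolution_def]
  have ht : IsTest (Metric.ball y (2 * r)) fun t => ρ.normed volume (z - t) := by
    have hsub : tsupport (fun t => ρ.normed volume (z - t)) ⊆ Metric.closedBall z ρ.rOut := by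
      refine closure_minimal (fun t ht => ?_) Metric.isClosed_closedBall
      have : z - t ∈ Function.support (ρ.normed volume) := ht
      rw [ρ.support_normed_eq, mem_ball_zero_iff] at this
      rw [Metric.mem_closedBall, dist_comm, dist_eq_norm]
      exact this.le
    refine ⟨hs.comp (contDiff_const.sub contDiff_id),
      (isCompact_closedBall z ρ.rOut).of_isClosed_subset isClosed_closure hsub, hsub.trans ?_⟩
    refine Metric.closedBall_subset_ball' ?_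
    have := Metric.mem_ball.1 hz
    linarith
  have h0 := h _ ht (-v)
  rw [← integral_indicator hA] at h0
  rw [Pi.zero_apply, zero_apply, ← h0]
  refine integral_congr_ae (Eventually.of_forall fun t => ?_)
  have e : fderiv ℝ (fun t => ρ.normed volume (z - t)) t (-v) =
      fderiv ℝ (ρ.normed volume) (z - t) v := by
    have h1 := ((hs1.differentiable one_ne_zero) (z - t)).hasFDerivAt.comp t
      ((hasFDerivAt_id t).const_sub z)
    rw [show (fun t => ρ.normed volume (z - t)) = ρ.normed volume ∘ HSub.hSub z from rfl,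
      h1.fderiv]
    simp
  by_cases hmem : t ∈ A <;> simp [hmem, ← e]

theorem zero_one_ball {A : Set E4} (hA : MeasurableSet A) {y : E4} {r : ℝ} (hr : 0 < r)
    (h : ∀ φ : E4 → ℝ, IsTest (Metric.ball y (2 * r)) φ → ∀ v : E4, ∫ x in A, fderiv ℝ φ x v = 0) :
    (∀ᵐ x, x ∈ Metric.ball y r → x ∈ A) ∨ (∀ᵐ x, x ∈ Metric.ball y r → x ∉ A) := by
  have hl : LocallyIntegrable (A.indicator fun _ => (1 : ℝ)) volume :=
    (locallyIntegrable_const 1).indicator hA
  let ρ : ℕ → ContDiffBump (0 : E4) := fun n =>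
    ⟨1 / ((n : ℝ) + 1) / 2, 1 / ((n : ℝ) + 1), by positivity, half_lt_self (by positivity)⟩
  have h0 : Tendsto (fun n => (ρ n).rOut) atTop (𝓝 0) := tendsto_one_div_add_atTop_nhds_zero_nat
  have hae := ContDiffBump.ae_convolution_tendsto_right_of_locallyIntegrable (K := 2) h0
    (Eventually.of_forall fun n => le_of_eq (by simp only [ρ]; ring)) hl
  by_cases hB : ∀ᵐ x, x ∈ Metric.ball y r → x ∉ A
  · exact Or.inr hB
  · left
    obtain ⟨x', hx'1, hx'2⟩ := ((not_eventually.1 hB).and_eventually hae).exists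
    push Not at hx'1
    filter_upwards [hae] with x hx hxb
    have e := tendsto_nhds_unique_of_eventuallyEq hx hx'2
      ((h0.eventually (gt_mem_nhds hr)).mono fun n hn => SmpB_const hA h (ρ n) hn hxb hx'1.1)
    by_contra hn
    simp [hn, hx'1.2] at e

theorem zero_one {Ω A : Set E4} (ho : IsOpen Ω) (hc : IsPreconnected Ω) (hA : MeasurableSet A)
    (h : ∀ φ : E4 → ℝ, IsTest Ω φ → ∀ v : E4, ∫ x in A, fderiv ℝ φ x v = 0) :
    (∀ᵐ x ∂(volume.restrict Ω), x ∈ A) ∨ (∀ᵐ x ∂(volume.restrict Ω), x ∉ A) := by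
  have op : ∀ B : Set E4, IsOpen {y | ∃ r > 0, ∀ᵐ x, x ∈ Metric.ball y r → x ∈ B} := fun B => by
    refine Metric.isOpen_iff.2 fun y ⟨r, hr, hy⟩ => ⟨r / 2, half_pos hr, fun z hz => ?_⟩
    refine ⟨r / 2, half_pos hr, hy.mono fun x hx hxz => hx ?_⟩
    have := dist_triangle x z y
    rw [Metric.mem_ball] at *
    linarith
  have glob : ∀ B : Set E4, Ω ⊆ {y | ∃ r > 0, ∀ᵐ x, x ∈ Metric.ball y r → x ∈ B} →
      ∀ᵐ x ∂(volume.restrict Ω), x ∈ B := fun B hB => by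
    rw [ae_restrict_iff' ho.measurableSet, ae_iff]
    refine measure_null_of_locally_null _ fun y hy => ?_
    have hy' : y ∈ Ω := by
      by_contra hn
      exact hy fun h' => absurd h' hn
    obtain ⟨r, hr, hyr⟩ := hB hy'
    refine ⟨_, ?_, ae_iff.1 hyr⟩
    filter_upwards [self_mem_nhdsWithin, mem_nhdsWithin_of_mem_nhds (Metric.ball_mem_nhds y hr)]
      with x hx hxb hh
    exact hx fun _ => hh hxb
  refine (hc.subset_or_subset (op A) (op Aᶜ) ?_ fun y hy => ?_).imp (glob A) (glob Aᶜ)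
  · rw [Set.disjoint_left]
    rintro y ⟨r, hr, h1⟩ ⟨r', hr', h2⟩
    have h3 : ∀ᵐ x, x ∉ Metric.ball y (min r r') := by
      filter_upwards [h1, h2] with x a b hx
      exact b (Metric.ball_subset_ball (min_le_right _ _) hx)
        (a (Metric.ball_subset_ball (min_le_left _ _) hx))
    exact (Metric.measure_ball_pos volume y (lt_min hr hr')).ne' (measure_eq_zero_iff_ae_notMem.2 h3)
  · obtain ⟨ε, hε, hb⟩ := Metric.isOpen_iff.1 ho y hy
    have := zero_one_ball hA (y := y) (half_pos hε) fun φ hφ =>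
      h φ ⟨hφ.1, hφ.2.1, hφ.2.2.trans (by rwa [mul_div_cancel₀ _ two_ne_zero])⟩
    exact this.imp (fun h => ⟨_, half_pos hε, h⟩) fun h => ⟨_, half_pos hε, h⟩

end CritSys
end
end
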