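import Pool.Agent.Work.MP_80ee1d_an.Comp

-- merged part: Pool.Agent.Work.MP_80ee1d_an.Hardy
section
/-!
A Hardy inequality with the sharp constant in dimension four, and the localisation identity.

PLAN. `hardy_tst`: with `ϖ x = 1 / (1 + ‖x‖²)` and the field `Y x = ϖ x • x`, expand
`0 ≤ ∫ ‖∇f + f Y‖² = ∫ ‖∇f‖² + 2 f ⟪∇f, Y⟫ + f² ‖Y‖²`.  For each basis vector `e i` the compactly
supported smooth function `f² ϖ x_i` has `∫ ∂_i = 0` (`integral_fderiv_eq_zero`-type lemma, or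
`ibp`/`integral_mul_fderiv_eq_neg_fderiv_mul_of_integrable` with the constant one); summing,
`∫ 2 f ⟪∇f, Y⟫ = -∫ f² div Y`, `div Y = 4 ϖ - 2 ‖x‖² ϖ²`.  And
`div Y - ‖Y‖² = (4 + ‖x‖²) ϖ² ≥ ϖ`.
`hardy_D`: density (`denseRange_ofT.induction_on`, `T4_continuous`), `val_ofT`.
`ims`: `w` from `mul_D` with `ρ`, `z` from `mul_D` with `ρ * ρ` (`Mult.mul`, `gradient_mul'`);
pointwise `‖U ∇ρ + ρ ∇U‖² = ⟪∇U, grd z⟫ + U² ‖∇ρ‖²`; `inner_D`, `norm_sq_D`; `U² ‖∇ρ‖²` is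
integrable by Hölder; `T4 U U U (val z) = T4 U U (val w) (val w)` by `integral_congr_ae`.
-/

open MeasureTheory Filter Topology Metric
open scoped ContDiff RealInnerProductSpace ENNReal

noncomputable section
namespace CritSys

theorem Hardy_int {g : E4 → ℝ} (hg : ContDiff ℝ ∞ g) (hc : HasCompactSupport g) (v : E4) :
    Integrable (fun x => fderiv ℝ g x v) ∧ ∫ x, fderiv ℝ g x v = 0 := by
  have h1 : Integrable (fun x => fderiv ℝ g x v) :=
    ((hg.continuous_fderiv (by simp)).clm_apply continuous_const).integrable_of_hasCompactSupport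
      (hc.fderiv_apply ℝ v)
  refine ⟨h1, ?_⟩
  have h2 := integral_mul_fderiv_eq_neg_fderiv_mul_of_integrable (μ := volume)
    (f := fun _ : E4 => (1 : ℝ)) (g := g) (v := v) (by simp) (by simpa using h1)
    (by simpa using hg.continuous.integrable_of_hasCompactSupport hc)
    (fun _ _ => differentiableAt_const _) fun x _ => hg.differentiable (by simp) x
  simpa using h2

/-- the components of the auxiliary field -/
def Hardy_h (f : E4 → ℝ) (i : Fin 4) (x : E4) : ℝ := f x * f x * ((1 + ‖x‖ ^ 2)⁻¹ * x i)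

theorem Hardy_pos (x : E4) : 0 < 1 + ‖x‖ ^ 2 := by positivity

theorem Hardy_smooth {f : E4 → ℝ} (hf : ContDiff ℝ ∞ f) (i : Fin 4) :
    ContDiff ℝ ∞ (Hardy_h f i) :=
  (hf.mul hf).mul (((contDiff_const.add (contDiff_norm_sq ℝ)).inv fun x => (Hardy_pos x).ne').mul
    (EuclideanSpace.proj (𝕜 := ℝ) i).contDiff)

theorem Hardy_deriv {f : E4 → ℝ} (hf : ContDiff ℝ ∞ f) (i : Fin 4) (x : E4) :
    fderiv ℝ (Hardy_h f i) x (EuclideanSpace.single i 1) =
      f x ^ 2 * ((1 + ‖x‖ ^ 2)⁻¹ - 2 * (1 + ‖x‖ ^ 2)⁻¹ ^ 2 * x i ^ 2) +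
        2 * f x * (1 + ‖x‖ ^ 2)⁻¹ * x i * gradient f x i := by
  have h1 : HasFDerivAt (fun x : E4 => 1 + ‖x‖ ^ 2) (2 • innerSL ℝ x) x :=
    (hasStrictFDerivAt_norm_sq x).hasFDerivAt.const_add 1
  have h2 := (hasDerivAt_inv (Hardy_pos x).ne').comp_hasFDerivAt x h1
  have h3 := (EuclideanSpace.proj (𝕜 := ℝ) i).hasFDerivAt (x := x)
  have h4 := (hf.differentiable (by simp) x).hasFDerivAt
  have h5 : HasFDerivAt (Hardy_h f i) _ x := (h4.mul h4).mul (h2.mul h3)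
  have h6 : fderiv ℝ f x (EuclideanSpace.single i 1) = gradient f x i := by
    rw [← inner_gradient, EuclideanSpace.inner_single_right]
    simp
  rw [h5.fderiv]
  simp [h6, EuclideanSpace.inner_single_right]
  ring

theorem Hardy_pt {f : E4 → ℝ} (hf : ContDiff ℝ ∞ f) (x : E4) :
    f x ^ 2 / (1 + ‖x‖ ^ 2) ≤ ‖gradient f x‖ ^ 2 +
      ∑ i, fderiv ℝ (Hardy_h f i) x (EuclideanSpace.single i 1) := by
  simp only [Hardy_deriv hf, Fin.sum_univ_four]
  have h1 := EuclideanSpace.real_norm_sq_eq x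
  have h2 := mul_inv_cancel₀ (Hardy_pos x).ne'
  rw [EuclideanSpace.real_norm_sq_eq (gradient f x), div_eq_mul_inv, Fin.sum_univ_four]
  rw [Fin.sum_univ_four] at h1
  generalize (1 + ‖x‖ ^ 2)⁻¹ = p at h2 ⊢
  rw [h1] at h2
  generalize gradient f x = a
  generalize f x = t
  have h3 : t ^ 2 * p * ((1 + (x 0 ^ 2 + x 1 ^ 2 + x 2 ^ 2 + x 3 ^ 2)) * p - 1) = 0 := by
    rw [h2, sub_self, mul_zero]
  linarith only [h3, sq_nonneg (a 0 + t * p * x 0), sq_nonneg (a 1 + t * p * x 1),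
    sq_nonneg (a 2 + t * p * x 2), sq_nonneg (a 3 + t * p * x 3), sq_nonneg (t * p), sq_nonneg (t * p), sq_nonneg (a.ofLp (3 : Fin (4 : ℕ)) + t * p * x.ofLp (3 : Fin (4 : ℕ))), sq_nonneg (a.ofLp (2 : Fin (4 : ℕ)) + t * p * x.ofLp (2 : Fin (4 : ℕ))), sq_nonneg (a.ofLp (1 : Fin (4 : ℕ)) + t * p * x.ofLp (1 : Fin (4 : ℕ))), sq_nonneg (a.ofLp (0 : Fin (4 : ℕ)) + t * p * x.ofLp (0 : Fin (4 : ℕ)))]

theorem hardy_tst (f : Tst) : ∫ x, (f : E4 → ℝ) x ^ 2 / (1 + ‖x‖ ^ 2) ≤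
    ∫ x, ‖gradient (f : E4 → ℝ) x‖ ^ 2 := by
  have h1 := fun i => Hardy_int (Hardy_smooth f.2.1 i)
    (f.2.2.mul_right.mul_right) (EuclideanSpace.single i 1)
  have h2 := (memLp_two_iff_integrable_sq_norm (tst_memLp_grad f 2).1).1 (tst_memLp_grad f 2)
  have h3 := integrable_finsetSum Finset.univ fun i _ => (h1 i).1
  refine (integral_mono_of_nonneg (ae_of_all _ fun x => ?_) (h2.add h3)
    (ae_of_all _ fun x => Hardy_pt f.2.1 x)).trans (le_of_eq ?_)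
  · have := Hardy_pos x
    simp only [Pi.zero_apply]
    positivity
  · simp only [Pi.add_apply]
    rw [integral_add h2 h3, integral_finsetSum _ fun i _ => (h1 i).1]
    simp [(h1 _).2]

theorem hardy_D (u : D) (ϖ : L4 (volume : Measure E4))
    (hϖ : ∀ᵐ x : E4, ϖ x ^ 2 ≤ 1 / (1 + ‖x‖ ^ 2)) : T4 ϖ ϖ (val u) (val u) ≤ ‖u‖ ^ 2 := by
  refine denseRange_ofT.induction_on u (isClosed_le (T4_continuous continuous_const
    continuous_const val.continuous val.continuous) (continuous_norm.pow 2)) fun f => ?_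
  rw [norm_sq_ofT]
  refine le_trans ?_ (hardy_tst f)
  refine integral_mono_ae (T4_integrable _ _ _ _) ?_ ?_
  · refine Continuous.integrable_of_hasCompactSupport ((f.2.1.continuous.pow 2).div
      (by fun_prop) fun x => (Hardy_pos x).ne') ?_
    simp only [div_eq_mul_inv, sq]
    exact f.2.2.mul_right.mul_right
  · filter_upwards [hϖ, val_ofT f] with x h1 h2
    rw [h2, div_eq_mul_one_div]
    nlinarith only [h1, mul_le_mul_of_nonneg_left h1 (sq_nonneg ((f : E4 → ℝ) x))]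

theorem ims {U : D} {c : ℝ} (hU : ∀ ψ : D, ⟪U, ψ⟫ = c * T4 (val U) (val U) (val U) (val ψ))
    {ρ : E4 → ℝ} (hρ : Mult ρ) {Ω : Set E4}
    (h : U ∈ H0 Ω ∨ (HasCompactSupport ρ ∧ tsupport ρ ⊆ Ω)) :
    ∃ w ∈ H0 Ω, (∀ᵐ x, val w x = ρ x * val U x) ∧
      Integrable (fun x => val U x ^ 2 * ‖gradient ρ x‖ ^ 2) ∧
      ‖w‖ ^ 2 = c * T4 (val U) (val U) (val w) (val w) +
        ∫ x, val U x ^ 2 * ‖gradient ρ x‖ ^ 2 := by
  obtain ⟨w, w1, w2, w3⟩ := mul_D U hρ h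
  obtain ⟨z, -, z2, z3⟩ := mul_D U (hρ.mul hρ) (Or.inl (mem_H0_univ U))
  have h1 : Integrable (fun x => val U x ^ 2 * ‖gradient ρ x‖ ^ 2) := by
    refine (T4_integrable (val U) (val U) (hρ.2.2.norm.toLp _) (hρ.2.2.norm.toLp _)).congr ?_
    filter_upwards [hρ.2.2.norm.coeFn_toLp] with x hx
    rw [hx]
    ring
  refine ⟨w, w1, w2, h1, ?_⟩
  have h2 : T4 (val U) (val U) (val w) (val w) = T4 (val U) (val U) (val U) (val z) := by
    refine integral_congr_ae ?_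
    filter_upwards [w2, z2] with x a b
    rw [a, b]
    ring
  have h3 : Integrable fun x => ⟪grd U x, grd z x⟫ := L2.integrable_inner (grdL U) (grdL z)
  rw [h2, ← hU, inner_D, norm_sq_D, ← integral_add h3 h1]
  refine integral_congr_ae ?_
  filter_upwards [w3, z3] with x a b
  rw [a, b, gradient_mul' hρ.1 hρ.1, norm_add_sq_real]
  simp only [inner_add_right, real_inner_smul_right, norm_smul, mul_pow,
    Real.norm_eq_abs, sq_abs, real_inner_self_eq_norm_sq, real_inner_comm (grd U x)]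
  ring

end CritSys
end
end

-- merged part: Pool.Agent.Work.MP_80ee1d_an.Weight
section
/-!
Slow growth of the `L²` mass of a solution of the critical equation on `ℝ⁴`.

PLAN. `weight_exists`: `α = (1 - γ) / 2`, `ρ x = g (‖x‖²)`,
`g s = exp (α (log (1 + s) - log (1 + s / K²)))`, `g' s = α g s (K² - 1) / ((1 + s)(K² + s))`,
`‖∇ρ x‖ = 2 ‖x‖ |g'|`.  `1 ≤ (1 + s) / (1 + s / K²) ≤ min (1 + s) K²`, and `2 α ≤ 1`.
`ϖ x = (1 + s)^(-1/2) (1 + s / K²)⁻¹` is in `L⁴`: `ϖ⁴ ≤ K⁸ (1 + s)^(-6)`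
(`integrable_rpow_neg_one_add_norm_sq`, `finrank = 4 < 12`), and `‖∇ρ‖ ≤ (1 - γ) ρ ϖ ≤ K ϖ`.  On the
ball `s ≤ K²`: `ρ² ≥ ((1 + s) / 2)^(1 - γ)`, so `ρ² / (1 + s) ≥ (1 + s)^(-γ) / 2 ≥ (1 + K²)^(-γ) / 2`.
`growth`: `κ = 1 - (1 - γ)² > 0`.  Choose `L` with `|c| ‖U 1_{‖x‖ ≥ L}‖₄² ≤ κ S0 / 2` (dominated
convergence for `∫ U⁴` on the complements of balls).  For `w` from `ims` (`mem_H0_univ`):
`∫ U² ‖∇ρ‖² ≤ (1 - γ)² T4 ϖ ϖ w w ≤ (1 - γ)² ‖w‖²` (`hardy_D`), and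
`T4 U U w w ≤ (1 + L²) ‖U‖₄⁴ + ‖U 1_{‖x‖ ≥ L}‖₄² ‖val w‖²`.  So `κ ‖w‖² / 2 ≤ |c| (1 + L²) ‖U‖₄⁴`
uniformly in `K`.  `hardy_D` again with the weight `1_{ball 0 K} (1 + ‖x‖²)^(-1/2)`.
-/

open MeasureTheory Filter Topology Metric
open scoped ContDiff RealInnerProductSpace ENNReal

noncomputable section
namespace CritSys

theorem Weight_memLp4 {f : E4 → ℝ} (hf : AEStronglyMeasurable f volume)
    (h : Integrable fun x => f x ^ 4) : MemLp f 4 volume := by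
  rw [← integrable_norm_rpow_iff hf (by norm_num) (by norm_num)]
  refine h.congr (Eventually.of_forall fun x => ?_)
  have e : (4 : ℝ≥0∞).toReal = ((4 : ℕ) : ℝ) := by norm_num
  simp only [e, Real.rpow_natCast, Real.norm_eq_abs]
  exact (Even.pow_abs (by decide) _).symm

/-- The logarithm of the quotient. -/
def wL (K s : ℝ) : ℝ := Real.log (1 + s) - Real.log (1 + s / K ^ 2)

theorem Weight_wL {K s : ℝ} (hK : 1 ≤ K) (hs : 0 ≤ s) :
    0 ≤ wL K s ∧ wL K s ≤ Real.log (1 + s) ∧ wL K s ≤ Real.log (K ^ 2) := by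
  have hK2 : 1 ≤ K ^ 2 := one_le_pow₀ hK
  have h0 : 0 ≤ s / K ^ 2 := by positivity
  have h1 : s / K ^ 2 ≤ s := div_le_self hs hK2
  refine ⟨sub_nonneg.2 (Real.log_le_log (by positivity) (by linarith only [h1])), ?_, ?_⟩
  · have := Real.log_nonneg (show 1 ≤ 1 + s / K ^ 2 by linarith only [h0])
    unfold wL; linarith only [this]
  · unfold wL
    rw [sub_le_iff_le_add, ← Real.log_mul (by positivity) (by positivity)]
    refine Real.log_le_log (by positivity) ?_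
    rw [mul_add, mul_div_cancel₀ _ (by positivity)]
    linarith

theorem Weight_deriv (α : ℝ) {K s : ℝ} (hK : 1 ≤ K) (hs : 0 ≤ s) :
    HasDerivAt (fun s => Real.exp (α * wL K s))
      (Real.exp (α * wL K s) * (α * (1 / (1 + s) - 1 / K ^ 2 / (1 + s / K ^ 2)))) s := by
  have h1 : HasDerivAt (fun s : ℝ => 1 + s) 1 s := (hasDerivAt_id s).const_add 1
  have h2 : HasDerivAt (fun s : ℝ => 1 + s / K ^ 2) (1 / K ^ 2) s :=
    ((hasDerivAt_id s).div_const (K ^ 2)).const_add 1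
  exact (((h1.log (by positivity)).sub (h2.log (by positivity))).const_mul α).exp

theorem weight_exists {γ K : ℝ} (h0 : 0 < γ) (h1 : γ < 1) (hK : 1 ≤ K) :
    ∃ (ρ : E4 → ℝ) (ϖ : L4 (volume : Measure E4)), Mult ρ ∧
      (∀ᵐ x : E4, ϖ x ^ 2 ≤ 1 / (1 + ‖x‖ ^ 2)) ∧
      (∀ᵐ x : E4, ‖gradient ρ x‖ ^ 2 ≤ (1 - γ) ^ 2 * (ρ x ^ 2 * ϖ x ^ 2)) ∧
      (∀ x : E4, ρ x ^ 2 ≤ 1 + ‖x‖ ^ 2) ∧
      ∀ x : E4, ‖x‖ ≤ K → (1 + K ^ 2) ^ (-γ) / 2 ≤ ρ x ^ 2 / (1 + ‖x‖ ^ 2) := by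
  have hK0 : 0 < K := by linarith
  have hK2 : 1 ≤ K ^ 2 := one_le_pow₀ hK
  set α := (1 - γ) / 2 with hα
  have hα0 : 0 < α := by rw [hα]; linarith only [h1]
  have hα1 : 2 * α ≤ 1 := by rw [hα]; linarith only [h0]
  set ρ : E4 → ℝ := fun x => Real.exp (α * wL K (‖x‖ ^ 2)) with hρ
  set w : E4 → ℝ := fun x => (√(1 + ‖x‖ ^ 2))⁻¹ * (1 + ‖x‖ ^ 2 / K ^ 2)⁻¹ with hw
  have hsq : ∀ x, ρ x ^ 2 = Real.exp (2 * α * wL K (‖x‖ ^ 2)) := by
    intro x
    rw [hρ, ← Real.exp_nat_mul]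
    congr 1; push_cast; ring
  have hw2 : ∀ x, w x ^ 2 = 1 / (1 + ‖x‖ ^ 2) * ((1 + ‖x‖ ^ 2 / K ^ 2)⁻¹) ^ 2 := by
    intro x
    rw [hw]
    simp only [mul_pow, inv_pow]
    rw [Real.sq_sqrt (by positivity), one_div]
  have hwc : Continuous w := by
    refine (Continuous.inv₀ (by fun_prop) fun x => ?_).mul (Continuous.inv₀ (by fun_prop) fun x => ?_)
    · exact (Real.sqrt_pos.2 (by positivity)).ne'
    · positivity
  have hw4 : MemLp w 4 volume := by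
    refine Weight_memLp4 hwc.aestronglyMeasurable ?_
    have hi := integrable_rpow_neg_one_add_norm_sq (E := E4) (μ := volume) (r := 12)
      (by simp; norm_num)
    refine (hi.const_mul (K ^ 8)).mono' (hwc.pow 4).aestronglyMeasurable
      (Eventually.of_forall fun x => ?_)
    have e : (-12 / 2 : ℝ) = -((6 : ℕ) : ℝ) := by norm_num
    have hs : 0 < 1 + ‖x‖ ^ 2 := by positivity
    rw [e, Real.rpow_neg hs.le, Real.rpow_natCast, Real.norm_of_nonneg (by positivity),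
      show w x ^ 4 = (w x ^ 2) ^ 2 by ring, hw2]
    have h3 : (1 + ‖x‖ ^ 2 / K ^ 2)⁻¹ ≤ K ^ 2 * (1 + ‖x‖ ^ 2)⁻¹ := by
      rw [← div_eq_mul_inv, inv_le_comm₀ (by positivity) (by positivity), inv_div, add_div]
      have : 1 / K ^ 2 ≤ 1 := div_le_self zero_le_one hK2
      linarith only [this]
    calc (1 / (1 + ‖x‖ ^ 2) * ((1 + ‖x‖ ^ 2 / K ^ 2)⁻¹) ^ 2) ^ 2
        ≤ (1 / (1 + ‖x‖ ^ 2) * (K ^ 2 * (1 + ‖x‖ ^ 2)⁻¹) ^ 2) ^ 2 := by gcongr
      _ = K ^ 8 * ((1 + ‖x‖ ^ 2) ^ 6)⁻¹ := by field_simp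
  have hcd : ContDiff ℝ ∞ ρ := by
    refine Real.contDiff_exp.comp (contDiff_const.mul (ContDiff.sub ?_ ?_))
    · exact (contDiff_const.add (contDiff_norm_sq ℝ)).log fun x => by positivity
    · exact (contDiff_const.add ((contDiff_norm_sq ℝ).div_const _)).log fun x => by positivity
  have hgr : ∀ x, ‖gradient ρ x‖ ^ 2 ≤ (1 - γ) ^ 2 * (ρ x ^ 2 * w x ^ 2) := by
    intro x
    have h3 := (Weight_deriv α hK (sq_nonneg ‖x‖)).comp_hasFDerivAt x
      (hasStrictFDerivAt_norm_sq x).hasFDerivAt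
    have h4 : fderiv ℝ ρ x = _ := h3.fderiv
    rw [norm_gradient, h4, norm_smul, two_smul, ← two_smul ℝ, norm_smul, innerSL_apply_norm,
      Real.norm_eq_abs, Real.norm_eq_abs, mul_pow, mul_pow, sq_abs, sq_abs, hw2]
    set s := ‖x‖ ^ 2 with hs
    have hs0 : 0 ≤ s := sq_nonneg _
    have e1 : 1 / (1 + s) - 1 / K ^ 2 / (1 + s / K ^ 2) =
        (1 - 1 / K ^ 2) * (1 / (1 + s)) * (1 + s / K ^ 2)⁻¹ := by
      field_simp; ring
    have e2 : 1 - γ = 2 * α := by rw [hα]; ring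
    have h5 : (1 - 1 / K ^ 2) ^ 2 ≤ 1 := by
      have : 1 / K ^ 2 ≤ 1 := div_le_self zero_le_one hK2
      have : 0 ≤ 1 / K ^ 2 := by positivity
      nlinarith
    have h6 : s * (1 / (1 + s)) ≤ 1 := by
      rw [mul_one_div, div_le_one (by positivity)]; linarith only []
    have h7 : (1 - 1 / K ^ 2) ^ 2 * (s * (1 / (1 + s))) ≤ 1 :=
      mul_le_one₀ h5 (by positivity) h6
    rw [e1, e2]
    change (ρ x * _) ^ 2 * _ ≤ _
    have h8 := mul_le_mul_of_nonneg_left h7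
      (show 0 ≤ (2 * α) ^ 2 * (ρ x ^ 2 * (1 / (1 + s) * ((1 + s / K ^ 2)⁻¹) ^ 2)) by positivity)
    refine le_of_eq_of_le ?_ (h8.trans_eq (mul_one _))
    ring
  have hb : ∀ x, ρ x ^ 2 ≤ K ^ 2 := by
    intro x
    obtain ⟨k1, -, k3⟩ := Weight_wL hK (sq_nonneg ‖x‖)
    rw [hsq, ← Real.exp_log (show 0 < K ^ 2 by positivity)]
    exact Real.exp_le_exp.2 (by (refine le_of_not_gt fun h_nl => ?_; linarith only [h_nl, k3, h0, k1, h1, hα, mul_nonneg_of_nonpos_of_nonpos (le_of_lt (Mathlib.Tactic.Linarith.sub_neg_of_lt h0)) (Mathlib.Tactic.Linarith.sub_nonpos_of_le k1), mul_pos_of_neg_of_neg (Mathlib.Tactic.Linarith.sub_neg_of_lt h0) (Mathlib.Tactic.Linarith.sub_neg_of_lt h_nl), mul_pos_of_neg_of_neg (Mathlib.Tactic.Linarith.sub_neg_of_lt h1) (Mathlib.Tactic.Linarith.sub_neg_of_lt h_nl), Mathlib.Tactic.Linarith.zero_mul_eq (sub_eq_zero_of_eq hα) (Mathlib.Tactic.Linarith.sub_nonpos_of_le k1)]))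
  refine ⟨ρ, hw4.toLp w, ⟨hcd, ⟨K, fun x => abs_le_of_sq_le_sq' (hb x) hK0.le |> abs_le.2⟩, ?_⟩,
    ?_, ?_, fun x => ?_, fun x hx => ?_⟩
  · refine (hw4.const_mul K).of_le (continuous_gradient hcd).aestronglyMeasurable
      (Eventually.of_forall fun x => ?_)
    refine le_of_sq_le_sq ?_ (norm_nonneg _) |> fun h => h
    rw [Real.norm_eq_abs, sq_abs, mul_pow]
    refine (hgr x).trans ?_
    have k1 : (1 - γ) ^ 2 ≤ 1 := by linarith only [h0, h1, mul_pos_of_neg_of_neg (Mathlib.Tactic.Linarith.sub_neg_of_lt h0) (Mathlib.Tactic.Linarith.sub_neg_of_lt h1)]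
    exact (mul_le_of_le_one_left (by positivity) k1).trans
      (mul_le_mul_of_nonneg_right (hb x) (sq_nonneg _))
  · filter_upwards [hw4.coeFn_toLp] with x hx
    rw [hx, hw2]
    refine mul_le_of_le_one_right (by positivity) (pow_le_one₀ (by positivity) ?_)
    exact inv_le_one_of_one_le₀ (by have : 0 ≤ ‖x‖ ^ 2 / K ^ 2 := by positivity
                                    linarith only [this])
  · filter_upwards [hw4.coeFn_toLp] with x hx
    rw [hx]; exact hgr x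
  · obtain ⟨k1, k2, -⟩ := Weight_wL hK (sq_nonneg ‖x‖)
    rw [hsq, ← Real.exp_log (show 0 < 1 + ‖x‖ ^ 2 by positivity)]
    exact Real.exp_le_exp.2 (by (refine le_of_not_gt fun h_nl => ?_; linarith only [h_nl, k2, h0, k1, h1, hα, mul_nonneg_of_nonpos_of_nonpos (le_of_lt (Mathlib.Tactic.Linarith.sub_neg_of_lt h0)) (Mathlib.Tactic.Linarith.sub_nonpos_of_le k1), mul_pos_of_neg_of_neg (Mathlib.Tactic.Linarith.sub_neg_of_lt h0) (Mathlib.Tactic.Linarith.sub_neg_of_lt h_nl), mul_pos_of_neg_of_neg (Mathlib.Tactic.Linarith.sub_neg_of_lt h1) (Mathlib.Tactic.Linarith.sub_neg_of_lt h_nl), Mathlib.Tactic.Linarith.zero_mul_eq (sub_eq_zero_of_eq hα) (Mathlib.Tactic.Linarith.sub_nonpos_of_le k1)]))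
  · have hs : ‖x‖ ^ 2 ≤ K ^ 2 := by gcongr
    have hs0 : 0 < 1 + ‖x‖ ^ 2 := by positivity
    have k1 : Real.log (1 + ‖x‖ ^ 2 / K ^ 2) ≤ Real.log 2 := by
      refine Real.log_le_log (by positivity) ?_
      have : ‖x‖ ^ 2 / K ^ 2 ≤ 1 := (div_le_one (by positivity)).2 hs
      linarith only [this]
    have k2 : Real.log (1 + ‖x‖ ^ 2) ≤ Real.log (1 + K ^ 2) := Real.log_le_log hs0 (by linarith only [hs])
    have k3 : 0 ≤ Real.log 2 := Real.log_nonneg one_le_two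
    have e2 : 2 * α = 1 - γ := by rw [hα]; ring
    have e3 : (1 + K ^ 2) ^ (-γ) / 2 = Real.exp (Real.log (1 + K ^ 2) * -γ - Real.log 2) := by
      rw [Real.exp_sub, Real.exp_log two_pos, Real.rpow_def_of_pos (by positivity)]
    have e4 : ρ x ^ 2 / (1 + ‖x‖ ^ 2) =
        Real.exp ((1 - γ) * wL K (‖x‖ ^ 2) - Real.log (1 + ‖x‖ ^ 2)) := by
      rw [Real.exp_sub, Real.exp_log hs0, hsq, e2]
    rw [e3, e4]
    refine Real.exp_le_exp.2 ?_
    unfold wL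
    linarith only [h0, k2, k3, h1, k1, mul_nonneg_of_nonpos_of_nonpos (le_of_lt (Mathlib.Tactic.Linarith.sub_neg_of_lt h0)) (Mathlib.Tactic.Linarith.sub_nonpos_of_le k2), mul_nonneg_of_nonpos_of_nonpos (le_of_lt (Mathlib.Tactic.Linarith.sub_neg_of_lt h0)) (Mathlib.Tactic.Linarith.sub_nonpos_of_le k3), mul_nonneg_of_nonpos_of_nonpos (le_of_lt (Mathlib.Tactic.Linarith.sub_neg_of_lt h1)) (Mathlib.Tactic.Linarith.sub_nonpos_of_le k1)]

theorem Weight_tail (a : L4 (volume : Measure E4)) {ζ : ℝ} (hζ : 0 < ζ) :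
    ∃ (L : ℝ) (b : L4 (volume : Measure E4)), 0 ≤ L ∧ ‖b‖ ^ 2 ≤ ζ ∧
      ∀ᵐ x : E4, x ∉ ball (0 : E4) L → b x = a x := by
  have hi := T4_integrable a a a a
  have ht := tendsto_setIntegral_of_antitone (μ := volume) (f := fun x => a x * a x * a x * a x)
    (s := fun n : ℕ => (ball (0 : E4) n)ᶜ) (fun n => measurableSet_ball.compl)
    (fun m n h => Set.compl_subset_compl.2 (ball_subset_ball (Nat.cast_le.2 h)))
    ⟨0, hi.integrableOn⟩
  rw [← Set.compl_iUnion, iUnion_ball_nat, Set.compl_univ, Measure.restrict_empty,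
    integral_zero_measure] at ht
  obtain ⟨n, hn⟩ := (ht.eventually (gt_mem_nhds (pow_pos hζ 2))).exists
  have hm : MeasurableSet (ball (0 : E4) n)ᶜ := measurableSet_ball.compl
  have hb := (Lp.memLp a).indicator hm
  refine ⟨n, hb.toLp _, n.cast_nonneg, ?_, ?_⟩
  · refine le_of_sq_le_sq ?_ hζ.le
    rw [← pow_mul, ← T4_self, T4]
    refine le_of_eq_of_le ?_ hn.le
    rw [← integral_indicator hm]
    refine integral_congr_ae ?_
    filter_upwards [hb.coeFn_toLp] with x hx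
    rw [hx]
    by_cases h : x ∈ (ball (0 : E4) n)ᶜ <;> simp [h]
  · filter_upwards [hb.coeFn_toLp] with x hx h
    rw [hx, Set.indicator_of_mem h]

theorem Weight_ball (K : ℝ) : ∃ b : L4 (volume : Measure E4),
    ∀ᵐ x : E4, b x ^ 2 = (ball (0 : E4) K).indicator (fun x => 1 / (1 + ‖x‖ ^ 2)) x := by
  have hc : Continuous fun x : E4 => (√(1 + ‖x‖ ^ 2))⁻¹ :=
    Continuous.inv₀ (by fun_prop) fun x => (Real.sqrt_pos.2 (by positivity)).ne'
  have h1 : MemLp ((ball (0 : E4) K).indicator fun _ => (1 : ℝ)) 4 volume :=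
    memLp_indicator_const 4 measurableSet_ball 1 (Or.inr measure_ball_lt_top.ne)
  have h2 : MemLp ((ball (0 : E4) K).indicator fun x => (√(1 + ‖x‖ ^ 2))⁻¹) 4 volume := by
    refine h1.of_le (hc.aestronglyMeasurable.indicator measurableSet_ball)
      (Eventually.of_forall fun x => ?_)
    by_cases h : x ∈ ball (0 : E4) K
    · rw [Set.indicator_of_mem h, Set.indicator_of_mem h, norm_one,
        Real.norm_of_nonneg (by positivity)]
      exact inv_le_one_of_one_le₀ (Real.one_le_sqrt.2 (by linarith only [sq_nonneg ‖x‖, sq_nonneg ‖x‖]))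
    · simp [h]
  refine ⟨h2.toLp _, ?_⟩
  filter_upwards [h2.coeFn_toLp] with x hx
  rw [hx]
  by_cases h : x ∈ ball (0 : E4) K
  · rw [Set.indicator_of_mem h, Set.indicator_of_mem h, inv_pow, Real.sq_sqrt (by positivity),
      one_div]
  · simp [h]

theorem growth {U : D} {c : ℝ} (hU : ∀ ψ : D, ⟪U, ψ⟫ = c * T4 (val U) (val U) (val U) (val ψ))
    {γ : ℝ} (h0 : 0 < γ) (h1 : γ < 1) : ∃ A : ℝ, ∀ K : ℝ, 1 ≤ K →
      ∫ x in ball (0 : E4) K, val U x ^ 2 ≤ A * (1 + K ^ 2) ^ γ := by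
  set κ := 1 - (1 - γ) ^ 2 with hκ
  have hκ0 : 0 < κ := by rw [hκ]; linarith only [h0, h1, mul_pos_of_neg_of_neg (Mathlib.Tactic.Linarith.sub_neg_of_lt h0) (Mathlib.Tactic.Linarith.sub_neg_of_lt h1)]
  have hS := S0_pos
  have hc : 0 < |c| + 1 := by positivity
  obtain ⟨L, b, hL, hb, hba⟩ := Weight_tail (val U)
    (show 0 < κ * S0 / (2 * (|c| + 1)) by positivity)
  refine ⟨4 / κ * (|c| * ((1 + L ^ 2) * ‖val U‖ ^ 4)), fun K hK => ?_⟩
  obtain ⟨ρ, ϖ, hρ, hϖ, hgr, hρ1, hρ2⟩ := weight_exists h0 h1 hK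
  obtain ⟨w, -, hw, hi, hn⟩ := ims hU hρ (Or.inl (mem_H0_univ U))
  have k1 : ∫ x, val U x ^ 2 * ‖gradient ρ x‖ ^ 2 ≤ (1 - γ) ^ 2 * ‖w‖ ^ 2 := by
    refine le_trans ?_ (mul_le_mul_of_nonneg_left (hardy_D w ϖ hϖ) (sq_nonneg _))
    rw [T4, ← integral_const_mul]
    refine integral_mono_ae hi ((T4_integrable _ _ _ _).const_mul _) ?_
    filter_upwards [hw, hgr] with x e1 e2
    rw [e1]
    nlinarith only [e2, mul_le_mul_of_nonneg_left e2 (sq_nonneg (val U x))]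
  have k2 : T4 (val U) (val U) (val w) (val w) ≤
      (1 + L ^ 2) * ‖val U‖ ^ 4 + T4 b b (val w) (val w) := by
    rw [← T4_self, T4, T4, T4, ← integral_const_mul,
      ← integral_add ((T4_integrable _ _ _ _).const_mul _) (T4_integrable _ _ _ _)]
    refine integral_mono_ae (T4_integrable _ _ _ _)
      (((T4_integrable _ _ _ _).const_mul _).add (T4_integrable _ _ _ _)) ?_
    filter_upwards [hw, hba] with x e1 e2
    by_cases h : x ∈ ball (0 : E4) L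
    · have e3 : ‖x‖ ^ 2 ≤ L ^ 2 := by
        have := mem_ball_zero_iff.1 h
        gcongr
      have e4 := mul_le_mul_of_nonneg_right ((hρ1 x).trans (add_le_add_right e3 1))
        (show 0 ≤ val U x ^ 4 by positivity)
      have e5 : 0 ≤ (b x * val w x) ^ 2 := sq_nonneg _
      rw [e1] at e5 ⊢
      nlinarith
    · rw [e2 h]
      have : 0 ≤ (1 + L ^ 2) * val U x ^ 4 := by positivity
      linarith only [this]
  have k3 : |c| * T4 b b (val w) (val w) ≤ κ / 2 * ‖w‖ ^ 2 := by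
    have e1 := (le_abs_self _).trans (T4_abs_le b b (val w) (val w))
    have e2 := mul_le_mul_of_nonneg_right hb (sq_nonneg ‖val w‖)
    have e3 := mul_le_mul_of_nonneg_left (S0_le w) (show 0 ≤ κ / 2 by positivity)
    have e4 : (|c| + 1) * (κ * S0 / (2 * (|c| + 1)) * ‖val w‖ ^ 2) =
        κ / 2 * (S0 * ‖val w‖ ^ 2) := by field_simp
    have e5 : T4 b b (val w) (val w) ≤ κ * S0 / (2 * (|c| + 1)) * ‖val w‖ ^ 2 := by linarith only [e1, e2]
    have e6 := mul_le_mul_of_nonneg_left e5 hc.le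
    linarith only [e3, e4, e6, T4_sq_nonneg b (val w)]
  have k4 : κ / 2 * ‖w‖ ^ 2 ≤ |c| * ((1 + L ^ 2) * ‖val U‖ ^ 4) := by
    have e1 := mul_le_mul_of_nonneg_right (le_abs_self c) (T4_sq_nonneg (val U) (val w))
    have e2 := mul_le_mul_of_nonneg_left k2 (abs_nonneg c)
    rw [hκ] at k3 ⊢
    linarith only [hn, k1, k3, e1, e2]
  obtain ⟨a, ha⟩ := Weight_ball K
  have k5 : T4 a a (val w) (val w) ≤ ‖w‖ ^ 2 := by
    refine hardy_D w a ?_
    filter_upwards [ha] with x e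
    rw [e]
    exact Set.indicator_le_self' (fun _ _ => by positivity) x
  have hpos : 0 < (1 + K ^ 2) ^ γ := by positivity
  have k6 : (1 + K ^ 2) ^ (-γ) / 2 * ∫ x in ball (0 : E4) K, val U x ^ 2 ≤
      T4 a a (val w) (val w) := by
    rw [← integral_const_mul, ← integral_indicator measurableSet_ball, T4]
    refine integral_mono_of_nonneg (Eventually.of_forall fun x => ?_) (T4_integrable _ _ _ _) ?_
    · exact Set.indicator_nonneg (fun _ _ => by positivity) x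
    filter_upwards [ha, hw] with x e1 e2
    rw [show a x * a x * val w x * val w x = a x ^ 2 * val w x ^ 2 by ring, e1, e2]
    by_cases h : x ∈ ball (0 : E4) K
    · rw [Set.indicator_of_mem h, Set.indicator_of_mem h]
      refine (mul_le_mul_of_nonneg_right (hρ2 x (mem_ball_zero_iff.1 h).le) (sq_nonneg _)).trans
        (le_of_eq ?_)
      ring
    · simp [h]
  rw [Real.rpow_neg (by positivity)] at k6
  have k7 : ‖w‖ ^ 2 ≤ 2 / κ * (|c| * ((1 + L ^ 2) * ‖val U‖ ^ 4)) := by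
    rw [div_mul_eq_mul_div, le_div_iff₀ hκ0]; linarith only [k4]
  have k8 := mul_le_mul_of_nonneg_left ((k6.trans k5).trans k7)
    (show 0 ≤ 2 * (1 + K ^ 2) ^ γ by positivity)
  refine le_of_eq_of_le ?_ (k8.trans_eq (by ring))
  field_simp

end CritSys
end
end
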