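import Pool.Agent.Work.MP_80ee1d_an.Comp
import Mathlib
import Pool.Agent.Work.MP_80ee1d_an.SmpB
import Pool.Agent.Work.MP_80ee1d_an.Dich
import Pool.Agent.Work.MP_80ee1d_an.Weight
import Pool.Agent.Work.MP_80ee1d_an.Ctx

-- merged part: Pool.Agent.Work.MP_80ee1d_an.AbsOsc
section
/-!
Absolute values and oscillating functions.

PLAN. `abs_H0`: `G n t = √(t² + ε²) - ε`, `ε = 1/(n+1)`, is smooth, `G n 0 = 0`,
`deriv = t / √(t² + ε²)` has modulus `≤ 1`.  `comp_D` gives `w n ∈ H0 Ω` with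
`grd (w n) = G' (u) • grd u → sign (u) • grd u` in `L²` (dominated convergence), so `w n` is Cauchy
(or: `grdL (w n)` converges in `Lp`, `norm_grdL`), the limit `w` lies in the closed set `H0 Ω`,
`‖w n‖ ≤ ‖u‖` (`norm_sq_D`), and `exists_ae_subseq` with `G n t → |t|` identifies `val w`
(`Lp.coeFn_abs`, `Lp.ext`).
`osc_H0`: take `f` from `exists_tst_ne`, so `A = ∫ f² > 0`.  For `k ≥ 1` put
`g x = f x * sin (k x₀) / k`, `g' x = f x * cos (k x₀) / k` (`x₀ = x 0`).  Pointwise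
`‖∇g‖² + ‖∇g'‖² = f² + ‖∇f‖² / k²` (the cross terms cancel), so one of the two has
`‖ofT ·‖² ≥ A / 2`, while `∫ g⁴ ≤ ∫ f⁴ / k⁴`.  Normalise.
-/

open MeasureTheory Filter Topology
open scoped ContDiff RealInnerProductSpace ENNReal

noncomputable section
namespace CritSys

/-- Smooth approximation of the absolute value. -/
def AbsOscG (n : ℕ) (t : ℝ) : ℝ := √(t ^ 2 + (1 / ((n : ℝ) + 1)) ^ 2) - 1 / ((n : ℝ) + 1)

theorem AbsOsc_pos (n : ℕ) (t : ℝ) : 0 < t ^ 2 + (1 / ((n : ℝ) + 1)) ^ 2 := by positivity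

theorem AbsOsc_smooth (n : ℕ) : ContDiff ℝ ∞ (AbsOscG n) :=
  (((contDiff_id.pow 2).add contDiff_const).sqrt fun t => (AbsOsc_pos n t).ne').sub contDiff_const

theorem AbsOsc_zero (n : ℕ) : AbsOscG n 0 = 0 := by
  rw [AbsOscG, zero_pow two_ne_zero, zero_add, Real.sqrt_sq (by positivity), sub_self]

theorem AbsOsc_deriv (n : ℕ) (t : ℝ) :
    deriv (AbsOscG n) t = t / √(t ^ 2 + (1 / ((n : ℝ) + 1)) ^ 2) := by
  have h := ((((hasDerivAt_id' t).fun_pow 2).add_const ((1 / ((n : ℝ) + 1)) ^ 2)).sqrt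
    (AbsOsc_pos n t).ne').sub_const (1 / ((n : ℝ) + 1))
  have h2 := Real.sqrt_pos.2 (AbsOsc_pos n t)
  refine h.deriv.trans ?_
  generalize √(t ^ 2 + (1 / ((n : ℝ) + 1)) ^ 2) = r at h2
  field_simp
  simp

theorem AbsOsc_deriv_le (n : ℕ) (t : ℝ) : |deriv (AbsOscG n) t| ≤ 1 := by
  have h2 := Real.sqrt_pos.2 (AbsOsc_pos n t)
  rw [AbsOsc_deriv, abs_div, abs_of_pos h2, div_le_one h2]
  exact Real.abs_le_sqrt (le_add_of_nonneg_right (by positivity))

theorem AbsOsc_sqrt (t : ℝ) :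
    Tendsto (fun n : ℕ => √(t ^ 2 + (1 / ((n : ℝ) + 1)) ^ 2)) atTop (𝓝 |t|) := by
  have h := ((tendsto_one_div_add_atTop_nhds_zero_nat.pow 2).const_add (t ^ 2)).sqrt
  rwa [zero_pow two_ne_zero, add_zero, Real.sqrt_sq_eq_abs] at h

theorem AbsOsc_lim (t : ℝ) : Tendsto (fun n => AbsOscG n t) atTop (𝓝 |t|) := by
  have h := (AbsOsc_sqrt t).sub tendsto_one_div_add_atTop_nhds_zero_nat
  rwa [sub_zero] at h

theorem AbsOsc_deriv_lim (t : ℝ) :
    Tendsto (fun n => deriv (AbsOscG n) t) atTop (𝓝 (t / |t|)) := by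
  simp only [AbsOsc_deriv]
  rcases eq_or_ne t 0 with rfl | ht
  · simp
  · exact tendsto_const_nhds.div (AbsOsc_sqrt t) (abs_ne_zero.2 ht)

theorem AbsOsc_int (u : D) : Integrable fun x => ‖grd u x‖ ^ 2 :=
  (memLp_two_iff_integrable_sq_norm (grd_memLp u).1).1 (grd_memLp u)

theorem abs_H0 {Ω : Set E4} {u : D} (hu : u ∈ H0 Ω) :
    ∃ w ∈ H0 Ω, val w = |val u| ∧ ‖w‖ ≤ ‖u‖ := by
  choose w hw hv hg using fun n =>
    comp_D hu (AbsOsc_smooth n) ⟨1, AbsOsc_deriv_le n⟩ (AbsOsc_zero n)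
  have hd : ∀ p : ℕ × ℕ, ∀ᵐ x, ‖grd (w p.1 - w p.2) x‖ ^ 2 =
      (deriv (AbsOscG p.1) (val u x) - deriv (AbsOscG p.2) (val u x)) ^ 2 * ‖grd u x‖ ^ 2 :=
    fun p => by
      filter_upwards [grd_sub (w p.1) (w p.2), hg p.1, hg p.2] with x h1 h2 h3
      rw [h1, h2, h3, ← sub_smul, norm_smul, mul_pow, Real.norm_eq_abs, sq_abs]
  have h1 : Tendsto (fun p : ℕ × ℕ => ∫ x, ‖grd (w p.1 - w p.2) x‖ ^ 2) atTop
      (𝓝 (∫ _ : E4, (0 : ℝ))) := by
    refine tendsto_integral_filter_of_dominated_convergence (fun x => 4 * ‖grd u x‖ ^ 2)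
      (Eventually.of_forall fun p => (AbsOsc_int _).1) (Eventually.of_forall fun p => ?_)
      ((AbsOsc_int u).const_mul 4) ?_
    · filter_upwards [hd p] with x hx
      rw [Real.norm_of_nonneg (by positivity), hx]
      refine mul_le_mul_of_nonneg_right ?_ (by positivity)
      have a1 := abs_le.1 (AbsOsc_deriv_le p.1 (val u x))
      have a2 := abs_le.1 (AbsOsc_deriv_le p.2 (val u x))
      linarith only [a1, a2, mul_nonneg_of_nonpos_of_nonpos (Mathlib.Tactic.Linarith.sub_nonpos_of_le a1.left) (Mathlib.Tactic.Linarith.sub_nonpos_of_le a1.right), mul_nonneg_of_nonpos_of_nonpos (Mathlib.Tactic.Linarith.sub_nonpos_of_le a1.left) (Mathlib.Tactic.Linarith.sub_nonpos_of_le a2.left), mul_nonneg_of_nonpos_of_nonpos (Mathlib.Tactic.Linarith.sub_nonpos_of_le a1.right) (Mathlib.Tactic.Linarith.sub_nonpos_of_le a2.right), mul_nonneg_of_nonpos_of_nonpos (Mathlib.Tactic.Linarith.sub_nonpos_of_le a2.left) (Mathlib.Tactic.Linarith.sub_nonpos_of_le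 a2.right)]
    · filter_upwards [ae_all_iff.2 hd] with x hx
      simp only [hx]
      rw [← prod_atTop_atTop_eq]
      have a1 := ((((AbsOsc_deriv_lim (val u x)).comp (tendsto_fst (g := (atTop : Filter ℕ)))).sub
        ((AbsOsc_deriv_lim (val u x)).comp (tendsto_snd (f := (atTop : Filter ℕ))))).pow
        2).mul_const (‖grd u x‖ ^ 2)
      rw [sub_self, zero_pow two_ne_zero, zero_mul] at a1
      exact a1
  have h2 : CauchySeq w := by
    rw [cauchySeq_iff_tendsto_dist_atTop_0]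
    have h3 := h1.sqrt
    rw [integral_zero, Real.sqrt_zero] at h3
    refine h3.congr fun p => ?_
    rw [← norm_sq_D, Real.sqrt_sq (norm_nonneg _), dist_eq_norm]
  obtain ⟨z, hz⟩ := cauchySeq_tendsto_of_complete h2
  refine ⟨z, (isClosed_H0 Ω).mem_of_tendsto hz (Eventually.of_forall hw), ?_,
    le_of_tendsto' hz.norm fun n => ?_⟩
  · obtain ⟨φ, hφ, h3⟩ := exists_ae_subseq hz
    refine Lp.ext ?_
    filter_upwards [h3, ae_all_iff.2 hv, Lp.coeFn_abs (val u)] with x a1 a2 a3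
    rw [a3]
    refine tendsto_nhds_unique a1.1 ?_
    simp only [a2]
    exact (AbsOsc_lim (val u x)).comp hφ.tendsto_atTop
  · refine le_of_pow_le_pow_left₀ two_ne_zero (norm_nonneg _) ?_
    rw [norm_sq_D, norm_sq_D]
    refine integral_mono_ae (AbsOsc_int _) (AbsOsc_int _) ?_
    filter_upwards [hg n] with x hx
    rw [hx, norm_smul]
    exact pow_le_pow_left₀ (by positivity)
      (mul_le_of_le_one_left (norm_nonneg _) (AbsOsc_deriv_le n _)) 2

theorem AbsOsc_coord : ContDiff ℝ ∞ fun x : E4 => x 0 :=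
  (EuclideanSpace.proj (𝕜 := ℝ) (0 : Fin 4)).contDiff

theorem AbsOsc_grad_coord (x : E4) :
    gradient (fun y : E4 => y 0) x = EuclideanSpace.single 0 1 := by
  refine ext_inner_right ℝ fun v => ?_
  have h : fderiv ℝ (fun y : E4 => y 0) x = EuclideanSpace.proj (𝕜 := ℝ) (0 : Fin 4) :=
    (EuclideanSpace.proj (𝕜 := ℝ) (0 : Fin 4)).fderiv
  rw [inner_gradient, h, EuclideanSpace.inner_single_left]
  simp

theorem AbsOsc_mul (f : Tst) {G : ℝ → ℝ} (hG : ContDiff ℝ ∞ G) :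
    ∃ g : Tst, tsupport (g : E4 → ℝ) ⊆ tsupport (f : E4 → ℝ) ∧
      (∀ x, (g : E4 → ℝ) x = (f : E4 → ℝ) x * G (x 0)) ∧
      ∀ x, gradient (g : E4 → ℝ) x = G (x 0) • gradient (f : E4 → ℝ) x +
        ((f : E4 → ℝ) x * deriv G (x 0)) • (EuclideanSpace.single 0 1 : E4) := by
  have h1 : ContDiff ℝ ∞ fun x : E4 => G (x 0) := hG.comp AbsOsc_coord
  refine ⟨⟨fun x => (f : E4 → ℝ) x * G (x 0), f.2.1.mul h1, f.2.2.mul_right⟩,
    tsupport_mul_subset_left, fun _ => rfl, fun x => ?_⟩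
  refine (gradient_mul' f.2.1 h1 x).trans ?_
  rw [gradient_comp' hG AbsOsc_coord, AbsOsc_grad_coord, smul_smul]

theorem AbsOsc_val {f g : Tst} {k : ℝ} (hk : 0 < k)
    (h : ∀ x, |(g : E4 → ℝ) x| ≤ |(f : E4 → ℝ) x| / k) :
    ‖val (ofT g)‖ ≤ ‖val (ofT f)‖ / k := by
  have hi : ∀ f : Tst, Integrable fun x => (f : E4 → ℝ) x ^ 4 := fun f => by
    have h1 : HasCompactSupport fun x => (f : E4 → ℝ) x ^ 4 :=
      f.2.2.comp_left (g := fun t : ℝ => t ^ 4) (by simp)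
    exact (f.2.1.continuous.pow 4).integrable_of_hasCompactSupport h1
  refine le_of_pow_le_pow_left₀ four_ne_zero (by positivity) ?_
  rw [div_pow, norm_val_ofT, norm_val_ofT, ← integral_div]
  refine integral_mono (hi g) ((hi f).div_const _) fun x => ?_
  have h1 := pow_le_pow_left₀ (abs_nonneg _) (h x) 4
  rwa [div_pow, Even.pow_abs (by decide), Even.pow_abs (by decide)] at h1

theorem AbsOsc_fin {Ω : Set E4} {η a : ℝ} (hη : 0 < η) (ha : 0 < a) {g : Tst}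
    (hg : tsupport (g : E4 → ℝ) ⊆ Ω) (h1 : a ≤ ‖ofT g‖) (h2 : ‖val (ofT g)‖ ≤ η * a) :
    ∃ h ∈ H0 Ω, ‖h‖ = 1 ∧ ‖val h‖ ≤ η := by
  have h3 : 0 < ‖ofT g‖ := ha.trans_le h1
  refine ⟨‖ofT g‖⁻¹ • ofT g, Submodule.smul_mem _ _ (ofT_mem_H0 hg), ?_, ?_⟩
  · rw [norm_smul, norm_inv, norm_norm, inv_mul_cancel₀ h3.ne']
  · rw [map_smul, norm_smul, norm_inv, norm_norm, inv_mul_le_iff₀ h3, mul_comm]
    exact h2.trans (mul_le_mul_of_nonneg_left h1 hη.le)

theorem AbsOsc_pt {a e : E4} (he : ‖e‖ = 1) {s c k t : ℝ} (h : s ^ 2 + c ^ 2 = 1) :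
    t ^ 2 ≤ ‖(s / k) • a + (t * c) • e‖ ^ 2 + ‖(c / k) • a + (t * -s) • e‖ ^ 2 := by
  simp only [norm_add_sq_real, norm_smul, mul_pow, Real.norm_eq_abs, sq_abs, he,
    real_inner_smul_left, real_inner_smul_right]
  have h1 : 0 ≤ (s / k) ^ 2 * ‖a‖ ^ 2 := by positivity
  have h2 : 0 ≤ (c / k) ^ 2 * ‖a‖ ^ 2 := by positivity
  have h3 : t ^ 2 = t ^ 2 * c ^ 2 * 1 ^ 2 + t ^ 2 * (-s) ^ 2 * 1 ^ 2 +
      (2 * (t * c * (s / k * ⟪a, e⟫)) + 2 * (t * -s * (c / k * ⟪a, e⟫))) := by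
    linear_combination (-t ^ 2) * h
  linarith only [h1, h2, h3]

theorem osc_H0 {Ω : Set E4} (ho : IsOpen Ω) (hn : Ω.Nonempty) {η : ℝ} (hη : 0 < η) :
    ∃ h ∈ H0 Ω, ‖h‖ = 1 ∧ ‖val h‖ ≤ η := by
  obtain ⟨f, hf, hf0⟩ := exists_tst_ne ho hn
  obtain ⟨x₀, hx₀⟩ : ∃ x, (f : E4 → ℝ) x ≠ 0 := by
    by_contra hc
    have h1 : f = 0 := Subtype.ext (funext fun x => not_not.1 fun h => hc ⟨x, h⟩)
    rw [h1, map_zero, map_zero] at hf0
    exact hf0 rfl
  have hc2 : HasCompactSupport fun x => (f : E4 → ℝ) x ^ 2 :=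
    f.2.2.comp_left (g := fun t : ℝ => t ^ 2) (by simp)
  have hA : 0 < ∫ x, (f : E4 → ℝ) x ^ 2 :=
    (f.2.1.continuous.pow 2).integral_pos_of_hasCompactSupport_nonneg_nonzero hc2
      (fun x => sq_nonneg _) (pow_ne_zero 2 hx₀)
  set a : ℝ := √((∫ x, (f : E4 → ℝ) x ^ 2) / 2) with ha
  have ha0 : 0 < a := Real.sqrt_pos.2 (half_pos hA)
  have ha2 : a ^ 2 = (∫ x, (f : E4 → ℝ) x ^ 2) / 2 := Real.sq_sqrt (half_pos hA).le
  have hB : 0 < ‖val (ofT f)‖ := norm_pos_iff.2 hf0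
  set k : ℝ := ‖val (ofT f)‖ / (η * a) with hk
  have hk0 : 0 < k := by positivity
  have hk1 : ‖val (ofT f)‖ / k = η * a := by
    rw [hk]
    field_simp
  obtain ⟨g, s1, v1, d1⟩ := AbsOsc_mul f (G := fun t => Real.sin (k * t) / k)
    ((Real.contDiff_sin.comp (contDiff_const.mul contDiff_id)).div_const k)
  obtain ⟨g', s2, v2, d2⟩ := AbsOsc_mul f (G := fun t => Real.cos (k * t) / k)
    ((Real.contDiff_cos.comp (contDiff_const.mul contDiff_id)).div_const k)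
  have e1 : ∀ t, deriv (fun t => Real.sin (k * t) / k) t = Real.cos (k * t) := fun t => by
    refine ((((hasDerivAt_id' t).const_mul k).sin).div_const k).deriv.trans ?_
    field_simp
  have e2 : ∀ t, deriv (fun t => Real.cos (k * t) / k) t = -Real.sin (k * t) := fun t => by
    refine ((((hasDerivAt_id' t).const_mul k).cos).div_const k).deriv.trans ?_
    field_simp
  have hi : ∀ f : Tst, Integrable fun x => ‖gradient (f : E4 → ℝ) x‖ ^ 2 := fun f =>
    (memLp_two_iff_integrable_sq_norm (tst_memLp_grad f 2).1).1 (tst_memLp_grad f 2)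
  have key : 2 * a ^ 2 ≤ ‖ofT g‖ ^ 2 + ‖ofT g'‖ ^ 2 := by
    rw [ha2, mul_div_cancel₀ _ two_ne_zero, norm_sq_ofT, norm_sq_ofT,
      ← integral_add (hi g) (hi g')]
    refine integral_mono ((f.2.1.continuous.pow 2).integrable_of_hasCompactSupport hc2)
      ((hi g).add (hi g')) fun x => ?_
    dsimp only
    rw [d1, d2, e1, e2]
    exact AbsOsc_pt (by simp) (Real.sin_sq_add_cos_sq _)
  have hb : ∀ (r y : ℝ), |r| ≤ 1 → |y * (r / k)| ≤ |y| / k := fun r y hr => by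
    rw [abs_mul, abs_div, abs_of_pos hk0, ← mul_div_assoc]
    exact div_le_div_of_nonneg_right (mul_le_of_le_one_right (abs_nonneg _) hr) hk0.le
  rcases le_or_gt a ‖ofT g‖ with h1 | h1
  · exact AbsOsc_fin hη ha0 (s1.trans hf) h1 ((AbsOsc_val hk0 fun x => by
      rw [v1]
      exact hb _ _ (Real.abs_sin_le_one _)).trans_eq hk1)
  · have h2 := pow_lt_pow_left₀ h1 (norm_nonneg _) two_ne_zero
    exact AbsOsc_fin hη ha0 (s2.trans hf)
      (le_of_pow_le_pow_left₀ two_ne_zero (norm_nonneg _) (by linarith only [key, h2]))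
      ((AbsOsc_val hk0 fun x => by
        rw [v2]
        exact hb _ _ (Real.abs_cos_le_one _)).trans_eq hk1)

end CritSys
end
end

-- merged part: Pool.Agent.Work.MP_80ee1d_an.Soft
section
/-!
A smooth positive function that is close to the identity on the positive half line.

PLAN. `soft η t = η + (t + √(t² + η²)) / 2`.  Since `√(t² + η²) > |t|`, `soft η t > η`.
`soft' η t = (1 + t / √(t² + η²)) / 2 ∈ [0, 1]`, at least `1/2` for `t ≥ 0`.
For `0 ≤ t`: `t ≤ soft η t ≤ t + 2 η`.  `lg η t = log (soft η t / soft η 0) / log (1 / η)` with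
`soft η 0 = 3 η / 2`.  For `0 < η ≤ 1/4` and `t ≥ 0`: `soft η t / soft η 0 ≤ (t + 1) / η`, so the
numerator is at most `log (1 + t) + log (1/η) ≤ t + log (1/η)` and `log (1 / η) ≥ 1`.
For `t > 0`: `lg η t = (log (soft η t) - log (3/2)) / log (1/η) + 1 → 1` as `η → 0+`.
-/

open Filter Topology
open scoped ContDiff

noncomputable section
namespace CritSys

/-- Smooth substitute of `η + max t 0`. -/
def soft (η t : ℝ) : ℝ := η + (t + √(t ^ 2 + η ^ 2)) / 2

/-- Its derivative. -/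
def soft' (η t : ℝ) : ℝ := (1 + t / √(t ^ 2 + η ^ 2)) / 2

/-- Logarithmic cut-off approximating the indicator of the positive half line. -/
def lg (η t : ℝ) : ℝ := Real.log (soft η t / soft η 0) / Real.log (1 / η)

variable {η : ℝ}

theorem Soft_pos (hη : 0 < η) (t : ℝ) : 0 < t ^ 2 + η ^ 2 := by positivity

theorem Soft_abs (hη : 0 < η) (t : ℝ) : |t| < √(t ^ 2 + η ^ 2) :=
  Real.lt_sqrt_of_sq_lt (by rw [sq_abs]; linarith [pow_pos hη 2])

theorem soft_gt (hη : 0 < η) (t : ℝ) : η < soft η t := by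
  have h := (abs_lt.1 (Soft_abs hη t)).1
  rw [soft]
  linarith only [h]

theorem Soft_ne (hη : 0 < η) (t : ℝ) : soft η t ≠ 0 := (hη.trans (soft_gt hη t)).ne'

theorem soft_contDiff (hη : 0 < η) : ContDiff ℝ ∞ (soft η) := by
  have h : ContDiff ℝ ∞ fun t : ℝ => √(t ^ 2 + η ^ 2) :=
    ContDiff.sqrt (by fun_prop) fun t => (Soft_pos hη t).ne'
  exact contDiff_const.add ((contDiff_id.add h).div_const 2)

theorem soft_hasDerivAt (hη : 0 < η) (t : ℝ) : HasDerivAt (soft η) (soft' η t) t := by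
  have h1 : HasDerivAt (fun t : ℝ => t ^ 2 + η ^ 2) (2 * t) t := by
    simpa using (hasDerivAt_pow 2 t).add_const (η ^ 2)
  have h2 := (((hasDerivAt_id t).add (h1.sqrt (Soft_pos hη t).ne')).div_const 2).const_add η
  refine h2.congr_deriv ?_
  rw [soft', mul_div_mul_left _ _ two_ne_zero]

theorem soft'_mem (hη : 0 < η) (t : ℝ) : 0 ≤ soft' η t ∧ soft' η t ≤ 1 := by
  have h := abs_lt.1 (Soft_abs hη t)
  have h0 : 0 < √(t ^ 2 + η ^ 2) := Real.sqrt_pos.2 (Soft_pos hη t)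
  have h1 : -1 ≤ t / √(t ^ 2 + η ^ 2) := by
    rw [le_div_iff₀ h0]
    linarith [h.1]
  have h2 : t / √(t ^ 2 + η ^ 2) ≤ 1 := (div_le_one h0).2 h.2.le
  rw [soft']
  constructor <;> linarith only [h1, h2]

theorem soft'_ge (hη : 0 < η) {t : ℝ} (ht : 0 ≤ t) : 1 / 2 ≤ soft' η t := by
  have h1 : 0 ≤ t / √(t ^ 2 + η ^ 2) := div_nonneg ht (Real.sqrt_pos.2 (Soft_pos hη t)).le
  rw [soft']
  linarith only [h1]

theorem soft_bounds (hη : 0 < η) {t : ℝ} (ht : 0 ≤ t) : t ≤ soft η t ∧ soft η t ≤ t + 2 * η := by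
  have h := (abs_lt.1 (Soft_abs hη t)).2
  have h1 : √(t ^ 2 + η ^ 2) ≤ t + η :=
    Real.sqrt_le_iff.2 ⟨by positivity, by linarith only [ht, hη, mul_nonneg ht hη.le]⟩
  rw [soft]
  constructor <;> linarith only [hη, h, h1]

theorem inv_soft_contDiff (hη : 0 < η) : ContDiff ℝ ∞ fun t => (soft η t)⁻¹ :=
  (soft_contDiff hη).inv (Soft_ne hη)

theorem inv_soft_deriv (hη : 0 < η) (t : ℝ) :
    deriv (fun t => (soft η t)⁻¹) t = -(soft' η t / soft η t ^ 2) := by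
  rw [← neg_div]
  exact ((soft_hasDerivAt hη t).inv (Soft_ne hη t)).deriv

theorem inv_soft_deriv_bdd (hη : 0 < η) :
    ∃ c : ℝ, ∀ t, |deriv (fun t => (soft η t)⁻¹) t| ≤ c := by
  refine ⟨1 / η ^ 2, fun t => ?_⟩
  rw [inv_soft_deriv hη, abs_neg, abs_of_nonneg (div_nonneg (soft'_mem hη t).1 (sq_nonneg _))]
  exact div_le_div₀ zero_le_one (soft'_mem hη t).2 (pow_pos hη 2)
    (pow_le_pow_left₀ hη.le (soft_gt hη t).le 2)

theorem Soft_tendsto {t : ℝ} (ht : 0 < t) : Tendsto (fun η => soft η t) (𝓝[>] 0) (𝓝 t) := by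
  have h : Continuous fun η => soft η t := by
    unfold soft
    fun_prop
  have h1 : soft 0 t = t := by
    simp [soft, Real.sqrt_sq ht.le]
  have h2 := h.tendsto 0
  rw [h1] at h2
  exact h2.mono_left nhdsWithin_le_nhds

theorem tendsto_div_soft {t : ℝ} (ht : 0 < t) :
    Tendsto (fun η => t / soft η t) (𝓝[>] 0) (𝓝 1) := by
  have h := (tendsto_const_nhds (x := t)).div (Soft_tendsto ht) ht.ne'
  rwa [div_self ht.ne'] at h

theorem tendsto_soft' {t : ℝ} (ht : 0 < t) : Tendsto (fun η => soft' η t) (𝓝[>] 0) (𝓝 1) := by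
  have h : Continuous fun η : ℝ => √(t ^ 2 + η ^ 2) := by fun_prop
  have h2 := h.tendsto 0
  simp only [ne_eq, OfNat.ofNat_ne_zero, not_false_eq_true, zero_pow, add_zero,
    Real.sqrt_sq ht.le] at h2
  have h3 := ((((tendsto_const_nhds (x := t)).div h2 ht.ne').const_add 1).div_const 2).mono_left
    (nhdsWithin_le_nhds (s := Set.Ioi 0))
  rw [div_self ht.ne', add_self_div_two] at h3
  exact h3

theorem lg_zero (hη : 0 < η) : lg η 0 = 0 := by
  rw [lg, div_self (Soft_ne hη 0), Real.log_one, zero_div]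

theorem lg_contDiff (hη : 0 < η) : ContDiff ℝ ∞ (lg η) :=
  (((soft_contDiff hη).div_const _).log fun t => div_ne_zero (Soft_ne hη t) (Soft_ne hη 0)).div_const _

theorem lg_deriv (hη : 0 < η) (t : ℝ) :
    deriv (lg η) t = soft' η t / soft η t / Real.log (1 / η) := by
  have h := ((((soft_hasDerivAt hη t).div_const (soft η 0)).log
    (div_ne_zero (Soft_ne hη t) (Soft_ne hη 0))).div_const (Real.log (1 / η))).deriv
  rw [div_div_div_cancel_right₀ (Soft_ne hη 0)] at h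
  exact h

theorem lg_deriv_bdd (hη : 0 < η) : ∃ c : ℝ, ∀ t, |deriv (lg η) t| ≤ c := by
  refine ⟨1 / η / |Real.log (1 / η)|, fun t => ?_⟩
  rw [lg_deriv hη, abs_div,
    abs_of_nonneg (div_nonneg (soft'_mem hη t).1 (hη.trans (soft_gt hη t)).le)]
  exact div_le_div_of_nonneg_right
    (div_le_div₀ zero_le_one (soft'_mem hη t).2 hη (soft_gt hη t).le) (abs_nonneg _)

theorem Soft_zero (hη : 0 < η) : soft η 0 = 3 / 2 * η := by
  rw [soft, zero_pow two_ne_zero, zero_add, zero_add, Real.sqrt_sq hη.le]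
  ring

theorem lg_bounds (hη : 0 < η) (hη' : η ≤ 1 / 4) {t : ℝ} (ht : 0 ≤ t) :
    0 ≤ lg η t ∧ lg η t ≤ 1 + t := by
  have hL : 1 ≤ Real.log (1 / η) := by
    rw [Real.le_log_iff_exp_le (by positivity), le_div_iff₀ hη]
    linarith only [hη', hη, Real.exp_one_lt_three, Real.exp_pos 1, mul_pos_of_neg_of_neg (Mathlib.Tactic.Linarith.sub_neg_of_lt hη) (Mathlib.Tactic.Linarith.sub_neg_of_lt hη), mul_nonneg_of_nonpos_of_nonpos (le_of_lt (Mathlib.Tactic.Linarith.sub_neg_of_lt hη)) (Mathlib.Tactic.Linarith.sub_nonpos_of_le hη'), mul_pos_of_neg_of_neg (Mathlib.Tactic.Linarith.sub_neg_of_lt hη) (Mathlib.Tactic.Linarith.sub_neg_of_lt Real.exp_one_lt_three)]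
  have h0 : 0 < soft η 0 := hη.trans (soft_gt hη 0)
  have h1 : soft η 0 ≤ soft η t := by
    have : η ≤ √(t ^ 2 + η ^ 2) := Real.le_sqrt_of_sq_le (by linarith only [sq_nonneg t, sq_nonneg t])
    rw [Soft_zero hη, soft]
    linarith only [ht, this]
  refine ⟨div_nonneg (Real.log_nonneg ((one_le_div h0).2 h1)) (by linarith only [hη, hη', hL]), ?_⟩
  have h2 : soft η t / soft η 0 ≤ (1 + t) * (1 / η) := by
    rw [mul_one_div]
    exact div_le_div₀ (by linarith only [hη, hη', ht]) (by linarith only [hη, hη', ht, (soft_bounds hη ht).2]) hη (soft_gt hη 0).le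
  have h3 := Real.log_le_log (div_pos (h0.trans_le h1) h0) h2
  rw [Real.log_mul (by positivity) (by positivity)] at h3
  have h4 := Real.log_le_sub_one_of_pos (show 0 < 1 + t by positivity)
  rw [lg, div_le_iff₀ (by linarith only [hη, hη', hL])]
  linarith only [h3, h4, hL, ht, mul_le_mul_of_nonneg_left hL ht]

theorem tendsto_lg {t : ℝ} (ht : 0 < t) : Tendsto (fun η => lg η t) (𝓝[>] 0) (𝓝 1) := by
  have hL : Tendsto (fun η : ℝ => Real.log (1 / η)) (𝓝[>] 0) atTop :=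
    (Real.tendsto_log_atTop.comp tendsto_inv_nhdsGT_zero).congr fun η => by simp
  have h1 := (((Soft_tendsto ht).log ht.ne').sub_const (Real.log (3 / 2))).div_atTop hL
  have h2 := h1.add_const 1
  rw [zero_add] at h2
  refine h2.congr' ?_
  filter_upwards [self_mem_nhdsWithin, hL.eventually (eventually_gt_atTop 0)] with η hη hη'
  have hη0 : 0 < η := hη
  rw [lg, Soft_zero hη0, Real.log_div (Soft_ne hη0 t) (by positivity),
    Real.log_mul (by norm_num) hη0.ne', div_add_one hη'.ne', one_div, Real.log_inv]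
  ring

end CritSys
end
end

-- merged part: Pool.Agent.Work.MP_80ee1d_an.Smp
section
/-!
The strong maximum principle for weakly superharmonic functions.

PLAN. `smp_log`: test with `w` from `mulComp` (`ρ = f²`, `G = (soft η)⁻¹`), `val w ≥ 0`.  With
`a = (f / soft η u) • grd u` (in `L²`, since `soft > η`): `0 ≤ ∫ 2⟪a, ∇f⟫ - soft' ‖a‖²`, `soft' ≥ 1/2`
a.e. where `f ≠ 0`, and `2⟪a, ∇f⟫ ≤ ‖a‖²/4 + 4 ‖∇f‖²`, so `∫ ‖a‖² ≤ 16 ∫ ‖∇f‖²`.
`smp_indicator`: `z` from `comp_D` (`Ω = univ`, `G = lg η`), `ibp z f v`: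
`∫ lg η u * ∂_v f = -∫ ⟪grd u, v⟫ (soft'/soft / log (1/η)) f`; the right side is at most
`‖v‖ (∫ ‖a‖² + vol (tsupport f)) / log (1/η) → 0` (`‖a‖ ≤ ‖a‖² + 1_K`).  The left side tends to
`∫_A ∂_v f` by dominated convergence (`lg_bounds`, `tendsto_lg`, `lg_zero`; bound
`(1 + |u|) |∂_v f|`, integrable; `∂_v f = 0` off `tsupport f ⊆ Ω`).
`smp_D`: `A = {x | 0 < val u x}` is measurable (`Lp.stronglyMeasurable`), `zero_one`.
-/

open MeasureTheory Filter Topology
open scoped ContDiff RealInnerProductSpace ENNReal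

noncomputable section
namespace CritSys

theorem Smp_zero {Ω : Set E4} {f : E4 → ℝ} (hf : tsupport f ⊆ Ω) {x : E4} (hx : x ∉ Ω) :
    f x = 0 := image_eq_zero_of_notMem_tsupport fun h => hx (hf h)

theorem Smp_ae {Ω : Set E4} (ho : IsOpen Ω) {u : D}
    (h0 : ∀ᵐ x ∂(volume.restrict Ω), 0 ≤ val u x) : ∀ᵐ x, x ∈ Ω → 0 ≤ val u x :=
  (ae_restrict_iff' ho.measurableSet).1 h0

theorem Smp_memLp (u : D) (f : Tst) {η : ℝ} (hη : 0 < η) :
    MemLp (fun x => ((f : E4 → ℝ) x / soft η (val u x)) • grd u x) 2 volume := by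
  obtain ⟨-, ⟨c, hc⟩, -⟩ := Mult.of_tst f
  have hm : AEStronglyMeasurable (fun x => (f : E4 → ℝ) x / soft η (val u x)) volume :=
    (f.2.1.continuous.aemeasurable.div ((soft_contDiff hη).continuous.measurable.comp_aemeasurable
      (Lp.aestronglyMeasurable (val u)).aemeasurable)).aestronglyMeasurable
  refine MemLp.of_le_mul (c := c / η) (grd_memLp u) (hm.smul (grd_memLp u).1)
    (Eventually.of_forall fun x => ?_)
  have h1 := soft_gt hη (val u x)
  rw [norm_smul, Real.norm_eq_abs, abs_div, abs_of_pos (hη.trans h1)]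
  refine mul_le_mul_of_nonneg_right ?_ (norm_nonneg _)
  exact div_le_div₀ ((abs_nonneg _).trans (hc x)) (hc x) hη h1.le

theorem Smp_pt {s s' t : ℝ} (g b : E4) (hs : 0 < s) (h : t = 0 ∨ 1 / 2 ≤ s') :
    ⟪g, s⁻¹ • (t • b + t • b) + (t * t * -(s' / s ^ 2)) • g⟫ ≤
      4 * ‖b‖ ^ 2 - 1 / 4 * ‖(t / s) • g‖ ^ 2 := by
  have h1 : ⟪g, s⁻¹ • (t • b + t • b) + (t * t * -(s' / s ^ 2)) • g⟫ =
      2 * ⟪(t / s) • g, b⟫ - s' * ‖(t / s) • g‖ ^ 2 := by
    simp only [inner_add_right, real_inner_smul_right, real_inner_smul_left,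
      real_inner_self_eq_norm_sq, norm_smul, mul_pow, Real.norm_eq_abs, sq_abs]
    field_simp
    ring
  have h2 := real_inner_le_norm ((t / s) • g) b
  have h3 : 1 / 2 * ‖(t / s) • g‖ ^ 2 ≤ s' * ‖(t / s) • g‖ ^ 2 := by
    rcases h with rfl | h
    · simp
    · exact mul_le_mul_of_nonneg_right h (by positivity)
  rw [h1]
  linarith only [h2, h3, sq_nonneg (‖(t / s) • g‖ - 4 * ‖b‖), sq_nonneg ((1 : ℝ) * ‖(t / s) • g‖ - (1 : ℝ) * (4 : ℝ) * ((1 : ℝ) * ‖b‖))]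

theorem smp_log {Ω : Set E4} (ho : IsOpen Ω) {u : D}
    (h0 : ∀ᵐ x ∂(volume.restrict Ω), 0 ≤ val u x)
    (h : ∀ ψ ∈ H0 Ω, (∀ᵐ x, 0 ≤ val ψ x) → 0 ≤ ⟪u, ψ⟫) (f : Tst)
    (hf : tsupport (f : E4 → ℝ) ⊆ Ω) {η : ℝ} (hη : 0 < η) :
    Integrable (fun x => ‖((f : E4 → ℝ) x / soft η (val u x)) • grd u x‖ ^ 2) ∧
    ∫ x, ‖((f : E4 → ℝ) x / soft η (val u x)) • grd u x‖ ^ 2 ≤
      16 * ∫ x, ‖gradient (f : E4 → ℝ) x‖ ^ 2 := by
  have ia := (Smp_memLp u f hη).norm.integrable_sq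
  have ib := (tst_memLp_grad f 2).norm.integrable_sq
  refine ⟨ia, ?_⟩
  obtain ⟨w, hw, hv, hg⟩ := mulComp u ((Mult.of_tst f).mul (Mult.of_tst f)) (inv_soft_contDiff hη)
    (inv_soft_deriv_bdd hη) (Ω := Ω)
    (Or.inr ⟨f.2.2.mul_right, tsupport_mul_subset_left.trans hf⟩)
  have h1 := h w hw (by
    filter_upwards [hv] with x hx
    rw [hx]
    exact mul_nonneg (mul_self_nonneg _) (inv_nonneg.2 (hη.trans (soft_gt hη _)).le))
  rw [inner_D] at h1
  have h2 : ∫ x, ⟪grd u x, grd w x⟫ ≤ ∫ x, (4 * ‖gradient (f : E4 → ℝ) x‖ ^ 2 -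
      1 / 4 * ‖((f : E4 → ℝ) x / soft η (val u x)) • grd u x‖ ^ 2) := by
    refine integral_mono_ae (L2.integrable_inner (𝕜 := ℝ) (grdL u) (grdL w))
      ((ib.const_mul 4).sub (ia.const_mul (1 / 4))) ?_
    filter_upwards [hg, Smp_ae ho h0] with x hx hx0
    rw [hx, gradient_mul' f.2.1 f.2.1, inv_soft_deriv hη]
    refine Smp_pt _ _ (hη.trans (soft_gt hη _)) ?_
    by_cases hxΩ : x ∈ Ω
    · exact Or.inr (soft'_ge hη (hx0 hxΩ))
    · exact Or.inl (Smp_zero hf hxΩ)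
  rw [integral_sub (ib.const_mul 4) (ia.const_mul (1 / 4)), integral_const_mul,
    integral_const_mul] at h2
  linarith only [h1, h2]

theorem Smp_pt2 {s s' t L e : ℝ} (g v : E4) (hL : 0 < L) (h0 : 0 ≤ s') (h1 : s' ≤ 1)
    (h : t = 0 ∧ 0 ≤ e ∨ e = 1) :
    ‖⟪(s' / s / L) • g, v⟫ * t‖ ≤ ‖v‖ / L * (‖(t / s) • g‖ ^ 2 + e) := by
  have h2 : ⟪(s' / s / L) • g, v⟫ * t = s' / L * ⟪(t / s) • g, v⟫ := by
    simp only [real_inner_smul_left]
    ring
  have h3 : ‖(t / s) • g‖ ≤ ‖(t / s) • g‖ ^ 2 + e := by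
    rcases h with ⟨rfl, h⟩ | rfl
    · simpa using h
    · linarith only [sq_nonneg (‖(t / s) • g‖ - 1), norm_nonneg ((t / s) • g), sq_nonneg ((1 : ℝ) * ‖(t / s) • g‖ - (1 : ℝ) * (1 : ℝ)), sq_nonneg ((1 : ℝ) * ‖(t / s) • g‖)]
  rw [h2, norm_mul, Real.norm_of_nonneg (div_nonneg h0 hL.le)]
  calc s' / L * ‖⟪(t / s) • g, v⟫‖ ≤ 1 / L * (‖(t / s) • g‖ * ‖v‖) :=
        mul_le_mul (div_le_div_of_nonneg_right h1 hL.le) (norm_inner_le_norm _ _) (norm_nonneg _)
          (by positivity)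
    _ = ‖v‖ / L * ‖(t / s) • g‖ := by ring
    _ ≤ _ := mul_le_mul_of_nonneg_left h3 (by positivity)

theorem Smp_bound {Ω : Set E4} (ho : IsOpen Ω) {u : D}
    (h0 : ∀ᵐ x ∂(volume.restrict Ω), 0 ≤ val u x)
    (h : ∀ ψ ∈ H0 Ω, (∀ᵐ x, 0 ≤ val ψ x) → 0 ≤ ⟪u, ψ⟫) (f : Tst)
    (hf : tsupport (f : E4 → ℝ) ⊆ Ω) (v : E4) {η : ℝ} (hη : 0 < η) (hη1 : η < 1) :
    ‖∫ x, lg η (val u x) * fderiv ℝ (f : E4 → ℝ) x v‖ ≤ ‖v‖ / Real.log (1 / η) *
      (16 * (∫ x, ‖gradient (f : E4 → ℝ) x‖ ^ 2) + volume.real (tsupport (f : E4 → ℝ))) := by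
  obtain ⟨ia, hb⟩ := smp_log ho h0 h f hf hη
  obtain ⟨z, -, hv, hg⟩ := comp_D (mem_H0_univ u) (lg_contDiff hη) (lg_deriv_bdd hη) (lg_zero hη)
  have hL : 0 < Real.log (1 / η) := Real.log_pos (one_lt_one_div hη hη1)
  have hK : MeasurableSet (tsupport (f : E4 → ℝ)) := (isClosed_tsupport _).measurableSet
  have iK : Integrable ((tsupport (f : E4 → ℝ)).indicator fun _ => (1 : ℝ)) :=
    (integrable_indicator_iff hK).2 (integrableOn_const f.2.2.isCompact.measure_lt_top.ne)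
  have h1 : ∫ x, lg η (val u x) * fderiv ℝ (f : E4 → ℝ) x v =
      ∫ x, val z x * fderiv ℝ (f : E4 → ℝ) x v := by
    refine integral_congr_ae ?_
    filter_upwards [hv] with x hx
    rw [hx]
  rw [h1, ibp, norm_neg]
  refine (norm_integral_le_of_norm_le ((ia.add iK).const_mul (‖v‖ / Real.log (1 / η))) ?_).trans ?_
  · filter_upwards [hg] with x hx
    rw [hx, lg_deriv hη]
    refine Smp_pt2 _ _ hL (soft'_mem hη _).1 (soft'_mem hη _).2 ?_
    by_cases hxK : x ∈ tsupport (f : E4 → ℝ)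
    · exact Or.inr (Set.indicator_of_mem hxK _)
    · exact Or.inl ⟨image_eq_zero_of_notMem_tsupport hxK, (Set.indicator_of_notMem hxK _).ge⟩
  · rw [integral_const_mul]
    refine mul_le_mul_of_nonneg_left ?_ (by positivity)
    refine (integral_add ia iK).trans_le (add_le_add hb (le_of_eq ?_))
    rw [integral_indicator hK]
    simp

theorem smp_indicator {Ω : Set E4} (ho : IsOpen Ω) {u : D}
    (h0 : ∀ᵐ x ∂(volume.restrict Ω), 0 ≤ val u x)
    (h : ∀ ψ ∈ H0 Ω, (∀ᵐ x, 0 ≤ val ψ x) → 0 ≤ ⟪u, ψ⟫) (f : Tst)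
    (hf : tsupport (f : E4 → ℝ) ⊆ Ω) (v : E4) :
    ∫ x in {x | 0 < val u x}, fderiv ℝ (f : E4 → ℝ) x v = 0 := by
  have hA : MeasurableSet {x | 0 < val u x} :=
    measurableSet_lt measurable_const (Lp.stronglyMeasurable (val u)).measurable
  have hc : Continuous fun x => fderiv ℝ (f : E4 → ℝ) x v :=
    (f.2.1.continuous_fderiv (by simp)).clm_apply continuous_const
  have hs : HasCompactSupport fun x => fderiv ℝ (f : E4 → ℝ) x v := f.2.2.fderiv_apply ℝ v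
  have hz : ∀ x, x ∉ Ω → fderiv ℝ (f : E4 → ℝ) x v = 0 := fun x hx =>
    Smp_zero ((tsupport_fderiv_apply_subset ℝ v).trans hf) hx
  have hl : LocallyIntegrable (fun x => 1 + val u x) volume :=
    (locallyIntegrable_const 1).add ((Lp.memLp (val u)).locallyIntegrable (by norm_num))
  have hev : ∀ᶠ η in 𝓝[>] (0 : ℝ), 0 < η ∧ η ≤ 1 / 4 := by
    filter_upwards [Ioc_mem_nhdsGT (show (0 : ℝ) < 1 / 4 by norm_num)] with η hη using hη
  have h1 : Tendsto (fun η => ∫ x, lg η (val u x) * fderiv ℝ (f : E4 → ℝ) x v) (𝓝[>] 0)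
      (𝓝 (∫ x, {x | 0 < val u x}.indicator (fun x => fderiv ℝ (f : E4 → ℝ) x v) x)) := by
    refine tendsto_integral_filter_of_dominated_convergence _ ?_ ?_
      (hl.integrable_smul_right_of_hasCompactSupport hc hs).norm ?_
    · filter_upwards [hev] with η hη
      exact ((lg_contDiff hη.1).continuous.comp_aestronglyMeasurable
        (Lp.aestronglyMeasurable (val u))).mul hc.aestronglyMeasurable
    · filter_upwards [hev] with η hη
      filter_upwards [Smp_ae ho h0] with x hx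
      by_cases hxΩ : x ∈ Ω
      · obtain ⟨l0, l1⟩ := lg_bounds hη.1 hη.2 (hx hxΩ)
        rw [norm_mul, norm_smul, Real.norm_of_nonneg l0, Real.norm_of_nonneg (l0.trans l1)]
        exact mul_le_mul_of_nonneg_right l1 (norm_nonneg _)
      · simp [hz x hxΩ]
    · filter_upwards [Smp_ae ho h0] with x hx
      by_cases hxΩ : x ∈ Ω
      · rcases (hx hxΩ).lt_or_eq with hp | hp
        · rw [Set.indicator_of_mem (show x ∈ {x | 0 < val u x} from hp)]
          simpa using (tendsto_lg hp).mul_const (fderiv ℝ (f : E4 → ℝ) x v)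
        · rw [Set.indicator_of_notMem (show x ∉ {x | 0 < val u x} from hp.not_lt), ← hp]
          refine tendsto_const_nhds.congr' ?_
          filter_upwards [hev] with η hη
          rw [lg_zero hη.1, zero_mul]
      · simp [Set.indicator_apply, hz x hxΩ]
  have hL : Tendsto (fun η : ℝ => Real.log (1 / η)) (𝓝[>] 0) atTop := by
    simp only [one_div]
    exact Real.tendsto_log_atTop.comp tendsto_inv_nhdsGT_zero
  have h2 : Tendsto (fun η => ∫ x, lg η (val u x) * fderiv ℝ (f : E4 → ℝ) x v) (𝓝[>] 0) (𝓝 0) := by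
    refine squeeze_zero_norm' ?_ (by
      simpa only [zero_mul] using ((tendsto_const_nhds (x := ‖v‖)).div_atTop hL).mul_const
        (16 * (∫ x, ‖gradient (f : E4 → ℝ) x‖ ^ 2) + volume.real (tsupport (f : E4 → ℝ))))
    filter_upwards [hev] with η hη
    exact Smp_bound ho h0 h f hf v hη.1 (by linarith only [hη, hη.2])
  rw [← integral_indicator hA]
  exact tendsto_nhds_unique h1 h2

theorem smp_D {Ω : Set E4} (ho : IsOpen Ω) (hc : IsPreconnected Ω) {u : D}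
    (h0 : ∀ᵐ x ∂(volume.restrict Ω), 0 ≤ val u x)
    (hne : ¬ ∀ᵐ x ∂(volume.restrict Ω), val u x = 0)
    (h : ∀ ψ ∈ H0 Ω, (∀ᵐ x, 0 ≤ val ψ x) → 0 ≤ ⟪u, ψ⟫) :
    ∀ᵐ x ∂(volume.restrict Ω), 0 < val u x := by
  have hA : MeasurableSet {x | 0 < val u x} :=
    measurableSet_lt measurable_const (Lp.stronglyMeasurable (val u)).measurable
  refine (zero_one ho hc hA fun φ hφ v =>
    smp_indicator ho h0 h ⟨φ, hφ.1, hφ.2.1⟩ hφ.2.2 v).resolve_right fun h1 => hne ?_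
  filter_upwards [h0, h1] with x hx hx1
  exact le_antisymm (not_lt.1 hx1) hx

end CritSys
end
end

-- merged part: Pool.Agent.Work.MP_80ee1d_an.Picone
section
/-!
The Picone inequality.

PLAN. `picone_tst`: for `η > 0`, `mulComp` with `ρ = f²` (`Mult.mul`, `gradient_mul'`) and
`G = (soft η)⁻¹` gives `w ∈ H0 Ω`, `val w = f² / soft η u`,
`grd w = (2 f / soft) • ∇f - (f² soft' / soft²) • grd u`.  Pointwise where `u > 0`, with
`a = (f / soft) • grd u`: `⟪grd u, grd w⟫ = 2 ⟪a, ∇f⟫ - soft' ‖a‖² ≤ ‖∇f‖² / soft'`; outside `Ω`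
both sides vanish (`f = 0`, `gradient_eq_zero_of_notMem`).  So
`∫_Ω V (u / soft η u) f² ≤ ∫ ‖∇f‖² / soft' η u` (restrict the right side to `Ω` as well).  Let
`η = 1/(n+1) → 0`: dominated convergence with the bounds `|V| f²` (`0 ≤ u / soft ≤ 1`; `V` and
`f²` are in `L²(Ω)`) and `2 ‖∇f‖²`.
`picone_D`: approximate `ψ` by tests (`mem_H0_iff`); `ψ ↦ ∫_Ω V ψ²` is continuous because
`|∫ V (a² - b²)| ≤ ‖V‖₂ ‖a - b‖₄ ‖a + b‖₄` (write `V = V₁ V₂` with `V₁ = √|V|`, `V₂ = sign V √|V|`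
times the indicator of `Ω`, in `L⁴`, and use `T4_tendsto`; or Hölder directly).
-/

open MeasureTheory Filter Topology
open scoped ContDiff RealInnerProductSpace ENNReal

noncomputable section
namespace CritSys

theorem Picone_alg (a b : E4) {s : ℝ} (h1 : 1 / 2 ≤ s) (h2 : s ≤ 1) :
    2 * ⟪a, b⟫ - s * ‖a‖ ^ 2 ≤ (3 - 2 * s) * ‖b‖ ^ 2 := by
  have h3 := real_inner_le_norm a b
  have h4 : 0 ≤ (s * (3 - 2 * s) - 1) * ‖b‖ ^ 2 := mul_nonneg (by linarith only [h1, h2, mul_nonneg_of_nonpos_of_nonpos (Mathlib.Tactic.Linarith.sub_nonpos_of_le h1) (Mathlib.Tactic.Linarith.sub_nonpos_of_le h2)]) (sq_nonneg _)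
  have h5 : 0 ≤ s * ((3 - 2 * s) * ‖b‖ ^ 2 + s * ‖a‖ ^ 2 - 2 * (‖a‖ * ‖b‖)) := by
    linarith only [h4, sq_nonneg (s * ‖a‖ - ‖b‖), sq_nonneg (s * ‖a‖ - ‖b‖)]
  have h6 := (mul_nonneg_iff_of_pos_left (by linarith only [h1] : 0 < s)).1 h5
  linarith only [h3, h6]

theorem Picone_meas (η : ℝ) : Measurable (soft η) := by
  unfold soft
  fun_prop

theorem Picone_meas' (η : ℝ) : Measurable (soft' η) := by
  unfold soft'
  fun_prop

theorem Picone_grad_int (f : Tst) : Integrable fun x => ‖gradient (f : E4 → ℝ) x‖ ^ 2 :=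
  (memLp_two_iff_integrable_sq_norm (tst_memLp_grad f 2).1).1 (tst_memLp_grad f 2)

theorem Picone_rhs_meas (η : ℝ) (u : D) (f : Tst) (μ : Measure E4) (hμ : μ ≤ volume) :
    AEStronglyMeasurable
      (fun x => (3 - 2 * soft' η (val u x)) * ‖gradient (f : E4 → ℝ) x‖ ^ 2) μ := by
  have h1 : AEMeasurable (fun x => val u x) μ :=
    (Lp.aestronglyMeasurable (val u)).aemeasurable.mono_measure hμ
  have h2 := ((Picone_meas' η).comp_aemeasurable h1)
  exact ((aemeasurable_const.sub (h2.const_mul 2)).aestronglyMeasurable).mul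
    ((Picone_grad_int f).1.mono_measure hμ)

theorem Picone_rhs_bd {η : ℝ} (hη : 0 < η) (t : ℝ) (b : E4) :
    ‖(3 - 2 * soft' η t) * ‖b‖ ^ 2‖ ≤ 3 * ‖b‖ ^ 2 := by
  obtain ⟨h1, h2⟩ := soft'_mem hη t
  rw [Real.norm_of_nonneg (mul_nonneg (by linarith) (sq_nonneg _))]
  exact mul_le_mul_of_nonneg_right (by linarith) (sq_nonneg _)

theorem Picone_step {Ω : Set E4} {u : D}
    (hp : ∀ᵐ x ∂(volume.restrict Ω), 0 < val u x) {V : E4 → ℝ}
    (h : ∀ ψ ∈ H0 Ω, ⟪u, ψ⟫ = ∫ x in Ω, V x * val u x * val ψ x) (f : Tst)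
    (hf : tsupport (f : E4 → ℝ) ⊆ Ω) {η : ℝ} (hη : 0 < η) :
    ∫ x in Ω, V x * (val u x / soft η (val u x)) * (f : E4 → ℝ) x ^ 2 ≤
      ∫ x in Ω, (3 - 2 * soft' η (val u x)) * ‖gradient (f : E4 → ℝ) x‖ ^ 2 := by
  obtain ⟨w, hw, h1, h2⟩ := mulComp u ((Mult.of_tst f).mul (Mult.of_tst f)) (inv_soft_contDiff hη)
    (inv_soft_deriv_bdd hη) (Ω := Ω) (Or.inr ⟨f.2.2.mul_left,
      (tsupport_mul_subset_left (f := (f : E4 → ℝ)) (g := (f : E4 → ℝ))).trans hf⟩)
  have e1 : ∫ x in Ω, V x * (val u x / soft η (val u x)) * (f : E4 → ℝ) x ^ 2 = ⟪u, w⟫ := by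
    rw [h w hw]
    refine integral_congr_ae ?_
    filter_upwards [ae_restrict_of_ae h1] with x hx
    rw [hx]
    ring
  have e2 : ⟪u, w⟫ = ∫ x in Ω, ⟪grd u x, grd w x⟫ := by
    rw [inner_D, setIntegral_eq_integral_of_ae_compl_eq_zero]
    filter_upwards [H0_zero_outside hw] with x hx hx'
    rw [(hx hx').2, inner_zero_right]
  rw [e1, e2]
  refine integral_mono_ae (L2.integrable_inner (grdL u) (grdL w)).integrableOn ?_ ?_
  · exact Integrable.mono' ((Picone_grad_int f).const_mul 3).integrableOn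
      (Picone_rhs_meas η u f _ Measure.restrict_le_self)
      (Eventually.of_forall fun x => Picone_rhs_bd hη _ _)
  · filter_upwards [ae_restrict_of_ae h2, hp] with x hx hx'
    have h3 := Picone_alg (((f : E4 → ℝ) x / soft η (val u x)) • grd u x)
      (gradient (f : E4 → ℝ) x) (soft'_ge hη hx'.le) (soft'_mem hη (val u x)).2
    refine le_trans (le_of_eq ?_) h3
    rw [hx, gradient_mul' f.2.1 f.2.1, inv_soft_deriv hη, norm_smul, mul_pow, Real.norm_eq_abs,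
      sq_abs]
    simp only [inner_add_right, inner_smul_right, inner_smul_left, real_inner_self_eq_norm_sq,
      conj_trivial]
    ring

theorem Picone_cont {Ω : Set E4} (ho : IsOpen Ω) {V : E4 → ℝ}
    (hV : MemLp V 2 (volume.restrict Ω)) :
    Continuous fun a : L4 (volume : Measure E4) => ∫ x in Ω, V x * a x ^ 2 := by
  have : ENNReal.HolderTriple 4 4 2 := ⟨by
    rw [← two_mul, show (4 : ℝ≥0∞) = 2 * 2 by norm_num,
      ENNReal.mul_inv (by norm_num) (by norm_num), ← mul_assoc,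
      ENNReal.mul_inv_cancel (by norm_num) (by norm_num), one_mul]⟩
  have hW : MemLp (Ω.indicator V) 2 volume := (memLp_indicator_iff_restrict ho.measurableSet).2 hV
  let B := (ContinuousLinearMap.mul ℝ ℝ).holderL (volume : Measure E4) 4 4 2
  have e : ∀ a : L4 (volume : Measure E4), ∫ x in Ω, V x * a x ^ 2 = ⟪B a a, hW.toLp _⟫ := by
    intro a
    rw [L2.inner_def, ← integral_indicator ho.measurableSet]
    refine integral_congr_ae ?_
    filter_upwards [hW.coeFn_toLp, (ContinuousLinearMap.mul ℝ ℝ).coeFn_holder (r := 2) a a]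
      with x h1 h2
    have h3 : B a a x = a x * a x := h2
    rw [h1, h3]
    by_cases hx : x ∈ Ω
    · simp [hx, pow_two]
    · simp [hx]
  simp only [e]
  exact (B.continuous₂.comp (continuous_id.prodMk continuous_id)).inner continuous_const

theorem picone_tst {Ω : Set E4} (ho : IsOpen Ω) {u : D}
    (hp : ∀ᵐ x ∂(volume.restrict Ω), 0 < val u x) {V : E4 → ℝ}
    (hV : MemLp V 2 (volume.restrict Ω))
    (h : ∀ ψ ∈ H0 Ω, ⟪u, ψ⟫ = ∫ x in Ω, V x * val u x * val ψ x) (f : Tst)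
    (hf : tsupport (f : E4 → ℝ) ⊆ Ω) :
    ∫ x in Ω, V x * (f : E4 → ℝ) x ^ 2 ≤ ∫ x, ‖gradient (f : E4 → ℝ) x‖ ^ 2 := by
  have hu : AEMeasurable (fun x => val u x) (volume.restrict Ω) :=
    (Lp.aestronglyMeasurable (val u)).aemeasurable.restrict
  have hf2 : MemLp (fun x => (f : E4 → ℝ) x ^ 2) 2 volume := by
    have := tst_memLp ⟨fun x => (f : E4 → ℝ) x * (f : E4 → ℝ) x, f.2.1.mul f.2.1,
      f.2.2.mul_left⟩ 2
    simpa only [pow_two] using this
  have hi : Integrable (fun x => V x * (f : E4 → ℝ) x ^ 2) (volume.restrict Ω) :=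
    hV.integrable_mul (hf2.restrict Ω)
  have t1 : Tendsto
      (fun η => ∫ x in Ω, V x * (val u x / soft η (val u x)) * (f : E4 → ℝ) x ^ 2) (𝓝[>] 0)
      (𝓝 (∫ x in Ω, V x * (f : E4 → ℝ) x ^ 2)) := by
    refine tendsto_integral_filter_of_dominated_convergence _
      (Eventually.of_forall fun η => ?_) ?_ hi.norm ?_
    · exact (hV.1.mul (hu.div ((Picone_meas η).comp_aemeasurable hu)).aestronglyMeasurable).mul
        (hf2.restrict Ω).1
    · filter_upwards [self_mem_nhdsWithin] with η hη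
      filter_upwards [hp] with x hx
      have hη' : 0 < η := hη
      have h1 : 0 < soft η (val u x) := hη'.trans (soft_gt hη' _)
      have h2 : val u x / soft η (val u x) ≤ 1 := (div_le_one h1).2 (soft_bounds hη' hx.le).1
      rw [mul_right_comm, norm_mul, Real.norm_of_nonneg (div_pos hx h1).le]
      exact mul_le_of_le_one_right (norm_nonneg _) h2
    · filter_upwards [hp] with x hx
      simpa using ((tendsto_div_soft hx).const_mul (V x)).mul_const ((f : E4 → ℝ) x ^ 2)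
  have t2 : Tendsto
      (fun η => ∫ x in Ω, (3 - 2 * soft' η (val u x)) * ‖gradient (f : E4 → ℝ) x‖ ^ 2) (𝓝[>] 0)
      (𝓝 (∫ x in Ω, ‖gradient (f : E4 → ℝ) x‖ ^ 2)) := by
    refine tendsto_integral_filter_of_dominated_convergence _
      (Eventually.of_forall fun η => Picone_rhs_meas η u f _ Measure.restrict_le_self) ?_
      ((Picone_grad_int f).const_mul 3).integrableOn ?_
    · filter_upwards [self_mem_nhdsWithin] with η hη
      exact Eventually.of_forall fun x => Picone_rhs_bd hη _ _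
    · filter_upwards [hp] with x hx
      have := (((tendsto_soft' hx).const_mul 2).const_sub 3).mul_const
        (‖gradient (f : E4 → ℝ) x‖ ^ 2)
      convert this using 2
      ring
  refine (le_of_tendsto_of_tendsto t1 t2 ?_).trans
    (setIntegral_le_integral (Picone_grad_int f) (Eventually.of_forall fun x => sq_nonneg _))
  filter_upwards [self_mem_nhdsWithin] with η hη
  exact Picone_step hp h f hf hη

theorem picone_D {Ω : Set E4} (ho : IsOpen Ω) {u : D}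
    (hp : ∀ᵐ x ∂(volume.restrict Ω), 0 < val u x) {V : E4 → ℝ}
    (hV : MemLp V 2 (volume.restrict Ω))
    (h : ∀ ψ ∈ H0 Ω, ⟪u, ψ⟫ = ∫ x in Ω, V x * val u x * val ψ x) {ψ : D} (hψ : ψ ∈ H0 Ω) :
    ∫ x in Ω, V x * val ψ x ^ 2 ≤ ‖ψ‖ ^ 2 := by
  obtain ⟨f, hf, ht⟩ := mem_H0_iff.1 hψ
  have t1 := (((Picone_cont ho hV).comp val.continuous).tendsto ψ).comp ht
  refine le_of_tendsto_of_tendsto' t1 (ht.norm.pow 2) fun n => ?_
  have e : ∫ x in Ω, V x * val (ofT (f n)) x ^ 2 = ∫ x in Ω, V x * (f n : E4 → ℝ) x ^ 2 := by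
    refine integral_congr_ae ?_
    filter_upwards [ae_restrict_of_ae (val_ofT (f n))] with x hx
    rw [hx]
  have h1 := picone_tst ho hp hV h (f n) (hf n)
  rw [← e, ← norm_sq_ofT] at h1
  exact h1

end CritSys
end
end

-- merged part: Pool.Agent.Work.MP_80ee1d_an.Cut
section
/-!
The Brezis-Nirenberg test function in dimension four.

PLAN. `pigeon`: otherwise `m (2^k R₀) ≥ (1 + η)^k m R₀` for all `k`; choose `γ ∈ (0, 1)` with
`4^γ < 1 + η`; `(1 + 4^k R₀²)^γ ≤ (2 R₀²)^γ (4^γ)^k`; geometric growth gives a contradiction.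
`cutoff`: `χ x = b (R⁻¹ • x)` for a fixed `ContDiffBump (0 : E4)` `b` with radii `1` and `2`;
`‖∇χ‖ ≤ c / R` with `c = sup ‖∇b‖`, and `∇χ = 0` on the open ball of radius `R` (locally constant)
and outside `closedBall 0 (2R)`.
`bn_ball`: `U` extremal, `m R = ∫_{ball 0 R} U²` (finite: `L⁴ ⊆ L²` on balls; monotone; positive for
some `R₀ ≥ 1` since `val U ≠ 0`; spheres are null or use radii `2R < 3R` with closed balls:
`Measure.addHaar_sphere`).  `pigeon` with `η = k / (9 (c² + 1))`.  `ims` with `ρ = χ`,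
`Ω = ball 0 (3R)`: `‖w‖² ≤ S0 ‖val w‖² + (c/R)² (m (2R) - m R)` (`T4_abs_le`), and
`∫ (val w)² ≥ m R`, so `‖w‖² - k / (3R)² ∫ (val w)² < S0 ‖val w‖²`.  The inequality is open:
approximate `w` by tests supported in the ball (`mem_H0_iff`), writing `∫ (val ·)²` as
`T4 1_B 1_B · ·` (`indicatorConstLp 4`, `H0_zero_outside`).
`bn_D`: a ball `ball x₀ r ⊆ Ω`, `k = -l r²`, `scale_tst` with `δ = r / R'`.
-/

open MeasureTheory Filter Topology Metric
open scoped ContDiff RealInnerProductSpace ENNReal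

noncomputable section
namespace CritSys

theorem pigeon {m : ℝ → ℝ} {R₀ : ℝ} (hR : 1 ≤ R₀) (hm : 0 < m R₀)
    (hg : ∀ γ : ℝ, 0 < γ → γ < 1 → ∃ A : ℝ, ∀ K : ℝ, 1 ≤ K → m K ≤ A * (1 + K ^ 2) ^ γ)
    {η : ℝ} (hη : 0 < η) : ∃ R : ℝ, R₀ ≤ R ∧ m (2 * R) < (1 + η) * m R := by
  by_contra h
  push Not at h
  have h0 : 0 < 1 + η := by linarith
  have h1 : ∀ n : ℕ, R₀ ≤ 2 ^ n * R₀ := fun n =>
    le_mul_of_one_le_left (zero_le_one.trans hR) (one_le_pow₀ one_le_two)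
  have h2 : ∀ n : ℕ, (1 + η) ^ n * m R₀ ≤ m (2 ^ n * R₀) := fun n => by
    induction n with
    | zero => simp
    | succ n ih =>
      rw [pow_succ', pow_succ', mul_assoc, mul_assoc]
      exact (mul_le_mul_of_nonneg_left ih h0.le).trans (h _ (h1 n))
  have h3 := (Real.continuousAt_const_rpow (a := 4) (b := 0) four_ne_zero).tendsto.eventually
    (gt_mem_nhds (show (4 : ℝ) ^ (0 : ℝ) < 1 + η by rw [Real.rpow_zero]; linarith))
  obtain ⟨γ, ⟨g0, g1⟩, g2⟩ := (((h3.filter_mono nhdsWithin_le_nhds).and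
    (Ioo_mem_nhdsGT one_pos)).exists.imp fun _ h => h.symm : ∃ γ : ℝ, γ ∈ Set.Ioo 0 1 ∧ _)
  obtain ⟨A, hA⟩ := hg γ g0 g1
  have hq : (0 : ℝ) ≤ 4 ^ γ := by positivity
  have h4 := (tendsto_pow_atTop_nhds_zero_of_lt_one (div_nonneg hq h0.le)
    ((div_lt_one h0).2 g2)).const_mul (|A| * (2 * R₀ ^ 2) ^ γ)
  rw [mul_zero] at h4
  refine hm.not_ge (ge_of_tendsto' h4 fun n => ?_)
  rw [div_pow, ← mul_div_assoc, le_div_iff₀' (pow_pos h0 n), mul_assoc, Real.rpow_pow_comm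
    (by norm_num), ← Real.mul_rpow (by positivity) (by positivity)]
  refine (h2 n).trans ((hA _ (hR.trans (h1 n))).trans (mul_le_mul (le_abs_self A)
    (Real.rpow_le_rpow (by positivity) ?_ g0.le) (by positivity) (abs_nonneg A)))
  have h5 : (2 ^ n * R₀) ^ 2 = R₀ ^ 2 * 4 ^ n := by
    rw [mul_pow, ← pow_mul, mul_comm n, pow_mul, mul_comm]
    norm_num
  have h6 := one_le_pow₀ (hR.trans (h1 n)) (n := 2)
  linarith only [h5, h6]

theorem cutoff : ∃ c : ℝ, ∀ R : ℝ, 0 < R → ∃ χ : Tst,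
    tsupport (χ : E4 → ℝ) ⊆ closedBall 0 (2 * R) ∧ (∀ x ∈ ball (0 : E4) R, (χ : E4 → ℝ) x = 1) ∧
    (∀ x, ‖gradient (χ : E4 → ℝ) x‖ ≤ c / R) ∧
    ∀ x ∈ ball (0 : E4) R, gradient (χ : E4 → ℝ) x = 0 := by
  let b : ContDiffBump (0 : E4) := ⟨1, 2, one_pos, one_lt_two⟩
  obtain ⟨c, hc⟩ := (b.hasCompactSupport.fderiv ℝ).exists_bound_of_continuous
    ((b.contDiff (n := 1)).continuous_fderiv one_ne_zero)
  refine ⟨c, fun R hR => ?_⟩
  have hn : ∀ x : E4, dist (R⁻¹ • x) 0 = ‖x‖ / R := fun x => by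
    rw [dist_zero_right, norm_smul, norm_inv, Real.norm_of_nonneg hR.le, inv_mul_eq_div]
  have h1 : tsupport (fun x : E4 => b (R⁻¹ • x)) ⊆ closedBall 0 (2 * R) :=
    closure_minimal (fun x hx => by
      by_contra h
      refine hx (b.zero_of_le_dist ?_)
      rw [hn, le_div_iff₀ hR]
      exact (not_le.1 fun h' => h (mem_closedBall_zero_iff.2 h')).le) isClosed_closedBall
  have h2 : ∀ x ∈ ball (0 : E4) R, b (R⁻¹ • x) = 1 := fun x hx => b.one_of_mem_closedBall (by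
    rw [mem_closedBall, hn, div_le_iff₀ hR]
    exact (mem_ball_zero_iff.1 hx).le.trans_eq (one_mul R).symm)
  refine ⟨⟨fun x => b (R⁻¹ • x), b.contDiff.comp (contDiff_const_smul _),
    (isCompact_closedBall _ _).of_isClosed_subset (isClosed_tsupport _) h1⟩, h1, h2,
    fun x => ?_, fun x hx => ?_⟩
  · rw [norm_gradient, fderiv_comp_smul, norm_smul, norm_inv, Real.norm_of_nonneg hR.le,
      inv_mul_eq_div]
    exact div_le_div_of_nonneg_right (hc _) hR.le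
  · exact (Filter.EventuallyEq.gradient_eq (f := fun _ => 1)
      (Filter.mem_of_superset (isOpen_ball.mem_nhds hx) h2)).trans (gradient_fun_const _ _)

/-- The indicator function of a ball. -/
def Cut_I (r : ℝ) : L4 (volume : Measure E4) :=
  indicatorConstLp 4 (measurableSet_ball (x := 0) (ε := r)) measure_ball_lt_top.ne 1

theorem Cut_ind (r : ℝ) (u : L4 (volume : Measure E4)) :
    IntegrableOn (fun x => u x ^ 2) (ball 0 r) ∧
      T4 (Cut_I r) (Cut_I r) u u = ∫ x in ball 0 r, u x ^ 2 := by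
  have h : (fun x => Cut_I r x * Cut_I r x * u x * u x) =ᵐ[volume]
      (ball 0 r).indicator fun x => u x ^ 2 := by
    filter_upwards [indicatorConstLp_coeFn (p := 4) (hs := measurableSet_ball (x := (0 : E4))
      (ε := r)) (hμs := measure_ball_lt_top.ne) (c := (1 : ℝ))] with x hx
    rw [Cut_I, hx]
    by_cases h : x ∈ ball (0 : E4) r
    · rw [Set.indicator_of_mem h, Set.indicator_of_mem h]
      ring
    · rw [Set.indicator_of_notMem h, Set.indicator_of_notMem h]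
      ring
  exact ⟨(integrable_indicator_iff measurableSet_ball).1 ((T4_integrable _ _ _ _).congr h),
    (integral_congr_ae h).trans (integral_indicator measurableSet_ball)⟩

theorem Cut_pos {u : L4 (volume : Measure E4)} (hu : u ≠ 0) :
    ∃ R : ℝ, 1 ≤ R ∧ 0 < ∫ x in ball 0 R, u x ^ 2 := by
  by_contra h
  push Not at h
  refine hu (Lp.eq_zero_iff_ae_eq_zero.2 ?_)
  have h1 : ∀ n : ℕ, ∀ᵐ x : E4, x ∈ ball (0 : E4) (n + 1) → u x ^ 2 = 0 := fun n =>
    (ae_restrict_iff' measurableSet_ball).1 ((setIntegral_eq_zero_iff_of_nonneg_ae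
      (ae_of_all _ fun x => sq_nonneg _) (Cut_ind _ u).1).1 (le_antisymm
        (h _ (le_add_of_nonneg_left n.cast_nonneg)) (integral_nonneg fun x => sq_nonneg _)))
  filter_upwards [ae_all_iff.2 h1] with x hx
  obtain ⟨n, hn⟩ := exists_nat_gt ‖x‖
  exact pow_eq_zero_iff two_ne_zero |>.1 (hx n (mem_ball_zero_iff.2 (hn.trans (lt_add_one _))))

theorem Cut_grad (u : L4 (volume : Measure E4)) {g : E4 → E4} {R a : ℝ} (hR : 0 < R)
    (hi : Integrable fun x => u x ^ 2 * ‖g x‖ ^ 2) (h1 : ∀ x ∉ closedBall (0 : E4) (2 * R), g x = 0)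
    (h2 : ∀ x, ‖g x‖ ≤ a) (h3 : ∀ x ∈ ball (0 : E4) R, g x = 0) :
    ∫ x, u x ^ 2 * ‖g x‖ ^ 2 ≤
      a ^ 2 * ((∫ x in ball 0 (2 * R), u x ^ 2) - ∫ x in ball 0 R, u x ^ 2) := by
  have i1 := (integrable_indicator_iff measurableSet_ball).2 (Cut_ind (2 * R) u).1
  have i2 := (integrable_indicator_iff measurableSet_ball).2 (Cut_ind R u).1
  rw [← integral_indicator measurableSet_ball, ← integral_indicator measurableSet_ball,
    ← integral_sub i1 i2, ← integral_const_mul]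
  refine integral_mono_ae hi ((i1.sub i2).const_mul _) ?_
  filter_upwards [measure_eq_zero_iff_ae_notMem.1 (Measure.addHaar_sphere volume (0 : E4) (2 * R))]
    with x hx
  by_cases a1 : x ∈ ball (0 : E4) R
  · rw [h3 x a1, Set.indicator_of_mem a1, Set.indicator_of_mem (ball_subset_ball (by linarith) a1)]
    simp
  rw [Set.indicator_of_notMem a1, sub_zero]
  by_cases a2 : x ∈ ball (0 : E4) (2 * R)
  · rw [Set.indicator_of_mem a2, mul_comm]
    exact mul_le_mul_of_nonneg_right (pow_le_pow_left₀ (norm_nonneg _) (h2 x) 2) (sq_nonneg _)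
  · rw [Set.indicator_of_notMem a2, h1 x fun h => (ball_union_sphere.ge h).elim a2 hx]
    simp

theorem bn_ball {k : ℝ} (hk : 0 < k) : ∃ (R : ℝ) (f : Tst), 0 < R ∧
    tsupport (f : E4 → ℝ) ⊆ ball 0 R ∧
    ‖ofT f‖ ^ 2 - k / R ^ 2 * ∫ x, (f : E4 → ℝ) x ^ 2 < S0 * ‖val (ofT f)‖ ^ 2 := by
  obtain ⟨U, h1, h2⟩ := exists_extremal
  have hE := extremal_eq h1 h2
  obtain ⟨c, hc⟩ := cutoff
  obtain ⟨R₀, hR₀, hm⟩ := Cut_pos (u := val U) (norm_ne_zero_iff.1 (h1 ▸ one_ne_zero))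
  obtain ⟨R, hR, hp⟩ := pigeon (m := fun K => ∫ x in ball (0 : E4) K, val U x ^ 2) hR₀ hm
    (fun γ => growth hE) (η := k / (9 * (c ^ 2 + 1))) (by positivity)
  have R0 : 0 < R := one_pos.trans_le (hR₀.trans hR)
  obtain ⟨χ, c1, c2, c3, c4⟩ := hc R R0
  obtain ⟨w, hw, w1, w2, w3⟩ := ims hE (Mult.of_tst χ) (Ω := ball 0 (3 * R))
    (Or.inr ⟨χ.2.2, c1.trans (closedBall_subset_ball (by linarith only [hR₀, hR]))⟩)
  have a1 := Cut_grad (val U) R0 w2 (fun x hx => gradient_eq_zero_of_notMem fun h => hx (c1 h))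
    c3 c4
  have a2 : T4 (val U) (val U) (val w) (val w) ≤ ‖val w‖ ^ 2 := by
    simpa only [h1, one_pow, one_mul] using T4A_sq (val U) (val w)
  have a3 : ∫ x in ball (0 : E4) R, val U x ^ 2 ≤
      T4 (Cut_I (3 * R)) (Cut_I (3 * R)) (val w) (val w) := by
    rw [(Cut_ind _ _).2]
    refine le_of_eq_of_le (setIntegral_congr_ae measurableSet_ball ?_) (setIntegral_mono_set
      (Cut_ind _ _).1 (ae_of_all _ fun x => sq_nonneg _)
      (ball_subset_ball (show R ≤ 3 * R by linarith only [hR₀, hR])).eventuallyLE)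
    filter_upwards [w1] with x hx hb
    rw [hx, c2 x hb, one_mul]
  have a4 : 0 < ∫ x in ball (0 : E4) R, val U x ^ 2 := hm.trans_le (setIntegral_mono_set
    (Cut_ind _ _).1 (ae_of_all _ fun x => sq_nonneg _) (ball_subset_ball hR).eventuallyLE)
  have a5 : (c / R) ^ 2 * (k / (9 * (c ^ 2 + 1))) < k / (3 * R) ^ 2 := by
    rw [div_pow, div_mul_div_comm, div_lt_div_iff₀ (by positivity) (by positivity)]
    linarith only [hk, R0, mul_pos hk (pow_pos R0 2)]
  have a6 : ‖w‖ ^ 2 - k / (3 * R) ^ 2 * T4 (Cut_I (3 * R)) (Cut_I (3 * R)) (val w) (val w) <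
      S0 * ‖val w‖ ^ 2 := by
    have b1 := mul_le_mul_of_nonneg_left a2 S0_pos.le
    have b2 := mul_le_mul_of_nonneg_left a3 (show 0 ≤ k / (3 * R) ^ 2 by positivity)
    have b3 := mul_lt_mul_of_pos_right a5 a4
    have b4 := mul_le_mul_of_nonneg_left hp.le (sq_nonneg (c / R))
    linarith only [w3, a1, b1, b2, b3, b4]
  obtain ⟨f, f1, f2⟩ := mem_H0_iff.1 hw
  have f3 := (val.continuous.tendsto w).comp f2
  obtain ⟨n, hn⟩ := (((f2.norm.pow 2).sub ((T4_tendsto tendsto_const_nhds tendsto_const_nhds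
    f3 f3).const_mul _)).eventually_lt ((f3.norm.pow 2).const_mul S0) a6).exists
  refine ⟨3 * R, f n, by positivity, f1 n, lt_of_eq_of_lt ?_ hn⟩
  rw [(Cut_ind _ _).2, ← setIntegral_eq_integral_of_forall_compl_eq_zero (s := ball 0 (3 * R))
    fun x hx => by rw [image_eq_zero_of_notMem_tsupport fun h => hx (f1 n h), zero_pow two_ne_zero]]
  congr 2
  refine setIntegral_congr_ae measurableSet_ball ?_
  filter_upwards [val_ofT (f n)] with x hx _
  rw [← hx]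
  rfl

theorem bn_D {Ω : Set E4} (ho : IsOpen Ω) (hn : Ω.Nonempty) {l : ℝ} (hl : l < 0) :
    ∃ f : Tst, tsupport (f : E4 → ℝ) ⊆ Ω ∧
      ‖ofT f‖ ^ 2 + l * ∫ x, (f : E4 → ℝ) x ^ 2 < S0 * ‖val (ofT f)‖ ^ 2 := by
  obtain ⟨y, hy⟩ := hn
  obtain ⟨r, hr, hb⟩ := Metric.isOpen_iff.1 ho y hy
  obtain ⟨R, f, hR, h1, h2⟩ := bn_ball (mul_pos (neg_pos.2 hl) (pow_pos hr 2))
  obtain ⟨g, g1, g2, g3, g4, -⟩ := scale_tst f (div_pos hr hR) y
  refine ⟨g, (g1 R h1).trans (by rwa [div_mul_cancel₀ _ hR.ne']), ?_⟩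
  rw [g2, g3, g4]
  refine lt_of_eq_of_lt ?_ h2
  ring

end CritSys
end
end

-- merged part: Pool.Agent.Work.MP_80ee1d_an.Inst
section
/-!
The context attached to a bounded domain.

PLAN. `valK_ae`: `LpToLpRestrictCLM_coeFn`.  `norm_valK`: fourth powers are integrals of
`val u ^ 4` (`T4_self`), which vanishes a.e. outside `Ω` (`H0_zero_outside`,
`setIntegral_eq_integral_of_ae_compl_eq_zero`).  `K_poin`: rescale to `M = 1`, `csInf_le` (bounded
below by `0`); if `M = 0` trivial.  `K_poin_opt`: the set is non-empty (`exists_tst_ne`, `K_inj`,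
`T4_sq_pos` with `oneL_pos`), `exists_lt_of_csInf_lt`.  `K_wnull`: a sequence that is weakly null in
`K d` is weakly null in `D` (pair with the orthogonal projection onto `H0 Ω`,
`Submodule.starProjection` / `orthogonalProjection`); extend `f ∈ L⁴(Ω)` by zero
(`memLp_indicator_iff_restrict`) and use `wnull_D`.  The other fields translate `abs_H0`, `smp_D`,
`picone_D` (with `V = c₀ + c₁ p² + c₂ q²`), `osc_H0`, `bn_D`.
-/

open MeasureTheory Filter Topology
open scoped ContDiff RealInnerProductSpace ENNReal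

noncomputable section
namespace CritSys

/-- Bounded domains. -/
structure Dom : Type where
  Ω : Set E4
  isOpen : IsOpen Ω
  conn : IsConnected Ω
  bdd : Bornology.IsBounded Ω

/-- Lebesgue measure on the domain. -/
abbrev Dom.μ (d : Dom) : Measure E4 := volume.restrict d.Ω

instance (d : Dom) : IsFiniteMeasure d.μ :=
  isFiniteMeasure_restrict.2 d.bdd.measure_lt_top.ne

/-- `H¹₀(Ω)` as a Hilbert space. -/
def K (d : Dom) : Type := ↥(H0 d.Ω)

instance (d : Dom) : NormedAddCommGroup (K d) := inferInstanceAs (NormedAddCommGroup ↥(H0 d.Ω))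
instance (d : Dom) : InnerProductSpace ℝ (K d) := inferInstanceAs (InnerProductSpace ℝ ↥(H0 d.Ω))
instance (d : Dom) : CompleteSpace (K d) :=
  inferInstanceAs (CompleteSpace ↥((TstIn d.Ω).map ofT).topologicalClosure)
instance (d : Dom) : SecondCountableTopology (K d) :=
  inferInstanceAs (SecondCountableTopology ↥(H0 d.Ω))

/-- The inclusion into `D`. -/
def incl (d : Dom) : K d →L[ℝ] D := (H0 d.Ω).subtypeL

/-- An element of `H0 Ω` as an element of `K d`. -/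
def mkK (d : Dom) (u : D) (hu : u ∈ H0 d.Ω) : K d := ⟨u, hu⟩

/-- The function on `Ω`. -/
def valK (d : Dom) : K d →L[ℝ] L4 d.μ :=
  (LpToLpRestrictCLM E4 ℝ ℝ volume 4 d.Ω).comp (val.comp (incl d))

/-- The first eigenvalue. -/
def LamK (d : Dom) : ℝ :=
  sInf {r | ∃ u : K d, T4 (oneL d.μ) (oneL d.μ) (valK d u) (valK d u) = 1 ∧ r = ‖u‖ ^ 2}

variable (d : Dom)

theorem incl_mem (u : K d) : incl d u ∈ H0 d.Ω := u.2

theorem incl_mkK (u : D) (hu : u ∈ H0 d.Ω) : incl d (mkK d u hu) = u := rfl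

theorem norm_incl (u : K d) : ‖incl d u‖ = ‖u‖ := rfl

theorem inner_incl (u v : K d) : ⟪incl d u, incl d v⟫ = ⟪u, v⟫ := rfl

theorem incl_inj {u v : K d} (h : incl d u = incl d v) : u = v := Subtype.ext h

theorem valK_ae (u : K d) : ∀ᵐ x ∂d.μ, valK d u x = val (incl d u) x := by
  exact LpToLpRestrictCLM_coeFn ℝ d.Ω (val (incl d u))

theorem norm_valK (u : K d) : ‖valK d u‖ = ‖val (incl d u)‖ := by
  refine (pow_left_inj₀ (norm_nonneg _) (norm_nonneg _) (by norm_num : (4 : ℕ) ≠ 0)).1 ?_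
  rw [norm_val_pow, ← T4_self, ← setIntegral_eq_integral_of_ae_compl_eq_zero (s := d.Ω)]
  · refine integral_congr_ae ?_
    filter_upwards [valK_ae d u] with x hx
    rw [hx]; ring
  · filter_upwards [H0_zero_outside (incl_mem d u)] with x hx h
    rw [(hx h).1]; simp

theorem K_mu_ne : d.μ ≠ 0 := by
  exact fun h => (d.isOpen.measure_pos volume d.conn.nonempty).ne' (Measure.restrict_eq_zero.1 h)

theorem K_sob (u : K d) : S0 * ‖valK d u‖ ^ 2 ≤ ‖u‖ ^ 2 := by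
  rw [norm_valK]
  exact S0_le (incl d u)

theorem K_inj (u : K d) (h : valK d u = 0) : u = 0 := by
  have h1 := norm_valK d u
  rw [h, norm_zero] at h1
  exact incl_inj d ((val_inj (norm_eq_zero.1 h1.symm)).trans (map_zero _).symm)

theorem inst_bdd : BddBelow
    {r | ∃ u : K d, T4 (oneL d.μ) (oneL d.μ) (valK d u) (valK d u) = 1 ∧ r = ‖u‖ ^ 2} :=
  ⟨0, fun _ ⟨_, _, h⟩ => h ▸ sq_nonneg _⟩

theorem inst_normalise (u : K d) {m : ℝ} (h : 0 < m)
    (hm : m = T4 (oneL d.μ) (oneL d.μ) (valK d u) (valK d u)) :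
    T4 (oneL d.μ) (oneL d.μ) (valK d ((√m)⁻¹ • u)) (valK d ((√m)⁻¹ • u)) = 1 ∧
      ‖(√m)⁻¹ • u‖ ^ 2 = ‖u‖ ^ 2 / m := by
  constructor
  · rw [map_smul, T4_smul3, T4_smul4, ← hm, ← mul_assoc, ← mul_inv, Real.mul_self_sqrt h.le,
      inv_mul_cancel₀ h.ne']
  · rw [norm_smul, mul_pow, norm_inv, Real.norm_eq_abs, inv_pow, sq_abs, Real.sq_sqrt h.le,
      inv_mul_eq_div]

theorem inst_V (c₀ c₁ c₂ : ℝ) (p q : L4 d.μ) (u v : K d) :
    c₀ * T4 (oneL d.μ) (oneL d.μ) (valK d u) (valK d v) + c₁ * T4 p p (valK d u) (valK d v) +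
      c₂ * T4 q q (valK d u) (valK d v) = ∫ x in d.Ω, (c₀ + c₁ * (p x * p x) + c₂ * (q x * q x)) *
        val (incl d u) x * val (incl d v) x := by
  have i0 := (T4_integrable (oneL d.μ) (oneL d.μ) (valK d u) (valK d v)).const_mul c₀
  have i1 := (T4_integrable p p (valK d u) (valK d v)).const_mul c₁
  have i2 := (T4_integrable q q (valK d u) (valK d v)).const_mul c₂
  unfold T4
  rw [← integral_const_mul, ← integral_const_mul, ← integral_const_mul, ← integral_add i0 i1]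
  refine (integral_add (i0.add i1) i2).symm.trans (integral_congr_ae ?_)
  filter_upwards [oneL_ae (μ := d.μ), valK_ae d u, valK_ae d v] with x h1 h2 h3
  simp only [Pi.add_apply]
  rw [h1, h2, h3]; ring

theorem K_poin (u : K d) :
    LamK d * T4 (oneL d.μ) (oneL d.μ) (valK d u) (valK d u) ≤ ‖u‖ ^ 2 := by
  set m := T4 (oneL d.μ) (oneL d.μ) (valK d u) (valK d u) with hm
  have h0 : 0 ≤ m := T4_sq_nonneg _ _
  rcases h0.eq_or_lt with h | h
  · rw [← h, mul_zero]; positivity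
  have h1 : LamK d ≤ ‖(√m)⁻¹ • u‖ ^ 2 :=
    csInf_le (inst_bdd d) ⟨_, (inst_normalise d u h rfl).1, rfl⟩
  rw [(inst_normalise d u h rfl).2, le_div_iff₀ h] at h1
  exact h1

theorem K_poin_opt (η : ℝ) (hη : 0 < η) : ∃ u : K d, u ≠ 0 ∧
    ‖u‖ ^ 2 ≤ (LamK d + η) * T4 (oneL d.μ) (oneL d.μ) (valK d u) (valK d u) := by
  obtain ⟨f, hf, hf0⟩ := exists_tst_ne d.isOpen d.conn.nonempty
  have h1 : valK d (mkK d _ (ofT_mem_H0 hf)) ≠ 0 := fun h => hf0 (by
    have := K_inj d _ h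
    rw [← incl_mkK d _ (ofT_mem_H0 hf), this, map_zero, map_zero])
  obtain ⟨r, ⟨u, h2, rfl⟩, h3⟩ := exists_lt_of_csInf_lt
    (s := {r | ∃ u : K d, T4 (oneL d.μ) (oneL d.μ) (valK d u) (valK d u) = 1 ∧ r = ‖u‖ ^ 2})
    ⟨_, _, (inst_normalise d _ (T4_sq_pos oneL_pos h1) rfl).1, rfl⟩ (lt_add_of_pos_right (LamK d) hη)
  refine ⟨u, fun h => ?_, by rw [h2, mul_one]; exact h3.le⟩
  rw [h, map_zero, T4_zero4] at h2
  exact zero_ne_one h2

theorem K_wnull (r : ℕ → K d) (hb : ∃ c : ℝ, ∀ n, ‖r n‖ ≤ c)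
    (h : ∀ z, Tendsto (fun n => ⟪r n, z⟫) atTop (𝓝 0)) : Null fun n => valK d (r n) := by
  haveI : CompleteSpace (H0 d.Ω) := inferInstanceAs (CompleteSpace (K d))
  have hw : ∀ z : D, Tendsto (fun n => ⟪incl d (r n), z⟫) atTop (𝓝 0) := fun z => by
    refine (h ((H0 d.Ω).orthogonalProjectionOnto z)).congr fun n => ?_
    exact Submodule.inner_orthogonalProjectionOnto_eq_of_mem_left (K := H0 d.Ω) (r n) z
  obtain ⟨⟨c, hc⟩, h2⟩ := wnull_D (r := fun n => incl d (r n)) hb hw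
  refine ⟨⟨c, fun n => by rw [norm_valK]; exact hc n⟩, fun f => ?_⟩
  have hm := d.isOpen.measurableSet
  have hF : MemLp (d.Ω.indicator f) 4 volume := (memLp_indicator_iff_restrict hm).2 (Lp.memLp f)
  refine (h2 (hF.toLp _)).congr fun n => ?_
  unfold T4
  rw [← integral_indicator hm]
  refine integral_congr_ae ?_
  filter_upwards [hF.coeFn_toLp, (ae_restrict_iff' hm).1 (valK_ae d (r n))] with x h3 h4
  rw [h3]
  by_cases hx : x ∈ d.Ω
  · rw [Set.indicator_of_mem hx, Set.indicator_of_mem hx, h4 hx]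
  · rw [Set.indicator_of_notMem hx, Set.indicator_of_notMem hx, mul_zero]

theorem K_abs (u : K d) : ∃ w : K d, valK d w = |valK d u| ∧ ‖w‖ ≤ ‖u‖ := by
  obtain ⟨w, hw, h1, h2⟩ := abs_H0 (incl_mem d u)
  refine ⟨mkK d w hw, Lp.ext ?_, h2⟩
  filter_upwards [valK_ae d (mkK d w hw), valK_ae d u, Lp.coeFn_abs (valK d u),
    ae_restrict_of_ae (s := d.Ω) (Lp.coeFn_abs (val (incl d u)))] with x h3 h4 h5 h6
  rw [h3, h5, h4, incl_mkK, h1, h6]

theorem K_smp (u : K d) (h0 : 0 ≤ valK d u) (hu : u ≠ 0)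
    (h : ∀ ψ : K d, 0 ≤ valK d ψ → 0 ≤ ⟪u, ψ⟫) : PosL (valK d u) := by
  have h1 := smp_D d.isOpen d.conn.isPreconnected (u := incl d u) ?_ ?_ ?_
  · filter_upwards [h1, valK_ae d u] with x h2 h3
    rwa [h3]
  · filter_upwards [(Lp.coeFn_nonneg _).2 h0, valK_ae d u] with x h2 h3
    rw [← h3]; exact h2
  · refine fun h2 => hu (K_inj d u (Lp.eq_zero_iff_ae_eq_zero.2 ?_))
    filter_upwards [h2, valK_ae d u] with x h2 h3
    rw [h3, h2]; rfl
  · intro ψ hψ h2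
    refine h (mkK d ψ hψ) ((Lp.coeFn_nonneg _).1 ?_)
    filter_upwards [ae_restrict_of_ae (s := d.Ω) h2, valK_ae d (mkK d ψ hψ)] with x h2 h3
    rw [h3]; exact h2

theorem K_picone (u : K d) (c₀ c₁ c₂ : ℝ) (p q : L4 d.μ) (hp : PosL (valK d u))
    (h : ∀ ψ : K d, ⟪u, ψ⟫ = c₀ * T4 (oneL d.μ) (oneL d.μ) (valK d u) (valK d ψ) +
      c₁ * T4 p p (valK d u) (valK d ψ) + c₂ * T4 q q (valK d u) (valK d ψ)) (ψ : K d) :
    c₀ * T4 (oneL d.μ) (oneL d.μ) (valK d ψ) (valK d ψ) + c₁ * T4 p p (valK d ψ) (valK d ψ) +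
      c₂ * T4 q q (valK d ψ) (valK d ψ) ≤ ‖ψ‖ ^ 2 := by
  haveI : ENNReal.HolderTriple 4 4 2 := ⟨by
    rw [← two_mul, show (4 : ℝ≥0∞) = 2 * 2 by norm_num,
      ENNReal.mul_inv (by norm_num) (by norm_num), ← mul_assoc,
      ENNReal.mul_inv_cancel (by norm_num) (by norm_num), one_mul]⟩
  have hV : MemLp (fun x => c₀ + c₁ * (p x * p x) + c₂ * (q x * q x)) 2 d.μ :=
    ((memLp_const c₀).add (((Lp.memLp p).mul' (Lp.memLp p)).const_mul c₁)).add
      (((Lp.memLp q).mul' (Lp.memLp q)).const_mul c₂)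
  have h1 := picone_D d.isOpen (u := incl d u) ?_ hV (fun φ hφ => ?_) (incl_mem d ψ)
  · rw [inst_V]
    refine le_of_eq_of_le (integral_congr_ae (Eventually.of_forall fun x => ?_)) h1
    simp only
    ring
  · filter_upwards [hp, valK_ae d u] with x h2 h3
    rwa [← h3]
  · exact (h (mkK d φ hφ)).trans (inst_V d c₀ c₁ c₂ p q u (mkK d φ hφ))

theorem K_osc (η : ℝ) (hη : 0 < η) : ∃ h : K d, ‖h‖ = 1 ∧ ‖valK d h‖ ≤ η := by
  obtain ⟨h, h1, h2, h3⟩ := osc_H0 d.isOpen d.conn.nonempty hη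
  exact ⟨mkK d h h1, h2, by rw [norm_valK]; exact h3⟩

theorem K_bn (l : ℝ) (hl : l < 0) : ∃ φ : K d,
    ‖φ‖ ^ 2 + l * T4 (oneL d.μ) (oneL d.μ) (valK d φ) (valK d φ) < S0 * ‖valK d φ‖ ^ 2 := by
  obtain ⟨f, hf, h⟩ := bn_D d.isOpen d.conn.nonempty hl
  refine ⟨mkK d _ (ofT_mem_H0 hf), ?_⟩
  rw [norm_valK]
  refine lt_of_eq_of_lt ?_ h
  congr 2
  rw [← setIntegral_eq_integral_of_ae_compl_eq_zero (s := d.Ω) (Eventually.of_forall fun x hx => by
    rw [image_eq_zero_of_notMem_tsupport fun h => hx (hf h)]; simp)]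
  refine integral_congr_ae ?_
  filter_upwards [oneL_ae (μ := d.μ), valK_ae d (mkK d _ (ofT_mem_H0 hf)),
    ae_restrict_of_ae (s := d.Ω) (val_ofT f)] with x h1 h2 h3
  rw [h1, h2, incl_mkK, h3]; ring

/-- The context of a bounded domain. -/
def ctx : Ctx (K d) d.μ where
  val := valK d
  S := S0
  Λ := LamK d
  S_pos := S0_pos
  mu_ne := K_mu_ne d
  sob := K_sob d
  poin := K_poin d
  poin_opt := K_poin_opt d
  inj := K_inj d
  wnull := K_wnull d
  abs := K_abs d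
  smp := K_smp d
  picone := K_picone d
  osc := K_osc d
  bn := K_bn d

end CritSys
end
end

-- merged part: Pool.Agent.Work.MP_80ee1d_an.BridgeA
section
/-!
The space `H01 Ω` of the statements and the Hilbert space `K d` are the same; the integrals agree.

PLAN. `exists_rep`: for the test sequence `φ n` of `u`, the gradients vanish outside `Ω`
(`gradient_eq_zero_of_notMem`), so they converge in `L²(ℝ⁴)` to `g = Ω.indicator u.grad`
(`eLpNorm_indicator_eq_eLpNorm_restrict`, and `eLpNorm · 2` versus `∫ ‖·‖²`: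
`MemLp.eLpNorm_eq_integral_rpow_norm` or the `L2` inner product).  `H0_of_limit` gives `w`.  Along
the subsequence of `exists_ae_subseq`, `φ n → val w` a.e., and `∫_Ω (φ n - u)² → 0`; Fatou (or a
further a.e. convergent subsequence) gives `val w = u` a.e. on `Ω`.
`exists_rep'`: take `val = valK d U`, `grad = grd (incl d U)`; `MemLp.mono_exponent` on the finite
measure; tests from `mem_H0_iff`, `∫_Ω (f n - U)² = M (f n - U) (f n - U) ≤ ‖1‖² ‖·‖₄²`,
`∫_Ω ‖∇ f n - grd U‖² ≤ ‖ofT (f n) - U‖²` (`norm_sq_D`).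
The integral identities: `integral_congr_ae`, `integral_add` with `T4_integrable`, `oneL_ae`;
`‖U‖² = ∫_Ω ‖grd‖²` by `H0_zero_outside`.  `Rep.solEq`: a test function `φ` gives
`ψ = mkK d (ofT ⟨φ, _⟩) _` and the two identities coincide; conversely both sides of `Eqn` are
continuous in `ψ` and such `ψ` are dense (`mem_H0_iff`).
-/

open MeasureTheory Filter Topology
open scoped ContDiff RealInnerProductSpace ENNReal

noncomputable section
namespace CritSys

/-- `U` represents `u`. -/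
def Rep (d : Dom) (u : H01 d.Ω) (U : K d) : Prop :=
  (∀ᵐ x ∂d.μ, valK d U x = u.val x) ∧ ∀ᵐ x ∂d.μ, grd (incl d U) x = u.grad x

variable {d : Dom}

theorem BridgeA_eLp {F : Type} [NormedAddCommGroup F] {μ : Measure E4} {f : ℕ → E4 → F}
    (hf : ∀ n, MemLp (f n) 2 μ) (h : Tendsto (fun n => ∫ x, ‖f n x‖ ^ 2 ∂μ) atTop (𝓝 0)) :
    Tendsto (fun n => eLpNorm (f n) 2 μ) atTop (𝓝 0) := by
  have h1 := ENNReal.tendsto_ofReal (h.rpow_const (p := (2 : ℝ)⁻¹) (Or.inr (by norm_num)))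
  rw [Real.zero_rpow (by norm_num), ENNReal.ofReal_zero] at h1
  refine h1.congr fun n => ?_
  rw [(hf n).eLpNorm_eq_integral_rpow_norm two_ne_zero ENNReal.ofNat_ne_top]
  simp only [ENNReal.toReal_ofNat, Real.rpow_ofNat]

theorem BridgeA_T {a b c e : L4 d.μ} {f g h k : E4 → ℝ} (ha : ∀ᵐ x ∂d.μ, a x = f x)
    (hb : ∀ᵐ x ∂d.μ, b x = g x) (hc : ∀ᵐ x ∂d.μ, c x = h x) (he : ∀ᵐ x ∂d.μ, e x = k x)
    {F : E4 → ℝ} (hF : ∀ x, F x = f x * g x * h x * k x) :
    Integrable F d.μ ∧ ∫ x in d.Ω, F x = T4 a b c e := by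
  have h1 : (fun x => a x * b x * c x * e x) =ᵐ[d.μ] F := by
    filter_upwards [ha, hb, hc, he] with x h1 h2 h3 h4
    rw [h1, h2, h3, h4, hF]
  exact ⟨(T4_integrable a b c e).congr h1, (integral_congr_ae h1).symm⟩

theorem BridgeA_inner {U V : K d} {f g : E4 → E4} (hf : ∀ᵐ x ∂d.μ, grd (incl d U) x = f x)
    (hg : ∀ᵐ x ∂d.μ, grd (incl d V) x = g x) :
    Integrable (fun x => ⟪f x, g x⟫) d.μ ∧ ∫ x in d.Ω, ⟪f x, g x⟫ = ⟪U, V⟫ := by
  have h1 : (fun x => ⟪grd (incl d U) x, grd (incl d V) x⟫) =ᵐ[d.μ] fun x => ⟪f x, g x⟫ := by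
    filter_upwards [hf, hg] with x h1 h2
    rw [h1, h2]
  have h2 : Integrable (fun x => ⟪grd (incl d U) x, grd (incl d V) x⟫) volume :=
    L2.integrable_inner (grdL (incl d U)) (grdL (incl d V))
  refine ⟨h2.integrableOn.congr h1, ?_⟩
  rw [← integral_congr_ae h1, ← inner_incl, inner_D]
  refine setIntegral_eq_integral_of_ae_compl_eq_zero ?_
  filter_upwards [H0_zero_outside (incl_mem d U)] with x hx hx'
  rw [(hx hx').2, inner_zero_left]

theorem BridgeA_dir {U : K d} {f : E4 → E4} (hf : ∀ᵐ x ∂d.μ, grd (incl d U) x = f x) :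
    Integrable (fun x => ‖f x‖ ^ 2) d.μ ∧ ∫ x in d.Ω, ‖f x‖ ^ 2 = ‖U‖ ^ 2 := by
  simpa only [real_inner_self_eq_norm_sq] using BridgeA_inner hf hf

/-- The class of a test function in `K d`. -/
def BridgeA_tst (d : Dom) (f : Tst) (hf : tsupport (f : E4 → ℝ) ⊆ d.Ω) : K d :=
  mkK d (ofT f) (ofT_mem_H0 hf)

theorem BridgeA_val (f : Tst) (hf : tsupport (f : E4 → ℝ) ⊆ d.Ω) :
    ∀ᵐ x ∂d.μ, valK d (BridgeA_tst d f hf) x = (f : E4 → ℝ) x := by
  filter_upwards [valK_ae d (BridgeA_tst d f hf), ae_restrict_of_ae (val_ofT f)] with x h1 h2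
  exact h1.trans h2

theorem BridgeA_grd (f : Tst) (hf : tsupport (f : E4 → ℝ) ⊆ d.Ω) :
    ∀ᵐ x ∂d.μ, grd (incl d (BridgeA_tst d f hf)) x = gradient (f : E4 → ℝ) x :=
  ae_restrict_of_ae (grd_ofT f)

theorem BridgeA_tendsto {U : K d} {f : ℕ → Tst} (hf : ∀ n, tsupport (f n : E4 → ℝ) ⊆ d.Ω)
    (h : Tendsto (fun n => ofT (f n)) atTop (𝓝 (incl d U))) :
    Tendsto (fun n => BridgeA_tst d (f n) (hf n)) atTop (𝓝 U) := by
  rw [tendsto_iff_norm_sub_tendsto_zero] at h ⊢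
  exact h

theorem exists_rep (u : H01 d.Ω) : ∃ U, Rep d u U := by
  obtain ⟨φ, hφ, h1, h2⟩ := u.approx
  have hΩ := d.isOpen.measurableSet
  let f : ℕ → Tst := fun n => ⟨φ n, (hφ n).1, (hφ n).2.1⟩
  have hf : ∀ n, tsupport (f n : E4 → ℝ) ⊆ d.Ω := fun n => (hφ n).2.2
  obtain ⟨w, hw, hg, hlim⟩ := H0_of_limit f hf ((memLp_indicator_iff_restrict hΩ).2 u.grad_mem) (by
    refine (BridgeA_eLp (μ := d.μ) (f := fun n x => gradient (φ n) x - u.grad x)
      (fun n => ((tst_memLp_grad (f n) 2).restrict _).sub u.grad_mem) h2).congr fun n => ?_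
    rw [← eLpNorm_indicator_eq_eLpNorm_restrict hΩ]
    congr 1
    funext x
    by_cases hx : x ∈ d.Ω
    · rw [Set.indicator_of_mem hx, Set.indicator_of_mem hx]
    · rw [Set.indicator_of_notMem hx, Set.indicator_of_notMem hx, sub_zero,
        gradient_eq_zero_of_notMem fun h => hx (hf n h)])
  refine ⟨mkK d w hw, ?_, ?_⟩
  · have t1 := ((valK d).continuous.tendsto _).comp (BridgeA_tendsto (U := mkK d w hw) hf hlim)
    have t2 := (tendstoInMeasure_of_tendsto_Lp t1).congr_left fun n => BridgeA_val (f n) (hf n)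
    have t3 : TendstoInMeasure d.μ (fun n => (f n : E4 → ℝ)) atTop u.val := by
      refine tendstoInMeasure_of_tendsto_eLpNorm (p := 2) two_ne_zero
        (fun n => ((tst_memLp (f n) 2).restrict _).1) u.val_mem.1 ?_
      refine BridgeA_eLp (fun n => ((tst_memLp (f n) 2).restrict _).sub u.val_mem) ?_
      simpa only [Real.norm_eq_abs, sq_abs, Pi.sub_apply] using h1
    exact tendstoInMeasure_ae_unique t2 t3
  · filter_upwards [ae_restrict_of_ae hg, ae_restrict_mem hΩ] with x hx hx'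
    rw [incl_mkK, hx, Set.indicator_of_mem hx']

theorem exists_rep' (U : K d) : ∃ u, Rep d u U := by
  obtain ⟨f, hf, hlim⟩ := mem_H0_iff.1 (incl_mem d U)
  have t1 : Tendsto (fun n => BridgeA_tst d (f n) (hf n) - U) atTop (𝓝 0) :=
    tendsto_sub_nhds_zero_iff.2 (BridgeA_tendsto hf hlim)
  refine ⟨⟨valK d U, grd (incl d U), (Lp.memLp _).mono_exponent (by norm_num),
    (grd_memLp _).restrict _, fun n => f n, fun n => ⟨(f n).2.1, (f n).2.2, hf n⟩, ?_, ?_⟩,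
    Eventually.of_forall fun _ => rfl, Eventually.of_forall fun _ => rfl⟩
  · have t2 := ((valK d).continuous.tendsto _).comp t1
    have t3 := T4_tendsto (tendsto_const_nhds (x := oneL d.μ)) (tendsto_const_nhds (x := oneL d.μ))
      t2 t2
    rw [map_zero, T4_zero4] at t3
    refine t3.congr fun n => ?_
    have e : ∀ᵐ x ∂d.μ, valK d (BridgeA_tst d (f n) (hf n) - U) x =
        (f n : E4 → ℝ) x - valK d U x := by
      rw [map_sub]
      filter_upwards [Lp.coeFn_sub (valK d (BridgeA_tst d (f n) (hf n))) (valK d U),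
        BridgeA_val (f n) (hf n)] with x h1 h2
      rw [h1, Pi.sub_apply, h2]
    exact (BridgeA_T oneL_ae oneL_ae e e fun x => by ring).2.symm
  · have t2 := t1.norm.pow 2
    rw [norm_zero, zero_pow two_ne_zero] at t2
    refine t2.congr fun n => (BridgeA_dir ?_).2.symm
    rw [map_sub]
    filter_upwards [ae_restrict_of_ae (grd_sub (incl d (BridgeA_tst d (f n) (hf n))) (incl d U)),
      BridgeA_grd (f n) (hf n)] with x h1 h2
    rw [h1, h2]

variable {u v : H01 d.Ω} {U V : K d}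

theorem BridgeA_l2 (h : Rep d u U) : Integrable (fun x => u.val x ^ 2) d.μ ∧
    ∫ x in d.Ω, u.val x ^ 2 = (ctx d).M U U :=
  BridgeA_T oneL_ae oneL_ae h.1 h.1 fun x => by ring

theorem BridgeA_mix (h : Rep d u U) (h' : Rep d v V) :
    Integrable (fun x => u.val x ^ 2 * v.val x ^ 2) d.μ ∧
      ∫ x in d.Ω, u.val x ^ 2 * v.val x ^ 2 = (ctx d).R U V :=
  BridgeA_T h.1 h.1 h'.1 h'.1 fun x => by ring

theorem BridgeA_four (h : Rep d u U) : Integrable (fun x => u.val x ^ 4) d.μ ∧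
    ∫ x in d.Ω, u.val x ^ 4 = (ctx d).P U :=
  BridgeA_T h.1 h.1 h.1 h.1 fun x => by ring

theorem BridgeA_lin {μ : Measure E4} {f g F : E4 → ℝ} (hf : Integrable f μ) (hg : Integrable g μ)
    (a b : ℝ) (hF : ∀ x, F x = a * f x + b * g x) :
    Integrable F μ ∧ ∫ x, F x ∂μ = a * ∫ x, f x ∂μ + b * ∫ x, g x ∂μ := by
  rw [show F = fun x => a * f x + b * g x from funext hF]
  refine ⟨(hf.const_mul a).add (hg.const_mul b), ?_⟩
  rw [integral_add (hf.const_mul a) (hg.const_mul b), integral_const_mul, integral_const_mul]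

theorem BridgeA_test (h : Rep d u U) (h' : Rep d v V) (l m β : ℝ) (f : Tst)
    (hf : tsupport (f : E4 → ℝ) ⊆ d.Ω) :
    ∫ x in d.Ω, (⟪u.grad x, gradient (f : E4 → ℝ) x⟫ + l * u.val x * (f : E4 → ℝ) x) =
      (ctx d).B l U (BridgeA_tst d f hf) ∧
    ∫ x in d.Ω, (m * u.val x ^ 3 + β * u.val x * v.val x ^ 2) * (f : E4 → ℝ) x =
      m * (ctx d).T U U U (BridgeA_tst d f hf) + β * (ctx d).T V V U (BridgeA_tst d f hf) := by
  have hv := BridgeA_val f hf
  obtain ⟨i1, e1⟩ := BridgeA_inner h.2 (BridgeA_grd f hf)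
  obtain ⟨i2, e2⟩ := BridgeA_T oneL_ae oneL_ae h.1 hv fun _ => rfl
  obtain ⟨i3, e3⟩ := BridgeA_T h.1 h.1 h.1 hv fun _ => rfl
  obtain ⟨i4, e4⟩ := BridgeA_T h'.1 h'.1 h.1 hv fun _ => rfl
  constructor
  · rw [(BridgeA_lin i1 i2 1 l fun x => by ring).2, e1, e2, one_mul]
    rfl
  · rw [(BridgeA_lin i3 i4 m β fun x => by ring).2, e3, e4]
    rfl

theorem Rep.nonZero (h : Rep d u U) : NonZero u ↔ U ≠ 0 := by
  refine not_congr ⟨fun h0 => K_inj d U (Lp.eq_zero_iff_ae_eq_zero.2 ?_), fun h0 => ?_⟩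
  · filter_upwards [h.1, h0] with x h1 h2
    exact h1.trans h2
  · have h1 := h.1
    rw [h0, map_zero] at h1
    filter_upwards [h1, Lp.coeFn_zero ℝ 4 d.μ] with x h2 h3
    exact h2.symm.trans h3

theorem Rep.isPos (h : Rep d u U) : IsPos u ↔ (ctx d).Pos U := by
  refine eventually_congr ?_
  filter_upwards [h.1] with x hx
  rw [← hx]
  rfl

theorem Rep.l2 (h : Rep d u U) : ∫ x in d.Ω, u.val x ^ 2 = (ctx d).M U U := by
  exact (BridgeA_l2 h).2

theorem Rep.dir (h : Rep d u U) : ∫ x in d.Ω, ‖u.grad x‖ ^ 2 = ‖U‖ ^ 2 := by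
  exact (BridgeA_dir h.2).2

theorem Rep.quad (h : Rep d u U) (l : ℝ) : quad l u = (ctx d).q l U := by
  rw [CritSys.quad, (BridgeA_lin (BridgeA_dir h.2).1 (BridgeA_l2 h).1 1 l fun x => by ring).2,
    h.dir, h.l2, one_mul]
  rfl

theorem Rep.mix (h : Rep d u U) (h' : Rep d v V) :
    ∫ x in d.Ω, u.val x ^ 2 * v.val x ^ 2 = (ctx d).R U V := by
  exact (BridgeA_mix h h').2

theorem Rep.four (h : Rep d u U) (m : ℝ) : ∫ x in d.Ω, m * u.val x ^ 4 = m * (ctx d).P U := by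
  rw [integral_const_mul, (BridgeA_four h).2]

theorem Rep.int2 (h : Rep d u U) (h' : Rep d v V) (m β : ℝ) :
    ∫ x in d.Ω, (m * u.val x ^ 4 + β * u.val x ^ 2 * v.val x ^ 2) =
      m * (ctx d).P U + β * (ctx d).R U V := by
  rw [(BridgeA_lin (BridgeA_four h).1 (BridgeA_mix h h').1 m β fun x => by ring).2,
    (BridgeA_four h).2, h.mix h']

theorem Rep.int2' (h : Rep d u U) (h' : Rep d v V) (m β : ℝ) :
    ∫ x in d.Ω, (m * v.val x ^ 4 + β * u.val x ^ 2 * v.val x ^ 2) =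
      m * (ctx d).P V + β * (ctx d).R U V := by
  rw [(BridgeA_lin (BridgeA_four h').1 (BridgeA_mix h h').1 m β fun x => by ring).2,
    (BridgeA_four h').2, h.mix h']

theorem Rep.energy (h : Rep d u U) (h' : Rep d v V) (l1 l2 m1 m2 β : ℝ) :
    energy l1 l2 m1 m2 β u v = (ctx d).En l1 l2 m1 m2 β U V := by
  obtain ⟨i1, e1⟩ := BridgeA_lin (BridgeA_four h).1 (BridgeA_mix h h').1 m1 (2 * β) fun _ => rfl
  rw [CritSys.energy, h.quad, h'.quad,
    (BridgeA_lin i1 (BridgeA_four h').1 1 m2 fun x => by ring).2, e1, (BridgeA_four h).2,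
    (BridgeA_four h').2, h.mix h', Ctx.En]
  ring

theorem Rep.solEq (h : Rep d u U) (h' : Rep d v V) (l m β : ℝ) :
    SolEq l m β u v ↔ (ctx d).Eqn l m β U V := by
  constructor
  · intro hs ψ
    obtain ⟨f, hf, hlim⟩ := mem_H0_iff.1 (incl_mem d ψ)
    have t1 := BridgeA_tendsto hf hlim
    have t2 := ((valK d).continuous.tendsto _).comp t1
    have t3 : Tendsto (fun n => (ctx d).B l U (BridgeA_tst d (f n) (hf n))) atTop
        (𝓝 ((ctx d).B l U ψ)) :=
      (tendsto_const_nhds.inner t1).add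
        ((T4_tendsto tendsto_const_nhds tendsto_const_nhds tendsto_const_nhds t2).const_mul l)
    have t4 : Tendsto (fun n => m * (ctx d).T U U U (BridgeA_tst d (f n) (hf n)) +
        β * (ctx d).T V V U (BridgeA_tst d (f n) (hf n))) atTop
        (𝓝 (m * (ctx d).T U U U ψ + β * (ctx d).T V V U ψ)) :=
      ((T4_tendsto tendsto_const_nhds tendsto_const_nhds tendsto_const_nhds t2).const_mul m).add
        ((T4_tendsto tendsto_const_nhds tendsto_const_nhds tendsto_const_nhds t2).const_mul β)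
    refine tendsto_nhds_unique t3 (t4.congr fun n => ?_)
    obtain ⟨e1, e2⟩ := BridgeA_test h h' l m β (f n) (hf n)
    rw [← e1, ← e2]
    exact (hs _ ⟨(f n).2.1, (f n).2.2, hf n⟩).symm
  · intro hs φ hφ
    obtain ⟨e1, e2⟩ := BridgeA_test h h' l m β ⟨φ, hφ.1, hφ.2.1⟩ hφ.2.2
    exact e1.trans ((hs _).trans e2.symm)

end CritSys
end
end

-- merged part: Pool.Agent.Work.MP_80ee1d_an.BridgeB
section
/-!
Translation of the notions used in the statements.

PLAN. The sets under `sInf` are equal (`exists_rep`, `exists_rep'` and the `Rep` lemmas).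
`hasGS_iff`: the set of energies on the Nehari set is bounded below by `0` (`Neh.En_eq`,
`q_nonneg`); a positive solution lies in the Nehari set (`Eqn.q_eq`, `Pos.ne_zero`, `R_comm`), so
`energy = sInf` is equivalent to being a lower bound (`csInf_le`, `IsLeast.csInf_eq`).
The scalar case is the same, with `energy1 = q / 4` on the scalar Nehari set.
-/

open MeasureTheory Filter Topology
open scoped ContDiff RealInnerProductSpace ENNReal

noncomputable section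
namespace CritSys

variable {d : Dom}

theorem BridgeB_neh {u v : H01 d.Ω} {U V : K d} (h : Rep d u U) (h' : Rep d v V)
    (l1 l2 m1 m2 β : ℝ) : InNehari l1 l2 m1 m2 β u v ↔ (ctx d).Neh l1 l2 m1 m2 β U V := by
  rw [InNehari, Ctx.Neh, h.nonZero, h'.nonZero, h.quad, h'.quad, h.int2 h', h.int2' h']

theorem BridgeB_ground (d : Dom) (l1 l2 m1 m2 β : ℝ) : groundLevel d.Ω l1 l2 m1 m2 β =
    sInf {e | ∃ U V : K d, (ctx d).Neh l1 l2 m1 m2 β U V ∧ e = (ctx d).En l1 l2 m1 m2 β U V} := by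
  unfold groundLevel
  congr 1
  ext r
  constructor
  · rintro ⟨u, v, h, rfl⟩
    obtain ⟨U, hU⟩ := exists_rep u
    obtain ⟨V, hV⟩ := exists_rep v
    exact ⟨U, V, (BridgeB_neh hU hV ..).1 h, hU.energy hV ..⟩
  · rintro ⟨U, V, h, rfl⟩
    obtain ⟨u, hU⟩ := exists_rep' U
    obtain ⟨v, hV⟩ := exists_rep' V
    exact ⟨u, v, (BridgeB_neh hU hV ..).2 h, (hU.energy hV ..).symm⟩

theorem BridgeB_en1 {w : H01 d.Ω} {W : K d} (h : Rep d w W) {l m : ℝ}
    (hs : (ctx d).q l W = m * (ctx d).P W) : energy1 l m w = (ctx d).q l W / 4 := by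
  rw [energy1, h.quad, h.four, ← hs]
  ring

theorem BridgeB_level (d : Dom) (l m : ℝ) : level1 d.Ω l m =
    sInf {e | ∃ W : K d, W ≠ 0 ∧ (ctx d).q l W = m * (ctx d).P W ∧ e = (ctx d).q l W / 4} := by
  unfold level1
  congr 1
  ext r
  constructor
  · rintro ⟨w, h1, h2, rfl⟩
    obtain ⟨W, hW⟩ := exists_rep w
    rw [hW.quad, hW.four] at h2
    exact ⟨W, hW.nonZero.1 h1, h2, BridgeB_en1 hW h2⟩
  · rintro ⟨W, h1, h2, rfl⟩
    obtain ⟨w, hW⟩ := exists_rep' W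
    exact ⟨w, hW.nonZero.2 h1, by rw [hW.quad, hW.four, h2], (BridgeB_en1 hW h2).symm⟩

theorem lam1_eq (d : Dom) : lam1 d.Ω = (ctx d).Λ := by
  change sInf _ = sInf _
  congr 1
  ext r
  constructor
  · rintro ⟨u, h1, rfl⟩
    obtain ⟨U, hU⟩ := exists_rep u
    exact ⟨U, hU.l2.symm.trans h1, hU.dir⟩
  · rintro ⟨U, h1, rfl⟩
    obtain ⟨u, hU⟩ := exists_rep' U
    exact ⟨u, hU.l2.trans h1, hU.dir.symm⟩

theorem hasGS_iff {l1 l2 : ℝ} (a1 : (ctx d).Adm l1) (a2 : (ctx d).Adm l2) (m1 m2 β : ℝ) :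
    HasGroundState d.Ω l1 l2 m1 m2 β ↔ (ctx d).GS l1 l2 m1 m2 β := by
  have hb : BddBelow {e | ∃ U V : K d, (ctx d).Neh l1 l2 m1 m2 β U V ∧
      e = (ctx d).En l1 l2 m1 m2 β U V} := by
    refine ⟨0, ?_⟩
    rintro _ ⟨U, V, h, rfl⟩
    rw [h.En_eq]
    have := (ctx d).q_nonneg a1.1.le U
    have := (ctx d).q_nonneg a2.1.le V
    positivity
  constructor
  · rintro ⟨u, v, h1, h2, h3, h4, h5⟩
    obtain ⟨U, hU⟩ := exists_rep u
    obtain ⟨V, hV⟩ := exists_rep v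
    refine ⟨U, V, (hU.solEq hV _ _ _).1 h1, (hV.solEq hU _ _ _).1 h2, hU.isPos.1 h3,
      hV.isPos.1 h4, fun U' V' h => ?_⟩
    rw [← hU.energy hV, h5, BridgeB_ground]
    exact csInf_le hb ⟨U', V', h, rfl⟩
  · rintro ⟨U, V, h⟩
    obtain ⟨u, hU⟩ := exists_rep' U
    obtain ⟨v, hV⟩ := exists_rep' V
    refine ⟨u, v, (hU.solEq hV _ _ _).2 h.1, (hV.solEq hU _ _ _).2 h.2.1, hU.isPos.2 h.2.2.1,
      hV.isPos.2 h.2.2.2.1, ?_⟩
    rw [hU.energy hV, BridgeB_ground]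
    symm
    refine IsLeast.csInf_eq ⟨⟨U, V, h.neh, rfl⟩, ?_⟩
    rintro _ ⟨U', V', h', rfl⟩
    exact h.2.2.2.2 U' V' h'

theorem Rep.posSol1 {w : H01 d.Ω} {W : K d} (h : Rep d w W) (l m : ℝ) :
    PosSol1 l m w ↔ (ctx d).Sol1 l m W ∧ (ctx d).Pos W := by
  rw [PosSol1, h.solEq h, h.isPos, (ctx d).sol1_iff l m W W]

theorem Rep.energy1 {w : H01 d.Ω} {W : K d} (h : Rep d w W) {l m : ℝ}
    (hs : (ctx d).Sol1 l m W) : energy1 l m w = (ctx d).q l W / 4 := by
  exact BridgeB_en1 h hs.q_eq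

theorem level1_eq {l m : ℝ} (a : (ctx d).Adm l) {W : K d} (hW : (ctx d).Least l m W) :
    level1 d.Ω l m = (ctx d).q l W / 4 := by
  have _ := a
  rw [BridgeB_level]
  refine IsLeast.csInf_eq ⟨⟨W, hW.2.1.ne_zero, hW.1.q_eq, rfl⟩, ?_⟩
  rintro _ ⟨Z, h1, h2, rfl⟩
  have := hW.2.2 Z h1 h2
  linarith only [this]

theorem Rep.least {w : H01 d.Ω} {W : K d} (h : Rep d w W) {l m : ℝ} (a : (ctx d).Adm l) :
    (PosSol1 l m w ∧ CritSys.energy1 l m w = level1 d.Ω l m) ↔ (ctx d).Least l m W := by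
  constructor
  · rintro ⟨h1, h2⟩
    obtain ⟨h3, h4⟩ := (h.posSol1 l m).1 h1
    refine ⟨h3, h4, fun Z hZ e => ?_⟩
    rw [h.energy1 h3, BridgeB_level] at h2
    have hb : BddBelow {e | ∃ W : K d, W ≠ 0 ∧ (ctx d).q l W = m * (ctx d).P W ∧
        e = (ctx d).q l W / 4} := by
      refine ⟨0, ?_⟩
      rintro _ ⟨U, -, -, rfl⟩
      have := (ctx d).q_nonneg a.1.le U
      positivity
    have := csInf_le hb ⟨Z, hZ, e, rfl⟩
    linarith only [h2, this]
  · intro hW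
    exact ⟨(h.posSol1 l m).2 ⟨hW.1, hW.2.1⟩, by rw [h.energy1 hW.1, level1_eq a hW]⟩

theorem betaHat_eq {l m : ℝ} (a : (ctx d).Adm l) (l' : ℝ) :
    betaHat d.Ω l m l' = (ctx d).bh l m l' := by
  change sInf _ = sInf _
  congr 1
  ext r
  constructor
  · rintro ⟨w, v, h1, h2, h3, rfl⟩
    obtain ⟨W, hW⟩ := exists_rep w
    obtain ⟨V, hV⟩ := exists_rep v
    exact ⟨W, V, (hW.least a).1 ⟨h1, h2⟩, hV.nonZero.1 h3, by rw [hV.quad, hW.mix hV]⟩
  · rintro ⟨W, V, h1, h3, rfl⟩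
    obtain ⟨w, hW⟩ := exists_rep' W
    obtain ⟨v, hV⟩ := exists_rep' V
    obtain ⟨h4, h5⟩ := (hW.least a).2 h1
    exact ⟨w, v, h4, h5, hV.nonZero.2 h3, by rw [hV.quad, hW.mix hV]⟩

end CritSys
end
end
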