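import Pool.Agent.Work.MP_80ee1d_an.Comp
import Pool.Agent.Work.MP_80ee1d_an.SpaceC
import Pool.Agent.Work.MP_80ee1d_an.Dich

/-!
Auxiliary facts on the spaces `H0 Ω`.

PLAN. `limit_of_bdd`: `weak_subseq` gives a weak limit `z` of a subsequence.  It lies in the closed
subspace (`Submodule.orthogonal_orthogonal`: it is orthogonal to the complement of `H0 Ω`).  For every continuous
functional `ℓ` on `L⁴`, `tendsto_clm_of_weak` with `ℓ.comp val` gives `ℓ (val z) = ℓ g`, so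
`val z = g` (`NormedSpace.eq_iff_forall_dual_eq`).  `‖z‖² = lim ⟪w n, z⟫ ≤ c₀ ‖z‖`.
`mem_H0_of_support`: a test function `χ` with `χ = 1` on `K` and support in `Ω`
(`exists_contDiff_tsupport_subset`, `exists_contMDiff_support_eq...`, or
`IsCompact.exists_cthickening_subset_open` with `exists_smooth_one_nhds_of_subset_interior`-type
lemmas); `mul_D` gives `w' ∈ H0 Ω` with `val w' = val w`, `val_inj` applied to `w' - w`.
`no_lower_bound`: `G t = Real.smoothTransition (2 * t / L)` is smooth, `G 0 = 0`, equal to one on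
`[L/2, ∞)`, its derivative is continuous with compact support, hence bounded, and vanishes on
`[L, ∞)`.  For `w` from `comp_D`, `grd w = 0` a.e. (on `Ω` since `G' (u) = 0`, outside by
`H0_zero_outside`), so `w = 0` (`norm_sq_D`), but `val w = 1` a.e. on `Ω`.
-/

open MeasureTheory Filter Topology
open scoped ContDiff RealInnerProductSpace ENNReal

noncomputable section
namespace CritSys

theorem H0_mono {Ω Ω' : Set E4} (h : Ω ⊆ Ω') {u : D} (hu : u ∈ H0 Ω) : u ∈ H0 Ω' := by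
  obtain ⟨f, hf, hlim⟩ := mem_H0_iff.1 hu
  exact mem_H0_iff.2 ⟨f, fun n => (hf n).trans h, hlim⟩

theorem limit_of_bdd {Ω : Set E4} {w : ℕ → D} (hw : ∀ n, w n ∈ H0 Ω) {c : ℕ → ℝ} {c₀ : ℝ}
    (hc : ∀ n, ‖w n‖ ≤ c n) (hc₀ : Tendsto c atTop (𝓝 c₀)) {g : L4 (volume : Measure E4)}
    (hg : Tendsto (fun n => val (w n)) atTop (𝓝 g)) : ∃ z ∈ H0 Ω, val z = g ∧ ‖z‖ ≤ c₀ := by
  obtain ⟨B, hB⟩ := hc₀.bddAbove_range
  obtain ⟨φ, z, hφ, hz⟩ := weak_subseq w B fun n => (hc n).trans (hB ⟨n, rfl⟩)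
  refine ⟨z, ?_, ?_, ?_⟩
  · have : CompleteSpace (H0 Ω) := (isClosed_H0 Ω).completeSpace_coe
    rw [← Submodule.orthogonal_orthogonal (H0 Ω), Submodule.mem_orthogonal']
    intro y hy
    have h1 : Tendsto (fun _ : ℕ => -⟪z, y⟫) atTop (𝓝 0) := by
      refine (hz y).congr fun n => ?_
      rw [inner_sub_left, (Submodule.mem_orthogonal _ _).1 hy _ (hw _), zero_sub]
    exact neg_eq_zero.1 (tendsto_const_nhds_iff.1 h1)
  · refine (SeparatingDual.eq_iff_forall_dual_eq (R := ℝ)).2 fun l => ?_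
    have h1 := tendsto_clm_of_weak hz (l.comp val)
    have h2 : Tendsto (fun n => l (val (w (φ n))) - l (val z)) atTop (𝓝 (l g - l (val z))) :=
      (((l.continuous.tendsto g).comp hg).comp hφ.tendsto_atTop).sub_const _
    have h3 : l g - l (val z) = 0 := by
      refine tendsto_nhds_unique h2 (h1.congr fun n => ?_)
      rw [ContinuousLinearMap.comp_apply, map_sub, map_sub]
    exact (sub_eq_zero.1 h3).symm
  · have hφc : Tendsto (fun n => c (φ n)) atTop (𝓝 c₀) := hc₀.comp hφ.tendsto_atTop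
    have h0 : 0 ≤ c₀ := ge_of_tendsto' hc₀ fun n => (norm_nonneg _).trans (hc n)
    have h1 : 0 ≤ c₀ * ‖z‖ - ‖z‖ ^ 2 := by
      refine le_of_tendsto_of_tendsto' (hz z) ((hφc.mul_const ‖z‖).sub_const (‖z‖ ^ 2))
        fun n => ?_
      rw [inner_sub_left, real_inner_self_eq_norm_sq]
      have := (real_inner_le_norm (w (φ n)) z).trans
        (mul_le_mul_of_nonneg_right (hc (φ n)) (norm_nonneg z))
      linarith
    by_contra hz
    have h2 : c₀ < ‖z‖ := not_le.1 hz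
    nlinarith

theorem Lim_bump {Ω K : Set E4} (ho : IsOpen Ω) (hK : IsCompact K) (hKΩ : K ⊆ Ω) :
    ∃ χ : Tst, tsupport (χ : E4 → ℝ) ⊆ Ω ∧ ∀ x ∈ K, (χ : E4 → ℝ) x = 1 := by
  obtain ⟨K', hK', h1, h2⟩ := exists_compact_between hK ho hKΩ
  obtain ⟨f, hf, -, hs, h3⟩ := exists_contMDiff_support_eq_eq_one_iff (n := ⊤)
    (modelWithCornersSelf ℝ E4) isOpen_interior hK.isClosed h1
  have h4 : tsupport f ⊆ K' := by
    rw [tsupport, hs]
    exact closure_minimal interior_subset hK'.isClosed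
  exact ⟨⟨f, hf.contDiff, hK'.of_isClosed_subset (isClosed_tsupport f) h4⟩, h4.trans h2,
    fun x hx => (h3 x).1 hx⟩

theorem mem_H0_of_support {Ω K : Set E4} (ho : IsOpen Ω) (hK : IsCompact K) (hKΩ : K ⊆ Ω)
    {w : D} (h : ∀ᵐ x, x ∉ K → val w x = 0) : w ∈ H0 Ω := by
  obtain ⟨χ, h1, h2⟩ := Lim_bump ho hK hKΩ
  obtain ⟨w', hw', h3, -⟩ := mul_D w (Mult.of_tst χ) (Or.inr ⟨χ.2.2, h1⟩)
  have h4 : val w' = val w := by
    refine Lp.ext ?_
    filter_upwards [h, h3] with x hx e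
    rw [e]
    by_cases hxK : x ∈ K
    · rw [h2 x hxK, one_mul]
    · rw [hx hxK, mul_zero]
  have h5 : w' - w = 0 := val_inj (by rw [map_sub, h4, sub_self])
  rw [← sub_eq_zero.1 h5]
  exact hw'

theorem Lim_step {L : ℝ} (hL : 0 < L) : ∃ G : ℝ → ℝ, ContDiff ℝ ∞ G ∧
    (∃ c : ℝ, ∀ t, |deriv G t| ≤ c) ∧ G 0 = 0 ∧ ∀ t, L ≤ t → G t = 1 ∧ deriv G t = 0 := by
  have hG : ContDiff ℝ ∞ fun t : ℝ => Real.smoothTransition (2 * t / L) :=
    Real.smoothTransition.contDiff.comp (by fun_prop)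
  have h1 : ∀ t, L / 2 < t → Real.smoothTransition (2 * t / L) = 1 := fun t ht =>
    Real.smoothTransition.one_of_one_le (by rw [le_div_iff₀ hL]; linarith)
  have h1' : ∀ t, L / 2 < t → deriv (fun t : ℝ => Real.smoothTransition (2 * t / L)) t = 0 := by
    intro t ht
    have : (fun t : ℝ => Real.smoothTransition (2 * t / L)) =ᶠ[𝓝 t] fun _ => 1 := by
      filter_upwards [lt_mem_nhds ht] with s hs using h1 s hs
    rw [this.deriv_eq, deriv_const]
  have h0' : ∀ t, t < 0 → deriv (fun t : ℝ => Real.smoothTransition (2 * t / L)) t = 0 := by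
    intro t ht
    have : (fun t : ℝ => Real.smoothTransition (2 * t / L)) =ᶠ[𝓝 t] fun _ => 0 := by
      filter_upwards [gt_mem_nhds ht] with s hs
      exact Real.smoothTransition.zero_of_nonpos
        (div_nonpos_of_nonpos_of_nonneg (by linarith) hL.le)
    rw [this.deriv_eq, deriv_const]
  have hc : HasCompactSupport (deriv fun t : ℝ => Real.smoothTransition (2 * t / L)) := by
    refine HasCompactSupport.intro (isCompact_Icc (a := 0) (b := L / 2)) fun t ht => ?_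
    rcases not_and_or.1 ht with h | h
    · exact h0' t (not_le.1 h)
    · exact h1' t (not_le.1 h)
  obtain ⟨c, hcb⟩ := (hG.continuous_deriv (by simp)).bounded_above_of_compact_support hc
  exact ⟨_, hG, ⟨c, hcb⟩, by simp, fun t ht => ⟨h1 t (by linarith), h1' t (by linarith)⟩⟩

theorem no_lower_bound {Ω : Set E4} (ho : IsOpen Ω) (hn : Ω.Nonempty) {u : D} (hu : u ∈ H0 Ω)
    {L : ℝ} (hL : 0 < L) (h : ∀ᵐ x, x ∈ Ω → L ≤ val u x) : False := by
  obtain ⟨G, hG, hGb, hG0, hG1⟩ := Lim_step hL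
  obtain ⟨w, -, h1, h2⟩ := comp_D hu hG hGb hG0
  have h3 : w = 0 := by
    refine D_ext ?_
    filter_upwards [h, h2, H0_zero_outside hu, Lp.coeFn_zero E4 2 (volume : Measure E4)]
      with x hx e h0 hz
    have hz' : grd 0 x = 0 := by
      rw [grd, map_zero]
      exact hz
    rw [e, hz']
    by_cases hxΩ : x ∈ Ω
    · rw [(hG1 _ (hx hxΩ)).2, zero_smul]
    · rw [(h0 hxΩ).2, smul_zero]
  have h4 : ∀ᵐ x : E4, x ∉ Ω := by
    filter_upwards [h, h1, Lp.coeFn_zero ℝ 4 (volume : Measure E4)] with x hx e hz hxΩ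
    rw [h3, map_zero, hz, (hG1 _ (hx hxΩ)).1] at e
    exact zero_ne_one e
  exact (ho.measure_pos volume hn).ne' (measure_eq_zero_iff_ae_notMem.2 h4)

end CritSys
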