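import Mathlib

-- merged part: Pool.Agent.Work.MP_80ee1d_an.OdeA
section
/-!
Positive solutions of the Emden-Fowler equation `Y'' = Y + l e^{2t} Y - m Y³` on `(-∞, T)`.

PLAN. `J' = -l e^{2t} Y² > 0`, so `J` is strictly increasing on `Iio T`.  Fix `t₀ < T`.  On
`Iic t₀`: `m Y⁴ / 4 ≤ J t₀ + Y² / 2` bounds `Y`, `Z² ≤ 2 J t₀ + Y²` bounds `Z`.  `Y⁵` and its
derivative `5 Y⁴ Z` are integrable on `Iic t₀`, so `Y⁵ → 0` at `-∞`
(`tendsto_zero_of_hasDerivAt_of_integrableOn_Iic`), hence `Y → 0`.  `J ≥ -Y²/2` and monotonicity give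
`J ≥ 0` and a limit `j ≥ 0` (`tendsto_atBot_ciInf`-type lemma on `Iic t₀`).  For `t ≪ 0`,
`Z² = 2J + Y² (1 + l e^{2t} - m Y²/2) > 0`, so the continuous `Z` has a sign there; it is positive
since otherwise `Y` would be decreasing and could not tend to `0` at `-∞`.  If `j > 0` then
`Z ≥ √(2j)` near `-∞` and `Y t₁ - Y t ≥ √(2j) (t₁ - t)` is unbounded.  So `j = 0`, `Z → 0`, `J > 0`.
`J_le`: where `Y` is increasing on `Iic t`, `s ↦ -l e^{2s} (Y t)²/2 - J s` is monotone on `Iic t` and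
tends to `0` at `-∞`.
`tendsto_Z`: `Y` is bounded near `T`, so `Z'` is bounded and `Z` has a limit `-a` at `T-`
(`Z + C t` is monotone and bounded near `T`); `J → a²/2`, so `a ≠ 0` (`J ≥ J t₀ > 0`); `-a > 0`
would make `Y` increasing near `T`, against `Y → 0`.
-/

open MeasureTheory Filter Topology Set

noncomputable section
namespace CritSys

/-- Positive solutions with finite `L⁴` norm vanishing at `T`; `Z = Y'`. -/
structure EF (T l m : ℝ) (Y Z : ℝ → ℝ) : Prop where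
  d1 : ∀ t < T, HasDerivAt Y (Z t) t
  d2 : ∀ t < T, HasDerivAt Z (Y t + l * Real.exp t ^ 2 * Y t - m * Y t ^ 3) t
  pos : ∀ t < T, 0 < Y t
  int : IntegrableOn (fun t => Y t ^ 4) (Iio T)
  bdry : Tendsto Y (𝓝[<] T) (𝓝 0)

/-- The Pohozaev function. -/
def JJ (l m : ℝ) (Y Z : ℝ → ℝ) (t : ℝ) : ℝ :=
  Z t ^ 2 / 2 - Y t ^ 2 / 2 - l * Real.exp t ^ 2 * Y t ^ 2 / 2 + m * Y t ^ 4 / 4

variable {T l m : ℝ} {Y Z : ℝ → ℝ}

theorem EF.hasDerivAt_J (h : EF T l m Y Z) {t : ℝ} (ht : t < T) :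
    HasDerivAt (JJ l m Y Z) (-l * Real.exp t ^ 2 * Y t ^ 2) t := by
  have h1 := h.d1 t ht
  have h2 := h.d2 t ht
  have h3 := Real.hasDerivAt_exp t
  have h4 := ((((h2.fun_pow 2).div_const 2).fun_sub ((h1.fun_pow 2).div_const 2)).fun_sub
    (((((h3.fun_pow 2).const_mul l).fun_mul (h1.fun_pow 2))).div_const 2)).fun_add
    (((h1.fun_pow 4).const_mul m).div_const 4)
  exact h4.congr_deriv (by push_cast; ring)

theorem EF.odeA_cY (h : EF T l m Y Z) {s : Set ℝ} (hs : s ⊆ Iio T) : ContinuousOn Y s :=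
  fun t ht => (h.d1 t (hs ht)).continuousAt.continuousWithinAt

theorem EF.odeA_cZ (h : EF T l m Y Z) {s : Set ℝ} (hs : s ⊆ Iio T) : ContinuousOn Z s :=
  fun t ht => (h.d2 t (hs ht)).continuousAt.continuousWithinAt

theorem EF.odeA_dY (h : EF T l m Y Z) {s : Set ℝ} (hs : s ⊆ Iio T) :
    DifferentiableOn ℝ Y (interior s) :=
  fun t ht => (h.d1 t (hs (interior_subset ht))).differentiableAt.differentiableWithinAt

theorem EF.odeA_mono (h : EF T l m Y Z) (hl : l < 0) : StrictMonoOn (JJ l m Y Z) (Iio T) := by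
  refine strictMonoOn_of_deriv_pos (convex_Iio T)
    (fun t ht => (h.hasDerivAt_J ht).continuousAt.continuousWithinAt) fun t ht => ?_
  have ht' : t < T := mem_Iio.1 (interior_subset ht)
  rw [(h.hasDerivAt_J ht').deriv]
  have := h.pos t ht'
  have : 0 < -l := by linarith
  positivity

theorem odeA_low (hl : l < 0) (t : ℝ) :
    Z t ^ 2 / 2 - Y t ^ 2 / 2 + m * Y t ^ 4 / 4 ≤ JJ l m Y Z t := by
  unfold JJ
  have : 0 < -l := by linarith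
  have : 0 ≤ -l * Real.exp t ^ 2 * Y t ^ 2 := by positivity
  linarith

theorem EF.odeA_bdd (h : EF T l m Y Z) (hl : l < 0) (hm : 0 < m) {t0 : ℝ} (ht0 : t0 < T) :
    ∃ C, ∀ t ≤ t0, |Y t| ≤ C ∧ |Z t| ≤ C := by
  obtain ⟨B, hB⟩ : ∃ B, ∀ t ≤ t0, Y t ^ 2 ≤ B ∧ Z t ^ 2 ≤ B := by
    refine ⟨2 * |JJ l m Y Z t0| + (1 + (4 * |JJ l m Y Z t0| + 2) / m), fun t ht => ?_⟩
    have h1 := (h.odeA_mono hl).monotoneOn (lt_of_le_of_lt ht ht0) ht0 ht
    have h2 := odeA_low (m := m) (Y := Y) (Z := Z) hl t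
    have h3 := le_abs_self (JJ l m Y Z t0)
    have h4 := abs_nonneg (JJ l m Y Z t0)
    have h5 : 0 ≤ m * Y t ^ 4 := by positivity
    have h6 : 0 ≤ (4 * |JJ l m Y Z t0| + 2) / m := by positivity
    have h7 : Y t ^ 2 ≤ 1 + (4 * |JJ l m Y Z t0| + 2) / m := by
      rcases le_total (Y t ^ 2) 1 with k | k
      · linarith
      · have k1 : Y t ^ 2 ≤ (4 * |JJ l m Y Z t0| + 2) / m := by
          rw [le_div_iff₀ hm]
          refine le_of_mul_le_mul_right ?_ (lt_of_lt_of_le one_pos k)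
          nlinarith [sq_nonneg (Z t), mul_le_mul_of_nonneg_left k h4]
        linarith
    constructor <;> linarith
  refine ⟨√B, fun t ht => ⟨Real.abs_le_sqrt (hB t ht).1, Real.abs_le_sqrt (hB t ht).2⟩⟩

theorem EF.tendsto_Y (h : EF T l m Y Z) (hl : l < 0) (hm : 0 < m) : Tendsto Y atBot (𝓝 0) := by
  have ht0 : T - 1 < T := by linarith
  have hs : Iic (T - 1) ⊆ Iio T := fun t ht => lt_of_le_of_lt ht ht0
  obtain ⟨C, hC⟩ := h.odeA_bdd hl hm ht0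
  have hi := h.int.mono_set hs
  have key : ∀ W : ℝ → ℝ, ContinuousOn W (Iic (T - 1)) → (∀ t ≤ T - 1, |W t| ≤ C) →
      IntegrableOn (fun t => Y t ^ 4 * W t) (Iic (T - 1)) := fun W h1 h2 => by
    refine Integrable.mono' (hi.mul_const C)
      ((((h.odeA_cY hs).pow 4).mul h1).aestronglyMeasurable measurableSet_Iic)
      (ae_restrict_of_forall_mem measurableSet_Iic fun t ht => ?_)
    rw [Real.norm_eq_abs, abs_mul, abs_of_nonneg (by positivity : 0 ≤ Y t ^ 4)]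
    exact mul_le_mul_of_nonneg_left (h2 t ht) (by positivity)
  have h5 : Tendsto (fun t => Y t ^ 5) atBot (𝓝 0) := by
    refine tendsto_zero_of_hasDerivAt_of_integrableOn_Iic (a := T - 1)
      (f' := fun t => 5 * (Y t ^ 4 * Z t)) (fun t ht => ?_)
      ((key Z (h.odeA_cZ hs) fun t ht => (hC t ht).2).const_mul 5) ?_
    · exact ((h.d1 t (hs ht)).fun_pow 5).congr_deriv (by push_cast; ring)
    · simpa only [← pow_succ] using key Y (h.odeA_cY hs) fun t ht => (hC t ht).1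
  refine tendsto_order.2 ⟨fun a ha => ?_, fun a ha => ?_⟩
  · filter_upwards [eventually_lt_atBot T] with t ht
    exact ha.trans (h.pos t ht)
  · filter_upwards [(tendsto_order.1 h5).2 (a ^ 5) (by positivity)] with t ht
    exact lt_of_pow_lt_pow_left₀ 5 ha.le ht

theorem EF.odeA_nonneg (h : EF T l m Y Z) (hl : l < 0) (hm : 0 < m) {t : ℝ} (ht : t < T) :
    0 ≤ JJ l m Y Z t := by
  have h1 : Tendsto (fun s => -(Y s ^ 2 / 2)) atBot (𝓝 0) := by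
    simpa using (((h.tendsto_Y hl hm).pow 2).div_const 2).neg
  refine le_of_tendsto h1 ?_
  filter_upwards [eventually_le_atBot t] with s hs
  have h2 := (h.odeA_mono hl).monotoneOn (lt_of_le_of_lt hs ht) ht hs
  have h3 := odeA_low (m := m) (Y := Y) (Z := Z) hl s
  have h4 : 0 ≤ m * Y s ^ 4 := by positivity
  nlinarith [sq_nonneg (Z s)]

theorem odeA_exp : Tendsto (fun t : ℝ => Real.exp t ^ 2) atBot (𝓝 0) := by
  simpa using Real.tendsto_exp_atBot.pow 2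

theorem EF.odeA_sq (h : EF T l m Y Z) (hl : l < 0) (hm : 0 < m) :
    ∃ t1 < T, ∀ t ≤ t1, 2 * JJ l m Y Z t < Z t ^ 2 := by
  have h1 : Tendsto (fun t => 1 + l * Real.exp t ^ 2 - m * Y t ^ 2 / 2) atBot (𝓝 1) := by
    simpa using ((odeA_exp.const_mul l).const_add 1).sub
      ((((h.tendsto_Y hl hm).pow 2).const_mul m).div_const 2)
  obtain ⟨t1, h2⟩ := eventually_atBot.1
    (((tendsto_order.1 h1).1 0 one_pos).and (eventually_lt_atBot T))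
  refine ⟨t1, (h2 t1 le_rfl).2, fun t ht => ?_⟩
  have h3 := mul_pos (pow_pos (h.pos t (h2 t ht).2) 2) (h2 t ht).1
  unfold JJ
  nlinarith

theorem EF.odeA_Zpos (h : EF T l m Y Z) (hl : l < 0) (hm : 0 < m) :
    ∃ t1 < T, ∀ t ≤ t1, 2 * JJ l m Y Z t < Z t ^ 2 ∧ 0 < Z t := by
  obtain ⟨t1, h1, h2⟩ := h.odeA_sq hl hm
  refine ⟨t1, h1, fun t ht => ⟨h2 t ht, ?_⟩⟩
  have h3 : ∀ s ≤ t1, Z s ≠ 0 := fun s hs e => by
    have k1 := h2 s hs
    have k2 := h.odeA_nonneg hl hm (lt_of_le_of_lt hs h1)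
    rw [e] at k1
    linarith
  by_contra hn
  have hs : Iic t ⊆ Iio T := fun s hs => lt_of_le_of_lt (hs.trans ht) h1
  have h4 : ∀ s ≤ t, Z s ≤ 0 := fun s hs' => by
    by_contra k
    obtain ⟨u, k1, k2⟩ := intermediate_value_Icc' hs'
      (h.odeA_cZ (Icc_subset_Iic_self.trans hs)) (show (0 : ℝ) ∈ Icc (Z t) (Z s) from
        ⟨not_lt.1 hn, (not_le.1 k).le⟩)
    exact h3 u (k1.2.trans ht) k2
  have h5 : AntitoneOn Y (Iic t) :=
    antitoneOn_of_deriv_nonpos (convex_Iic t) (h.odeA_cY hs) (h.odeA_dY hs) fun s hs' => by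
      rw [(h.d1 s (hs (interior_subset hs'))).deriv]
      exact h4 s (mem_Iic.1 (interior_subset hs'))
  have h6 : Y t ≤ 0 := by
    refine ge_of_tendsto (h.tendsto_Y hl hm) ?_
    filter_upwards [eventually_le_atBot t] with s hs'
    exact h5 hs' (mem_Iic.2 le_rfl) hs'
  exact absurd (h.pos t (hs (mem_Iic.2 le_rfl))) (not_lt.2 h6)

theorem EF.tendsto_J (h : EF T l m Y Z) (hl : l < 0) (hm : 0 < m) :
    Tendsto (JJ l m Y Z) atBot (𝓝 0) := by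
  refine tendsto_order.2 ⟨fun a ha => ?_, fun a ha => ?_⟩
  · filter_upwards [eventually_lt_atBot T] with t ht
    exact ha.trans_le (h.odeA_nonneg hl hm ht)
  by_cases h1 : ∃ t < T, JJ l m Y Z t < a
  · obtain ⟨t, h2, h3⟩ := h1
    filter_upwards [eventually_le_atBot t] with s hs
    exact ((h.odeA_mono hl).monotoneOn (lt_of_le_of_lt hs h2) h2 hs).trans_lt h3
  exfalso
  push Not at h1
  obtain ⟨t1, h2, h3⟩ := h.odeA_Zpos hl hm
  have hs : Iic t1 ⊆ Iio T := fun s hs => lt_of_le_of_lt hs h2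
  have hc : 0 < √(2 * a) := Real.sqrt_pos.2 (by linarith)
  have hY := h.pos t1 h2
  have h4 : t1 - Y t1 / √(2 * a) ≤ t1 := by
    have : 0 < Y t1 / √(2 * a) := by positivity
    linarith
  have h5 := (convex_Iic t1).mul_sub_le_image_sub_of_le_deriv (h.odeA_cY hs) (h.odeA_dY hs)
    (C := √(2 * a)) (fun s hs' => by
      have k : s ≤ t1 := mem_Iic.1 (interior_subset hs')
      rw [(h.d1 s (hs k)).deriv]
      exact Real.sqrt_le_iff.2 ⟨(h3 s k).2.le, by linarith [(h3 s k).1, h1 s (hs k)]⟩)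
    _ h4 t1 (mem_Iic.2 le_rfl) h4
  rw [sub_sub_cancel, mul_div_cancel₀ _ hc.ne'] at h5
  linarith [h.pos _ (hs h4)]

theorem EF.tendsto_Z_bot (h : EF T l m Y Z) (hl : l < 0) (hm : 0 < m) :
    Tendsto Z atBot (𝓝 0) := by
  have hY := h.tendsto_Y hl hm
  have h1 : Tendsto (fun t => 2 * JJ l m Y Z t + Y t ^ 2 + l * Real.exp t ^ 2 * Y t ^ 2 -
      m * Y t ^ 4 / 2) atBot (𝓝 0) := by
    simpa using ((((h.tendsto_J hl hm).const_mul 2).add (hY.pow 2)).add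
      ((odeA_exp.const_mul l).mul (hY.pow 2))).sub (((hY.pow 4).const_mul m).div_const 2)
  have h2 : Tendsto (fun t => Z t ^ 2) atBot (𝓝 0) := h1.congr fun t => by
    unfold JJ
    ring
  rw [tendsto_zero_iff_abs_tendsto_zero]
  simpa [Real.sqrt_sq_eq_abs, Function.comp_def] using h2.sqrt

theorem EF.J_pos (h : EF T l m Y Z) (hl : l < 0) (hm : 0 < m) {t : ℝ} (ht : t < T) :
    0 < JJ l m Y Z t := by
  have h1 : t - 1 < T := by linarith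
  exact (h.odeA_nonneg hl hm h1).trans_lt (h.odeA_mono hl h1 ht (by linarith))

theorem EF.J_le (h : EF T l m Y Z) (hl : l < 0) (hm : 0 < m) :
    ∀ᶠ t in atBot, JJ l m Y Z t ≤ -l * Real.exp t ^ 2 * Y t ^ 2 / 2 := by
  obtain ⟨t1, h2, h3⟩ := h.odeA_Zpos hl hm
  filter_upwards [eventually_le_atBot t1] with t ht
  have hs : Iic t ⊆ Iio T := fun s hs => lt_of_le_of_lt (hs.trans ht) h2
  have h4 : MonotoneOn Y (Iic t) :=
    monotoneOn_of_deriv_nonneg (convex_Iic t) (h.odeA_cY hs) (h.odeA_dY hs) fun s hs' => by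
      have k : s ≤ t := mem_Iic.1 (interior_subset hs')
      rw [(h.d1 s (hs k)).deriv]
      exact (h3 s (k.trans ht)).2.le
  have h5 : ∀ s ≤ t, HasDerivAt (fun s => -l * Real.exp s ^ 2 * Y t ^ 2 / 2 - JJ l m Y Z s)
      (-l * Real.exp s ^ 2 * (Y t ^ 2 - Y s ^ 2)) s := fun s hs' =>
    ((((((Real.hasDerivAt_exp s).fun_pow 2).const_mul (-l)).mul_const
      (Y t ^ 2)).div_const 2).fun_sub (h.hasDerivAt_J (hs hs'))).congr_deriv (by push_cast; ring)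
  have h6 : MonotoneOn (fun s => -l * Real.exp s ^ 2 * Y t ^ 2 / 2 - JJ l m Y Z s) (Iic t) :=
    monotoneOn_of_deriv_nonneg (convex_Iic t)
      (fun s hs' => (h5 s hs').continuousAt.continuousWithinAt)
      (fun s hs' => (h5 s (mem_Iic.1 (interior_subset hs'))).differentiableAt.differentiableWithinAt)
      fun s hs' => by
        have k : s ≤ t := mem_Iic.1 (interior_subset hs')
        rw [(h5 s k).deriv]
        have k1 := pow_le_pow_left₀ (h.pos s (hs k)).le (h4 k (mem_Iic.2 le_rfl) k) 2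
        have k2 : 0 < -l := by linarith
        exact mul_nonneg (by positivity) (sub_nonneg.2 k1)
  have h7 : Tendsto (fun s => -l * Real.exp s ^ 2 * Y t ^ 2 / 2 - JJ l m Y Z s) atBot (𝓝 0) := by
    simpa using (((odeA_exp.const_mul (-l)).mul_const (Y t ^ 2)).div_const 2).sub
      (h.tendsto_J hl hm)
  refine sub_nonneg.1 (le_of_tendsto h7 ?_)
  filter_upwards [eventually_le_atBot t] with s hs'
  exact h6 hs' (mem_Iic.2 le_rfl) hs'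

theorem EF.odeA_lim (h : EF T l m Y Z) (hl : l < 0) (hm : 0 < m) :
    ∃ L : ℝ, Tendsto Z (𝓝[<] T) (𝓝 L) := by
  obtain ⟨t2, h1, h2⟩ := (mem_nhdsLT_iff_exists_Ioo_subset (a := T)).1
    ((tendsto_order.1 h.bdry).2 1 one_pos)
  have h1' : t2 < T := h1
  obtain ⟨C, hC⟩ : ∃ C, ∀ t ∈ Ioo t2 T, |Y t + l * Real.exp t ^ 2 * Y t - m * Y t ^ 3| ≤ C := by
    refine ⟨1 + -l * Real.exp T ^ 2 + m, fun t ht => ?_⟩
    have k1 : Y t < 1 := h2 ht
    have k2 := h.pos t ht.2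
    have k3 : Real.exp t ^ 2 ≤ Real.exp T ^ 2 :=
      pow_le_pow_left₀ (Real.exp_pos t).le (Real.exp_le_exp.2 ht.2.le) 2
    have k4 : 0 < -l := by linarith
    have k5 : -l * Real.exp t ^ 2 * Y t ≤ -l * Real.exp T ^ 2 :=
      (mul_le_of_le_one_right (by positivity) k1.le).trans (mul_le_mul_of_nonneg_left k3 k4.le)
    have k6 : 0 ≤ -l * Real.exp t ^ 2 * Y t := by positivity
    have k7 : m * Y t ^ 3 ≤ m := mul_le_of_le_one_right hm.le (pow_le_one₀ k2.le k1.le)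
    have k8 : 0 ≤ m * Y t ^ 3 := by positivity
    rw [abs_le]
    constructor <;> linarith
  have hc : ContinuousOn Z (Ioo t2 T) := h.odeA_cZ Ioo_subset_Iio_self
  have hd : DifferentiableOn ℝ Z (interior (Ioo t2 T)) := fun t ht =>
    (h.d2 t (interior_subset ht).2).differentiableAt.differentiableWithinAt
  have h3 := (convex_Ioo t2 T).mul_sub_le_image_sub_of_le_deriv hc hd (C := -C) fun t ht => by
    rw [(h.d2 t (interior_subset ht).2).deriv]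
    exact (abs_le.1 (hC t (interior_subset ht))).1
  have h4 := (convex_Ioo t2 T).image_sub_le_mul_sub_of_deriv_le hc hd (C := C) fun t ht => by
    rw [(h.d2 t (interior_subset ht).2).deriv]
    exact (abs_le.1 (hC t (interior_subset ht))).2
  obtain ⟨t3, h5, h6⟩ := exists_between h1'
  have hC0 : 0 ≤ C := (abs_nonneg _).trans (hC t3 ⟨h5, h6⟩)
  have h7 : MonotoneOn (fun t => Z t + C * t) (Ioo t3 T) := fun x hx y hy hxy => by
    have := h3 x ⟨h5.trans hx.1, hx.2⟩ y ⟨h5.trans hy.1, hy.2⟩ hxy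
    dsimp only
    linarith
  have h8 : BddAbove ((fun t => Z t + C * t) '' Ioo t3 T) := by
    refine ⟨Z t3 + C * (T - t3) + C * T, ?_⟩
    rintro _ ⟨y, hy, rfl⟩
    have k1 := h4 t3 ⟨h5, h6⟩ y ⟨h5.trans hy.1, hy.2⟩ hy.1.le
    have k2 := mul_le_mul_of_nonneg_left hy.2.le hC0
    dsimp only
    linarith
  have h9 := h7.tendsto_nhdsWithin_Ioo_left (nonempty_Ioo.2 h6) h8
  have h10 : Tendsto (fun t : ℝ => C * t) (𝓝[<] T) (𝓝 (C * T)) :=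
    ((continuous_const.mul continuous_id).tendsto T).mono_left nhdsWithin_le_nhds
  exact ⟨_, (h9.sub h10).congr fun t => add_sub_cancel_right _ _⟩

theorem EF.tendsto_Z (h : EF T l m Y Z) (hl : l < 0) (hm : 0 < m) :
    ∃ a : ℝ, 0 < a ∧ Tendsto Z (𝓝[<] T) (𝓝 (-a)) := by
  obtain ⟨L, hL⟩ := h.odeA_lim hl hm
  refine ⟨-L, ?_, by rwa [neg_neg]⟩
  have he : Tendsto (fun t : ℝ => Real.exp t ^ 2) (𝓝[<] T) (𝓝 (Real.exp T ^ 2)) :=
    ((Real.continuous_exp.pow 2).tendsto T).mono_left nhdsWithin_le_nhds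
  have h1 : Tendsto (JJ l m Y Z) (𝓝[<] T) (𝓝 (L ^ 2 / 2)) := by
    have := ((((hL.pow 2).div_const 2).sub ((h.bdry.pow 2).div_const 2)).sub
      (((he.const_mul l).mul (h.bdry.pow 2)).div_const 2)).add
      (((h.bdry.pow 4).const_mul m).div_const 4)
    unfold JJ
    simpa using this
  have ht0 : T - 1 < T := by linarith
  have h2 : JJ l m Y Z (T - 1) ≤ L ^ 2 / 2 := by
    refine ge_of_tendsto h1 ?_
    filter_upwards [Ioo_mem_nhdsLT ht0] with t ht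
    exact (h.odeA_mono hl).monotoneOn ht0 ht.2 ht.1.le
  have h3 := h.J_pos hl hm ht0
  have h4 : L ≠ 0 := by
    rintro rfl
    simp at h2
    linarith
  by_contra hn
  have h5 : 0 < L := lt_of_le_of_ne (by linarith [not_lt.1 hn]) h4.symm
  obtain ⟨t2, h6, h7⟩ := (mem_nhdsLT_iff_exists_Ioo_subset (a := T)).1
    ((tendsto_order.1 hL).1 0 h5)
  have h6' : t2 < T := h6
  have h8 : MonotoneOn Y (Ioo t2 T) :=
    monotoneOn_of_deriv_nonneg (convex_Ioo t2 T) (h.odeA_cY Ioo_subset_Iio_self)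
      (h.odeA_dY Ioo_subset_Iio_self) fun s hs => by
        rw [(h.d1 s (interior_subset hs).2).deriv]
        exact le_of_lt (h7 (interior_subset hs))
  obtain ⟨t3, h9, h10⟩ := exists_between h6'
  have h11 : Y t3 ≤ 0 := by
    refine ge_of_tendsto h.bdry ?_
    filter_upwards [Ioo_mem_nhdsLT h10] with t ht
    exact h8 ⟨h9, h10⟩ ⟨h9.trans ht.1, ht.2⟩ ht.1.le
  exact absurd (h.pos t3 h10) (not_lt.2 h11)

end CritSys
end
end

-- merged part: Pool.Agent.Work.MP_80ee1d_an.OdeB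
section
/-!
Uniqueness for the Emden-Fowler boundary value problem (Pohozaev comparison).

PLAN. `W = Z₂ Y₁ - Z₁ Y₂`, `w = Y₂ / Y₁`, `X = w² J₁ - J₂`.  `W' = -m Y₁ Y₂ (Y₂² - Y₁²)`,
`w' = W / Y₁²`, `X' = 2 w w' J₁`.  At a zero of `W`: `X = m Y₂² (Y₁² - Y₂²) / 4`.  `W → 0` at `-∞`
and at `T-`; `X → 0` at `-∞` (`0 ≤ w² J₁ ≤ -l e^{2t} Y₂²/2` by `J_le`) and at `T-` (`w → a₂ / a₁` by
`HasDerivAt.lhopital_zero_left_on_Ioo` or the mean value theorem, `J_i → a_i² / 2`).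
`EF_W_nonneg`: suppose `W t₀ < 0`.  Right side: if `W < 0` on `[t₀, T)` then `X` is strictly
decreasing there with limit `0`; otherwise let `b` be the first zero of `W` after `t₀`; `w` is
decreasing on `[t₀, b]`, and `w b ≥ 1` would give `W' ≤ 0` on `[t₀, b]`, `W b ≤ W t₀ < 0`; so
`w b < 1`, `X b > 0`.  In both cases `X t₀ > 0`.  Left side, symmetric: if `W < 0` on `Iic t₀`,
`X` decreases from its limit `0`; otherwise at the last zero `a` of `W` before `t₀` one has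
`w a > 1` (else `w ≤ 1`, `W' ≥ 0` on `[a, t₀]`, `W t₀ ≥ 0`), `X a < 0`.  In both cases `X t₀ ≤ 0`.
By symmetry `W = 0` on `Iio T`, so `W' = 0`, `Y₂² = Y₁²`.
-/

open MeasureTheory Filter Topology Set

noncomputable section
namespace CritSys

theorem OdeB_mvt {f g : ℝ → ℝ} {a b : ℝ} (hab : a < b)
    (hd : ∀ s ∈ Icc a b, HasDerivAt f (g s) s) : ∃ c ∈ Ioo a b, f b - f a = g c * (b - a) := by
  have hc : ContinuousOn f (Icc a b) := fun s hs => (hd s hs).continuousAt.continuousWithinAt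
  obtain ⟨c, hc1, hc2⟩ := exists_hasDerivAt_eq_slope f g hab hc
    (fun s hs => hd s (Ioo_subset_Icc_self hs))
  refine ⟨c, hc1, ?_⟩
  rw [hc2]
  field_simp [(sub_pos.2 hab).ne']

theorem OdeB_anti {f g : ℝ → ℝ} {a b : ℝ} (hab : a ≤ b)
    (hd : ∀ s ∈ Icc a b, HasDerivAt f (g s) s) (hn : ∀ s ∈ Ioo a b, g s ≤ 0) : f b ≤ f a := by
  rcases hab.eq_or_lt with h | h
  · rw [h]
  · obtain ⟨c, hc1, hc2⟩ := OdeB_mvt h hd
    have := mul_nonpos_of_nonpos_of_nonneg (hn c hc1) (sub_pos.2 h).le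
    linarith

theorem OdeB_mono {f g : ℝ → ℝ} {a b : ℝ} (hab : a ≤ b)
    (hd : ∀ s ∈ Icc a b, HasDerivAt f (g s) s) (hn : ∀ s ∈ Ioo a b, 0 ≤ g s) : f a ≤ f b := by
  rcases hab.eq_or_lt with h | h
  · rw [h]
  · obtain ⟨c, hc1, hc2⟩ := OdeB_mvt h hd
    have := mul_nonneg (hn c hc1) (sub_pos.2 h).le
    linarith

theorem OdeB_santi {f g : ℝ → ℝ} {a b : ℝ} (hab : a < b)
    (hd : ∀ s ∈ Icc a b, HasDerivAt f (g s) s) (hn : ∀ s ∈ Ioo a b, g s < 0) : f b < f a := by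
  obtain ⟨c, hc1, hc2⟩ := OdeB_mvt hab hd
  have := mul_neg_of_neg_of_pos (hn c hc1) (sub_pos.2 hab)
  linarith

theorem OdeB_first {f : ℝ → ℝ} {a c : ℝ} (hac : a ≤ c) (hf : ContinuousOn f (Icc a c))
    (ha : f a < 0) (hc : 0 ≤ f c) : ∃ b ∈ Icc a c, f b = 0 ∧ ∀ s ∈ Ico a b, f s < 0 := by
  have hcl : IsClosed (Icc a c ∩ f ⁻¹' {0}) :=
    hf.preimage_isClosed_of_isClosed isClosed_Icc isClosed_singleton
  have hco : IsCompact (Icc a c ∩ f ⁻¹' {0}) :=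
    isCompact_Icc.of_isClosed_subset hcl inter_subset_left
  have hne : (Icc a c ∩ f ⁻¹' {0}).Nonempty := by
    obtain ⟨x, hx, hx0⟩ := intermediate_value_Icc hac hf ⟨ha.le, hc⟩
    exact ⟨x, hx, hx0⟩
  obtain ⟨b, hb, hmin⟩ := hco.exists_isLeast hne
  refine ⟨b, hb.1, hb.2, fun s hs => ?_⟩
  by_contra hcon
  push Not at hcon
  have hsub : Icc a s ⊆ Icc a c := Icc_subset_Icc_right (hs.2.le.trans hb.1.2)
  obtain ⟨x, hx, hx0⟩ := intermediate_value_Icc hs.1 (hf.mono hsub) ⟨ha.le, hcon⟩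
  have := hmin ⟨hsub hx, hx0⟩
  linarith [hx.2, hs.2]

theorem OdeB_last {f : ℝ → ℝ} {a c : ℝ} (hac : a ≤ c) (hf : ContinuousOn f (Icc a c))
    (ha : 0 ≤ f a) (hc : f c < 0) : ∃ b ∈ Icc a c, f b = 0 ∧ ∀ s ∈ Ioc b c, f s < 0 := by
  have hcl : IsClosed (Icc a c ∩ f ⁻¹' {0}) :=
    hf.preimage_isClosed_of_isClosed isClosed_Icc isClosed_singleton
  have hco : IsCompact (Icc a c ∩ f ⁻¹' {0}) :=
    isCompact_Icc.of_isClosed_subset hcl inter_subset_left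
  have hne : (Icc a c ∩ f ⁻¹' {0}).Nonempty := by
    obtain ⟨x, hx, hx0⟩ := intermediate_value_Icc' hac hf ⟨hc.le, ha⟩
    exact ⟨x, hx, hx0⟩
  obtain ⟨b, hb, hmax⟩ := hco.exists_isGreatest hne
  refine ⟨b, hb.1, hb.2, fun s hs => ?_⟩
  by_contra hcon
  push Not at hcon
  have hsub : Icc s c ⊆ Icc a c := Icc_subset_Icc_left (hb.1.1.trans hs.1.le)
  obtain ⟨x, hx, hx0⟩ := intermediate_value_Icc' hs.2 (hf.mono hsub) ⟨hc.le, hcon⟩
  have := hmax ⟨hsub hx, hx0⟩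
  linarith [hx.1, hs.1]

variable {T l m : ℝ} {Y₁ Z₁ Y₂ Z₂ : ℝ → ℝ}

/-- The Wronskian. -/
def OdeB_W (Y₁ Z₁ Y₂ Z₂ : ℝ → ℝ) (t : ℝ) : ℝ := Z₂ t * Y₁ t - Z₁ t * Y₂ t

/-- The quotient. -/
def OdeB_q (Y₁ Y₂ : ℝ → ℝ) (t : ℝ) : ℝ := Y₂ t / Y₁ t

/-- The comparison function. -/
def OdeB_X (l m : ℝ) (Y₁ Z₁ Y₂ Z₂ : ℝ → ℝ) (t : ℝ) : ℝ :=
  OdeB_q Y₁ Y₂ t ^ 2 * JJ l m Y₁ Z₁ t - JJ l m Y₂ Z₂ t

theorem OdeB_dW (h₁ : EF T l m Y₁ Z₁) (h₂ : EF T l m Y₂ Z₂) {t : ℝ} (ht : t < T) :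
    HasDerivAt (OdeB_W Y₁ Z₁ Y₂ Z₂) (-m * Y₁ t * Y₂ t * (Y₂ t ^ 2 - Y₁ t ^ 2)) t := by
  have := ((h₂.d2 t ht).mul (h₁.d1 t ht)).sub ((h₁.d2 t ht).mul (h₂.d1 t ht))
  refine HasDerivAt.congr_deriv this ?_
  ring

theorem OdeB_dq (h₁ : EF T l m Y₁ Z₁) (h₂ : EF T l m Y₂ Z₂) {t : ℝ} (ht : t < T) :
    HasDerivAt (OdeB_q Y₁ Y₂) (OdeB_W Y₁ Z₁ Y₂ Z₂ t / Y₁ t ^ 2) t := by
  have := (h₂.d1 t ht).div (h₁.d1 t ht) (h₁.pos t ht).ne'
  refine HasDerivAt.congr_deriv this ?_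
  unfold OdeB_W
  ring

theorem OdeB_dX (h₁ : EF T l m Y₁ Z₁) (h₂ : EF T l m Y₂ Z₂) {t : ℝ} (ht : t < T) :
    HasDerivAt (OdeB_X l m Y₁ Z₁ Y₂ Z₂)
      (2 * OdeB_q Y₁ Y₂ t * (OdeB_W Y₁ Z₁ Y₂ Z₂ t / Y₁ t ^ 2) * JJ l m Y₁ Z₁ t) t := by
  have := (((OdeB_dq h₁ h₂ ht).pow 2).mul (h₁.hasDerivAt_J ht)).sub (h₂.hasDerivAt_J ht)
  refine HasDerivAt.congr_deriv this ?_
  have h0 := (h₁.pos t ht).ne'
  simp only [Pi.pow_apply, OdeB_q, Nat.cast_ofNat, Nat.add_one_sub_one, pow_one]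
  field_simp
  ring

theorem OdeB_X_zero (h₁ : EF T l m Y₁ Z₁) {t : ℝ} (ht : t < T)
    (hW : OdeB_W Y₁ Z₁ Y₂ Z₂ t = 0) :
    OdeB_X l m Y₁ Z₁ Y₂ Z₂ t = m * Y₂ t ^ 2 * (Y₁ t ^ 2 - Y₂ t ^ 2) / 4 := by
  have h0 := (h₁.pos t ht).ne'
  have hZ : Z₂ t = Z₁ t * Y₂ t / Y₁ t := by
    unfold OdeB_W at hW
    field_simp
    linarith
  unfold OdeB_X OdeB_q JJ
  rw [hZ]
  field_simp
  ring

theorem OdeB_dX_neg (h₁ : EF T l m Y₁ Z₁) (h₂ : EF T l m Y₂ Z₂) (hl : l < 0) (hm : 0 < m)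
    {t : ℝ} (ht : t < T) (hW : OdeB_W Y₁ Z₁ Y₂ Z₂ t < 0) :
    2 * OdeB_q Y₁ Y₂ t * (OdeB_W Y₁ Z₁ Y₂ Z₂ t / Y₁ t ^ 2) * JJ l m Y₁ Z₁ t < 0 := by
  have h1 := h₁.pos t ht
  have h2 := h₂.pos t ht
  have hq : 0 < OdeB_q Y₁ Y₂ t := div_pos h2 h1
  have hJ := h₁.J_pos hl hm ht
  have hd : OdeB_W Y₁ Z₁ Y₂ Z₂ t / Y₁ t ^ 2 < 0 := div_neg_of_neg_of_pos hW (by positivity)
  exact mul_neg_of_neg_of_pos (mul_neg_of_pos_of_neg (by positivity) hd) hJ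

theorem OdeB_J_top {Y Z : ℝ → ℝ} (h : EF T l m Y Z) {a : ℝ}
    (ha : Tendsto Z (𝓝[<] T) (𝓝 (-a))) :
    Tendsto (JJ l m Y Z) (𝓝[<] T) (𝓝 (a ^ 2 / 2)) := by
  have hE : Tendsto (fun t : ℝ => Real.exp t) (𝓝[<] T) (𝓝 (Real.exp T)) :=
    (Real.continuous_exp.tendsto T).mono_left nhdsWithin_le_nhds
  have hY := h.bdry
  have := ((((ha.pow 2).div_const 2).sub ((hY.pow 2).div_const 2)).sub
    ((((hE.pow 2).const_mul l).mul (hY.pow 2)).div_const 2)).add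
    (((hY.pow 4).const_mul m).div_const 4)
  convert this using 2
  · rfl
  · ring

theorem OdeB_X_top (h₁ : EF T l m Y₁ Z₁) (h₂ : EF T l m Y₂ Z₂) (hl : l < 0) (hm : 0 < m) :
    Tendsto (OdeB_X l m Y₁ Z₁ Y₂ Z₂) (𝓝[<] T) (𝓝 0) := by
  obtain ⟨a₁, ha₁, hZ₁⟩ := h₁.tendsto_Z hl hm
  obtain ⟨a₂, ha₂, hZ₂⟩ := h₂.tendsto_Z hl hm
  have hev : ∀ᶠ t in 𝓝[<] T, t < T := self_mem_nhdsWithin
  have hne : ∀ᶠ t in 𝓝[<] T, Z₁ t ≠ 0 := hZ₁.eventually_ne (by linarith)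
  have hq : Tendsto (fun t => Y₂ t / Y₁ t) (𝓝[<] T) (𝓝 (-a₂ / -a₁)) :=
    HasDerivAt.lhopital_zero_nhdsLT (hev.mono fun t ht => h₂.d1 t ht)
      (hev.mono fun t ht => h₁.d1 t ht) hne h₂.bdry h₁.bdry (hZ₂.div hZ₁ (by linarith))
  have := ((hq.pow 2).mul (OdeB_J_top h₁ hZ₁)).sub (OdeB_J_top h₂ hZ₂)
  convert this using 2
  · rfl
  · field_simp
    ring

theorem OdeB_X_bot (h₁ : EF T l m Y₁ Z₁) (h₂ : EF T l m Y₂ Z₂) (hl : l < 0) (hm : 0 < m) :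
    Tendsto (OdeB_X l m Y₁ Z₁ Y₂ Z₂) atBot (𝓝 0) := by
  have hE : Tendsto (fun t : ℝ => Real.exp t) atBot (𝓝 0) := Real.tendsto_exp_atBot
  have hU : Tendsto (fun t => -l * Real.exp t ^ 2 * Y₂ t ^ 2 / 2) atBot (𝓝 0) := by
    have := (((hE.pow 2).const_mul (-l)).mul ((h₂.tendsto_Y hl hm).pow 2)).div_const 2
    simpa using this
  have hA : Tendsto (fun t => OdeB_q Y₁ Y₂ t ^ 2 * JJ l m Y₁ Z₁ t) atBot (𝓝 0) := by
    refine tendsto_of_tendsto_of_tendsto_of_le_of_le' tendsto_const_nhds hU ?_ ?_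
    · filter_upwards [eventually_lt_atBot T] with t ht
      exact mul_nonneg (sq_nonneg _) (h₁.J_pos hl hm ht).le
    · filter_upwards [eventually_lt_atBot T, h₁.J_le hl hm] with t ht hJ
      have h0 := (h₁.pos t ht).ne'
      calc OdeB_q Y₁ Y₂ t ^ 2 * JJ l m Y₁ Z₁ t
          ≤ OdeB_q Y₁ Y₂ t ^ 2 * (-l * Real.exp t ^ 2 * Y₁ t ^ 2 / 2) :=
            mul_le_mul_of_nonneg_left hJ (sq_nonneg _)
        _ = -l * Real.exp t ^ 2 * Y₂ t ^ 2 / 2 := by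
            unfold OdeB_q
            field_simp
  have := hA.sub (h₂.tendsto_J hl hm)
  rw [sub_zero] at this
  exact this

theorem OdeB_right (h₁ : EF T l m Y₁ Z₁) (h₂ : EF T l m Y₂ Z₂) (hl : l < 0) (hm : 0 < m)
    {t : ℝ} (ht : t < T) (hW : OdeB_W Y₁ Z₁ Y₂ Z₂ t < 0) : 0 < OdeB_X l m Y₁ Z₁ Y₂ Z₂ t := by
  by_cases hA : ∀ s, t ≤ s → s < T → OdeB_W Y₁ Z₁ Y₂ Z₂ s < 0
  · have h1 : t < (t + T) / 2 := by linarith
    have h2 : (t + T) / 2 < T := by linarith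
    have h3 : OdeB_X l m Y₁ Z₁ Y₂ Z₂ ((t + T) / 2) < OdeB_X l m Y₁ Z₁ Y₂ Z₂ t :=
      OdeB_santi h1 (fun s hs => OdeB_dX h₁ h₂ (hs.2.trans_lt h2))
        (fun s hs => OdeB_dX_neg h₁ h₂ hl hm (hs.2.trans h2) (hA s hs.1.le (hs.2.trans h2)))
    have h4 : 0 ≤ OdeB_X l m Y₁ Z₁ Y₂ Z₂ ((t + T) / 2) := by
      refine le_of_tendsto (OdeB_X_top h₁ h₂ hl hm) ?_
      filter_upwards [Ioo_mem_nhdsLT h2] with u hu
      exact OdeB_anti hu.1.le (fun s hs => OdeB_dX h₁ h₂ (hs.2.trans_lt hu.2))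
        (fun s hs => (OdeB_dX_neg h₁ h₂ hl hm (hs.2.trans hu.2)
          (hA s (h1.trans hs.1).le (hs.2.trans hu.2))).le)
    linarith
  · push Not at hA
    obtain ⟨c, htc, hcT, hc⟩ := hA
    have hcont : ContinuousOn (OdeB_W Y₁ Z₁ Y₂ Z₂) (Icc t c) := fun s hs =>
      (OdeB_dW h₁ h₂ (hs.2.trans_lt hcT)).continuousAt.continuousWithinAt
    obtain ⟨b, hb, hb0, hbn⟩ := OdeB_first htc hcont hW hc
    have hbT : b < T := hb.2.trans_lt hcT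
    have hq : OdeB_q Y₁ Y₂ b < 1 := by
      by_contra hcon
      push Not at hcon
      have : OdeB_W Y₁ Z₁ Y₂ Z₂ b ≤ OdeB_W Y₁ Z₁ Y₂ Z₂ t := by
        refine OdeB_anti hb.1 (fun s hs => OdeB_dW h₁ h₂ (hs.2.trans_lt hbT)) (fun s hs => ?_)
        have hsT : s < T := hs.2.trans hbT
        have hqs : OdeB_q Y₁ Y₂ b ≤ OdeB_q Y₁ Y₂ s :=
          OdeB_anti hs.2.le (fun u hu => OdeB_dq h₁ h₂ (hu.2.trans_lt hbT))
            (fun u hu => div_nonpos_of_nonpos_of_nonneg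
              (hbn u ⟨(hs.1.trans hu.1).le, hu.2⟩).le (sq_nonneg _))
        have h1 := h₁.pos s hsT
        have h2 := h₂.pos s hsT
        have h3 : Y₁ s ≤ Y₂ s := (one_le_div h1).1 (hcon.trans hqs)
        have h4 : 0 ≤ Y₂ s ^ 2 - Y₁ s ^ 2 := by nlinarith
        have h5 : 0 ≤ m * Y₁ s * Y₂ s * (Y₂ s ^ 2 - Y₁ s ^ 2) := by positivity
        linarith
      linarith
    have h1 := h₁.pos b hbT
    have h2 := h₂.pos b hbT
    have h3 : Y₂ b < Y₁ b := (div_lt_one h1).1 hq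
    have h4 : 0 < Y₁ b ^ 2 - Y₂ b ^ 2 := by nlinarith
    have h5 : 0 < OdeB_X l m Y₁ Z₁ Y₂ Z₂ b := by
      rw [OdeB_X_zero h₁ hbT hb0]
      positivity
    have h6 : OdeB_X l m Y₁ Z₁ Y₂ Z₂ b ≤ OdeB_X l m Y₁ Z₁ Y₂ Z₂ t :=
      OdeB_anti hb.1 (fun s hs => OdeB_dX h₁ h₂ (hs.2.trans_lt hbT))
        (fun s hs => (OdeB_dX_neg h₁ h₂ hl hm (hs.2.trans hbT) (hbn s ⟨hs.1.le, hs.2⟩)).le)
    linarith

theorem OdeB_left (h₁ : EF T l m Y₁ Z₁) (h₂ : EF T l m Y₂ Z₂) (hl : l < 0) (hm : 0 < m)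
    {t : ℝ} (ht : t < T) (hW : OdeB_W Y₁ Z₁ Y₂ Z₂ t < 0) : OdeB_X l m Y₁ Z₁ Y₂ Z₂ t ≤ 0 := by
  by_cases hA : ∀ s, s ≤ t → OdeB_W Y₁ Z₁ Y₂ Z₂ s < 0
  · refine ge_of_tendsto (OdeB_X_bot h₁ h₂ hl hm) ?_
    filter_upwards [eventually_le_atBot t] with u hu
    exact OdeB_anti hu (fun s hs => OdeB_dX h₁ h₂ (hs.2.trans_lt ht))
      (fun s hs => (OdeB_dX_neg h₁ h₂ hl hm (hs.2.trans ht) (hA s hs.2.le)).le)
  · push Not at hA
    obtain ⟨c, hct, hc⟩ := hA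
    have hcont : ContinuousOn (OdeB_W Y₁ Z₁ Y₂ Z₂) (Icc c t) := fun s hs =>
      (OdeB_dW h₁ h₂ (hs.2.trans_lt ht)).continuousAt.continuousWithinAt
    obtain ⟨b, hb, hb0, hbn⟩ := OdeB_last hct hcont hc hW
    have hbT : b < T := hb.2.trans_lt ht
    have hq : 1 < OdeB_q Y₁ Y₂ b := by
      by_contra hcon
      push Not at hcon
      have : OdeB_W Y₁ Z₁ Y₂ Z₂ b ≤ OdeB_W Y₁ Z₁ Y₂ Z₂ t := by
        refine OdeB_mono hb.2 (fun s hs => OdeB_dW h₁ h₂ (hs.2.trans_lt ht)) (fun s hs => ?_)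
        have hsT : s < T := hs.2.trans ht
        have hqs : OdeB_q Y₁ Y₂ s ≤ OdeB_q Y₁ Y₂ b :=
          OdeB_anti hs.1.le (fun u hu => OdeB_dq h₁ h₂ (hu.2.trans_lt hsT))
            (fun u hu => div_nonpos_of_nonpos_of_nonneg
              (hbn u ⟨hu.1, (hu.2.trans hs.2).le⟩).le (sq_nonneg _))
        have h1 := h₁.pos s hsT
        have h2 := h₂.pos s hsT
        have h3 : Y₂ s ≤ Y₁ s := (div_le_one h1).1 (hqs.trans hcon)
        have h4 : 0 ≤ Y₁ s ^ 2 - Y₂ s ^ 2 := by nlinarith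
        have h5 : 0 ≤ m * Y₁ s * Y₂ s * (Y₁ s ^ 2 - Y₂ s ^ 2) := by positivity
        linarith
      linarith
    have h1 := h₁.pos b hbT
    have h2 := h₂.pos b hbT
    have h3 : Y₁ b < Y₂ b := (one_lt_div h1).1 hq
    have h4 : 0 < Y₂ b ^ 2 - Y₁ b ^ 2 := by nlinarith
    have h5 : OdeB_X l m Y₁ Z₁ Y₂ Z₂ b ≤ 0 := by
      rw [OdeB_X_zero h₁ hbT hb0]
      have : 0 ≤ m * Y₂ b ^ 2 * (Y₂ b ^ 2 - Y₁ b ^ 2) := by positivity
      linarith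
    have h6 : OdeB_X l m Y₁ Z₁ Y₂ Z₂ t ≤ OdeB_X l m Y₁ Z₁ Y₂ Z₂ b :=
      OdeB_anti hb.2 (fun s hs => OdeB_dX h₁ h₂ (hs.2.trans_lt ht))
        (fun s hs => (OdeB_dX_neg h₁ h₂ hl hm (hs.2.trans ht) (hbn s ⟨hs.1, hs.2.le⟩)).le)
    linarith

theorem EF_W_nonneg (h₁ : EF T l m Y₁ Z₁) (h₂ : EF T l m Y₂ Z₂) (hl : l < 0) (hm : 0 < m)
    {t : ℝ} (ht : t < T) : 0 ≤ Z₂ t * Y₁ t - Z₁ t * Y₂ t := by
  by_contra hcon
  push Not at hcon
  have h1 := OdeB_right h₁ h₂ hl hm ht hcon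
  have h2 := OdeB_left h₁ h₂ hl hm ht hcon
  linarith

theorem EF_unique (h₁ : EF T l m Y₁ Z₁) (h₂ : EF T l m Y₂ Z₂) (hl : l < 0) (hm : 0 < m)
    {t : ℝ} (ht : t < T) : Y₁ t = Y₂ t := by
  have h0 : OdeB_W Y₁ Z₁ Y₂ Z₂ =ᶠ[𝓝 t] fun _ => (0 : ℝ) := by
    filter_upwards [Iio_mem_nhds ht] with s hs
    have h1 := EF_W_nonneg h₁ h₂ hl hm hs
    have h2 := EF_W_nonneg h₂ h₁ hl hm hs
    unfold OdeB_W
    linarith
  have hd : HasDerivAt (OdeB_W Y₁ Z₁ Y₂ Z₂) 0 t :=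
    (hasDerivAt_const t (0 : ℝ)).congr_of_eventuallyEq h0
  have hz := (OdeB_dW h₁ h₂ ht).unique hd
  have h1 := h₁.pos t ht
  have h2 := h₂.pos t ht
  have h3 : m * Y₁ t * Y₂ t ≠ 0 := by positivity
  have h4 : Y₂ t ^ 2 - Y₁ t ^ 2 = 0 := by
    have : m * Y₁ t * Y₂ t * (Y₂ t ^ 2 - Y₁ t ^ 2) = 0 := by linarith
    exact (mul_eq_zero.1 this).resolve_left h3
  have h5 : Y₁ t ^ 2 = Y₂ t ^ 2 := by linarith
  exact (pow_left_inj₀ h1.le h2.le two_ne_zero).1 h5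

end CritSys
end
end
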