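import Pool.Agent.Work.MP_80ee1d_an.Refl

/-!
A non-negative function fixed by all polarizations is radially non-increasing.

PLAN. `a` is locally integrable; let `Z` be the set of points `x` where the averages over
`closedBall x r` tend to `a x` as `r → 0+` (`IsUnifLocDoublingMeasure.ae_tendsto_average`, or
`Besicovitch.ae_tendsto_rnDeriv`/`VitaliFamily.ae_tendsto_average`) and `0 ≤ a x`; it has full
measure.  For `‖x‖ < ‖y‖` take `e = (y - x)/‖y - x‖`, `τ = (‖y‖² - ‖x‖²) / (2 ‖y - x‖) > 0`; then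
`σ x = y`, `closedBall x r` lies in the half-space for `2 r < ‖y - x‖`, and there `a ∘ σ ≤ a` a.e., so
`∫_{closedBall y r} a = ∫_{closedBall x r} a ∘ σ ≤ ∫_{closedBall x r} a` (`σ_mp`, `dist_σ`), the
two balls have the same volume.  Hence `a y ≤ a x` for `x, y ∈ Z`, `‖x‖ < ‖y‖`.  Put
`f s = sInf {a x | x ∈ Z, ‖x‖ < s}` for `s > 0` (non-empty, bounded below by `0`), antitone on
`Ioi 0`.  For `y ∈ Z`, `y ≠ 0`: `f s ≤ a y ≤ f ‖y‖` for all `s > ‖y‖`.  An antitone function has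
countably many discontinuities (`AntitoneOn.countable_not_continuousWithinAt`, or compose with
`Real.exp` and use `Antitone.countable_not_continuousAt`), and spheres are null
(`Measure.addHaar_sphere`).
-/

open MeasureTheory Filter Topology Metric
open scoped RealInnerProductSpace ENNReal

noncomputable section
namespace CritSys

theorem Radial_hs {x y : E4} (hxy : ‖x‖ < ‖y‖) :
    ∃ h : Hs, h.σ x = y ∧ ⟪x, h.e⟫ < h.τ := by
  have hne : y - x ≠ 0 := by
    intro e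
    rw [sub_eq_zero] at e
    rw [e] at hxy
    exact lt_irrefl _ hxy
  have hd : 0 < ‖y - x‖ := norm_pos_iff.2 hne
  have hsq : ‖y - x‖ ^ 2 = ‖y‖ ^ 2 - 2 * ⟪y, x⟫ + ‖x‖ ^ 2 := norm_sub_sq_real y x
  have hpos : 0 < ‖y‖ ^ 2 - ‖x‖ ^ 2 := by nlinarith [norm_nonneg x]
  have hin : ⟪x, ‖y - x‖⁻¹ • (y - x)⟫ - (‖y‖ ^ 2 - ‖x‖ ^ 2) / (2 * ‖y - x‖) = -(‖y - x‖ / 2) := by
    rw [real_inner_smul_right, inner_sub_right, real_inner_self_eq_norm_sq, real_inner_comm]
    field_simp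
    linarith
  refine ⟨⟨‖y - x‖⁻¹ • (y - x), (‖y‖ ^ 2 - ‖x‖ ^ 2) / (2 * ‖y - x‖), ?_, by positivity⟩, ?_, ?_⟩
  · rw [norm_smul, norm_inv, norm_norm, inv_mul_cancel₀ hd.ne']
  · simp only [Hs.σ]
    rw [hin, smul_smul]
    have : 2 * -(‖y - x‖ / 2) * ‖y - x‖⁻¹ = -1 := by field_simp
    rw [this]
    module
  · simp only
    linarith

theorem Radial_le {a : L4 (volume : Measure E4)} {h : Hs} (hh : h.polL a = a) :
    ∀ᵐ z : E4, ⟪z, h.e⟫ < h.τ → a (h.σ z) ≤ a z := by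
  filter_upwards [h.polL_ae a] with z e hz
  rw [hh, Hs.pol, if_pos hz] at e
  rw [e]
  exact le_max_right _ _

theorem Radial_avg {a : L4 (volume : Measure E4)} {h : Hs} (hh : h.polL a = a) {x : E4}
    (hx : ⟪x, h.e⟫ < h.τ) :
    ∀ᶠ r in 𝓝[>] (0 : ℝ), ⨍ z in closedBall (h.σ x) r, a z ≤ ⨍ z in closedBall x r, a z := by
  have hloc : LocallyIntegrable a volume := (Lp.memLp a).locallyIntegrable (by norm_num)
  have hloc' : LocallyIntegrable (fun z => a (h.σ z)) volume :=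
    ((Lp.memLp a).comp_measurePreserving h.σ_mp).locallyIntegrable (by norm_num)
  have hopen : IsOpen {z : E4 | ⟪z, h.e⟫ < h.τ} := isOpen_lt (by fun_prop) continuous_const
  have hev : ∀ᶠ r in 𝓝 (0 : ℝ), closedBall x r ⊆ {z : E4 | ⟪z, h.e⟫ < h.τ} :=
    eventually_closedBall_subset (hopen.mem_nhds hx)
  filter_upwards [nhdsWithin_le_nhds hev] with r hr
  have hpre : h.σ ⁻¹' closedBall (h.σ x) r = closedBall x r := by
    ext z
    simp only [Set.mem_preimage, mem_closedBall, h.dist_σ]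
  have e1 : ∫ z in closedBall (h.σ x) r, a z = ∫ z in closedBall x r, a (h.σ z) := by
    rw [← hpre]
    exact (h.σ_mp.setIntegral_preimage_emb h.σ_emb _ _).symm
  have e2 : ∫ z in closedBall x r, a (h.σ z) ≤ ∫ z in closedBall x r, a z := by
    refine setIntegral_mono_on_ae (hloc'.integrableOn_isCompact (isCompact_closedBall x r))
      (hloc.integrableOn_isCompact (isCompact_closedBall x r)) measurableSet_closedBall ?_
    filter_upwards [Radial_le hh] with z hz hzr using hz (hr hzr)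
  rw [setAverage_eq, setAverage_eq, Measure.addHaar_real_closedBall_center volume (h.σ x),
    Measure.addHaar_real_closedBall_center volume x, e1, smul_eq_mul, smul_eq_mul]
  exact mul_le_mul_of_nonneg_left e2 (inv_nonneg.2 measureReal_nonneg)

theorem radial_of_pol {a : L4 (volume : Measure E4)} (ha : 0 ≤ a) (h : ∀ h : Hs, h.polL a = a) :
    ∃ f : ℝ → ℝ, AntitoneOn f (Set.Ioi 0) ∧ (∀ s, 0 ≤ f s) ∧ ∀ᵐ x : E4, a x = f ‖x‖ := by
  have hloc : LocallyIntegrable a volume := (Lp.memLp a).locallyIntegrable (by norm_num)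
  set Z : Set E4 := {x | 0 ≤ a x ∧
    Tendsto (fun r : ℝ => ⨍ z in closedBall x r, a z) (𝓝[>] 0) (𝓝 (a x))} with hZ
  have hZae : ∀ᵐ x : E4, x ∈ Z := by
    filter_upwards [(Lp.coeFn_nonneg a).2 ha,
      IsUnifLocDoublingMeasure.ae_tendsto_average (μ := (volume : Measure E4)) hloc 1] with x h0 h1
    refine ⟨h0, h1 (fun _ => x) id tendsto_id ?_⟩
    filter_upwards [self_mem_nhdsWithin] with r hr
    exact mem_closedBall_self (by simpa using le_of_lt hr)
  have hmono : ∀ x ∈ Z, ∀ y ∈ Z, ‖x‖ < ‖y‖ → a y ≤ a x := by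
    intro x hx y hy hxy
    obtain ⟨k, rfl, hk⟩ := Radial_hs hxy
    exact le_of_tendsto_of_tendsto hy.2 hx.2 (Radial_avg (h k) hk)
  have hne : ∀ s : ℝ, 0 < s → ∃ x ∈ Z, ‖x‖ < s := by
    intro s hs
    by_contra hc
    push Not at hc
    refine (measure_ball_pos (volume : Measure E4) 0 hs).ne' (measure_mono_null ?_ (ae_iff.1 hZae))
    intro x hx hxZ
    exact (hc x hxZ).not_gt (by simpa using hx)
  set S : ℝ → Set ℝ := fun s => {t | ∃ x ∈ Z, ‖x‖ < s ∧ a x = t} with hS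
  have hS0 : ∀ s, ∀ t ∈ S s, 0 ≤ t := by
    rintro s t ⟨x, hx, -, rfl⟩
    exact hx.1
  have hSb : ∀ s, BddBelow (S s) := fun s => ⟨0, hS0 s⟩
  have hSn : ∀ s, 0 < s → (S s).Nonempty := fun s hs => by
    obtain ⟨x, hx, hxs⟩ := hne s hs
    exact ⟨a x, x, hx, hxs, rfl⟩
  have hanti : AntitoneOn (fun s => sInf (S s)) (Set.Ioi 0) := by
    intro s hs t _ hst
    refine csInf_le_csInf (hSb t) (hSn s hs) ?_
    rintro u ⟨x, hx, hxs, rfl⟩
    exact ⟨x, hx, hxs.trans_le hst, rfl⟩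
  refine ⟨fun s => sInf (S s), hanti, fun s => Real.sInf_nonneg (hS0 s), ?_⟩
  have hc := hanti.countable_not_continuousWithinAt
  have hc' : ∀ᵐ x : E4, ∀ s ∈ {s ∈ Set.Ioi (0 : ℝ) |
      ¬ContinuousWithinAt (fun s => sInf (S s)) (Set.Ioi 0) s}, x ∉ sphere (0 : E4) s :=
    (ae_ball_iff hc).2 fun s _ => measure_eq_zero_iff_ae_notMem.1 (Measure.addHaar_sphere _ _ _)
  have hz : ∀ᵐ x : E4, x ∉ sphere (0 : E4) 0 :=
    measure_eq_zero_iff_ae_notMem.1 (Measure.addHaar_sphere _ _ _)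
  filter_upwards [hZae, hc', hz] with y hy hyc hy0
  have hpos : 0 < ‖y‖ := by
    refine lt_of_le_of_ne (norm_nonneg y) fun e => hy0 ?_
    simp only [mem_sphere_iff_norm, sub_zero]
    exact e.symm
  have hcont : ContinuousWithinAt (fun s => sInf (S s)) (Set.Ioi 0) ‖y‖ := by
    by_contra hn
    exact hyc ‖y‖ ⟨hpos, hn⟩ (by simp)
  refine le_antisymm (le_csInf (hSn _ hpos) ?_) ?_
  · rintro u ⟨x, hx, hxs, rfl⟩
    exact hmono x hx y hy hxs
  · have ht : Tendsto (fun s => sInf (S s)) (𝓝[>] ‖y‖) (𝓝 (sInf (S ‖y‖))) :=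
      hcont.tendsto.mono_left (nhdsWithin_mono _ (Set.Ioi_subset_Ioi hpos.le))
    refine le_of_tendsto ht ?_
    filter_upwards [self_mem_nhdsWithin] with s hs
    exact csInf_le (hSb s) ⟨y, hy, hs, rfl⟩

end CritSys
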