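import Pool.Agent.Work.MP_80ee1d_an.Space

/-!
Reflections in hyperplanes that miss the origin, and the polarization of functions.

PLAN. `σ x = L x + (2 τ) • e` with the linear isometry `L x = x - (2 ⟪x, e⟫) • e` (for instance
`Submodule.reflection (ℝ ∙ e)ᗮ`, or a hand-made `LinearIsometryEquiv`);
`LinearIsometryEquiv.measurePreserving` and `measurePreserving_add_right`.  `ae_ne`: the hyperplane is
a proper affine subspace (`Measure.addHaar_affineSubspace`, or a translate of the submodule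
`(ℝ ∙ e)ᗮ`, `Measure.addHaar_submodule`).  `norm_gradient_σ`: `fderiv (f ∘ σ) x = fderiv f (σ x) ∘ L`
and `L` is an isometric bijection (`ContinuousLinearMap.opNorm_comp_linearIsometryEquiv`).
Off the hyperplane the pair `(pol f x, pol f (σ x))` is a permutation of `(f x, f (σ x))`, so
`Φ (pol f x) + Φ (pol f (σ x)) = Φ (f x) + Φ (f (σ x))`; integrate and use
`MeasurePreserving.integral_comp` (`2 ∫ Φ ∘ pol f = 2 ∫ Φ ∘ f`).  For `T4_pol`: for non-negative reals
`a² b² + a'² b'² ≤ max(a,a')² max(b,b')² + min(a,a')² min(b,b')²`.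
`|pol f x - pol g x| ≤ |f x - g x| + |f (σ x) - g (σ x)|` gives `norm_polL_sub`.
-/

open MeasureTheory Filter Topology
open scoped ContDiff RealInnerProductSpace ENNReal

noncomputable section
namespace CritSys

/-- Open half-spaces `⟪x, e⟫ < τ` containing the origin. -/
structure Hs : Type where
  e : E4
  τ : ℝ
  he : ‖e‖ = 1
  hτ : 0 < τ

namespace Hs

variable (h : Hs)

/-- The reflection in the boundary hyperplane. -/
def σ (x : E4) : E4 := x - (2 * (⟪x, h.e⟫ - h.τ)) • h.e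

/-- The polarization of a function. -/
def pol (f : E4 → ℝ) (x : E4) : ℝ :=
  if ⟪x, h.e⟫ < h.τ then max (f x) (f (h.σ x)) else min (f x) (f (h.σ x))

theorem Refl_ee : ⟪h.e, h.e⟫ = 1 := by
  rw [real_inner_self_eq_norm_sq, h.he, one_pow]

theorem Refl_inner (x : E4) : ⟪h.σ x, h.e⟫ = 2 * h.τ - ⟪x, h.e⟫ := by
  rw [σ, inner_sub_left, real_inner_smul_left, h.Refl_ee]
  ring

theorem Refl_lin : ∃ L : E4 ≃ₗᵢ[ℝ] E4, ∀ x, h.σ x = L x + (2 * h.τ) • h.e := by
  refine ⟨(ℝ ∙ h.e)ᗮ.reflection, fun x => ?_⟩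
  rw [Submodule.reflection_orthogonal_apply, Submodule.reflection_singleton_apply, h.he, σ,
    real_inner_comm]
  simp only [RCLike.ofReal_real_eq_id, id_eq, one_pow, div_one]
  module

theorem σ_σ (x : E4) : h.σ (h.σ x) = x := by
  rw [σ, h.Refl_inner, σ]
  module

theorem inner_σ (x : E4) : ⟪h.σ x, h.e⟫ = 2 * h.τ - ⟪x, h.e⟫ := by
  exact h.Refl_inner x

theorem norm_σ_sq (x : E4) : ‖h.σ x‖ ^ 2 = ‖x‖ ^ 2 + 4 * h.τ * (h.τ - ⟪x, h.e⟫) := by
  rw [σ, norm_sub_sq_real, real_inner_smul_right, norm_smul, h.he, mul_one, Real.norm_eq_abs,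
    sq_abs]
  ring

theorem σ_fixed {x : E4} (hx : ⟪x, h.e⟫ = h.τ) : h.σ x = x := by
  rw [σ, hx, sub_self, mul_zero, zero_smul, sub_zero]

theorem dist_σ (x y : E4) : dist (h.σ x) (h.σ y) = dist x y := by
  obtain ⟨L, hL⟩ := h.Refl_lin
  rw [hL, hL, dist_add_right, L.dist_map]

theorem σ_contDiff : ContDiff ℝ ∞ h.σ := by
  obtain ⟨L, hL⟩ := h.Refl_lin
  rw [funext hL]
  exact L.contDiff.add contDiff_const

theorem σ_mp : MeasurePreserving h.σ volume volume := by
  obtain ⟨L, hL⟩ := h.Refl_lin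
  rw [funext hL]
  exact (measurePreserving_add_right volume _).comp L.measurePreserving

/-- The reflection as a homeomorphism. -/
def Refl_homeo : E4 ≃ₜ E4 where
  toFun := h.σ
  invFun := h.σ
  left_inv := h.σ_σ
  right_inv := h.σ_σ
  continuous_toFun := h.σ_contDiff.continuous
  continuous_invFun := h.σ_contDiff.continuous

theorem σ_emb : MeasurableEmbedding h.σ := by
  exact h.Refl_homeo.measurableEmbedding

theorem ae_ne : ∀ᵐ x : E4, ⟪x, h.e⟫ ≠ h.τ := by
  have hne : (ℝ ∙ h.e)ᗮ ≠ ⊤ := by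
    intro ht
    have h1 : h.e ∈ (ℝ ∙ h.e)ᗮ := ht ▸ Submodule.mem_top
    have h2 := Submodule.mem_orthogonal_singleton_iff_inner_right.1 h1
    rw [h.Refl_ee] at h2
    exact one_ne_zero h2
  have h0 : ∀ᵐ x : E4, x ∉ ((ℝ ∙ h.e)ᗮ : Submodule ℝ E4) :=
    measure_eq_zero_iff_ae_notMem.1 (Measure.addHaar_submodule volume _ hne)
  filter_upwards [(measurePreserving_sub_right volume (h.τ • h.e)).quasiMeasurePreserving.ae h0]
    with x hx he
  apply hx
  rw [Submodule.mem_orthogonal_singleton_iff_inner_left, inner_sub_left, real_inner_smul_left,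
    h.Refl_ee, he, mul_one, sub_self]

theorem hasCompactSupport_σ {f : E4 → ℝ} (hf : HasCompactSupport f) :
    HasCompactSupport fun x => f (h.σ x) := by
  exact hf.comp_homeomorph h.Refl_homeo

theorem norm_gradient_σ {f : E4 → ℝ} (hf : ContDiff ℝ ∞ f) (x : E4) :
    ‖gradient (fun x => f (h.σ x)) x‖ = ‖gradient f (h.σ x)‖ := by
  obtain ⟨L, hL⟩ := h.Refl_lin
  have h1 : HasFDerivAt h.σ (L.toContinuousLinearEquiv : E4 →L[ℝ] E4) x := by
    rw [funext hL]
    exact L.toContinuousLinearEquiv.hasFDerivAt.add_const _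
  have h2 : HasFDerivAt f (fderiv ℝ f (h.σ x)) (h.σ x) :=
    (hf.differentiable (by simp) _).hasFDerivAt
  have h3 : fderiv ℝ (fun x => f (h.σ x)) x = _ := (h2.comp x h1).fderiv
  rw [norm_gradient, norm_gradient, h3]
  exact ContinuousLinearMap.opNorm_comp_linearIsometryEquiv _ L

theorem Refl_ae {p : E4 → Prop} (hp : ∀ᵐ x, p x) : ∀ᵐ x, p (h.σ x) :=
  h.σ_mp.quasiMeasurePreserving.ae hp

theorem Refl_pair (x : E4) :
    (∀ f : E4 → ℝ, h.pol f x = max (f x) (f (h.σ x)) ∧ h.pol f (h.σ x) = min (f x) (f (h.σ x))) ∨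
    (∀ f : E4 → ℝ, h.pol f x = min (f x) (f (h.σ x)) ∧ h.pol f (h.σ x) = max (f x) (f (h.σ x))) := by
  rcases lt_trichotomy ⟪x, h.e⟫ h.τ with hx | hx | hx
  · refine Or.inl fun f => ⟨if_pos hx, ?_⟩
    rw [pol, if_neg (by rw [h.inner_σ]; linarith), h.σ_σ, min_comm]
  · refine Or.inr fun f => ⟨if_neg hx.not_lt, ?_⟩
    rw [h.σ_fixed hx, pol, if_neg hx.not_lt, h.σ_fixed hx, min_self, max_self]
  · refine Or.inr fun f => ⟨if_neg hx.not_gt, ?_⟩
    rw [pol, if_pos (by rw [h.inner_σ]; linarith), h.σ_σ, max_comm]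

theorem Refl_or (f : E4 → ℝ) (x : E4) : h.pol f x = f x ∨ h.pol f x = f (h.σ x) := by
  unfold pol
  split_ifs
  · exact max_choice _ _
  · exact min_choice _ _

theorem Refl_int {F G : E4 → ℝ} (hF : Integrable F) (hG : Integrable G)
    (hle : ∀ᵐ x, F x + F (h.σ x) ≤ G x + G (h.σ x)) : ∫ x, F x ≤ ∫ x, G x := by
  have hF' : Integrable fun x => F (h.σ x) := h.σ_mp.integrable_comp_of_integrable hF
  have hG' : Integrable fun x => G (h.σ x) := h.σ_mp.integrable_comp_of_integrable hG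
  have h1 := integral_mono_ae (hF.add hF') (hG.add hG') hle
  simp only [Pi.add_apply] at h1
  rw [integral_add hF hF', integral_add hG hG', h.σ_mp.integral_comp h.σ_emb,
    h.σ_mp.integral_comp h.σ_emb] at h1
  linarith

theorem pol_congr {f g : E4 → ℝ} (hfg : ∀ᵐ x, f x = g x) : ∀ᵐ x, h.pol f x = h.pol g x := by
  filter_upwards [hfg, h.Refl_ae hfg] with x h1 h2
  rw [pol, pol, h1, h2]

theorem pol_aesm {f : E4 → ℝ} (hf : AEStronglyMeasurable f volume) :
    AEStronglyMeasurable (h.pol f) volume := by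
  have h1 : AEMeasurable f volume := hf.aemeasurable
  have h2 : AEMeasurable (fun x => f (h.σ x)) volume :=
    h1.comp_quasiMeasurePreserving h.σ_mp.quasiMeasurePreserving
  have hs : MeasurableSet {x : E4 | ⟪x, h.e⟫ < h.τ} :=
    (isOpen_lt (by fun_prop) continuous_const).measurableSet
  have e : h.pol f = fun x => {x : E4 | ⟪x, h.e⟫ < h.τ}.indicator (fun x => max (f x) (f (h.σ x))) x +
      {x : E4 | ⟪x, h.e⟫ < h.τ}ᶜ.indicator (fun x => min (f x) (f (h.σ x))) x := by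
    funext x
    by_cases hx : ⟪x, h.e⟫ < h.τ <;> simp [pol, hx]
  rw [e]
  exact (((h1.max h2).indicator hs).add ((h1.min h2).indicator hs.compl)).aestronglyMeasurable

theorem pol_memLp {f : E4 → ℝ} (hf : MemLp f 4 volume) : MemLp (h.pol f) 4 volume := by
  have h2 : MemLp (fun x => f (h.σ x)) 4 volume := hf.comp_measurePreserving h.σ_mp
  refine (hf.norm.add h2.norm).mono' (h.pol_aesm hf.1) (Eventually.of_forall fun x => ?_)
  rcases h.Refl_or f x with e | e <;> rw [e, Pi.add_apply]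
  · exact le_add_of_nonneg_right (norm_nonneg _)
  · exact le_add_of_nonneg_left (norm_nonneg _)

/-- Polarization on `L⁴`. -/
def polL (a : L4 (volume : Measure E4)) : L4 (volume : Measure E4) :=
  (h.pol_memLp (Lp.memLp a)).toLp _

theorem polL_ae (a : L4 (volume : Measure E4)) : ∀ᵐ x, h.polL a x = h.pol a x :=
  MemLp.coeFn_toLp _

theorem polL_nonneg {a : L4 (volume : Measure E4)} (ha : 0 ≤ a) : 0 ≤ h.polL a := by
  have h0 := (Lp.coeFn_nonneg a).2 ha
  rw [← Lp.coeFn_nonneg]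
  filter_upwards [h.polL_ae a, h0, h.Refl_ae h0] with x e h1 h2
  rw [e]
  rcases h.Refl_or a x with e | e <;> rw [e]
  · exact h1
  · exact h2

theorem norm_polL_sub (a b : L4 (volume : Measure E4)) :
    ‖h.polL a - h.polL b‖ ≤ 2 * ‖a - b‖ := by
  have hn := Lp.norm_compMeasurePreserving (a - b) h.σ_mp
  have h1 : ‖h.polL a - h.polL b‖ ≤
      ‖|a - b| + |Lp.compMeasurePreserving h.σ h.σ_mp (a - b)|‖ := by
    refine Lp.norm_le_norm_of_ae_le ?_
    filter_upwards [Lp.coeFn_sub (h.polL a) (h.polL b), h.polL_ae a, h.polL_ae b,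
      Lp.coeFn_add |a - b| |Lp.compMeasurePreserving h.σ h.σ_mp (a - b)|, Lp.coeFn_abs (a - b),
      Lp.coeFn_abs (Lp.compMeasurePreserving h.σ h.σ_mp (a - b)),
      Lp.coeFn_compMeasurePreserving (a - b) h.σ_mp, Lp.coeFn_sub a b,
      h.Refl_ae (Lp.coeFn_sub a b)] with x e1 e2 e3 e4 e5 e6 e7 e8 e9
    rw [e1, e4, Pi.sub_apply, Pi.add_apply, e2, e3, e5, e6, e7, Function.comp_apply, e8, e9,
      Pi.sub_apply, Pi.sub_apply, Real.norm_eq_abs, Real.norm_eq_abs]
    refine le_trans ?_ (le_abs_self _)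
    have t : max |a x - b x| |a (h.σ x) - b (h.σ x)| ≤ |a x - b x| + |a (h.σ x) - b (h.σ x)| :=
      max_le_add_of_nonneg (abs_nonneg _) (abs_nonneg _)
    unfold pol
    split_ifs
    · exact (abs_max_sub_max_le_max _ _ _ _).trans t
    · exact (abs_min_sub_min_le_max _ _ _ _).trans t
  refine h1.trans ((norm_add_le _ _).trans ?_)
  rw [norm_abs_eq_norm, norm_abs_eq_norm, hn]
  linarith

theorem integral_pol {Φ : ℝ → ℝ} (hΦ : Continuous Φ) {f : E4 → ℝ}
    (hf : AEStronglyMeasurable f volume) (hi : Integrable fun x => Φ (f x)) :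
    ∫ x, Φ (h.pol f x) = ∫ x, Φ (f x) := by
  have hi' : Integrable fun x => Φ (f (h.σ x)) := h.σ_mp.integrable_comp_of_integrable hi
  have hp : Integrable fun x => Φ (h.pol f x) := by
    refine (hi.norm.add hi'.norm).mono' (hΦ.comp_aestronglyMeasurable (h.pol_aesm hf))
      (Eventually.of_forall fun x => ?_)
    rcases h.Refl_or f x with e | e <;> rw [e, Pi.add_apply]
    · exact le_add_of_nonneg_right (norm_nonneg _)
    · exact le_add_of_nonneg_left (norm_nonneg _)
  have e : ∀ x, Φ (h.pol f x) + Φ (h.pol f (h.σ x)) = Φ (f x) + Φ (f (h.σ x)) := by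
    intro x
    rcases h.Refl_pair x with hx | hx <;> rw [(hx f).1, (hx f).2] <;>
      rcases le_total (f x) (f (h.σ x)) with hle | hle <;> simp [hle, add_comm]
  exact le_antisymm (h.Refl_int hp hi (Eventually.of_forall fun x => (e x).le))
    (h.Refl_int hi hp (Eventually.of_forall fun x => (e x).ge))

theorem Refl_rearr {a a' b b' : ℝ} (ha : 0 ≤ a) (ha' : 0 ≤ a') (hb : 0 ≤ b) (hb' : 0 ≤ b') :
    a * a * b * b + a' * a' * b' * b' ≤ max a a' * max a a' * max b b' * max b b' +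
      min a a' * min a a' * min b b' * min b b' := by
  rcases le_total a a' with h1 | h1 <;> rcases le_total b b' with h2 | h2 <;>
    simp only [h1, h2, max_eq_right, max_eq_left, min_eq_left, min_eq_right]
  · linarith
  · nlinarith [mul_nonneg (sub_nonneg.2 (mul_self_le_mul_self ha h1))
      (sub_nonneg.2 (mul_self_le_mul_self hb' h2))]
  · nlinarith [mul_nonneg (sub_nonneg.2 (mul_self_le_mul_self ha' h1))
      (sub_nonneg.2 (mul_self_le_mul_self hb h2))]
  · linarith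

theorem T4_pol {a b : L4 (volume : Measure E4)} (ha : 0 ≤ a) (hb : 0 ≤ b) :
    T4 a a b b ≤ T4 (h.polL a) (h.polL a) (h.polL b) (h.polL b) := by
  have ha0 := (Lp.coeFn_nonneg a).2 ha
  have hb0 := (Lp.coeFn_nonneg b).2 hb
  refine h.Refl_int (T4_integrable a a b b) (T4_integrable _ _ _ _) ?_
  filter_upwards [ha0, hb0, h.Refl_ae ha0, h.Refl_ae hb0, h.polL_ae a, h.polL_ae b,
    h.Refl_ae (h.polL_ae a), h.Refl_ae (h.polL_ae b)] with x h1 h2 h3 h4 e1 e2 e3 e4
  have key := Refl_rearr h1 h3 h2 h4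
  rw [e1, e2, e3, e4]
  rcases h.Refl_pair x with hx | hx <;> rw [(hx a).1, (hx a).2, (hx b).1, (hx b).2]
  · exact key
  · exact key.trans_eq (add_comm _ _)

theorem polL_zero_outside {a : L4 (volume : Measure E4)} (ha : 0 ≤ a) {ρ : ℝ}
    (h0 : ∀ᵐ x : E4, ρ < ‖x‖ → a x = 0) : ∀ᵐ x : E4, ρ < ‖x‖ → h.polL a x = 0 := by
  have ha0 := (Lp.coeFn_nonneg a).2 ha
  filter_upwards [h0, h.Refl_ae h0, h.Refl_ae ha0, h.polL_ae a] with x h1 h2 h3 e hx
  rw [e, pol, h1 hx]
  split_ifs with hs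
  · have t : ‖x‖ ≤ ‖h.σ x‖ := by
      refine le_of_pow_le_pow_left₀ two_ne_zero (norm_nonneg _) ?_
      rw [h.norm_σ_sq]
      have := mul_pos h.hτ (sub_pos.2 hs)
      linarith
    rw [h2 (hx.trans_le t), max_self]
  · exact min_eq_left h3

end Hs
end CritSys
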