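import Pool.Agent.Work.MP_80ee1d_an.Dich
import Pool.Agent.Work.MP_80ee1d_an.Refl
import Pool.Agent.Work.MP_80ee1d_an.Lim
import Pool.Agent.Work.MP_80ee1d_an.BridgeB
import Mathlib
import Pool.Agent.Work.MP_80ee1d_an.OdeB
import Pool.Agent.Work.MP_80ee1d_an.Radial

-- merged part: Pool.Agent.Work.MP_80ee1d_an.Pol
section
/-!
The lower range when polarizations are available (abstract part).

PLAN. `least_fix`: let `w'` be related to a least `w`; `q l w' ≤ q l w` (`norm_le`, `M_eq`),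
`P w' = P w`, and `least_quot` with `z = w'` gives `(q l w)² ≤ (q l w')²`, so they are equal.  The
function `ε ↦ (q l (w' + ε • ψ))² - q l w * (m * P (w' + ε • ψ))` is `≥ 0` (`least_quot`) and vanishes
at `0`; its derivative vanishes, so `Sol1 l m w'`; `fix` gives `w' = w`.
`semi_fix`: replace `v` by its absolute value (`exists_abs`), take `w'`, `v'` related to `w`, `v`
(non-zero because `P` is preserved).  With `a = q l1 w = m1 P`, `a' = q l1 w' ≤ a`,
`b' = q l2 v' ≤ β R w v ≤ β R'`, `κ = m1 P - β² R'² / (m2 Q) > 0` one has for `s, t ≥ 0`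
`FF a' b' P Q R' s t ≤ a / 4 - κ (s - 1)² / 4 - s (a - a') / 2`, which is at most
`a / 4 - min (κ / 16) ((a - a') / 4)`; `Low` forces `a' = a`.  Then `(1, 0)` is a KKT point of the
data of `(w', v')` with value `a / 4`, `Alt_eqn` gives `Eqn l1 m1 β (√1 • w') (√0 • v')`, i.e.
`Sol1 l1 m1 w'`, and `fix` applies.
`lowerRange_pol`: as `lowerRange`: `→` by `lower_non`; `←` by `alt`, in a semitrivial case
`semi_fix`, `least_fix` and `uniq` show that `w` is the least energy solution, `bh_le`, `R_pos`.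
-/

open MeasureTheory Filter Topology
open scoped RealInnerProductSpace

noncomputable section
namespace CritSys
theorem Pol_alg {m1 m2 β a a' b' P Q R : ℝ} (hQ : 0 < m2 * Q) (ha : a = m1 * P)
    (hd : (β * R) ^ 2 < m1 * P * (m2 * Q)) (hb : b' ≤ β * R) (hlt : a' < a) :
    ∃ c, c < a / 4 ∧ Ub m1 m2 β a' b' P Q R c := by
  set κ := m1 * P - (β * R) ^ 2 / (m2 * Q) with hκ
  have hκ0 : 0 < κ := by rw [hκ, sub_pos, div_lt_iff₀ hQ]; exact hd
  refine ⟨a / 4 - min (κ / 16) ((a - a') / 4), sub_lt_self _ (lt_min (by positivity) (by linarith only [hlt])),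
    fun s t hs ht => ?_⟩
  have k1 : t * (β * R) * (1 - s) / 2 - m2 * Q * t ^ 2 / 4 ≤
      (β * R) ^ 2 / (m2 * Q) * (s - 1) ^ 2 / 4 := by
    rw [div_mul_eq_mul_div, div_div, le_div_iff₀ (by positivity)]
    linarith only [sq_nonneg (m2 * Q * t - β * R * (1 - s)), sq_nonneg (m2 * Q * t - β * R * ((1 : ℝ) - s))]
  have k2 : FF m1 m2 β a' b' P Q R s t ≤ a / 4 - κ * (s - 1) ^ 2 / 4 - s * (a - a') / 2 := by
    unfold FF
    rw [hκ, ha]
    linarith only [k1, hb, ht, mul_le_mul_of_nonneg_left hb ht]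
  refine k2.trans ?_
  rcases le_total s (1 / 2) with h | h
  · have := min_le_left (κ / 16) ((a - a') / 4)
    have e1 : 1 / 4 ≤ (s - 1) ^ 2 := by linarith only [h, mul_nonneg_of_nonpos_of_nonpos (Mathlib.Tactic.Linarith.sub_nonpos_of_le h) (Mathlib.Tactic.Linarith.sub_nonpos_of_le h)]
    linarith only [this, hs, hlt, e1, hκ0, mul_nonneg hs (sub_pos.2 hlt).le, mul_le_mul_of_nonneg_left e1 hκ0.le]
  · have := min_le_right (κ / 16) ((a - a') / 4)
    linarith only [this, hκ0, h, hlt, mul_nonneg hκ0.le (sq_nonneg (s - 1)),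
      mul_le_mul_of_nonneg_right h (sub_pos.2 hlt).le, sq_nonneg (s - (1 : ℝ))]

namespace Ctx

variable {X : Type} [MeasurableSpace X] {H : Type} [NormedAddCommGroup H] [InnerProductSpace ℝ H]
  {μ : Measure X} [IsFiniteMeasure μ]

/-- A family of rearrangements whose common fixed points satisfy uniqueness. -/
structure Polar (C : Ctx H μ) (ι : Type) : Type where
  Rel : ι → H → H → Prop
  ex : ∀ i u, 0 ≤ C.val u → ∃ w, Rel i u w ∧ ‖w‖ ≤ ‖u‖
  M_eq : ∀ i u w, 0 ≤ C.val u → Rel i u w → C.M w w = C.M u u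
  P_eq : ∀ i u w, 0 ≤ C.val u → Rel i u w → C.P w = C.P u
  R_le : ∀ i u w v z, 0 ≤ C.val u → 0 ≤ C.val v → Rel i u w → Rel i v z → C.R u v ≤ C.R w z
  fix : ∀ i l m u w, C.Adm l → 0 < m → C.Sol1 l m u → C.Pos u → Rel i u w → C.Sol1 l m w → w = u
  uniq : ∀ l m u z, C.Adm l → 0 < m → C.Sol1 l m u → C.Pos u → (∀ i, Rel i u u) →
    C.Sol1 l m z → C.Pos z → (∀ i, Rel i z z) → u = z

variable {C : Ctx H μ} {ι : Type} (Pz : C.Polar ι) {l1 l2 m1 m2 β : ℝ}

theorem Polar.q_le {i : ι} {u w : H} (h0 : 0 ≤ C.val u) (hr : Pz.Rel i u w) (hn : ‖w‖ ≤ ‖u‖)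
    (l : ℝ) : C.q l w ≤ C.q l u := by
  unfold q
  rw [Pz.M_eq i u w h0 hr]
  gcongr

theorem Polar.ne_zero {i : ι} {u w : H} (h0 : 0 ≤ C.val u) (hr : Pz.Rel i u w) (hu : u ≠ 0) :
    w ≠ 0 := by
  rintro rfl
  have := Pz.P_eq i u 0 h0 hr
  rw [C.P_zero] at this
  exact (C.P_pos hu).ne this

theorem Polar.least_fix {l m : ℝ} (a : C.Adm l) (hm : 0 < m) {w : H} (hw : C.Least l m w)
    (i : ι) : Pz.Rel i w w := by
  have h0 : 0 ≤ C.val w := PosL.nonneg hw.2.1
  obtain ⟨z, hr, hn⟩ := Pz.ex i w h0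
  have hP := Pz.P_eq i w z h0 hr
  have hq0 := C.q_pos a.1 hw.2.1.ne_zero
  have hq : C.q l z = C.q l w := by
    refine le_antisymm (Pz.q_le h0 hr hn l) (le_of_sq_le_sq ?_ (C.q_nonneg a.1.le z))
    have := C.least_quot a.1 hm hw z
    rwa [hP, ← hw.1.q_eq, ← sq] at this
  have hs : C.Sol1 l m z := by
    intro ψ
    have d := ((C.hasDerivAt_q l z ψ).fun_pow 2).sub
      (((C.hasDerivAt_P z ψ).const_mul m).const_mul (C.q l w))
    have hmin : IsLocalMin
        (fun ε : ℝ => C.q l (z + ε • ψ) ^ 2 - C.q l w * (m * C.P (z + ε • ψ))) 0 := by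
      refine Eventually.of_forall fun ε => ?_
      have := C.least_quot a.1 hm hw (z + ε • ψ)
      simp only [zero_smul, add_zero, hq, hP, ← hw.1.q_eq]
      linarith
    have := hmin.hasDerivAt_eq_zero d
    simp only [zero_smul, add_zero, hq] at this
    refine mul_left_cancel₀ hq0.ne' ?_
    norm_num at this
    linarith
  rwa [Pz.fix i l m w z a hm hw.1 hw.2.1 hr hs] at hr

theorem Polar.semi_fix (a1 : C.Adm l1) (h1 : 0 < m1) (h2 : 0 < m2) (hβ : 0 ≤ β)
    (hd : β ^ 2 < m1 * m2) {w v : H} (hs : C.Sol1 l1 m1 w) (hp : C.Pos w) (hv : v ≠ 0)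
    (hq : C.q l2 v ≤ β * C.R w v) (hl : C.Low l1 l2 m1 m2 β (C.q l1 w / 4)) (i : ι) :
    Pz.Rel i w w := by
  have h0 : 0 ≤ C.val w := PosL.nonneg hp
  obtain ⟨y, -, y0, hy, -, -, qy, -, -, Ry⟩ := C.exists_abs v
  obtain ⟨w', hr, hn⟩ := Pz.ex i w h0
  obtain ⟨v', hr', hn'⟩ := Pz.ex i y y0
  have hw' := Pz.ne_zero h0 hr hp.ne_zero
  have hv' := Pz.ne_zero y0 hr' (hy hv)
  have hP := Pz.P_eq i w w' h0 hr
  have hb : C.q l2 v' ≤ β * C.R w' v' :=
    ((Pz.q_le y0 hr' hn' l2).trans ((qy l2).trans hq)).trans (mul_le_mul_of_nonneg_left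
      ((Ry w).symm.trans_le (Pz.R_le i w w' y v' h0 y0 hr hr')) hβ)
  have ha : C.q l1 w = m1 * C.P w' := by rw [hP, hs.q_eq]
  have hq' : C.q l1 w' = C.q l1 w := by
    refine (Pz.q_le h0 hr hn l1).eq_of_not_lt fun hlt => ?_
    obtain ⟨c, hc, hu⟩ := Pol_alg (mul_pos h2 (C.P_pos hv')) ha (C.Alt_disc' hd hw' hv') hb hlt
    exact hc.not_ge (hl w' v' c hw' hv' hu)
  have hk : KKT m1 m2 β (C.q l1 w') (C.q l2 v') (C.P w') (C.P v') (C.R w' v') 1 0 :=
    ⟨zero_le_one, le_rfl, by linarith, by linarith, by linarith, by ring⟩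
  have e := C.Alt_eqn h1 h2 hd hw' hv' hk (by rw [hk.val, hq']; simpa using hl) one_pos
  have hs' : C.Sol1 l1 m1 w' := fun ψ => by
    have := e ψ
    rwa [Real.sqrt_one, one_smul, C.T_smul1 √0, Real.sqrt_zero, zero_mul, mul_zero,
      add_zero] at this
  rwa [Pz.fix i l1 m1 w w' a1 h1 hs hp hr hs'] at hr

include Pz in
theorem Polar.lowerRange_pol [CompleteSpace H] [TopologicalSpace.SeparableSpace H]
    (a1 : C.Adm l1) (a2 : C.Adm l2) (h1 : 0 < m1) (h2 : 0 < m2) (hβ : 0 ≤ β)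
    (hd : β ^ 2 < m1 * m2) :
    C.GS l1 l2 m1 m2 β ↔ β < C.bh l1 m1 l2 ∧ β < C.bh l2 m2 l1 := by
  refine ⟨fun h => ⟨lt_of_not_ge fun e => ?_, lt_of_not_ge fun e => ?_⟩, fun h => ?_⟩
  · exact C.lower_non a2 a1 h2 h1 hβ (by rwa [mul_comm]) e ((C.GS_swap _ _ _ _ _).1 h)
  · exact C.lower_non a1 a2 h1 h2 hβ hd e h
  obtain ⟨w1, hw1⟩ := C.least_exists a1 h1
  obtain ⟨w2, hw2⟩ := C.least_exists a2 h2
  rcases C.alt a1 a2 h1 h2 hβ hd with g | ⟨w, v, s, p, hv, hle, low⟩ | ⟨w, v, s, p, hv, hle, low⟩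
  · exact g
  · obtain rfl : w = w1 := Pz.uniq l1 m1 w w1 a1 h1 s p (Pz.semi_fix a1 h1 h2 hβ hd s p hv hle low)
      hw1.1 hw1.2.1 (Pz.least_fix a1 h1 hw1)
    exact absurd ((C.bh_le a2 hw1 v).trans hle) (mul_lt_mul_of_pos_right h.1 (C.R_pos p hv)).not_ge
  · obtain rfl : w = w2 := Pz.uniq l2 m2 w w2 a2 h2 s p
      (Pz.semi_fix a2 h2 h1 hβ (by rwa [mul_comm]) s p hv hle low.swap)
      hw2.1 hw2.2.1 (Pz.least_fix a2 h2 hw2)
    exact absurd ((C.bh_le a1 hw2 v).trans hle) (mul_lt_mul_of_pos_right h.2 (C.R_pos p hv)).not_ge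

end Ctx
end CritSys
end
end

-- merged part: Pool.Agent.Work.MP_80ee1d_an.PolT
section
/-!
Polarization does not increase the Dirichlet norm.

PLAN. `exists_softAbs`: `g t = ∫ s in 0..t, (Real.smoothTransition (s - 1) -
Real.smoothTransition (-s - 1))` (the integrand is odd, zero on `[-1, 1]`, bounded by one, equal to
`sign s` for `|s| ≥ 2`), `G t = ε * g (2 t / ε) / 2`; smoothness by `contDiff_infty_iff_deriv` and
`intervalIntegral.integral_hasDerivAt_right` (`Continuous.deriv_integral`).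
`pol_tst`: `f' = f ∘ σ`, `d = f - f'`, `sg x = if ⟪x, e⟫ < τ then 1 else -1`,
`F x = (f x + f' x) / 2 + sg x * G (d x) / 2`.  It is smooth: off the hyperplane `sg` is locally
constant, at a point of the hyperplane `d = 0` (`σ_fixed`) so `G ∘ d` vanishes nearby
(`ContDiffAt.congr_of_eventuallyEq`).  Off the hyperplane `F ∘ σ = (f + f') / 2 - sg * G d / 2`
locally, so with `A = ∇f x`, `B = ∇f' x`, `|θ| ≤ 1`:
`‖∇F x‖² + ‖∇(F ∘ σ) x‖² = ‖A + B‖²/2 + θ² ‖A - B‖²/2 ≤ ‖A‖² + ‖B‖²`; integrate with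
`norm_gradient_σ` and `σ_mp`.  Since `max a b = (a + b)/2 + |a - b|/2`, `|F - pol f| ≤ ε / 2` on a
fixed compact set and both vanish outside; `limit_of_bdd` with `ε = 1/(n+1)`, `Ω = univ`.
`pol_D`: tests `f n → u`, `norm_polL_sub`, `limit_of_bdd`.
`pol_H0`: tests `f n → u` supported in the ball, `g n` from `abs_H0`, `w n` from `pol_D (g n)`;
`tsupport (f n) ⊆ closedBall 0 ρ` with `ρ < R` (compactness), `polL_zero_outside`,
`mem_H0_of_support`; `|val (ofT (f n))| → |val u| = val u` (`Lp` is a normed lattice,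
`continuous_abs`); `limit_of_bdd`.
-/

open MeasureTheory Filter Topology Metric
open scoped ContDiff RealInnerProductSpace ENNReal

noncomputable section
namespace CritSys

/-- A smooth version of the positive part. -/
def PolTp (t : ℝ) : ℝ := ∫ s in (0 : ℝ)..t, Real.smoothTransition (s - 1)

theorem PolT_cont : Continuous fun s : ℝ => Real.smoothTransition (s - 1) := by fun_prop

theorem PolT_deriv (t : ℝ) : HasDerivAt PolTp (Real.smoothTransition (t - 1)) t :=
  (PolT_cont.integral_hasStrictDerivAt 0 t).hasDerivAt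

theorem PolT_smooth : ContDiff ℝ ∞ PolTp := by
  refine contDiff_infty_iff_deriv.2 ⟨fun t => (PolT_deriv t).differentiableAt, ?_⟩
  rw [funext fun t => (PolT_deriv t).deriv]
  exact Real.smoothTransition.contDiff.comp (contDiff_id.sub contDiff_const)

theorem PolT_zero {t : ℝ} (ht : t ≤ 1) : PolTp t = 0 := by
  rw [PolTp, intervalIntegral.integral_congr (g := fun _ => 0), intervalIntegral.integral_zero]
  intro s hs
  refine Real.smoothTransition.zero_of_nonpos ?_
  rcases Set.mem_uIcc.1 hs with h | h <;> linarith only [ht, h, h.2]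

theorem PolT_bound {t : ℝ} (ht : 0 ≤ t) : t - 2 ≤ PolTp t ∧ PolTp t ≤ t := by
  have hi : ∀ a b : ℝ, IntervalIntegrable (fun s : ℝ => Real.smoothTransition (s - 1)) volume a b :=
    fun a b => PolT_cont.intervalIntegrable a b
  constructor
  · rcases le_total t 2 with h | h
    · exact (sub_nonpos.2 h).trans
        (intervalIntegral.integral_nonneg ht fun s _ => Real.smoothTransition.nonneg _)
    · rw [PolTp, ← intervalIntegral.integral_add_adjacent_intervals (hi 0 2) (hi 2 t),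
        intervalIntegral.integral_congr (a := 2) (b := t) (g := fun _ => 1)]
      · have := intervalIntegral.integral_nonneg (μ := volume) (show (0 : ℝ) ≤ 2 by norm_num)
          fun s _ => Real.smoothTransition.nonneg (s - 1)
        simp only [intervalIntegral.integral_const, smul_eq_mul, mul_one]
        linarith
      · intro s hs
        rw [Set.uIcc_of_le h] at hs
        exact Real.smoothTransition.one_of_one_le (by linarith [hs.1])
  · have := intervalIntegral.integral_mono_on ht (hi 0 t) (intervalIntegrable_const (c := (1 : ℝ)))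
      fun s _ => Real.smoothTransition.le_one (s - 1)
    simpa [PolTp] using this

theorem exists_softAbs {ε : ℝ} (hε : 0 < ε) : ∃ G : ℝ → ℝ, ContDiff ℝ ∞ G ∧ (∀ t, G (-t) = G t) ∧
    (∀ t, |t| ≤ ε / 2 → G t = 0) ∧ (∀ t, |deriv G t| ≤ 1) ∧ ∀ t, |G t - (|t|)| ≤ ε := by
  refine ⟨fun t => ε / 2 * (PolTp (2 / ε * t) + PolTp (-(2 / ε * t))), ?_, fun t => ?_,
    fun t ht => ?_, fun t => ?_, fun t => ?_⟩
  · exact contDiff_const.mul ((PolT_smooth.comp (contDiff_const.mul contDiff_id)).add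
      (PolT_smooth.comp (contDiff_const.mul contDiff_id).neg))
  · simp only [mul_neg, neg_neg, add_comm]
  · have h1 : |2 / ε * t| ≤ 1 := by
      rw [abs_mul, abs_of_pos (by positivity), div_mul_eq_mul_div, div_le_one hε]; linarith only [ht]
    simp only [PolT_zero (abs_le.1 h1).2, PolT_zero (neg_le.1 (abs_le.1 h1).1), add_zero, mul_zero]
  · have h1 : HasDerivAt (fun t => 2 / ε * t) (2 / ε) t := by
      simpa using (hasDerivAt_id t).const_mul (2 / ε)
    have h2 := (((PolT_deriv _).comp t h1).add ((PolT_deriv _).comp t h1.neg)).const_mul (ε / 2)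
    have h3 : deriv (fun t => ε / 2 * (PolTp (2 / ε * t) + PolTp (-(2 / ε * t)))) t = _ := h2.deriv
    rw [h3]
    have e : ∀ a b : ℝ, ε / 2 * (a * (2 / ε) + b * -(2 / ε)) = a - b := fun a b => by
      field_simp; ring
    rw [e, abs_le]
    constructor <;>
      linarith only [Real.smoothTransition.nonneg (2 / ε * t - 1),
        Real.smoothTransition.le_one (2 / ε * t - 1),
        Real.smoothTransition.nonneg ((-fun t => 2 / ε * t) t - 1),
        Real.smoothTransition.le_one ((-fun t => 2 / ε * t) t - 1)]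
  · have key : ∀ r : ℝ, 0 ≤ r → |ε / 2 * PolTp (2 / ε * r) - r| ≤ ε := by
      intro r hr
      obtain ⟨k1, k2⟩ := PolT_bound (show 0 ≤ 2 / ε * r by positivity)
      have k3 := mul_le_mul_of_nonneg_left k1 (show 0 ≤ ε / 2 by positivity)
      have k4 := mul_le_mul_of_nonneg_left k2 (show 0 ≤ ε / 2 by positivity)
      have e : ε / 2 * (2 / ε * r) = r := by field_simp
      rw [mul_sub, e] at k3
      rw [e] at k4
      rw [abs_le]; constructor <;> linarith only [k3, hε, k4]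
    beta_reduce
    rcases le_total 0 t with h | h
    · have h1 : 0 ≤ 2 / ε * t := by positivity
      rw [PolT_zero (t := -(2 / ε * t)) (by linarith only [h1]), add_zero, abs_of_nonneg h]
      exact key t h
    · have h1 : 2 / ε * t ≤ 0 := mul_nonpos_of_nonneg_of_nonpos (by positivity) h
      rw [PolT_zero (t := 2 / ε * t) (by linarith only [h1]), zero_add, abs_of_nonpos h, ← mul_neg]
      exact key (-t) (by linarith only [h])

/-- The sign of the side of the hyperplane. -/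
def PolTsg (h : Hs) (x : E4) : ℝ := if ⟪x, h.e⟫ < h.τ then 1 else -1

theorem PolT_sg_abs (h : Hs) (x : E4) : |PolTsg h x| = 1 := by
  unfold PolTsg; split_ifs <;> simp

theorem PolT_sg_ev (h : Hs) {x : E4} (hx : ⟪x, h.e⟫ ≠ h.τ) :
    ∀ᶠ y in 𝓝 x, PolTsg h y = PolTsg h x := by
  have hc : Continuous fun y : E4 => ⟪y, h.e⟫ := by fun_prop
  rcases lt_or_gt_of_ne hx with k | k
  · filter_upwards [(isOpen_lt hc continuous_const).mem_nhds k] with y hy
    simp only [PolTsg, if_pos k, if_pos (show ⟪y, h.e⟫ < h.τ from hy)]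
  · filter_upwards [(isOpen_lt continuous_const hc).mem_nhds k] with y hy
    simp only [PolTsg, if_neg k.not_gt, if_neg (show h.τ < ⟪y, h.e⟫ from hy).not_gt]

theorem PolT_sg_σ (h : Hs) {x : E4} (hx : ⟪x, h.e⟫ ≠ h.τ) :
    PolTsg h (h.σ x) = -PolTsg h x := by
  unfold PolTsg
  rw [h.inner_σ]
  rcases lt_or_gt_of_ne hx with k | k
  · rw [if_pos k, if_neg (by linarith)]
  · rw [if_neg k.not_gt, if_pos (by linarith), neg_neg]

theorem PolT_grad {f g : E4 → ℝ} (hf : ContDiff ℝ ∞ f) (hg : ContDiff ℝ ∞ g) {G : ℝ → ℝ}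
    (hG : ContDiff ℝ ∞ G) (c : ℝ) (x : E4) :
    gradient (fun y => (f y + g y) / 2 + c * G (f y - g y) / 2) x =
      (1 / 2 : ℝ) • (gradient f x + gradient g x) +
        (c * deriv G (f x - g x) / 2) • (gradient f x - gradient g x) := by
  have h1 := (hf.differentiable (by simp) x).hasFDerivAt
  have h2 := (hg.differentiable (by simp) x).hasFDerivAt
  have h3 := ((hG.differentiable (by simp) (f x - g x)).hasDerivAt.comp_hasFDerivAt x (h1.sub h2))
  have h4 := ((h1.add h2).mul_const (1 / 2 : ℝ)).add (h3.const_mul (c / 2))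
  have e : (fun y => (f y + g y) / 2 + c * G (f y - g y) / 2) =
      (fun y => (f + g) y * (1 / 2)) + fun y => c / 2 * (G ∘ (f - g)) y := by
    funext y; simp only [Pi.add_apply, Function.comp, Pi.sub_apply]; ring
  refine ext_inner_right ℝ fun v => ?_
  rw [inner_gradient, e, h4.fderiv]
  simp only [inner_add_left, inner_sub_left, real_inner_smul_left, inner_gradient,
    add_apply, smul_apply, sub_apply,
    smul_eq_mul]
  ring

theorem PolT_par (A B : E4) {θ : ℝ} (hθ : |θ| ≤ 1) :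
    ‖(1 / 2 : ℝ) • (A + B) + (θ / 2) • (A - B)‖ ^ 2 +
      ‖(1 / 2 : ℝ) • (A + B) + (-θ / 2) • (A - B)‖ ^ 2 ≤ ‖A‖ ^ 2 + ‖B‖ ^ 2 := by
  have h1 := parallelogram_law_with_norm ℝ ((1 / 2 : ℝ) • (A + B)) ((θ / 2) • (A - B))
  have h2 := parallelogram_law_with_norm ℝ A B
  have h3 : θ ^ 2 ≤ 1 := by rw [← sq_abs]; exact pow_le_one₀ (abs_nonneg _) hθ
  rw [neg_div, neg_smul, ← sub_eq_add_neg]
  rw [norm_smul, norm_smul, Real.norm_eq_abs, Real.norm_eq_abs, abs_div θ, abs_two,
    abs_of_pos (show (0 : ℝ) < 1 / 2 by norm_num)] at h1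
  linarith only [h1, h2, h3, sq_abs θ, mul_le_mul_of_nonneg_right h3 (sq_nonneg ‖A - B‖), sq_nonneg ‖A - B‖, Mathlib.Tactic.Linarith.mul_zero_eq (Mathlib.Tactic.Linarith.sub_nonpos_of_le (sq_nonneg ‖A - B‖)) (sub_eq_zero_of_eq (sq_abs θ))]

theorem PolT_approx (h : Hs) (f : Tst) {ε : ℝ} (hε : 0 < ε) : ∃ F : Tst,
    ‖ofT F‖ ≤ ‖ofT f‖ ∧ (∀ x, |(F : E4 → ℝ) x - h.pol f x| ≤ ε) ∧
    ∀ x, (f : E4 → ℝ) x = 0 → (f : E4 → ℝ) (h.σ x) = 0 → (F : E4 → ℝ) x = 0 := by
  obtain ⟨G, hG, hev, hz, hd, hab⟩ := exists_softAbs hε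
  obtain ⟨f, hf, hc⟩ := f
  set g : E4 → ℝ := fun x => f (h.σ x) with hg
  have hgs : ContDiff ℝ ∞ g := hf.comp h.σ_contDiff
  have hgc : HasCompactSupport g := h.hasCompactSupport_σ hc
  set F : E4 → ℝ := fun x => (f x + g x) / 2 + PolTsg h x * G (f x - g x) / 2 with hF
  have hsm : ∀ c : ℝ, ContDiff ℝ ∞ fun y => (f y + g y) / 2 + c * G (f y - g y) / 2 := fun c =>
    ((hf.add hgs).div_const 2).add ((contDiff_const.mul (hG.comp (hf.sub hgs))).div_const 2)
  have hloc : ∀ x, ⟪x, h.e⟫ ≠ h.τ →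
      F =ᶠ[𝓝 x] fun y => (f y + g y) / 2 + PolTsg h x * G (f y - g y) / 2 := fun x hx => by
    filter_upwards [PolT_sg_ev h hx] with y hy
    simp only [hF, hy]
  have hloc' : ∀ x, ⟪x, h.e⟫ ≠ h.τ → (fun y => F (h.σ y)) =ᶠ[𝓝 x]
      fun y => (f y + g y) / 2 + -PolTsg h x * G (f y - g y) / 2 := fun x hx => by
    have hc' : Continuous fun y : E4 => ⟪y, h.e⟫ := by fun_prop
    filter_upwards [PolT_sg_ev h hx, hc'.continuousAt.eventually_ne hx] with y hy hy'
    simp only [hF, hg, h.σ_σ, PolT_sg_σ h hy', hy]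
    rw [← hev (f y - f (h.σ y)), neg_sub, add_comm (f y)]
  have hFs : ContDiff ℝ ∞ F := by
    refine contDiff_iff_contDiffAt.2 fun x => ?_
    by_cases hx : ⟪x, h.e⟫ = h.τ
    · refine (hsm 0).contDiffAt.congr_of_eventuallyEq ?_
      have h1 : ContinuousAt (fun y => |f y - g y|) x :=
        (hf.continuous.sub hgs.continuous).abs.continuousAt
      have h2 : |f x - g x| < ε / 2 := by
        simp only [hg, h.σ_fixed hx, sub_self, abs_zero]; positivity
      filter_upwards [h1.eventually (gt_mem_nhds h2)] with y hy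
      simp only [hF, hz _ hy.le, mul_zero]
    · exact (hsm _).contDiffAt.congr_of_eventuallyEq (hloc x hx)
  have hF0 : ∀ x, f x = 0 → g x = 0 → F x = 0 := fun x h1 h2 => by
    simp only [hF, h1, h2, sub_self, hz 0 (by simp; positivity)]; simp
  have hFc : HasCompactSupport F := by
    refine HasCompactSupport.intro (hc.isCompact.union hgc.isCompact) fun x hx => ?_
    rw [Set.mem_union, not_or] at hx
    exact hF0 x (image_eq_zero_of_notMem_tsupport hx.1) (image_eq_zero_of_notMem_tsupport hx.2)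
  refine ⟨⟨F, hFs, hFc⟩, ?_, fun x => ?_, hF0⟩
  · refine le_of_sq_le_sq ?_ (norm_nonneg _)
    rw [norm_sq_ofT, norm_sq_ofT]
    have hint : ∀ k : Tst, Integrable fun x => ‖gradient (k : E4 → ℝ) x‖ ^ 2 := fun k =>
      (memLp_two_iff_integrable_sq_norm (tst_memLp_grad k 2).1).1 (tst_memLp_grad k 2)
    have i1 : Integrable fun x => ‖gradient F x‖ ^ 2 := hint ⟨F, hFs, hFc⟩
    have i2 : Integrable fun x => ‖gradient f x‖ ^ 2 := hint ⟨f, hf, hc⟩
    have j1 := h.σ_mp.integral_comp h.σ_emb fun x => ‖gradient F x‖ ^ 2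
    have j2 := h.σ_mp.integral_comp h.σ_emb fun x => ‖gradient f x‖ ^ 2
    have i3 : Integrable fun x => ‖gradient F (h.σ x)‖ ^ 2 :=
      (h.σ_mp.integrable_comp_emb h.σ_emb).2 i1
    have i4 : Integrable fun x => ‖gradient f (h.σ x)‖ ^ 2 :=
      (h.σ_mp.integrable_comp_emb h.σ_emb).2 i2
    have key : ∫ x, (‖gradient F x‖ ^ 2 + ‖gradient F (h.σ x)‖ ^ 2) ≤
        ∫ x, (‖gradient f x‖ ^ 2 + ‖gradient f (h.σ x)‖ ^ 2) := by
      refine integral_mono_ae (i1.add i3) (i2.add i4) ?_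
      filter_upwards [h.ae_ne] with x hx
      rw [← h.norm_gradient_σ hFs, ← h.norm_gradient_σ hf, (hloc x hx).gradient_eq,
        (hloc' x hx).gradient_eq, PolT_grad hf hgs hG, PolT_grad hf hgs hG, neg_mul]
      refine PolT_par _ _ ?_
      rw [abs_mul, PolT_sg_abs, one_mul]
      exact hd _
    rw [integral_add i1 i3, integral_add i2 i4] at key
    change ∫ x, ‖gradient F x‖ ^ 2 ≤ ∫ x, ‖gradient f x‖ ^ 2
    linarith only [j1, j2, key]
  · have h1 := abs_le.1 (hab (f x - g x))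
    change |F x - h.pol f x| ≤ ε
    simp only [hF, Hs.pol, PolTsg]
    change |_ - if _ then max (f x) (g x) else min (f x) (g x)| ≤ ε
    rw [abs_le]
    rcases le_total (f x) (g x) with k | k
    · rw [abs_of_nonpos (sub_nonpos.2 k)] at h1
      rw [max_eq_right k, min_eq_left k]
      split_ifs <;> constructor <;> linarith only [hε, h1, h1.1, h1.2]
    · rw [abs_of_nonneg (sub_nonneg.2 k)] at h1
      rw [max_eq_left k, min_eq_right k]
      split_ifs <;> constructor <;> linarith only [hε, h1, h1.1, h1.2]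

theorem PolT_tendsto (h : Hs) {a : ℕ → L4 (volume : Measure E4)} {b : L4 (volume : Measure E4)}
    (ha : Tendsto a atTop (𝓝 b)) : Tendsto (fun n => h.polL (a n)) atTop (𝓝 (h.polL b)) := by
  rw [tendsto_iff_norm_sub_tendsto_zero] at ha ⊢
  refine squeeze_zero (fun _ => norm_nonneg _) (fun n => h.norm_polL_sub _ _) ?_
  simpa using ha.const_mul 2

theorem pol_tst (h : Hs) (f : Tst) :
    ∃ w : D, val w = h.polL (val (ofT f)) ∧ ‖w‖ ≤ ‖ofT f‖ := by
  choose F h1 h2 h3 using fun n : ℕ => PolT_approx h f (Nat.one_div_pos_of_nat (n := n))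
  have hK : IsCompact (tsupport (f : E4 → ℝ) ∪ tsupport fun x => (f : E4 → ℝ) (h.σ x)) :=
    f.2.2.isCompact.union (h.hasCompactSupport_σ f.2.2).isCompact
  set I : L4 (volume : Measure E4) :=
    indicatorConstLp 4 hK.measurableSet hK.measure_lt_top.ne (1 : ℝ) with hI
  obtain ⟨z, -, k1, k2⟩ := limit_of_bdd (fun n => mem_H0_univ (ofT (F n))) h1 tendsto_const_nhds
    (g := h.polL (val (ofT f))) (by
      rw [tendsto_iff_norm_sub_tendsto_zero]
      refine squeeze_zero (g := fun n : ℕ => 1 / ((n : ℝ) + 1) * ‖I‖) (fun _ => norm_nonneg _)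
        (fun n => ?_) (by simpa using tendsto_one_div_add_atTop_nhds_zero_nat.mul_const ‖I‖)
      refine Lp.norm_le_mul_norm_of_ae_le_mul ?_
      filter_upwards [Lp.coeFn_sub (val (ofT (F n))) (h.polL (val (ofT f))), val_ofT (F n),
        h.polL_ae (val (ofT f)), h.pol_congr (val_ofT f),
        (indicatorConstLp_coeFn : (I : E4 → ℝ) =ᵐ[volume] _)] with x e1 e2 e3 e4 e5
      rw [e1, Pi.sub_apply, e2, e3, e4, e5]
      by_cases hx : x ∈ tsupport (f : E4 → ℝ) ∪ tsupport fun x => (f : E4 → ℝ) (h.σ x)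
      · rw [Set.indicator_of_mem hx, norm_one, mul_one]
        exact h2 n x
      · rw [Set.indicator_of_notMem hx]
        rw [Set.mem_union, not_or] at hx
        have a1 := image_eq_zero_of_notMem_tsupport hx.1
        have a2 := image_eq_zero_of_notMem_tsupport hx.2
        simp [h3 n x a1 a2, Hs.pol, a1, a2])
  exact ⟨z, k1, k2⟩

theorem pol_D (h : Hs) (u : D) : ∃ w : D, val w = h.polL (val u) ∧ ‖w‖ ≤ ‖u‖ := by
  obtain ⟨f, -, hf⟩ := mem_H0_iff.1 (mem_H0_univ u)
  choose w h1 h2 using fun n => pol_tst h (f n)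
  obtain ⟨z, -, k1, k2⟩ := limit_of_bdd (fun n => mem_H0_univ (w n)) h2 hf.norm
    (g := h.polL (val u)) (by
      simp only [h1]
      exact PolT_tendsto h ((val.continuous.tendsto u).comp hf))
  exact ⟨z, k1, k2⟩

theorem pol_H0 (h : Hs) {R : ℝ} {u : D} (hu : u ∈ H0 (ball 0 R)) (h0 : 0 ≤ val u) :
    ∃ w ∈ H0 (ball 0 R), val w = h.polL (val u) ∧ ‖w‖ ≤ ‖u‖ := by
  obtain ⟨f, hs, hf⟩ := mem_H0_iff.1 hu
  choose g _ g1 g2 using fun n => abs_H0 (mem_H0_univ (ofT (f n)))
  choose w h1 h2 using fun n => pol_D h (g n)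
  refine limit_of_bdd (w := w) (fun n => ?_) (fun n => (h2 n).trans (g2 n)) hf.norm ?_
  · obtain ⟨ρ, hρ, hρ'⟩ := exists_lt_subset_ball (isClosed_tsupport _) (hs n)
    refine mem_H0_of_support isOpen_ball (isCompact_closedBall 0 ρ) (closedBall_subset_ball hρ) ?_
    have := h.polL_zero_outside (a := val (g n)) (by rw [g1]; exact abs_nonneg _) (ρ := ρ) (by
      rw [g1]
      filter_upwards [Lp.coeFn_abs (val (ofT (f n))), val_ofT (f n)] with x e1 e2 hx
      rw [e1, e2, image_eq_zero_of_notMem_tsupport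
        fun k => (mem_ball_zero_iff.1 (hρ' k)).not_gt hx, abs_zero])
    rw [h1]
    filter_upwards [this] with x hx k
    exact hx (by simpa using k)
  · simp only [h1, g1]
    refine PolT_tendsto h ?_
    have := (val.continuous.tendsto u).comp hf
    rw [tendsto_iff_norm_sub_tendsto_zero] at this ⊢
    refine squeeze_zero (fun _ => norm_nonneg _) (fun n => ?_) this
    conv_lhs => rw [← abs_of_nonneg h0]
    exact norm_abs_sub_abs _ _

end CritSys
end
end

-- merged part: Pool.Agent.Work.MP_80ee1d_an.PolEq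
section
/-!
If a non-negative solution on a ball and its polarization both solve the equation, they coincide.

PLAN. `z = w - u`, `Ω' = ball 0 R ∩ {x | ⟪x, e⟫ < τ}` (open, convex).  On `Ω'`,
`val z = max u (u ∘ σ) - u ≥ 0`.  For `ψ ∈ H0 Ω'` with `val ψ ≥ 0` (`H0_mono`, `H0_zero_outside`):
`⟪z, ψ⟫ = ∫ (-l (w - u) + m (w³ - u³)) ψ ≥ 0` (integrability on the ball from `T4_integrable` with
indicator functions, or `MemLp` on the finite measure).  `smp_D`: `val z = 0` a.e. on `Ω'`, or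
`val z > 0` a.e. on `Ω'`.  The open set `U = {x ∈ Ω' | R < ‖σ x‖}` is non-empty (`x = -r • e` with
`max 0 (R - 2τ) < r < R`, `norm_σ_sq`), and on it `u (σ x) = 0` a.e. (`H0_zero_outside`, `σ_mp`), so
`val z = 0` a.e. on `U`, which has positive measure.  Hence `u ∘ σ ≤ u` a.e. on `Ω'`; on the rest of
the half-space both vanish a.e. (`‖σ x‖ ≥ ‖x‖ ≥ R`).  Transport by `σ` to the other half-space:
`pol u = u` a.e.; `val_inj`.
-/

open MeasureTheory Filter Topology Metric
open scoped ContDiff RealInnerProductSpace ENNReal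

noncomputable section
namespace CritSys

/-- Weak form of `-Δu + l u = m u³` on `Ω`. -/
def DSol (Ω : Set E4) (l m : ℝ) (u : D) : Prop :=
  ∀ ψ ∈ H0 Ω, ⟪u, ψ⟫ = ∫ x in Ω, (-l * val u x + m * val u x ^ 3) * val ψ x

theorem PolEq_int (a ψ : L4 (volume : Measure E4)) (R l m : ℝ) :
    IntegrableOn (fun x => (-l * a x + m * a x ^ 3) * ψ x) (ball (0 : E4) R) := by
  have : IsFiniteMeasure (volume.restrict (ball (0 : E4) R)) :=
    isFiniteMeasure_restrict.2 measure_ball_lt_top.ne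
  have h2 : ∀ b : L4 (volume : Measure E4), MemLp b 2 (volume.restrict (ball (0 : E4) R)) :=
    fun b => ((Lp.memLp b).restrict _).mono_exponent (by norm_num)
  have i1 := ((h2 a).integrable_mul (h2 ψ)).const_mul (-l)
  have i2 := ((T4_integrable a a a ψ).const_mul m).integrableOn (s := ball (0 : E4) R)
  refine (i1.add i2).congr (Eventually.of_forall fun x => ?_)
  simp only [Pi.add_apply, Pi.mul_apply]
  ring

theorem pol_fix (h : Hs) {R l m : ℝ} (hR : 0 < R) (hl : l ≤ 0) (hm : 0 ≤ m) {u w : D}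
    (hu : u ∈ H0 (ball 0 R)) (h0 : 0 ≤ val u) (hw : val w = h.polL (val u))
    (su : DSol (ball 0 R) l m u) (sw : DSol (ball 0 R) l m w) : w = u := by
  have hcont : Continuous fun x : E4 => ⟪x, h.e⟫ := by fun_prop
  set Ω' : Set E4 := ball 0 R ∩ {x | ⟪x, h.e⟫ < h.τ} with hΩ'
  have ho : IsOpen Ω' := isOpen_ball.inter (isOpen_lt hcont continuous_const)
  have hconv : Convex ℝ Ω' := (convex_ball 0 R).inter (convex_halfSpace_lt
    ⟨fun x y => inner_add_left x y h.e, fun c x => real_inner_smul_left x h.e c⟩ h.τ)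
  have u0 : ∀ᵐ x, 0 ≤ val u x := (Lp.coeFn_nonneg _).2 h0
  have hz : ∀ᵐ x, val (w - u) x = h.pol (val u) x - val u x := by
    rw [map_sub, hw]
    filter_upwards [Lp.coeFn_sub (h.polL (val u)) (val u), h.polL_ae (val u)] with x e1 e2
    rw [e1, Pi.sub_apply, e2]
  have hw' : ∀ᵐ x, val w x = h.pol (val u) x := by rw [hw]; exact h.polL_ae _
  have hge : ∀ x ∈ Ω', val u x ≤ h.pol (val u) x := fun x hx => by
    rw [Hs.pol, if_pos (show ⟪x, h.e⟫ < h.τ from hx.2)]; exact le_max_left _ _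
  have hout : ∀ᵐ x, x ∉ ball (0 : E4) R → val u x = 0 :=
    (H0_zero_outside hu).mono fun x hx k => (hx k).1
  have hout' : ∀ᵐ x, h.σ x ∉ ball (0 : E4) R → val u (h.σ x) = 0 :=
    h.σ_mp.quasiMeasurePreserving.ae hout
  have hzero : ∀ᵐ x ∂(volume.restrict Ω'), val (w - u) x = 0 := by
    by_contra hne
    have hpos := smp_D ho hconv.isPreconnected (u := w - u) (by
      rw [ae_restrict_iff' ho.measurableSet]
      filter_upwards [hz] with x e hx
      rw [e]; exact sub_nonneg.2 (hge x hx)) hne (by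
      intro ψ hψ hψ0
      have hψ' := H0_mono Set.inter_subset_left hψ
      rw [inner_sub_left, su ψ hψ', sw ψ hψ', sub_nonneg]
      refine integral_mono_ae (PolEq_int _ _ R l m) (PolEq_int _ _ R l m) (ae_restrict_of_ae ?_)
      filter_upwards [hw', hψ0, u0, H0_zero_outside hψ] with x e1 e2 e3 e4
      by_cases hx : x ∈ Ω'
      · refine mul_le_mul_of_nonneg_right ?_ e2
        have k := hge x hx
        rw [e1]
        exact add_le_add (mul_le_mul_of_nonneg_left k (neg_nonneg.2 hl))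
          (mul_le_mul_of_nonneg_left (pow_le_pow_left₀ e3 k 3) hm)
      · rw [(e4 hx).1, mul_zero, mul_zero])
    rw [ae_restrict_iff' ho.measurableSet] at hpos
    have hU : IsOpen (Ω' ∩ {x | R < ‖h.σ x‖}) :=
      ho.inter (isOpen_lt continuous_const h.σ_contDiff.continuous.norm)
    have hτ := h.hτ
    obtain ⟨r, hr1, hr2⟩ := exists_between (show max 0 (R - 2 * h.τ) < R from
      max_lt hR (by linarith only [hτ]))
    have hr0 : 0 < r := (le_max_left _ _).trans_lt hr1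
    have hr3 : R - 2 * h.τ < r := (le_max_right _ _).trans_lt hr1
    have hn : ‖(-r) • h.e‖ = r := by rw [norm_smul, h.he, norm_neg, Real.norm_of_nonneg hr0.le, mul_one]
    have hi : ⟪(-r) • h.e, h.e⟫ = -r := by
      rw [real_inner_smul_left, real_inner_self_eq_norm_sq, h.he]; ring
    have hne' : (Ω' ∩ {x | R < ‖h.σ x‖}).Nonempty := by
      refine ⟨(-r) • h.e, ⟨by rwa [mem_ball_zero_iff, hn], ?_⟩, ?_⟩
      · change ⟪_, h.e⟫ < h.τ
        rw [hi]; linarith
      · change R < ‖_‖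
        refine lt_of_pow_lt_pow_left₀ 2 (norm_nonneg _) ?_
        rw [h.norm_σ_sq, hn, hi]
        linarith only [hR, hr3, hτ, hr0, mul_pos_of_neg_of_neg (Mathlib.Tactic.Linarith.sub_neg_of_lt hR) (Mathlib.Tactic.Linarith.sub_neg_of_lt hr3), mul_pos_of_neg_of_neg (Mathlib.Tactic.Linarith.sub_neg_of_lt hτ) (Mathlib.Tactic.Linarith.sub_neg_of_lt hr3), mul_pos_of_neg_of_neg (Mathlib.Tactic.Linarith.sub_neg_of_lt hr0) (Mathlib.Tactic.Linarith.sub_neg_of_lt hr3)]
    refine (hU.measure_pos volume hne').ne' (measure_eq_zero_iff_ae_notMem.2 ?_)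
    filter_upwards [hpos, hz, hout', u0] with x e1 e2 e3 e4 hx
    have k := e1 hx.1
    rw [e2, Hs.pol, if_pos (show ⟪x, h.e⟫ < h.τ from hx.1.2), e3 (by simpa using (show R < ‖h.σ x‖ from hx.2).le), max_eq_left e4, sub_self] at k
    exact lt_irrefl _ k
  have hhalf : ∀ᵐ x, ⟪x, h.e⟫ < h.τ → val u (h.σ x) ≤ val u x := by
    rw [ae_restrict_iff' ho.measurableSet] at hzero
    filter_upwards [hzero, hz, hout', u0] with x e1 e2 e3 e4 hx
    by_cases hb : x ∈ ball (0 : E4) R
    · have k := e1 ⟨hb, hx⟩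
      rw [e2, Hs.pol, if_pos hx, sub_eq_zero] at k
      exact max_eq_left_iff.1 k
    · rw [e3]
      · exact e4
      rw [mem_ball_zero_iff, not_lt] at hb ⊢
      refine hb.trans (le_of_sq_le_sq ?_ (norm_nonneg _))
      rw [h.norm_σ_sq]
      linarith only [hx, mul_pos h.hτ (sub_pos.2 hx)]
  refine sub_eq_zero.1 (val_inj (Lp.ext ?_))
  filter_upwards [hz, hhalf, h.σ_mp.quasiMeasurePreserving.ae hhalf, h.ae_ne,
    Lp.coeFn_zero ℝ 4 (volume : Measure E4)] with x e1 e2 e3 e4 e5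
  rw [e1, e5, Pi.zero_apply, sub_eq_zero, Hs.pol]
  split_ifs with k
  · exact max_eq_left (e2 k)
  · rw [h.σ_σ, h.inner_σ] at e3
    exact min_eq_left (e3 (by linarith only [k, e4, lt_of_le_of_ne (not_lt.1 k) e4.symm]))

end CritSys
end
end

-- merged part: Pool.Agent.Work.MP_80ee1d_an.RadW
section
/-!
The radial equation in the Emden-Fowler variable `t = log r`, in the sense of distributions.

PLAN. `polar_int`: `integral_fun_norm_addHaar` (`finrank = 4`) and the substitution `r = exp t`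
(`integral_image_eq_integral_abs_deriv_smul`, `Real.range_exp`, or `integral_comp_mul_deriv_Ioi`);
for `polar_integrable` use `integrable_fun_norm_addHaar` and
`integrableOn_image_iff_integrableOn_abs_deriv_smul`.
`radial_tst`: `Φ x = φ ‖x‖` with `φ r = η (log r) / r`; `η` vanishes outside a compact
`[a, b] ⊆ Iio (log R)`, so `Φ` vanishes near `0` and outside `closedBall 0 (exp b)`; away from `0` it
is smooth (`contDiffAt_norm`).  `∂_i Φ = φ'(r) x_i / r`, `∑ ∂_i ∂_i Φ = φ'' + 3 φ' / r`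
`= (η'' - η)(log r) / r³`.  (One may write `Φ x = ψ (‖x‖²)` to differentiate.)
`radial_weak`: `⟪u, ofT Φ⟫ = ∑ i, ∫ ⟪grd u, e i⟫ ∂_i Φ = -∫ val u * ∑ ∂_i ∂_i Φ` by `ibp` applied to the
test functions `∂_i Φ` (`inner_D`, `grd_ofT`, `EuclideanSpace.basisFun`, `inner_gradient`); insert
`val u = f ‖x‖`, use `polar_int` on both sides and cancel the constant.
-/

open MeasureTheory Filter Topology Metric
open scoped ContDiff RealInnerProductSpace ENNReal

noncomputable section
namespace CritSys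

theorem RadW_image : Set.Ioi (0 : ℝ) = Real.exp '' Set.univ := by
  rw [Set.image_univ, Real.range_exp]

theorem RadW_fun (g : ℝ → ℝ) :
    (fun t : ℝ => |Real.exp t| • (Real.exp t ^ (Module.finrank ℝ E4 - 1) • g (Real.exp t))) =
      fun t => Real.exp t ^ 4 * g (Real.exp t) := by
  funext t
  rw [abs_of_pos (Real.exp_pos t), finrank_euclideanSpace_fin, smul_eq_mul, smul_eq_mul]
  norm_num
  ring

theorem polar_int : ∃ c : ℝ, 0 < c ∧ ∀ g : ℝ → ℝ,
    ∫ x : E4, g ‖x‖ = c * ∫ t : ℝ, Real.exp t ^ 4 * g (Real.exp t) := by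
  refine ⟨4 * (volume : Measure E4).real (ball 0 1), ?_, fun g => ?_⟩
  · refine mul_pos (by norm_num) (ENNReal.toReal_pos ?_ measure_ball_lt_top.ne)
    exact (measure_ball_pos _ _ one_pos).ne'
  · rw [integral_fun_norm_addHaar (volume : Measure E4) g, RadW_image,
      integral_image_eq_integral_abs_deriv_smul MeasurableSet.univ
        (fun t _ => (Real.hasDerivAt_exp t).hasDerivWithinAt) Real.exp_injective.injOn,
      Measure.restrict_univ, RadW_fun, finrank_euclideanSpace_fin, nsmul_eq_mul, smul_eq_mul]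
    push_cast
    ring

theorem polar_integrable {g : ℝ → ℝ} (hg : Integrable fun x : E4 => g ‖x‖) :
    Integrable fun t : ℝ => Real.exp t ^ 4 * g (Real.exp t) := by
  rw [integrable_fun_norm_addHaar (volume : Measure E4), RadW_image,
    integrableOn_image_iff_integrableOn_abs_deriv_smul MeasurableSet.univ
      (fun t _ => (Real.hasDerivAt_exp t).hasDerivWithinAt) Real.exp_injective.injOn,
    integrableOn_univ, RadW_fun] at hg
  exact hg

theorem RadW_ae_exp {p : ℝ → Prop} :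
    (∀ᵐ r ∂(volume : Measure ℝ).restrict (Set.Ioi 0), p r) ↔ ∀ᵐ t : ℝ, p (Real.exp t) := by
  have h := map_withDensity_abs_det_fderiv_eq_addHaar (volume : Measure ℝ) (s := Set.univ)
    (f := Real.exp) MeasurableSet.univ.nullMeasurableSet
    (fun t _ => (Real.hasDerivAt_exp t).hasDerivWithinAt.hasFDerivWithinAt)
    Real.exp_injective.injOn
  simp only [ContinuousLinearMap.det_toSpanSingleton, Measure.restrict_univ] at h
  rw [RadW_image, ← h, Real.isOpenEmbedding_exp.measurableEmbedding.ae_map_iff,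
    ae_withDensity_iff (by fun_prop)]
  refine eventually_congr (Eventually.of_forall fun t => ⟨fun h => h ?_, fun h _ => h⟩)
  rw [abs_of_pos (Real.exp_pos t)]
  exact (ENNReal.ofReal_pos.2 (Real.exp_pos t)).ne'

theorem polar_ae {p : ℝ → Prop} : (∀ᵐ x : E4, p ‖x‖) ↔ ∀ᵐ t : ℝ, p (Real.exp t) := by
  have h := (volume : Measure E4).measurePreserving_homeomorphUnitSphereProd
  have h1 : (∀ᵐ x : E4, p ‖x‖) ↔
      ∀ᵐ z ∂((volume : Measure E4).toSphere.prod
        (Measure.volumeIoiPow (Module.finrank ℝ E4 - 1))), p z.2 := by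
    rw [← h.map_eq, (Homeomorph.measurableEmbedding _).ae_map_iff]
    simp only [homeomorphUnitSphereProd_apply_snd_coe]
    rw [← ae_restrict_iff_subtype (p := fun x : E4 => p ‖x‖) (measurableSet_singleton _).compl,
      restrict_compl_singleton]
  have h2 : (∀ᵐ z ∂((volume : Measure E4).toSphere.prod
        (Measure.volumeIoiPow (Module.finrank ℝ E4 - 1))), p z.2) ↔
      ∀ᵐ y : Set.Ioi (0 : ℝ) ∂(Measure.volumeIoiPow (Module.finrank ℝ E4 - 1)), p y := by
    refine ⟨fun h => ?_, fun h =>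
      Measure.quasiMeasurePreserving_snd.ae (p := fun y : Set.Ioi (0 : ℝ) => p y) h⟩
    have : NeZero (volume : Measure E4).toSphere := ⟨Measure.toSphere_ne_zero _⟩
    obtain ⟨_, hx⟩ := (Measure.ae_ae_of_ae_prod h).exists
    exact hx
  rw [h1, h2, ← RadW_ae_exp, ae_restrict_iff_subtype measurableSet_Ioi, Measure.volumeIoiPow,
    ae_withDensity_iff (by fun_prop)]
  refine eventually_congr (Eventually.of_forall fun y => ⟨fun h => h ?_, fun h _ => h⟩)
  exact (ENNReal.ofReal_pos.2 (pow_pos y.2 _)).ne'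

/-- The Laplacian of a function of `‖x‖ ^ 2`. -/
theorem RadW_lap {Φ : E4 → ℝ} {ψ ψ1 : ℝ → ℝ} {c : ℝ} {x : E4} (hx : x ≠ 0)
    (hΦ : ∀ y, y ≠ 0 → Φ y = ψ (‖y‖ ^ 2)) (h1 : ∀ s, 0 < s → HasDerivAt ψ (ψ1 s) s)
    (h2 : HasDerivAt ψ1 c (‖x‖ ^ 2)) :
    ∑ i : Fin 4, fderiv ℝ (fun y => fderiv ℝ Φ y (EuclideanSpace.single i 1)) x
      (EuclideanSpace.single i 1) = 4 * c * ‖x‖ ^ 2 + 8 * ψ1 (‖x‖ ^ 2) := by
  have hN : ∀ y : E4, HasFDerivAt (fun y : E4 => ‖y‖ ^ 2) (2 • innerSL ℝ y) y :=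
    fun y => (hasStrictFDerivAt_norm_sq y).hasFDerivAt
  have hd : ∀ (v y : E4), y ≠ 0 → fderiv ℝ Φ y v = ψ1 (‖y‖ ^ 2) * (2 * innerSL ℝ v y) := by
    intro v y hy
    have e : Φ =ᶠ[𝓝 y] ψ ∘ fun z : E4 => ‖z‖ ^ 2 := by
      filter_upwards [isOpen_ne.mem_nhds hy] with z hz using hΦ z hz
    have := (h1 _ (pow_pos (norm_pos_iff.2 hy) 2)).comp_hasFDerivAt y (hN y)
    rw [e.fderiv_eq, this.fderiv]
    simp [real_inner_comm]
  have hdd : ∀ v : E4, fderiv ℝ (fun y => fderiv ℝ Φ y v) x v =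
      ψ1 (‖x‖ ^ 2) * (2 * ⟪v, v⟫) + 4 * c * ⟪v, x⟫ ^ 2 := by
    intro v
    have e : (fun y => fderiv ℝ Φ y v) =ᶠ[𝓝 x]
        (ψ1 ∘ fun z : E4 => ‖z‖ ^ 2) * fun y => 2 * innerSL ℝ v y := by
      filter_upwards [isOpen_ne.mem_nhds hx] with z hz using hd v z hz
    have := (h2.comp_hasFDerivAt x (hN x)).mul ((innerSL ℝ v).hasFDerivAt.const_mul 2)
    rw [e.fderiv_eq, this.fderiv]
    simp [real_inner_comm]
    ring
  simp only [hdd, EuclideanSpace.inner_single_left, EuclideanSpace.real_norm_sq_eq]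
  simp [Fin.sum_univ_four]
  ring

theorem radial_tst {R : ℝ} (hR : 0 < R) {η : ℝ → ℝ} (hη : ContDiff ℝ ∞ η)
    (hc : HasCompactSupport η) (hs : tsupport η ⊆ Set.Iio (Real.log R)) :
    ∃ Φ : Tst, tsupport (Φ : E4 → ℝ) ⊆ ball 0 R ∧
      (∀ x, (Φ : E4 → ℝ) x = η (Real.log ‖x‖) / ‖x‖) ∧
      ∀ x, ∑ i : Fin 4, fderiv ℝ (fun y => fderiv ℝ (Φ : E4 → ℝ) y (EuclideanSpace.single i 1)) x
        (EuclideanSpace.single i 1) =
        (deriv (deriv η) (Real.log ‖x‖) - η (Real.log ‖x‖)) / ‖x‖ ^ 3 := by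
  obtain ⟨a, ha⟩ := hc.isCompact.bddBelow
  obtain ⟨b, hbR, hb⟩ : ∃ b, b < Real.log R ∧ ∀ t ∈ tsupport η, t ≤ b := by
    rcases (tsupport η).eq_empty_or_nonempty with h | h
    · exact ⟨Real.log R - 1, by linarith, by simp [h]⟩
    · obtain ⟨b, hb, hb'⟩ := hc.isCompact.exists_isGreatest h |>.imp fun _ h => h
      exact ⟨b, hs hb, fun t ht => hb' ht⟩
  set Φ : E4 → ℝ := fun x => η (Real.log ‖x‖) / ‖x‖ with hΦ
  have h0 : Φ =ᶠ[𝓝 0] fun _ => 0 := by
    filter_upwards [ball_mem_nhds (0 : E4) (Real.exp_pos a)] with y hy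
    rcases eq_or_ne y 0 with rfl | hy0
    · simp [hΦ]
    · have : Real.log ‖y‖ < a := by
        rw [Real.log_lt_iff_lt_exp (norm_pos_iff.2 hy0)]
        exact mem_ball_zero_iff.1 hy
      have h : η (Real.log ‖y‖) = 0 :=
        image_eq_zero_of_notMem_tsupport fun h => absurd (ha h) (not_le.2 this)
      simp [hΦ, h]
  have hsupp : tsupport Φ ⊆ closedBall 0 (Real.exp b) := by
    refine closure_minimal (fun y hy => ?_) isClosed_closedBall
    have hy0 : y ≠ 0 := by
      rintro rfl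
      simp [hΦ] at hy
    have : η (Real.log ‖y‖) ≠ 0 := fun h => hy (by simp [hΦ, h])
    rw [mem_closedBall_zero_iff, ← Real.log_le_iff_le_exp (norm_pos_iff.2 hy0)]
    exact hb _ (subset_tsupport _ this)
  have hsm : ContDiff ℝ ∞ Φ := by
    rw [contDiff_iff_contDiffAt]
    intro x
    rcases eq_or_ne x 0 with rfl | hx
    · exact contDiffAt_const.congr_of_eventuallyEq h0
    · have hn : ContDiffAt ℝ ∞ (fun y : E4 => ‖y‖) x := contDiffAt_norm ℝ hx
      exact (hη.contDiffAt.comp x (hn.log (norm_ne_zero_iff.2 hx))).div hn (norm_ne_zero_iff.2 hx)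
  refine ⟨⟨Φ, hsm, (isCompact_closedBall _ _).of_isClosed_subset (isClosed_tsupport _) hsupp⟩,
    hsupp.trans (closedBall_subset_ball ?_), fun _ => rfl, fun x => ?_⟩
  · rwa [← Real.lt_log_iff_exp_lt hR]
  show ∑ i : Fin 4, fderiv ℝ (fun y => fderiv ℝ Φ y (EuclideanSpace.single i 1)) x
    (EuclideanSpace.single i 1) = _
  rcases eq_or_ne x 0 with rfl | hx
  · have : ∀ v : E4, fderiv ℝ (fun y => fderiv ℝ Φ y v) 0 = 0 := by
      intro v
      have e : (fun y => fderiv ℝ Φ y v) =ᶠ[𝓝 0] fun _ => 0 := by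
        filter_upwards [h0.fderiv (𝕜 := ℝ)] with y hy
        simp [hy]
      rw [e.fderiv_eq]
      simp
    simp [this]
  have hd1 : ∀ t, HasDerivAt η (deriv η t) t := fun t =>
    (hη.differentiable (by simp) t).hasDerivAt
  have hd2 : ∀ t, HasDerivAt (deriv η) (deriv (deriv η) t) t := fun t =>
    ((contDiff_infty_iff_deriv.1 hη).2.differentiable (by simp) t).hasDerivAt
  have hL : ∀ s : ℝ, 0 < s → HasDerivAt (fun s => Real.log s / 2) (s⁻¹ / 2) s :=
    fun s hs => (Real.hasDerivAt_log hs.ne').div_const 2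
  have hE : ∀ s : ℝ, 0 < s → HasDerivAt (fun s => Real.exp (-(Real.log s / 2)))
      (Real.exp (-(Real.log s / 2)) * -(s⁻¹ / 2)) s := fun s hs => (hL s hs).neg.exp
  have hr : 0 < ‖x‖ := norm_pos_iff.2 hx
  have hlog : ∀ y : E4, Real.log (‖y‖ ^ 2) / 2 = Real.log ‖y‖ := fun y => by
    rw [Real.log_pow]
    push_cast
    ring
  have hexp : ∀ y : E4, y ≠ 0 → Real.exp (-Real.log ‖y‖) = ‖y‖⁻¹ := fun y hy => by
    rw [Real.exp_neg, Real.exp_log (norm_pos_iff.2 hy)]
  have hs2 : 0 < ‖x‖ ^ 2 := pow_pos hr 2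
  have key := RadW_lap (Φ := Φ) (ψ := fun s => η (Real.log s / 2) * Real.exp (-(Real.log s / 2)))
    (ψ1 := fun s => (deriv η (Real.log s / 2) - η (Real.log s / 2)) *
      Real.exp (-(Real.log s / 2)) * s⁻¹ / 2) hx
    (fun y hy => by simp only [hΦ, hlog, hexp y hy, div_eq_mul_inv])
    (fun s hs => by
      refine (((hd1 _).comp s (hL s hs)).mul (hE s hs)).congr_deriv ?_
      simp only [Function.comp]
      ring)
    ((((((hd2 _).comp _ (hL _ hs2)).sub ((hd1 _).comp _ (hL _ hs2))).mul (hE _ hs2)).mul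
      (hasDerivAt_inv hs2.ne')).div_const 2)
  rw [key]
  simp only [Function.comp, Pi.mul_apply, Pi.sub_apply, hlog, hexp x hx]
  field_simp
  ring

theorem radial_weak {R l m : ℝ} (hR : 0 < R) {u : D} (su : DSol (ball 0 R) l m u) {f : ℝ → ℝ}
    (hf : ∀ᵐ x : E4, val u x = f ‖x‖) {η : ℝ → ℝ} (hη : ContDiff ℝ ∞ η)
    (hc : HasCompactSupport η) (hs : tsupport η ⊆ Set.Iio (Real.log R)) :
    ∫ t, Real.exp t * f (Real.exp t) * (deriv (deriv η) t - η t) =
      ∫ t, (l * Real.exp t ^ 2 * (Real.exp t * f (Real.exp t)) -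
        m * (Real.exp t * f (Real.exp t)) ^ 3) * η t := by
  obtain ⟨Φ, hΦs, hΦ, hΔ⟩ := radial_tst hR hη hc hs
  obtain ⟨c, hc0, hpol⟩ := polar_int
  have h := su (ofT Φ) (ofT_mem_H0 hΦs)
  -- the right-hand side
  have hR' : ∫ x in ball (0 : E4) R, (-l * val u x + m * val u x ^ 3) * val (ofT Φ) x =
      -(c * ∫ t, (l * Real.exp t ^ 2 * (Real.exp t * f (Real.exp t)) -
        m * (Real.exp t * f (Real.exp t)) ^ 3) * η t) := by
    rw [setIntegral_eq_integral_of_ae_compl_eq_zero]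
    · have e : ∫ x : E4, (-l * val u x + m * val u x ^ 3) * val (ofT Φ) x =
          ∫ x : E4, (fun r => (-l * f r + m * f r ^ 3) * (η (Real.log r) / r)) ‖x‖ := by
        refine integral_congr_ae ?_
        filter_upwards [hf, val_ofT Φ] with x h1 h2
        rw [h1, h2, hΦ]
      rw [e, hpol fun r => (-l * f r + m * f r ^ 3) * (η (Real.log r) / r), ← mul_neg,
        ← integral_neg]
      congr 2
      funext t
      rw [Real.log_exp]
      have := (Real.exp_pos t).ne'
      field_simp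
      ring
    · filter_upwards [val_ofT Φ] with x h2 hx
      rw [h2, image_eq_zero_of_notMem_tsupport fun h => hx (hΦs h), mul_zero]
  -- the left-hand side
  let P : Fin 4 → Tst := fun i =>
    ⟨fun y => fderiv ℝ (Φ : E4 → ℝ) y (EuclideanSpace.single i 1),
      (Φ.2.1.fderiv_right (by simp)).clm_apply contDiff_const, Φ.2.2.fderiv_apply ℝ _⟩
  have hP : ∀ i y, (P i : E4 → ℝ) y = fderiv ℝ (Φ : E4 → ℝ) y (EuclideanSpace.single i 1) :=
    fun _ _ => rfl
  have hL : ⟪u, ofT Φ⟫ =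
      -(c * ∫ t, Real.exp t * f (Real.exp t) * (deriv (deriv η) t - η t)) := by
    have e1 : ⟪u, ofT Φ⟫ =
        ∫ x, ∑ i : Fin 4, ⟪grd u x, EuclideanSpace.single i 1⟫ * (P i : E4 → ℝ) x := by
      rw [inner_D]
      refine integral_congr_ae ?_
      filter_upwards [grd_ofT Φ] with x hx
      rw [hx]
      simp only [hP, ← inner_gradient, PiLp.inner_apply]
      simp [mul_comm]
    have i1 : ∀ i : Fin 4, Integrable fun x =>
        ⟪grd u x, EuclideanSpace.single i 1⟫ * (P i : E4 → ℝ) x := fun i =>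
      ((grd_memLp u).inner_const (EuclideanSpace.single i 1)).integrable_mul (tst_memLp (P i) 2)
    have i2 : ∀ i : Fin 4, Integrable fun x =>
        val u x * fderiv ℝ (P i : E4 → ℝ) x (EuclideanSpace.single i 1) := fun i =>
      ((Lp.memLp (val u)).locallyIntegrable (by norm_num)).integrable_smul_right_of_hasCompactSupport
        (SpaceC_fderiv_cont (P i) _) ((P i).2.2.fderiv_apply ℝ _)
    have e2 : ∑ i : Fin 4, ∫ x, ⟪grd u x, EuclideanSpace.single i 1⟫ * (P i : E4 → ℝ) x =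
        -∑ i : Fin 4, ∫ x, val u x * fderiv ℝ (P i : E4 → ℝ) x (EuclideanSpace.single i 1) := by
      rw [← Finset.sum_neg_distrib]
      refine Finset.sum_congr rfl fun i _ => ?_
      rw [ibp, neg_neg]
    have e3 : ∫ x, ∑ i : Fin 4, val u x * fderiv ℝ (P i : E4 → ℝ) x (EuclideanSpace.single i 1) =
        ∫ x : E4, (fun r => f r * ((deriv (deriv η) (Real.log r) - η (Real.log r)) / r ^ 3)) ‖x‖ := by
      refine integral_congr_ae ?_
      filter_upwards [hf] with x h1
      rw [← Finset.mul_sum, h1, ← hΔ x]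
    rw [e1, integral_finsetSum _ fun i _ => i1 i, e2, ← integral_finsetSum _ fun i _ => i2 i, e3,
      hpol fun r => f r * ((deriv (deriv η) (Real.log r) - η (Real.log r)) / r ^ 3)]
    congr 3
    funext t
    rw [Real.log_exp]
    have := (Real.exp_pos t).ne'
    field_simp
  rw [hR', hL] at h
  exact mul_left_cancel₀ hc0.ne' (neg_injective h)

end CritSys
end
end

-- merged part: Pool.Agent.Work.MP_80ee1d_an.Reg1
section
/-!
One-dimensional regularity: distributional solutions of `y'' = k`.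

PLAN. `affine_of_weak`: fix a test function `χ₀` supported in `Iio T` with `∫ χ₀ = 1`
(`ContDiffBump.normed`), `a = ∫ t χ₀ t`, `χ₁ = -χ₀'` (`∫ χ₁ = 0`, `∫ t χ₁ t = 1` by parts).  For a test
function `χ` with `A = ∫ χ`, `B = ∫ t χ t`, the function `ζ = χ - A χ₀ - (B - A a) χ₁` has vanishing
moments of order `0` and `1`.  `primitive_tst`: a test function supported in `Iio T` with integral
zero has a primitive that is a test function supported in `Iio T` (`t ↦ ∫ s in b..t, ζ s` with `b`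
below the support).  Apply it twice (the primitive `ζ₁` has `∫ ζ₁ = -∫ t ζ t = 0`), so `ζ = η''` and
`∫ h χ = ∫ (c₁ + c₂ t) χ t`.  Conclude with `IsOpen.ae_eq_zero_of_integral_contDiff_smul_eq_zero`.
`reg_weak`: `K t = ∫ s in t₀..t, k s` is continuous on `Iio T`, `Y₀ t = ∫ s in t₀..t, K s` has
derivative `K`; `∫ Y₀ η'' = -∫ K η' = ∫ k η` (first by parts, second by Fubini on a compact interval
`[a, b] ⊆ Iio T` containing `t₀` and the support, writing `η' ` as the derivative of `η`; or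
`AbsolutelyContinuousOnInterval` integration by parts).  Apply `affine_of_weak` to `y - Y₀`.
-/

open MeasureTheory Filter Topology Set
open scoped ContDiff

noncomputable section
namespace CritSys

/-- Test functions on the half line `(-∞, T)`. -/
def Tst1 (T : ℝ) (η : ℝ → ℝ) : Prop :=
  ContDiff ℝ ∞ η ∧ HasCompactSupport η ∧ tsupport η ⊆ Iio T

theorem Reg1_box {T t₀ : ℝ} (ht : t₀ < T) {K : Set ℝ} (hK : IsCompact K) (h : K ⊆ Iio T) :
    ∃ a b, b < T ∧ t₀ ∈ Ioo a b ∧ K ⊆ Ioo a b := by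
  obtain ⟨m, -, hm⟩ := (hK.insert t₀).exists_isLeast (insert_nonempty _ _)
  obtain ⟨M, hM, hM'⟩ := (hK.insert t₀).exists_isGreatest (insert_nonempty _ _)
  have hT : M < T := insert_subset (show t₀ ∈ Iio T from ht) h hM
  have : insert t₀ K ⊆ Ioo (m - 1) ((M + T) / 2) := fun x hx =>
    ⟨by linarith [hm hx], by linarith only [hT, hM', hx, hM' hx]⟩
  exact ⟨_, _, by linarith, this (mem_insert _ _), (subset_insert _ _).trans this⟩

theorem Reg1_deriv {T : ℝ} {η : ℝ → ℝ} (h : Tst1 T η) : Tst1 T (deriv η) :=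
  ⟨(contDiff_infty_iff_deriv.1 h.1).2, h.2.1.deriv, tsupport_deriv_subset.trans h.2.2⟩

theorem Reg1_sub {T : ℝ} {η χ : ℝ → ℝ} (h : Tst1 T η) (h' : Tst1 T χ) (a : ℝ) :
    Tst1 T fun t => η t - a * χ t := by
  have : tsupport (fun t => η t - a * χ t) ⊆ tsupport η ∪ tsupport χ :=
    closure_minimal (fun t ht => by
      by_contra hn
      rw [mem_union, not_or] at hn
      exact ht (by simp [image_eq_zero_of_notMem_tsupport hn.1,
        image_eq_zero_of_notMem_tsupport hn.2])) ((isClosed_tsupport _).union (isClosed_tsupport _))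
  exact ⟨h.1.sub (contDiff_const.mul h'.1),
    (h.2.1.isCompact.union h'.2.1.isCompact).of_isClosed_subset (isClosed_tsupport _) this,
    this.trans (union_subset h.2.2 h'.2.2)⟩

theorem Reg1_int {T : ℝ} {h η : ℝ → ℝ} (hi : LocallyIntegrableOn h (Iio T)) (hη : Tst1 T η) :
    Integrable fun t => h t * η t :=
  (integrableOn_iff_integrable_of_support_subset
    ((Function.support_mul_subset_right h η).trans (subset_tsupport η))).1
    ((hi.integrableOn_compact_subset hη.2.2 hη.2.1).mul_continuousOn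
      hη.1.continuous.continuousOn hη.2.1)

theorem Reg1_int1 {T : ℝ} {η : ℝ → ℝ} (hη : Tst1 T η) : Integrable η :=
  hη.1.continuous.integrable_of_hasCompactSupport hη.2.1

theorem Reg1_ii {T a b : ℝ} {k : ℝ → ℝ} (hk : LocallyIntegrableOn k (Iio T)) (ha : a < T)
    (hb : b < T) : IntervalIntegrable k volume a b :=
  (hk.integrableOn_compact_subset (fun _ hx => hx.2.trans_lt (max_lt ha hb))
    isCompact_uIcc).intervalIntegrable

theorem Reg1_cont {T t₀ : ℝ} (ht : t₀ < T) {k : ℝ → ℝ} (hk : LocallyIntegrableOn k (Iio T)) :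
    ContinuousOn (fun t => ∫ s in t₀..t, k s) (Iio T) := fun t ht' => by
  obtain ⟨a, b, hb, h0, h1⟩ := Reg1_box ht isCompact_singleton (singleton_subset_iff.2 ht')
  have hab := h0.1.trans h0.2
  have := intervalIntegral.continuousOn_primitive_interval' (Reg1_ii hk (hab.trans hb) hb)
    (a := t₀) (uIcc_of_le hab.le ▸ Ioo_subset_Icc_self h0)
  rw [uIcc_of_le hab.le] at this
  exact (this.continuousAt (Icc_mem_nhds (h1 rfl).1 (h1 rfl).2)).continuousWithinAt

theorem Reg1_parts {T t₀ : ℝ} (ht : t₀ < T) {k η : ℝ → ℝ} (hk : LocallyIntegrableOn k (Iio T))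
    (hη : Tst1 T η) : ∫ t, (∫ s in t₀..t, k s) * deriv η t = -∫ t, k t * η t := by
  obtain ⟨a, b, hb, h0, h1⟩ := Reg1_box ht hη.2.1 hη.2.2
  have hab := h0.1.trans h0.2
  have hi := Reg1_ii hk (hab.trans hb) hb
  have h0' : t₀ ∈ uIcc a b := uIcc_of_le hab.le ▸ Ioo_subset_Icc_self h0
  have key := (hi.absolutelyContinuousOnInterval_intervalIntegral h0').integral_mul_deriv_eq_deriv_mul
    ((hη.1.of_le (by simp)).contDiffOn.absolutelyContinuousOnInterval)
  rw [image_eq_zero_of_notMem_tsupport fun h => (h1 h).2.false,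
    image_eq_zero_of_notMem_tsupport fun h => (h1 h).1.false, mul_zero, mul_zero, sub_zero,
    zero_sub] at key
  have s1 : ∀ f : ℝ → ℝ, Function.support (fun t => f t * deriv η t) ⊆ Ioc a b := fun f =>
    (Function.support_mul_subset_right _ _).trans (support_deriv_subset.trans
      (h1.trans Ioo_subset_Ioc_self))
  have s2 : Function.support (fun t => k t * η t) ⊆ Ioc a b :=
    (Function.support_mul_subset_right _ _).trans ((subset_tsupport η).trans
      (h1.trans Ioo_subset_Ioc_self))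
  rw [← intervalIntegral.integral_eq_integral_of_support_subset (s1 _), key,
    ← intervalIntegral.integral_eq_integral_of_support_subset s2]
  refine congrArg _ (intervalIntegral.integral_congr_ae ?_)
  filter_upwards [hi.ae_hasDerivAt_integral] with x hx hx'
  rw [(hx (uIoc_subset_uIcc hx') t₀ h0').deriv]

theorem primitive_tst {T : ℝ} {ζ : ℝ → ℝ} (h : Tst1 T ζ) (h0 : ∫ t, ζ t = 0) :
    ∃ η, Tst1 T η ∧ deriv η = ζ := by
  obtain ⟨a, b, hb, -, h1⟩ := Reg1_box (sub_one_lt T) h.2.1 h.2.2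
  have hd : ∀ t, HasDerivAt (fun t => ∫ s in a..t, ζ s) (ζ t) t := fun t =>
    (h.1.continuous.integral_hasStrictDerivAt a t).hasDerivAt
  have e : deriv (fun t => ∫ s in a..t, ζ s) = ζ := funext fun t => (hd t).deriv
  have hz : ∀ t, t ∉ Icc a b → ∫ s in a..t, ζ s = 0 := fun t ht => by
    rcases lt_or_ge t a with h2 | h2
    · rw [intervalIntegral.integral_congr (g := fun _ => 0), intervalIntegral.integral_zero]
      intro s hs
      rw [uIcc_of_ge h2.le] at hs
      exact image_eq_zero_of_notMem_tsupport fun h => (h1 h).1.not_ge hs.2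
    · rw [intervalIntegral.integral_eq_integral_of_support_subset, h0]
      exact fun s hs => ⟨(h1 (subset_tsupport ζ hs)).1,
        (h1 (subset_tsupport ζ hs)).2.le.trans (not_le.1 fun h => ht ⟨h2, h⟩).le⟩
  refine ⟨_, ⟨contDiff_infty_iff_deriv.2 ⟨fun t => (hd t).differentiableAt, e.symm ▸ h.1⟩,
    HasCompactSupport.intro isCompact_Icc hz, ?_⟩, e⟩
  exact (closure_minimal (Function.support_subset_iff'.2 hz) isClosed_Icc).trans
    fun t ht => ht.2.trans_lt hb

theorem Reg1_step {T : ℝ} (Λ : (ℝ → ℝ) → ℝ)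
    (hl : ∀ η χ a, Tst1 T η → Tst1 T χ → Λ (fun t => η t - a * χ t) = Λ η - a * Λ χ)
    (h0 : ∀ η, Tst1 T η → Λ (deriv η) = 0) : ∃ c, ∀ η, Tst1 T η → Λ η = c * ∫ t, η t := by
  let φ : ContDiffBump (T - 2) := ⟨1 / 2, 1, by norm_num, by norm_num⟩
  have hφ : Tst1 T (φ.normed volume) := ⟨φ.contDiff_normed, φ.hasCompactSupport_normed, by
    rw [φ.tsupport_normed_eq, Real.closedBall_eq_Icc]
    exact fun t ht => ht.2.trans_lt (show T - 2 + 1 < T by linarith)⟩
  refine ⟨Λ (φ.normed volume), fun η hη => ?_⟩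
  obtain ⟨ξ, hξ, e⟩ := primitive_tst (Reg1_sub hη hφ (∫ t, η t)) (by
    rw [integral_sub (Reg1_int1 hη) ((Reg1_int1 hφ).const_mul _), integral_const_mul,
      φ.integral_normed, mul_one, sub_self])
  have := h0 ξ hξ
  rw [e, hl _ _ _ hη hφ] at this
  linarith

theorem Reg1_lin {T : ℝ} {h η χ : ℝ → ℝ} (hi : LocallyIntegrableOn h (Iio T)) (hη : Tst1 T η)
    (hχ : Tst1 T χ) (a : ℝ) :
    ∫ t, h t * (η t - a * χ t) = (∫ t, h t * η t) - a * ∫ t, h t * χ t := by
  rw [← integral_const_mul, ← integral_sub (Reg1_int hi hη) ((Reg1_int hi hχ).const_mul a)]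
  congr 1
  funext t
  ring

theorem Reg1_loc {T : ℝ} {f : ℝ → ℝ} (hf : Continuous f) : LocallyIntegrableOn f (Iio T) :=
  hf.locallyIntegrable.locallyIntegrableOn _

theorem Reg1_const {T : ℝ} {h : ℝ → ℝ} (hi : LocallyIntegrableOn h (Iio T))
    (hw : ∀ η, Tst1 T η → ∫ t, h t * deriv η t = 0) : ∃ c : ℝ, ∀ᵐ t, t < T → h t = c := by
  obtain ⟨c, hc⟩ := Reg1_step (fun η => ∫ t, h t * η t)
    (fun η χ a hη hχ => Reg1_lin hi hη hχ a) hw
  refine ⟨c, (isOpen_Iio.ae_eq_zero_of_integral_contDiff_smul_eq_zero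
    (hi.sub (Reg1_loc (f := fun _ => c) continuous_const)) fun g g1 g2 g3 => ?_).mono
    fun t h ht => sub_eq_zero.1 (h ht)⟩
  have hg : Tst1 T g := ⟨g1, g2, g3⟩
  rw [← sub_eq_zero.2 (hc g hg), ← integral_const_mul,
    ← integral_sub (Reg1_int hi hg) ((Reg1_int1 hg).const_mul c)]
  congr 1
  funext t
  simp only [Pi.sub_apply, smul_eq_mul]
  ring

theorem affine_of_weak {T : ℝ} {h : ℝ → ℝ} (hi : LocallyIntegrableOn h (Iio T))
    (hw : ∀ η, Tst1 T η → ∫ t, h t * deriv (deriv η) t = 0) :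
    ∃ c₁ c₂ : ℝ, ∀ᵐ t, t < T → h t = c₁ + c₂ * t := by
  obtain ⟨c, hc⟩ := Reg1_step (fun η => ∫ t, h t * deriv η t) (fun η χ a hη hχ => by
    rw [← Reg1_lin hi (Reg1_deriv hη) (Reg1_deriv hχ)]
    congr 1
    funext t
    rw [(((hη.1.differentiable (by simp)) t).hasDerivAt.fun_sub
      (((hχ.1.differentiable (by simp)) t).hasDerivAt.const_mul a)).deriv]) hw
  obtain ⟨c', hc'⟩ := Reg1_const (h := fun t => h t + c * t)
    (hi.add (Reg1_loc (f := fun t => c * t) (by fun_prop))) fun η hη => by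
      have i1 := Reg1_int (Reg1_loc continuous_id) (Reg1_deriv hη)
      have e := integral_mul_deriv_eq_deriv_mul_of_integrable (u := id) (u' := fun _ => 1) (v := η)
        (v' := deriv η) (fun t _ => hasDerivAt_id t)
        (fun t _ => ((hη.1.differentiable (by simp)) t).hasDerivAt) i1
        (Reg1_int (Reg1_loc continuous_const) hη) (Reg1_int (Reg1_loc continuous_id) hη)
      simp only [id, one_mul] at e i1
      simp only [add_mul, mul_assoc]
      rw [integral_add (Reg1_int hi (Reg1_deriv hη)) (i1.const_mul c), integral_const_mul, e,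
        hc η hη]
      ring
  exact ⟨c', -c, hc'.mono fun t h ht => by linarith [h ht]⟩

theorem reg_weak {T t₀ : ℝ} (ht : t₀ < T) {y k : ℝ → ℝ} (hy : LocallyIntegrableOn y (Iio T))
    (hk : LocallyIntegrableOn k (Iio T))
    (hw : ∀ η, Tst1 T η → ∫ t, y t * deriv (deriv η) t = ∫ t, k t * η t) :
    ∃ (Y : ℝ → ℝ) (c : ℝ), (∀ᵐ t, t < T → y t = Y t) ∧
      ∀ t < T, HasDerivAt Y (c + ∫ s in t₀..t, k s) t := by
  have hK := Reg1_cont ht hk
  have hK' := hK.locallyIntegrableOn (μ := volume) measurableSet_Iio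
  have hY := (Reg1_cont ht hK').locallyIntegrableOn (μ := volume) measurableSet_Iio
  obtain ⟨c₁, c₂, h⟩ := affine_of_weak (h := fun t => y t - ∫ r in t₀..t, ∫ s in t₀..r, k s)
    (hy.sub hY) fun η hη => by
      have h2 := Reg1_deriv (Reg1_deriv hη)
      simp only [sub_mul]
      rw [integral_sub (Reg1_int hy h2) (Reg1_int hY h2), hw η hη,
        Reg1_parts ht hK' (Reg1_deriv hη), Reg1_parts ht hk hη, neg_neg, sub_self]
  refine ⟨fun t => c₁ + c₂ * t + ∫ r in t₀..t, ∫ s in t₀..r, k s, c₂,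
    h.mono fun t h ht => by linarith [h ht], fun t ht' => ?_⟩
  refine HasDerivAt.fun_add ?_ (intervalIntegral.integral_hasDerivAt_right (Reg1_ii hK' ht ht')
    (hK.stronglyMeasurableAtFilter isOpen_Iio t ht') (hK.continuousAt (Iio_mem_nhds ht')))
  simpa using ((hasDerivAt_id t).const_mul c₂).const_add c₁

end CritSys
end
end

-- merged part: Pool.Agent.Work.MP_80ee1d_an.Reg2
section
/-!
Uniqueness of positive solutions on a ball that are fixed by all polarizations.

PLAN. `exists_EF`: `T = log R`, `g t = f (exp t)` is antitone on `ℝ`, hence measurable and locally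
bounded; `y = exp * g`, `k = y + l exp² y - m y³` are locally integrable.  `radial_weak` and
`reg_weak` (`t₀ = T - 1`) give `Y` with `y = Y` a.e. on `Iio T` and derivative
`Z t = c + ∫ s in t₀..t, k s`.  `Y` is continuous on `Iio T`, `k = Y + l exp² Y - m Y³` a.e. there, so
the interval integral may be rewritten (`intervalIntegral.integral_congr_ae`) and differentiated
(`intervalIntegral.integral_hasDerivAt_right`).  `G t = Y t / exp t` is continuous on `Iio T` and
equals `g` a.e.; for `s < t < T` pick good points near `s` and `t` (full measure sets are dense) to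
see that `G` is antitone on `Iio T`, and `G t ≥ g t' > 0` for a good `t' ∈ (t, T)` (`polar_ae`).
`int`: `polar_integrable` with `g = f⁴`.  `bdry`: `G` is antitone and positive, so it tends to its
infimum `L ≥ 0` at `T-`; `L > 0` contradicts `no_lower_bound` (`polar_ae`).
`ball_unique`: `radial_of_pol`, `exists_EF`, `EF_unique`; `val u = val z` a.e. in the ball by
`polar_ae`, both vanish outside (`H0_zero_outside`); `val_inj`.
-/

open MeasureTheory Filter Topology Metric
open scoped ContDiff RealInnerProductSpace ENNReal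

noncomputable section
namespace CritSys

theorem Reg2_pick {p : ℝ → Prop} (hp : ∀ᵐ t, p t) {q : ℝ → Prop} {t : ℝ} (hq : ∀ᶠ s in 𝓝 t, q s) :
    ∃ r, q r ∧ p r :=
  (Measure.dense_of_ae hp).inter_nhds_nonempty hq |>.imp fun _ h => ⟨h.2, h.1⟩

theorem Reg2_low {T : ℝ} {g Y : ℝ → ℝ} (hg : Antitone g)
    (h : ∀ᵐ t : ℝ, t < T → Real.exp t * g t = Y t) {t s : ℝ} (ht : t < T) (hY : ContinuousAt Y t)
    (hs : t < s) : Real.exp t * g s ≤ Y t := by
  by_contra hn
  obtain ⟨r, ⟨h1, h2, h3⟩, h4⟩ := Reg2_pick h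
    ((hY.eventually_lt (Real.continuous_exp.continuousAt.mul_const (g s)) (not_le.1 hn)).and
      ((gt_mem_nhds ht).and (gt_mem_nhds hs)))
  rw [← h4 h2] at h1
  exact absurd (lt_of_mul_lt_mul_left h1 (Real.exp_pos r).le) (not_lt.2 (hg h3.le))

theorem Reg2_up {T : ℝ} {g Y : ℝ → ℝ} (hg : Antitone g)
    (h : ∀ᵐ t : ℝ, t < T → Real.exp t * g t = Y t) {t s : ℝ} (ht : t < T) (hY : ContinuousAt Y t)
    (hs : s < t) : Y t ≤ Real.exp t * g s := by
  by_contra hn
  obtain ⟨r, ⟨h1, h2, h3⟩, h4⟩ := Reg2_pick h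
    (((Real.continuous_exp.continuousAt.mul_const (g s)).eventually_lt hY (not_le.1 hn)).and
      ((gt_mem_nhds ht).and (lt_mem_nhds hs)))
  rw [← h4 h2] at h1
  exact absurd (lt_of_mul_lt_mul_left h1 (Real.exp_pos r).le) (not_lt.2 (hg h3.le))

theorem Reg2_ode {T l m : ℝ} {g : ℝ → ℝ} (hg : Antitone g) (h0 : ∀ s, 0 ≤ g s)
    (hw : ∀ η, Tst1 T η → ∫ t, Real.exp t * g t * (deriv (deriv η) t - η t) =
      ∫ t, (l * Real.exp t ^ 2 * (Real.exp t * g t) - m * (Real.exp t * g t) ^ 3) * η t) :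
    ∃ Y Z : ℝ → ℝ, (∀ᵐ t : ℝ, t < T → Real.exp t * g t = Y t) ∧ (∀ t < T, HasDerivAt Y (Z t) t) ∧
      ∀ t < T, HasDerivAt Z (Y t + l * Real.exp t ^ 2 * Y t - m * Y t ^ 3) t := by
  have hg3 : Antitone fun t => g t ^ 3 := fun s t h => pow_le_pow_left₀ (h0 t) (hg h) 3
  have lc : IsLocallyClosed (Set.Iio T) := isOpen_Iio.isLocallyClosed
  have i1 : LocallyIntegrableOn g (Set.Iio T) := hg.locallyIntegrable.locallyIntegrableOn _
  have i3 : LocallyIntegrableOn (fun t => g t ^ 3) (Set.Iio T) :=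
    hg3.locallyIntegrable.locallyIntegrableOn _
  have hy : LocallyIntegrableOn (fun t => Real.exp t * g t) (Set.Iio T) :=
    i1.continuousOn_mul Real.continuous_exp.continuousOn lc
  have hk' : LocallyIntegrableOn (fun t => l * Real.exp t ^ 2 * (Real.exp t * g t) -
      m * (Real.exp t * g t) ^ 3) (Set.Iio T) := by
    have k := (hy.continuousOn_mul (g := fun t => l * Real.exp t ^ 2) (by fun_prop) lc).sub
      (i3.continuousOn_mul (g := fun t => m * Real.exp t ^ 3) (by fun_prop) lc)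
    convert k using 1
    funext t
    simp only [Pi.sub_apply]
    ring
  have ht0 : T - 1 < T := sub_one_lt T
  obtain ⟨Y, c, h1, h2⟩ := reg_weak ht0 hy (hy.add hk') fun η hη => by
    have e1 := Reg1_lin hy (Reg1_deriv (Reg1_deriv hη)) hη 1
    have e2 := integral_add (Reg1_int hy hη) (Reg1_int hk' hη)
    simp only [one_mul] at e1
    simp only [Pi.add_apply, add_mul]
    rw [e2, ← hw η hη, e1]
    ring
  refine ⟨Y, _, h1, h2, fun t ht => ?_⟩
  have cY : ContinuousOn Y (Set.Iio T) := fun s hs => (h2 s hs).continuousAt.continuousWithinAt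
  have cK : ContinuousOn (fun t => Y t + l * Real.exp t ^ 2 * Y t - m * Y t ^ 3) (Set.Iio T) := by
    fun_prop
  have h3 := (intervalIntegral.integral_hasDerivAt_right
    (Reg1_ii (cK.locallyIntegrableOn measurableSet_Iio) ht0 ht)
    (cK.stronglyMeasurableAtFilter isOpen_Iio t ht)
    (cK.continuousAt (Iio_mem_nhds ht))).const_add c
  refine h3.congr_of_eventuallyEq ?_
  filter_upwards [gt_mem_nhds ht] with s hs
  congr 1
  refine intervalIntegral.integral_congr_ae ?_
  filter_upwards [h1] with r hr hr'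
  simp only [Pi.add_apply]
  rw [hr (hr'.2.trans_lt (max_lt ht0 hs))]
  ring

theorem exists_EF {R l m : ℝ} (hR : 0 < R) {u : D} (hu : u ∈ H0 (ball 0 R))
    (su : DSol (ball 0 R) l m u) (hp : ∀ᵐ x, x ∈ ball (0 : E4) R → 0 < val u x) {f : ℝ → ℝ}
    (ha : AntitoneOn f (Set.Ioi 0)) (h0 : ∀ s, 0 ≤ f s) (hf : ∀ᵐ x : E4, val u x = f ‖x‖) :
    ∃ Y Z : ℝ → ℝ, EF (Real.log R) l m Y Z ∧
      ∀ᵐ t : ℝ, t < Real.log R → Real.exp t * f (Real.exp t) = Y t := by
  have hg : Antitone fun t => f (Real.exp t) := fun s t h =>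
    ha (Real.exp_pos s) (Real.exp_pos t) (Real.exp_le_exp.2 h)
  obtain ⟨Y, Z, h1, h2, h3⟩ := Reg2_ode (T := Real.log R) (l := l) (m := m) hg (fun s => h0 _)
    fun η hη => radial_weak hR su hf hη.1 hη.2.1 hη.2.2
  have hpos : ∀ t < Real.log R, 0 < Y t := fun t ht => by
    have k1 : ∀ᵐ t : ℝ, Real.exp t < R → 0 < f (Real.exp t) :=
      (polar_ae (p := fun r => r < R → 0 < f r)).1 (by
        filter_upwards [hp, hf] with x hx1 hx2 hx3
        rw [← hx2]
        exact hx1 (mem_ball_zero_iff.2 hx3))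
    obtain ⟨r, k2, k3⟩ := exists_between ht
    obtain ⟨s, ⟨k4, k5⟩, k6⟩ := Reg2_pick k1 ((lt_mem_nhds k2).and (gt_mem_nhds k3))
    exact (mul_pos (Real.exp_pos t) (k6 ((Real.lt_log_iff_exp_lt hR).1 k5))).trans_le
      (Reg2_low hg h1 ht (h2 t ht).continuousAt k4)
  refine ⟨Y, Z, ⟨h2, h3, hpos, ?_, ?_⟩, h1⟩
  · have k1 : Integrable fun x : E4 => f ‖x‖ ^ 4 :=
      (T4_integrable (val u) (val u) (val u) (val u)).congr (by
        filter_upwards [hf] with x hx
        rw [hx]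
        ring)
    refine (polar_integrable (g := fun r => f r ^ 4) k1).integrableOn.congr
      ((ae_restrict_iff' measurableSet_Iio).2 ?_)
    filter_upwards [h1] with t ht ht'
    rw [← ht ht', mul_pow]
  · refine tendsto_order.2 ⟨fun a ha => ?_, fun a ha => ?_⟩
    · filter_upwards [self_mem_nhdsWithin] with t ht
      exact ha.trans (hpos t ht)
    obtain ⟨s, k1, k2⟩ : ∃ s < Real.log R, f (Real.exp s) < a / R := by
      by_contra hn
      push Not at hn
      refine no_lower_bound isOpen_ball (nonempty_ball.2 hR) hu (div_pos ha hR) ?_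
      filter_upwards [hf, (polar_ae (p := fun r => r < R → a / R ≤ f r)).2
        (ae_of_all _ fun t ht => hn t ((Real.lt_log_iff_exp_lt hR).2 ht))] with x hx1 hx2 hx3
      rw [hx1]
      exact hx2 (mem_ball_zero_iff.1 hx3)
    filter_upwards [Ioo_mem_nhdsLT k1] with t ht
    have k3 := Reg2_up hg h1 ht.2 (h2 t ht.2).continuousAt ht.1
    have k4 := mul_le_mul_of_nonneg_right ((Real.lt_log_iff_exp_lt hR).1 ht.2).le (h0 (Real.exp s))
    rw [lt_div_iff₀' hR] at k2
    exact (k3.trans k4).trans_lt k2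

theorem Reg2_nonneg {Ω : Set E4} {u : D} (hu : u ∈ H0 Ω) (pu : ∀ᵐ x, x ∈ Ω → 0 < val u x) :
    0 ≤ val u := by
  refine (Lp.coeFn_nonneg _).1 ?_
  filter_upwards [pu, H0_zero_outside hu] with x h1 h2
  by_cases hx : x ∈ Ω
  · exact (h1 hx).le
  · exact (h2 hx).1.ge

theorem ball_unique {R l m : ℝ} (hR : 0 < R) (hl : l < 0) (hm : 0 < m) {u z : D}
    (hu : u ∈ H0 (ball 0 R)) (su : DSol (ball 0 R) l m u)
    (pu : ∀ᵐ x, x ∈ ball (0 : E4) R → 0 < val u x) (fu : ∀ h : Hs, h.polL (val u) = val u)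
    (hz : z ∈ H0 (ball 0 R)) (sz : DSol (ball 0 R) l m z)
    (pz : ∀ᵐ x, x ∈ ball (0 : E4) R → 0 < val z x) (fz : ∀ h : Hs, h.polL (val z) = val z) :
    u = z := by
  obtain ⟨f, a1, a2, a3⟩ := radial_of_pol (Reg2_nonneg hu pu) fu
  obtain ⟨g, b1, b2, b3⟩ := radial_of_pol (Reg2_nonneg hz pz) fz
  obtain ⟨Y, Z, e1, e2⟩ := exists_EF hR hu su pu a1 a2 a3
  obtain ⟨Y', Z', e3, e4⟩ := exists_EF hR hz sz pz b1 b2 b3
  have h1 : ∀ᵐ x : E4, ‖x‖ < R → f ‖x‖ = g ‖x‖ :=
    (polar_ae (p := fun r => r < R → f r = g r)).2 (by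
      filter_upwards [e2, e4] with t k1 k2 ht
      have ht' := (Real.lt_log_iff_exp_lt hR).2 ht
      exact mul_left_cancel₀ (Real.exp_pos t).ne'
        ((k1 ht').trans ((EF_unique e1 e3 hl hm ht').trans (k2 ht').symm)))
  have h2 : val u = val z := by
    refine Lp.ext ?_
    filter_upwards [h1, a3, b3, H0_zero_outside hu, H0_zero_outside hz] with x k1 k2 k3 k4 k5
    by_cases hx : x ∈ ball (0 : E4) R
    · rw [k2, k3, k1 (mem_ball_zero_iff.1 hx)]
    · rw [(k4 hx).1, (k5 hx).1]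
  exact sub_eq_zero.1 (val_inj (by rw [map_sub, h2, sub_self]))

end CritSys
end
end

-- merged part: Pool.Agent.Work.MP_80ee1d_an.Ball
section
/-!
The lower range on a ball.

PLAN. Translate between `K d` and `D` with `valK_ae`, `H0_zero_outside`, `incl_mem`, `mkK`.
`K_val_nonneg`: a.e. on `Ω` from `valK_ae`, outside it vanishes.  `K_T`: integrals over `Ω` of
products of `valK` are integrals over the whole space.  `K_M`: the same, with integrability from
`T4_integrable`.  `K_dsol`: unfold `Sol1`, `B`, `M`, `T`, `integral_add`.  The fields of `ballPolar`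
then follow from `pol_H0`, `Hs.integral_pol` (`Φ = (· ^ 2)`, `(· ^ 4)`), `Hs.T4_pol`, `pol_fix`,
`ball_unique`.
-/

open MeasureTheory Filter Topology Metric
open scoped ContDiff RealInnerProductSpace ENNReal

noncomputable section
namespace CritSys

variable {d : Dom}

theorem Ball_ae (u : K d) : ∀ᵐ x, (x ∈ d.Ω → valK d u x = val (incl d u) x) ∧
    (x ∉ d.Ω → val (incl d u) x = 0) := by
  filter_upwards [(ae_restrict_iff' d.isOpen.measurableSet).1 (valK_ae d u),
    H0_zero_outside (incl_mem d u)] with x h1 h2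
  exact ⟨h1, fun h => (h2 h).1⟩

theorem K_val_nonneg {u : K d} (h : 0 ≤ (ctx d).val u) : 0 ≤ val (incl d u) := by
  have h1 : ∀ᵐ x ∂d.μ, 0 ≤ valK d u x := (Lp.coeFn_nonneg (valK d u)).2 h
  refine (Lp.coeFn_nonneg _).1 ?_
  filter_upwards [(ae_restrict_iff' d.isOpen.measurableSet).1 h1, Ball_ae u] with x k1 k2
  by_cases hx : x ∈ d.Ω
  · exact (k1 hx).trans_eq (k2.1 hx)
  · exact (k2.2 hx).ge

theorem K_T (a b c e : K d) : (ctx d).T a b c e =
    T4 (val (incl d a)) (val (incl d b)) (val (incl d c)) (val (incl d e)) := by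
  change T4 (valK d a) (valK d b) (valK d c) (valK d e) = _
  unfold T4
  rw [← setIntegral_eq_integral_of_ae_compl_eq_zero (s := d.Ω) (μ := volume)]
  · refine integral_congr_ae ?_
    filter_upwards [valK_ae d a, valK_ae d b, valK_ae d c, valK_ae d e] with x h1 h2 h3 h4
    rw [h1, h2, h3, h4]
  · filter_upwards [Ball_ae e] with x h1 hx
    rw [h1.2 hx, mul_zero]

theorem K_M (u : K d) : Integrable (fun x => val (incl d u) x ^ 2) ∧
    (ctx d).M u u = ∫ x, val (incl d u) x ^ 2 := by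
  have h1 : ∀ᵐ x ∂d.μ, oneL d.μ x * oneL d.μ x * valK d u x * valK d u x =
      val (incl d u) x ^ 2 := by
    filter_upwards [oneL_ae (μ := d.μ), valK_ae d u] with x k1 k2
    rw [k1, k2]
    ring
  have h2 : ∀ᵐ x, x ∉ d.Ω → val (incl d u) x ^ 2 = 0 := by
    filter_upwards [Ball_ae u] with x k1 hx
    rw [k1.2 hx, zero_pow two_ne_zero]
  have h3 : IntegrableOn (fun x => val (incl d u) x ^ 2) d.Ω :=
    (T4_integrable (oneL d.μ) (oneL d.μ) (valK d u) (valK d u)).congr h1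
  refine ⟨h3.integrable_of_ae_notMem_eq_zero h2, ?_⟩
  rw [← setIntegral_eq_integral_of_ae_compl_eq_zero h2]
  exact integral_congr_ae h1

theorem K_dsol {l m : ℝ} {u : K d} (h : (ctx d).Sol1 l m u) : DSol d.Ω l m (incl d u) := by
  intro ψ hψ
  have h1 : ⟪incl d u, ψ⟫ + l * T4 (oneL d.μ) (oneL d.μ) (valK d u) (valK d (mkK d ψ hψ)) =
      m * T4 (valK d u) (valK d u) (valK d u) (valK d (mkK d ψ hψ)) := h (mkK d ψ hψ)
  have h2 := inst_V d (-l) m 0 (valK d u) (valK d u) u (mkK d ψ hψ)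
  rw [incl_mkK] at h2
  have h3 : ∫ x in d.Ω, (-l + m * (valK d u x * valK d u x) + 0 * (valK d u x * valK d u x)) *
      val (incl d u) x * val ψ x =
      ∫ x in d.Ω, (-l * val (incl d u) x + m * val (incl d u) x ^ 3) * val ψ x := by
    refine integral_congr_ae ?_
    filter_upwards [valK_ae d u] with x k1
    rw [k1]
    ring
  rw [← h3, ← h2]
  linarith only [hψ, h1]

theorem K_pos {u : K d} (h : (ctx d).Pos u) : ∀ᵐ x, x ∈ d.Ω → 0 < val (incl d u) x := by
  have h1 : ∀ᵐ x ∂d.μ, 0 < valK d u x := h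
  filter_upwards [(ae_restrict_iff' d.isOpen.measurableSet).1 h1, Ball_ae u] with x k1 k2 hx
  exact (k1 hx).trans_eq (k2.1 hx)

theorem Ball_int (h : Hs) {a b : L4 (volume : Measure E4)} (e : b = h.polL a) (n : ℕ)
    (hi : Integrable fun x => a x ^ n) : ∫ x, b x ^ n = ∫ x, a x ^ n := by
  rw [← h.integral_pol (Φ := fun t => t ^ n) (continuous_pow n) (Lp.aestronglyMeasurable a) hi, e]
  refine integral_congr_ae ?_
  filter_upwards [h.polL_ae a] with x hx
  rw [hx]

theorem Ball_P (u : K d) : Integrable (fun x => val (incl d u) x ^ 4) ∧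
    (ctx d).P u = ∫ x, val (incl d u) x ^ 4 := by
  have e : ∀ t : ℝ, t * t * t * t = t ^ 4 := fun t => by ring
  have h1 := T4_integrable (val (incl d u)) (val (incl d u)) (val (incl d u)) (val (incl d u))
  have h2 := K_T u u u u
  simp only [T4, e] at h1 h2
  exact ⟨h1, h2⟩

theorem exists_polar {R : ℝ} (hR : 0 < R) (hd : d.Ω = ball 0 R) :
    Nonempty ((ctx d).Polar Hs) := by
  have mem : ∀ u : K d, incl d u ∈ H0 (ball 0 R) := fun u => hd ▸ incl_mem d u
  have sol : ∀ {l m : ℝ} {u : K d}, (ctx d).Sol1 l m u → DSol (ball 0 R) l m (incl d u) :=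
    fun h => hd ▸ K_dsol h
  have pos : ∀ {u : K d}, (ctx d).Pos u → ∀ᵐ x, x ∈ ball (0 : E4) R → 0 < val (incl d u) x :=
    fun h => hd ▸ K_pos h
  refine ⟨⟨fun h u w => val (incl d w) = h.polL (val (incl d u)), fun h u hu => ?_,
    fun h u w _ e => ?_, fun h u w _ e => ?_, fun h u w v z hu hv e e' => ?_,
    fun h l m u w a hm su pu e sw => ?_, fun l m u z a hm su pu fu sz pz fz => ?_⟩⟩
  · obtain ⟨w, h1, h2, h3⟩ := pol_H0 h (mem u) (K_val_nonneg hu)
    exact ⟨mkK d w (hd ▸ h1), h2, h3⟩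
  · rw [(K_M w).2, (K_M u).2, Ball_int h e 2 (K_M u).1]
  · rw [(Ball_P w).2, (Ball_P u).2, Ball_int h e 4 (Ball_P u).1]
  · unfold Ctx.R
    rw [K_T, K_T, e, e']
    exact h.T4_pol (K_val_nonneg hu) (K_val_nonneg hv)
  · exact incl_inj d (pol_fix h hR a.2.le hm.le (mem u) (Reg2_nonneg (mem u) (pos pu)) e (sol su)
      (sol sw))
  · exact incl_inj d (ball_unique hR a.2 hm (mem u) (sol su) (pos pu) (fun h => (fu h).symm)
      (mem z) (sol sz) (pos pz) fun h => (fz h).symm)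

theorem final_ball (R : ℝ) (hR : 0 < R) (l₁ l₂ μ₁ μ₂ : ℝ) (k1 : -lam1 (ball 0 R) < l₁)
    (k2 : l₁ ≤ l₂) (k3 : l₂ < 0) (h1 : 0 < μ₁) (h2 : 0 < μ₂) (β : ℝ) (hβ : 0 ≤ β)
    (hd : β ^ 2 < μ₁ * μ₂) :
    HasGroundState (ball 0 R) l₁ l₂ μ₁ μ₂ β ↔
      β < min (betaHat (ball 0 R) l₁ μ₁ l₂) (betaHat (ball 0 R) l₂ μ₂ l₁) := by
  obtain ⟨d, e⟩ : ∃ d : Dom, d.Ω = ball 0 R :=
    ⟨⟨ball 0 R, isOpen_ball, isConnected_ball hR, isBounded_ball⟩, rfl⟩
  obtain ⟨Pz⟩ := exists_polar hR e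
  rw [← e] at k1 ⊢
  rw [lam1_eq d] at k1
  have a1 : (ctx d).Adm l₁ := ⟨k1, k2.trans_lt k3⟩
  have a2 : (ctx d).Adm l₂ := ⟨k1.trans_le k2, k3⟩
  rw [hasGS_iff a1 a2, betaHat_eq a1, betaHat_eq a2, lt_min_iff]
  exact Pz.lowerRange_pol a1 a2 h1 h2 hβ hd

end CritSys
end
end
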