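import Pool.Agent.Work.MP_80ee1d_an.Dich

-- merged part: Pool.Agent.Work.MP_80ee1d_an.Upper
section
/-!
Ground states from the minimisation on the full Nehari manifold.

Write `A u v = q l1 u + q l2 v` and `W u v = m1 P u + 2 β R u v + m2 P v`.

PLAN. `full_min`: `K = sInf {A u v | W u v = 1}`; by scaling `K² W u v ≤ (A u v)²` for all pairs
(`W (t u) (t v) = t⁴ W`, `A (t u)(t v) = t² A`; `W = 0` is trivial).  A minimising sequence is bounded
(`q_lower`); `decomp` gives `K = A + (a' + b')`, `1 = W + W'` with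
`W' = m1 P' + 2 β R' + m2 Q' ≤ m1 x² + 2 β x y + m2 y²`, `x = √P'`, `y = √Q'`.  Testing with
`(√x • φ, √y • φ)`, `φ` from `exists_phi`: `K √W' ≤ σ (x + y) ≤ (σ / S)(a' + b')`.  Also
`K √W ≤ A`.  `K > 0` (the same inequality shows that `A` and `a' + b'` cannot both vanish: if
`K = 0` then `A = 0`, `a' = b' = 0`, so `u = v = 0`, `P' = Q' = R' = 0`, `W + W' = 0`).  As
`√W + √W' ≥ 1` we get `a' + b' = 0`, hence `W' = 0`, `W = 1`, `A = K`.  Pass to absolute values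
(`exists_abs`).  The function `ε ↦ (A (u + ε ψ) v)² - K² W (u + ε ψ) v` is `≥ 0` and vanishes at
`0`, so its derivative vanishes: `B l1 u ψ = K (m1 T u u u ψ + β T v v u ψ)`.  The pair
`(√K • u, √K • v)` solves both equations and has `A = W = K²`.
`upper`: for the pair `(u, v)` of `full_min`, with `A = W`, test minimality with `(w1, ε • y)`:
with `a = q l1 w1 = m1 P w1`, `(a + ε² b)² < a (a + 2 β ε² R + m2 ε⁴ Q)` for small `ε`, so
`A u v < a`.  If `v = 0` then `u ≠ 0` lies on the first scalar Nehari set and `A u v = q l1 u ≥ a`;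
if `u = 0` then `A u v ≥ q l2 w2 ≥ a`.  So both are non-zero, positive by `pos_of_eqn`; on `Neh` one
has `A = W > 0`, so `A u v ≤ A u' v'`, and `En = A / 4`.
-/

open MeasureTheory Filter Topology
open scoped RealInnerProductSpace

noncomputable section
namespace CritSys
namespace Ctx

variable {X : Type} [MeasurableSpace X] {H : Type} [NormedAddCommGroup H] [InnerProductSpace ℝ H]
  [CompleteSpace H] [TopologicalSpace.SeparableSpace H] {μ : Measure X} [IsFiniteMeasure μ]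
  (C : Ctx H μ) {l1 l2 m1 m2 β : ℝ}

theorem Upper_scale {W : ℝ} (hW : 0 < W) : ∃ t : ℝ, t ^ 2 * √W = 1 ∧ t ^ 4 * W = 1 := by
  have h1 : 0 < √W := Real.sqrt_pos.2 hW
  have h2 : (√(√W))⁻¹ ^ 2 * √W = 1 := by
    rw [inv_pow, Real.sq_sqrt h1.le, inv_mul_cancel₀ h1.ne']
  refine ⟨(√(√W))⁻¹, h2, ?_⟩
  calc (√(√W))⁻¹ ^ 4 * W = ((√(√W))⁻¹ ^ 2 * √W) ^ 2 := by
        rw [mul_pow, Real.sq_sqrt hW.le, ← pow_mul]
    _ = 1 := by rw [h2, one_pow]

theorem Upper_le_sqrt {W : ℝ} (h0 : 0 ≤ W) (h1 : W ≤ 1) : W ≤ √W :=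
  Real.le_sqrt_of_sq_le (by linarith only [h0, h1, mul_nonneg_of_nonpos_of_nonpos (Mathlib.Tactic.Linarith.sub_nonpos_of_le h0) (Mathlib.Tactic.Linarith.sub_nonpos_of_le h1)])

theorem Upper_alg {K A W a b P Q R S σ m1 m2 β : ℝ} (hK : 0 ≤ K) (hW : 0 ≤ W) (ha : 0 ≤ a)
    (hb : 0 ≤ b) (hP : 0 ≤ P) (hQ : 0 ≤ Q) (hR : 0 ≤ R) (hS : 0 < S) (hσ : σ < S)
    (h1 : 0 < m1) (h2 : 0 < m2) (hβ : 0 ≤ β) (sa : S ^ 2 * P ≤ a ^ 2) (sb : S ^ 2 * Q ≤ b ^ 2)
    (rr : R ^ 2 ≤ P * Q)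
    (test : ∀ x y : ℝ, 0 ≤ x → 0 ≤ y → K * √(m1 * x ^ 2 + 2 * β * (x * y) + m2 * y ^ 2) ≤
      σ * (x + y))
    (hA : K * √W ≤ A) (e1 : K = A + (a + b)) (e2 : 1 = W + (m1 * P + 2 * β * R + m2 * Q)) :
    W = 1 ∧ A = K := by
  obtain ⟨x, hx, rfl⟩ : ∃ x : ℝ, 0 ≤ x ∧ P = x ^ 2 :=
    ⟨√P, Real.sqrt_nonneg _, (Real.sq_sqrt hP).symm⟩
  obtain ⟨y, hy, rfl⟩ : ∃ y : ℝ, 0 ≤ y ∧ Q = y ^ 2 :=
    ⟨√Q, Real.sqrt_nonneg _, (Real.sq_sqrt hQ).symm⟩
  have hxa : S * x ≤ a := (pow_le_pow_iff_left₀ (by positivity) ha two_ne_zero).1 (by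
    rwa [mul_pow])
  have hyb : S * y ≤ b := (pow_le_pow_iff_left₀ (by positivity) hb two_ne_zero).1 (by
    rwa [mul_pow])
  have hxy : R ≤ x * y := (pow_le_pow_iff_left₀ hR (by positivity) two_ne_zero).1 (by
    rwa [mul_pow])
  have hW' : 0 ≤ m1 * x ^ 2 + 2 * β * R + m2 * y ^ 2 := by positivity
  have h3 : √(m1 * x ^ 2 + 2 * β * R + m2 * y ^ 2) ≤
      √(m1 * x ^ 2 + 2 * β * (x * y) + m2 * y ^ 2) := by gcongr
  have h4 := Upper_le_sqrt hW (by linarith only [e2, hW'])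
  have h5 := Upper_le_sqrt hW' (by linarith only [hW, e2])
  have h6 : 1 ≤ √W + √(m1 * x ^ 2 + 2 * β * (x * y) + m2 * y ^ 2) := by linarith only [e2, h3, h4, h5]
  have h7 := mul_le_mul_of_nonneg_left h6 hK
  have h8 := test x y hx hy
  have h9 : a + b ≤ σ * (x + y) := by linarith only [hA, e1, h7, h8]
  have h10 : x + y ≤ 0 := by
    by_contra h
    have := mul_lt_mul_of_pos_right hσ (not_le.1 h)
    linarith only [hA, e1, hxa, hyb, h7, h8, this]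
  have hx0 : x = 0 := by linarith only [hx, hy, h10]
  have hy0 : y = 0 := by linarith only [hy, hx, h10]
  subst hx0 hy0
  have hR0 : R = 0 := by linarith only [hR, hxy]
  subst hR0
  constructor <;> linarith only [e2, hA, h7, h8, ha, hb, e1]

omit [CompleteSpace H] [TopologicalSpace.SeparableSpace H] in
theorem Upper_W_nonneg (h1 : 0 < m1) (h2 : 0 < m2) (hβ : 0 ≤ β) (z w : H) :
    0 ≤ m1 * C.P z + 2 * β * C.R z w + m2 * C.P w := by
  have := C.P_nonneg z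
  have := C.P_nonneg w
  have := C.R_nonneg z w
  positivity

omit [CompleteSpace H] [TopologicalSpace.SeparableSpace H] in
theorem Upper_inf (a1 : C.Adm l1) (a2 : C.Adm l2) (h1 : 0 < m1) (h2 : 0 < m2) (hβ : 0 ≤ β) :
    ∃ (K : ℝ) (u v : ℕ → H), 0 ≤ K ∧
      (∀ z w : H, K * √(m1 * C.P z + 2 * β * C.R z w + m2 * C.P w) ≤ C.q l1 z + C.q l2 w) ∧
      (∀ n, m1 * C.P (u n) + 2 * β * C.R (u n) (v n) + m2 * C.P (v n) = 1) ∧
      Antitone (fun n => C.q l1 (u n) + C.q l2 (v n)) ∧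
      Tendsto (fun n => C.q l1 (u n) + C.q l2 (v n)) atTop (𝓝 K) := by
  have hA : ∀ z w : H, 0 ≤ C.q l1 z + C.q l2 w := fun z w =>
    add_nonneg (C.q_nonneg a1.1.le z) (C.q_nonneg a2.1.le w)
  set s : Set ℝ := {r | ∃ z w : H, m1 * C.P z + 2 * β * C.R z w + m2 * C.P w = 1 ∧
    r = C.q l1 z + C.q l2 w} with hs
  have hmem : ∀ (z w : H) (t : ℝ), t ^ 4 * (m1 * C.P z + 2 * β * C.R z w + m2 * C.P w) = 1 →
      t ^ 2 * (C.q l1 z + C.q l2 w) ∈ s := fun z w t ht =>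
    ⟨t • z, t • w, by rw [P_smul, P_smul, R_smul, ← ht]; ring, by rw [q_smul, q_smul]; ring⟩
  have hne : s.Nonempty := by
    obtain ⟨φ, σ, -, -, hφ, -⟩ := C.exists_phi a1 a2
    obtain ⟨t, -, ht⟩ := Upper_scale h1
    exact ⟨_, hmem φ 0 t (by rw [hφ, R_zero2, P_zero]; linarith only [ht])⟩
  have h0 : ∀ r ∈ s, 0 ≤ r := by
    rintro _ ⟨z, w, -, rfl⟩
    exact hA z w
  have hbd : BddBelow s := ⟨0, h0⟩
  obtain ⟨f, hf1, hf2, hf3⟩ := exists_seq_tendsto_sInf hne hbd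
  choose u v huv hf using hf3
  obtain rfl : f = fun n => C.q l1 (u n) + C.q l2 (v n) := funext hf
  refine ⟨sInf s, u, v, le_csInf hne h0, fun z w => ?_, huv, hf1, hf2⟩
  rcases (C.Upper_W_nonneg h1 h2 hβ z w).eq_or_lt with h | h
  · rw [← h, Real.sqrt_zero, mul_zero]
    exact hA z w
  · obtain ⟨t, ht1, ht2⟩ := Upper_scale h
    have h3 := mul_le_mul_of_nonneg_right (csInf_le hbd (hmem z w t ht2))
      (Real.sqrt_nonneg (m1 * C.P z + 2 * β * C.R z w + m2 * C.P w))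
    rwa [mul_right_comm (t ^ 2), ht1, one_mul] at h3

omit [CompleteSpace H] [TopologicalSpace.SeparableSpace H] in
theorem Upper_bound {l : ℝ} (a : C.Adm l) (c : ℝ) :
    ∃ d : ℝ, ∀ u : H, C.q l u ≤ c → ‖u‖ ≤ d := by
  have h : 0 < (C.Λ + l) / C.Λ := div_pos (by linarith [a.1]) C.Lam_pos
  refine ⟨√(c / ((C.Λ + l) / C.Λ)), fun u hu => Real.le_sqrt_of_sq_le ?_⟩
  rw [le_div_iff₀' h]
  exact (C.q_lower a.2.le u).trans hu

theorem Upper_att (a1 : C.Adm l1) (a2 : C.Adm l2) (h1 : 0 < m1) (h2 : 0 < m2) (hβ : 0 ≤ β) :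
    ∃ (K : ℝ) (u v : H), 0 < K ∧
      (∀ z w : H, K * √(m1 * C.P z + 2 * β * C.R z w + m2 * C.P w) ≤ C.q l1 z + C.q l2 w) ∧
      m1 * C.P u + 2 * β * C.R u v + m2 * C.P v = 1 ∧ C.q l1 u + C.q l2 v = K := by
  obtain ⟨K, u, v, hK, hmin, hW, hanti, hlim⟩ := C.Upper_inf a1 a2 h1 h2 hβ
  obtain ⟨d1, hd1⟩ := C.Upper_bound a1 (C.q l1 (u 0) + C.q l2 (v 0))
  obtain ⟨d2, hd2⟩ := C.Upper_bound a2 (C.q l1 (u 0) + C.q l2 (v 0))
  obtain ⟨φ, z, w, r, s, a', b', P', Q', R', hφ, hu, hv, hrem⟩ := C.decomp u v (max d1 d2)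
    (fun n => le_max_of_le_left (hd1 _ ((le_add_of_nonneg_right (C.q_nonneg a2.1.le _)).trans
      (hanti (Nat.zero_le n)))))
    (fun n => le_max_of_le_right (hd2 _ ((le_add_of_nonneg_left (C.q_nonneg a1.1.le _)).trans
      (hanti (Nat.zero_le n)))))
  have e1 : K = C.q l1 z + a' + (C.q l2 w + b') := by
    refine tendsto_nhds_unique (hlim.comp hφ.tendsto_atTop)
      (((hrem.qa l1 z).add (hrem.qb l2 w)).congr fun n => ?_)
    rw [Function.comp_apply, hu, hv]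
  have e2 : 1 = m1 * (C.P z + P') + 2 * β * (C.R z w + R') + m2 * (C.P w + Q') := by
    refine tendsto_nhds_unique tendsto_const_nhds
      (((((hrem.pa z).const_mul m1).add ((hrem.rab z w).const_mul (2 * β))).add
        ((hrem.pb w).const_mul m2)).congr fun n => ?_)
    rw [← hu, ← hv, hW]
  obtain ⟨ψ, σ, -, -, hψ, hq1, hq2, -, hσ⟩ := C.exists_phi a1 a2
  obtain ⟨h3, h4⟩ := Upper_alg (A := C.q l1 z + C.q l2 w) hK (C.Upper_W_nonneg h1 h2 hβ z w)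
    hrem.a0 hrem.b0 hrem.P0 hrem.Q0 hrem.R0 C.S_pos hσ h1 h2 hβ hrem.sa hrem.sb hrem.rr
    (fun x y hx hy => by
      have h := hmin (√x • ψ) (√y • ψ)
      have e : ∀ t : ℝ, 0 ≤ t → √t ^ 4 = t ^ 2 := fun t ht => by
        rw [show 4 = 2 * 2 from rfl, pow_mul, Real.sq_sqrt ht]
      rw [P_smul, P_smul, R_smul, q_smul, q_smul, R_self, hψ, e x hx, e y hy, Real.sq_sqrt hx,
        Real.sq_sqrt hy, mul_one, mul_one, mul_one] at h
      have h5 := mul_le_mul_of_nonneg_left hq1 hx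
      have h6 := mul_le_mul_of_nonneg_left hq2 hy
      linarith) (hmin z w) (by linarith) (by linarith)
  refine ⟨K, z, w, hK.lt_of_ne fun h0 => ?_, hmin, h3, h4⟩
  have h5 := C.q_nonneg a1.1.le z
  have h6 := C.q_nonneg a2.1.le w
  have hz : z = 0 := by
    by_contra h
    linarith [C.q_pos a1.1 h]
  have hw : w = 0 := by
    by_contra h
    linarith [C.q_pos a2.1 h]
  rw [hz, hw, P_zero, R_zero1] at h3
  norm_num at h3

omit [CompleteSpace H] [TopologicalSpace.SeparableSpace H] in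
theorem Upper_eqn {L : ℝ} (hL : 0 < L) {u v : H}
    (hmin : ∀ z : H, L * (m1 * C.P z + 2 * β * C.R z v + m2 * C.P v) ≤ (C.q l1 z + C.q l2 v) ^ 2)
    (hW : m1 * C.P u + 2 * β * C.R u v + m2 * C.P v = L) (hA : C.q l1 u + C.q l2 v = L) :
    C.Eqn l1 m1 β u v := by
  intro ψ
  have hd := (((C.hasDerivAt_q l1 u ψ).add_const (C.q l2 v)).fun_pow 2).fun_sub
    (((((C.hasDerivAt_P u ψ).const_mul m1).fun_add
      ((C.hasDerivAt_R1 u v ψ).const_mul (2 * β))).add_const (m2 * C.P v)).const_mul L)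
  have h0 := IsLocalMin.hasDerivAt_eq_zero (Eventually.of_forall fun ε => by
    have := hmin (u + ε • ψ)
    simp only [zero_smul, add_zero, hW, hA]
    linarith) hd
  simp only [zero_smul, add_zero, hA] at h0
  refine mul_left_cancel₀ hL.ne' ?_
  norm_num at h0
  linarith

theorem full_min (a1 : C.Adm l1) (a2 : C.Adm l2) (h1 : 0 < m1) (h2 : 0 < m2) (hβ : 0 ≤ β) :
    ∃ u v : H, 0 ≤ C.val u ∧ 0 ≤ C.val v ∧ (u ≠ 0 ∨ v ≠ 0) ∧ C.Eqn l1 m1 β u v ∧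
      C.Eqn l2 m2 β v u ∧ ∀ z w : H, (C.q l1 u + C.q l2 v) *
        (m1 * C.P z + 2 * β * C.R z w + m2 * C.P w) ≤ (C.q l1 z + C.q l2 w) ^ 2 := by
  obtain ⟨K, z, w, hK, hmin, hW, hA⟩ := C.Upper_att a1 a2 h1 h2 hβ
  have hmin' : ∀ z w : H, K ^ 2 * (m1 * C.P z + 2 * β * C.R z w + m2 * C.P w) ≤
      (C.q l1 z + C.q l2 w) ^ 2 := fun z w => by
    have := pow_le_pow_left₀ (by positivity) (hmin z w) 2
    rwa [mul_pow, Real.sq_sqrt (C.Upper_W_nonneg h1 h2 hβ z w)] at this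
  obtain ⟨u, -, hu0, -, -, -, hu1, hu2, hu3, -⟩ := C.exists_abs (√K • z)
  obtain ⟨v, -, hv0, -, -, -, hv1, hv2, -, hv3⟩ := C.exists_abs (√K • w)
  have e : √K ^ 4 = K ^ 2 := by
    rw [show 4 = 2 * 2 from rfl, pow_mul, Real.sq_sqrt hK.le]
  have hW' : m1 * C.P u + 2 * β * C.R u v + m2 * C.P v = K ^ 2 := by
    rw [hu2, hv2, hu3, hv3, P_smul, P_smul, R_smul, e, Real.sq_sqrt hK.le]
    linear_combination K ^ 2 * hW
  have hA' : C.q l1 u + C.q l2 v = K ^ 2 := by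
    have h3 := hmin u v
    have h4 := hu1 l1
    have h5 := hv1 l2
    rw [hW', Real.sqrt_sq hK.le] at h3
    rw [q_smul, Real.sq_sqrt hK.le] at h4 h5
    have h6 : K * C.q l1 z + K * C.q l2 w = K ^ 2 := by rw [← mul_add, hA, sq]
    linarith
  have hK2 : 0 < K ^ 2 := by positivity
  refine ⟨u, v, hu0, hv0, ?_, C.Upper_eqn hK2 (fun z => hmin' z v) hW' hA',
    C.Upper_eqn (l2 := l1) (m2 := m1) hK2 (fun z => ?_) ?_ ?_, fun z w => hA' ▸ hmin' z w⟩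
  · by_contra h
    rw [not_or, not_not, not_not] at h
    rw [h.1, h.2, q_zero, q_zero] at hA'
    linarith
  · have := hmin' u z
    rw [C.R_comm z u, add_comm (C.q l2 z)]
    linarith
  · rw [C.R_comm v u]
    linarith
  · linarith

theorem upper (a1 : C.Adm l1) (a2 : C.Adm l2) (h1 : 0 < m1) (h2 : 0 < m2) (hβ : 0 ≤ β)
    {w1 w2 y : H} (hw1 : C.Least l1 m1 w1) (hw2 : C.Least l2 m2 w2)
    (hle : C.q l1 w1 ≤ C.q l2 w2) (hy : C.q l2 y < β * C.R w1 y) : C.GS l1 l2 m1 m2 β := by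
  obtain ⟨u, v, hu0, hv0, hne, e1, e2, hmin⟩ := C.full_min a1 a2 h1 h2 hβ
  have q1 := e1.q_eq
  have q2 := e2.q_eq
  have ha := C.q_pos a1.1 hw1.2.1.ne_zero
  have hlt : C.q l1 u + C.q l2 v < C.q l1 w1 := by
    by_contra hc
    have hd : 0 < β * C.R w1 y - C.q l2 y := sub_pos.2 hy
    obtain ⟨e, he, he'⟩ : ∃ e : ℝ, 0 < e ∧
        e * (C.q l2 y ^ 2 + 1) = C.q l1 w1 * (β * C.R w1 y - C.q l2 y) :=
      ⟨C.q l1 w1 * (β * C.R w1 y - C.q l2 y) / (C.q l2 y ^ 2 + 1), by positivity,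
        div_mul_cancel₀ _ (by positivity)⟩
    have h3 := (mul_le_mul_of_nonneg_right (not_lt.1 hc)
      (C.Upper_W_nonneg h1 h2 hβ w1 (√e • y))).trans (hmin w1 (√e • y))
    have h4 : C.R w1 (√e • y) = e * C.R w1 y := by
      have := C.R_smul 1 (√e) w1 y
      rwa [one_smul, Real.sq_sqrt he.le, one_pow, one_mul] at this
    have h5 := mul_nonneg ha.le (mul_nonneg h2.le (C.P_nonneg (√e • y)))
    rw [h4, q_smul, Real.sq_sqrt he.le, ← hw1.1.q_eq] at h3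
    have h6 : e * (2 * (C.q l1 w1 * (β * C.R w1 y - C.q l2 y))) ≤ e * (e * C.q l2 y ^ 2) := by
      linarith
    have h7 := le_of_mul_le_mul_left h6 he
    have h8 := mul_pos ha hd
    linarith
  have hv : v ≠ 0 := by
    rintro rfl
    have hu : u ≠ 0 := hne.resolve_right fun h => h rfl
    rw [R_zero2, mul_zero, add_zero] at q1
    rw [q_zero, add_zero] at hlt
    exact hlt.not_ge (hw1.2.2 u hu q1)
  have hu : u ≠ 0 := by
    rintro rfl
    rw [R_zero2, mul_zero, add_zero] at q2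
    rw [q_zero, zero_add] at hlt
    exact hlt.not_ge (hle.trans (hw2.2.2 v hv q2))
  rw [C.R_comm v u] at q2
  have hN : C.Neh l1 l2 m1 m2 β u v := ⟨hu, hv, q1, q2⟩
  refine ⟨u, v, e1, e2, C.pos_of_eqn e1 a1.2.le h1.le hβ hu0 hu,
    C.pos_of_eqn e2 a2.2.le h2.le hβ hv0 hv, fun u' v' hN' => ?_⟩
  rw [hN.En_eq, hN'.En_eq]
  have h3 := hmin u' v'
  have h4 : m1 * C.P u' + 2 * β * C.R u' v' + m2 * C.P v' = C.q l1 u' + C.q l2 v' := by
    linarith [hN'.2.2.1, hN'.2.2.2]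
  rw [h4, sq] at h3
  have h5 := le_of_mul_le_mul_right h3 (add_pos (C.q_pos a1.1 hN'.1) (C.q_pos a2.1 hN'.2.1))
  linarith

end Ctx
end CritSys
end
end

-- merged part: Pool.Agent.Work.MP_80ee1d_an.Gap
section
/-!
Non-existence on a neighbourhood of `[m2, m1]` when `m2 ≤ m1` and `l1 < l2`.

PLAN. `δ = l2 - l1`.  `gap_low`: for a least `w` of the second equation, `bh_le` with `v = w` gives
`bh l2 m2 l1 * P w ≤ q l1 w < q l2 w = m2 P w`, so `bh < m2`; take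
`ε = min (m2 - bh) m2`, and `lower_non` (`β² < m1 m2` because `0 ≤ β < m2 ≤ m1`).
`gap_picone`: `picone_eqn` for `u` tested with `v`, `Eqn.q_eq` for `v`, `q_sub_q`.
`gap_mid` follows (`M_pos`, `P_nonneg`, `R_nonneg`).
`gap_test`: `φ, σ` from `exists_phi`, `b₀ = q l2 φ ≤ σ < S`, `q l1 φ < b₀`.  Put
`a₀ = (b₀ + S) / 2`.  For `h` from `C.osc η` the continuous function `τ ↦ q l1 (φ + τ • h)` is `< a₀`
at `0` and `≥ a₀` at a point `τ₁` that does not depend on `h` (`q_lower`,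
`‖φ + τ h‖ ≥ τ - ‖φ‖`), so it equals `a₀` at some `τ ∈ [0, τ₁]`; `w = φ + τ • h` has
`‖val w - val φ‖ ≤ τ₁ η`, so `P w` and `R φ w` are close to `1` (`T4_approx` with `e = val φ`).
`gap_high`: rescale `w` from `gap_test` to the first scalar Nehari set, `w' = t • w`,
`t² = q l1 w / (m1 P w)`; for `β ≥ m1`, `q l2 φ < β R φ w'`, so `bound_core` (indices swapped) gives
`4 E ≤ q l1 w' = (q l1 w)² / (m1 P w) < S² / m1` for a ground state of energy `E`.  Conversely for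
`m1 < β ≤ m1 + ε`: `gap_picone` gives `δ M v v ≤ ε R`, so
`S y ≤ ‖v‖² ≤ m2 y² + β' R` with `y = ‖val v‖²`, `β' = β + |l2| ε / δ`; with `r = R / y`,
`P u ≥ r²`, `S ≤ m2 y + β' r` and `(m2 y + β' r)² ≤ (β'² / m1)(m1 r² + 2 β r y + m2 y²) ≤ (β'²/m1) 4E`.
-/

open MeasureTheory Filter Topology
open scoped RealInnerProductSpace

noncomputable section
namespace CritSys
namespace Ctx

variable {X : Type} [MeasurableSpace X] {H : Type} [NormedAddCommGroup H] [InnerProductSpace ℝ H]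
  [CompleteSpace H] [TopologicalSpace.SeparableSpace H] {μ : Measure X} [IsFiniteMeasure μ]
  (C : Ctx H μ) {l1 l2 m1 m2 : ℝ}

theorem gap_low (a1 : C.Adm l1) (a2 : C.Adm l2) (hl : l1 < l2) (h2 : 0 < m2) (hm : m2 ≤ m1) :
    ∃ ε : ℝ, 0 < ε ∧ ∀ β : ℝ, m2 - ε ≤ β → β < m2 → ¬ C.GS l1 l2 m1 m2 β := by
  obtain ⟨w, hw⟩ := C.least_exists a2 h2
  have hw0 : w ≠ 0 := hw.2.1.ne_zero
  have k1 := C.bh_le a1 hw w
  have k2 := hw.1.q_eq
  have k3 := C.q_sub_q l1 l2 w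
  have k4 := mul_pos (sub_pos.2 hl) (C.M_pos hw0)
  have k5 := C.P_pos hw0
  rw [C.R_self] at k1
  have k6 : C.bh l2 m2 l1 < m2 := lt_of_mul_lt_mul_right (by linarith) k5.le
  refine ⟨min (m2 - C.bh l2 m2 l1) m2, lt_min (by linarith) h2, fun β hb hb' => ?_⟩
  have e1 := min_le_left (m2 - C.bh l2 m2 l1) m2
  have e2 := min_le_right (m2 - C.bh l2 m2 l1) m2
  have hβ : 0 ≤ β := by linarith
  exact C.lower_non a1 a2 (h2.trans_le hm) h2 hβ (by nlinarith) (by linarith)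

omit [CompleteSpace H] [TopologicalSpace.SeparableSpace H] in
theorem gap_picone {β : ℝ} {u v : H} (hu : C.Eqn l1 m1 β u v) (hv : C.Eqn l2 m2 β v u)
    (hp : C.Pos u) : (l2 - l1) * C.M v v + (β - m2) * C.P v ≤ (β - m1) * C.R u v := by
  have k1 := C.picone_eqn hu hp v
  have k2 := hv.q_eq
  have k3 := C.q_sub_q l1 l2 v
  rw [C.R_self] at k1
  rw [C.R_comm v u] at k2
  linarith

omit [CompleteSpace H] [TopologicalSpace.SeparableSpace H] in
theorem gap_mid (hl : l1 < l2) {β : ℝ} (hβ : m2 ≤ β) (hβ' : β ≤ m1) :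
    ¬ C.GS l1 l2 m1 m2 β := by
  rintro ⟨u, v, hu, hv, hp, hq, -⟩
  have k1 := C.gap_picone hu hv hp
  have k2 := mul_pos (sub_pos.2 hl) (C.M_pos hq.ne_zero)
  have k3 := mul_nonneg (sub_nonneg.2 hβ) (C.P_nonneg v)
  have k4 := mul_nonneg (sub_nonneg.2 hβ') (C.R_nonneg u v)
  linarith

omit [CompleteSpace H] [TopologicalSpace.SeparableSpace H] in
theorem gap_test (a1 : C.Adm l1) (a2 : C.Adm l2) (hl : l1 < l2) :
    ∃ φ w : H, w ≠ 0 ∧ C.q l2 φ * C.P w < C.q l1 w * C.R φ w ∧ C.q l1 w ^ 2 < C.S ^ 2 * C.P w := by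
  obtain ⟨φ, σ, hφ, hn, -, -, hs2, -, hS⟩ := C.exists_phi a1 a2
  have hSp := C.S_pos
  have hb0 : 0 < C.q l2 φ := C.q_pos a2.1 hφ
  have hlt : C.q l1 φ < C.q l2 φ := by
    have k3 := C.q_sub_q l1 l2 φ
    have k4 := mul_pos (sub_pos.2 hl) (C.M_pos hφ)
    linarith
  obtain ⟨b, hb⟩ : ∃ b, b = C.q l2 φ := ⟨_, rfl⟩
  rw [← hb] at hb0 hlt hs2
  have hbS : b < C.S := hs2.trans_lt hS
  obtain ⟨a, ha⟩ : ∃ a, a = (b + C.S) / 2 := ⟨_, rfl⟩
  have ha0 : 0 < a := by linarith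
  obtain ⟨κ, hκ⟩ : ∃ κ, κ = (C.Λ + l1) / C.Λ := ⟨_, rfl⟩
  have hκ0 : 0 < κ := by
    rw [hκ]
    exact div_pos (by linarith [a1.1]) C.Lam_pos
  obtain ⟨τ₁, hτ⟩ : ∃ τ₁, τ₁ = ‖φ‖ + (1 + a / κ) := ⟨_, rfl⟩
  have hak : 0 < a / κ := div_pos ha0 hκ0
  have hτ0 : 0 < τ₁ := by linarith only [hτ, hak, norm_nonneg φ]
  obtain ⟨θ, hθ⟩ : ∃ θ, θ = (C.S - b) / 2 / (30 * C.S) := ⟨_, rfl⟩
  have hθ0 : 0 < θ := by
    rw [hθ]
    exact div_pos (by linarith) (by linarith)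
  have hθS : θ * (30 * C.S) = (C.S - b) / 2 := by
    rw [hθ]
    exact div_mul_cancel₀ _ (by linarith)
  have hθ1 : θ ≤ 1 := by clear * - θ σ X H μ C b hS hs2 hb0 hθS hSp; nlinarith
  obtain ⟨h, hh, hv⟩ := C.osc (θ / τ₁) (div_pos hθ0 hτ0)
  have hc : Continuous fun τ : ℝ => C.q l1 (φ + τ • h) :=
    (C.continuous_q l1).comp (continuous_const.add (continuous_id.smul continuous_const))
  have hbig : a ≤ C.q l1 (φ + τ₁ • h) := by
    clear * - X H μ C l1 φ τ₁ h a1 a κ hτ hτ0 hh hak hκ hκ0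
    have k1 := C.q_lower a1.2.le (φ + τ₁ • h)
    rw [← hκ] at k1
    have k2 : 1 + a / κ ≤ ‖φ + τ₁ • h‖ := by
      have k3 : ‖τ₁ • h‖ ≤ ‖φ + τ₁ • h‖ + ‖φ‖ := by
        simpa using norm_sub_le (φ + τ₁ • h) φ
      rw [norm_smul, hh, Real.norm_eq_abs, abs_of_pos hτ0] at k3
      linarith only [hτ, k3]
    have k4 : a / κ ≤ ‖φ + τ₁ • h‖ ^ 2 := by linarith only [hak, k2, mul_pos_of_neg_of_neg (Mathlib.Tactic.Linarith.sub_neg_of_lt hak) (Mathlib.Tactic.Linarith.sub_neg_of_lt hak), mul_nonneg_of_nonpos_of_nonpos (le_of_lt (Mathlib.Tactic.Linarith.sub_neg_of_lt hak)) (Mathlib.Tactic.Linarith.sub_nonpos_of_le k2), mul_nonneg_of_nonpos_of_nonpos (Mathlib.Tactic.Linarith.sub_nonpos_of_le k2) (Mathlib.Tactic.Linarith.sub_nonpos_of_le k2)]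
    rw [div_le_iff₀ hκ0] at k4
    linarith
  obtain ⟨τ, ⟨ht0, ht1⟩, hτa⟩ := intermediate_value_Icc hτ0.le hc.continuousOn
    (show a ∈ Set.Icc (C.q l1 (φ + (0 : ℝ) • h)) (C.q l1 (φ + τ₁ • h)) from
      ⟨by rw [zero_smul, add_zero]; linarith, hbig⟩)
  simp only at hτa
  have hw : ‖C.val (φ + τ • h) - (1 : ℝ) • C.val φ‖ ≤ θ * 1 := by
    clear * - X μ H C φ τ h θ ht0 τ₁ ht1 hv hτ0
    rw [one_smul, map_add, add_sub_cancel_left, map_smul, norm_smul, Real.norm_eq_abs,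
      abs_of_nonneg ht0, mul_one]
    calc τ * ‖C.val h‖ ≤ τ₁ * (θ / τ₁) := mul_le_mul ht1 hv (norm_nonneg _) hτ0.le
      _ = θ := mul_div_cancel₀ _ hτ0.ne'
  have hf : ‖C.val φ - (1 : ℝ) • C.val φ‖ ≤ θ * 1 := by
    rw [one_smul, sub_self, norm_zero]
    linarith only [hθ0]
  have hP := abs_le.1 (T4_approx hn hθ0.le hθ1 zero_le_one zero_le_one zero_le_one zero_le_one
    hw hw hw hw)
  have hR := abs_le.1 (T4_approx hn hθ0.le hθ1 zero_le_one zero_le_one zero_le_one zero_le_one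
    hf hf hw hw)
  have hP1 : C.P (φ + τ • h) ≤ 1 + 15 * θ := by
    have := hP.2
    unfold P T
    linarith
  have hP2 : 1 - 15 * θ ≤ C.P (φ + τ • h) := by
    have := hP.1
    unfold P T
    linarith
  have hR2 : 1 - 15 * θ ≤ C.R φ (φ + τ • h) := by
    have := hR.1
    unfold R T
    linarith
  refine ⟨φ, φ + τ • h, fun h0 => ?_, ?_, ?_⟩
  · rw [h0, C.q_zero] at hτa
    linarith
  · rw [hτa, ← hb]
    have k1 := mul_le_mul_of_nonneg_left hP1 hb0.le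
    have k2 := mul_le_mul_of_nonneg_left hR2 ha0.le
    have k3 : θ * (a + b) < θ * (2 * C.S) := mul_lt_mul_of_pos_left (by linarith) hθ0
    clear * - b X H μ C φ τ h a θ ha hθS k1 k2 k3; nlinarith
  · rw [hτa]
    have k1 := mul_le_mul_of_nonneg_left hP2 (sq_nonneg C.S)
    have k2 : C.S ^ 2 * (15 * θ) = C.S * ((C.S - b) / 4) := by
      rw [show (C.S - b) / 4 = (C.S - b) / 2 / 2 by ring, ← hθS]
      ring
    have k3 : 0 < (C.S - b) * a := mul_pos (by linarith) ha0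
    have k4 : 0 < (C.S - b) * C.S := mul_pos (by linarith) hSp
    have k5 : C.S - a = (C.S - b) / 2 := by clear * - X H μ C a b ha; linarith
    have k6 : C.S ^ 2 - a ^ 2 = (C.S - b) / 2 * (C.S + a) := by
      rw [← k5]
      ring
    clear * - a X H μ C φ τ h θ b k1 k2 k3 k4 k6; nlinarith

theorem gap_real {m1 m2 β β' S y R Pu K : ℝ} (h2 : 0 < m2) (hm : m2 ≤ m1) (hβ : m1 ≤ β)
    (hβ' : β ≤ β') (hS : 0 < S) (hy : 0 < y) (hR : 0 ≤ R) (hP : R ^ 2 ≤ Pu * y ^ 2)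
    (h1 : S * y ≤ m2 * y ^ 2 + β' * R) (hK : m1 * Pu + 2 * β * R + m2 * y ^ 2 ≤ K) :
    m1 * S ^ 2 ≤ β' ^ 2 * K := by
  have h1' : 0 < m1 := h2.trans_le hm
  have hb0 : 0 < β' := by linarith
  have hy2 : 0 < y ^ 2 := by positivity
  have k1 : (S * y) ^ 2 ≤ (m2 * y ^ 2 + β' * R) ^ 2 := pow_le_pow_left₀ (by positivity) h1 2
  have k2 : m1 * m2 ≤ β' * β := mul_le_mul (by linarith) (by linarith) h2.le hb0.le
  have k3 : m1 * m2 ≤ β' * β' := mul_le_mul (by linarith) (by linarith) h2.le hb0.le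
  have k4 : m1 * (m2 * y ^ 2 + β' * R) ^ 2 ≤
      β' ^ 2 * (m1 * R ^ 2 + 2 * β * R * y ^ 2 + m2 * (y ^ 2) ^ 2) := by
    have e1 := mul_le_mul_of_nonneg_right k2 (show 0 ≤ 2 * β' * R * y ^ 2 by positivity)
    have e2 := mul_le_mul_of_nonneg_right k3 (show 0 ≤ m2 * (y ^ 2) ^ 2 by positivity)
    linarith only [e1, e2]
  have k5 : m1 * R ^ 2 + 2 * β * R * y ^ 2 + m2 * (y ^ 2) ^ 2 ≤ K * y ^ 2 := by
    have e1 := mul_le_mul_of_nonneg_left hP h1'.le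
    have e2 := mul_le_mul_of_nonneg_right hK hy2.le
    linarith only [e1, e2]
  have k6 := mul_le_mul_of_nonneg_left k5 (sq_nonneg β')
  have k7 := mul_le_mul_of_nonneg_left k1 h1'.le
  refine le_of_mul_le_mul_right ?_ hy2
  linarith only [k4, k6, k7]

omit [CompleteSpace H] [TopologicalSpace.SeparableSpace H] in
theorem gap_high (a1 : C.Adm l1) (a2 : C.Adm l2) (hl : l1 < l2) (h2 : 0 < m2) (hm : m2 ≤ m1) :
    ∃ ε : ℝ, 0 < ε ∧ ∀ β : ℝ, m1 < β → β ≤ m1 + ε → ¬ C.GS l1 l2 m1 m2 β := by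
  have h1 : 0 < m1 := h2.trans_le hm
  obtain ⟨φ, w, hw, k1, k2⟩ := C.gap_test a1 a2 hl
  have hA : 0 < C.q l1 w := C.q_pos a1.1 hw
  have hP : 0 < C.P w := C.P_pos hw
  obtain ⟨s, hs⟩ : ∃ s, s = C.q l1 w / (m1 * C.P w) := ⟨_, rfl⟩
  have hs0 : 0 < s := by
    rw [hs]
    positivity
  have hsA : s * (m1 * C.P w) = C.q l1 w := by
    rw [hs]
    exact div_mul_cancel₀ _ (by positivity)
  have hsq : √s ^ 2 = s := Real.sq_sqrt hs0.le
  have hw' : √s • w ≠ 0 := smul_ne_zero (Real.sqrt_pos.2 hs0).ne' hw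
  have hq' : C.q l1 (√s • w) = s * C.q l1 w := by rw [C.q_smul, hsq]
  have hn' : C.q l1 (√s • w) = m1 * C.P (√s • w) := by
    rw [hq', C.P_smul, show √s ^ 4 = (√s ^ 2) ^ 2 by ring, hsq, ← hsA]
    ring
  have hR' : C.R φ (√s • w) = s * C.R φ w := by
    have := C.R_smul 1 (√s) φ w
    rw [one_smul, hsq] at this
    linarith
  obtain ⟨K, hK⟩ : ∃ K, K = s * C.q l1 w := ⟨_, rfl⟩
  have hK0 : 0 < K := by
    rw [hK]
    positivity
  have hKS : m1 * K < C.S ^ 2 := by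
    refine lt_of_mul_lt_mul_right ?_ hP.le
    calc m1 * K * C.P w = s * (m1 * C.P w) * C.q l1 w := by
          rw [hK]
          ring
      _ = C.q l1 w ^ 2 := by
          rw [hsA]
          ring
      _ < _ := k2
  have hup : ∀ β u v, m1 ≤ β → C.IsGS l1 l2 m1 m2 β u v → C.q l1 u + C.q l2 v ≤ K := by
    intro β u v hβ g
    have hu : C.q l2 φ < β * C.R φ (√s • w) := by
      rw [hR']
      refine lt_of_mul_lt_mul_right (k1.trans_le ?_) hP.le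
      have e := mul_le_mul_of_nonneg_right hβ
        (mul_nonneg (mul_nonneg hs0.le (C.R_nonneg φ w)) hP.le)
      rw [← hsA]
      linarith
    have hE := g.neh.En_eq
    refine le_of_forall_pos_le_add fun η hη => ?_
    obtain ⟨u', v', n', e'⟩ := C.bound_core (l1 := l2) (l2 := l1) (β := β) h2 h1 hw' hn'
      (Or.inl hu) (show 0 < η / 4 by positivity)
    have e1 := g.2.2.2.2 v' u' n'.swap
    rw [C.En_swap l1 l2 m1 m2 β v' u'] at e1
    linarith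
  obtain ⟨c, hc⟩ : ∃ c, c = -l2 / (l2 - l1) := ⟨_, rfl⟩
  have hδ : 0 < l2 - l1 := sub_pos.2 hl
  have hl2 : 0 < -l2 := neg_pos.2 a2.2
  have hc0 : 0 < c := by
    rw [hc]
    positivity
  have hcδ : c * (l2 - l1) = -l2 := by
    rw [hc]
    exact div_mul_cancel₀ _ hδ.ne'
  have hcont : Continuous fun ε : ℝ => (m1 + ε + c * ε) ^ 2 * K := by fun_prop
  have hev : ∀ᶠ ε in 𝓝 (0 : ℝ), (m1 + ε + c * ε) ^ 2 * K < m1 * C.S ^ 2 := by
    clear * - m1 c K X H μ C hcont hKS h1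
    refine (hcont.tendsto 0).eventually (gt_mem_nhds ?_)
    have := mul_lt_mul_of_pos_left hKS h1
    nlinarith
  obtain ⟨ε, hε, hε0⟩ := ((hev.filter_mono nhdsWithin_le_nhds).and
    (self_mem_nhdsWithin (s := Set.Ioi (0 : ℝ)) (a := 0))).exists
  have hε0' : 0 < ε := hε0
  refine ⟨ε, hε0', fun β hβ hβ' => ?_⟩
  rintro ⟨u, v, g⟩
  have hv0 : v ≠ 0 := g.2.2.2.1.ne_zero
  have e0 := hup β u v hβ.le g
  have e1 := C.gap_picone g.1 g.2.1 g.2.2.1
  have e2 := g.1.q_eq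
  have e3 := g.2.1.q_eq
  rw [C.R_comm v u] at e3
  have hRn := C.R_nonneg u v
  have hy : 0 < ‖C.val v‖ ^ 2 := pow_pos (norm_pos_iff.2 fun h => hv0 (C.inj v h)) 2
  have hPv : C.P v = (‖C.val v‖ ^ 2) ^ 2 := by
    rw [C.P_eq]
    ring
  have e4 : (l2 - l1) * C.M v v ≤ ε * C.R u v := by
    have f1 := mul_nonneg (show 0 ≤ β - m2 by linarith only [hm, hβ]) (C.P_nonneg v)
    have f2 := mul_le_mul_of_nonneg_right (show β - m1 ≤ ε by linarith only [hβ']) hRn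
    linarith
  have e5 : -l2 * C.M v v ≤ c * ε * C.R u v := by
    have := mul_le_mul_of_nonneg_left e4 hc0.le
    rw [← hcδ]
    linarith
  have e6 : C.S * ‖C.val v‖ ^ 2 ≤
      m2 * (‖C.val v‖ ^ 2) ^ 2 + (β + c * ε) * C.R u v := by
    have f1 := C.sob v
    have f2 : C.q l2 v = ‖v‖ ^ 2 + l2 * C.M v v := rfl
    rw [← hPv]
    linarith
  have hcε : 0 < c * ε := mul_pos hc0 hε0'
  have e7 := gap_real (β := β) (β' := β + c * ε) (Pu := C.P u) (K := K) h2 hm hβ.le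
    (by linarith only [hcε]) C.S_pos hy hRn (by rw [← hPv]; exact C.R_sq_le u v) e6
    (by rw [← hPv]; linarith)
  have e8 : (β + c * ε) ^ 2 ≤ (m1 + ε + c * ε) ^ 2 :=
    pow_le_pow_left₀ (by linarith only [h2, hm, hβ, hcε]) (by linarith only [hβ']) 2
  have e9 := mul_le_mul_of_nonneg_right e8 hK0.le
  linarith

theorem gap (a1 : C.Adm l1) (a2 : C.Adm l2) (hl : l1 < l2) (h2 : 0 < m2) (hm : m2 ≤ m1) :
    ∃ ε : ℝ, 0 < ε ∧ ∀ β : ℝ, m2 - ε ≤ β → β ≤ m1 + ε → ¬ C.GS l1 l2 m1 m2 β := by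
  obtain ⟨e1, he1, k1⟩ := C.gap_low a1 a2 hl h2 hm
  obtain ⟨e2, he2, k2⟩ := C.gap_high a1 a2 hl h2 hm
  refine ⟨min e1 e2, lt_min he1 he2, fun β hb hb' => ?_⟩
  rcases lt_or_ge β m2 with h | h
  · exact k1 β (by linarith [min_le_left e1 e2]) h
  rcases le_or_gt β m1 with h' | h'
  · exact C.gap_mid hl h h'
  · exact k2 β h' (by linarith [min_le_right e1 e2])

end Ctx
end CritSys
end
end

-- merged part: Pool.Agent.Work.MP_80ee1d_an.Eig
section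
/-!
The first eigenfunction and the spectral gap.

PLAN. `eig_of_min`: if `‖u‖² ≤ Λ M u u` then `ε ↦ q (-Λ) (u + ε • ψ)` is `≥ 0` (`q_nonneg`) and
vanishes at `0`, so its derivative `2 B (-Λ) u ψ` vanishes (`hasDerivAt_q`).
`eig_sign`: for such `u` let `w` be given by `exists_abs`; it is again a minimiser, so
`u₊ = w + u` and `u₋ = w - u` satisfy the eigenvalue equation, `val u₊ = |val u| + val u ≥ 0`,
`val u₋ ≥ 0`.  Each is zero or positive (`pos_of_eqn` with `l = -Λ`, `m = β = 0`).  Both positive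
is impossible: `M u₊ u₋ = M w w - M u u = 0` against `M_pos_of_pos`.  If `u₋ = 0`, `u = w`.
`exists_eig`: from `poin_opt` a sequence with `M = 1`, `‖u n‖² ≤ Λ + 1/(n+1)`; `decomp` (with
`v = u`): `M z z = 1` (`Rem.ma`), `‖z‖² + a' ≤ Λ` (`Rem.qa` with `l = 0`).  Take `±z`, normalise in
`L⁴`.  Gap: otherwise there are `h n` with `‖h n‖ = 1`, `M (h n) φ = 0`,
`1 - Λ M (h n) (h n) < 1/(n+1)`; the weak limit `z` has `Λ M z z = 1 ≥ ‖z‖²`, `M z φ = 0`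
(`Rem.my`), `z ≠ 0`; `eig_sign` and `M_pos_of_pos` give a contradiction.
-/

open MeasureTheory Filter Topology
open scoped RealInnerProductSpace

noncomputable section
namespace CritSys
namespace Ctx

variable {X : Type} [MeasurableSpace X] {H : Type} [NormedAddCommGroup H] [InnerProductSpace ℝ H]
  [CompleteSpace H] [TopologicalSpace.SeparableSpace H] {μ : Measure X} [IsFiniteMeasure μ]
  (C : Ctx H μ)

omit [CompleteSpace H] [TopologicalSpace.SeparableSpace H] in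
theorem eig_of_min {u : H} (h : ‖u‖ ^ 2 ≤ C.Λ * C.M u u) (ψ : H) : ⟪u, ψ⟫ = C.Λ * C.M u ψ := by
  have h0 : IsLocalMin (fun ε : ℝ => C.q (-C.Λ) (u + ε • ψ)) 0 := by
    refine Eventually.of_forall fun ε => ?_
    have h1 := C.q_nonneg le_rfl (u + ε • ψ)
    simp only [zero_smul, add_zero]
    refine le_trans ?_ h1
    rw [q]
    linarith
  have h1 := h0.hasDerivAt_eq_zero (C.hasDerivAt_q (-C.Λ) u ψ)
  rw [B] at h1
  linarith

omit [CompleteSpace H] [TopologicalSpace.SeparableSpace H] in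
theorem eig_sign {u : H} (h : ‖u‖ ^ 2 ≤ C.Λ * C.M u u) (hu : u ≠ 0) : C.Pos u ∨ C.Pos (-u) := by
  obtain ⟨w, hw, -, -, hn, hM, -⟩ := C.exists_abs u
  have hw' : ‖w‖ ^ 2 ≤ C.Λ * C.M w w := by
    rw [hM]
    exact (pow_le_pow_left₀ (norm_nonneg _) hn 2).trans h
  have hL := C.Lam_pos
  have p1 : 0 ≤ C.val (w + u) := by
    rw [map_add, hw, ← sub_neg_eq_add, sub_nonneg]
    exact neg_le_abs _
  have p2 : 0 ≤ C.val (w - u) := by
    rw [map_sub, hw, sub_nonneg]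
    exact le_abs_self _
  have e1 : C.Eqn (-C.Λ) 0 0 (w + u) 0 := fun ψ => by
    rw [B, inner_add_left, M_add1, C.eig_of_min h, C.eig_of_min hw']
    ring
  have e2 : C.Eqn (-C.Λ) 0 0 (w - u) 0 := fun ψ => by
    rw [B, inner_sub_left, M_sub1, C.eig_of_min h, C.eig_of_min hw']
    ring
  by_cases h1 : w + u = 0
  · right
    have e : w = -u := eq_neg_of_add_eq_zero_left h1
    have h2 : w - u ≠ 0 := fun h2 => hu (by
      have h3 : (2 : ℝ) • u = 0 := by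
        rw [two_smul, ← sub_neg_eq_add, ← e, ← neg_sub, h2, neg_zero]
      exact (smul_eq_zero.1 h3).resolve_left two_ne_zero)
    have h3 := (C.pos_of_eqn e2 (by linarith) le_rfl le_rfl p2 h2).smul (t := 1 / 2) (by norm_num)
    rwa [e, show (1 / 2 : ℝ) • (-u - u) = -u by module] at h3
  · left
    have h3 := C.pos_of_eqn e1 (by linarith) le_rfl le_rfl p1 h1
    have h2 : w - u = 0 := by
      by_contra h2
      have h4 := C.M_pos_of_pos h3 p2 h2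
      rw [M_add1, M_sub2, M_sub2, C.M_comm u w, hM] at h4
      linarith
    have h4 := h3.smul (t := 1 / 2) (by norm_num)
    rwa [sub_eq_zero.1 h2, show (1 / 2 : ℝ) • (u + u) = u by module] at h4

omit [CompleteSpace H] [TopologicalSpace.SeparableSpace H] in
theorem Eig_M_neg (a b : H) : C.M (-a) b = -C.M a b := by
  rw [← neg_one_smul ℝ a, M_smul1]
  ring

theorem Eig_lim (y : H)
    (h : ∀ η : ℝ, 0 < η → ∃ u, C.M u y = 0 ∧ ‖u‖ ^ 2 - C.Λ * C.M u u < η * ‖u‖ ^ 2) :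
    ∃ z, z ≠ 0 ∧ ‖z‖ ^ 2 ≤ C.Λ * C.M z z ∧ C.M z y = 0 := by
  have h1 : ∀ n : ℕ, ∃ u, ‖u‖ = 1 ∧ C.M u y = 0 ∧ 1 - 1 / ((n : ℝ) + 1) ≤ C.Λ * C.M u u := by
    intro n
    obtain ⟨u, hu1, hu2⟩ := h (1 / ((n : ℝ) + 1)) Nat.one_div_pos_of_nat
    have hu0 : u ≠ 0 := by
      rintro rfl
      have := C.poin' 0
      rw [norm_zero] at hu2 this
      linarith
    have hn : 0 < ‖u‖ := norm_pos_iff.2 hu0
    refine ⟨‖u‖⁻¹ • u, norm_smul_inv_norm (𝕜 := ℝ) hu0, by rw [M_smul1, hu1, mul_zero], ?_⟩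
    rw [M_smul1, M_smul2]
    have h2 : C.Λ * (‖u‖⁻¹ * (‖u‖⁻¹ * C.M u u)) = C.Λ * C.M u u / ‖u‖ ^ 2 := by
      field_simp
    rw [h2, le_div_iff₀ (by positivity)]
    linarith
  choose u hu1 hu2 hu3 using h1
  obtain ⟨φ, z, -, r, s, a', b', P', Q', R', hφ, hr, -, hR⟩ :=
    C.decomp u u 1 (fun n => (hu1 n).le) fun n => (hu1 n).le
  have h2 : 1 ≤ C.Λ * C.M z z := by
    have h3 : Tendsto (fun n => 1 - 1 / ((φ n : ℝ) + 1)) atTop (𝓝 (1 - 0)) :=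
      (tendsto_one_div_add_atTop_nhds_zero_nat.comp hφ.tendsto_atTop).const_sub 1
    rw [sub_zero] at h3
    refine le_of_tendsto_of_tendsto' h3 ((hR.ma z).const_mul C.Λ) fun n => ?_
    rw [← hr]
    exact hu3 _
  have h3 : ‖z‖ ^ 2 ≤ 1 := by
    have h4 := hR.qa 0 z
    simp only [← hr, q, hu1, zero_mul, add_zero, one_pow] at h4
    have h5 := tendsto_nhds_unique h4 tendsto_const_nhds
    linarith [hR.a0]
  have h4 : C.M z y = 0 := by
    have h5 := hR.my z y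
    simp only [← hr, hu2] at h5
    exact tendsto_nhds_unique h5 tendsto_const_nhds
  refine ⟨z, ?_, h3.trans h2, h4⟩
  rintro rfl
  have := C.poin' 0
  rw [norm_zero] at this
  linarith

theorem exists_eig : ∃ (φ : H) (γ : ℝ), C.Eig φ γ := by
  have hL := C.Lam_pos
  obtain ⟨z, hz0, hz, -⟩ := C.Eig_lim 0 fun η hη => by
    obtain ⟨u, hu0, hu⟩ := C.poin_opt (η * C.Λ / 2) (by positivity)
    refine ⟨u, by simp [M, T4_zero4], ?_⟩
    have h1 : ‖u‖ ^ 2 ≤ (C.Λ + η * C.Λ / 2) * C.M u u := hu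
    have h2 := mul_le_mul_of_nonneg_left (C.poin' u) hη.le
    have h3 : 0 < η * ‖u‖ ^ 2 := mul_pos hη (pow_pos (norm_pos_iff.2 hu0) 2)
    linarith
  obtain ⟨v, hv, hvm⟩ : ∃ v, C.Pos v ∧ ‖v‖ ^ 2 ≤ C.Λ * C.M v v := by
    rcases C.eig_sign hz hz0 with h | h
    · exact ⟨z, h, hz⟩
    · refine ⟨-z, h, ?_⟩
      rwa [norm_neg, Eig_M_neg, M_comm, Eig_M_neg, neg_neg]
  have hv0 : C.val v ≠ 0 := fun h => hv.ne_zero (C.inj v h)
  have hvn : 0 < ‖C.val v‖ := norm_pos_iff.2 hv0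
  have hφ : C.Pos (‖C.val v‖⁻¹ • v) := hv.smul (inv_pos.2 hvn)
  obtain ⟨γ, hγ, hgap⟩ : ∃ γ : ℝ, 0 < γ ∧ ∀ h, C.M h (‖C.val v‖⁻¹ • v) = 0 →
      γ * ‖h‖ ^ 2 ≤ ‖h‖ ^ 2 - C.Λ * C.M h h := by
    by_contra hc
    obtain ⟨x, hx0, hx, hxφ⟩ := C.Eig_lim (‖C.val v‖⁻¹ • v) fun η hη => by
      by_contra h
      exact hc ⟨η, hη, fun u hu => not_lt.1 fun h' => h ⟨u, hu, h'⟩⟩
    rcases C.eig_sign hx hx0 with h | h
    · exact (C.M_pos_of_pos h hφ.nonneg hφ.ne_zero).ne' hxφ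
    · have h1 := C.M_pos_of_pos h hφ.nonneg hφ.ne_zero
      rw [Eig_M_neg, hxφ, neg_zero] at h1
      exact lt_irrefl _ h1
  refine ⟨_, γ, hφ, ?_, fun ψ => ?_, hγ, hgap⟩
  · rw [map_smul]
    exact norm_smul_inv_norm (𝕜 := ℝ) hv0
  · rw [real_inner_smul_left, M_smul1, C.eig_of_min hvm]
    ring

end Ctx
end CritSys
end
end
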