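import Pool.Agent.Work.MP_80ee1d_an.PertA

/-!
Small positive solutions, part B: if the semitrivial solution `(w, 0)` is stable in the direction
`v`, a small positive solution `(u, v)` forces `β² ≤ (1 + ρ) m1 m2`.

PLAN. Norms are `L⁴` norms, `e = val φ`, `g = γ S`.  Choose `θ ∈ (0, 1/100]` with
`(1 - 23θ)² / (1 + 23θ) - 8θ ≥ (1 + 15θ) / (1 + ρ)` (any `θ ≤ min (1/1000) (ρ/1000)` works; prove
the final inequality by `nlinarith` in steps) and `δ = θ g / 100`.  `par` gives `x, y, ω > 0` for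
`u, v, w`; all norms are at most `(1 + θ)` times these, so `m1 x², m1 ω² ≤ 4 δ` (as
`x ≤ ‖u‖ + θ x`).  Let `d = w - u`, `A = ω + x`.  Then
`B l1 d ψ = m1 (T w w d ψ + T w u d ψ + T u u d ψ) - β T v v u ψ`; `proj` with
`N = 3 δ ‖d‖ + β ‖v‖² ‖u‖` gives `val d = d₀ e + h`, `‖h‖ ≤ θ |d₀| + E`, `E = 2 β ‖v‖² ‖u‖ / g`, and
`m1 A E ≤ θ β y²`.
(I) `B l1 w u = B l1 u w` gives `m1 (T w u w d + T w u u d) = β T v v u w ≥ (1 - 15θ) β y² x ω`;
inserting `val d` shows `d₀ > 0` and `m1 A d₀ (1 + 23θ) ≥ (1 - 23θ) β y²`.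
(II) The last hypothesis and `Eqn.q_eq` give `β (T w d v v + T u d v v) ≤ m2 P v`, so
`β ((1 - 23θ) A d₀ - 8 A E) ≤ (1 + 15θ) m2 y²`.  Combine and cancel `y²`.
-/

open MeasureTheory Filter Topology
open scoped RealInnerProductSpace

noncomputable section
namespace CritSys
theorem PertB_alg {θ ρ β m1 m2 x y ω d₀ Hn E t1 r1 s1 t2 r2 p : ℝ} (hθ : 0 < θ)
    (hθ1 : θ ≤ 1 / 1000) (hθρ : θ ≤ ρ / 1000) (hβ : 0 < β) (h1 : 0 < m1) (h2 : 0 < m2)
    (hx : 0 < x) (hy : 0 < y) (hω : 0 < ω)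
    (t1l : (1 - 15 * θ) * (x * ω * (ω + x)) ≤ t1) (t1u : t1 ≤ (1 + 15 * θ) * (x * ω * (ω + x)))
    (hr1 : |r1| ≤ 8 * (x * ω * (ω + x)) * Hn) (hI : m1 * (d₀ * t1 + r1) = β * s1)
    (hs1 : (1 - 15 * θ) * (y ^ 2 * (x * ω)) ≤ s1)
    (t2l : (1 - 15 * θ) * ((ω + x) * y ^ 2) ≤ t2) (hr2 : |r2| ≤ 8 * ((ω + x) * y ^ 2) * Hn)
    (hII : β * (d₀ * t2 + r2) ≤ m2 * p) (hp : p ≤ (1 + 15 * θ) * y ^ 4)
    (hH : Hn ≤ θ * |d₀| + E) (hE : m1 * (ω + x) * E ≤ θ * β * y ^ 2) :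
    β ^ 2 ≤ (1 + ρ) * (m1 * m2) := by
  have hA : 0 < ω + x := by positivity
  have hxω : 0 < x * ω := by positivity
  have hy2 : 0 < y ^ 2 := by positivity
  have k1 : m1 * r1 ≤ x * ω * (8 * θ * (m1 * (ω + x) * |d₀|) + 8 * (θ * β * y ^ 2)) := by
    have a1 : r1 ≤ 8 * (x * ω * (ω + x)) * (θ * |d₀| + E) :=
      (le_abs_self _).trans (hr1.trans (mul_le_mul_of_nonneg_left hH (by positivity)))
    have a2 := mul_le_mul_of_nonneg_left a1 h1.le
    have a3 := mul_le_mul_of_nonneg_left hE hxω.le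
    linarith only [a2, a3]
  have k2 : x * ω * ((1 - 15 * θ) * (β * y ^ 2)) ≤ β * s1 := by
    have := mul_le_mul_of_nonneg_left hs1 hβ.le
    linarith only [this]
  have hd : 0 < d₀ := by
    by_contra hd
    push Not at hd
    rw [abs_of_nonpos hd] at k1
    have a1 : m1 * (d₀ * t1) ≤ x * ω * ((1 - 15 * θ) * (m1 * (ω + x) * d₀)) := by
      have := mul_le_mul_of_nonpos_left t1l hd
      have := mul_le_mul_of_nonneg_left this h1.le
      linarith only [this]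
    have a2 : x * ω * ((1 - 15 * θ) * (β * y ^ 2)) ≤ x * ω * ((1 - 15 * θ) * (m1 * (ω + x) * d₀) +
        (8 * θ * (m1 * (ω + x) * -d₀) + 8 * (θ * β * y ^ 2))) := by
      linarith only [k2, hI, a1, k1]
    have a3 := le_of_mul_le_mul_left a2 hxω
    have a4 : m1 * (ω + x) * d₀ ≤ 0 := mul_nonpos_of_nonneg_of_nonpos (by positivity) hd
    have a5 : 0 < β * y ^ 2 := by positivity
    have a6 : 0 < 1 - 23 * θ := by linarith only [hθ1]
    linarith only [a3, mul_pos a6 a5, mul_nonpos_of_nonneg_of_nonpos a6.le a4]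
  rw [abs_of_pos hd] at k1 hH
  set z := m1 * (ω + x) * d₀ with hz
  have k3 : (1 - 23 * θ) * (β * y ^ 2) ≤ (1 + 23 * θ) * z := by
    have a1 : m1 * (d₀ * t1) ≤ x * ω * ((1 + 15 * θ) * z) := by
      have := mul_le_mul_of_nonneg_left t1u hd.le
      have := mul_le_mul_of_nonneg_left this h1.le
      rw [hz]; linarith only [this]
    have a2 : x * ω * ((1 - 15 * θ) * (β * y ^ 2)) ≤ x * ω * ((1 + 15 * θ) * z +
        (8 * θ * z + 8 * (θ * β * y ^ 2))) := by linarith only [k2, hI, a1, k1]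
    have a3 := le_of_mul_le_mul_left a2 hxω
    linarith only [a3]
  have k4 : β * ((1 - 23 * θ) * z - 8 * (θ * β * y ^ 2)) ≤ (1 + 15 * θ) * (m1 * m2) * y ^ 2 := by
    have a1 : -(8 * ((ω + x) * y ^ 2) * (θ * d₀ + E)) ≤ r2 :=
      (neg_le_neg (hr2.trans (mul_le_mul_of_nonneg_left hH (by positivity)))).trans
        (neg_abs_le _)
    have a2 := mul_le_mul_of_nonneg_left a1 h1.le
    have a3 := mul_le_mul_of_nonneg_left hE hy2.le
    have a4 := mul_le_mul_of_nonneg_left (mul_le_mul_of_nonneg_left t2l hd.le) h1.le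
    have a5 : y ^ 2 * ((1 - 23 * θ) * z - 8 * (θ * β * y ^ 2)) ≤ m1 * (d₀ * t2 + r2) := by
      rw [hz]; linarith only [a2, a3, a4]
    have a6 := mul_le_mul_of_nonneg_left a5 hβ.le
    have a7 := mul_le_mul_of_nonneg_left hII h1.le
    have a8 := mul_le_mul_of_nonneg_left hp (mul_pos h1 h2).le
    refine le_of_mul_le_mul_left ?_ hy2
    linarith only [a6, a7, a8]
  have k5 : β ^ 2 * ((1 - 23 * θ) ^ 2 - 8 * θ * (1 + 23 * θ)) ≤
      (1 + 15 * θ) * (1 + 23 * θ) * (m1 * m2) := by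
    have a1 := mul_le_mul_of_nonneg_left k4 (show 0 ≤ 1 + 23 * θ by positivity)
    have a2 := mul_le_mul_of_nonneg_left k3 (show 0 ≤ β * (1 - 23 * θ) by
      exact mul_nonneg hβ.le (by linarith only [hθ1]))
    refine le_of_mul_le_mul_left ?_ hy2
    linarith only [a1, a2]
  have hm : 0 < m1 * m2 := mul_pos h1 h2
  have k6 : β ^ 2 * (1 - 54 * θ) ≤ (1 + 39 * θ) * (m1 * m2) := by
    have a1 : 1 - 54 * θ ≤ (1 - 23 * θ) ^ 2 - 8 * θ * (1 + 23 * θ) := by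
      linarith only [sq_nonneg θ]
    have a2 : (1 + 15 * θ) * (1 + 23 * θ) ≤ 1 + 39 * θ := by
      linarith only [mul_le_mul_of_nonneg_left hθ1 hθ.le, hθ]
    have a3 := mul_le_mul_of_nonneg_left a1 (sq_nonneg β)
    have a4 := mul_le_mul_of_nonneg_right a2 hm.le
    linarith only [a3, a4, k5]
  have k7 : 1 + 39 * θ ≤ (1 + ρ) * (1 - 54 * θ) := by
    have a1 : 0 ≤ ρ := by linarith only [hθ, hθρ]
    linarith only [mul_le_mul_of_nonneg_left hθ1 a1, hθρ, a1]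
  have k8 := mul_le_mul_of_nonneg_right k7 hm.le
  refine le_of_mul_le_mul_right ?_ (show 0 < 1 - 54 * θ by linarith only [hθ1])
  linarith only [k6, k8]

theorem PertB_norm {X : Type} [MeasurableSpace X] {μ : Measure X} {e a : L4 μ} {θ x : ℝ}
    (he : ‖e‖ = 1) (hθ : θ ≤ 1 / 2) (hx : 0 < x) (h : ‖a - x • e‖ ≤ θ * x) :
    ‖a‖ ≤ 2 * x ∧ x ≤ 2 * ‖a‖ := by
  have h1 : ‖x • e‖ = x := by rw [norm_smul, he, Real.norm_of_nonneg hx.le, mul_one]
  have h2 := abs_norm_sub_norm_le a (x • e)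
  rw [h1] at h2
  have h3 := abs_le.1 (h2.trans h)
  have h4 := mul_le_mul_of_nonneg_right hθ hx.le
  constructor <;> linarith only [h3.1, h3.2, h4, hx]

theorem PertB_three {X : Type} [MeasurableSpace X] {μ : Measure X} {a b c h : L4 μ} {x y z : ℝ}
    (ha : ‖a‖ ≤ 2 * x) (hb : ‖b‖ ≤ 2 * y) (hc : ‖c‖ ≤ 2 * z) :
    |T4 a b c h| ≤ 8 * (x * y * z) * ‖h‖ := by
  refine (T4_abs_le a b c h).trans (mul_le_mul_of_nonneg_right ?_ (norm_nonneg _))
  have h1 := mul_le_mul ha hb (norm_nonneg _) ((norm_nonneg _).trans ha)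
  have h2 := mul_le_mul h1 hc (norm_nonneg _)
    ((mul_nonneg (norm_nonneg _) (norm_nonneg _)).trans h1)
  linarith

namespace Ctx

variable {X : Type} [MeasurableSpace X] {H : Type} [NormedAddCommGroup H] [InnerProductSpace ℝ H]
  {μ : Measure X} [IsFiniteMeasure μ] (C : Ctx H μ) {φ : H} {γ : ℝ}

theorem refined (hE : C.Eig φ γ) {ρ : ℝ} (hρ : 0 < ρ) : ∃ δ : ℝ, 0 < δ ∧
    ∀ (l1 l2 m1 m2 β : ℝ) (u v w : H), -C.Λ ≤ l1 → -C.Λ ≤ l2 → 0 < m1 → 0 < m2 → 0 < β →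
      C.Eqn l1 m1 β u v → C.Eqn l2 m2 β v u → C.Pos u → C.Pos v → C.Sol1 l1 m1 w → C.Pos w →
      m1 * ‖C.val u‖ ^ 2 + β * ‖C.val v‖ ^ 2 ≤ δ → m2 * ‖C.val v‖ ^ 2 + β * ‖C.val u‖ ^ 2 ≤ δ →
      m1 * ‖C.val w‖ ^ 2 ≤ δ → β * C.R w v ≤ C.q l2 v → β ^ 2 ≤ (1 + ρ) * (m1 * m2) := by
  set θ := min (1 / 1000) (ρ / 1000) with hθdef
  have hθ : 0 < θ := lt_min (by norm_num) (by positivity)
  have hθ1 : θ ≤ 1 / 1000 := min_le_left _ _
  have hθρ : θ ≤ ρ / 1000 := min_le_right _ _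
  have hg : 0 < γ * C.S := mul_pos hE.γ_pos C.S_pos
  set g := γ * C.S with hgdef
  refine ⟨θ * g / 1000, by positivity, ?_⟩
  intro l1 l2 m1 m2 β u v w a1 a2 h1 h2 hβ hu hv pu pv hw pw su sv sw hst
  have hδ : θ * g / 1000 ≤ θ / 2 * g := by linarith only [mul_pos hθ hg]
  have hθ' : θ ≤ 1 := by linarith only [hθ1]
  have hθ2 : θ ≤ 1 / 2 := by linarith only [hθ1]
  obtain ⟨x, hx, px, -⟩ := C.par hE a1 h1.le hβ.le hθ hθ' hu pu (su.trans hδ)
  obtain ⟨y, hy, py, -⟩ := C.par hE a2 h2.le hβ.le hθ hθ' hv pv (sv.trans hδ)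
  obtain ⟨ω, hω, pω, -⟩ := C.par hE a1 h1.le le_rfl hθ hθ' ((C.sol1_iff l1 m1 w w).1 hw) pw
    (by rw [zero_mul, add_zero]; exact sw.trans hδ)
  have he := hE.norm
  obtain pe : ‖C.val φ - (1 : ℝ) • C.val φ‖ ≤ θ * 1 := by
    rw [one_smul, sub_self, norm_zero]; linarith only [hθ]
  obtain ⟨nx, nx'⟩ := PertB_norm he hθ2 hx px
  obtain ⟨ny, ny'⟩ := PertB_norm he hθ2 hy py
  obtain ⟨nω, nω'⟩ := PertB_norm he hθ2 hω pω
  set d := w - u with hd
  have nu := norm_nonneg (C.val u)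
  have nv := norm_nonneg (C.val v)
  have nw := norm_nonneg (C.val w)
  have nd := norm_nonneg (C.val d)
  obtain su1 : m1 * ‖C.val u‖ ^ 2 ≤ θ * g / 1000 := by
    linarith only [su, mul_nonneg hβ.le (sq_nonneg ‖C.val v‖)]
  obtain suw : m1 * (‖C.val w‖ * ‖C.val u‖) ≤ θ * g / 1000 := by
    linarith only [su1, sw, mul_nonneg h1.le (sq_nonneg (‖C.val w‖ - ‖C.val u‖))]
  obtain hB : ∀ ψ, C.B l1 d ψ =
      m1 * (C.T w w d ψ + C.T w u d ψ + C.T u u d ψ) - β * C.T v v u ψ := by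
    intro ψ
    rw [hd, C.B_sub1, hw ψ, hu ψ, C.T_sub3, C.T_sub3, C.T_sub3, C.T_swap23 w u w ψ,
      C.T_swap13 w u u ψ]
    ring
  obtain hℓ : ∀ ψ, |m1 * (C.T w w d ψ + C.T w u d ψ + C.T u u d ψ) - β * C.T v v u ψ| ≤
      (3 * (θ * g / 1000) * ‖C.val d‖ + β * ‖C.val v‖ ^ 2 * ‖C.val u‖) * ‖C.val ψ‖ := by
    clear * - H X μ C w d u v nd m1 θ g sw suw su1 β γ h1 hβ
    intro ψ
    have nψ := norm_nonneg (C.val ψ)
    have b1 := abs_le.1 (C.T_abs_le w w d ψ)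
    have b2 := abs_le.1 (C.T_abs_le w u d ψ)
    have b3 := abs_le.1 (C.T_abs_le u u d ψ)
    have b4 := abs_le.1 (C.T_abs_le v v u ψ)
    have c0 := mul_nonneg nd nψ
    have c1 := mul_le_mul_of_nonneg_right sw c0
    have c2 := mul_le_mul_of_nonneg_right suw c0
    have c3 := mul_le_mul_of_nonneg_right su1 c0
    rw [abs_le]
    constructor
    · linarith only [c1, c2, c3, mul_le_mul_of_nonneg_left b1.1 h1.le,
        mul_le_mul_of_nonneg_left b2.1 h1.le,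
        mul_le_mul_of_nonneg_left b3.1 h1.le, mul_le_mul_of_nonneg_left b4.2 hβ.le]
    · linarith only [c1, c2, c3, mul_le_mul_of_nonneg_left b1.2 h1.le,
        mul_le_mul_of_nonneg_left b2.2 h1.le,
        mul_le_mul_of_nonneg_left b3.2 h1.le, mul_le_mul_of_nonneg_left b4.1 hβ.le]
  obtain ⟨hh, -⟩ := C.proj hE a1 (by clear * - θ g X μ H C d β v u ρ hρ hg hβ hB hℓ; positivity) hB hℓ
  set d₀ := C.M d φ / C.M φ φ
  set h := C.val d - d₀ • C.val φ with hhdef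
  have hdec : C.val d = d₀ • C.val φ + h := by rw [hhdef]; abel
  set E := 2 * (β * ‖C.val v‖ ^ 2 * ‖C.val u‖) / g with hEdef
  have hE0 : 0 ≤ E := by clear * - β X μ H C v u g hβ hg; positivity
  obtain hH : ‖h‖ ≤ θ * |d₀| + E := by
    clear * - X μ H C d d₀ h φ hdec he θ g β v u E hEdef hg ρ hρ γ hh hE0 hθ hθ'
    obtain b1 : ‖C.val d‖ ≤ |d₀| + ‖h‖ := by
      conv_lhs => rw [hdec]
      refine (norm_add_le _ _).trans (le_of_eq ?_)
      rw [norm_smul, he, mul_one, Real.norm_eq_abs]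
    obtain b2 : (3 * (θ * g / 1000) * ‖C.val d‖ + β * ‖C.val v‖ ^ 2 * ‖C.val u‖) / g =
        3 * θ / 1000 * ‖C.val d‖ + E / 2 := by
      clear * - θ g X μ H C d β v u E hEdef hg
      rw [hEdef]; field_simp
    rw [b2] at hh
    have b3 := mul_le_mul_of_nonneg_left b1 (show 0 ≤ 3 * θ / 1000 by positivity)
    linarith only [hh, b3, hE0, norm_nonneg h, mul_nonneg hθ.le (abs_nonneg d₀),
      mul_le_mul_of_nonneg_right hθ' (norm_nonneg h)]
  obtain hEE : m1 * (ω + x) * E ≤ θ * β * y ^ 2 := by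
    clear * - X μ H C v y nv ny m1 ω x u θ g w nω' nx' nu h1 γ suw su1 E β hEdef hg hω hx hy hβ hθ
    have b1 : ‖C.val v‖ ^ 2 ≤ 4 * y ^ 2 := by linarith only [pow_le_pow_left₀ nv ny 2]
    obtain b2 : m1 * (ω + x) * ‖C.val u‖ ≤ 4 * (θ * g / 1000) := by
      have := mul_le_mul_of_nonneg_right (add_le_add nω' nx') nu
      have := mul_le_mul_of_nonneg_left this h1.le
      linarith only [this, suw, su1]
    obtain b3 : m1 * (ω + x) * E = 2 * β * ‖C.val v‖ ^ 2 * (m1 * (ω + x) * ‖C.val u‖) / g := by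
      rw [hEdef]; ring
    rw [b3, div_le_iff₀ hg]
    have b4 := mul_le_mul b1 b2 (by positivity) (by positivity)
    have b5 := mul_le_mul_of_nonneg_left b4 hβ.le
    linarith only [b5, mul_pos (mul_pos (mul_pos hθ hβ) (pow_pos hy 2)) hg]
  have q1 := abs_le.1 (T4_approx he hθ.le hθ' hω.le hx.le hω.le zero_le_one pω px pω pe)
  have q2 := abs_le.1 (T4_approx he hθ.le hθ' hω.le hx.le hx.le zero_le_one pω px px pe)
  have q3 := abs_le.1 (T4_approx he hθ.le hθ' hy.le hy.le hx.le hω.le py py px pω)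
  have q4 := abs_le.1 (T4_approx he hθ.le hθ' hy.le hy.le hω.le zero_le_one py py pω pe)
  have q5 := abs_le.1 (T4_approx he hθ.le hθ' hy.le hy.le hx.le zero_le_one py py px pe)
  have q6 := abs_le.1 (T4_approx he hθ.le hθ' hy.le hy.le hy.le hy.le py py py py)
  have r1 := abs_le.1 (PertB_three (h := h) nω nx nω)
  have r2 := abs_le.1 (PertB_three (h := h) nω nx nx)
  have r3 := abs_le.1 (PertB_three (h := h) ny ny nω)
  have r4 := abs_le.1 (PertB_three (h := h) ny ny nx)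
  obtain hsplit : ∀ a b c : H, C.T a b c d = d₀ * T4 (C.val a) (C.val b) (C.val c) (C.val φ) +
      T4 (C.val a) (C.val b) (C.val c) h := by
    intro a b c
    rw [T, hdec, T4_add4, T4_smul4]
  obtain hI : m1 * (C.T w u w d + C.T w u u d) = β * C.T v v u w := by
    have b1 := hw u
    have b2 := hu w
    rw [C.B_comm] at b2
    rw [hd, C.T_sub4, C.T_sub4, C.T_swap24 w u w w, C.T_swap14 w u u u, C.T_swap34 w u w u]
    linarith only [b1, b2]
  obtain hII : β * (C.T v v w d + C.T v v u d) ≤ m2 * C.P v := by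
    have b1 := hv.q_eq
    rw [hd, C.T_sub4, C.T_sub4, C.T_swap34 v v u w]
    rw [C.R_comm w v] at hst
    unfold R at hst b1
    linarith only [hst, b1]
  rw [hsplit, hsplit] at hI hII
  refine PertB_alg (θ := θ) (x := x) (y := y) (ω := ω) (d₀ := d₀) (Hn := ‖h‖) (E := E)
    (t1 := T4 (C.val w) (C.val u) (C.val w) (C.val φ) + T4 (C.val w) (C.val u) (C.val u) (C.val φ))
    (r1 := T4 (C.val w) (C.val u) (C.val w) h + T4 (C.val w) (C.val u) (C.val u) h)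
    (s1 := C.T v v u w)
    (t2 := T4 (C.val v) (C.val v) (C.val w) (C.val φ) + T4 (C.val v) (C.val v) (C.val u) (C.val φ))
    (r2 := T4 (C.val v) (C.val v) (C.val w) h + T4 (C.val v) (C.val v) (C.val u) h)
    (p := C.P v) hθ hθ1 hθρ hβ h1 h2 hx hy hω (by linarith only [q1.1, q2.1])
    (by linarith only [q1.2, q2.2])
    (abs_le.2 ⟨by linarith only [r1.1, r2.1], by linarith only [r1.2, r2.2]⟩)
    (by linarith only [hI]) (by unfold T; linarith only [q3.1]) (by linarith only [q4.1, q5.1])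
    (abs_le.2 ⟨by linarith only [r3.1, r4.1], by linarith only [r3.2, r4.2]⟩)
    (by linarith only [hII]) (by unfold P T; linarith only [q6.2]) hH hEE

end Ctx
end CritSys
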