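import Pool.Agent.Work.MP_80ee1d_an.Dich
import Pool.Agent.Work.MP_80ee1d_an.Eig
import Pool.Agent.Work.MP_80ee1d_an.PertB
import Pool.Agent.Work.MP_80ee1d_an.BridgeB

-- merged part: Pool.Agent.Work.MP_80ee1d_an.Near
section
/-!
The complete picture when both coefficients are close to `-Λ`.

PLAN of `near_or`. `φ, γ` from `exists_eig`, `k = M φ φ > 0`, `e1 = Λ + l1`, `e2 = Λ + l2`,
`q l φ = (Λ + l) k`, `P φ = 1`.  Choose `ρ' ∈ (0, 1/2)` with `(1 + ρ)(1 - ρ')² > (1 + ρ')³`, let `δ` be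
the minimum of the constants of `uniq`, `onemode`, `scalar_est`, `refined` for `ρ'`, `K' = max K 1`,
and `ε` so small that all smallness conditions below hold (`e2 < ε`, `e1² m2 ≤ e2² m1`).
Least solutions `w1, w2` exist; `least_quot` with `z = φ`: `m_i q w_i ≤ (e_i k)²`, and
`m q w = (m ‖val w‖²)²`.
(c) `q l1 w1 ≤ (e1 k)² / m1 ≤ (e2 k)² / ((1+ρ) m2) ≤ q l2 w2` by `scalar_est`.
(a) `bh2 = bh l2 m2 l1` satisfies `bh2 (1-ρ') e2 k ≤ m2 e1 k` (`bh_le` with `v = φ`), so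
`bh2² < m1 m2`.  (u) the hypotheses of `lowerRange` hold by `uniq`.
(up) `bh1 < β` gives a ground state (`exists_of_bh_lt`, `least_q_eq`, `upper`).
(mid) if `m1 m2 ≤ β²`, `β ≤ bh1`: `β > bh2`, `exists_of_bh_lt` and `bound_core` give
`m1 P u + 2 β R + m2 P v = 4 En ≤ q l2 w2 ≤ (e2 k)² / m2`; `β ≤ bh1 ≤ m1 K'` (`bh_le` with
`v = w1`, `q_ratio` or `q_mono`); `β R w1 v ≤ q l2 v` (`bh_le`); `refined` gives
`β² ≤ (1+ρ') m1 m2`; `onemode` gives `(1-ρ') √m1 Z ≤ e1 k`, `e2 k ≤ (1+ρ')^(3/2) √m2 Z` with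
`Z = √m1 x + √m2 y`; squaring contradicts the choice of `ρ'`.
Finally `m1 m2 ≤ bh1²`: otherwise a `β` with `max bh1 bh2 < β < √(m1 m2)` contradicts (up) and
`lowerRange`.  `near`: `κ² m2 ≤ m1 - ρ` or `≥ m1 + ρ`; use `near_or` with `ρ / m1` and `K = 1 / ρ`,
resp. with the indices swapped and `K = 1` (`GS_swap`).
-/

open MeasureTheory Filter Topology
open scoped RealInnerProductSpace

noncomputable section
namespace CritSys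

theorem Near_rho {ρ : ℝ} (hρ : 0 < ρ) :
    ∃ r : ℝ, 0 < r ∧ r < 1 ∧ (1 + r) ^ 3 < (1 + ρ) * (1 - r) ^ 2 := by
  have h0 : 0 < min ρ 1 := lt_min hρ one_pos
  have h1 : min ρ 1 ≤ 1 := min_le_right _ _
  have h2 : min ρ 1 ≤ ρ := min_le_left _ _
  generalize min ρ 1 = t at h0 h1 h2
  refine ⟨t / 10, by positivity, by linarith only [h1], ?_⟩
  have h3 : (1 + t) * (1 - t / 10) ^ 2 ≤ (1 + ρ) * (1 - t / 10) ^ 2 :=
    mul_le_mul_of_nonneg_right (by linarith) (sq_nonneg _)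
  have h4 : t ^ 2 ≤ t := by linarith only [h0, h1, mul_nonneg_of_nonpos_of_nonpos (le_of_lt (Mathlib.Tactic.Linarith.sub_neg_of_lt h0)) (Mathlib.Tactic.Linarith.sub_nonpos_of_le h1)]
  have h5 : t ^ 3 ≤ t := by linarith only [h4, h1, mul_nonneg_of_nonpos_of_nonpos (Mathlib.Tactic.Linarith.sub_nonpos_of_le (sq_nonneg t)) (Mathlib.Tactic.Linarith.sub_nonpos_of_le h1)]
  have h6 : 0 ≤ t ^ 3 := by positivity
  have h7 : 0 ≤ t ^ 2 := by positivity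
  linarith only [h0, h3, h4, h6]

theorem Near_sq {x c L E : ℝ} (hE : 0 ≤ E) (hc : 0 ≤ c) (hL : c + 1 ≤ L) (h : x ^ 2 ≤ c * E ^ 2) :
    x ≤ L * E := by
  refine le_of_pow_le_pow_left₀ two_ne_zero (mul_nonneg (by linarith) hE) ?_
  rw [mul_pow]
  refine h.trans (mul_le_mul_of_nonneg_right ?_ (sq_nonneg _))
  linarith only [hL, hc, sq_nonneg L, mul_nonneg_of_nonpos_of_nonpos (Mathlib.Tactic.Linarith.sub_nonpos_of_le hc) (Mathlib.Tactic.Linarith.sub_nonpos_of_le hc), mul_nonneg_of_nonpos_of_nonpos (Mathlib.Tactic.Linarith.sub_nonpos_of_le hc) (Mathlib.Tactic.Linarith.sub_nonpos_of_le hL), mul_nonneg_of_nonpos_of_nonpos (Mathlib.Tactic.Linarith.sub_nonpos_of_le hL) (Mathlib.Tactic.Linarith.sub_nonpos_of_le hL)]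

theorem Near_tau {ρ r : ℝ} (hr : 0 < r) (h : (1 + r) ^ 3 < (1 + ρ) * (1 - r) ^ 2) :
    1 < (1 + ρ) * (1 - r) ^ 2 := by
  have : 1 ≤ (1 + r) ^ 3 := one_le_pow₀ (by linarith)
  linarith

theorem Near_c {ρ r m1 m2 E1 E2 a1 a2 : ℝ} (hρ : 0 < ρ) (hr : 0 < r) (hr1 : r < 1)
    (h : (1 + r) ^ 3 < (1 + ρ) * (1 - r) ^ 2) (h1 : 0 < m1) (h2 : 0 < m2) (ha : 0 ≤ a1)
    (hH : (1 + ρ) * E1 ^ 2 * m2 ≤ E2 ^ 2 * m1) (q1 : a1 * m1 ≤ E1 ^ 2)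
    (q2 : (1 - r) * E2 ^ 2 ≤ m2 * a2) : a1 ≤ a2 := by
  have ht := Near_tau hr h
  have hr' : 0 < 1 - r := by linarith
  have ht' : 1 ≤ (1 + ρ) * (1 - r) := by
    linarith only [ht, hρ, hr, hr1, hr', mul_pos (by linarith : (0 : ℝ) < 1 + ρ) (mul_pos hr hr')]
  have e1 : (1 + ρ) * (1 - r) * (a1 * m1) * m2 ≤ (1 + ρ) * (1 - r) * E1 ^ 2 * m2 := by gcongr
  have e2 : (1 - r) * ((1 + ρ) * E1 ^ 2 * m2) ≤ (1 - r) * (E2 ^ 2 * m1) := by gcongr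
  have e3 : (1 - r) * E2 ^ 2 * m1 ≤ m2 * a2 * m1 := by gcongr
  have e4 : 1 * (a1 * m1) * m2 ≤ (1 + ρ) * (1 - r) * (a1 * m1) * m2 := by gcongr
  have e5 : a1 * (m1 * m2) ≤ a2 * (m1 * m2) := by linarith only [e1, e2, e3, e4]
  exact le_of_mul_le_mul_right e5 (mul_pos h1 h2)

theorem Near_a {ρ r m1 m2 E1 E2 b R : ℝ} (hρ : 0 < ρ) (hr : 0 < r) (hr1 : r < 1)
    (h : (1 + r) ^ 3 < (1 + ρ) * (1 - r) ^ 2) (h1 : 0 < m1) (h2 : 0 < m2) (hE : 0 < E2)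
    (hb : 0 ≤ b) (hH : (1 + ρ) * E1 ^ 2 * m2 ≤ E2 ^ 2 * m1) (q1 : b * R ≤ E1)
    (q2 : (1 - r) * E2 ≤ m2 * R) : b ^ 2 < m1 * m2 := by
  have ht := Near_tau hr h
  have hr' : 0 < 1 - r := by linarith
  have e1 : b * ((1 - r) * E2) ≤ m2 * E1 := by
    calc b * ((1 - r) * E2) ≤ b * (m2 * R) := by gcongr
      _ = m2 * (b * R) := by ring
      _ ≤ m2 * E1 := by gcongr
  have e2 : (b * ((1 - r) * E2)) ^ 2 ≤ (m2 * E1) ^ 2 := by gcongr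
  have e3 : b ^ 2 * ((1 + ρ) * (1 - r) ^ 2) * E2 ^ 2 ≤ m1 * m2 * E2 ^ 2 := by
    calc b ^ 2 * ((1 + ρ) * (1 - r) ^ 2) * E2 ^ 2 = (1 + ρ) * (b * ((1 - r) * E2)) ^ 2 := by ring
      _ ≤ (1 + ρ) * (m2 * E1) ^ 2 := by gcongr
      _ = m2 * ((1 + ρ) * E1 ^ 2 * m2) := by ring
      _ ≤ m2 * (E2 ^ 2 * m1) := by gcongr
      _ = m1 * m2 * E2 ^ 2 := by ring
  have e4 : b ^ 2 * ((1 + ρ) * (1 - r) ^ 2) ≤ m1 * m2 :=
    le_of_mul_le_mul_right e3 (by positivity)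
  by_contra hc
  have hc' : m1 * m2 ≤ b ^ 2 := not_lt.1 hc
  have hm := mul_pos h1 h2
  have e5 : b ^ 2 * 1 < b ^ 2 * ((1 + ρ) * (1 - r) ^ 2) :=
    mul_lt_mul_of_pos_left ht (by linarith)
  linarith only [e4, hc, e5]

theorem Near_mid {ρ r m1 m2 E1 E2 β x y : ℝ} (hρ : 0 < ρ) (hr : 0 < r) (hr1 : r < 1)
    (h : (1 + r) ^ 3 < (1 + ρ) * (1 - r) ^ 2) (h1 : 0 < m1) (h2 : 0 < m2) (hE : 0 < E2)
    (hβ : 0 < β) (hx : 0 < x) (hy : 0 < y) (hH : (1 + ρ) * E1 ^ 2 * m2 ≤ E2 ^ 2 * m1)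
    (b1 : m1 * m2 ≤ β ^ 2) (b2 : β ^ 2 ≤ (1 + r) * (m1 * m2))
    (q1 : (1 - r) * (m1 * x + β * y) ≤ E1) (q2 : E2 ≤ (1 + r) * (β * x + m2 * y)) : False := by
  have hr' : 0 < 1 - r := by linarith
  have hU : 0 < m1 * x + β * y := by positivity
  have e0 : m1 * (β * x + m2 * y) ^ 2 ≤ (1 + r) * m2 * (m1 * x + β * y) ^ 2 := by
    have t1 : m1 * x ^ 2 * β ^ 2 ≤ m1 * x ^ 2 * ((1 + r) * (m1 * m2)) := by gcongr
    have t2 : m2 * y ^ 2 * (m1 * m2) ≤ m2 * y ^ 2 * β ^ 2 := by gcongr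
    have t3 : 0 ≤ r * (m1 * m2 * β * x * y) := by positivity
    have t4 : 0 ≤ r * (m2 * y ^ 2 * β ^ 2) := by positivity
    linarith only [t1, t2, t3, t4]
  have e1 : ((1 - r) * (m1 * x + β * y)) ^ 2 ≤ E1 ^ 2 := by gcongr
  have e2 : E2 ^ 2 ≤ ((1 + r) * (β * x + m2 * y)) ^ 2 := by gcongr
  have e3 : (1 + ρ) * (1 - r) ^ 2 * (m2 * (m1 * x + β * y) ^ 2) ≤
      (1 + r) ^ 3 * (m2 * (m1 * x + β * y) ^ 2) := by
    calc (1 + ρ) * (1 - r) ^ 2 * (m2 * (m1 * x + β * y) ^ 2)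
        = (1 + ρ) * ((1 - r) * (m1 * x + β * y)) ^ 2 * m2 := by ring
      _ ≤ (1 + ρ) * E1 ^ 2 * m2 := by gcongr
      _ ≤ E2 ^ 2 * m1 := hH
      _ ≤ ((1 + r) * (β * x + m2 * y)) ^ 2 * m1 := by gcongr
      _ = (1 + r) ^ 2 * (m1 * (β * x + m2 * y) ^ 2) := by ring
      _ ≤ (1 + r) ^ 2 * ((1 + r) * m2 * (m1 * x + β * y) ^ 2) := by gcongr
      _ = (1 + r) ^ 3 * (m2 * (m1 * x + β * y) ^ 2) := by ring
  have e4 := le_of_mul_le_mul_right e3 (by positivity)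
  linarith only [h, e4]

theorem Near_between {b c : ℝ} (hb : 0 ≤ b) (h : b ^ 2 < c) : ∃ β, b < β ∧ β ^ 2 < c := by
  have hc : 0 < c := lt_of_le_of_lt (sq_nonneg _) h
  have h1 : b < √c := Real.lt_sqrt_of_sq_lt h
  refine ⟨(b + √c) / 2, by linarith only [h1], ?_⟩
  have h2 : (b + √c) / 2 < √c := by linarith
  have h3 : ((b + √c) / 2) ^ 2 < √c ^ 2 := by gcongr
  rwa [Real.sq_sqrt hc.le] at h3

namespace Ctx

variable {X : Type} [MeasurableSpace X] {H : Type} [NormedAddCommGroup H] [InnerProductSpace ℝ H]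
  [CompleteSpace H] [TopologicalSpace.SeparableSpace H] {μ : Measure X} [IsFiniteMeasure μ]
  (C : Ctx H μ) {m1 m2 : ℝ}

omit [CompleteSpace H] [TopologicalSpace.SeparableSpace H] in
theorem Near_q_phi {φ : H} {γ : ℝ} (hE : C.Eig φ γ) (l : ℝ) :
    C.q l φ = (C.Λ + l) * C.M φ φ := by
  have h := hE.eq φ
  rw [real_inner_self_eq_norm_sq] at h
  unfold q
  rw [h]
  ring

omit [CompleteSpace H] [TopologicalSpace.SeparableSpace H] in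
theorem Near_least {φ : H} {γ : ℝ} (hE : C.Eig φ γ) {l m : ℝ} (a : C.Adm l) (hm : 0 < m) {w : H}
    (hw : C.Least l m w) : C.q l w * m ≤ ((C.Λ + l) * C.M φ φ) ^ 2 := by
  have h := C.least_quot a.1 hm hw φ
  rw [C.Near_q_phi hE, C.P_eq, hE.norm] at h
  simpa using h

omit [CompleteSpace H] [TopologicalSpace.SeparableSpace H] in
theorem Near_sol {l m : ℝ} {w : H} (hw : C.Sol1 l m w) :
    (m * ‖C.val w‖ ^ 2) ^ 2 = m * C.q l w := by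
  rw [hw.q_eq, C.P_eq]
  ring

omit [CompleteSpace H] [TopologicalSpace.SeparableSpace H] in
theorem Near_bh1 {l1 l2 K : ℝ} (a1 : C.Adm l1) (a2 : C.Adm l2)
    (hK : C.Λ + l2 ≤ K * (C.Λ + l1)) {w : H} (hw : C.Least l1 m1 w) :
    C.bh l1 m1 l2 ≤ m1 * max K 1 := by
  have hP : 0 < C.P w := C.P_pos hw.2.1.ne_zero
  have h := C.bh_le a2 hw w
  rw [C.R_self] at h
  have hq : C.q l1 w = m1 * C.P w := hw.1.q_eq
  have hq0 : 0 ≤ C.q l1 w := C.q_nonneg a1.1.le w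
  have he : 0 < C.Λ + l1 := by linarith [a1.1]
  have h2 : C.q l2 w ≤ max K 1 * C.q l1 w := by
    rcases le_total l1 l2 with hl | hl
    · have h3 := C.q_ratio hl w
      have h4 : (C.Λ + l1) * C.q l2 w ≤ (C.Λ + l1) * (K * C.q l1 w) := by
        calc _ ≤ (C.Λ + l2) * C.q l1 w := h3
          _ ≤ K * (C.Λ + l1) * C.q l1 w := by gcongr
          _ = _ := by ring
      exact (le_of_mul_le_mul_left h4 he).trans
        (mul_le_mul_of_nonneg_right (le_max_left _ _) hq0)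
    · calc C.q l2 w ≤ C.q l1 w := C.q_mono hl w
        _ = 1 * C.q l1 w := (one_mul _).symm
        _ ≤ _ := mul_le_mul_of_nonneg_right (le_max_right _ _) hq0
  refine le_of_mul_le_mul_right ?_ hP
  calc _ ≤ C.q l2 w := h
    _ ≤ max K 1 * C.q l1 w := h2
    _ = _ := by rw [hq]; ring

/-- The energy of a ground state above the second threshold. -/
theorem Near_energy (h1 : 0 < m1) (h2 : 0 < m2) {l1 l2 β : ℝ} (a2 : C.Adm l2)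
    (hβ : C.bh l2 m2 l1 < β) {u v w : H} (hg : C.IsGS l1 l2 m1 m2 β u v)
    (hw : C.Least l2 m2 w) : C.q l1 u + C.q l2 v ≤ C.q l2 w := by
  obtain ⟨w', y, hw', -, hy⟩ := C.exists_of_bh_lt a2 h2 hβ
  rw [C.R_comm] at hy
  have e := hg.neh.En_eq
  rw [C.least_q_eq hw hw']
  have : C.En l1 l2 m1 m2 β u v ≤ C.q l2 w' / 4 := by
    refine le_of_forall_pos_le_add fun η hη => ?_
    obtain ⟨u', v', hn, hle⟩ := C.bound_core (l1 := l1) (β := β) h1 h2 hw'.2.1.ne_zero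
      hw'.1.q_eq (Or.inl hy) hη
    exact (hg.2.2.2.2 u' v' hn).trans hle
  linarith

theorem near_or (h1 : 0 < m1) (h2 : 0 < m2) {ρ K : ℝ} (hρ : 0 < ρ) :
    ∃ ε : ℝ, 0 < ε ∧ ∀ l1 l2 : ℝ, C.Adm l1 → C.Adm l2 → C.Λ + l2 < ε →
      C.Λ + l2 ≤ K * (C.Λ + l1) → (1 + ρ) * (C.Λ + l1) ^ 2 * m2 ≤ (C.Λ + l2) ^ 2 * m1 →
      C.bh l2 m2 l1 ≤ C.bh l1 m1 l2 ∧ ∀ β : ℝ, 0 ≤ β →
        (C.GS l1 l2 m1 m2 β ↔ β < C.bh l2 m2 l1 ∨ C.bh l1 m1 l2 < β) := by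
  obtain ⟨φ, γ, hE⟩ := C.exists_eig
  obtain ⟨r, hr, hr1, hrρ⟩ := Near_rho hρ
  obtain ⟨δ1, hδ1, uq⟩ := C.uniq hE
  obtain ⟨δ2, hδ2, om⟩ := C.onemode hE hr
  obtain ⟨δ3, hδ3, se⟩ := C.scalar_est hE hr
  obtain ⟨δ4, hδ4, rf⟩ := C.refined hE hr
  obtain ⟨δ, hδ, d1, d2, d3, d4⟩ : ∃ δ : ℝ, 0 < δ ∧ δ ≤ δ1 ∧ δ ≤ δ2 ∧ δ ≤ δ3 ∧ δ ≤ δ4 :=
    ⟨min (min δ1 δ2) (min δ3 δ4), by positivity, (min_le_left _ _).trans (min_le_left _ _),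
      (min_le_left _ _).trans (min_le_right _ _), (min_le_right _ _).trans (min_le_left _ _),
      (min_le_right _ _).trans (min_le_right _ _)⟩
  have hk : 0 < C.M φ φ := C.M_pos hE.pos.ne_zero
  have hK1 : 1 ≤ max K 1 := le_max_right _ _
  obtain ⟨L, hL, L1, L2, L3, L4⟩ : ∃ L : ℝ, 0 < L ∧ 2 * m1 / m2 + 1 ≤ L ∧ 2 + 1 ≤ L ∧
      1 / (m1 * m2) + 1 ≤ L ∧ 1 / m2 ^ 2 + 1 ≤ L := by
    clear * - m1 m2 h1 h2 r hr hr1
    have t1 : 0 < 2 * m1 / m2 := by positivity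
    have t2 : 0 < 1 / (m1 * m2) := by positivity
    have t3 : 0 < 1 / m2 ^ 2 := by positivity
    exact ⟨2 * m1 / m2 + 2 + 1 / (m1 * m2) + 1 / m2 ^ 2 + 1, by positivity, by linarith only [hr, hr1, t2, t3],
      by linarith only [t1, t2, t3], by linarith only [hr, hr1, t1, t3], by linarith only [hr, hr1, t1, t2]⟩
  obtain ⟨N, hN, N1, N2, N3⟩ : ∃ N : ℝ, 0 < N ∧ 1 ≤ N ∧ m1 + m1 * max K 1 ≤ N ∧
      m2 + m1 * max K 1 ≤ N := by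
    have t1 : 0 < m1 * max K 1 := by positivity
    exact ⟨1 + m1 + m2 + m1 * max K 1, by positivity, by linarith only [h1, h2, t1], by linarith only [h2, hr, hr1], by linarith only [h1, hr, hr1]⟩
  refine ⟨δ / (N * L * C.M φ φ), by positivity, fun l1 l2 a1 a2 hε hK hH0 => ?_⟩
  have he1 : 0 < C.Λ + l1 := by linarith [a1.1]
  have he2 : 0 < C.Λ + l2 := by linarith [a2.1]
  have q1φ := C.Near_q_phi hE l1
  have nl1 := fun w (hw : C.Least l1 m1 w) => C.Near_least hE a1 h1 hw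
  have nl2 := fun w (hw : C.Least l2 m2 w) => C.Near_least hE a2 h2 hw
  have om' := om l1 l2 m1 m2
  have se' := se l2 m2
  have hsm : N * (L * ((C.Λ + l2) * C.M φ φ)) ≤ δ := by
    rw [lt_div_iff₀ (by positivity)] at hε
    linarith
  have hH : (1 + ρ) * ((C.Λ + l1) * C.M φ φ) ^ 2 * m2 ≤ ((C.Λ + l2) * C.M φ φ) ^ 2 * m1 := by
    have := mul_le_mul_of_nonneg_right hH0 (sq_nonneg (C.M φ φ))
    linarith
  have hE1 : 0 < (C.Λ + l1) * C.M φ φ := mul_pos he1 hk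
  have hE2 : 0 < (C.Λ + l2) * C.M φ φ := mul_pos he2 hk
  generalize (C.Λ + l1) * C.M φ φ = E1 at *
  generalize (C.Λ + l2) * C.M φ φ = E2 at *
  have hLE : 0 < L * E2 := mul_pos hL hE2
  have hsm1 : L * E2 ≤ δ := (le_mul_of_one_le_left hLE.le N1).trans hsm
  have hH1 : E1 ^ 2 * m2 ≤ E2 ^ 2 * m1 := by
    have : 0 ≤ ρ * E1 ^ 2 * m2 := by positivity
    linarith only [hH, this]
  have qn1 := C.q_nonneg a1.1.le
  have qn2 := C.q_nonneg a2.1.le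
  -- smallness of the scalar solutions of bounded energy
  have sm1 : ∀ w w1 w2, C.Sol1 l1 m1 w → C.Least l1 m1 w1 → C.Least l2 m2 w2 →
      C.q l1 w ≤ C.q l1 w1 + C.q l2 w2 → m1 * ‖C.val w‖ ^ 2 ≤ δ := by
    intro w w1 w2 hw hw1 hw2 hle
    refine (Near_sq hE2.le (by positivity) L1 ?_).trans hsm1
    rw [C.Near_sol hw, div_mul_eq_mul_div, le_div_iff₀ h2]
    have t1 := mul_le_mul_of_nonneg_right (nl1 w1 hw1) h2.le
    have t2 := mul_le_mul_of_nonneg_right (nl2 w2 hw2) h1.le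
    have t3 := mul_le_mul_of_nonneg_right hle (mul_pos h1 h2).le
    linarith
  have sm2 : ∀ w w1 w2, C.Sol1 l2 m2 w → C.Least l1 m1 w1 → C.Least l2 m2 w2 →
      C.q l2 w ≤ C.q l1 w1 + C.q l2 w2 → m2 * ‖C.val w‖ ^ 2 ≤ δ := by
    intro w w1 w2 hw hw1 hw2 hle
    refine (Near_sq hE2.le (by positivity) L2 ?_).trans hsm1
    rw [C.Near_sol hw]
    refine le_of_mul_le_mul_right ?_ h1
    have t1 := mul_le_mul_of_nonneg_right (nl1 w1 hw1) h2.le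
    have t2 := mul_le_mul_of_nonneg_right (nl2 w2 hw2) h1.le
    have t3 := mul_le_mul_of_nonneg_right hle (mul_pos h1 h2).le
    linarith
  have lr : ∀ β, 0 ≤ β → β ^ 2 < m1 * m2 →
      (C.GS l1 l2 m1 m2 β ↔ β < C.bh l1 m1 l2 ∧ β < C.bh l2 m2 l1) := by
    intro β hβ hd
    refine C.lowerRange a1 a2 h1 h2 hβ hd ?_ ?_
    · intro w w1 w2 hw hp hw1 hw2 hle
      rw [uq l1 m1 w w1 a1.1.le h1 hw hp hw1.1 hw1.2.1 ((sm1 w w1 w2 hw hw1 hw2 hle).trans d1)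
        ((sm1 w1 w1 w2 hw1.1 hw1 hw2 (by linarith [qn2 w2])).trans d1)]
      exact hw1
    · intro w w1 w2 hw hp hw1 hw2 hle
      rw [uq l2 m2 w w2 a2.1.le h2 hw hp hw2.1 hw2.2.1 ((sm2 w w1 w2 hw hw1 hw2 hle).trans d1)
        ((sm2 w2 w1 w2 hw2.1 hw1 hw2 (by linarith [qn1 w1])).trans d1)]
      exact hw2
  obtain ⟨w1, hw1⟩ := C.least_exists a1 h1
  obtain ⟨w2, hw2⟩ := C.least_exists a2 h2
  have s1 := sm1 w1 w1 w2 hw1.1 hw1 hw2 (by linarith [qn2 w2])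
  have s2 := sm2 w2 w1 w2 hw2.1 hw1 hw2 (by linarith [qn1 w1])
  obtain ⟨se1, se2⟩ := se' w2 a2.1.le h2 hw2.1 hw2.2.1 (s2.trans d3)
  have hc : C.q l1 w1 ≤ C.q l2 w2 :=
    Near_c hρ hr hr1 hrρ h1 h2 (qn1 w1) hH (nl1 w1 hw1) se1
  have b1 : 0 ≤ C.bh l1 m1 l2 := C.bh_nonneg a2
  have b2 : 0 ≤ C.bh l2 m2 l1 := C.bh_nonneg a1
  have ha : C.bh l2 m2 l1 ^ 2 < m1 * m2 :=
    Near_a hρ hr hr1 hrρ h1 h2 hE2 b2 hH (q1φ ▸ C.bh_le a1 hw2 φ) se2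
  have up : ∀ β, C.bh l1 m1 l2 < β → C.GS l1 l2 m1 m2 β := by
    intro β hβ
    obtain ⟨w, y, hw, -, hy⟩ := C.exists_of_bh_lt a1 h1 hβ
    exact C.upper a1 a2 h1 h2 (by linarith) hw hw2 (by rw [C.least_q_eq hw hw1]; exact hc) hy
  have mid : ∀ β, 0 ≤ β → m1 * m2 ≤ β ^ 2 → β ≤ C.bh l1 m1 l2 → ¬ C.GS l1 l2 m1 m2 β := by
    clear * - m1 m2 X H μ C l1 l2 h1 h2 ha b2 w2 a2 hw2 K a1 hK w1 hw1 E2 nl2 L hE2 L3 qn2 L4 qn1 δ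
      N N2 hL hsm N3 r rf δ4 d4 s1 E1 om' δ2 d2 ρ hρ hr hr1 hrρ hH
    rintro β hβ hd hb ⟨u, v, hg⟩
    have hm := mul_pos h1 h2
    have hβ2 : C.bh l2 m2 l1 < β := lt_of_pow_lt_pow_left₀ 2 hβ (ha.trans_le hd)
    have hβ0 : 0 < β := lt_of_le_of_lt b2 hβ2
    have hen := C.Near_energy h1 h2 a2 hβ2 hg hw2
    have hβK : β ≤ m1 * max K 1 := hb.trans (C.Near_bh1 a1 a2 hK hw1)
    have hR := mul_nonneg hβ (C.R_nonneg u v)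
    have hR' := mul_nonneg hβ (C.R_nonneg v u)
    have eu := hg.1.q_eq
    have ev := hg.2.1.q_eq
    rw [C.P_eq] at eu ev
    have t2 := nl2 w2 hw2
    have nu : ‖C.val u‖ ^ 2 ≤ L * E2 := by
      clear * - X μ H C u m1 m2 L E2 hE2 h1 h2 L3 hm l2 w2 l1 v β hen hR eu qn2 t2
      refine Near_sq hE2.le (by positivity) L3 ?_
      rw [div_mul_eq_mul_div, le_div_iff₀ hm]
      have t3 : m1 * ‖C.val u‖ ^ 4 ≤ C.q l2 w2 := by linarith [qn2 v]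
      have t4 := mul_le_mul_of_nonneg_right t3 h2.le
      linarith
    have nv : ‖C.val v‖ ^ 2 ≤ L * E2 := by
      clear * - X μ H C v m2 L E2 hE2 h2 L4 l2 w2 l1 u β hen hR' ev qn1 t2
      refine Near_sq hE2.le (by positivity) L4 ?_
      rw [div_mul_eq_mul_div, le_div_iff₀ (by positivity)]
      have t3 : m2 * ‖C.val v‖ ^ 4 ≤ C.q l2 w2 := by linarith [qn1 u]
      have t4 := mul_le_mul_of_nonneg_right t3 h2.le
      linarith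
    have su : m1 * ‖C.val u‖ ^ 2 + β * ‖C.val v‖ ^ 2 ≤ δ := by
      clear * - m1 X μ H C u β v N L E2 δ K nu h1 hβK nv N2 hL hE2 hsm
      calc _ ≤ m1 * (L * E2) + m1 * max K 1 * (L * E2) := by gcongr
        _ = (m1 + m1 * max K 1) * (L * E2) := by ring
        _ ≤ N * (L * E2) := by gcongr
        _ ≤ δ := hsm
    have sv : m2 * ‖C.val v‖ ^ 2 + β * ‖C.val u‖ ^ 2 ≤ δ := by
      clear * - m2 X μ H C v β u N L E2 δ m1 K nv h2 hβK nu h1 N3 hL hE2 hsm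
      calc _ ≤ m2 * (L * E2) + m1 * max K 1 * (L * E2) := by gcongr
        _ = (m2 + m1 * max K 1) * (L * E2) := by ring
        _ ≤ N * (L * E2) := by gcongr
        _ ≤ δ := hsm
    have hst : β * C.R w1 v ≤ C.q l2 v :=
      (mul_le_mul_of_nonneg_right hb (C.R_nonneg _ _)).trans (C.bh_le a2 hw1 v)
    have hrf := rf l1 l2 m1 m2 β u v w1 a1.1.le a2.1.le h1 h2 hβ0 hg.1 hg.2.1 hg.2.2.1 hg.2.2.2.1
      hw1.1 hw1.2.1 (su.trans d4) (sv.trans d4) (s1.trans d4) hst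
    obtain ⟨x, y, hx, hy, o1, o2⟩ := om' β u v a1.1.le a2.1.le h1.le h2.le hβ hg.1 hg.2.1 hg.2.2.1
      hg.2.2.2.1 (su.trans d2) (sv.trans d2)
    exact Near_mid hρ hr hr1 hrρ h1 h2 hE2 hβ0 hx hy hH hd hrf o1 o2
  have hb : m1 * m2 ≤ C.bh l1 m1 l2 ^ 2 := by
    by_contra hc'
    obtain ⟨β, hβ, hd⟩ := Near_between b1 (not_le.1 hc')
    exact absurd ((lr β (by linarith) hd).1 (up β hβ)).1 (not_lt.2 hβ.le)
  refine ⟨(lt_of_pow_lt_pow_left₀ 2 b1 (ha.trans_le hb)).le, fun β hβ => ?_⟩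
  rcases lt_or_ge (β ^ 2) (m1 * m2) with hd | hd
  · have hβ1 : β < C.bh l1 m1 l2 := lt_of_pow_lt_pow_left₀ 2 b1 (hd.trans_le hb)
    rw [lr β hβ hd]
    exact ⟨fun h => Or.inl h.2, fun h => ⟨hβ1, h.resolve_right (not_lt.2 hβ1.le)⟩⟩
  · have hβ2 : C.bh l2 m2 l1 < β := lt_of_pow_lt_pow_left₀ 2 hβ (ha.trans_le hd)
    refine ⟨fun h => Or.inr ?_, fun h => up β (h.resolve_left (not_lt.2 hβ2.le))⟩
    by_contra hc'
    exact mid β hβ hd (not_lt.1 hc') h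

theorem near (h1 : 0 < m1) (h2 : 0 < m2) {ρ : ℝ} (hρ : 0 < ρ) :
    ∃ ε : ℝ, 0 < ε ∧ ∀ l1 l2 : ℝ, -C.Λ < l1 → l1 ≤ l2 → l2 < 0 → l2 < -C.Λ + ε →
      ρ ≤ (C.Λ + l1) / (C.Λ + l2) → ρ ≤ |((C.Λ + l1) / (C.Λ + l2)) ^ 2 * m2 - m1| →
      ∀ β : ℝ, 0 ≤ β → (C.GS l1 l2 m1 m2 β ↔
        β < min (C.bh l1 m1 l2) (C.bh l2 m2 l1) ∨ max (C.bh l1 m1 l2) (C.bh l2 m2 l1) < β) := by
  obtain ⟨ε1, hε1, A⟩ := C.near_or h1 h2 (ρ := ρ / m1) (K := 1 / ρ) (by positivity)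
  obtain ⟨ε2, hε2, B⟩ := C.near_or h2 h1 (ρ := ρ / m1) (K := 1) (by positivity)
  refine ⟨min ε1 ε2, lt_min hε1 hε2, fun l1 l2 hl1 hl hl2 hε hκ hd β hβ => ?_⟩
  have a1 : C.Adm l1 := ⟨hl1, by linarith only [hl, hl2]⟩
  have a2 : C.Adm l2 := ⟨by linarith, hl2⟩
  have he1 : 0 < C.Λ + l1 := by linarith
  have he2 : 0 < C.Λ + l2 := by linarith
  have t1 := min_le_left ε1 ε2
  have t2 := min_le_right ε1 ε2
  have hsq : 0 < (C.Λ + l2) ^ 2 := by positivity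
  rw [le_div_iff₀ he2] at hκ
  rw [div_pow] at hd
  have hκ2 : (C.Λ + l1) ^ 2 / (C.Λ + l2) ^ 2 * m2 * (C.Λ + l2) ^ 2 = (C.Λ + l1) ^ 2 * m2 := by
    field_simp
  have hρm : ρ / m1 * m1 = ρ := by field_simp
  have hρ0 : 0 < ρ / m1 := by positivity
  rcases le_abs'.1 hd with h | h
  · have h' : (C.Λ + l1) ^ 2 * m2 ≤ (m1 - ρ) * (C.Λ + l2) ^ 2 := by
      rw [← hκ2]
      exact mul_le_mul_of_nonneg_right (by linarith) hsq.le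
    obtain ⟨hle, hiff⟩ := A l1 l2 a1 a2 (by linarith)
      (by rw [one_div, inv_mul_eq_div, le_div_iff₀ hρ]; linarith)
      (by
        calc (1 + ρ / m1) * (C.Λ + l1) ^ 2 * m2 = (1 + ρ / m1) * ((C.Λ + l1) ^ 2 * m2) := by ring
          _ ≤ (1 + ρ / m1) * ((m1 - ρ) * (C.Λ + l2) ^ 2) := by gcongr
          _ = (m1 - ρ + ρ / m1 * m1 - ρ / m1 * ρ) * (C.Λ + l2) ^ 2 := by ring
          _ ≤ m1 * (C.Λ + l2) ^ 2 := by
            refine mul_le_mul_of_nonneg_right ?_ hsq.le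
            have := mul_pos hρ0 hρ
            linarith only [hρm, this]
          _ = _ := by ring)
    rw [min_eq_right hle, max_eq_left hle]
    exact hiff β hβ
  · have h' : (m1 + ρ) * (C.Λ + l2) ^ 2 ≤ (C.Λ + l1) ^ 2 * m2 := by
      rw [← hκ2]
      exact mul_le_mul_of_nonneg_right (by linarith) hsq.le
    obtain ⟨hle, hiff⟩ := B l2 l1 a2 a1 (by linarith) (by linarith)
      (by
        calc (1 + ρ / m1) * (C.Λ + l2) ^ 2 * m1 = (m1 + ρ / m1 * m1) * (C.Λ + l2) ^ 2 := by ring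
          _ ≤ _ := by rw [hρm]; exact h')
    rw [min_eq_left hle, max_eq_right hle, C.GS_swap]
    exact hiff β hβ

end Ctx
end CritSys
end
end

-- merged part: Pool.Agent.Work.MP_80ee1d_an.Expl
section
/-!
An explicit range of existence.

PLAN. Put `δ = l2 - l1 > 0`, take `φ, σ` from `exists_phi`.  Since `Λ + l1 < Λ + l2`, the last
hypothesis gives `β < m2`.  Choose `ε > 0` with `m1 + ε (1 + |l2| / δ) < m1 S / σ` and, if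
`m1 < m2`, also `(m1 + ε)² < m1 m2`.  Then `β² < m1 m2` (if `β ≤ m1` use `β < m2`; if `m1 < β`
then `m1 < m2`).  Apply `alt`.
Third case: `picone_sol1` gives `m2 R w u ≤ q l2 u`, `q_ratio` gives
`(Λ + l1) m2 R ≤ (Λ + l2) q l1 u ≤ (Λ + l2) β R`, so `R = 0`, against `R_pos`.
Second case: `m1 R w v ≤ q l1 v = q l2 v - δ M v v ≤ β R w v - δ M v v`, so
`δ M v v ≤ (β - m1) R w v`; for `β ≤ m1` this contradicts `M_pos`.  For `m1 < β < m1 + ε`: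
`S ‖val v‖² ≤ ‖v‖² = q l2 v + |l2| M v v ≤ β' R w v ≤ β' ‖val w‖² ‖val v‖²` with
`β' = m1 + ε (1 + |l2| / δ)`, so `q l1 w = m1 ‖val w‖⁴ ≥ m1 S² / β'²`.  But `Low` at `(φ, φ)` with
the bound `σ² / (4 m1)` (valid because `m1 ≤ β`, `m1 ≤ m2`: the quadratic part dominates
`m1 (s + t)²`) gives `q l1 w ≤ σ² / m1`.
-/

open MeasureTheory Filter Topology
open scoped RealInnerProductSpace

noncomputable section
namespace CritSys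
namespace Ctx

variable {X : Type} [MeasurableSpace X] {H : Type} [NormedAddCommGroup H] [InnerProductSpace ℝ H]
  [CompleteSpace H] [TopologicalSpace.SeparableSpace H] {μ : Measure X} [IsFiniteMeasure μ]
  (C : Ctx H μ) {l1 l2 m1 m2 : ℝ}

omit [CompleteSpace H] [TopologicalSpace.SeparableSpace H] in
theorem expl_ub {φ : H} {σ β : ℝ} (hP : C.P φ = 1) (hq1 : C.q l1 φ ≤ σ) (hq2 : C.q l2 φ ≤ σ)
    (h1 : 0 < m1) (hb : m1 ≤ β) (hm : m1 ≤ m2) : C.UbJ l1 l2 m1 m2 β φ φ (σ ^ 2 / (4 * m1)) := by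
  intro s t hs ht
  rw [R_self, hP, FF, le_div_iff₀ (by positivity)]
  have e1 := mul_le_mul_of_nonneg_left hq1 hs
  have e2 := mul_le_mul_of_nonneg_left hq2 ht
  have e3 := mul_le_mul_of_nonneg_right hb (mul_nonneg hs ht)
  have e4 := mul_le_mul_of_nonneg_right hm (sq_nonneg t)
  have e5 : (s * C.q l1 φ + t * C.q l2 φ) / 2 - (m1 * 1 * s ^ 2 + 2 * β * 1 * s * t +
      m2 * 1 * t ^ 2) / 4 ≤ (s + t) * σ / 2 - m1 * (s + t) ^ 2 / 4 := by clear * - s X H μ C l1 φ t l2 m1 β m2 σ e1 e2 e3 e4; nlinarith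
  have e6 := mul_le_mul_of_nonneg_right e5 (show (0 : ℝ) ≤ 4 * m1 by positivity)
  clear * - s X H μ C l1 φ t l2 m1 β m2 σ e6; nlinarith [sq_nonneg (σ - m1 * (s + t))]

theorem lowerExplicit (a1 : C.Adm l1) (a2 : C.Adm l2) (hl : l1 < l2) (h1 : 0 < m1)
    (h2 : 0 < m2) : ∃ ε : ℝ, 0 < ε ∧ ∀ β : ℝ, 0 ≤ β → β < m1 + ε →
      β * (C.Λ + l2) < (C.Λ + l1) * m2 → C.GS l1 l2 m1 m2 β := by
  obtain ⟨φ, σ, hφ, -, hP, hq1, hq2, hσ, hσS⟩ := C.exists_phi a1 a2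
  have hδ : 0 < l2 - l1 := sub_pos.2 hl
  have hL1 : 0 < C.Λ + l1 := by linarith [a1.1]
  have hL2 : 0 < C.Λ + l2 := by linarith [a2.1]
  have hl2 : 0 < -l2 := by linarith [a2.2]
  obtain ⟨K, hK⟩ : ∃ K : ℝ, K = 1 + -l2 / (l2 - l1) := ⟨_, rfl⟩
  have hK0 : 0 < K := by rw [hK]; positivity
  obtain ⟨ε₂, hε₂, hm⟩ : ∃ ε₂ : ℝ, 0 < ε₂ ∧ (m1 < m2 → (m1 + ε₂) ^ 2 ≤ m1 * m2) := by
    by_cases h : m1 < m2
    · refine ⟨√(m1 * m2) - m1, ?_, fun _ => ?_⟩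
      · rw [sub_pos, Real.lt_sqrt h1.le]
        linarith only [h1, h, mul_pos_of_neg_of_neg (Mathlib.Tactic.Linarith.sub_neg_of_lt h1) (Mathlib.Tactic.Linarith.sub_neg_of_lt h)]
      · rw [add_sub_cancel, Real.sq_sqrt (by positivity)]
    · exact ⟨1, one_pos, fun h' => absurd h' h⟩
  obtain ⟨ε₁, hε₁, hs⟩ : ∃ ε₁ : ℝ, 0 < ε₁ ∧ (m1 + ε₁ * K) * σ < m1 * C.S := by
    clear * - m1 X H μ C σ h1 hσS K hK0 hσ
    have hd : 0 < m1 * (C.S - σ) := mul_pos h1 (sub_pos.2 hσS)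
    refine ⟨m1 * (C.S - σ) / (2 * K * σ), by positivity, ?_⟩
    have : m1 * (C.S - σ) / (2 * K * σ) * K * σ = m1 * (C.S - σ) / 2 := by field_simp
    nlinarith
  refine ⟨min ε₁ ε₂, lt_min hε₁ hε₂, fun β hβ hb hr => ?_⟩
  have hb1 : β < m1 + ε₁ := hb.trans_le (by linarith [min_le_left ε₁ ε₂])
  have hb2 : β < m1 + ε₂ := hb.trans_le (by linarith only [min_le_right ε₁ ε₂])
  have hβ2 : β < m2 := by
    have : (C.Λ + l1) * m2 < (C.Λ + l2) * m2 := mul_lt_mul_of_pos_right (by linarith) h2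
    exact lt_of_mul_lt_mul_right (by linarith : β * (C.Λ + l2) < m2 * (C.Λ + l2)) hL2.le
  have hd : β ^ 2 < m1 * m2 := by
    rcases le_or_gt β m1 with h | h
    · linarith only [h, hβ, hβ2, h1, mul_le_mul_of_nonneg_right h hβ, mul_lt_mul_of_pos_left hβ2 h1]
    · exact (pow_lt_pow_left₀ hb2 hβ two_ne_zero).trans_le (hm (h.trans hβ2))
  rcases C.alt a1 a2 h1 h2 hβ hd with h | ⟨w, v, hw, hp, hv, hq, hlow⟩ | ⟨w, u, hw, hp, hu, hq, -⟩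
  · exact h
  · exfalso
    have hR := C.R_pos hp hv
    have hM := C.M_pos hv
    have e1 := C.picone_sol1 hw hp v
    have e2 := C.q_sub_q l1 l2 v
    have e3 : (l2 - l1) * C.M v v ≤ (β - m1) * C.R w v := by linarith
    have hβ1 : m1 < β := by
      by_contra hc
      have := mul_nonpos_of_nonpos_of_nonneg (sub_nonpos.2 (not_lt.1 hc)) hR.le
      linarith [mul_pos hδ hM]
    have e4 : C.M v v ≤ ε₁ / (l2 - l1) * C.R w v := by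
      clear * - X H μ C v ε₁ l2 l1 w hδ β m1 hq e1 e2 hb1 hR
      rw [div_mul_eq_mul_div, le_div_iff₀ hδ]
      nlinarith [mul_le_mul_of_nonneg_right (show β - m1 ≤ ε₁ by linarith) hR.le]
    have e5 : ‖v‖ ^ 2 ≤ (m1 + ε₁ * K) * C.R w v := by
      have f1 : ‖v‖ ^ 2 = C.q l2 v + -l2 * C.M v v := by rw [q]; ring
      have f2 := mul_le_mul_of_nonneg_left e4 hl2.le
      have f3 := mul_le_mul_of_nonneg_right hb1.le hR.le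
      have f4 : (m1 + ε₁ * K) * C.R w v =
          (m1 + ε₁) * C.R w v + -l2 * (ε₁ / (l2 - l1) * C.R w v) := by rw [hK]; ring
      linarith
    have hv2 : 0 < ‖C.val v‖ ^ 2 := pow_pos (norm_pos_iff.2 fun h => hv (C.inj v h)) 2
    have hβ' : 0 < m1 + ε₁ * K := by positivity
    have e6 : C.S ≤ (m1 + ε₁ * K) * ‖C.val w‖ ^ 2 := by
      have f1 := (C.sob v).trans (e5.trans (mul_le_mul_of_nonneg_left (C.R_le w v) hβ'.le))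
      exact le_of_mul_le_mul_right (by linarith) hv2
    have e7 := hlow φ φ _ hφ hφ (C.expl_ub hP hq1 hq2 h1 hβ1.le (hβ1.trans hβ2).le)
    rw [hw.q_eq, P_eq, le_div_iff₀ (by positivity)] at e7
    have e8 : m1 * ‖C.val w‖ ^ 2 ≤ σ :=
      (pow_le_pow_iff_left₀ (by positivity) hσ.le two_ne_zero).1 (by clear * - m1 X μ H C w σ e7; nlinarith)
    have e9 := mul_le_mul_of_nonneg_left e8 hβ'.le
    have e10 := mul_le_mul_of_nonneg_left e6 h1.le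
    clear * - m1 ε₁ K σ X H μ C w hs e9 e10; nlinarith
  · exfalso
    have hR := C.R_pos hp hu
    have e1 := mul_le_mul_of_nonneg_left (C.picone_sol1 hw hp u) hL1.le
    have e2 := C.q_ratio hl.le u
    have e3 := mul_le_mul_of_nonneg_left hq hL2.le
    have e4 := mul_lt_mul_of_pos_right hr hR
    clear * - X H μ C l1 m2 w u l2 β e1 e2 e3 e4; nlinarith

end Ctx
end CritSys
end
end

-- merged part: Pool.Agent.Work.MP_80ee1d_an.Final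
section
/-! The four results in the language of the statements. -/

open MeasureTheory

noncomputable section
namespace CritSys

theorem final_near (Ω : Set E4) (ho : IsOpen Ω) (hc : IsConnected Ω)
    (hb : Bornology.IsBounded Ω) (μ₁ μ₂ : ℝ) (h1 : 0 < μ₁) (h2 : 0 < μ₂) (ρ : ℝ) (hρ : 0 < ρ) :
    ∃ ε : ℝ, 0 < ε ∧ ∀ l₁ l₂ : ℝ, -lam1 Ω < l₁ → l₁ ≤ l₂ → l₂ < 0 → l₂ < -lam1 Ω + ε →
      ρ ≤ (lam1 Ω + l₁) / (lam1 Ω + l₂) →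
      ρ ≤ |((lam1 Ω + l₁) / (lam1 Ω + l₂)) ^ 2 * μ₂ - μ₁| →
      ∀ β : ℝ, 0 ≤ β → (HasGroundState Ω l₁ l₂ μ₁ μ₂ β ↔
        β < min (betaHat Ω l₁ μ₁ l₂) (betaHat Ω l₂ μ₂ l₁) ∨
          max (betaHat Ω l₁ μ₁ l₂) (betaHat Ω l₂ μ₂ l₁) < β) := by
  obtain ⟨d, rfl⟩ : ∃ d : Dom, d.Ω = Ω := ⟨⟨Ω, ho, hc, hb⟩, rfl⟩
  have hΛ : lam1 d.Ω = (ctx d).Λ := lam1_eq d
  obtain ⟨ε, hε, h⟩ := (ctx d).near h1 h2 hρ
  refine ⟨ε, hε, fun l₁ l₂ k1 k2 k3 k4 k5 k6 β hβ => ?_⟩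
  rw [hΛ] at k1 k4 k5 k6
  have a1 : (ctx d).Adm l₁ := ⟨k1, k2.trans_lt k3⟩
  have a2 : (ctx d).Adm l₂ := ⟨k1.trans_le k2, k3⟩
  have e0 : HasGroundState d.Ω l₁ l₂ μ₁ μ₂ β ↔ _ := hasGS_iff a1 a2 μ₁ μ₂ β
  have e1 : betaHat d.Ω l₁ μ₁ l₂ = _ := betaHat_eq a1 l₂
  have e2 : betaHat d.Ω l₂ μ₂ l₁ = _ := betaHat_eq a2 l₁
  rw [e0, e1, e2]
  exact h l₁ l₂ k1 k2 k3 k4 k5 k6 β hβ

theorem final_range (Ω : Set E4) (ho : IsOpen Ω) (hc : IsConnected Ω)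
    (hb : Bornology.IsBounded Ω) (l₁ l₂ μ₁ μ₂ : ℝ) (k1 : -lam1 Ω < l₁) (k2 : l₁ ≤ l₂)
    (k3 : l₂ < 0) (h1 : 0 < μ₁) (h2 : 0 < μ₂)
    (H1 : ∀ w : H01 Ω, PosSol1 l₁ μ₁ w → energy1 l₁ μ₁ w ≤ level1 Ω l₁ μ₁ + level1 Ω l₂ μ₂ →
      energy1 l₁ μ₁ w = level1 Ω l₁ μ₁)
    (H2 : ∀ w : H01 Ω, PosSol1 l₂ μ₂ w → energy1 l₂ μ₂ w ≤ level1 Ω l₁ μ₁ + level1 Ω l₂ μ₂ →
      energy1 l₂ μ₂ w = level1 Ω l₂ μ₂)
    (β : ℝ) (hβ : 0 ≤ β) (hd : β ^ 2 < μ₁ * μ₂) :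
    HasGroundState Ω l₁ l₂ μ₁ μ₂ β ↔
      β < min (betaHat Ω l₁ μ₁ l₂) (betaHat Ω l₂ μ₂ l₁) := by
  obtain ⟨d, rfl⟩ : ∃ d : Dom, d.Ω = Ω := ⟨⟨Ω, ho, hc, hb⟩, rfl⟩
  have hΛ : lam1 d.Ω = (ctx d).Λ := lam1_eq d
  rw [hΛ] at k1
  have a1 : (ctx d).Adm l₁ := ⟨k1, k2.trans_lt k3⟩
  have a2 : (ctx d).Adm l₂ := ⟨k1.trans_le k2, k3⟩
  have e0 : HasGroundState d.Ω l₁ l₂ μ₁ μ₂ β ↔ _ := hasGS_iff a1 a2 μ₁ μ₂ β
  have e1 : betaHat d.Ω l₁ μ₁ l₂ = _ := betaHat_eq a1 l₂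
  have e2 : betaHat d.Ω l₂ μ₂ l₁ = _ := betaHat_eq a2 l₁
  rw [e0, e1, e2, lt_min_iff]
  refine (ctx d).lowerRange a1 a2 h1 h2 hβ hd ?_ ?_
  · intro W W1 W2 hs hp hW1 hW2 hle
    obtain ⟨w, hw⟩ := exists_rep' W
    have hps : PosSol1 l₁ μ₁ w := (hw.posSol1 l₁ μ₁).2 ⟨hs, hp⟩
    refine (hw.least a1).1 ⟨hps, H1 w hps ?_⟩
    have f1 : level1 d.Ω l₁ μ₁ = _ := level1_eq a1 hW1
    have f2 : level1 d.Ω l₂ μ₂ = _ := level1_eq a2 hW2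
    rw [hw.energy1 hs, f1, f2]
    linarith only [hle]
  · intro W W1 W2 hs hp hW1 hW2 hle
    obtain ⟨w, hw⟩ := exists_rep' W
    have hps : PosSol1 l₂ μ₂ w := (hw.posSol1 l₂ μ₂).2 ⟨hs, hp⟩
    refine (hw.least a2).1 ⟨hps, H2 w hps ?_⟩
    have f1 : level1 d.Ω l₁ μ₁ = _ := level1_eq a1 hW1
    have f2 : level1 d.Ω l₂ μ₂ = _ := level1_eq a2 hW2
    rw [hw.energy1 hs, f1, f2]
    linarith only [hle]

theorem final_explicit (Ω : Set E4) (ho : IsOpen Ω) (hc : IsConnected Ω)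
    (hb : Bornology.IsBounded Ω) (l₁ l₂ μ₁ μ₂ : ℝ) (k1 : -lam1 Ω < l₁) (k2 : l₁ < l₂)
    (k3 : l₂ < 0) (h1 : 0 < μ₁) (h2 : 0 < μ₂) :
    ∃ ε : ℝ, 0 < ε ∧ ∀ β : ℝ, 0 ≤ β →
      β < min (μ₁ + ε) ((lam1 Ω + l₁) / (lam1 Ω + l₂) * μ₂) → HasGroundState Ω l₁ l₂ μ₁ μ₂ β := by
  obtain ⟨d, rfl⟩ : ∃ d : Dom, d.Ω = Ω := ⟨⟨Ω, ho, hc, hb⟩, rfl⟩
  have hΛ : lam1 d.Ω = (ctx d).Λ := lam1_eq d
  rw [hΛ] at k1 ⊢
  have a1 : (ctx d).Adm l₁ := ⟨k1, k2.trans k3⟩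
  have a2 : (ctx d).Adm l₂ := ⟨k1.trans k2, k3⟩
  obtain ⟨ε, hε, h⟩ := (ctx d).lowerExplicit a1 a2 k2 h1 h2
  refine ⟨ε, hε, fun β hβ hlt => (hasGS_iff a1 a2 μ₁ μ₂ β).2 (h β hβ (lt_min_iff.1 hlt).1 ?_)⟩
  have h3 := (lt_min_iff.1 hlt).2
  have h4 : 0 < (ctx d).Λ + l₂ := by linarith only [k2, k1, a2.1]
  rwa [div_mul_eq_mul_div, lt_div_iff₀ h4] at h3

theorem final_gap (Ω : Set E4) (ho : IsOpen Ω) (hc : IsConnected Ω)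
    (hb : Bornology.IsBounded Ω) (l₁ l₂ μ₁ μ₂ : ℝ) (k1 : -lam1 Ω < l₁) (k2 : l₁ < l₂)
    (k3 : l₂ < 0) (h2 : 0 < μ₂) (hm : μ₂ ≤ μ₁) :
    ∃ ε : ℝ, 0 < ε ∧ ∀ β : ℝ, μ₂ - ε ≤ β → β ≤ μ₁ + ε → ¬ HasGroundState Ω l₁ l₂ μ₁ μ₂ β := by
  obtain ⟨d, rfl⟩ : ∃ d : Dom, d.Ω = Ω := ⟨⟨Ω, ho, hc, hb⟩, rfl⟩
  have hΛ : lam1 d.Ω = (ctx d).Λ := lam1_eq d
  rw [hΛ] at k1
  have a1 : (ctx d).Adm l₁ := ⟨k1, k2.trans k3⟩
  have a2 : (ctx d).Adm l₂ := ⟨k1.trans k2, k3⟩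
  obtain ⟨ε, hε, h⟩ := (ctx d).gap a1 a2 k2 h2 hm
  exact ⟨ε, hε, fun β hβ hβ' hg => h β hβ hβ' ((hasGS_iff a1 a2 μ₁ μ₂ β).1 hg)⟩

end CritSys
end
end
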