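import Pool.Agent.Work.MP_80ee1d_an.SmpB

/-!
Small positive solutions are almost parallel to the first eigenfunction, part A.
All norms `‖val ·‖` are `L⁴` norms; `e = val φ` has norm one, `g = γ S`.

PLAN. `proj`: `h = d - x • φ` has `M h φ = 0`, `⟪φ, h⟫ = 0`, so
`ℓ h = B l d h = ‖h‖² + l M h h ≥ γ ‖h‖² ≥ γ S ‖val h‖²`; and `ℓ φ = B l d φ = (Λ + l) M d φ`.
`par`: apply `proj` with `N = (m ‖u‖² + β ‖v‖²) ‖u‖` (`T_abs_le`); `x > 0` by `M_pos_of_pos`;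
`‖u - x e‖ ≤ (θ/2) ‖u‖ ≤ (θ/2)(x + ‖u - x e‖)`.
`uniq`: `δ = γ S / 1000`.  `d = w - z` satisfies `B l d ψ = m (T w w d ψ + T w z d ψ + T z z d ψ)`;
`proj` gives `d₀` with `‖val d - d₀ e‖ ≤ (3/1000) ‖val d‖`, so `≤ |d₀| / 100`.  From
`B l w z = B l z w`: `T w z w d + T w z z d = 0`.  Insert `val d = d₀ e + h`; by `par` (`θ = 1/100`,
`β = 0`) and `T4_approx` the `e`-part has size `≥ (85/100) |d₀| (x² y + x y²)`, the `h`-part is
at most `(101/100)³ (x² y + x y²) |d₀| / 100`.  So `d₀ = 0`, `val d = 0`, `C.inj`.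
`onemode`, `scalar_est`: `par` and `T4_approx` with `θ = min 1 (ρ / 15)`, resp. `ρ / 45`; divide
the tested equation by `x`.  In `scalar_est`, with `X = x²`, `k = (Λ + l) M φ φ`:
`|k - m X| ≤ 15 θ m X`, `q l w = m P w ≥ (1 - 15 θ) m X²`, `R w φ ≥ (1 - 15 θ) X`.
-/

open MeasureTheory Filter Topology
open scoped RealInnerProductSpace

noncomputable section
namespace CritSys
namespace Ctx

variable {X : Type} [MeasurableSpace X] {H : Type} [NormedAddCommGroup H] [InnerProductSpace ℝ H]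
  {μ : Measure X} [IsFiniteMeasure μ] (C : Ctx H μ) {φ : H} {γ : ℝ}

theorem proj (hE : C.Eig φ γ) {l : ℝ} (hl : -C.Λ ≤ l) {d : H} {ℓ : H → ℝ} {N : ℝ} (hN : 0 ≤ N)
    (h : ∀ ψ, C.B l d ψ = ℓ ψ) (hℓ : ∀ ψ, |ℓ ψ| ≤ N * ‖C.val ψ‖) :
    ‖C.val d - (C.M d φ / C.M φ φ) • C.val φ‖ ≤ N / (γ * C.S) ∧ (C.Λ + l) * C.M d φ = ℓ φ := by
  have hM := C.M_pos hE.pos.ne_zero
  have hg : 0 < γ * C.S := mul_pos hE.γ_pos C.S_pos
  refine ⟨?_, by rw [← h, B, real_inner_comm, hE.eq, C.M_comm φ]; ring⟩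
  rw [← map_smul, ← map_sub]
  set x := C.M d φ / C.M φ φ with hx
  set r := d - x • φ with hr
  have h1 : C.M r φ = 0 := by rw [hr, M_sub1, M_smul1, hx, div_mul_cancel₀ _ hM.ne', sub_self]
  have h2 : C.B l φ r = 0 := by rw [B, hE.eq, C.M_comm φ, h1]; ring
  have h3 : C.q l r = ℓ r := by
    rw [← h, ← B_self]
    conv_lhs => rw [hr, B_sub1, B_smul1, ← hr, h2, mul_zero, sub_zero]
  have h4 := hE.gap r h1
  have h5 := mul_le_mul_of_nonneg_left (C.sob r) hE.γ_pos.le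
  have h6 := mul_le_mul_of_nonneg_right hl (C.M_nonneg r)
  have h7 := (le_abs_self _).trans (hℓ r)
  rw [q] at h3
  rcases (norm_nonneg (C.val r)).eq_or_lt with h0 | h0
  · rw [← h0]; positivity
  · rw [le_div_iff₀ hg]
    exact le_of_mul_le_mul_right (by linarith) h0

theorem PertA_norm (hE : C.Eig φ γ) (u : H) (x : ℝ) :
    ‖C.val u‖ ≤ ‖C.val u - x • C.val φ‖ + |x| := by
  have := norm_add_le (C.val u - x • C.val φ) (x • C.val φ)
  rwa [sub_add_cancel, norm_smul, hE.norm, mul_one, Real.norm_eq_abs] at this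

theorem PertA_one (hE : C.Eig φ γ) {θ : ℝ} (hθ : 0 ≤ θ) :
    ‖C.val φ - (1 : ℝ) • C.val φ‖ ≤ θ * 1 := by
  simpa using hθ

theorem par (hE : C.Eig φ γ) {l m β θ : ℝ} (hl : -C.Λ ≤ l) (hm : 0 ≤ m) (hβ : 0 ≤ β)
    (hθ : 0 < θ) (hθ1 : θ ≤ 1) {u v : H} (h : C.Eqn l m β u v) (hu : C.Pos u)
    (hs : m * ‖C.val u‖ ^ 2 + β * ‖C.val v‖ ^ 2 ≤ θ / 2 * (γ * C.S)) :
    ∃ x : ℝ, 0 < x ∧ ‖C.val u - x • C.val φ‖ ≤ θ * x ∧
      (C.Λ + l) * C.M φ φ * x = m * C.T u u u φ + β * C.T v v u φ := by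
  have hM := C.M_pos hE.pos.ne_zero
  have hg : 0 < γ * C.S := mul_pos hE.γ_pos C.S_pos
  obtain ⟨h1, h2⟩ := C.proj hE hl (N := θ / 2 * (γ * C.S) * ‖C.val u‖) (by positivity) h fun ψ => by
    have a := mul_le_mul_of_nonneg_left (C.T_abs_le u u u ψ) hm
    have b := mul_le_mul_of_nonneg_left (C.T_abs_le v v u ψ) hβ
    have c := mul_le_mul_of_nonneg_right hs (mul_nonneg (norm_nonneg (C.val u)) (norm_nonneg (C.val ψ)))
    refine (abs_add_le _ _).trans ?_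
    rw [abs_mul, abs_mul, abs_of_nonneg hm, abs_of_nonneg hβ]
    linarith
  have hx : 0 < C.M u φ / C.M φ φ := div_pos (C.M_pos_of_pos hu hE.pos.nonneg hE.pos.ne_zero) hM
  refine ⟨_, hx, ?_, by rw [← h2, mul_assoc, mul_div_cancel₀ _ hM.ne']⟩
  have h3 := C.PertA_norm hE u (C.M u φ / C.M φ φ)
  rw [abs_of_pos hx] at h3
  rw [mul_right_comm, mul_div_cancel_right₀ _ hg.ne'] at h1
  have h4 := mul_le_mul_of_nonneg_left h3 hθ.le
  have h5 := mul_le_mul_of_nonneg_right hθ1 (norm_nonneg (C.val u - (C.M u φ / C.M φ φ) • C.val φ))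
  linarith

omit [IsFiniteMeasure μ] in
theorem PertA_zero {e a b d : L4 μ} {x y t : ℝ} (he : ‖e‖ = 1) (hx : 0 < x) (hy : 0 < y)
    (ht : 0 ≤ t) (ha : ‖a - x • e‖ ≤ 1 / 100 * x) (hb : ‖b - y • e‖ ≤ 1 / 100 * y)
    (hd : ‖d - t • e‖ ≤ 1 / 100 * t) (h : T4 a b a d + T4 a b b d = 0) : t = 0 := by
  have h1 := (abs_le.1 (T4_approx he (by norm_num) (by norm_num) hx.le hy.le hx.le ht ha hb ha hd)).1
  have h2 := (abs_le.1 (T4_approx he (by norm_num) (by norm_num) hx.le hy.le hy.le ht ha hb hb hd)).1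
  by_contra h0
  have ht' := lt_of_le_of_ne ht (Ne.symm h0)
  have : 0 < x * y * x * t := by positivity
  have : 0 < x * y * y * t := by positivity
  linarith

theorem uniq (hE : C.Eig φ γ) : ∃ δ : ℝ, 0 < δ ∧ ∀ (l m : ℝ) (w z : H), -C.Λ ≤ l → 0 < m →
    C.Sol1 l m w → C.Pos w → C.Sol1 l m z → C.Pos z → m * ‖C.val w‖ ^ 2 ≤ δ →
    m * ‖C.val z‖ ^ 2 ≤ δ → w = z := by
  have hg : 0 < γ * C.S := mul_pos hE.γ_pos C.S_pos
  refine ⟨γ * C.S / 1000, by positivity, fun l m w z hl hm sw pw sz pz nw nz => ?_⟩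
  obtain ⟨x, hx, ax, -⟩ := C.par hE (θ := 1 / 100) hl hm.le le_rfl (by norm_num) (by norm_num)
    ((C.sol1_iff l m w w).1 sw) pw (by linarith)
  obtain ⟨y, hy, ay, -⟩ := C.par hE (θ := 1 / 100) hl hm.le le_rfl (by norm_num) (by norm_num)
    ((C.sol1_iff l m z z).1 sz) pz (by linarith)
  obtain ⟨h1, -⟩ := C.proj hE hl (d := w - z) (N := 3 / 1000 * ‖C.val (w - z)‖ * (γ * C.S))
    (ℓ := fun ψ => m * (C.T w w (w - z) ψ + C.T w z (w - z) ψ + C.T z z (w - z) ψ)) (by positivity)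
    (fun ψ => by
      rw [B_sub1, sw, sz, T_sub3, T_sub3, T_sub3, C.T_swap23 w z w, C.T_swap13 w z z]
      ring)
    (fun ψ => by
      have a := C.T_abs_le w w (w - z) ψ
      have b := C.T_abs_le w z (w - z) ψ
      have c := C.T_abs_le z z (w - z) ψ
      have e := (abs_add_three _ _ _).trans (add_le_add (add_le_add a b) c)
      have k : m * (‖C.val w‖ * ‖C.val w‖ + ‖C.val w‖ * ‖C.val z‖ + ‖C.val z‖ * ‖C.val z‖) ≤
          3 / 1000 * (γ * C.S) := by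
        have := mul_nonneg hm.le (sq_nonneg (‖C.val w‖ - ‖C.val z‖))
        linarith
      have k' := mul_le_mul_of_nonneg_right k
        (mul_nonneg (norm_nonneg (C.val (w - z))) (norm_nonneg (C.val ψ)))
      have e' := mul_le_mul_of_nonneg_left e hm.le
      rw [abs_mul, abs_of_pos hm]
      linarith)
  rw [mul_div_cancel_right₀ _ hg.ne'] at h1
  generalize C.M (w - z) φ / C.M φ φ = t at h1
  have h2 := C.PertA_norm hE (w - z) t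
  have h3 : ‖C.val (w - z) - t • C.val φ‖ ≤ 1 / 100 * |t| := by
    have := abs_nonneg t
    linarith
  have h4 : C.T w z w (w - z) + C.T w z z (w - z) = 0 := by
    have e := C.B_comm l w z
    rw [sw, sz] at e
    rw [T_sub4, T_sub4, C.T_swap24 w z w w, mul_left_cancel₀ hm.ne' e, C.T_swap34 w z w z,
      C.T_swap14 w z z z]
    ring
  have h5 : |t| = 0 := by
    rcases le_total 0 t with ht | ht
    · rw [abs_of_nonneg ht] at h3 ⊢
      exact PertA_zero hE.norm hx hy ht ax ay h3 h4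
    · rw [abs_of_nonpos ht] at h3 ⊢
      refine PertA_zero (d := (-1 : ℝ) • C.val (w - z)) hE.norm hx hy (neg_nonneg.2 ht) ax ay ?_ ?_
      · rwa [neg_one_smul, neg_smul, ← neg_sub', norm_neg]
      · rw [T4_smul4, T4_smul4, ← mul_add]
        exact mul_eq_zero_of_right _ h4
  refine sub_eq_zero.1 (C.inj _ (norm_le_zero_iff.1 ?_))
  linarith

theorem onemode (hE : C.Eig φ γ) {ρ : ℝ} (hρ : 0 < ρ) : ∃ δ : ℝ, 0 < δ ∧
    ∀ (l1 l2 m1 m2 β : ℝ) (u v : H), -C.Λ ≤ l1 → -C.Λ ≤ l2 → 0 ≤ m1 → 0 ≤ m2 → 0 ≤ β →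
      C.Eqn l1 m1 β u v → C.Eqn l2 m2 β v u → C.Pos u → C.Pos v →
      m1 * ‖C.val u‖ ^ 2 + β * ‖C.val v‖ ^ 2 ≤ δ → m2 * ‖C.val v‖ ^ 2 + β * ‖C.val u‖ ^ 2 ≤ δ →
      ∃ x y : ℝ, 0 < x ∧ 0 < y ∧
        (1 - ρ) * (m1 * x + β * y) ≤ (C.Λ + l1) * C.M φ φ ∧
        (C.Λ + l2) * C.M φ φ ≤ (1 + ρ) * (β * x + m2 * y) := by
  have hg : 0 < γ * C.S := mul_pos hE.γ_pos C.S_pos
  obtain ⟨θ, hθ, hθ1, hθρ⟩ : ∃ θ : ℝ, 0 < θ ∧ θ ≤ 1 ∧ 15 * θ ≤ ρ :=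
    ⟨min 1 (ρ / 15), by positivity, min_le_left _ _, by linarith [min_le_right 1 (ρ / 15)]⟩
  refine ⟨θ / 2 * (γ * C.S), by positivity,
    fun l1 l2 m1 m2 β u v hl1 hl2 h1 h2 hβ eu ev pu pv nu nv => ?_⟩
  obtain ⟨x, hx, ax, ex⟩ := C.par hE hl1 h1 hβ hθ hθ1 eu pu nu
  obtain ⟨y, hy, ay, ey⟩ := C.par hE hl2 h2 hβ hθ hθ1 ev pv nv
  have o := C.PertA_one hE hθ.le
  have a1 := (abs_le.1 (T4_approx hE.norm hθ.le hθ1 hx.le hx.le hx.le zero_le_one ax ax ax o)).1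
  have a2 := (abs_le.1 (T4_approx hE.norm hθ.le hθ1 hy.le hy.le hx.le zero_le_one ay ay ax o)).1
  have a3 := (abs_le.1 (T4_approx hE.norm hθ.le hθ1 hy.le hy.le hy.le zero_le_one ay ay ay o)).2
  have a4 := (abs_le.1 (T4_approx hE.norm hθ.le hθ1 hx.le hx.le hy.le zero_le_one ax ax ay o)).2
  unfold T at ex ey
  refine ⟨x ^ 2, y ^ 2, by positivity, by positivity, le_of_mul_le_mul_right ?_ hx,
    le_of_mul_le_mul_right ?_ hy⟩
  · have b1 := mul_le_mul_of_nonneg_left a1 h1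
    have b2 := mul_le_mul_of_nonneg_left a2 hβ
    have b3 := mul_le_mul_of_nonneg_right hθρ (by positivity : 0 ≤ (m1 * x ^ 2 + β * y ^ 2) * x)
    linarith
  · have b1 := mul_le_mul_of_nonneg_left a3 h2
    have b2 := mul_le_mul_of_nonneg_left a4 hβ
    have b3 := mul_le_mul_of_nonneg_right hθρ (by positivity : 0 ≤ (β * x ^ 2 + m2 * y ^ 2) * y)
    linarith

theorem PertA_alg {η ρ k a : ℝ} (h0 : 0 ≤ η) (h1 : 3 * η ≤ 1) (h2 : 3 * η ≤ ρ) (hk : 0 ≤ k)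
    (ha : 0 ≤ a) (h : k ≤ (1 + η) * a) :
    (1 - ρ) * k ^ 2 ≤ (1 - η) * a ^ 2 ∧ (1 - ρ) * k ≤ (1 - η) * a := by
  have b1 := mul_le_mul_of_nonneg_left (pow_le_pow_left₀ hk h 2) (sub_nonneg.2 h1)
  have b2 := mul_le_mul_of_nonneg_left h (sub_nonneg.2 h1)
  have b3 := mul_le_mul_of_nonneg_right h2 (sq_nonneg k)
  have b4 := mul_le_mul_of_nonneg_right h2 hk
  have b5 : 0 ≤ (5 * η ^ 2 + 3 * η ^ 3) * a ^ 2 := by positivity
  have b6 : 0 ≤ (η + 3 * η ^ 2) * a := by positivity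
  constructor <;> linarith

theorem scalar_est (hE : C.Eig φ γ) {ρ : ℝ} (hρ : 0 < ρ) : ∃ δ : ℝ, 0 < δ ∧
    ∀ (l m : ℝ) (w : H), -C.Λ ≤ l → 0 < m → C.Sol1 l m w → C.Pos w → m * ‖C.val w‖ ^ 2 ≤ δ →
      (1 - ρ) * ((C.Λ + l) * C.M φ φ) ^ 2 ≤ m * C.q l w ∧
      (1 - ρ) * ((C.Λ + l) * C.M φ φ) ≤ m * C.R w φ := by
  have hg : 0 < γ * C.S := mul_pos hE.γ_pos C.S_pos
  obtain ⟨θ, hθ, hθ1, hθρ⟩ : ∃ θ : ℝ, 0 < θ ∧ 3 * (15 * θ) ≤ 1 ∧ 3 * (15 * θ) ≤ ρ :=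
    ⟨min 1 ρ / 45, by positivity, by linarith [min_le_left 1 ρ], by linarith [min_le_right 1 ρ]⟩
  have hθ2 : θ ≤ 1 := by linarith
  refine ⟨θ / 2 * (γ * C.S), by positivity, fun l m w hl hm sw pw nw => ?_⟩
  obtain ⟨x, hx, ax, ex⟩ := C.par hE hl hm.le le_rfl hθ hθ2 ((C.sol1_iff l m w w).1 sw) pw
    (by linarith)
  have o := C.PertA_one hE hθ.le
  have a1 := (abs_le.1 (T4_approx hE.norm hθ.le hθ2 hx.le hx.le hx.le zero_le_one ax ax ax o)).2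
  have a2 := (abs_le.1 (T4_approx hE.norm hθ.le hθ2 hx.le hx.le hx.le hx.le ax ax ax ax)).1
  have a3 := (abs_le.1 (T4_approx hE.norm hθ.le hθ2 hx.le hx.le zero_le_one zero_le_one ax ax o o)).1
  unfold T at ex
  obtain ⟨c1, c2⟩ := PertA_alg (k := (C.Λ + l) * C.M φ φ) (a := m * x ^ 2) (by positivity) hθ1 hθρ
    (mul_nonneg (by linarith) (C.M_nonneg φ)) (by positivity) (le_of_mul_le_mul_right (by
      have := mul_le_mul_of_nonneg_left a1 hm.le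
      linarith) hx)
  have b2 := mul_le_mul_of_nonneg_left a2 (sq_nonneg m)
  have b3 := mul_le_mul_of_nonneg_left a3 hm.le
  rw [sw.q_eq, P, R, T, T]
  constructor <;> linarith

end Ctx
end CritSys
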