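import Pool.Agent.Work.MP_80ee1d_an.Stmt
import Pool.Agent.Work.MP_80ee1d_an.Ctx

/-!
The homogeneous Sobolev space `D` on `ℝ⁴`: the closure in `L²(ℝ⁴; ℝ⁴)` of the gradients of test
functions, with `val : D → L⁴` (extension by continuity, Sobolev inequality) and the closed
subspaces `H0 Ω`.

PLAN. `gradient f x = (InnerProductSpace.toDual ℝ E4).symm (fderiv ℝ f x)`, so it is continuous with
compact support (`HasCompactSupport.fderiv`, `Continuous.memLp_of_hasCompactSupport`) and
`‖gradient f x‖ = ‖fderiv ℝ f x‖`.  `tst_sobolev`: `eLpNorm_le_eLpNorm_fderiv_of_eq_inner` with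
`p = 2`, `p' = 4`, `finrank = 4`.  `val_ofT`: `LinearMap.extendOfNorm_eq`.
-/

open MeasureTheory Filter Topology
open scoped ContDiff RealInnerProductSpace ENNReal

noncomputable section
namespace CritSys

/-- Smooth compactly supported functions. -/
def Tst : Submodule ℝ (E4 → ℝ) where
  carrier := {f | ContDiff ℝ ∞ f ∧ HasCompactSupport f}
  add_mem' := fun hf hg => ⟨hf.1.add hg.1, hf.2.add hg.2⟩
  zero_mem' := ⟨contDiff_const, HasCompactSupport.zero⟩
  smul_mem' := fun c _ hf => ⟨hf.1.const_smul c, hf.2.smul_left⟩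

theorem norm_gradient (f : E4 → ℝ) (x : E4) : ‖gradient f x‖ = ‖fderiv ℝ f x‖ := by
  rw [gradient, LinearIsometryEquiv.norm_map]

theorem inner_gradient (f : E4 → ℝ) (x v : E4) : ⟪gradient f x, v⟫ = fderiv ℝ f x v := by
  rw [gradient, InnerProductSpace.toDual_symm_apply]

theorem continuous_gradient {f : E4 → ℝ} (hf : ContDiff ℝ ∞ f) : Continuous (gradient f) := by
  exact (InnerProductSpace.toDual ℝ E4).symm.continuous.comp (hf.continuous_fderiv (by simp))

theorem gradient_eq_zero_of_notMem {f : E4 → ℝ} {x : E4} (hx : x ∉ tsupport f) :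
    gradient f x = 0 := by
  rw [gradient, fderiv_of_notMem_tsupport ℝ hx, map_zero]

theorem tst_memLp (f : Tst) (p : ℝ≥0∞) : MemLp (f : E4 → ℝ) p volume := by
  exact f.2.1.continuous.memLp_of_hasCompactSupport f.2.2

theorem tst_memLp_grad (f : Tst) (p : ℝ≥0∞) : MemLp (gradient (f : E4 → ℝ)) p volume := by
  exact (continuous_gradient f.2.1).memLp_of_hasCompactSupport
    (HasCompactSupport.intro f.2.2 fun x hx => gradient_eq_zero_of_notMem hx)

theorem tst_gradient_add (f g : Tst) :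
    gradient ((f + g : Tst) : E4 → ℝ) = gradient (f : E4 → ℝ) + gradient (g : E4 → ℝ) := by
  funext x
  rw [Pi.add_apply, gradient, gradient, gradient, ← map_add, Submodule.coe_add,
    fderiv_add (f.2.1.differentiable (by simp) x) (g.2.1.differentiable (by simp) x)]

theorem tst_gradient_smul (c : ℝ) (f : Tst) :
    gradient ((c • f : Tst) : E4 → ℝ) = c • gradient (f : E4 → ℝ) := by
  funext x
  rw [Pi.smul_apply, gradient, gradient, Submodule.coe_smul,
    fderiv_const_smul (f.2.1.differentiable (by simp) x), map_smul]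

/-- The gradient of a test function as an element of `L²`. -/
def gradL : Tst →ₗ[ℝ] Lp E4 2 (volume : Measure E4) where
  toFun f := (tst_memLp_grad f 2).toLp _
  map_add' f g := by
    rw [← MemLp.toLp_add]
    exact MemLp.toLp_congr _ _ (Eventually.of_forall fun x => by rw [tst_gradient_add])
  map_smul' c f := by
    rw [RingHom.id_apply, ← MemLp.toLp_const_smul]
    exact MemLp.toLp_congr _ _ (Eventually.of_forall fun x => by rw [tst_gradient_smul])

/-- A test function as an element of `L⁴`. -/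
def valL : Tst →ₗ[ℝ] L4 (volume : Measure E4) where
  toFun f := (tst_memLp f 4).toLp _
  map_add' f g := by rw [← MemLp.toLp_add]; rfl
  map_smul' c f := by rw [RingHom.id_apply, ← MemLp.toLp_const_smul]; rfl

/-- The closure of the gradients of test functions. -/
def DD : Submodule ℝ (Lp E4 2 (volume : Measure E4)) := (LinearMap.range gradL).topologicalClosure

/-- The homogeneous Sobolev space. -/
def D : Type := ↥DD

instance : NormedAddCommGroup D := inferInstanceAs (NormedAddCommGroup ↥DD)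
instance : InnerProductSpace ℝ D := inferInstanceAs (InnerProductSpace ℝ ↥DD)
instance : CompleteSpace D :=
  inferInstanceAs (CompleteSpace ↥(LinearMap.range gradL).topologicalClosure)
instance : SecondCountableTopology D := by
  have : Fact ((2 : ℝ≥0∞) ≠ ⊤) := ⟨by norm_num⟩
  exact inferInstanceAs (SecondCountableTopology ↥DD)

/-- The gradient field as an element of `L²`. -/
def grdL : D →L[ℝ] Lp E4 2 (volume : Measure E4) := DD.subtypeL

/-- The gradient field. -/
def grd (u : D) : E4 → E4 := grdL u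

/-- The class of a test function. -/
def ofT : Tst →ₗ[ℝ] D :=
  gradL.codRestrict DD fun f => Submodule.le_topologicalClosure _ (LinearMap.mem_range_self _ f)

/-- The function attached to an element of `D`. -/
def val : D →L[ℝ] L4 (volume : Measure E4) := valL.extendOfNorm ofT

/-- Test functions supported in `Ω`. -/
def TstIn (Ω : Set E4) : Submodule ℝ Tst where
  carrier := {f | tsupport (f : E4 → ℝ) ⊆ Ω}
  add_mem' := fun {f g} hf hg =>
    (tsupport_add (f : E4 → ℝ) (g : E4 → ℝ)).trans (Set.union_subset hf hg)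
  zero_mem' := by simp
  smul_mem' := fun c f hf =>
    (tsupport_smul_subset_right (fun _ : E4 => c) (f : E4 → ℝ)).trans hf

/-- The space `H¹₀(Ω)` inside `D`. -/
def H0 (Ω : Set E4) : Submodule ℝ D := ((TstIn Ω).map ofT).topologicalClosure

/-- The best Sobolev constant. -/
def S0 : ℝ := sInf {r | ∃ u : D, ‖val u‖ = 1 ∧ r = ‖u‖ ^ 2}

theorem norm_grdL (u : D) : ‖grdL u‖ = ‖u‖ := rfl

theorem grd_memLp (u : D) : MemLp (grd u) 2 volume := Lp.memLp _

theorem norm_sq_D (u : D) : ‖u‖ ^ 2 = ∫ x, ‖grd u x‖ ^ 2 := by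
  rw [← norm_grdL, ← real_inner_self_eq_norm_sq, L2.inner_def]
  simp only [real_inner_self_eq_norm_sq, grd]

theorem inner_D (u v : D) : ⟪u, v⟫ = ∫ x, ⟪grd u x, grd v x⟫ := by
  exact L2.inner_def (grdL u) (grdL v)

theorem grd_add (u v : D) : ∀ᵐ x, grd (u + v) x = grd u x + grd v x := by
  filter_upwards [Lp.coeFn_add (grdL u) (grdL v)] with x hx
  rw [grd, map_add, hx]
  rfl

theorem grd_sub (u v : D) : ∀ᵐ x, grd (u - v) x = grd u x - grd v x := by
  filter_upwards [Lp.coeFn_sub (grdL u) (grdL v)] with x hx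
  rw [grd, map_sub, hx]
  rfl

theorem grd_smul (c : ℝ) (u : D) : ∀ᵐ x, grd (c • u) x = c • grd u x := by
  filter_upwards [Lp.coeFn_smul c (grdL u)] with x hx
  rw [grd, map_smul, hx]
  rfl

theorem D_ext {u v : D} (h : ∀ᵐ x, grd u x = grd v x) : u = v := by
  exact Subtype.ext (Lp.ext h)

theorem grd_ofT (f : Tst) : ∀ᵐ x, grd (ofT f) x = gradient (f : E4 → ℝ) x := by
  exact (tst_memLp_grad f 2).coeFn_toLp

theorem denseRange_ofT : DenseRange ofT := by
  intro u
  refine (closure_subtype (p := fun z => z ∈ DD)).2 (closure_mono ?_ u.2)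
  rintro _ ⟨f, rfl⟩
  exact ⟨ofT f, ⟨f, rfl⟩, rfl⟩

theorem tst_sobolev : ∃ c : ℝ, ∀ f : Tst, ‖valL f‖ ≤ c * ‖ofT f‖ := by
  refine ⟨eLpNormLESNormFDerivOfEqInnerConst (volume : Measure E4) ((2 : NNReal) : ℝ),
    fun f => ?_⟩
  have h := eLpNorm_le_eLpNorm_fderiv_of_eq_inner (μ := (volume : Measure E4))
    (u := (f : E4 → ℝ)) (f.2.1.of_le (by simp)) f.2.2 (p := 2) (p' := 4) (by norm_num)
    (by simp) (by simp; norm_num)
  have e1 : ‖valL f‖ = (eLpNorm (f : E4 → ℝ) 4 volume).toReal := Lp.norm_toLp _ (tst_memLp f 4)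
  have e2 : ‖ofT f‖ = (eLpNorm (gradient (f : E4 → ℝ)) 2 volume).toReal :=
    Lp.norm_toLp _ (tst_memLp_grad f 2)
  have e3 : eLpNorm (fderiv ℝ (f : E4 → ℝ)) 2 volume = eLpNorm (gradient (f : E4 → ℝ)) 2 volume :=
    eLpNorm_congr_norm_ae (Eventually.of_forall fun x => (norm_gradient _ x).symm)
  have h' : eLpNorm (f : E4 → ℝ) 4 volume ≤
      eLpNormLESNormFDerivOfEqInnerConst (volume : Measure E4) ((2 : NNReal) : ℝ) *
        eLpNorm (gradient (f : E4 → ℝ)) 2 volume := by
    rw [← e3]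
    exact h
  rw [e1, e2, ← ENNReal.coe_toReal, ← ENNReal.toReal_mul]
  exact ENNReal.toReal_mono
    (ENNReal.mul_ne_top ENNReal.coe_ne_top (tst_memLp_grad f 2).eLpNorm_ne_top) h'

theorem val_ofT (f : Tst) : ∀ᵐ x, val (ofT f) x = (f : E4 → ℝ) x := by
  rw [val, LinearMap.extendOfNorm_eq denseRange_ofT tst_sobolev]
  exact (tst_memLp f 4).coeFn_toLp

theorem norm_sq_ofT (f : Tst) : ‖ofT f‖ ^ 2 = ∫ x, ‖gradient (f : E4 → ℝ) x‖ ^ 2 := by
  rw [norm_sq_D]
  refine integral_congr_ae ?_
  filter_upwards [grd_ofT f] with x hx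
  rw [hx]

theorem norm_val_pow (u : D) : ‖val u‖ ^ 4 = ∫ x, val u x ^ 4 := by
  rw [← T4_self, T4]
  congr 1
  funext x
  ring

theorem norm_val_ofT (f : Tst) : ‖val (ofT f)‖ ^ 4 = ∫ x, (f : E4 → ℝ) x ^ 4 := by
  rw [norm_val_pow]
  refine integral_congr_ae ?_
  filter_upwards [val_ofT f] with x hx
  rw [hx]

theorem isClosed_H0 (Ω : Set E4) : IsClosed (H0 Ω : Set D) :=
  Submodule.isClosed_topologicalClosure _

theorem ofT_mem_H0 {Ω : Set E4} {f : Tst} (hf : tsupport (f : E4 → ℝ) ⊆ Ω) : ofT f ∈ H0 Ω :=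
  Submodule.le_topologicalClosure _ (Submodule.mem_map_of_mem hf)

end CritSys
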